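import Pool.Agent.MSN.ATargets
import Pool.Agent.MSF.Final

/-! M4: assembly. -/

namespace Pool.Agent.MSN.Alg

open List Pool.Agent.MSF Pool.Agent.MSN Pool.Agent.MSN.Fin

universe u

theorem alga_conn {V : Type u} {G : SimpleGraph V} (h : G.Connected) (a b : V) :
    ∃ P, IsP G a b P := by
  obtain ⟨w⟩ := h.preconnected a b
  induction w with
  | nil => exact ⟨_, IsP.single _⟩
  | cons hadj _ ih =>
    obtain ⟨P, hP⟩ := ih
    exact ⟨_, IsP.cons hadj hP⟩

theorem alga_cocy {V : Type u} {G : SimpleGraph V} (hF : G.CliqueFree 5) (v : V)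
    (η : V → V → V → ZMod 2) : Cocy (lkG G v) η := by
  classical
  intro a b c d hab hac had hbc hbd hcd
  exfalso
  have hva : G.Adj v a := hab.2.1
  have hvb : G.Adj v b := hab.2.2
  have hvc : G.Adj v c := hac.2.2
  have hvd : G.Adj v d := had.2.2
  refine hF {v, a, b, c, d} ?_
  have h1 : G.IsNClique 2 {c, d} := by
    have := (SimpleGraph.isNClique_one (G := G) (s := {d})).2 ⟨d, rfl⟩
    refine this.insert ?_
    simpa using hcd.1
  have h2 : G.IsNClique 3 {b, c, d} := by
    refine h1.insert ?_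
    intro x hx
    simp only [Finset.mem_insert, Finset.mem_singleton] at hx
    rcases hx with rfl | rfl
    · exact hbc.1
    · exact hbd.1
  have h3 : G.IsNClique 4 {a, b, c, d} := by
    refine h2.insert ?_
    intro x hx
    simp only [Finset.mem_insert, Finset.mem_singleton] at hx
    rcases hx with rfl | rfl | rfl
    · exact hab.1
    · exact hac.1
    · exact had.1
  refine h3.insert ?_
  intro x hx
  simp only [Finset.mem_insert, Finset.mem_singleton] at hx
  rcases hx with rfl | rfl | rfl | rfl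
  · exact hva
  · exact hvb
  · exact hvc
  · exact hvd

theorem alga_ex5 {V : Type u} [DecidableEq V] {G : SimpleGraph V} (hF : G.CliqueFree 5) (k : ℕ) :
    Ex G (k + 5) := by
  intro c _
  refine ⟨0, fun s hs hk => ?_⟩
  exact absurd (SimpleGraph.isNClique_iff G |>.2 ⟨hs, hk⟩) (hF.mono (by omega) s)

theorem tALGA : T_ALGA.{u} := by
  intro hRES hLARGE hTRIG hUNIQ hINJ hSURJ hEXA hEXC hEXB hEXD hEXF hGX hLT hZETA hCHI hOD hPG
  have key : ∀ {V : Type u} [Fintype V] [DecidableEq V] (G : SimpleGraph V) (len : V → V → ℝ),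
      MetricallySystolic G len → NonObtuse G len → G.CliqueFree 5 → ∀ j, Ex G j := by
    intro V _ _ G len hX hN hF j
    have hA : Angled G (angle len) := angled_of_ms hLARGE hTRIG hX
    have hconn : ∀ a b, ∃ P, IsP G a b P := fun a b => alga_conn hX.simplyConn.1 a b
    match j with
    | 0 => exact (hEXA G hX.simplyConn.1).1
    | 1 => exact (hEXA G hX.simplyConn.1).2
    | 2 => exact (hEXC G).1 (hEXB G hX.simplyConn hconn)
    | 3 =>
      exact (hEXC G).2 (hEXD G hX.simplyConn hconn fun ω h1 h2 P t h3 h4 h5 =>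
        hUNIQ G (angle len) hA ω h1 h2 P t h3 h4 h5)
    | 4 =>
      refine hEXF G fun v η hη => ?_
      obtain ⟨o, g, lam, hL⟩ := hGX G v hconn (hSURJ G len hX hN v)
      refine hZETA (lkG G v) (delG G v) o lam η hη ?_ ?_ hL.lpath hL.rev hL.edge
        (hLT G v o g lam hL fun a p => hINJ G (angle len) hA v a p)
      · intro P t h3 h4 h5
        exact hUNIQ (lkG G v) (angle len) (hRES G (angle len) _ hA) η hη (alga_cocy hF v η)
          P t h3 h4 h5
      · intro a b hab
        exact ⟨hab.1, hab.2.1.ne', hab.2.2.ne'⟩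
    | (k + 5) => exact alga_ex5 hF k
  refine ⟨?_, ?_⟩
  · intro V _ _ G len hX hN hF g hg
    exact hOD G (key G len hX hN hF) g hg
  · intro V _ _ G len hX hN hF p _ H _ _ _ hp hadj
    exact hPG G (hCHI G (key G len hX hN hF)) p H hp hadj

end Pool.Agent.MSN.Alg
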