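import Pool.Agent.MSN.ATargets

/-!
# CHI: the Euler characteristic
-/

namespace Pool.Agent.MSN.Alg

open List Pool.Agent.MSF Pool.Agent.MSN Pool.Agent.MSN.Fin

universe u

section chi

variable {V : Type u} [Fintype V] [DecidableEq V] (G : SimpleGraph V)

/-- Cliques with `j` vertices. -/
abbrev ChiT (j : ℕ) : Type u := {s : Finset V // G.IsClique (s : Set V) ∧ s.card = j}

open Classical in
/-- Extension by zero. -/
noncomputable def chi_E {j : ℕ} (c : ChiT G j → ZMod 2) (s : Finset V) : ZMod 2 :=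
  if h : G.IsClique (s : Set V) ∧ s.card = j then c ⟨s, h⟩ else 0

theorem chi_E_of {j : ℕ} (c : ChiT G j → ZMod 2) (s : ChiT G j) : chi_E G c s.1 = c s := by
  unfold chi_E
  rw [dif_pos s.2]

theorem chi_erase {j : ℕ} {t : Finset V} (h : G.IsClique (t : Set V) ∧ t.card = j + 1) {x : V}
    (hx : x ∈ t) : G.IsClique ((t.erase x : Finset V) : Set V) ∧ (t.erase x).card = j := by
  refine ⟨h.1.subset ?_, ?_⟩
  · intro y hy
    exact Finset.mem_coe.2 (Finset.mem_of_mem_erase (Finset.mem_coe.1 hy))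
  · rw [Finset.card_erase_of_mem hx, h.2, Nat.add_sub_cancel]

/-- The coboundary. -/
noncomputable def chi_D (j : ℕ) : (ChiT G j → ZMod 2) →ₗ[ZMod 2] (ChiT G (j + 1) → ZMod 2) where
  toFun c := fun t => ∑ x ∈ t.1, chi_E G c (t.1.erase x)
  map_add' c c' := by
    funext t
    simp only [Pi.add_apply, ← Finset.sum_add_distrib]
    refine Finset.sum_congr rfl fun x _ => ?_
    unfold chi_E
    split_ifs <;> simp
  map_smul' a c := by
    funext t
    simp only [Pi.smul_apply, smul_eq_mul, RingHom.id_apply, Finset.mul_sum]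
    refine Finset.sum_congr rfl fun x _ => ?_
    unfold chi_E
    split_ifs <;> simp

theorem chi_dd (F : Finset V → ZMod 2) (t : Finset V) :
    ∑ x ∈ t, ∑ y ∈ t.erase x, F ((t.erase x).erase y) = 0 := by
  have h : ∑ x ∈ t, ∑ y ∈ t.erase x, F ((t.erase x).erase y) =
      ∑ p ∈ t.offDiag, F ((t.erase p.1).erase p.2) := by
    rw [Finset.sum_sigma']
    refine Finset.sum_bij (fun p _ => (p.1, p.2)) ?_ ?_ ?_ ?_
    · intro p hp
      rw [Finset.mem_sigma] at hp
      rw [Finset.mem_offDiag]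
      have h2 := Finset.mem_erase.1 hp.2
      exact ⟨hp.1, h2.2, h2.1.symm⟩
    · rintro ⟨a, b⟩ _ ⟨a', b'⟩ _ h
      simp only [Prod.mk.injEq] at h
      obtain ⟨rfl, rfl⟩ := h
      rfl
    · rintro ⟨a, b⟩ h
      rw [Finset.mem_offDiag] at h
      exact ⟨⟨a, b⟩, Finset.mem_sigma.2 ⟨h.1, Finset.mem_erase.2 ⟨h.2.2.symm, h.2.1⟩⟩, rfl⟩
    · intro p _
      rfl
  rw [h]
  refine Finset.sum_involution (fun p _ => p.swap) ?_ ?_ ?_ ?_
  · intro p _
    rw [Prod.fst_swap, Prod.snd_swap, Finset.erase_right_comm]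
    exact CharTwo.add_self_eq_zero _
  · intro p hp _ h2
    rw [Finset.mem_offDiag] at hp
    have h3 := congrArg Prod.fst h2
    rw [Prod.fst_swap] at h3
    exact hp.2.2 h3.symm
  · intro p hp
    rw [Finset.mem_offDiag] at hp ⊢
    exact ⟨hp.2.1, hp.1, hp.2.2.symm⟩
  · intro p _
    exact Prod.swap_swap p

theorem chi_exact (hE : ∀ j, Ex G j) (j : ℕ) :
    LinearMap.ker (chi_D G (j + 1)) = LinearMap.range (chi_D G j) := by
  apply le_antisymm
  · intro c hc
    rw [LinearMap.mem_ker] at hc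
    obtain ⟨e, he⟩ := hE (j + 1) (chi_E G c) (by
      intro t ht ht2
      exact congrFun hc ⟨t, ht, ht2⟩)
    refine ⟨fun s => e s.1, ?_⟩
    funext t
    have h1 := he t.1 t.2.1 t.2.2
    rw [chi_E_of] at h1
    rw [h1]
    show ∑ x ∈ t.1, chi_E G (fun s : ChiT G j => e s.1) (t.1.erase x) = _
    refine Finset.sum_congr rfl fun x hx => ?_
    exact chi_E_of G (fun s : ChiT G j => e s.1) ⟨t.1.erase x, chi_erase G t.2 hx⟩
  · rintro _ ⟨c, rfl⟩
    rw [LinearMap.mem_ker]
    funext t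
    show ∑ x ∈ t.1, chi_E G (chi_D G j c) (t.1.erase x) = 0
    rw [← chi_dd (chi_E G c) t.1]
    refine Finset.sum_congr rfl fun x hx => ?_
    exact chi_E_of G (chi_D G j c) ⟨t.1.erase x, chi_erase G t.2 hx⟩

theorem chi_ker0 (hE : ∀ j, Ex G j) : LinearMap.ker (chi_D G 0) = ⊥ := by
  rw [LinearMap.ker_eq_bot']
  intro c hc
  obtain ⟨e, he⟩ := hE 0 (chi_E G c) (by
    intro t ht ht2
    exact congrFun hc ⟨t, ht, ht2⟩)
  funext s
  have h1 := he s.1 s.2.1 s.2.2
  rw [chi_E_of, Finset.card_eq_zero.1 s.2.2, Finset.sum_empty] at h1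
  exact h1

/-- The rank of the coboundary. -/
noncomputable def chi_r (j : ℕ) : ℕ := Module.finrank (ZMod 2) (LinearMap.range (chi_D G j))

theorem chi_rank (j : ℕ) :
    chi_r G j + Module.finrank (ZMod 2) (LinearMap.ker (chi_D G j)) = nC G j := by
  classical
  unfold chi_r
  rw [LinearMap.finrank_range_add_finrank_ker, Module.finrank_fintype_fun_eq_card]
  unfold nC
  rw [Nat.card_eq_fintype_card]

theorem chi_sum (hE : ∀ j, Ex G j) (n : ℕ) :
    ∑ j ∈ Finset.range (n + 1), (-1 : ℤ) ^ j * (nC G j : ℤ) = (-1) ^ n * (chi_r G n : ℤ) := by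
  induction n with
  | zero =>
    have h := chi_rank G 0
    rw [chi_ker0 G hE, finrank_bot] at h
    simp [← h]
  | succ n ih =>
    rw [Finset.sum_range_succ, ih]
    have h := chi_rank G (n + 1)
    rw [chi_exact G hE n] at h
    have h2 : chi_r G (n + 1) + chi_r G n = nC G (n + 1) := h
    rw [← h2]
    push_cast
    ring

end chi

/-- The target `T_CHI`. -/
theorem tCHI : T_CHI.{u} := by
  intro V _ _ G hE n hn
  obtain ⟨m, rfl⟩ : ∃ m, n = m + 1 := ⟨n - 1, by omega⟩
  rw [chi_sum G hE m]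
  have h : chi_r G m = 0 := by
    unfold chi_r
    have hs : Subsingleton (ChiT G (m + 1) → ZMod 2) := by
      have : IsEmpty (ChiT G (m + 1)) := by
        refine ⟨fun s => ?_⟩
        have h1 := s.2.2
        have h2 := Finset.card_le_univ s.1
        omega
      infer_instance
    exact Module.finrank_zero_of_subsingleton
  rw [h]
  simp

end Pool.Agent.MSN.Alg
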