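import Pool.Agent.MSN.FDefs

/-!
# M4: the algebra (MP_d6353f_al), definitions and calculus of homotopies with values

`HW G ω P Q t`: the path `P` is homotopic to `Q` by a homotopy of value `t`.
-/

namespace Pool.Agent.MSN.Alg

open List Pool.Agent.MSF Pool.Agent.MSN Pool.Agent.MSN.Fin

universe u

/-- Exactness at the cochains on cliques with `j` vertices (mod 2, augmented: `j = 0` is the empty
clique). -/
def Ex {V : Type u} [DecidableEq V] (G : SimpleGraph V) (j : ℕ) : Prop :=
  ∀ c : Finset V → ZMod 2,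
    (∀ t : Finset V, G.IsClique (t : Set V) → t.card = j + 1 → ∑ x ∈ t, c (t.erase x) = 0) →
    ∃ e : Finset V → ZMod 2, ∀ s : Finset V, G.IsClique (s : Set V) → s.card = j →
      c s = ∑ x ∈ s, e (s.erase x)

/-- The number of cliques with `j` vertices. -/
noncomputable def nC {V : Type u} (G : SimpleGraph V) (j : ℕ) : ℕ :=
  Nat.card {s : Finset V // G.IsClique (s : Set V) ∧ s.card = j}

/-- Functions of two variables on edges. -/
def Ex2 {V : Type u} (G : SimpleGraph V) : Prop :=
  ∀ c : V → V → ZMod 2, (∀ a b, c a b = c b a) →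
    (∀ a b d, G.Adj a b → G.Adj b d → G.Adj a d → c b d + c a d + c a b = 0) →
    ∃ f : V → ZMod 2, ∀ a b, G.Adj a b → c a b = f b + f a

/-- Functions of three variables on triangles. -/
def Ex3 {V : Type u} (G : SimpleGraph V) : Prop :=
  ∀ ω : V → V → V → ZMod 2, Sym3 ω → Cocy G ω →
    ∃ η : V → V → ZMod 2, (∀ a b, η a b = η b a) ∧
      ∀ a b d, G.Adj a b → G.Adj b d → G.Adj a d → ω a b d = η b d + η a d + η a b

/-- Extension of cochains on triangles of the link of `v` to cocycles of the complement of `v`. -/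
def ExtV {V : Type u} (G : SimpleGraph V) (v : V) : Prop :=
  ∀ η : V → V → V → ZMod 2, Sym3 η →
    ∃ ζ : V → V → V → ZMod 2, Sym3 ζ ∧ Cocy (delG G v) ζ ∧
      ∀ a b d, (lkG G v).Adj a b → (lkG G v).Adj b d → (lkG G v).Adj a d → ζ a b d = η a b d

section calculus

variable {V : Type u} {G : SimpleGraph V} {ω : V → V → V → ZMod 2}

theorem hw_cast {P Q : List V} {s t : ZMod 2} (h : HW G ω P Q s) (e : s = t) : HW G ω P Q t :=
  e ▸ h

theorem hw_hom {P Q : List V} {t : ZMod 2} (h : HW G ω P Q t) : Hom G P Q := by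
  induction h with
  | refl P => exact Relation.EqvGen.refl _
  | spur p q a b h => exact Relation.EqvGen.rel _ _ (Elem.spur p q a b h)
  | tri p q a b c h1 h2 h3 => exact Relation.EqvGen.rel _ _ (Elem.tri p q a b c h1 h2 h3)
  | symm _ ih => exact Relation.EqvGen.symm _ _ ih
  | trans _ _ ih ih' => exact Relation.EqvGen.trans _ _ _ ih ih'

theorem hw_of_hom (ω : V → V → V → ZMod 2) {P Q : List V} (h : Hom G P Q) :
    ∃ t, HW G ω P Q t := by
  induction h with
  | rel _ _ h =>
    cases h with
    | spur p q a b h => exact ⟨_, HW.spur p q a b h⟩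
    | tri p q a b c h1 h2 h3 => exact ⟨_, HW.tri p q a b c h1 h2 h3⟩
  | refl _ => exact ⟨_, HW.refl _⟩
  | symm _ _ _ ih =>
    obtain ⟨t, ht⟩ := ih
    exact ⟨_, ht.symm⟩
  | trans _ _ _ _ _ ih ih' =>
    obtain ⟨t, ht⟩ := ih
    obtain ⟨t', ht'⟩ := ih'
    exact ⟨_, ht.trans ht'⟩

theorem hw_ctx {P Q : List V} {t : ZMod 2} (X Y : List V) (h : HW G ω P Q t) :
    HW G ω (X ++ P ++ Y) (X ++ Q ++ Y) t := by
  induction h with
  | refl P => exact HW.refl _
  | spur p q a b h => simpa using HW.spur (G := G) (ω := ω) (X ++ p) (q ++ Y) a b h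
  | tri p q a b c h1 h2 h3 =>
    simpa using HW.tri (G := G) (ω := ω) (X ++ p) (q ++ Y) a b c h1 h2 h3
  | symm _ ih => exact ih.symm
  | trans _ _ ih ih' => exact ih.trans ih'

theorem hw_left {P Q : List V} {t : ZMod 2} (X : List V) (h : HW G ω P Q t) :
    HW G ω (X ++ P) (X ++ Q) t := by
  simpa using hw_ctx X [] h

theorem hw_right {P Q : List V} {t : ZMod 2} (Y : List V) (h : HW G ω P Q t) :
    HW G ω (P ++ Y) (Q ++ Y) t := by
  simpa using hw_ctx [] Y h

theorem hw_reverse (hs : Sym3 ω) {P Q : List V} {t : ZMod 2} (h : HW G ω P Q t) :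
    HW G ω P.reverse Q.reverse t := by
  induction h with
  | refl P => exact HW.refl _
  | spur p q a b h => simpa using HW.spur (G := G) (ω := ω) q.reverse p.reverse a b h
  | tri p q a b c h1 h2 h3 =>
    have := HW.tri (G := G) (ω := ω) q.reverse p.reverse c b a h2.symm h1.symm h3.symm
    have e : ω c b a = ω a b c := by
      rw [hs.s12 c b a, hs.s23 b c a, hs.s12 b a c]
    rw [e] at this
    simpa using this
  | symm _ ih => exact ih.symm
  | trans _ _ ih ih' => exact ih.trans ih'

/-- `P⁻¹ P` is homotopic to a constant path, with value zero. -/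
theorem hw_cancel {a b : V} {P : List V} (h : IsP G a b P) :
    HW G ω (P.reverse ++ P.tail) [b] 0 := by
  induction P generalizing a with
  | nil => exact absurd rfl h.ne_nil
  | cons x T ih =>
    rcases h.cases with ⟨h1, h2⟩ | ⟨c, T', h1, h2, h3⟩
    · subst h2
      rw [h1]
      exact HW.refl _
    · simp only [List.cons.injEq] at h1
      obtain ⟨rfl, rfl⟩ := h1
      have h4 := ih h3
      have h5 := HW.spur (G := G) (ω := ω) T'.reverse T' c x h2.symm
      have e1 : (x :: c :: T').reverse ++ (x :: c :: T').tail =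
        T'.reverse ++ c :: x :: c :: T' := by simp
      have e2 : (c :: T').reverse ++ (c :: T').tail = T'.reverse ++ c :: T' := by simp
      rw [e2] at h4
      rw [e1]
      exact hw_cast (h5.symm.trans h4) (by simp)

/-- `P P⁻¹` is homotopic to a constant path, with value zero. -/
theorem hw_cancel' {a b : V} {P : List V} (h : IsP G a b P) :
    HW G ω (P ++ P.reverse.tail) [a] 0 := by
  have := hw_cancel (ω := ω) h.reverse
  simpa using this

theorem isP_eq_cons {a b : V} {P : List V} (h : IsP G a b P) : P = a :: P.tail := by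
  rcases h.cases with ⟨h1, _⟩ | ⟨c, T, h1, _⟩
  · rw [h1]; rfl
  · rw [h1]; rfl

theorem isP_eq_snoc {a b : V} {P : List V} (h : IsP G a b P) : ∃ P₀, P = P₀ ++ [b] := by
  have h1 := isP_eq_cons h.reverse
  refine ⟨P.reverse.tail.reverse, ?_⟩
  have h2 := congrArg List.reverse h1
  simpa using h2

/-- Multiplication on the left, homotopies. -/
theorem hom_mulL {a b c : V} {X P Q : List V} (hX : IsP G a b X) (hP : IsP G b c P)
    (h : Hom G P Q) : Hom G (X ++ P.tail) (X ++ Q.tail) := by
  obtain ⟨X₀, rfl⟩ := isP_eq_snoc hX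
  have hQ : IsP G b c Q := hP.of_hom h
  have h1 := Hom.left X₀ h
  rw [isP_eq_cons hP, isP_eq_cons hQ] at h1
  simpa using h1

/-- Multiplication on the left, homotopies with values. -/
theorem hw_mulL {a b c : V} {X P Q : List V} {t : ZMod 2} (hX : IsP G a b X) (hP : IsP G b c P)
    (h : HW G ω P Q t) : HW G ω (X ++ P.tail) (X ++ Q.tail) t := by
  obtain ⟨X₀, rfl⟩ := isP_eq_snoc hX
  have hQ : IsP G b c Q := hP.of_hom (hw_hom h)
  have h1 := hw_left X₀ h
  rw [isP_eq_cons hP, isP_eq_cons hQ] at h1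
  simpa using h1

theorem isP_mono {G' : SimpleGraph V} (hle : ∀ a b, G.Adj a b → G'.Adj a b) {a b : V}
    {P : List V} (h : IsP G a b P) : IsP G' a b P := by
  simpa using h.map (f := id) hle

theorem hom_mono {G' : SimpleGraph V} (hle : ∀ a b, G.Adj a b → G'.Adj a b)
    {P Q : List V} (h : Hom G P Q) : Hom G' P Q := by
  simpa using h.map (f := id) hle

/-- Two paths with the same ends are homotopic in a simply connected complex. -/
theorem hom_of_simplyConn (hG : SimplyConn G) {a b : V} {P Q : List V} (hP : IsP G a b P)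
    (hQ : IsP G a b Q) : Hom G P Q := by
  have hR := hP.comp hQ.reverse
  -- `P Q⁻¹` is null-homotopic
  have h1 : Hom G (P ++ Q.reverse.tail) [a] := by
    rcases hR.cases with ⟨h1, _⟩ | ⟨c, T, h1, _, h3⟩
    · rw [h1]; exact Relation.EqvGen.refl _
    · rw [h1]
      obtain ⟨T₀, hT₀⟩ := isP_eq_snoc h3
      have := hG.2 a T₀ (by rw [← hT₀, ← h1]; exact hR.chain)
      rwa [← hT₀] at this
  -- `P` is homotopic to `P Q⁻¹ Q`
  obtain ⟨P₀, hP₀⟩ := isP_eq_snoc hP
  have h2 := (Hom.left P₀ hQ.cancel).symm'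
  rw [← hP₀] at h2
  have e : P₀ ++ (Q.reverse ++ Q.tail) = (P ++ Q.reverse.tail) ++ Q.tail := by
    rw [hP₀]
    conv_lhs => rw [isP_eq_cons hQ.reverse]
    simp
  rw [e] at h2
  have h3 := Hom.right Q.tail h1
  have h4 := h2.trans' h3
  rw [List.singleton_append, ← isP_eq_cons hQ] at h4
  exact h4

/-- `UNIQ` for one graph and one function. -/
def Uq (G : SimpleGraph V) (ω : V → V → V → ZMod 2) : Prop :=
  ∀ (P : List V) (t : ZMod 2), P ≠ [] → List.IsChain G.Adj P → HW G ω P P t → t = 0

theorem Uq.eq (hu : Uq G ω) {a b : V} {P Q : List V} {s t : ZMod 2} (hP : IsP G a b P)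
    (h : HW G ω P Q s) (h' : HW G ω P Q t) : s = t := by
  have h1 := h.trans h'.symm
  have h2 := hu P (s + t) hP.ne_nil hP.chain h1
  have h3 : s + t + t = t := by rw [h2, zero_add]
  rwa [add_assoc, CharTwo.add_self_eq_zero, add_zero] at h3

/-- The value of a homotopy from `P` to `Q` (zero if there is none). -/
noncomputable def J (G : SimpleGraph V) (ω : V → V → V → ZMod 2) (P Q : List V) : ZMod 2 :=
  open Classical in if h : ∃ t, HW G ω P Q t then h.choose else 0

theorem J_spec {P Q : List V} (h : Hom G P Q) : HW G ω P Q (J G ω P Q) := by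
  have h1 := hw_of_hom ω h
  unfold J
  rw [dif_pos h1]
  exact h1.choose_spec

theorem Uq.J_eq (hu : Uq G ω) {a b : V} {P Q : List V} {t : ZMod 2} (hP : IsP G a b P)
    (h : HW G ω P Q t) : J G ω P Q = t :=
  hu.eq hP (J_spec (hw_hom h)) h

end calculus

/-- Paths `g x` in the complement of `v` from a vertex `o x` of the link of `v` to `x`, and paths
`lam x y` in the link. -/
structure Lam {V : Type u} (G : SimpleGraph V) (v : V) (o : V → V) (g : V → List V)
    (lam : V → V → List V) : Prop where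
  adj : ∀ x, x ≠ v → G.Adj v (o x)
  path : ∀ x, x ≠ v → IsP (delG G v) (o x) x (g x)
  link : ∀ x, G.Adj v x → g x = [x]
  lpath : ∀ x y, (delG G v).Adj x y → IsP (lkG G v) (o x) (o y) (lam x y)
  hom : ∀ x y, (delG G v).Adj x y → Hom (delG G v) (g x ++ (g y).reverse) (lam x y)
  rev : ∀ x y, (delG G v).Adj x y → lam y x = (lam x y).reverse
  edge : ∀ x y, (lkG G v).Adj x y → lam x y = [x, y]

end Pool.Agent.MSN.Alg
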