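import Pool.Agent.MSN.ATargets

/-!
# M4: exactness for `j = 0, 1` (MP_d6353f_al)
-/

namespace Pool.Agent.MSN.Alg

open List Pool.Agent.MSF Pool.Agent.MSN Pool.Agent.MSN.Fin

universe u

theorem tEXA : T_EXA.{u} := by
  intro V _ G hG
  obtain ⟨v⟩ := hG.nonempty
  constructor
  · intro c hc
    have h := hc {v} (by simp) (by simp)
    refine ⟨fun _ => 0, fun s _ hs => ?_⟩
    rw [Finset.card_eq_zero] at hs
    subst hs
    simpa using h
  · intro c hc
    have hadj : ∀ a b, G.Adj a b → c {a} = c {b} := by
      intro a b hab
      have hcl : G.IsClique (({a, b} : Finset V) : Set V) := by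
        rw [Finset.coe_pair, SimpleGraph.isClique_pair]
        exact fun _ => hab
      have h := hc {a, b} hcl (Finset.card_pair hab.ne)
      rw [Finset.sum_pair hab.ne] at h
      have e1 : ({a, b} : Finset V).erase a = {b} := by
        rw [Finset.erase_insert]
        simpa using hab.ne
      have e2 : ({a, b} : Finset V).erase b = {a} := by
        rw [Finset.pair_comm, Finset.erase_insert]
        simpa using hab.ne.symm
      rw [e1, e2] at h
      exact (CharTwo.add_eq_zero.1 h).symm
    have hall : ∀ a b, c {a} = c {b} := by
      intro a b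
      obtain ⟨w⟩ := hG.preconnected a b
      induction w with
      | nil => rfl
      | cons h _ ih => exact (hadj _ _ h).trans ih
    refine ⟨fun _ => c {v}, fun s _ hs => ?_⟩
    obtain ⟨x, rfl⟩ := Finset.card_eq_one.1 hs
    rw [Finset.sum_singleton]
    exact hall x v

end Pool.Agent.MSN.Alg
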