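import Pool.Agent.MSN.ATargets

/-! EXB: exactness for functions of two variables. -/

namespace Pool.Agent.MSN.Alg

open List Pool.Agent.MSF Pool.Agent.MSN Pool.Agent.MSN.Fin

universe u

section exb

variable {V : Type u}

/-- The sum of `c` over the edges of a path. -/
def exb_val (c : V → V → ZMod 2) : List V → ZMod 2
  | [] => 0
  | [_] => 0
  | (a :: b :: l) => c a b + exb_val c (b :: l)

theorem exb_append (c : V → V → ZMod 2) (p q : List V) (a : V) :
    exb_val c (p ++ a :: q) = exb_val c (p ++ [a]) + exb_val c (a :: q) := by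
  induction p with
  | nil => simp [exb_val]
  | cons x p ih =>
    cases p with
    | nil => simp [exb_val]
    | cons y p =>
      simp only [List.cons_append, exb_val] at ih ⊢
      rw [ih, add_assoc]

theorem exb_elem {G : SimpleGraph V} {c : V → V → ZMod 2} (hs : ∀ a b, c a b = c b a)
    (hc : ∀ a b d, G.Adj a b → G.Adj b d → G.Adj a d → c b d + c a d + c a b = 0)
    {P Q : List V} (h : Elem G P Q) : exb_val c P = exb_val c Q := by
  cases h with
  | spur p q a b h =>
    rw [exb_append c p q a, exb_append c p (b :: a :: q) a]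
    simp only [exb_val]
    rw [hs b a, ← add_assoc (c a b), CharTwo.add_self_eq_zero, zero_add]
  | tri p q a b d h1 h2 h3 =>
    rw [exb_append c p (d :: q) a, exb_append c p (b :: d :: q) a]
    simp only [exb_val]
    have h4 := hc a b d h1 h2 h3
    have h5 : c a d = c a b + c b d := by
      have h6 : c a d + (c b d + c a d + c a b) = c a d := by rw [h4, add_zero]
      calc c a d = c a d + (c b d + c a d + c a b) := h6.symm
        _ = c a b + c b d + (c a d + c a d) := by ring
        _ = c a b + c b d := by rw [CharTwo.add_self_eq_zero, add_zero]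
    rw [h5, add_assoc (c a b)]

theorem exb_hom {G : SimpleGraph V} {c : V → V → ZMod 2} (hs : ∀ a b, c a b = c b a)
    (hc : ∀ a b d, G.Adj a b → G.Adj b d → G.Adj a d → c b d + c a d + c a b = 0)
    {P Q : List V} (h : Hom G P Q) : exb_val c P = exb_val c Q := by
  induction h with
  | rel _ _ h => exact exb_elem hs hc h
  | refl _ => rfl
  | symm _ _ _ ih => exact ih.symm
  | trans _ _ _ _ _ ih ih' => exact ih.trans ih'

end exb

theorem tEXB : T_EXB.{u} := by
  intro V G hG hp c hs hc
  obtain ⟨o⟩ := hG.1.nonempty
  choose g hg using fun x => hp o x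
  refine ⟨fun x => exb_val c (g x), fun a b hab => ?_⟩
  have h1 := exb_hom hs hc (hom_of_simplyConn hG ((hg a).snoc hab) (hg b))
  obtain ⟨P, hP⟩ := isP_eq_snoc (hg a)
  have e : g a ++ [b] = P ++ a :: [b] := by rw [hP]; simp
  rw [e, exb_append, ← hP] at h1
  simp only [exb_val, add_zero] at h1
  simp only
  rw [← h1, add_comm (exb_val c (g a)), add_assoc, CharTwo.add_self_eq_zero, add_zero]

end Pool.Agent.MSN.Alg
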