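import Pool.Agent.MSN.ATargets

/-!
# M4: target EXC

From functions of two and three variables to functions on finite sets.
-/

namespace Pool.Agent.MSN.Alg

open List Pool.Agent.MSF Pool.Agent.MSN Pool.Agent.MSN.Fin

universe u

section exc

variable {V : Type u} [DecidableEq V]

lemma exc_sum2 (c : Finset V → ZMod 2) {a b : V} (hab : a ≠ b) :
    ∑ x ∈ ({a, b} : Finset V), c (({a, b} : Finset V).erase x) = c {b} + c {a} := by
  have h1 : ({a, b} : Finset V).erase a = {b} := by
    ext x
    simp only [Finset.mem_erase, Finset.mem_insert, Finset.mem_singleton]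
    constructor
    · rintro ⟨h1, h2 | h2⟩
      · exact absurd h2 h1
      · exact h2
    · rintro rfl
      exact ⟨hab.symm, Or.inr rfl⟩
  have h2 : ({a, b} : Finset V).erase b = {a} := by
    ext x
    simp only [Finset.mem_erase, Finset.mem_insert, Finset.mem_singleton]
    constructor
    · rintro ⟨h1, h2 | h2⟩
      · exact h2
      · exact absurd h2 h1
    · rintro rfl
      exact ⟨hab, Or.inl rfl⟩
  rw [Finset.sum_pair hab, h1, h2]

lemma exc_sum3 (c : Finset V → ZMod 2) {a b d : V} (hab : a ≠ b) (hbd : b ≠ d) (had : a ≠ d) :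
    ∑ x ∈ ({a, b, d} : Finset V), c (({a, b, d} : Finset V).erase x) =
      c {b, d} + c {a, d} + c {a, b} := by
  have h1 : ({a, b, d} : Finset V).erase a = {b, d} := by
    ext x
    simp only [Finset.mem_erase, Finset.mem_insert, Finset.mem_singleton]
    constructor
    · rintro ⟨h1, h2 | h2 | h2⟩
      · exact absurd h2 h1
      · exact Or.inl h2
      · exact Or.inr h2
    · rintro (rfl | rfl)
      · exact ⟨hab.symm, Or.inr (Or.inl rfl)⟩
      · exact ⟨had.symm, Or.inr (Or.inr rfl)⟩
  have h2 : ({a, b, d} : Finset V).erase b = {a, d} := by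
    ext x
    simp only [Finset.mem_erase, Finset.mem_insert, Finset.mem_singleton]
    constructor
    · rintro ⟨h1, h2 | h2 | h2⟩
      · exact Or.inl h2
      · exact absurd h2 h1
      · exact Or.inr h2
    · rintro (rfl | rfl)
      · exact ⟨hab, Or.inl rfl⟩
      · exact ⟨hbd.symm, Or.inr (Or.inr rfl)⟩
  have h3 : ({a, b, d} : Finset V).erase d = {a, b} := by
    ext x
    simp only [Finset.mem_erase, Finset.mem_insert, Finset.mem_singleton]
    constructor
    · rintro ⟨h1, h2 | h2 | h2⟩
      · exact Or.inl h2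
      · exact Or.inr h2
      · exact absurd h2 h1
    · rintro (rfl | rfl)
      · exact ⟨had, Or.inl rfl⟩
      · exact ⟨hbd, Or.inr (Or.inl rfl)⟩
  rw [Finset.sum_insert (by simp [hab, had]), Finset.sum_pair hbd, h1, h2, h3, add_assoc]

lemma exc_sum4 (c : Finset V → ZMod 2) {a b d f : V} (hab : a ≠ b) (had : a ≠ d) (haf : a ≠ f)
    (hbd : b ≠ d) (hbf : b ≠ f) (hdf : d ≠ f) :
    ∑ x ∈ ({a, b, d, f} : Finset V), c (({a, b, d, f} : Finset V).erase x) =
      c {b, d, f} + c {a, d, f} + c {a, b, f} + c {a, b, d} := by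
  have h1 : ({a, b, d, f} : Finset V).erase a = {b, d, f} := by
    ext x
    simp only [Finset.mem_erase, Finset.mem_insert, Finset.mem_singleton]
    constructor
    · rintro ⟨h1, h2 | h2⟩
      · exact absurd h2 h1
      · exact h2
    · rintro (rfl | rfl | rfl)
      · exact ⟨hab.symm, Or.inr (Or.inl rfl)⟩
      · exact ⟨had.symm, Or.inr (Or.inr (Or.inl rfl))⟩
      · exact ⟨haf.symm, Or.inr (Or.inr (Or.inr rfl))⟩
  have h2 : ({a, b, d, f} : Finset V).erase b = {a, d, f} := by
    ext x
    simp only [Finset.mem_erase, Finset.mem_insert, Finset.mem_singleton]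
    constructor
    · rintro ⟨h1, h2 | h2 | h2⟩
      · exact Or.inl h2
      · exact absurd h2 h1
      · exact Or.inr h2
    · rintro (rfl | rfl | rfl)
      · exact ⟨hab, Or.inl rfl⟩
      · exact ⟨hbd.symm, Or.inr (Or.inr (Or.inl rfl))⟩
      · exact ⟨hbf.symm, Or.inr (Or.inr (Or.inr rfl))⟩
  have h3 : ({a, b, d, f} : Finset V).erase d = {a, b, f} := by
    ext x
    simp only [Finset.mem_erase, Finset.mem_insert, Finset.mem_singleton]
    constructor
    · rintro ⟨h1, h2 | h2 | h2 | h2⟩
      · exact Or.inl h2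
      · exact Or.inr (Or.inl h2)
      · exact absurd h2 h1
      · exact Or.inr (Or.inr h2)
    · rintro (rfl | rfl | rfl)
      · exact ⟨had, Or.inl rfl⟩
      · exact ⟨hbd, Or.inr (Or.inl rfl)⟩
      · exact ⟨hdf.symm, Or.inr (Or.inr (Or.inr rfl))⟩
  have h4 : ({a, b, d, f} : Finset V).erase f = {a, b, d} := by
    ext x
    simp only [Finset.mem_erase, Finset.mem_insert, Finset.mem_singleton]
    constructor
    · rintro ⟨h1, h2 | h2 | h2 | h2⟩
      · exact Or.inl h2
      · exact Or.inr (Or.inl h2)
      · exact Or.inr (Or.inr h2)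
      · exact absurd h2 h1
    · rintro (rfl | rfl | rfl)
      · exact ⟨haf, Or.inl rfl⟩
      · exact ⟨hbf, Or.inr (Or.inl rfl)⟩
      · exact ⟨hdf, Or.inr (Or.inr (Or.inl rfl))⟩
  rw [Finset.sum_insert (by simp [hab, had, haf]), Finset.sum_insert (by simp [hbd, hbf]),
    Finset.sum_pair hdf, h1, h2, h3, h4, add_assoc, add_assoc]

lemma exc_pair {a b x y : V} (h : ({a, b} : Finset V) = {x, y}) (hxy : x ≠ y) :
    (x = a ∧ y = b) ∨ (x = b ∧ y = a) := by
  have hx : x ∈ ({a, b} : Finset V) := by rw [h]; simp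
  have hy : y ∈ ({a, b} : Finset V) := by rw [h]; simp
  simp only [Finset.mem_insert, Finset.mem_singleton] at hx hy
  rcases hx with hx | hx <;> rcases hy with hy | hy
  · exact absurd (hx.trans hy.symm) hxy
  · exact Or.inl ⟨hx, hy⟩
  · exact Or.inr ⟨hx, hy⟩
  · exact absurd (hx.trans hy.symm) hxy

open Classical in
/-- A symmetric function of two variables as a function on finite sets. -/
noncomputable def exc_ext (η : V → V → ZMod 2) (s : Finset V) : ZMod 2 :=
  if h : ∃ p : V × V, s = {p.1, p.2} ∧ p.1 ≠ p.2 then η h.choose.1 h.choose.2 else 0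

lemma exc_ext_pair (η : V → V → ZMod 2) (hη : ∀ a b, η a b = η b a) {a b : V} (hab : a ≠ b) :
    exc_ext η {a, b} = η a b := by
  have h : ∃ p : V × V, ({a, b} : Finset V) = {p.1, p.2} ∧ p.1 ≠ p.2 := ⟨(a, b), rfl, hab⟩
  unfold exc_ext
  rw [dif_pos h]
  rcases exc_pair h.choose_spec.1 h.choose_spec.2 with ⟨h1, h2⟩ | ⟨h1, h2⟩
  · rw [h1, h2]
  · rw [h1, h2, hη]

end exc

/-- Target EXC. -/
theorem tEXC : T_EXC.{u} := by
  intro V _ G
  constructor
  · intro h2 c hc
    obtain ⟨f, hf⟩ := h2 (fun a b => c {a, b}) (fun a b => by rw [Finset.pair_comm]) (by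
      intro a b d hab hbd had
      have h3 := hc {a, b, d} (by
        rw [SimpleGraph.isClique_iff]
        intro x hx y hy hxy
        simp only [Finset.coe_insert, Finset.coe_singleton, Set.mem_insert_iff,
          Set.mem_singleton_iff] at hx hy
        rcases hx with rfl | rfl | rfl <;> rcases hy with rfl | rfl | rfl <;>
          first
          | exact absurd rfl hxy
          | assumption
          | (apply SimpleGraph.Adj.symm; assumption)) (by
        rw [Finset.card_eq_three]
        exact ⟨a, b, d, hab.ne, had.ne, hbd.ne, rfl⟩)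
      rw [exc_sum3 c hab.ne hbd.ne had.ne] at h3
      exact h3)
    refine ⟨fun s => ∑ x ∈ s, f x, fun s hs hs2 => ?_⟩
    obtain ⟨a, b, hab, rfl⟩ := Finset.card_eq_two.1 hs2
    rw [exc_sum2 (fun s => ∑ x ∈ s, f x) hab, Finset.sum_singleton, Finset.sum_singleton]
    refine hf a b ?_
    exact hs (by simp) (by simp) hab
  · intro h3 c hc
    obtain ⟨η, hη, hη'⟩ := h3 (fun a b d => c {a, b, d})
      ⟨fun a b d => by rw [Finset.insert_comm], fun a b d => by rw [Finset.pair_comm]⟩ (by
      intro a b d f hab had haf hbd hbf hdf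
      have h3 := hc {a, b, d, f} (by
        rw [SimpleGraph.isClique_iff]
        intro x hx y hy hxy
        simp only [Finset.coe_insert, Finset.coe_singleton, Set.mem_insert_iff,
          Set.mem_singleton_iff] at hx hy
        rcases hx with rfl | rfl | rfl | rfl <;> rcases hy with rfl | rfl | rfl | rfl <;>
          first
          | exact absurd rfl hxy
          | assumption
          | (apply SimpleGraph.Adj.symm; assumption)) (by
        rw [Finset.card_insert_of_notMem (by simp [hab.ne, had.ne, haf.ne]),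
          Finset.card_insert_of_notMem (by simp [hbd.ne, hbf.ne]), Finset.card_pair hdf.ne])
      rw [exc_sum4 c hab.ne had.ne haf.ne hbd.ne hbf.ne hdf.ne] at h3
      exact h3)
    refine ⟨exc_ext η, fun s hs hs3 => ?_⟩
    obtain ⟨a, b, d, hab, had, hbd, rfl⟩ := Finset.card_eq_three.1 hs3
    rw [exc_sum3 (exc_ext η) hab hbd had, exc_ext_pair η hη hbd, exc_ext_pair η hη had,
      exc_ext_pair η hη hab]
    exact hη' a b d (hs (by simp) (by simp) hab) (hs (by simp) (by simp) hbd)
      (hs (by simp) (by simp) had)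

end Pool.Agent.MSN.Alg
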