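import Pool.Agent.MSN.ATargets

/-!
# EXD: exactness for functions of three variables
-/

namespace Pool.Agent.MSN.Alg

open List Pool.Agent.MSF Pool.Agent.MSN Pool.Agent.MSN.Fin

universe u

private theorem exd_eq : ∀ s t : ZMod 2, s + t = 0 → s = t := by decide

private theorem exd_sum : ∀ w s t : ZMod 2, w = t + (w + s + t) + s := by decide

theorem tEXD : T_EXD.{u} := by
  intro V G hG hp hU ω hs hc
  have hu : Uq G ω := hU ω hs hc
  obtain ⟨o⟩ : Nonempty V := hG.1.nonempty
  choose g hg using fun x => hp o x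
  classical
  have H : ∀ x y, G.Adj x y → HW G ω (g x ++ [y]) (g y) (J G ω (g x ++ [y]) (g y)) :=
    fun x y hxy => J_spec (hom_of_simplyConn hG ((hg x).snoc hxy) (hg y))
  have hsym : ∀ x y, G.Adj x y → J G ω (g x ++ [y]) (g y) = J G ω (g y ++ [x]) (g x) := by
    intro x y hxy
    have h1 : HW G ω (g x) (g x ++ [y, x]) 0 := by
      obtain ⟨P₀, hP₀⟩ := isP_eq_snoc (hg x)
      have := HW.spur (G := G) (ω := ω) P₀ [] x y hxy
      rw [hP₀]
      simpa using this
    have h2 : HW G ω (g x ++ [y, x]) (g y ++ [x]) (J G ω (g x ++ [y]) (g y)) := by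
      have := hw_right [x] (H x y hxy)
      simpa using this
    have h4 := (h1.trans h2).trans (H y x hxy.symm)
    have h5 := hu _ _ (hg x).ne_nil (hg x).chain h4
    rw [zero_add] at h5
    exact exd_eq _ _ h5
  refine ⟨fun x y => if G.Adj x y then J G ω (g x ++ [y]) (g y) else 0, ?_, ?_⟩
  · intro a b
    by_cases h : G.Adj a b
    · simp only [h, h.symm, if_true]
      exact hsym a b h
    · have h' : ¬ G.Adj b a := fun h' => h h'.symm
      simp only [h, h', if_false]
  · intro a b d hab hbd had
    simp only [hab, hbd, had, if_true]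
    have h1 : HW G ω (g a ++ [d]) (g a ++ [b, d]) (ω a b d) := by
      obtain ⟨P₀, hP₀⟩ := isP_eq_snoc (hg a)
      have := HW.tri (G := G) (ω := ω) P₀ [] a b d hab hbd had
      rw [hP₀]
      simpa using this
    have h2 : HW G ω (g a ++ [b, d]) (g b ++ [d]) (J G ω (g a ++ [b]) (g b)) := by
      have := hw_right [d] (H a b hab)
      simpa using this
    have h4 := (h1.trans h2).trans (H b d hbd)
    have h5 := hu.eq ((hg a).snoc had) h4 (H a d had)
    rw [← h5]
    exact exd_sum _ _ _

end Pool.Agent.MSN.Alg
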