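import Pool.Agent.MSN.ATargets

/-!
# M4: exactness for `j = 4` from the extension property
-/

namespace Pool.Agent.MSN.Alg

open List Pool.Agent.MSF Pool.Agent.MSN Pool.Agent.MSN.Fin

universe u

private theorem exf_perm {V : Type u} [DecidableEq V] {ζ : V → V → V → ZMod 2} (hs : Sym3 ζ)
    {a b d a' b' d' : V}
    (hab' : a' ≠ b') (had' : a' ≠ d') (hbd' : b' ≠ d')
    (h : ({a, b, d} : Finset V) = {a', b', d'}) : ζ a b d = ζ a' b' d' := by
  have ha : a' = a ∨ a' = b ∨ a' = d := by
    have : a' ∈ ({a, b, d} : Finset V) := by rw [h]; simp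
    simpa using this
  have hb : b' = a ∨ b' = b ∨ b' = d := by
    have : b' ∈ ({a, b, d} : Finset V) := by rw [h]; simp
    simpa using this
  have hd : d' = a ∨ d' = b ∨ d' = d := by
    have : d' ∈ ({a, b, d} : Finset V) := by rw [h]; simp
    simpa using this
  rcases ha with rfl | rfl | rfl <;> rcases hb with rfl | rfl | rfl <;>
    rcases hd with rfl | rfl | rfl <;>
    first
      | exact absurd rfl hab'
      | exact absurd rfl had'
      | exact absurd rfl hbd'
      | rfl
      | exact hs.s23 _ _ _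
      | exact hs.s12 _ _ _
      | exact (hs.s12 _ _ _).trans (hs.s23 _ _ _)
      | exact (hs.s23 _ _ _).trans (hs.s12 _ _ _)
      | exact ((hs.s12 _ _ _).trans (hs.s23 _ _ _)).trans (hs.s12 _ _ _)

open Classical in
/-- The function on sets of a symmetric function of three variables. -/
private noncomputable def exf_F {V : Type u} [DecidableEq V] (ζ : V → V → V → ZMod 2)
    (t : Finset V) : ZMod 2 :=
  if h : ∃ p : V × V × V, p.1 ≠ p.2.1 ∧ p.1 ≠ p.2.2 ∧ p.2.1 ≠ p.2.2 ∧
    t = insert p.1 (insert p.2.1 {p.2.2}) then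
    ζ h.choose.1 h.choose.2.1 h.choose.2.2 else 0

private theorem exf_F_eq {V : Type u} [DecidableEq V] {ζ : V → V → V → ZMod 2} (hs : Sym3 ζ)
    {a b d : V} (hab : a ≠ b) (had : a ≠ d) (hbd : b ≠ d) :
    exf_F ζ ({a, b, d} : Finset V) = ζ a b d := by
  have h : ∃ p : V × V × V, p.1 ≠ p.2.1 ∧ p.1 ≠ p.2.2 ∧ p.2.1 ≠ p.2.2 ∧
      ({a, b, d} : Finset V) = insert p.1 (insert p.2.1 {p.2.2}) :=
    ⟨(a, b, d), hab, had, hbd, rfl⟩
  unfold exf_F
  rw [dif_pos h]
  obtain ⟨h1, h2, h3, h4⟩ := h.choose_spec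
  exact (exf_perm hs h1 h2 h3 h4).symm

private theorem exf_four {V : Type u} [DecidableEq V] {s : Finset V} (h : s.card = 4) :
    ∃ a b c d : V, a ≠ b ∧ a ≠ c ∧ a ≠ d ∧ b ≠ c ∧ b ≠ d ∧ c ≠ d ∧ s = {a, b, c, d} := by
  obtain ⟨a, t, hat, rfl, ht⟩ := Finset.card_eq_succ.1 h
  obtain ⟨b, c, d, hbc, hbd, hcd, rfl⟩ := Finset.card_eq_three.1 ht
  simp only [Finset.mem_insert, Finset.mem_singleton, not_or] at hat
  exact ⟨a, b, c, d, hat.1, hat.2.1, hat.2.2, hbc, hbd, hcd, rfl⟩

private theorem exf_one {V : Type u} [DecidableEq V] (G : SimpleGraph V) (v : V)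
    (hv : ExtV G v) (c : Finset V → ZMod 2) :
    ∃ e : Finset V → ZMod 2, ∀ s : Finset V, G.IsClique (s : Set V) → s.card = 4 →
      ∑ x ∈ s, e (s.erase x) = if v ∈ s then c s else 0 := by
  obtain ⟨ζ, hζ, hco, hext⟩ := hv (fun a b d => c {v, a, b, d})
    ⟨fun a b d => by simp only [Finset.insert_comm a b], fun a b d => by
      simp only [Finset.pair_comm b d]⟩
  refine ⟨fun t => if v ∈ t then 0 else exf_F ζ t, ?_⟩
  intro s hs hcard
  by_cases hvs : v ∈ s
  · rw [if_pos hvs]
    have h1 : ∑ x ∈ s, (if v ∈ s.erase x then (0 : ZMod 2) else exf_F ζ (s.erase x)) =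
        exf_F ζ (s.erase v) := by
      rw [Finset.sum_eq_single_of_mem v hvs]
      · rw [if_neg (Finset.notMem_erase v s)]
      · intro x _ hx
        rw [if_pos (Finset.mem_erase.2 ⟨fun h => hx h.symm, hvs⟩)]
    rw [h1]
    have h2 : (s.erase v).card = 3 := by
      rw [Finset.card_erase_of_mem hvs, hcard]
    obtain ⟨a, b, d, hab, had, hbd, h3⟩ := Finset.card_eq_three.1 h2
    have hs4 : s = {v, a, b, d} := by
      rw [← Finset.insert_erase hvs, h3]
    have hne : ∀ x ∈ s.erase v, v ≠ x ∧ x ∈ s := fun x hx =>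
      ⟨fun h => (Finset.mem_erase.1 hx).1 h.symm, (Finset.mem_erase.1 hx).2⟩
    have ha := hne a (by rw [h3]; simp)
    have hb := hne b (by rw [h3]; simp)
    have hd := hne d (by rw [h3]; simp)
    have hadj : ∀ x ∈ s, ∀ y ∈ s, x ≠ y → G.Adj x y := fun x hx y hy hxy =>
      hs (Finset.mem_coe.2 hx) (Finset.mem_coe.2 hy) hxy
    rw [h3, exf_F_eq hζ hab had hbd,
      hext a b d
        ⟨hadj a ha.2 b hb.2 hab, hadj v hvs a ha.2 ha.1, hadj v hvs b hb.2 hb.1⟩
        ⟨hadj b hb.2 d hd.2 hbd, hadj v hvs b hb.2 hb.1, hadj v hvs d hd.2 hd.1⟩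
        ⟨hadj a ha.2 d hd.2 had, hadj v hvs a ha.2 ha.1, hadj v hvs d hd.2 hd.1⟩, ← hs4]
  · rw [if_neg hvs]
    obtain ⟨a, b, p, q, hab, hap, haq, hbp, hbq, hpq, rfl⟩ := exf_four hcard
    have hadj : ∀ x ∈ ({a, b, p, q} : Finset V), ∀ y ∈ ({a, b, p, q} : Finset V), x ≠ y →
        (delG G v).Adj x y := fun x hx y hy hxy =>
      ⟨hs (Finset.mem_coe.2 hx) (Finset.mem_coe.2 hy) hxy,
        fun h => hvs (h ▸ hx), fun h => hvs (h ▸ hy)⟩
    have h1 := hco a b p q (hadj a (by simp) b (by simp) hab) (hadj a (by simp) p (by simp) hap)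
      (hadj a (by simp) q (by simp) haq) (hadj b (by simp) p (by simp) hbp)
      (hadj b (by simp) q (by simp) hbq) (hadj p (by simp) q (by simp) hpq)
    have e1 : ({a, b, p, q} : Finset V).erase a = {b, p, q} := by
      ext x
      simp only [Finset.mem_erase, Finset.mem_insert, Finset.mem_singleton]
      constructor
      · rintro ⟨h, rfl | h'⟩
        · exact absurd rfl h
        · exact h'
      · rintro (rfl | rfl | rfl)
        · exact ⟨hab.symm, by simp⟩
        · exact ⟨hap.symm, by simp⟩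
        · exact ⟨haq.symm, by simp⟩
    have e2 : ({a, b, p, q} : Finset V).erase b = {a, p, q} := by
      ext x
      simp only [Finset.mem_erase, Finset.mem_insert, Finset.mem_singleton]
      constructor
      · rintro ⟨h, rfl | rfl | h'⟩
        · simp
        · exact absurd rfl h
        · exact Or.inr h'
      · rintro (rfl | rfl | rfl)
        · exact ⟨hab, by simp⟩
        · exact ⟨hbp.symm, by simp⟩
        · exact ⟨hbq.symm, by simp⟩
    have e3 : ({a, b, p, q} : Finset V).erase p = {a, b, q} := by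
      ext x
      simp only [Finset.mem_erase, Finset.mem_insert, Finset.mem_singleton]
      constructor
      · rintro ⟨h, rfl | rfl | rfl | h'⟩
        · simp
        · simp
        · exact absurd rfl h
        · simp [h']
      · rintro (rfl | rfl | rfl)
        · exact ⟨hap, by simp⟩
        · exact ⟨hbp, by simp⟩
        · exact ⟨hpq.symm, by simp⟩
    have e4 : ({a, b, p, q} : Finset V).erase q = {a, b, p} := by
      ext x
      simp only [Finset.mem_erase, Finset.mem_insert, Finset.mem_singleton]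
      constructor
      · rintro ⟨h, rfl | rfl | rfl | h'⟩
        · simp
        · simp
        · simp
        · exact absurd h' h
      · rintro (rfl | rfl | rfl)
        · exact ⟨haq, by simp⟩
        · exact ⟨hbq, by simp⟩
        · exact ⟨hpq, by simp⟩
    have hv' : ∀ x, v ∉ ({a, b, p, q} : Finset V).erase x := fun x h =>
      hvs (Finset.mem_of_mem_erase h)
    have h2 : ∑ x ∈ ({a, b, p, q} : Finset V),
        (if v ∈ ({a, b, p, q} : Finset V).erase x then (0 : ZMod 2)
          else exf_F ζ (({a, b, p, q} : Finset V).erase x)) =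
        ∑ x ∈ ({a, b, p, q} : Finset V), exf_F ζ (({a, b, p, q} : Finset V).erase x) :=
      Finset.sum_congr rfl fun x _ => if_neg (hv' x)
    rw [h2]
    have h3 : ∀ f : V → ZMod 2, ∑ x ∈ ({a, b, p, q} : Finset V), f x =
        f a + (f b + (f p + f q)) := by
      intro f
      rw [Finset.sum_insert (by simp [hab, hap, haq]), Finset.sum_insert (by simp [hbp, hbq]),
        Finset.sum_insert (by simp [hpq]), Finset.sum_singleton]
    rw [h3, e1, e2, e3, e4, exf_F_eq hζ hbp hbq hpq, exf_F_eq hζ hap haq hpq,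
      exf_F_eq hζ hab haq hbq, exf_F_eq hζ hab hap hbp, ← h1]
    ring

theorem tEXF : T_EXF.{u} := by
  intro V _ _ G hG c _
  classical
  -- a vertex of every nonempty set
  obtain ⟨p, hp⟩ : ∃ p : Finset V → Option V, ∀ s : Finset V, s.Nonempty →
      ∃ v ∈ s, p s = some v := by
    refine ⟨fun s => if h : s.Nonempty then some h.choose else none, fun s hs => ?_⟩
    exact ⟨hs.choose, hs.choose_spec, dif_pos hs⟩
  have h1 : ∀ v : V, ∃ e : Finset V → ZMod 2, ∀ s : Finset V, G.IsClique (s : Set V) →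
      s.card = 4 → ∑ x ∈ s, e (s.erase x) =
        if v ∈ s then (if p s = some v then c s else 0) else 0 := fun v =>
    exf_one G v (hG v) fun s => if p s = some v then c s else 0
  choose e he using h1
  refine ⟨fun t => ∑ v, e v t, ?_⟩
  intro s hs hcard
  have h2 : ∑ x ∈ s, ∑ v, e v (s.erase x) = ∑ v, ∑ x ∈ s, e v (s.erase x) := Finset.sum_comm
  rw [h2]
  have hne : s.Nonempty := Finset.card_pos.1 (by omega)
  obtain ⟨v₀, hv₀, hp₀⟩ := hp s hne
  rw [Finset.sum_eq_single_of_mem v₀ (Finset.mem_univ _)]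
  · rw [he v₀ s hs hcard, if_pos hv₀, if_pos hp₀]
  · intro v _ hv
    rw [he v s hs hcard]
    have : p s ≠ some v := by
      rw [hp₀]
      exact fun h => hv (Option.some.inj h).symm
    simp [this]

end Pool.Agent.MSN.Alg
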