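import Pool.Agent.MSN.ATargets

/-!
# GX: paths in the complement of a vertex and Lam data
-/

namespace Pool.Agent.MSN.Alg

open List Pool.Agent.MSF Pool.Agent.MSN Pool.Agent.MSN.Fin

universe u

/-- The part of a path after the last visit of `v`. -/
theorem gx_path {V : Type u} (G : SimpleGraph V) (v x : V) (hx : x ≠ v) (P : List V) :
    ∀ a : V, IsP G a x P → (a ≠ v ∧ ∃ Q, IsP (delG G v) a x Q) ∨
      ∃ c, G.Adj v c ∧ ∃ Q, IsP (delG G v) c x Q := by
  induction P with
  | nil => exact fun a h => absurd rfl h.ne_nil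
  | cons b T ih =>
    intro a h
    rcases h.cases with ⟨_, h2⟩ | ⟨c, T', h1, h2, h3⟩
    · subst h2
      exact Or.inl ⟨hx, _, IsP.single _⟩
    · simp only [List.cons.injEq] at h1
      obtain ⟨_, rfl⟩ := h1
      rcases ih c h3 with ⟨hc, Q, hQ⟩ | h4
      · by_cases ha : a = v
        · subst ha
          exact Or.inr ⟨c, h2, Q, hQ⟩
        · exact Or.inl ⟨ha, _, IsP.cons (K := delG G v) ⟨h2, ha, hc⟩ hQ⟩
      · exact Or.inr h4

theorem gx_hom_reverse {V : Type u} {K : SimpleGraph V} {P Q : List V} (h : Hom K P Q) :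
    Hom K P.reverse Q.reverse := by
  induction h with
  | rel _ _ h =>
    cases h with
    | spur p q a b h => simpa using Hom.spur (K := K) q.reverse p.reverse h
    | tri p q a b c h1 h2 h3 =>
      simpa using Hom.tri (K := K) q.reverse p.reverse h2.symm h1.symm h3.symm
  | refl _ => exact Relation.EqvGen.refl _
  | symm _ _ _ ih => exact Relation.EqvGen.symm _ _ ih
  | trans _ _ _ _ _ ih ih' => exact Relation.EqvGen.trans _ _ _ ih ih'

theorem tGX : T_GX.{u} := by
  classical
  intro V G v hconn hS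
  -- the paths `g x`
  have h1 : ∀ x : V, ∃ p : V × List V, x ≠ v → G.Adj v p.1 ∧ IsP (delG G v) p.1 x p.2 ∧
      (G.Adj v x → p.1 = x ∧ p.2 = [x]) := by
    intro x
    by_cases hvx : G.Adj v x
    · exact ⟨(x, [x]), fun _ => ⟨hvx, IsP.single _, fun _ => ⟨rfl, rfl⟩⟩⟩
    · by_cases hx : x = v
      · exact ⟨(x, [x]), fun h => absurd hx h⟩
      · obtain ⟨P, hP⟩ := hconn v x
        rcases gx_path G v x hx P v hP with ⟨h, _⟩ | ⟨c, hc, Q, hQ⟩
        · exact absurd rfl h
        · exact ⟨(c, Q), fun _ => ⟨hc, hQ, fun h => absurd h hvx⟩⟩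
  choose p hp using h1
  have hlink : ∀ x, G.Adj v x → (p x).1 = x ∧ (p x).2 = [x] :=
    fun x hx => (hp x hx.ne').2.2 hx
  -- the paths `L x y`
  have h2 : ∀ x y : V, ∃ L : List V, (delG G v).Adj x y →
      IsP (lkG G v) (p x).1 (p y).1 L ∧ Hom (delG G v) ((p x).2 ++ (p y).2.reverse) L := by
    intro x y
    by_cases hxy : (delG G v).Adj x y
    · obtain ⟨ox, gx, _⟩ := hp x hxy.2.1
      obtain ⟨oy, gy, _⟩ := hp y hxy.2.2
      have hR : IsP (delG G v) (p x).1 (p y).1 ((p x).2 ++ (p y).2.reverse) := by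
        have := gx.comp (IsP.cons hxy gy.reverse)
        simpa using this
      have hne := hR.ne_nil
      have hh : ((p x).2 ++ (p y).2.reverse).head hne = (p x).1 := by
        have := hR.head
        rw [List.head?_eq_some_head hne] at this
        exact Option.some.inj this
      have hl : ((p x).2 ++ (p y).2.reverse).getLast hne = (p y).1 := by
        have := hR.last
        rw [List.getLast?_eq_some_getLast hne] at this
        exact Option.some.inj this
      obtain ⟨Q, _, hQ, hQ2⟩ := hS _ hne hR.chain (by rw [hh]; exact ox) (by rw [hl]; exact oy)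
      have hom : Hom (delG G v) ((p x).2 ++ (p y).2.reverse) Q := hQ2
      exact ⟨Q, fun _ => ⟨⟨hQ, hom.head ▸ hR.head, hom.last ▸ hR.last⟩, hom⟩⟩
    · exact ⟨[], fun h => absurd h hxy⟩
  choose L hL using h2
  refine ⟨fun x => (p x).1, fun x => (p x).2, fun x y =>
    if (lkG G v).Adj x y then [x, y] else if WellOrderingRel x y then L x y
      else (L y x).reverse, ?_⟩
  refine ⟨fun x hx => (hp x hx).1, fun x hx => (hp x hx).2.1, fun x hx => (hlink x hx).2,
    ?_, ?_, ?_, ?_⟩
  · intro x y hxy
    split_ifs with h3 h4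
    · rw [(hlink x h3.2.1).1, (hlink y h3.2.2).1]
      exact IsP.cons h3 (IsP.single _)
    · exact (hL x y hxy).1
    · exact (hL y x hxy.symm).1.reverse
  · intro x y hxy
    split_ifs with h3 h4
    · rw [(hlink x h3.2.1).2, (hlink y h3.2.2).2]
      exact Relation.EqvGen.refl _
    · exact (hL x y hxy).2
    · have := gx_hom_reverse (hL y x hxy.symm).2
      simpa using this
  · intro x y hxy
    have hne : x ≠ y := (hxy.1 : G.Adj x y).ne
    by_cases h3 : (lkG G v).Adj x y
    · rw [if_pos h3, if_pos h3.symm]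
      rfl
    · have h3' : ¬ (lkG G v).Adj y x := fun h => h3 h.symm
      rw [if_neg h3, if_neg h3']
      rcases trichotomous_of WellOrderingRel x y with h4 | h4 | h4
      · rw [if_pos h4, if_neg (asymm h4)]
      · exact absurd h4 hne
      · rw [if_pos h4, if_neg (asymm h4), List.reverse_reverse]
  · intro x y hxy
    rw [if_pos hxy]

end Pool.Agent.MSN.Alg
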