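import Pool.Agent.MSN.ATargets

/-!
# LT: triangles of Lam data
-/

namespace Pool.Agent.MSN.Alg

open List Pool.Agent.MSF Pool.Agent.MSN Pool.Agent.MSN.Fin

universe u

theorem lt_le {V : Type u} (G : SimpleGraph V) (v : V) :
    ∀ a b, (lkG G v).Adj a b → (delG G v).Adj a b :=
  fun _ _ h => ⟨h.1, (h.2.1 : G.Adj v _).ne', (h.2.2 : G.Adj v _).ne'⟩

/-- Step 1: paths of the link which are homotopic in the complement are homotopic in the link. -/
theorem lt_inj {V : Type u} (G : SimpleGraph V) (v : V)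
    (hI : ∀ (a : V) (p : List V), G.Adj v a → List.IsChain (lkG G v).Adj (a :: (p ++ [a])) →
      Relation.EqvGen (Elem (delG G v)) (a :: (p ++ [a])) [a] →
      Relation.EqvGen (Elem (lkG G v)) (a :: (p ++ [a])) [a])
    {a b : V} {P Q : List V} (ha : G.Adj v a) (hP : IsP (lkG G v) a b P)
    (hQ : IsP (lkG G v) a b Q) (h : Hom (delG G v) P Q) : Hom (lkG G v) P Q := by
  have hR := hP.comp hQ.reverse
  have hQ' : IsP (delG G v) a b Q := isP_mono (lt_le G v) hQ
  have h0 : Hom (delG G v) (P ++ Q.reverse.tail) [a] := by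
    refine (Hom.right Q.reverse.tail h).trans' ?_
    have := hQ'.reverse.cancel
    rwa [List.reverse_reverse] at this
  have h1 : Hom (lkG G v) (P ++ Q.reverse.tail) [a] := by
    rcases hR.cases with ⟨h1, _⟩ | ⟨c, T, h1, _, h3⟩
    · rw [h1]; exact Relation.EqvGen.refl _
    · rw [h1]
      obtain ⟨T₀, hT₀⟩ := isP_eq_snoc h3
      have h4 := hI a T₀ ha (by rw [← hT₀, ← h1]; exact hR.chain)
        (by rw [← hT₀, ← h1]; exact h0)
      rwa [← hT₀] at h4
  obtain ⟨P₀, hP₀⟩ := isP_eq_snoc hP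
  have h2 := (Hom.left P₀ hQ.cancel).symm'
  rw [← hP₀] at h2
  have e : P₀ ++ (Q.reverse ++ Q.tail) = (P ++ Q.reverse.tail) ++ Q.tail := by
    rw [hP₀]
    conv_lhs => rw [isP_eq_cons hQ.reverse]
    simp
  rw [e] at h2
  have h3 := Hom.right Q.tail h1
  have h4 := h2.trans' h3
  rw [List.singleton_append, ← isP_eq_cons hQ] at h4
  exact h4

theorem tLT : T_LT.{u} := by
  intro V G v o g lam hL hI x y z hxy hyz hxz
  have hle := lt_le G v
  have hx : x ≠ v := hxy.2.1
  have hy : y ≠ v := hxy.2.2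
  have hz : z ≠ v := hyz.2.2
  have pxz := hL.lpath x z hxz
  have pxy := hL.lpath x y hxy
  have pyz := hL.lpath y z hyz
  refine lt_inj G v hI (hL.adj x hx) pxz (pxy.comp pyz) (Relation.EqvGen.symm _ _ ?_)
  have gx := hL.path x hx
  have gy := hL.path y hy
  have gz := hL.path z hz
  -- (1)
  have s1 := hom_mulL (isP_mono hle pxy) (isP_mono hle pyz) (hL.hom y z hyz).symm'
  -- (2)
  have s2 := Hom.right (g y ++ (g z).reverse).tail (hL.hom x y hxy).symm'
  have e2 : (g y ++ (g z).reverse).tail = (g y).tail ++ (g z).reverse :=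
    List.tail_append_of_ne_nil gy.ne_nil
  -- (3)
  have s3 := Hom.ctx (g x) (g z).reverse gy.cancel
  have e3 : g x ++ (g y).reverse ++ (g y ++ (g z).reverse).tail =
      g x ++ ((g y).reverse ++ (g y).tail) ++ (g z).reverse := by
    rw [e2]
    simp
  -- (4)
  obtain ⟨P₀, hP₀⟩ := isP_eq_snoc gx
  have hz' := isP_eq_cons gz.reverse
  have s4 := (Hom.tri P₀ (g z).reverse.tail hxy hyz hxz).symm'
  have e4 : g x ++ [y] ++ (g z).reverse = P₀ ++ x :: y :: z :: (g z).reverse.tail := by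
    rw [hP₀]
    conv_lhs => rw [hz']
    simp
  have e5 : P₀ ++ x :: z :: (g z).reverse.tail = g x ++ (g z).reverse := by
    rw [hP₀]
    conv_rhs => rw [hz']
    simp
  rw [e3] at s2
  rw [e4] at s3
  rw [e5] at s4
  exact (((s1.trans' s2).trans' s3).trans' s4).trans' (hL.hom x z hxz)

end Pool.Agent.MSN.Alg
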