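import Pool.Agent.MSN.ATargets

/-!
# OD: the number of invariant cliques is odd
-/

set_option autoImplicit false

namespace Pool.Agent.MSN.Alg

open List Pool.Agent.MSF Pool.Agent.MSN Pool.Agent.MSN.Fin

universe u

section od_lin

variable {F : Type} {W : Type u} [Field F] [AddCommGroup W] [Module F W]

theorem od_split (f : W →ₗ[F] W) (h0 : ∀ w, f (f w) = 0) (h1 : ∀ w, f w = 0 → ∃ v, f v = w) :
    ∃ S : W →ₗ[F] W, f * S + S * f = 1 := by
  obtain ⟨π, hπ⟩ := LinearMap.exists_leftInverse_of_injective (LinearMap.ker f).subtype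
    (Submodule.ker_subtype _)
  let f' : W →ₗ[F] LinearMap.ker f := f.codRestrict (LinearMap.ker f) (fun w => h0 w)
  have hf' : LinearMap.range f' = ⊤ := by
    rw [LinearMap.range_eq_top]
    rintro ⟨w, hw⟩
    obtain ⟨v, hv⟩ := h1 w hw
    exact ⟨v, Subtype.ext hv⟩
  obtain ⟨r, hr⟩ := f'.exists_rightInverse_of_surjective hf'
  have hπ' : ∀ k : LinearMap.ker f, π (k : W) = k := fun k => LinearMap.congr_fun hπ k
  have hr' : ∀ k : LinearMap.ker f, f (r k) = k := fun k =>
    congrArg Subtype.val (LinearMap.congr_fun hr k)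
  have hk : ∀ k : LinearMap.ker f, f (k : W) = 0 := fun k => k.2
  refine ⟨(LinearMap.id - (LinearMap.ker f).subtype ∘ₗ π) ∘ₗ r ∘ₗ π, ?_⟩
  ext w
  have e1 : f (r (π w) - (π (r (π w)) : W)) = π w := by
    rw [map_sub, hr', hk, sub_zero]
  have e2 : π (f w) = ⟨f w, h0 w⟩ := hπ' ⟨f w, h0 w⟩
  have e3 : r (π (f w)) - w ∈ LinearMap.ker f := by
    rw [LinearMap.mem_ker, map_sub, hr', e2, sub_self]
  have e4 : ((π (r (π (f w)) - w) : LinearMap.ker f) : W) = r (π (f w)) - w :=
    congrArg Subtype.val (hπ' ⟨_, e3⟩)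
  rw [map_sub, Submodule.coe_sub] at e4
  show f (r (π w) - (π (r (π w)) : W)) + (r (π (f w)) - (π (r (π (f w))) : W)) = w
  rw [e1]
  have e5 : (π (r (π (f w))) : W) = r (π (f w)) - w + (π w : W) := by
    rw [← e4]
    abel
  rw [e5]
  abel

theorem od_trace [CharP F 2] (f P : W →ₗ[F] W) (h0 : ∀ w, f (f w) = 0)
    (h1 : ∀ w, f w = 0 → ∃ v, f v = w) (hP : P * f = f * P) :
    LinearMap.trace F W P = 0 := by
  obtain ⟨S, hS⟩ := od_split f h0 h1
  have e1 : P = f * (P * S) + (P * S) * f := by
    calc P = P * (f * S + S * f) := by rw [hS, mul_one]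
      _ = (P * f) * S + (P * S) * f := by rw [mul_add, ← mul_assoc, ← mul_assoc]
      _ = f * (P * S) + (P * S) * f := by rw [hP, mul_assoc]
  rw [e1, map_add, LinearMap.trace_mul_comm F f (P * S)]
  exact CharTwo.add_self_eq_zero _

end od_lin

/-- In characteristic two a symmetric sum over pairs of different elements vanishes. -/
theorem od_pairs {V : Type u} [DecidableEq V] (t : Finset V) (c : Finset V → ZMod 2) :
    ∑ x ∈ t, ∑ y ∈ t.erase x, c ((t.erase x).erase y) = 0 := by
  rw [Finset.sum_sigma' t (fun x => t.erase x) (fun x y => c ((t.erase x).erase y))]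
  refine Finset.sum_involution (fun p _ => ⟨p.2, p.1⟩) ?_ ?_ ?_ ?_
  · rintro ⟨x, y⟩ h
    show c ((t.erase x).erase y) + c ((t.erase y).erase x) = 0
    rw [Finset.erase_right_comm]
    exact CharTwo.add_self_eq_zero _
  · rintro ⟨x, y⟩ h _ heq
    simp only [Finset.mem_sigma, Finset.mem_erase] at h
    have := congrArg Sigma.fst heq
    exact h.2.1 this
  · rintro ⟨x, y⟩ h
    simp only [Finset.mem_sigma, Finset.mem_erase] at h ⊢
    exact ⟨h.2.2, fun hh => h.2.1 hh.symm, h.1⟩
  · rintro ⟨x, y⟩ h
    rfl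

open Classical in
theorem tOD : T_OD.{u} := by
  intro V _ _ G hEx g hg
  let K : Type u := {s : Finset V // G.IsClique (s : Set V)}
  let ext : (K → ZMod 2) → Finset V → ZMod 2 := fun c s =>
    if h : G.IsClique (s : Set V) then c ⟨s, h⟩ else 0
  have ext_of : ∀ (c : K → ZMod 2) (s : Finset V) (h : G.IsClique (s : Set V)),
      ext c s = c ⟨s, h⟩ := fun c s h => dif_pos h
  have herase : ∀ (s : Finset V) (x : V), G.IsClique (s : Set V) →
      G.IsClique ((s.erase x : Finset V) : Set V) := by
    intro s x hs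
    exact hs.subset (by simp)
  let f : (K → ZMod 2) →ₗ[ZMod 2] (K → ZMod 2) :=
    { toFun := fun c t => ∑ x ∈ t.1, ext c (t.1.erase x)
      map_add' := by
        intro c c'
        funext t
        show ∑ x ∈ t.1, ext (c + c') (t.1.erase x) =
          ∑ x ∈ t.1, ext c (t.1.erase x) + ∑ x ∈ t.1, ext c' (t.1.erase x)
        rw [← Finset.sum_add_distrib]
        refine Finset.sum_congr rfl fun x _ => ?_
        rw [ext_of _ _ (herase _ x t.2), ext_of _ _ (herase _ x t.2), ext_of _ _ (herase _ x t.2)]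
        rfl
      map_smul' := by
        intro a c
        funext t
        show ∑ x ∈ t.1, ext (a • c) (t.1.erase x) = a • ∑ x ∈ t.1, ext c (t.1.erase x)
        rw [Finset.smul_sum]
        refine Finset.sum_congr rfl fun x _ => ?_
        rw [ext_of _ _ (herase _ x t.2), ext_of _ _ (herase _ x t.2)]
        rfl }
  have f_apply : ∀ (c : K → ZMod 2) (t : K), f c t = ∑ x ∈ t.1, ext c (t.1.erase x) :=
    fun c t => rfl
  have himg : ∀ s : Finset V, G.IsClique (s : Set V) →
      G.IsClique ((s.map g.toEmbedding : Finset V) : Set V) := by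
    intro s hs a ha b hb hab
    simp only [Finset.coe_map, Set.mem_image] at ha hb
    obtain ⟨a, ha, rfl⟩ := ha
    obtain ⟨b, hb, rfl⟩ := hb
    exact (hg a b).2 (hs ha hb fun h => hab (by rw [h]))
  let σ : K → K := fun s => ⟨s.1.map g.toEmbedding, himg s.1 s.2⟩
  let P : (K → ZMod 2) →ₗ[ZMod 2] (K → ZMod 2) := LinearMap.funLeft (ZMod 2) (ZMod 2) σ
  have P_apply : ∀ (c : K → ZMod 2) (t : K), P c t = c (σ t) := fun c t => rfl
  have h0 : ∀ c, f (f c) = 0 := by
    intro c
    funext t
    rw [f_apply]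
    show _ = (0 : ZMod 2)
    rw [← od_pairs t.1 (ext c)]
    refine Finset.sum_congr rfl fun x _ => ?_
    rw [ext_of _ _ (herase _ x t.2)]
    rfl
  have h1 : ∀ c, f c = 0 → ∃ e, f e = c := by
    intro c hc
    have hj : ∀ j : ℕ, ∃ e : Finset V → ZMod 2, ∀ s : Finset V, G.IsClique (s : Set V) →
        s.card = j → ext c s = ∑ x ∈ s, e (s.erase x) := by
      intro j
      refine hEx j (ext c) ?_
      intro t ht _
      exact congrFun hc ⟨t, ht⟩
    choose e he using hj
    refine ⟨fun s => e (s.1.card + 1) s.1, ?_⟩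
    funext t
    rw [f_apply, ← ext_of c t.1 t.2, he t.1.card t.1 t.2 rfl]
    refine Finset.sum_congr rfl fun x hx => ?_
    have e1 := ext_of (fun s : K => e (s.1.card + 1) s.1) (t.1.erase x) (herase t.1 x t.2)
    rw [e1]
    show e ((t.1.erase x).card + 1) (t.1.erase x) = _
    rw [Finset.card_erase_add_one hx]
  have hPf : P * f = f * P := by
    refine LinearMap.ext fun c => ?_
    funext t
    show f c (σ t) = f (P c) t
    rw [f_apply, f_apply]
    show ∑ x ∈ t.1.map g.toEmbedding, ext c ((t.1.map g.toEmbedding).erase x) = _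
    rw [Finset.sum_map]
    refine Finset.sum_congr rfl fun x hx => ?_
    have e1 : (t.1.map g.toEmbedding).erase (g.toEmbedding x) =
        (t.1.erase x).map g.toEmbedding := (Finset.map_erase _ _ _).symm
    rw [e1, ext_of _ _ (herase _ x t.2), P_apply, ext_of _ _ (himg _ (herase _ x t.2))]
  have htr := od_trace f P h0 h1 hPf
  -- the trace of `P`
  have htr2 : LinearMap.trace (ZMod 2) (K → ZMod 2) P =
      ((Finset.univ.filter (fun s : K => σ s = s)).card : ZMod 2) := by
    rw [LinearMap.trace_eq_matrix_trace (ZMod 2) (Pi.basisFun (ZMod 2) K) P, Matrix.trace,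
      Finset.card_filter, Nat.cast_sum]
    refine Finset.sum_congr rfl fun s _ => ?_
    rw [Matrix.diag_apply, LinearMap.toMatrix_apply, Pi.basisFun_repr, P_apply,
      Pi.basisFun_apply, Pi.single_apply]
    split_ifs <;> simp
  rw [htr2] at htr
  have heven : Even (Finset.univ.filter (fun s : K => σ s = s)).card :=
    (ZMod.natCast_eq_zero_iff_even).1 htr
  -- the empty clique
  have hemp : G.IsClique ((∅ : Finset V) : Set V) := by simp
  let s0 : K := ⟨∅, hemp⟩
  have hs0 : s0 ∈ Finset.univ.filter (fun s : K => σ s = s) := by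
    simp only [Finset.mem_filter, Finset.mem_univ, true_and]
    exact Subtype.ext (Finset.map_empty _)
  have hodd : Odd ((Finset.univ.filter (fun s : K => σ s = s)).erase s0).card := by
    rw [← Finset.card_erase_add_one hs0] at heven
    exact Nat.even_add_one.1 heven |> Nat.not_even_iff_odd.1
  have hinv : ∀ s : Finset V, (∀ x, x ∈ s → g x ∈ s) ↔ s.map g.toEmbedding = s := by
    intro s
    constructor
    · intro h
      refine Finset.eq_of_subset_of_card_le ?_ (by rw [Finset.card_map])
      intro y hy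
      obtain ⟨x, hx, rfl⟩ := Finset.mem_map.1 hy
      exact h x hx
    · intro h x hx
      rw [← h]
      exact Finset.mem_map_of_mem _ hx
  have hcard : Nat.card {s : Finset V // InvClique G g s} =
      ((Finset.univ.filter (fun s : K => σ s = s)).erase s0).card := by
    rw [← Finset.card_map (Function.Embedding.subtype _)]
    refine Nat.subtype_card _ ?_
    intro s
    simp only [Finset.mem_map, Finset.mem_erase, Finset.mem_filter, Finset.mem_univ, true_and,
      Function.Embedding.subtype_apply]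
    constructor
    · rintro ⟨k, ⟨h2, h3⟩, rfl⟩
      refine ⟨?_, k.2, (hinv k.1).2 (congrArg Subtype.val h3)⟩
      rw [Finset.nonempty_iff_ne_empty]
      exact fun h4 => h2 (Subtype.ext h4)
    · rintro ⟨h2, h3, h4⟩
      refine ⟨⟨s, h3⟩, ⟨?_, Subtype.ext ((hinv s).1 h4)⟩, rfl⟩
      intro h5
      exact h2.ne_empty (congrArg Subtype.val h5)
  rw [hcard]
  exact hodd

end Pool.Agent.MSN.Alg
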