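import Pool.Agent.MSN.ATargets

/-!
# M4, PG: `p`-groups acting on a complex with Euler characteristic zero (augmented)
-/

namespace Pool.Agent.MSN.Alg

open List Pool.Agent.MSF Pool.Agent.MSN Pool.Agent.MSN.Fin

universe u

/-- The cliques with `j` vertices. -/
abbrev pg_C {V : Type u} (G : SimpleGraph V) (j : ℕ) : Type u :=
  {s : Finset V // G.IsClique (s : Set V) ∧ s.card = j}

/-- The image of a clique. -/
theorem pg_img {V : Type u} [DecidableEq V] (G : SimpleGraph V) {H : Type} [Group H]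
    [MulAction H V] (hA : ∀ (h : H) (a b : V), G.Adj (h • a) (h • b) ↔ G.Adj a b) (h : H) (j : ℕ)
    (s : Finset V) (hs : G.IsClique (s : Set V) ∧ s.card = j) :
    G.IsClique ((s.image (fun x => h • x) : Finset V) : Set V) ∧
      (s.image (fun x => h • x)).card = j := by
  refine ⟨?_, ?_⟩
  · intro a ha b hb hab
    rw [Finset.mem_coe, Finset.mem_image] at ha hb
    obtain ⟨a', ha', rfl⟩ := ha
    obtain ⟨b', hb', rfl⟩ := hb
    rw [hA]
    refine hs.1 ha' hb' ?_
    rintro rfl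
    exact hab rfl
  · rw [Finset.card_image_of_injective _ (MulAction.injective h)]
    exact hs.2

/-- The action on cliques. -/
abbrev pg_act {V : Type u} [DecidableEq V] (G : SimpleGraph V) {H : Type} [Group H]
    [MulAction H V] (hA : ∀ (h : H) (a b : V), G.Adj (h • a) (h • b) ↔ G.Adj a b) (j : ℕ) :
    MulAction H (pg_C G j) where
  smul h s := ⟨s.1.image (fun x => h • x), pg_img G hA h j s.1 s.2⟩
  one_smul s := by
    apply Subtype.ext
    change s.1.image (fun x => (1 : H) • x) = s.1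
    simp
  mul_smul a b s := by
    apply Subtype.ext
    change s.1.image (fun x => (a * b) • x) =
      (s.1.image (fun x => b • x)).image (fun x => a • x)
    rw [Finset.image_image]
    congr 1
    funext x
    exact mul_smul a b x

theorem pg_dvd {V : Type u} [Fintype V] [DecidableEq V] (G : SimpleGraph V) (p : ℕ)
    [Fact p.Prime] {H : Type} [Group H] [Finite H] [MulAction H V] (hp : IsPGroup p H)
    (hA : ∀ (h : H) (a b : V), G.Adj (h • a) (h • b) ↔ G.Adj a b)
    (hno : ¬ ∃ s : Finset V, s.Nonempty ∧ G.IsClique (s : Set V) ∧ ∀ (h : H), ∀ x ∈ s, h • x ∈ s)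
    (j : ℕ) : p ∣ nC G (j + 1) := by
  let _ : MulAction H (pg_C G (j + 1)) := pg_act G hA (j + 1)
  have h1 := hp.card_modEq_card_fixedPoints (pg_C G (j + 1))
  have h2 : IsEmpty (MulAction.fixedPoints H (pg_C G (j + 1))) := by
    refine ⟨fun s => hno ⟨s.1.1, ?_, s.1.2.1, ?_⟩⟩
    · rw [← Finset.card_pos, s.1.2.2]
      exact Nat.succ_pos j
    · intro h x hx
      have h3 : h • s.1 = s.1 := s.2 h
      have h4 : s.1.1.image (fun x => h • x) = s.1.1 := congrArg Subtype.val h3
      rw [← h4]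
      exact Finset.mem_image_of_mem _ hx
  have h5 : Nat.card (MulAction.fixedPoints H (pg_C G (j + 1))) = 0 := Nat.card_of_isEmpty
  rw [h5] at h1
  exact (Nat.modEq_zero_iff_dvd).1 h1

theorem pg_zero {V : Type u} [Fintype V] [DecidableEq V] (G : SimpleGraph V) : nC G 0 = 1 := by
  unfold nC
  rw [Nat.card_eq_one_iff_unique]
  refine ⟨⟨fun a b => ?_⟩, ⟨⟨∅, ?_, Finset.card_empty⟩⟩⟩
  · apply Subtype.ext
    rw [Finset.card_eq_zero.1 a.2.2, Finset.card_eq_zero.1 b.2.2]
  · simp

theorem tPG : T_PG.{u} := by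
  intro V _ _ G hchi p hp H _ _ _ hH hA
  by_contra hno
  have h1 := hchi (Fintype.card V + 1) (Nat.lt_succ_self _)
  rw [Finset.sum_range_succ', pg_zero] at h1
  have h2 : (p : ℤ) ∣ ∑ j ∈ Finset.range (Fintype.card V),
      (-1 : ℤ) ^ (j + 1) * (nC G (j + 1) : ℤ) := by
    refine Finset.dvd_sum fun j _ => Dvd.dvd.mul_left ?_ _
    exact Int.natCast_dvd_natCast.2 (pg_dvd G p hH hA hno j)
  have h3 : (p : ℤ) ∣ (-1 : ℤ) ^ 0 * ((1 : ℕ) : ℤ) :=
    (dvd_add_right h2).1 (h1 ▸ dvd_zero _)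
  have h4 : (p : ℤ) ∣ ((1 : ℕ) : ℤ) := by simpa using h3
  exact hp.out.one_lt.ne' (Nat.dvd_one.1 (Int.natCast_dvd_natCast.1 h4))

end Pool.Agent.MSN.Alg
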