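import Pool.Agent.MSN.ATargets

/-! M4, ZETA: the cocycle. -/

namespace Pool.Agent.MSN.Alg

open List Pool.Agent.MSF Pool.Agent.MSN Pool.Agent.MSN.Fin

universe u

theorem zeta_tail {V : Type u} {K : SimpleGraph V} {a b : V} {P Q : List V} (h : IsP K a b P) :
    (P ++ Q).tail = P.tail ++ Q := by
  rw [isP_eq_cons h]
  rfl

open Classical in
/-- The cocycle. -/
noncomputable def zetaF {V : Type u} (K D : SimpleGraph V) (lam : V → V → List V)
    (η : V → V → V → ZMod 2) (x y z : V) : ZMod 2 :=
  if D.Adj x y ∧ D.Adj y z ∧ D.Adj x z then J K η (lam x z) (lam x y ++ (lam y z).tail) else 0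

theorem tZETA : T_ZETA.{u} := by
  intro V K D o lam η hs hu hKD hpath hrev hedge htri
  have H : ∀ x y z, D.Adj x y → D.Adj y z → D.Adj x z →
      HW K η (lam x z) (lam x y ++ (lam y z).tail) (zetaF K D lam η x y z) := by
    intro x y z h1 h2 h3
    unfold zetaF
    rw [if_pos ⟨h1, h2, h3⟩]
    exact J_spec (htri x y z h1 h2 h3)
  refine ⟨zetaF K D lam η, ⟨?_, ?_⟩, ?_, ?_⟩
  · intro a b c
    by_cases h : D.Adj a b ∧ D.Adj b c ∧ D.Adj a c
    · obtain ⟨h1, h2, h3⟩ := h
      have k1 := hw_mulL (hpath b a h1.symm) (hpath a c h3) (H a b c h1 h2 h3)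
      rw [zeta_tail (hpath a b h1), ← List.append_assoc] at k1
      have k2 := hw_right (ω := η) (lam b c).tail (hw_cancel (ω := η) (hpath a b h1))
      rw [← hrev a b h1, List.singleton_append, ← isP_eq_cons (hpath b c h2)] at k2
      have k3 := k1.trans k2
      have k4 := hu.eq (hpath b c h2) (H b a c h1.symm h3 h2) k3.symm
      rw [k4, add_zero]
    · unfold zetaF
      rw [if_neg h, if_neg]
      rintro ⟨h1, h2, h3⟩
      exact h ⟨h1.symm, h3, h2⟩
  · intro a b c
    by_cases h : D.Adj a b ∧ D.Adj b c ∧ D.Adj a c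
    · obtain ⟨h1, h2, h3⟩ := h
      have k1 := hw_right (ω := η) (lam c b).tail (H a b c h1 h2 h3)
      have k2 := hw_mulL (hpath a b h1) ((hpath b c h2).comp (hpath b c h2).reverse)
        (hw_cancel' (ω := η) (hpath b c h2))
      rw [zeta_tail (hpath b c h2), ← List.append_assoc, ← hrev b c h2] at k2
      have e : lam a b ++ [o b].tail = lam a b := by simp
      rw [e] at k2
      have k3 := k1.trans k2
      have k4 := hu.eq (hpath a b h1) (H a c b h3 h2.symm h1) k3.symm
      rw [k4, add_zero]
    · unfold zetaF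
      rw [if_neg h, if_neg]
      rintro ⟨h1, h2, h3⟩
      exact h ⟨h3, h2.symm, h1⟩
  · intro a b c d hab hac had hbc hbd hcd
    have k1 := H a b d hab hbd had
    have k2 := hw_mulL (hpath a b hab) (hpath b d hbd) (H b c d hbc hcd hbd)
    rw [zeta_tail (hpath b c hbc), ← List.append_assoc] at k2
    have k3 := k1.trans k2
    have k4 := H a c d hac hcd had
    have k5 := hw_right (ω := η) (lam c d).tail (H a b c hab hbc hac)
    have k6 := k4.trans k5
    have k7 := hu.eq (hpath a d had) k3 k6
    have k8 : zetaF K D lam η b c d + zetaF K D lam η a c d + zetaF K D lam η a b d +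
        zetaF K D lam η a b c = (zetaF K D lam η a b d + zetaF K D lam η b c d) +
        (zetaF K D lam η a c d + zetaF K D lam η a b c) := by ring
    rw [k8, k7]
    exact CharTwo.add_self_eq_zero _
  · intro a b d hab hbd had
    unfold zetaF
    rw [if_pos ⟨hKD _ _ hab, hKD _ _ hbd, hKD _ _ had⟩]
    have k1 := HW.tri (G := K) (ω := η) [] [] a b d hab hbd had
    refine hu.J_eq (hpath a d (hKD _ _ had)) ?_
    rw [hedge a d had, hedge a b hab, hedge b d hbd]
    simpa using k1

end Pool.Agent.MSN.Alg
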