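import Pool.Agent.MSN.AALGA
import Pool.Agent.MSN.AEXA
import Pool.Agent.MSN.AEXB
import Pool.Agent.MSN.AEXC
import Pool.Agent.MSN.AEXD
import Pool.Agent.MSN.AEXF
import Pool.Agent.MSN.AGX
import Pool.Agent.MSN.ALT
import Pool.Agent.MSN.AZETA
import Pool.Agent.MSN.ACHI
import Pool.Agent.MSN.AOD
import Pool.Agent.MSN.APG

/-! M4: the interface `T_UNIQ`, `T_INJ`, `T_SURJ` gives `T_ODD` and `T_PGR`. -/

namespace Pool.Agent.MSN.Alg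

open Pool.Agent.MSF Pool.Agent.MSN

universe u

theorem tALG (hRES : Pool.Agent.MSF.T_RES.{u}) (hLARGE : Pool.Agent.MSF.T_LARGE.{u})
    (hTRIG : Pool.Agent.MSF.T_TRIG.{u}) (hU : T_UNIQ.{u}) (hI : T_INJ.{u}) (hS : T_SURJ.{u}) :
    T_ODD.{u} ∧ T_PGR.{u} :=
  tALGA hRES hLARGE hTRIG hU hI hS tEXA tEXC tEXB tEXD tEXF tGX tLT tZETA tCHI tOD tPG

end Pool.Agent.MSN.Alg
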