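import Pool.Agent.MSN.Targets

/-!
# MSN: reversal of two-sided paths
-/

set_option autoImplicit false

namespace Pool.Agent.MSN

open List

universe u

namespace BREV

variable {N : Type u}

theorem bi_symm {ang : N → N → N → ℝ} {C : Cx N} {p q n : N} {φ φ' : ℝ}
    (h : Bi ang C p q n φ φ') : Bi ang C n q p φ' φ := by
  obtain ⟨X, Y, h1, h2, h3, h4, h5, h6⟩ := h
  exact ⟨Y, X, h3, h4, h1, h2, h6, h5⟩

/-- The last vertex of a path. -/
def lastV (z : N) : List (ℝ × N) → N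
  | [] => z
  | (_, y) :: l => lastV y l

theorem lastV_append (z : N) (M : List (ℝ × N)) (φ : ℝ) (y : N) :
    lastV z (M ++ [(φ, y)]) = y := by
  induction M generalizing z with
  | nil => rfl
  | cons p M ih =>
    obtain ⟨a, b⟩ := p
    exact ih b

theorem bp_append {ang : N → N → N → ℝ} {C : Cx N} {I : N → Prop} (M : List (ℝ × N)) :
    ∀ (z : N) (φ φ' : ℝ) (y x : N), Bp ang C I z (M ++ [(φ, y)]) → C.E y x →
      |φ'| ≤ Real.pi / 4 → I y → Bi ang C (lastV z M) y x φ φ' →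
      Bp ang C I z (M ++ [(φ, y)] ++ [(φ', x)]) := by
  induction M with
  | nil =>
    intro z φ φ' y x h1 h2 h3 h4 h5
    exact ⟨h1.1, h1.2, h4, h5, h2, h3⟩
  | cons p M ih =>
    intro z φ φ' y x h1 h2 h3 h4 h5
    obtain ⟨a, b⟩ := p
    have h6 : Bp ang C I b (M ++ [(φ, y)]) → Bp ang C I b (M ++ [(φ, y)] ++ [(φ', x)]) :=
      fun h => ih b φ φ' y x h h2 h3 h4 h5
    cases M with
    | nil =>
      obtain ⟨g1, g2, g3, g4, g5⟩ := h1
      exact ⟨g1, g2, g3, g4, h6 g5⟩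
    | cons p' M' =>
      obtain ⟨a', b'⟩ := p'
      obtain ⟨g1, g2, g3, g4, g5⟩ := h1
      exact ⟨g1, g2, g3, g4, h6 g5⟩

theorem lastV_rev (z w : N) (l : List (ℝ × N)) (h : l = [] → z = w) :
    lastV z (revB w l) = w := by
  cases l with
  | nil => exact h rfl
  | cons p l =>
    obtain ⟨a, b⟩ := p
    exact lastV_append z (revB b l) a w

theorem main {ang : N → N → N → ℝ} {C : Cx N} {I : N → Prop}
    (hs : ∀ x y, C.E x y → C.E y x) (l : List (ℝ × N)) : ∀ (x y : N) (φ : ℝ),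
    Bp ang C I x (l ++ [(φ, y)]) → Bp ang C I y (revB x (l ++ [(φ, y)])) := by
  induction l with
  | nil =>
    intro x y φ h
    exact ⟨hs _ _ h.1, h.2⟩
  | cons p l ih =>
    intro x y φ h
    obtain ⟨φ₁, y₁⟩ := p
    obtain ⟨φ₂, y₂, l₂, hl, hy⟩ : ∃ (φ₂ : ℝ) (y₂ : N) (l₂ : List (ℝ × N)),
        l ++ [(φ, y)] = (φ₂, y₂) :: l₂ ∧ (l₂ = [] → y = y₂) := by
      cases l with
      | nil => exact ⟨φ, y, [], rfl, fun _ => rfl⟩
      | cons p l =>
        obtain ⟨a, b⟩ := p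
        exact ⟨a, b, l ++ [(φ, y)], rfl, fun h => by simp at h⟩
    have ih' := ih y₁ y φ
    have e : (φ₁, y₁) :: l ++ [(φ, y)] = (φ₁, y₁) :: (φ₂, y₂) :: l₂ := by
      rw [List.cons_append, hl]
    rw [e] at h ⊢
    rw [hl] at ih'
    obtain ⟨g1, g2, g3, g4, g5⟩ := h
    have h7 := ih' g5
    have h8 : Bi ang C (lastV y (revB y₂ l₂)) y₁ x φ₂ φ₁ := by
      rw [lastV_rev y y₂ l₂ hy]
      exact bi_symm g4
    exact bp_append (revB y₂ l₂) y φ₂ φ₁ y₁ x h7 (hs _ _ g1) g2 g3 h8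

end BREV

theorem tBREV : T_BREV.{u} := by
  intro N ang C I hs x l y φ h
  exact BREV.main hs l x y φ h

end Pool.Agent.MSN
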