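import Pool.Agent.MSN.Targets

set_option autoImplicit false

namespace Pool.Agent.MSN

open List Pool.Agent.MSF

universe u

namespace CHORD

variable {N : Type u}

/-- extension at the end -/
lemma extend {ang : N → N → N → ℝ} {C : Cx N} {I : N → Prop} (l : List (ℝ × N)) :
    ∀ (x : N) (φ : ℝ) (y : N), Bp ang C I x (l ++ [(φ, y)]) →
      ∃ p, C.E p y ∧ |φ| ≤ Real.pi / 4 ∧ ∀ (n : N) (φ' : ℝ), C.E y n → |φ'| ≤ Real.pi / 4 →
        I y → Bi ang C p y n φ φ' → Bp ang C I x (l ++ [(φ, y)] ++ [(φ', n)]) := by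
  induction l with
  | nil =>
    intro x φ y h
    simp only [nil_append, Bp] at h
    exact ⟨x, h.1, h.2, fun n φ' h1 h2 h3 h4 => ⟨h.1, h.2, h3, h4, h1, h2⟩⟩
  | cons a l ih =>
    obtain ⟨φ₀, y₀⟩ := a
    intro x φ y h
    cases l with
    | nil =>
      simp only [nil_append, cons_append, Bp] at h
      obtain ⟨h1, h2, h3, h4, h5, h6⟩ := h
      exact ⟨y₀, h5, h6, fun n φ' k1 k2 k3 k4 =>
        ⟨h1, h2, h3, h4, h5, h6, k3, k4, k1, k2⟩⟩
    | cons b l =>
      obtain ⟨φ₁, y₁⟩ := b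
      obtain ⟨h1, h2, h3, h4, h5⟩ := h
      obtain ⟨p, hp, hφ, hp'⟩ := ih y₀ φ y h5
      exact ⟨p, hp, hφ, fun n φ' k1 k2 k3 k4 => ⟨h1, h2, h3, h4, hp' n φ' k1 k2 k3 k4⟩⟩

/-- all vertices are in `S` -/
lemma mem_S {ang : N → N → N → ℝ} {C : Cx N} {I : N → Prop} (hs : ∀ x y, C.E x y → C.E y x)
    (l : List (ℝ × N)) : ∀ x : N, l ≠ [] → Bp ang C I x l → ∀ v ∈ x :: l.map Prod.snd, v ∈ C.S := by
  induction l with
  | nil => intro x h; exact absurd rfl h
  | cons a l ih =>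
    obtain ⟨φ₀, y₀⟩ := a
    intro x _ h v hv
    cases l with
    | nil =>
      simp only [Bp] at h
      simp only [map_cons, map_nil, mem_cons, not_mem_nil, or_false] at hv
      rcases hv with rfl | rfl
      · exact ⟨_, h.1⟩
      · exact ⟨_, hs _ _ h.1⟩
    | cons b l =>
      obtain ⟨φ₁, y₁⟩ := b
      obtain ⟨h1, -, -, -, h5⟩ := h
      rcases mem_cons.1 hv with rfl | hv
      · exact ⟨_, h1⟩
      · exact ih y₀ (by simp) h5 v hv

lemma revB_map (l : List (ℝ × N)) : ∀ (x : N) (φ : ℝ) (y : N),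
    y :: (revB x (l ++ [(φ, y)])).map Prod.snd =
      (x :: (l ++ [(φ, y)]).map Prod.snd).reverse := by
  induction l with
  | nil => intro x φ y; simp [revB]
  | cons a l ih =>
    obtain ⟨φ₀, y₀⟩ := a
    intro x φ y
    have h1 := ih y₀ φ y
    have h2 : revB x ((φ₀, y₀) :: l ++ [(φ, y)]) = revB y₀ (l ++ [(φ, y)]) ++ [(φ₀, x)] := rfl
    rw [h2, map_append, ← cons_append, h1]
    simp

end CHORD

open CHORD in
theorem tCHORD (h1 : T_INV.{u}) (h2 : T_FIN.{u}) (h3 : T_EXT.{u}) (h4 : T_BREV.{u})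
    (h5 : T_NR.{u}) : T_CHORD.{u} := by
  classical
  intro N len ang A C L hPD hE w hw
  have hinv := h1 ang A C L hPD
  obtain ⟨hfin, -, -⟩ := h2 ang A C L hPD
  set I := Int C L with hI
  -- the possible lengths
  let Q : ℕ → Prop := fun n => ∃ (x : N) (l : List (ℝ × N)) (φ : ℝ) (y : N),
    Bp ang C I x (l ++ [(φ, y)]) ∧ w ∈ x :: (l ++ [(φ, y)]).map Prod.snd ∧ l.length = n
  have hbd : ∀ n, Q n → n ≤ hfin.toFinset.card := by
    rintro n ⟨x, l, φ, y, hb, -, rfl⟩
    have hnd := h5 len ang A C L hPD hE I x _ hb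
    have hsub : (x :: (l ++ [(φ, y)]).map Prod.snd).toFinset ⊆ hfin.toFinset := by
      intro v hv
      rw [Set.Finite.mem_toFinset]
      exact mem_S hinv.symm _ x (by simp) hb v (List.mem_toFinset.1 hv)
    have hc := Finset.card_le_card hsub
    rw [List.toFinset_card_of_nodup hnd] at hc
    simp only [length_cons, length_map, length_append, length_nil] at hc
    omega
  have hQ : ∃ n, Q n := by
    obtain ⟨y, hy⟩ := hw.1
    refine ⟨0, w, [], 0, y, ?_, by simp, rfl⟩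
    simp only [nil_append, Bp]
    refine ⟨hy, ?_⟩
    rw [abs_zero]
    have := Real.pi_pos
    positivity
  obtain ⟨n, hn, hmax⟩ : ∃ n, Q n ∧ ∀ m, Q m → m ≤ n := by
    refine ⟨Nat.findGreatest Q hfin.toFinset.card, ?_, fun m hm => ?_⟩
    · obtain ⟨m, hm⟩ := hQ
      exact Nat.findGreatest_spec (hbd m hm) hm
    · exact Nat.le_findGreatest (hbd m hm) hm
  obtain ⟨x, l, φ, y, hb, hwm, hl⟩ := hn
  -- ends of maximal paths are on the boundary
  have hend : ∀ (x : N) (l : List (ℝ × N)) (φ : ℝ) (y : N), Bp ang C I x (l ++ [(φ, y)]) →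
      w ∈ x :: (l ++ [(φ, y)]).map Prod.snd → l.length = n → y ∈ L.map FC.v := by
    intro x l φ y hb hwm hl
    by_contra hy
    obtain ⟨p, hp, hφ, hext⟩ := extend l x φ y hb
    have hIy : Int C L y := ⟨⟨p, hinv.symm _ _ hp⟩, hy⟩
    obtain ⟨m, φ', hm, hφ', hBi⟩ := h3 len ang A C L hPD hE p y φ hIy hp hφ
    have hb' := hext m φ' hm hφ' hIy hBi
    have := hmax (n + 1) ⟨x, l ++ [(φ, y)], φ', m, hb', by
      rw [map_append, ← cons_append]
      exact mem_append_left _ hwm, by simp [hl]⟩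
    omega
  have hy := hend x l φ y hb hwm hl
  have hx : x ∈ L.map FC.v := by
    have hr := h4 ang C I hinv.symm x l y φ hb
    have hm := revB_map l x φ y
    obtain ⟨φ₁, l₁, hl₁⟩ : ∃ (φ₁ : ℝ) (l₁ : List (ℝ × N)),
        revB x (l ++ [(φ, y)]) = l₁ ++ [(φ₁, x)] := by
      cases l with
      | nil => exact ⟨φ, [], rfl⟩
      | cons a l => exact ⟨a.1, revB a.2 (l ++ [(φ, y)]), rfl⟩
    rw [hl₁] at hr hm
    refine hend y l₁ φ₁ x hr ?_ ?_
    · rw [hm, mem_reverse]
      exact hwm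
    · have := congrArg List.length hm
      simp only [length_cons, length_map, length_append, length_nil, length_reverse] at this
      omega
  refine ⟨x, l, φ, y, hb, ?_, hx, hy⟩
  rw [map_append, mem_cons, mem_append] at hwm
  rcases hwm with rfl | hwm | hwm
  · exact absurd hx hw.2
  · exact hwm
  · rw [map_cons, map_nil, mem_singleton] at hwm
    rw [hwm] at hw
    exact absurd hy hw.2

end Pool.Agent.MSN
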