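import Pool.Agent.MSN.Targets

/-!
# Cyclic lists (CYC)

If every cyclic edge of the nodup cyclic list `u` is a cyclic edge of the nodup cyclic list `w`, in
one of the two directions, then `u` is `w` or the reverse of `w`, up to rotation.
-/

namespace Pool.Agent.MSN

open List

universe u

namespace CYC

variable {N : Type u}

/-- Rotations of a nodup list with the same head are equal. -/
theorem head_eq {d : N} {l₁ l₂ : List N} (h : (d :: l₁) ~r (d :: l₂)) (hn : (d :: l₁).Nodup) :
    l₁ = l₂ := by
  obtain ⟨n, hlt, h⟩ := List.isRotated_iff_mod.1 h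
  rcases Nat.lt_or_ge n (d :: l₁).length with hl | hl
  · have h0 : ((d :: l₁).rotate n)[0]? = some d := by rw [h]; rfl
    rw [List.getElem?_rotate (by simp)] at h0
    have h1 : (d :: l₁)[0]? = some d := rfl
    have h2 : (0 + n) % (d :: l₁).length = n := by rw [Nat.zero_add, Nat.mod_eq_of_lt hl]
    rw [h2] at h0
    have h3 : n = 0 := by
      have := (List.nodup_iff_getElem?_ne_getElem?.1 hn)
      by_contra hne
      exact this 0 n (Nat.pos_of_ne_zero hne) hl (by rw [h0, h1])
    subst h3
    simpa using h
  · have h3 : n = (d :: l₁).length := le_antisymm hlt hl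
    subst h3
    rw [List.rotate_length] at h
    simpa using h

theorem rot_app (p q : List N) : (p ++ q) ~r (q ++ p) := List.isRotated_append

/-- The successor of `d`. -/
theorem succ_eq {p rest l : List N} {d x : N} (hn : (p ++ d :: rest).Nodup)
    (h : (p ++ d :: rest) ~r (d :: x :: l)) : rest ++ p = x :: l := by
  have h1 : (p ++ d :: rest) ~r (d :: (rest ++ p)) := rot_app p (d :: rest)
  have h2 : (d :: (rest ++ p)).Nodup := (h1.nodup_iff).1 hn
  exact head_eq (h1.symm.trans h) h2

/-- The predecessor of `d`. -/
theorem pred_eq {p rest l : List N} {c d x : N} (hn : (p ++ c :: d :: rest).Nodup)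
    (h : (p ++ c :: d :: rest) ~r (x :: d :: l)) : x = c := by
  have h1 : (p ++ c :: d :: rest) ~r (d :: (rest ++ (p ++ [c]))) := by
    have := rot_app (p ++ [c]) (d :: rest)
    simpa using this
  have h2 : (d :: (rest ++ (p ++ [c]))).Nodup := (h1.nodup_iff).1 hn
  have h3 : (x :: d :: l) ~r (d :: (l ++ [x])) := rot_app [x] (d :: l)
  have h4 := head_eq (h1.symm.trans (h.trans h3)) h2
  rw [← List.append_assoc] at h4
  exact (List.append_inj_right' h4 rfl |> fun h => by simpa using h.symm)

theorem core (rest : List N) : ∀ (rest' p : List N) (c d : N), (p ++ c :: d :: rest).Nodup →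
    (p ++ c :: d :: rest').Nodup → 3 ≤ (p ++ c :: d :: rest).length →
    (∀ x y l, (p ++ c :: d :: rest) ~r (x :: y :: l) →
      (∃ l', (p ++ c :: d :: rest') ~r (x :: y :: l')) ∨
        ∃ l', (p ++ c :: d :: rest') ~r (y :: x :: l')) → rest = rest' := by
  induction rest with
  | nil =>
    intro rest' p c d hu hw hlen hE
    cases p with
    | nil => simp at hlen
    | cons a p =>
      have h1 : ((a :: p) ++ [c, d]) ~r (d :: a :: (p ++ [c])) := by
        have := rot_app ((a :: p) ++ [c]) [d]
        simpa using this
      rcases hE _ _ _ h1 with ⟨l', h⟩ | ⟨l', h⟩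
      · have h2 := succ_eq (p := (a :: p) ++ [c]) (rest := rest') (by simpa using hw)
          (by simpa using h)
        cases rest' with
        | nil => rfl
        | cons y r =>
          have h3 : y = a := by simpa using (List.cons.inj h2).1
          subst h3
          simp at hw
      · have h2 := pred_eq hw h
        subst h2
        simp at hu
  | cons x rest ih =>
    intro rest' p c d hu hw hlen hE
    have h1 : (p ++ c :: d :: x :: rest) ~r (d :: x :: (rest ++ (p ++ [c]))) := by
      have := rot_app (p ++ [c]) (d :: x :: rest)
      simpa using this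
    rcases hE _ _ _ h1 with ⟨l', h⟩ | ⟨l', h⟩
    · have h2 := succ_eq (p := p ++ [c]) (rest := rest') (by simpa using hw) (by simpa using h)
      cases rest' with
      | nil =>
        exfalso
        have h3 : x ∈ p ++ [c] := by
          rw [List.nil_append] at h2
          rw [h2]; simp
        have h4 : ((p ++ [c]) ++ (d :: x :: rest)).Nodup := by simpa using hu
        exact (List.nodup_append.1 h4).2.2 x h3 x (by simp) rfl
      | cons y r =>
        have h3 : y = x := by simpa using (List.cons.inj h2).1
        subst h3
        have h4 := ih r (p ++ [c]) d y (by simpa using hu) (by simpa using hw)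
          (by simpa using hlen) (by simpa using hE)
        rw [h4]
    · have h2 := pred_eq hw h
      subst h2
      exfalso
      have h4 : (p ++ x :: d :: x :: rest).Nodup := hu
      simp [List.nodup_append] at h4

end CYC

theorem tCYC : T_CYC.{u} := by
  intro N u w hu3 hw3 hun hwn hE
  match u, hu3, hun, hE with
  | a :: b :: u', hu3, hun, hE =>
    rcases hE a b u' (List.IsRotated.refl _) with ⟨l', h⟩ | ⟨l', h⟩
    · left
      have h1 : (a :: b :: l').Nodup := (h.nodup_iff).1 hwn
      have h2 := CYC.core u' l' [] a b hun h1 hu3 (by
        intro x y l hl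
        rcases hE x y l hl with ⟨m, hm⟩ | ⟨m, hm⟩
        · exact Or.inl ⟨m, h.symm.trans hm⟩
        · exact Or.inr ⟨m, h.symm.trans hm⟩)
      rw [h2]
      exact h.symm
    · right
      have h0 : w.reverse ~r (a :: b :: l'.reverse) := by
        have h1 := h.reverse
        have h2 : (b :: a :: l').reverse ~r (a :: b :: l'.reverse) := by
          have := CYC.rot_app l'.reverse [a, b]
          simpa using this
        exact h1.trans h2
      have h1 : (a :: b :: l'.reverse).Nodup :=
        (h0.nodup_iff).1 (List.nodup_reverse.2 hwn)
      have h2 := CYC.core u' l'.reverse [] a b hun h1 hu3 (by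
        have key : ∀ x y m, w ~r (x :: y :: m) →
            (a :: b :: l'.reverse) ~r (y :: x :: m.reverse) := by
          intro x y m hm
          have h3 := hm.reverse
          have h4 : (x :: y :: m).reverse ~r (y :: x :: m.reverse) := by
            have := CYC.rot_app m.reverse [y, x]
            simpa using this
          exact h0.symm.trans (h3.trans h4)
        intro x y l hl
        rcases hE x y l hl with ⟨m, hm⟩ | ⟨m, hm⟩
        · exact Or.inr ⟨m.reverse, key x y m hm⟩
        · exact Or.inl ⟨m.reverse, key y x m hm⟩)
      rw [h2]
      exact h0.symm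

end Pool.Agent.MSN
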