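import Pool.Agent.MSN.Targets

/-! Target DIST of the project MSN: distances to the boundary. -/

namespace Pool.Agent.MSN

open List Pool.Agent.MSF

universe u

namespace DIST

variable {N : Type u}

lemma elen_append (len : N → N → ℝ) (c : N) (Q : List N) : ∀ P : List N,
    elen len (P ++ c :: Q) = elen len (P ++ [c]) + elen len (c :: Q)
  | [] => by simp [elen]
  | [p] => by simp [elen]
  | p :: q :: P => by
    have := elen_append len c Q (q :: P)
    simp only [List.cons_append, elen] at this ⊢
    rw [this]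
    ring

lemma elen_reverse (len : N → N → ℝ) (hs : ∀ x y, len x y = len y x) : ∀ P : List N,
    elen len P.reverse = elen len P
  | [] => rfl
  | [p] => rfl
  | p :: q :: P => by
    have h1 := elen_reverse len hs (q :: P)
    have h2 : (p :: q :: P).reverse = P.reverse ++ q :: [p] := by simp
    have h3 : (q :: P).reverse = P.reverse ++ [q] := by simp
    rw [h2, elen_append, ← h3, h1]
    simp only [elen]
    rw [hs q p]
    ring

lemma elen_nonneg (len : N → N → ℝ) {E : N → N → Prop} (hp : ∀ x y, E x y → 0 < len x y) :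
    ∀ P : List N, List.IsChain E P → 0 ≤ elen len P
  | [], _ => le_rfl
  | [p], _ => le_rfl
  | p :: q :: P, h => by
    rw [List.isChain_cons_cons] at h
    have h1 := elen_nonneg len hp (q :: P) h.2
    have h2 := hp p q h.1
    simp only [elen]
    linarith

lemma chain_split {R : N → N → Prop} : ∀ (M A : List N),
    (∀ A' x y B, A ++ M = A' ++ x :: y :: B → R x y) → List.IsChain R M
  | [], _, _ => List.isChain_nil
  | [a], _, _ => List.isChain_singleton a
  | a :: b :: M, A, h => by
    rw [List.isChain_cons_cons]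
    refine ⟨h A a b M rfl, chain_split (b :: M) (A ++ [a]) fun A' x y B hA => ?_⟩
    exact h A' x y B (by simpa using hA)

/-- the boundary as a closed chain -/
lemma bd_chain {C : Cx N} {L : List (FC N)} (hbd : ∀ x y, Bd L x y → C.E x y)
    (hlen : 2 ≤ L.length) {p : N} {W : List N} (hr : (L.map FC.v) ~r (p :: W)) :
    List.IsChain C.E (p :: (W ++ [p])) := by
  refine chain_split _ [] fun A x y B hA => ?_
  have hW : W ≠ [] := by
    rintro rfl
    have := hr.perm.length_eq
    simp at this
    omega
  rw [List.nil_append] at hA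
  rcases List.eq_nil_or_concat B with rfl | ⟨B', b, rfl⟩
  · have h1 : p :: (W ++ [p]) = (p :: W) ++ [p] := rfl
    have h2 : A ++ x :: y :: [] = (A ++ [x]) ++ [y] := by simp
    rw [h1, h2] at hA
    obtain ⟨h3, h4⟩ := List.append_inj' hA rfl
    simp only [List.cons.injEq, and_true] at h4
    subst h4
    cases A with
    | nil =>
      simp only [List.nil_append, List.cons.injEq] at h3
      exact absurd h3.2 hW
    | cons a A =>
      simp only [List.cons_append, List.cons.injEq] at h3
      obtain ⟨rfl, rfl⟩ := h3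
      refine hbd _ _ ⟨A, hr.trans ?_⟩
      have : (p :: (A ++ [x])) = (p :: A) ++ [x] := rfl
      rw [this]
      have h5 := List.isRotated_append (l := p :: A) (l' := [x])
      simpa using h5
  · have h1 : p :: (W ++ [p]) = (p :: W) ++ [p] := rfl
    have h2 : A ++ x :: y :: (B' ++ [b]) = (A ++ x :: y :: B') ++ [b] := by simp
    rw [List.concat_eq_append] at hA
    rw [h1, h2] at hA
    obtain ⟨h3, -⟩ := List.append_inj' hA rfl
    refine hbd _ _ ⟨B' ++ A, hr.trans ?_⟩
    rw [h3]
    have h5 := List.isRotated_append (l := A) (l' := x :: y :: B')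
    simpa using h5

lemma cyl_rotate1 (len : N → N → ℝ) (a : N) (l : List N) : cyl len (l ++ [a]) = cyl len (a :: l) := by
  cases l with
  | nil => rfl
  | cons b l =>
    have h1 : cyl len (b :: l ++ [a]) = elen len ((b :: l) ++ a :: [b]) := by
      simp [cyl]
    have h2 : cyl len (a :: b :: l) = elen len (a :: ((b :: l) ++ [a])) := rfl
    rw [h1, h2, elen_append]
    simp only [List.cons_append, elen]
    ring

lemma cyl_rot (len : N → N → ℝ) {V W : List N} (h : V ~r W) : cyl len V = cyl len W := by
  obtain ⟨n, rfl⟩ := h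
  induction n generalizing V with
  | zero => simp
  | succ n ih =>
    cases V with
    | nil => simp
    | cons a l =>
      rw [List.rotate_cons_succ, ← ih, cyl_rotate1]

/-- the two arcs between two boundary vertices -/
lemma arcs {V : List N} {x y : N} (hx : x ∈ V) (hy : y ∈ V) (hxy : x ≠ y) :
    ∃ X Y : List N, V ~r (x :: (X ++ y :: Y)) := by
  obtain ⟨A, B, rfl⟩ := List.append_of_mem hx
  have h1 : (A ++ x :: B) ~r (x :: B ++ A) := List.isRotated_append
  have hy' : y ∈ B ++ A := by
    simp only [List.mem_append, List.mem_cons] at hy ⊢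
    rcases hy with h | h | h
    · exact Or.inr h
    · exact absurd h.symm hxy
    · exact Or.inl h
  obtain ⟨X, Y, hXY⟩ := List.append_of_mem hy'
  refine ⟨X, Y, ?_⟩
  rw [← hXY]
  exact h1

/-- paths of bounded length -/
def J (len : N → N → ℝ) (E : N → N → Prop) (a c : N) (t : ℝ) : Prop :=
  ∃ P : List N, P.head? = some a ∧ P.getLast? = some c ∧ List.IsChain E P ∧ elen len P ≤ t

variable {len : N → N → ℝ} {E : N → N → Prop}

lemma J.refl (a : N) : J len E a a 0 := ⟨[a], rfl, rfl, List.isChain_singleton a, le_rfl⟩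

lemma J.mono {a c : N} {t t' : ℝ} (h : J len E a c t) (ht : t ≤ t') : J len E a c t' := by
  obtain ⟨P, h1, h2, h3, h4⟩ := h
  exact ⟨P, h1, h2, h3, h4.trans ht⟩

lemma J.of_list {a c : N} {M : List N} (h : List.IsChain E (a :: (M ++ [c]))) :
    J len E a c (elen len (a :: (M ++ [c]))) :=
  ⟨_, rfl, by rw [← List.cons_append, List.getLast?_concat], h, le_rfl⟩

lemma J.symm (hs : ∀ x y, len x y = len y x) (hE : ∀ x y, E x y → E y x) {a c : N} {t : ℝ}
    (h : J len E a c t) : J len E c a t := by
  obtain ⟨P, h1, h2, h3, h4⟩ := h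
  refine ⟨P.reverse, by rw [List.head?_reverse, h2], by rw [List.getLast?_reverse, h1], ?_,
    by rw [elen_reverse len hs]; exact h4⟩
  rw [List.isChain_reverse]
  exact h3.imp fun x y h => hE x y h

lemma J.trans {a c d : N} {t t' : ℝ} (h : J len E a c t) (h' : J len E c d t') :
    J len E a d (t + t') := by
  obtain ⟨P, h1, h2, h3, h4⟩ := h
  obtain ⟨Q, k1, k2, k3, k4⟩ := h'
  rcases List.eq_nil_or_concat P with rfl | ⟨P', p, rfl⟩
  · simp at h1
  rw [List.concat_eq_append] at h1 h2 h3 h4
  rw [List.getLast?_concat, Option.some.injEq] at h2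
  subst h2
  cases Q with
  | nil => simp at k1
  | cons q Q' =>
    simp only [List.head?_cons, Option.some.injEq] at k1
    subst k1
    refine ⟨P' ++ q :: Q', ?_, ?_, ?_, ?_⟩
    · cases P' with
      | nil => simpa using h1
      | cons a' P' => simpa using h1
    · rw [List.getLast?_append_cons]
      exact k2
    · rw [List.isChain_split]
      exact ⟨h3, k3⟩
    · rw [elen_append]
      linarith

lemma Bp_chain (ang : N → N → N → ℝ) (C : Cx N) (I : N → Prop) : ∀ (m : List (ℝ × N)) (x : N),
    Bp ang C I x m → List.IsChain C.E (x :: m.map Prod.snd)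
  | [], x, _ => List.isChain_singleton x
  | [(φ, y)], x, h => by
    simp only [Bp] at h
    simpa using h.1
  | (φ, y) :: (φ', y') :: l, x, h => by
    simp only [Bp] at h
    have h1 := Bp_chain ang C I ((φ', y') :: l) y h.2.2.2.2
    rw [List.map_cons, List.isChain_cons_cons]
    exact ⟨h.1, h1⟩

lemma Bp_I (ang : N → N → N → ℝ) (C : Cx N) (I : N → Prop) (φ : ℝ) (y : N) :
    ∀ (l : List (ℝ × N)) (x : N), Bp ang C I x (l ++ [(φ, y)]) → ∀ v ∈ l.map Prod.snd, I v
  | [], _, _ => by simp
  | [(φ₁, y₁)], x, h => by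
    simp only [List.cons_append, List.nil_append, Bp] at h
    simpa using h.2.2.1
  | (φ₁, y₁) :: (φ₂, y₂) :: l, x, h => by
    simp only [List.cons_append, Bp] at h
    have h1 := Bp_I ang C I φ y ((φ₂, y₂) :: l) y₁ (by simpa using h.2.2.2.2)
    intro v hv
    rw [List.map_cons, List.mem_cons] at hv
    rcases hv with rfl | hv
    · exact h.2.2.1
    · exact h1 v hv

lemma revB_eq (y : N) : ∀ (l : List (ℝ × N)) (x : N) (φ : ℝ), ∃ (l' : List (ℝ × N)) (φ' : ℝ),
    revB x (l ++ [(φ, y)]) = l' ++ [(φ', x)] ∧ l'.map Prod.snd = (l.map Prod.snd).reverse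
  | [], x, φ => ⟨[], φ, rfl, rfl⟩
  | (φ₁, y₁) :: l, x, φ => by
    obtain ⟨l', φ', h1, h2⟩ := revB_eq y l y₁ φ
    refine ⟨l' ++ [(φ', y₁)], φ₁, ?_, ?_⟩
    · rw [List.cons_append, revB, h1]
    · rw [List.map_append, h2]
      simp

end DIST

open DIST in
theorem tDIST (h1 : T_INV.{u}) (h2 : T_CHORD.{u}) (h3 : T_NR.{u}) (h4 : T_SIDE.{u})
    (h5 : T_BREV.{u}) : T_DIST.{u} := by
  intro N len ang A C L hPD hEuc w hw b hb
  have hI := h1 ang A C L hPD
  have hs := hEuc.lsymm
  have hp := hEuc.lpos
  have hE := hI.symm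
  set V := L.map FC.v with hV
  set per := cyl len V with hper
  -- two arcs
  have key : ∀ x ∈ V, ∀ y ∈ V, x ≠ y → ∃ X Y : List N, V ~r (x :: (X ++ y :: Y)) ∧
      List.IsChain C.E (x :: (X ++ [y])) ∧ List.IsChain C.E (y :: (Y ++ [x])) ∧
      per = elen len (x :: (X ++ [y])) + elen len (y :: (Y ++ [x])) := by
    intro x hx y hy hxy
    obtain ⟨X, Y, hr⟩ := arcs hx hy hxy
    have hc := bd_chain hI.bdE hI.len hr
    have e1 : x :: (X ++ y :: Y ++ [x]) = (x :: X) ++ y :: (Y ++ [x]) := by simp
    rw [e1, List.isChain_split] at hc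
    refine ⟨X, Y, hr, by simpa using hc.1, hc.2, ?_⟩
    rw [hper, cyl_rot len hr]
    change elen len (x :: (X ++ y :: Y ++ [x])) = _
    rw [e1, elen_append]
    simp
  have hper0 : 0 ≤ per := by
    rcases hL : V with _ | ⟨p, W⟩
    · rw [hper, hL]
      exact le_rfl
    · have hc := bd_chain hI.bdE hI.len (p := p) (W := W) (by rw [← hL])
      rw [hper, hL]
      exact elen_nonneg len hp _ hc
  have hJ : ∀ e ∈ V, J len C.E b e (per / 2) := by
    intro e he
    by_cases hbe : b = e
    · subst hbe
      exact (J.refl b).mono (by linarith)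
    · obtain ⟨X, Y, -, hc1, hc2, hsum⟩ := key b hb e he hbe
      rcases le_total (elen len (b :: (X ++ [e]))) (elen len (e :: (Y ++ [b]))) with h | h
      · exact (J.of_list hc1).mono (by linarith)
      · exact (J.symm hs hE (J.of_list hc2)).mono (by linarith)
  have hsq : 0 ≤ Real.sqrt 2 := Real.sqrt_nonneg 2
  have hsq2 : Real.sqrt 2 * Real.sqrt 2 = 2 := Real.mul_self_sqrt (by norm_num)
  change J len C.E b w ((1 / 2 + Real.sqrt 2 / 4) * per)
  by_cases hwV : w ∈ V
  · refine (hJ w hwV).mono ?_
    nlinarith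
  -- interior
  obtain ⟨x, l, φ, y, hBp, hwl, hx, hy⟩ := h2 len ang A C L hPD hEuc w ⟨hw, hwV⟩
  have hnd := h3 len ang A C L hPD hEuc (Int C L) x _ hBp
  have hch := Bp_chain ang C _ _ x hBp
  have hInt := Bp_I ang C _ φ y l x hBp
  set M := l.map Prod.snd with hM
  have e2 : (l ++ [(φ, y)]).map Prod.snd = M ++ [y] := by simp [hM]
  rw [e2] at hnd hch
  have hxy : x ≠ y := by
    rintro rfl
    simp at hnd
  obtain ⟨X, Y, hr, hc1, hc2, hsum⟩ := key x hx y hy hxy
  have hVn : (x :: (X ++ y :: Y)).Nodup := hr.perm.nodup_iff.mp hI.nodup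
  have hdis : ∀ v ∈ M, v ∉ x :: (X ++ y :: Y) := by
    intro v hv hv'
    exact (hInt v hv).2 (hr.perm.mem_iff.mpr hv')
  have hMn : M.Nodup := by
    rw [List.nodup_cons] at hnd
    exact (List.nodup_append.mp hnd.2).1
  have hM1 : 1 ≤ (l.map Prod.snd).length := List.length_pos_of_mem hwl
  -- first side
  have s1 := h4 len ang A C L hPD hEuc (Int C L) x l φ y Y hBp (by
      have q1 : (x :: (M ++ y :: Y)) ~ (M ++ x :: y :: Y) := List.perm_middle.symm
      rw [q1.nodup_iff, List.nodup_append]
      refine ⟨hMn, ?_, ?_⟩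
      · refine hVn.sublist ?_
        exact List.Sublist.cons_cons x (List.sublist_append_right X (y :: Y))
      · intro v hv v' hv' hvv
        subst hvv
        refine hdis v hv ?_
        simp only [List.mem_cons, List.mem_append] at hv' ⊢
        tauto) (by
      have q2 : x :: (M ++ y :: (Y ++ [x])) = (x :: M) ++ y :: (Y ++ [x]) := rfl
      rw [q2, List.isChain_split]
      exact ⟨by simpa using hch, hc2⟩) (by
      rw [List.length_append]
      omega)
  -- second side
  have hBr := h5 ang C (Int C L) hE x l y φ hBp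
  obtain ⟨l', φ', e3, e4⟩ := revB_eq y l x φ
  rw [e3] at hBr
  have hrev : List.IsChain C.E (y :: (M.reverse ++ [x])) := by
    have q3 : y :: (M.reverse ++ [x]) = (x :: (M ++ [y])).reverse := by simp
    rw [q3, List.isChain_reverse]
    exact hch.imp fun _ _ h => hE _ _ h
  have s2 := h4 len ang A C L hPD hEuc (Int C L) y l' φ' x X hBr (by
      rw [e4]
      have q1 : (y :: (M.reverse ++ x :: X)) ~ (M.reverse ++ y :: x :: X) :=
        List.perm_middle.symm
      rw [q1.nodup_iff, List.nodup_append]
      refine ⟨List.nodup_reverse.mpr hMn, ?_, ?_⟩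
      · have q4 : (y :: x :: X) ~ (x :: (X ++ [y])) := by
          have q5 : (x :: (X ++ [y])) = (x :: X) ++ [y] := rfl
          rw [q5]
          exact (List.perm_append_singleton y (x :: X)).symm
        rw [q4.nodup_iff]
        refine hVn.sublist ?_
        refine List.Sublist.cons_cons x ?_
        exact List.Sublist.append_left (List.Sublist.cons_cons y (List.nil_sublist Y)) X
      · intro v hv v' hv' hvv
        subst hvv
        refine hdis v (List.mem_reverse.mp hv) ?_
        simp only [List.mem_cons, List.mem_append] at hv' ⊢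
        tauto) (by
      rw [e4]
      have q2 : y :: (M.reverse ++ x :: (X ++ [y])) = (y :: M.reverse) ++ x :: (X ++ [y]) := rfl
      rw [q2, List.isChain_split]
      exact ⟨by simpa using hrev, hc1⟩) (by
      rw [e4, List.length_append, List.length_reverse]
      omega)
  rw [e4] at s2
  have e5 : elen len (y :: (M.reverse ++ [x])) = elen len (x :: (M ++ [y])) := by
    have q3 : y :: (M.reverse ++ [x]) = (x :: (M ++ [y])).reverse := by simp
    rw [q3, elen_reverse len hs]
  rw [e5] at s2
  set D := elen len (x :: (M ++ [y])) with hD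
  have hDper : Real.sqrt 2 * D ≤ per := by
    rw [hsum]
    linarith
  have hD2 : D ≤ Real.sqrt 2 / 2 * per := by
    have q6 := mul_le_mul_of_nonneg_left hDper (show (0 : ℝ) ≤ Real.sqrt 2 / 2 by positivity)
    have q7 : Real.sqrt 2 / 2 * (Real.sqrt 2 * D) = (Real.sqrt 2 * Real.sqrt 2) / 2 * D := by ring
    rw [q7, hsq2] at q6
    linarith
  -- split the chord at w
  obtain ⟨M₁, M₂, hM12⟩ := List.append_of_mem hwl
  have e6 : x :: (M ++ [y]) = (x :: M₁) ++ w :: (M₂ ++ [y]) := by
    rw [hM12]
    simp
  have hDs : D = elen len (x :: (M₁ ++ [w])) + elen len (w :: (M₂ ++ [y])) := by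
    rw [hD, e6, elen_append]
    simp
  rw [e6, List.isChain_split] at hch
  have hcw1 : List.IsChain C.E (x :: (M₁ ++ [w])) := by simpa using hch.1
  rcases le_total (elen len (x :: (M₁ ++ [w]))) (elen len (w :: (M₂ ++ [y]))) with h | h
  · refine ((hJ x hx).trans (J.of_list hcw1)).mono ?_
    nlinarith
  · refine ((hJ y hy).trans (J.symm hs hE (J.of_list hch.2))).mono ?_
    nlinarith

end Pool.Agent.MSN
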