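import Pool.Agent.MSN.Lol

/-! The rules for `Eqv`. -/

namespace Pool.Agent.MSN

open List Pool.Agent.MSF

universe u

namespace EQA

variable {V : Type u}

theorem elem_ctx {G : SimpleGraph V} {P P' : List V} (X Y : List V) (h : Elem G P P') :
    Elem G (X ++ P ++ Y) (X ++ P' ++ Y) := by
  cases h with
  | spur p q a b h =>
    have := Elem.spur (X ++ p) (q ++ Y) a b h
    simpa using this
  | tri p q a b c h1 h2 h3 =>
    have := Elem.tri (X ++ p) (q ++ Y) a b c h1 h2 h3
    simpa using this

theorem eqv_ctx {G : SimpleGraph V} {P P' : List V} (X Y : List V)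
    (h : Relation.EqvGen (Elem G) P P') :
    Relation.EqvGen (Elem G) (X ++ P ++ Y) (X ++ P' ++ Y) := by
  induction h with
  | rel _ _ h => exact Relation.EqvGen.rel _ _ (elem_ctx X Y h)
  | refl _ => exact Relation.EqvGen.refl _
  | symm _ _ _ ih => exact Relation.EqvGen.symm _ _ ih
  | trans _ _ _ _ _ ih ih' => exact Relation.EqvGen.trans _ _ _ ih ih'

theorem eq_cons {P : List V} {a : V} (h : P.head? = some a) : P = a :: P.tail := by
  cases P with
  | nil => simp at h
  | cons b P => simp at h; simp [h]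

theorem eq_snoc {P : List V} {a : V} (h : P.getLast? = some a) : P = P.dropLast ++ [a] := by
  have hP : P ≠ [] := by rintro rfl; simp at h
  rw [List.getLast?_eq_some_getLast hP, Option.some.injEq] at h
  rw [← h]
  exact (List.dropLast_append_getLast hP).symm

theorem chain_del {G : SimpleGraph V} {v : V} {R : List V} (h : LPath G v R) :
    List.IsChain (delG G v).Adj R := by
  obtain ⟨_, h2, h3⟩ := h
  induction R with
  | nil => exact List.isChain_nil
  | cons a R ih =>
    cases R with
    | nil => exact List.isChain_singleton _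
    | cons b R =>
      rw [List.isChain_cons_cons] at h2 ⊢
      refine ⟨⟨h2.1, (h3 a (by simp)).ne', (h3 b (by simp)).ne'⟩, ?_⟩
      exact ih (by simp) h2.2 fun x hx => h3 x (List.mem_cons_of_mem _ hx)

end EQA

open EQA in
theorem tEQA (h1 : T_CANC.{u}) (h2 : T_HEAD.{u}) : T_EQA.{u} := by
  intro V G v
  refine ⟨?_, ?_, ?_, ?_, ?_, ?_, ?_⟩
  · rintro P ⟨_, _, a, ha, hva⟩
    have e := eq_cons ha
    refine ⟨[a], ⟨by simp, by simp, by simpa using hva⟩, by rw [ha]; rfl, by rw [ha]; rfl, ?_⟩
    have e2 : [a] ++ P.tail = P := e.symm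
    rw [e2]
    exact Relation.EqvGen.refl _
  · rintro P Q ⟨hP1, hP2, a, ha, hva⟩ ⟨hQ1, hQ2, b, hb, hvb⟩ ⟨R, hR, hh, hl, hE⟩
    have hRc := chain_del hR
    rw [ha] at hh
    rw [hb] at hl
    have eP := eq_cons ha
    have eR := eq_cons hh
    have eQ := eq_cons hb
    refine ⟨R.reverse, ⟨by simpa using hR.1, ?_, by simpa using hR.2.2⟩, ?_, ?_, ?_⟩
    · rw [List.isChain_reverse]
      exact hR.2.1.imp fun x y h => h.symm
    · rw [List.head?_reverse, hl, hb]
    · rw [List.getLast?_reverse, hh, ha]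
    · rw [eR] at hRc
      have hc := (h1 (delG G v) [] Q.tail R.tail a hRc).1
      have hlc : lcl a R.tail = b := by
        unfold lcl
        have h3 : (a :: R.tail).getLast? = some b := by rw [← eR]; exact hl
        rw [List.getLast?_eq_some_getLast (by simp), Option.some.injEq] at h3
        exact h3
      rw [hlc] at hc
      have e1 : R.reverse ++ P.tail = R.tail.reverse ++ P := by
        conv_lhs => rw [eR]
        conv_rhs => rw [eP]
        simp
      rw [e1]
      have h4 := eqv_ctx R.tail.reverse [] hE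
      simp only [List.append_nil] at h4
      have e2 : R.tail.reverse ++ (R ++ Q.tail) =
          [] ++ ((a :: R.tail).reverse ++ (R.tail ++ Q.tail)) := by
        conv_lhs => rw [eR]
        simp
      rw [e2] at h4
      have e3 : [] ++ (b :: Q.tail) = Q := by rw [List.nil_append]; exact eQ.symm
      rw [e3] at hc
      exact (h4.trans _ _ _ hc).symm
  · rintro P Q R ⟨_, _, a, ha, hva⟩ ⟨_, _, b, hb, hvb⟩ ⟨_, _, c, hc, hvc⟩ ⟨S, hS, hSh, hSl, hSE⟩
      ⟨T, hT, hTh, hTl, hTE⟩
    rw [ha] at hSh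
    rw [hb] at hSl hTh
    rw [hc] at hTl
    have eS := eq_snoc hSl
    have eT := eq_cons hTh
    have eQ := eq_cons hb
    refine ⟨S.dropLast ++ T, ⟨by simp [hT.1], ?_, ?_⟩, ?_, ?_, ?_⟩
    · have h3 := hS.2.1
      have h4 := hT.2.1
      rw [eS] at h3
      rw [eT] at h4 ⊢
      rw [List.isChain_append] at h3 ⊢
      refine ⟨h3.1, h4, ?_⟩
      intro x hx y hy
      refine h3.2.2 x hx y ?_
      simpa using hy
    · intro x hx
      rw [List.mem_append] at hx
      rcases hx with hx | hx
      · exact hS.2.2 x (List.mem_of_mem_dropLast hx)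
      · exact hT.2.2 x hx
    · rw [ha, ← hSh]
      conv_rhs => rw [eS]
      rw [List.head?_append, List.head?_append, hTh]
      rfl
    · rw [List.getLast?_append, hTl, hc]
      rfl
    · have e1 : S ++ Q.tail = S.dropLast ++ Q := by
        conv_lhs => rw [eS]
        conv_rhs => rw [eQ]
        simp
      rw [e1] at hSE
      have h4 := eqv_ctx S.dropLast [] hTE
      simp only [List.append_nil] at h4
      rw [List.append_assoc]
      exact hSE.trans _ _ _ h4
  · rintro P Q x y ⟨_, _, a, ha, hva⟩ ⟨_, _, b, hb, hvb⟩ hxy hy ⟨R, hR, hh, hl, hE⟩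
    refine ⟨R, hR, ?_, ?_, ?_⟩
    · rw [hh]
      cases P <;> simp
    · rw [hl]
      cases Q <;> simp
    · have h4 := eqv_ctx [] [y] hE
      simp only [List.nil_append] at h4
      have e1 : P ++ [x, y] = P ++ [x] ++ [y] := by simp
      have e2 : R ++ (Q ++ [x, y]).tail = R ++ (Q ++ [x]).tail ++ [y] := by
        cases Q <;> simp
      rw [e1, e2]
      exact h4
  · rintro P Q ⟨_, _, a, ha, hva⟩ hE
    have hP : P ≠ [] := by rintro rfl; simp at ha
    obtain ⟨_, hh, _⟩ := h2 G {x | x ≠ v} P Q hP hE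
    rw [ha] at hh
    have eQ := eq_cons hh
    refine ⟨[a], ⟨by simp, by simp, by simpa using hva⟩, by rw [ha]; rfl, by rw [hh]; rfl, ?_⟩
    have e2 : [a] ++ Q.tail = Q := eQ.symm
    rw [e2]
    exact hE
  · intro x y hx hy hxy
    refine ⟨[x, y], ⟨by simp, by simpa using hxy, by simp [hx, hy]⟩, rfl, rfl, ?_⟩
    simpa using Relation.EqvGen.refl _
  · rintro P x ⟨_, _, a, ha, hva⟩ hx
    constructor
    · rintro ⟨Q, hQ, hE⟩
      obtain ⟨_, hh, hl, _⟩ := h2 G {x | x ≠ v} (P ++ [x]) Q (by simp) hE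
      refine ⟨Q, hQ, hh, ?_, ?_⟩
      · rw [hl]; simp
      · simpa using hE
    · rintro ⟨R, hR, _, _, hE⟩
      exact ⟨R, hR, by simpa using hE⟩

end Pool.Agent.MSN
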