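import Pool.Agent.MSN.Targets
import Pool.Agent.MSF.TRIG

/-!
# EUC: the planar disc of REAL is Euclidean and non-obtuse
-/

set_option autoImplicit false

namespace Pool.Agent.MSN

open List Pool.Agent.MSF

universe u

namespace EUC

/-- the projection identity of a Euclidean triangle -/
lemma proj_real {a b c : ℝ} (ha : 0 < a) (hb : 0 < b) (hc : 0 < c) (h1 : a < b + c)
    (h2 : b < a + c) (h3 : c < a + b) (φ : ℝ) :
    c * Real.cos φ =
      b * Real.cos (φ + Real.arccos ((c ^ 2 + b ^ 2 - a ^ 2) / (2 * c * b))) +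
      a * Real.cos (φ - Real.arccos ((c ^ 2 + a ^ 2 - b ^ 2) / (2 * c * a))) := by
  set p := (c ^ 2 + b ^ 2 - a ^ 2) / (2 * c * b) with hp
  set q := (c ^ 2 + a ^ 2 - b ^ 2) / (2 * c * a) with hq
  have hpos : 0 ≤ 4 * c ^ 2 * b ^ 2 - (c ^ 2 + b ^ 2 - a ^ 2) ^ 2 := by
    have h4 : 4 * c ^ 2 * b ^ 2 - (c ^ 2 + b ^ 2 - a ^ 2) ^ 2 =
        (a + b + c) * (b + c - a) * (a + c - b) * (a + b - c) := by ring
    rw [h4]
    have h5 : 0 < b + c - a := by linarith
    have h6 : 0 < a + c - b := by linarith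
    have h7 : 0 < a + b - c := by linarith
    positivity
  set S := Real.sqrt (4 * c ^ 2 * b ^ 2 - (c ^ 2 + b ^ 2 - a ^ 2) ^ 2) with hS
  have hS0 : 0 ≤ S := Real.sqrt_nonneg _
  have hS2 : S ^ 2 = 4 * c ^ 2 * b ^ 2 - (c ^ 2 + b ^ 2 - a ^ 2) ^ 2 := Real.sq_sqrt hpos
  have hp1 : p < 1 := TRIG.lt_one hc hb (by linarith) (by linarith)
  have hq1 : q < 1 := TRIG.lt_one hc ha (by linarith) (by linarith)
  have hp2 : -1 < p := by
    rw [hp, lt_div_iff₀ (by positivity)]
    nlinarith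
  have hq2 : -1 < q := by
    rw [hq, lt_div_iff₀ (by positivity)]
    nlinarith
  have hsp : Real.sqrt (1 - p ^ 2) = S / (2 * c * b) := TRIG.sin_eq hc hb hS0 hS2
  have hsq : Real.sqrt (1 - q ^ 2) = S / (2 * c * a) :=
    TRIG.sin_eq hc ha hS0 (by rw [hS2]; ring)
  rw [Real.cos_add, Real.cos_sub, Real.cos_arccos hp2.le hp1.le, Real.cos_arccos hq2.le hq1.le,
    Real.sin_arccos, Real.sin_arccos, hsp, hsq, hp, hq]
  field_simp
  ring

end EUC

theorem tEUC : T_EUC.{u} := by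
  intro V G len h hno π C hE hcyc hTE
  obtain ⟨t1, t2, -⟩ := tTRIG.{u} G len h
  have A : ∀ x y z, C.T x y z → G.Adj (π x) (π y) ∧ G.Adj (π y) (π z) ∧ G.Adj (π x) (π z) := by
    intro x y z hT
    have hT' := hcyc _ _ _ hT
    have hT'' := hcyc _ _ _ hT'
    exact ⟨hE _ _ (hTE _ _ _ hT), hE _ _ (hTE _ _ _ hT'), (hE _ _ (hTE _ _ _ hT'')).symm⟩
  refine ⟨fun x y => h.symm _ _, fun v x y => t1 _ _ _, fun x y hxy => h.pos _ _ (hE _ _ hxy),
    fun x y z hT => ?_, fun x y z hT => ?_, fun x y z hT => ?_, fun x y z hT φ => ?_⟩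
  · obtain ⟨a1, a2, a3⟩ := A x y z hT
    exact t2 _ _ _ a1.symm a2 a3
  · obtain ⟨a1, a2, a3⟩ := A x y z hT
    exact hno _ _ _ a1.symm a2 a3
  · obtain ⟨hab, hbc, hac⟩ := A x y z hT
    have h1 := h.triangle _ _ _ hab.symm hac hbc
    have h2 := h.triangle _ _ _ hab hbc hac
    have h3 := h.triangle _ _ _ hac hbc.symm hab
    rw [h.symm (π y) (π x)] at h1
    rw [h.symm (π z) (π y)] at h3
    have h4 := TRIG.sum_pi (x := len (π y) (π z)) (y := len (π x) (π z)) (z := len (π x) (π y))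
      (h.pos _ _ hbc) (h.pos _ _ hac) (h.pos _ _ hab) (by linarith) (by linarith) (by linarith)
    unfold angle
    rw [h.symm (π y) (π x), h.symm (π z) (π x), h.symm (π z) (π y)]
    rw [← h4]
    congr 1
    · congr 1
      · congr 1
        ring
      · congr 1
        ring
    · congr 1
      ring
  · obtain ⟨hab, hbc, hac⟩ := A x y z hT
    have h1 := h.triangle _ _ _ hab.symm hac hbc
    have h2 := h.triangle _ _ _ hab hbc hac
    have h3 := h.triangle _ _ _ hac hbc.symm hab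
    rw [h.symm (π y) (π x)] at h1
    rw [h.symm (π z) (π y)] at h3
    unfold angle
    rw [h.symm (π y) (π x), h.symm (π z) (π y)]
    exact EUC.proj_real (h.pos _ _ hbc) (h.pos _ _ hac) (h.pos _ _ hab) (by linarith)
      (by linarith) (by linarith) φ

end Pool.Agent.MSN
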