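import Pool.Agent.MSN.Targets

/-!
# Greedy extension at an interior vertex (target EXT of MSN, helper97)
-/

namespace Pool.Agent.MSN

open List Pool.Agent.MSF

universe u

namespace EXT

variable {N : Type u} {ang : N → N → N → ℝ}

theorem plen_glue (v a : N) (X Y : List N) :
    plen ang v (X ++ a :: Y) = plen ang v (X ++ [a]) + plen ang v (a :: Y) := by
  induction X with
  | nil => simp [plen]
  | cons x X ih =>
    cases X with
    | nil => simp [plen]
    | cons y X =>
      simp only [List.cons_append, plen] at ih ⊢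
      rw [ih]
      ring

/-- rotation of a cyclic chain -/
theorem rotate_cycle (R : N → N → Prop) (q p : N) (Q : List N) (hQ : Q ≠ []) (hp : p ∈ Q)
    (hnd : Q.Nodup) (hch : List.IsChain R (Q ++ [Q.head hQ])) :
    ∃ W : List N, (p :: W).Nodup ∧ List.IsChain R (p :: (W ++ [p])) ∧
      (∀ x, x ∈ p :: W ↔ x ∈ Q) ∧
      plen ang q (p :: (W ++ [p])) = plen ang q (Q ++ [Q.head hQ]) := by
  obtain ⟨Q₁, Q₂, rfl⟩ := List.append_of_mem hp
  cases Q₁ with
  | nil =>
    refine ⟨Q₂, hnd, ?_, fun x => Iff.rfl, ?_⟩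
    · simpa using hch
    · simp
  | cons h Q₁ =>
    have e1 : (h :: Q₁ ++ p :: Q₂) ++ [(h :: Q₁ ++ p :: Q₂).head hQ] =
        (h :: Q₁) ++ p :: (Q₂ ++ [h]) := by simp
    have e2 : p :: ((Q₂ ++ (h :: Q₁)) ++ [p]) = (p :: Q₂) ++ h :: (Q₁ ++ [p]) := by simp
    have hperm : List.Perm (p :: (Q₂ ++ (h :: Q₁))) (h :: Q₁ ++ p :: Q₂) := by
      have := List.perm_append_comm (l₁ := p :: Q₂) (l₂ := h :: Q₁)
      simpa using this
    refine ⟨Q₂ ++ (h :: Q₁), hperm.nodup_iff.mpr hnd, ?_, fun x => hperm.mem_iff, ?_⟩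
    · rw [e1] at hch
      rw [e2]
      rw [List.isChain_split] at hch ⊢
      exact ⟨by simpa using hch.2, by simpa using hch.1⟩
    · rw [e1, e2, plen_glue q h (p :: Q₂) (Q₁ ++ [p]), plen_glue q p (h :: Q₁) (Q₂ ++ [h])]
      have a1 : (p :: Q₂) ++ [h] = p :: (Q₂ ++ [h]) := rfl
      have a2 : (h :: Q₁) ++ [p] = h :: (Q₁ ++ [p]) := rfl
      rw [a1, a2]
      ring

/-- the first place where the length of the path is at least `B` -/
theorem first_place (q p : N) (B : ℝ) (hB : 0 < B) (W : List N) :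
    B ≤ plen ang q (p :: W) → ∃ (X : List N) (n : N) (Y : List N), W = X ++ n :: Y ∧
      B ≤ plen ang q (p :: (X ++ [n])) ∧ plen ang q (p :: X) < B := by
  induction W using List.reverseRecOn with
  | nil =>
    intro h
    simp only [plen] at h
    linarith
  | append_singleton W w ih =>
    intro h
    by_cases h1 : B ≤ plen ang q (p :: W)
    · obtain ⟨X, n, Y, hW, h2, h3⟩ := ih h1
      exact ⟨X, n, Y ++ [w], by rw [hW]; simp, h2, h3⟩
    · exact ⟨W, w, [], rfl, h, not_le.mp h1⟩

/-- the last step is at most `π / 2` -/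
theorem last_step (q : N) (R : N → N → Prop) (hR : ∀ r s, R r s → ang q r s ≤ Real.pi / 2)
    (n : N) (X : List N) : ∀ p : N, List.IsChain R (p :: (X ++ [n])) →
      plen ang q (p :: (X ++ [n])) ≤ plen ang q (p :: X) + Real.pi / 2 := by
  induction X with
  | nil =>
    intro p h
    have h1 : R p n := by simpa using h
    have h2 := hR p n h1
    simp only [List.nil_append, plen]
    linarith
  | cons x X ih =>
    intro p h
    rw [List.cons_append] at h ⊢
    rw [List.isChain_cons_cons] at h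
    have h2 := ih x h.2
    simp only [plen]
    linarith

end EXT

open EXT in
theorem tEXT (h1 : T_INV.{u}) (h2 : T_INV2.{u}) : T_EXT.{u} := by
  intro N len ang A C L hPD hE p q φ hq hpq hφ
  have hinv := h1 ang A C L hPD
  obtain ⟨Q, hQ, hnd, hch, hmem, hlen⟩ := h2 ang A C L hPD q hq.1 hq.2
  have hp : p ∈ Q := (hmem p).mp (hinv.symm p q hpq)
  obtain ⟨W, hWnd, hWch, hWmem, hWlen⟩ :=
    rotate_cycle (ang := ang) (fun r s => C.T r q s) q p Q hQ hp hnd hch
  rw [← hWlen] at hlen
  have hpi := Real.pi_pos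
  have hφ1 := (abs_le.mp hφ).1
  have hφ2 := (abs_le.mp hφ).2
  obtain ⟨X, n, Y, hXY, hB1, hB2⟩ := first_place (ang := ang) q p (3 * Real.pi / 4 + φ)
    (by linarith) (W ++ [p]) (by linarith)
  have hch2 : List.IsChain (fun r s => C.T r q s) ((p :: X) ++ n :: Y) := by
    have e : (p :: X) ++ n :: Y = p :: (W ++ [p]) := by rw [hXY]; rfl
    rw [e]
    exact hWch
  rw [List.isChain_split] at hch2
  have hch3 : List.IsChain (fun r s => C.T r q s) (p :: (X ++ [n])) := by
    simpa using hch2.1
  have hlast := last_step (ang := ang) q (fun r s => C.T r q s)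
    (fun r s h => hE.ale r q s h) n X p hch3
  have htot : plen ang q (p :: (W ++ [p])) =
      plen ang q (p :: (X ++ [n])) + plen ang q (n :: Y) := by
    have e : p :: (W ++ [p]) = (p :: X) ++ n :: Y := by rw [hXY]; rfl
    rw [e, plen_glue]
    rfl
  -- `Y` is not empty
  rcases List.eq_nil_or_concat Y with hY | ⟨Y₀, y, hY⟩
  · exfalso
    rw [hY] at htot
    simp only [plen] at htot
    linarith
  have hy : W = X ++ n :: Y₀ ∧ y = p := by
    have e : W ++ [p] = (X ++ n :: Y₀) ++ [y] := by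
      rw [hXY, hY]
      simp
    have := List.append_inj' e rfl
    refine ⟨this.1, ?_⟩
    have h3 := this.2
    simp only [List.cons.injEq, and_true] at h3
    exact h3.symm
  obtain ⟨hW, rfl⟩ := hy
  have hY' : Y = Y₀ ++ [y] := by rw [hY]; simp
  rw [hY'] at htot hch2
  rw [hW] at hWnd hWmem
  have hWnd' := List.nodup_cons.mp hWnd
  refine ⟨n, Real.pi + φ - plen ang q (y :: (X ++ [n])), ?_, ?_, X, Y₀, ?_, hch3, ?_, hch2.2,
    ?_, ?_⟩
  · rw [hmem, ← hWmem]
    simp
  · rw [abs_le]
    constructor <;> linarith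
  · have hs : List.Sublist (y :: (X ++ [n])) (y :: (X ++ n :: Y₀)) := by
      refine List.Sublist.cons_cons y ?_
      refine List.Sublist.append (List.Sublist.refl X) ?_
      exact List.Sublist.cons_cons n (List.nil_sublist Y₀)
    exact hWnd.sublist hs
  · have hp2 : List.Perm (n :: (Y₀ ++ [y])) (y :: (n :: Y₀)) := by
      have := List.perm_append_comm (l₁ := n :: Y₀) (l₂ := [y])
      simpa using this
    rw [hp2.nodup_iff]
    have hs : List.Sublist (y :: (n :: Y₀)) (y :: (X ++ n :: Y₀)) :=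
      List.Sublist.cons_cons y (List.sublist_append_right X (n :: Y₀))
    exact hWnd.sublist hs
  · linarith
  · linarith

end Pool.Agent.MSN
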