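import Pool.Agent.MSN.Targets

/-!
MSN-FAN: two nodup chains of a right-unique relation with the same first and last elements are equal.
-/

set_option autoImplicit false

namespace Pool.Agent.MSN

universe u

theorem tFAN : T_FAN.{u} := by
  intro N r hr p n X
  induction X generalizing p with
  | nil =>
    intro Y _ hY hcX hcY
    cases Y with
    | nil => rfl
    | cons y Y' =>
      exfalso
      simp only [List.nil_append, List.cons_append, List.isChain_cons_cons] at hcX hcY
      have h1 : y = n := hr p y n hcY.1 hcX.1
      simp only [List.cons_append, List.nodup_cons] at hY
      apply hY.2.1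
      simp [h1]
  | cons x X' ih =>
    intro Y hX hY hcX hcY
    cases Y with
    | nil =>
      exfalso
      simp only [List.nil_append, List.cons_append, List.isChain_cons_cons] at hcX hcY
      have h1 : x = n := hr p x n hcX.1 hcY.1
      simp only [List.cons_append, List.nodup_cons] at hX
      apply hX.2.1
      simp [h1]
    | cons y Y' =>
      simp only [List.cons_append, List.isChain_cons_cons] at hcX hcY
      have h1 : x = y := hr p x y hcX.1 hcY.1
      subst h1
      rw [List.cons_append, List.nodup_cons] at hX hY
      have := ih x Y' hX.2 hY.2 hcX.2 hcY.2
      rw [this]

end Pool.Agent.MSN
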