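import Pool.Agent.MSN.Targets

/-!
# MSN, target FIN: the vertex set is finite, the complex is connected
-/

namespace Pool.Agent.MSN

open List Pool.Agent.MSF

universe u

variable {N : Type u}

namespace FIN

theorem S_edge_subset (a b : N) : (Cx.edge a b).S ⊆ ({a, b} : Set N) := by
  rintro x ⟨y, h | h⟩
  · exact Or.inl h.1
  · exact Or.inr h.1

theorem edge_l (a b : N) : (Cx.edge a b).E a b := Or.inl ⟨rfl, rfl⟩

theorem edge_r (a b : N) : (Cx.edge a b).E b a := Or.inr ⟨rfl, rfl⟩

theorem E_add {C : Cx N} {a b z x y : N} (h : C.E x y) : (C.add a b z).E x y := Or.inl h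

theorem S_add_subset (C : Cx N) (a b z : N) : (C.add a b z).S ⊆ C.S ∪ {a, b} := by
  rintro x ⟨y, h | h | h⟩
  · exact Or.inl ⟨y, h⟩
  · exact Or.inr (Or.inl h.1)
  · exact Or.inr (Or.inr h.1)

theorem subset_S_add (C : Cx N) (a b z : N) : C.S ⊆ (C.add a b z).S := by
  rintro x ⟨y, h⟩
  exact ⟨y, E_add h⟩

theorem S_sup (C C' : Cx N) : (C.sup C').S = C.S ∪ C'.S := by
  ext x
  constructor
  · rintro ⟨y, h | h⟩
    · exact Or.inl ⟨y, h⟩
    · exact Or.inr ⟨y, h⟩
  · rintro (⟨y, h⟩ | ⟨y, h⟩)
    · exact ⟨y, Or.inl h⟩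
    · exact ⟨y, Or.inr h⟩

theorem path_mono {C C' : Cx N} (h : ∀ x y, C.E x y → C'.E x y) {x y : N}
    (hp : Relation.ReflTransGen C.E x y) : Relation.ReflTransGen C'.E x y :=
  Relation.ReflTransGen.mono (fun x y hxy => h x y hxy) _ _ hp

end FIN

open FIN

/-- FIN. -/
theorem tFIN (_hINV : T_INV.{u}) : T_FIN.{u} := by
  intro N ang A C L h
  induction h with
  | @digon a b h =>
    refine ⟨(Set.toFinite ({a, b} : Set N)).subset (S_edge_subset a b), ?_, ?_⟩
    · intro c hc
      simp only [List.mem_cons, List.not_mem_nil, or_false] at hc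
      rcases hc with rfl | rfl
      · exact ⟨b, edge_l a b⟩
      · exact ⟨a, edge_r a b⟩
    · intro x hx y hy
      have h1 := S_edge_subset a b hx
      have h2 := S_edge_subset a b hy
      rcases h1 with rfl | h1 <;> rcases h2 with rfl | h2
      · exact Relation.ReflTransGen.refl
      · rw [Set.mem_singleton_iff] at h2
        subst h2
        exact Relation.ReflTransGen.single (edge_l _ _)
      · rw [Set.mem_singleton_iff] at h1
        subst h1
        exact Relation.ReflTransGen.single (edge_r _ _)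
      · rw [Set.mem_singleton_iff] at h1 h2
        subst h1
        subst h2
        exact Relation.ReflTransGen.refl
  | @rot A C c L h ih =>
    refine ⟨ih.1, ?_, ih.2.2⟩
    intro d hd
    apply ih.2.1
    simp only [List.mem_append, List.mem_cons, List.not_mem_nil, or_false] at hd ⊢
    exact hd.symm
  | @inner A C a b z Pa Pz Pb L h hab hz ih =>
    have ha : a ∈ C.S := ih.2.1 ⟨a, Pa⟩ (by simp)
    have hb : b ∈ C.S := ih.2.1 ⟨b, Pb⟩ (by simp)
    have hS : (C.add a b z).S = C.S := by
      apply Set.Subset.antisymm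
      · intro x hx
        rcases S_add_subset C a b z hx with h1 | h1 | h1
        · exact h1
        · rw [h1]; exact ha
        · rw [Set.mem_singleton_iff] at h1
          rw [h1]; exact hb
      · exact subset_S_add C a b z
    rw [hS]
    refine ⟨ih.1, ?_, ?_⟩
    · intro c hc
      simp only [List.mem_cons] at hc
      rcases hc with rfl | rfl | hc
      · exact ha
      · exact hb
      · exact ih.2.1 c (by simp [hc])
    · intro x hx y hy
      exact path_mono (fun _ _ h => E_add h) (ih.2.2 x hx y hy)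
  | @both A₁ A₂ C₁ C₂ a b z Pa Pz Qz Pb L₁ L₂ h₁ h₂ hd ih₁ ih₂ =>
    have hz1 : z ∈ C₁.S := ih₁.2.1 ⟨z, Pz⟩ (by simp)
    have hb1 : b ∈ C₁.S := ih₁.2.1 ⟨b, Pb⟩ (by simp)
    have hz2 : z ∈ C₂.S := ih₂.2.1 ⟨z, Qz⟩ (by simp)
    have ha2 : a ∈ C₂.S := ih₂.2.1 ⟨a, Pa⟩ (by simp)
    have hS : ((C₁.sup C₂).add a b z).S = C₁.S ∪ C₂.S := by
      rw [← S_sup]
      apply Set.Subset.antisymm
      · intro x hx
        rcases S_add_subset _ a b z hx with h1 | h1 | h1
        · exact h1
        · rw [h1, S_sup]; exact Or.inr ha2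
        · rw [Set.mem_singleton_iff] at h1
          rw [h1, S_sup]; exact Or.inl hb1
      · exact subset_S_add _ a b z
    rw [hS]
    refine ⟨ih₁.1.union ih₂.1, ?_, ?_⟩
    · intro c hc
      simp only [List.mem_cons, List.mem_append] at hc
      rcases hc with rfl | rfl | hc | rfl | hc
      · exact Or.inr ha2
      · exact Or.inl hb1
      · exact Or.inl (ih₁.2.1 c (by simp [hc]))
      · exact Or.inl hz1
      · exact Or.inr (ih₂.2.1 c (by simp [hc]))
    · have m1 : ∀ x y, Relation.ReflTransGen C₁.E x y →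
          Relation.ReflTransGen ((C₁.sup C₂).add a b z).E x y := fun x y hp =>
        path_mono (fun _ _ h => Or.inl (Or.inl h)) hp
      have m2 : ∀ x y, Relation.ReflTransGen C₂.E x y →
          Relation.ReflTransGen ((C₁.sup C₂).add a b z).E x y := fun x y hp =>
        path_mono (fun _ _ h => Or.inl (Or.inr h)) hp
      rintro x (hx | hx) y (hy | hy)
      · exact m1 _ _ (ih₁.2.2 x hx y hy)
      · exact (m1 _ _ (ih₁.2.2 x hx z hz1)).trans (m2 _ _ (ih₂.2.2 z hz2 y hy))
      · exact (m2 _ _ (ih₂.2.2 x hx z hz2)).trans (m1 _ _ (ih₁.2.2 z hz1 y hy))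
      · exact m2 _ _ (ih₂.2.2 x hx y hy)

end Pool.Agent.MSN
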