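import Pool.Agent.MSN.Targets

/-!
# T_GB: Gauss-Bonnet for planar discs
-/

namespace Pool.Agent.MSN

open List Pool.Agent.MSF

universe u

namespace GB

variable {N : Type u}

theorem plen_append (ang : N → N → N → ℝ) (v : N) : ∀ (P : List N) (x y : N) (Q : List N),
    P.getLast? = some x → plen ang v (P ++ y :: Q) = plen ang v P + ang v x y + plen ang v (y :: Q)
  | [], _, _, _, h => by simp at h
  | [a], x, y, Q, h => by
    have h' : a = x := by simpa using h
    subst h'
    simp [plen]
  | (a :: b :: l), x, y, Q, h => by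
    have h' : (b :: l).getLast? = some x := by simpa [List.getLast?_cons_cons] using h
    have := plen_append ang v (b :: l) x y Q h'
    simp only [List.cons_append] at this ⊢
    simp only [plen] at this ⊢
    rw [this]
    ring

theorem plen_snoc (ang : N → N → N → ℝ) (v : N) (P : List N) (x y : N)
    (h : P.getLast? = some x) : plen ang v (P ++ [y]) = plen ang v P + ang v x y := by
  rw [plen_append ang v P x y [] h]
  simp [plen]

theorem plen_cons (ang : N → N → N → ℝ) (v : N) (P : List N) (x y : N)
    (h : P.head? = some x) : plen ang v (y :: P) = ang v y x + plen ang v P := by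
  cases P with
  | nil => simp at h
  | cons a l =>
    have h' : a = x := by simpa using h
    subst h'
    simp [plen]

theorem plen_app (ang : N → N → N → ℝ) (v : N) (P Q : List N) (x y : N)
    (h : P.getLast? = some x) (h' : Q.head? = some y) :
    plen ang v (P ++ Q) = plen ang v P + ang v x y + plen ang v Q := by
  cases Q with
  | nil => simp at h'
  | cons a l =>
    have h'' : a = y := by simpa using h'
    subst h''
    exact plen_append ang v P x a l h

end GB

open GB in
theorem tGB (hINV : T_INV.{u}) : T_GB.{u} := by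
  intro N ang A C L hs hT h
  induction h with
  | digon h => simp [FC.th, plen]; linarith [Real.pi_pos]
  | @rot A C c L h ih =>
    have := ih hT
    simp only [List.map_cons, List.sum_cons, List.map_append, List.sum_append, List.map_nil,
      List.sum_nil] at this ⊢
    linarith
  | @inner A C a b z Pa Pz Pb L h hab hz ih =>
    have hI := hINV ang _ _ _ h
    have h1 := hI.nx _ _ _ (List.IsRotated.refl _)
    have h2 := hI.nx ⟨z, Pz⟩ ⟨b, Pb⟩ (L ++ [⟨a, Pa⟩]) ⟨1, by simp⟩
    have h3 := ih (fun x y w hx => hT x y w (Or.inl hx))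
    have h4 := hT a b z (Or.inr (Or.inl ⟨rfl, rfl, rfl⟩))
    have e1 : plen ang a (Pa ++ [b]) = plen ang a Pa + ang a z b := plen_snoc ang a Pa z b h1.1
    have e2 : plen ang b (a :: Pb) = ang b a z + plen ang b Pb := plen_cons ang b Pb z a h2.2
    simp only [List.map_cons, List.sum_cons, FC.th] at h3 ⊢
    rw [e1, e2]
    have s1 := hs a z b
    have s2 := hs b a z
    have s3 := hs z b a
    linarith
  | @both A₁ A₂ C₁ C₂ a b z Pa Pz Qz Pb L₁ L₂ h₁ h₂ hd ih₁ ih₂ =>
    have hI₁ := hINV ang _ _ _ h₁
    have hI₂ := hINV ang _ _ _ h₂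
    have h1 := hI₁.nx _ _ _ (List.IsRotated.refl _)
    have h2 := hI₂.nx ⟨a, Pa⟩ ⟨z, Qz⟩ L₂
      (List.IsRotated.symm ⟨1, by simp⟩)
    have h3 := ih₁ (fun x y w hx => hT x y w (Or.inl (Or.inl hx)))
    have h3' := ih₂ (fun x y w hx => hT x y w (Or.inl (Or.inr hx)))
    have h4 := hT a b z (Or.inr (Or.inl ⟨rfl, rfl, rfl⟩))
    have e1 : plen ang a (Pa ++ [b]) = plen ang a Pa + ang a z b := plen_snoc ang a Pa z b h2.1
    have e2 : plen ang b (a :: Pb) = ang b a z + plen ang b Pb := plen_cons ang b Pb z a h1.2
    have e3 : plen ang z (Pz ++ Qz) = plen ang z Pz + ang z b a + plen ang z Qz :=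
      plen_app ang z Pz Qz b a h1.1 h2.2
    simp only [List.map_cons, List.sum_cons, List.map_append, List.sum_append, List.map_nil,
      List.sum_nil, FC.th] at h3 h3' ⊢
    rw [e1, e2, e3]
    have s1 := hs a z b
    have s2 := hs b a z
    have s3 := hs z b a
    linarith

end Pool.Agent.MSN
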