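import Pool.Agent.MSN.Grp

/-! # CQA: invariant cliques for groups with a cyclic normal subgroup of prime power index -/

namespace Pool.Agent.MSN.Grp

open Pool.Agent.MSF Pool.Agent.MSN Pool.Agent.MSN.Alg

universe u

/-- CQA. -/
theorem tCQA (h1 : T_KEY.{u}) (h2 : T_CQF.{u}) (h3 : Pool.Agent.MSN.Fin.T_FIN.{u}) :
    T_CQA.{u} := by
  classical
  intro V G len hX hN h5 Q _ _ _ hG K C hK hC hKt g hCg q _ hq
  -- the action of `Q ⧸ K` on `V`
  let φ : Q ⧸ K →* Equiv.Perm V := QuotientGroup.lift K (MulAction.toPermHom Q V) (by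
    intro k hk
    ext v
    simp [hKt k hk v])
  let : MulAction (Q ⧸ K) V := MulAction.compHom V φ
  have hsm : ∀ (h : Q) (v : V), ((h : Q ⧸ K)) • v = h • v := fun h v => rfl
  have hG' : ∀ (h : Q ⧸ K) (a b : V), G.Adj (h • a) (h • b) ↔ G.Adj a b := by
    intro h a b
    induction h using QuotientGroup.induction_on with
    | H z => rw [hsm, hsm]; exact hG z a b
  obtain ⟨W, hW, hA, Y, π, hπ, hadj, hY, -, hms, hcf, hno⟩ := h3 (Q ⧸ K) G len hX hG'
  have := Fintype.ofFinite W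
  have hex : ∀ j, Ex Y j := h1 Y _ hms (hno hN) (hcf 5 h5)
  let C' : Subgroup (Q ⧸ K) := C.map (QuotientGroup.mk' K)
  have hC' : C'.Normal := hC.map _ (QuotientGroup.mk'_surjective K)
  have hmap : C' = Subgroup.zpowers ((g : Q ⧸ K)) := by
    change C.map (QuotientGroup.mk' K) = _
    rw [hCg, Subgroup.map_sup, MonoidHom.map_zpowers]
    have hKb : K.map (QuotientGroup.mk' K) = ⊥ := by
      rw [Subgroup.map_eq_bot_iff, QuotientGroup.ker_mk']
    rw [hKb, bot_sup_eq]
    rfl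
  obtain ⟨s, hs, hc, hi⟩ := h2 Y hex (Q ⧸ K) hY C' hC' ((g : Q ⧸ K))
    (by rw [hmap]; exact Subgroup.mem_zpowers _)
    (by
      intro c hc
      rw [hmap, Subgroup.mem_zpowers_iff] at hc
      obtain ⟨n, hn⟩ := hc
      exact ⟨n, fun v => by rw [hn]⟩)
    q (by
      intro x
      induction x using QuotientGroup.induction_on with
      | H z =>
        obtain ⟨n, hn⟩ := hq z
        exact ⟨n, ⟨_, hn, by simp⟩⟩)
  obtain ⟨t, ht, htc, hti⟩ := Fin.push hπ hadj hs hc hi
  exact ⟨t, ht, htc, fun h x hx => by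
    have := hti (h : Q ⧸ K) x hx
    rwa [hsm] at this⟩

end Pool.Agent.MSN.Grp
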