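import Pool.Agent.MSN.Grp

/-!
# CQF: groups with a normal subgroup of prime power index which acts through powers of one element
-/

namespace Pool.Agent.MSN.Grp.GCQF

open Pool.Agent.MSF Pool.Agent.MSN Pool.Agent.MSN.Alg

universe u

/-- The number of points of an action without fixed points of a group which acts through a
`q`-group is divisible by `q`. -/
theorem dvd_card {Q : Type} [Group Q] {α : Type u} [Finite α] [MulAction Q α] (C : Subgroup Q)
    (hC : ∀ c ∈ C, ∀ x : α, c • x = x) (q : ℕ) [Fact q.Prime]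
    (hq : ∀ x : Q, ∃ n : ℕ, x ^ (q ^ n) ∈ C) (hno : ∀ x : α, ∃ h : Q, h • x ≠ x) :
    q ∣ Nat.card α := by
  have hR : IsPGroup q (MulAction.toPermHom Q α).range := by
    rintro ⟨r, x, rfl⟩
    obtain ⟨n, hn⟩ := hq x
    refine ⟨n, ?_⟩
    apply Subtype.ext
    change (MulAction.toPermHom Q α x) ^ (q ^ n) = 1
    rw [← map_pow]
    ext y
    exact hC _ hn y
  have h1 := hR.card_modEq_card_fixedPoints α
  have h2 : IsEmpty (MulAction.fixedPoints (MulAction.toPermHom Q α).range α) := by
    refine ⟨fun x => ?_⟩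
    obtain ⟨h, hh⟩ := hno x.1
    apply hh
    exact x.2 ⟨MulAction.toPermHom Q α h, h, rfl⟩
  have h5 : Nat.card (MulAction.fixedPoints (MulAction.toPermHom Q α).range α) = 0 :=
    Nat.card_of_isEmpty
  rw [h5] at h1
  exact (Nat.modEq_zero_iff_dvd).1 h1

section

variable {V : Type u} [LinearOrder V]

theorem img_mul (a b : Equiv.Perm V) (s : Finset V) :
    s.image (a * b : Equiv.Perm V) = (s.image b).image a := by
  rw [Finset.image_image]
  rfl

theorem img_one (s : Finset V) : s.image (1 : Equiv.Perm V) = s := by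
  rw [Equiv.Perm.coe_one, Finset.image_id]

theorem eps_sq (g : V → V) (s : Finset V) : eps g s * eps g s = 1 := by
  unfold eps
  rw [← mul_pow]
  norm_num

theorem eps_or (g : V → V) (s : Finset V) : eps g s = 1 ∨ eps g s = -1 :=
  neg_one_pow_eq_or ℤ _

/-- The stabiliser of `s`. -/
def stab (s : Finset V) : Subgroup (Equiv.Perm V) where
  carrier := {a | s.image a = s}
  mul_mem' := by
    intro a b ha hb
    change s.image (a * b : Equiv.Perm V) = s
    rw [img_mul, show s.image b = s from hb]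
    exact ha
  one_mem' := img_one s
  inv_mem' := by
    intro a ha
    change s.image (a⁻¹ : Equiv.Perm V) = s
    have h1 : (s.image a).image (a⁻¹ : Equiv.Perm V) = s := by
      rw [← img_mul, inv_mul_cancel, img_one]
    rwa [show s.image a = s from ha] at h1

/-- The elements of the stabiliser with sign `1`. -/
def pos (h1 : T_SGN.{u}) (s : Finset V) : Subgroup (Equiv.Perm V) where
  carrier := {a | a ∈ stab s ∧ eps a s = 1}
  mul_mem' := by
    intro a b ha hb
    refine ⟨mul_mem ha.1 hb.1, ?_⟩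
    rw [(@h1 V _).2.2.1 a b s, show s.image b = s from hb.1, ha.2, hb.2, one_mul]
  one_mem' := ⟨one_mem _, (@h1 V _).2.2.2 s⟩
  inv_mem' := by
    intro a ha
    have h2 : a⁻¹ ∈ stab s := inv_mem ha.1
    refine ⟨h2, ?_⟩
    have h3 := (@h1 V _).2.2.1 a a⁻¹ s
    rw [show s.image (a⁻¹ : Equiv.Perm V) = s from h2, ha.2, mul_inv_cancel,
      (@h1 V _).2.2.2 s, one_mul] at h3
    exact h3.symm

/-- Invariance under a normalising element: the support. -/
theorem img_inv {g h : Equiv.Perm V} {n : ℤ} (hgh : g * h = h * g ^ n) {s : Finset V}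
    (hs : s.image g = s) : (s.image h).image g = s.image h := by
  have h2 : g ^ n ∈ stab s := zpow_mem (K := stab s) hs n
  rw [← img_mul, hgh, img_mul, show s.image (g ^ n : Equiv.Perm V) = s from h2]

/-- Invariance under a normalising element: the sign. -/
theorem eps_inv (h1 : T_SGN.{u}) {g h : Equiv.Perm V} {n : ℤ} (hgh : g * h = h * g ^ n)
    {s : Finset V} (hs : s.image g = s) (he : eps g s = 1) : eps g (s.image h) = 1 := by
  have h0 : g ∈ pos h1 s := ⟨hs, he⟩
  have h2 : g ^ n ∈ pos h1 s := zpow_mem h0 n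
  have h3 := (@h1 V _).2.2.1 g h s
  rw [hgh, (@h1 V _).2.2.1 h (g ^ n) s, show s.image (g ^ n : Equiv.Perm V) = s from h2.1, h2.2,
    mul_one] at h3
  have h4 := eps_sq h s
  calc eps g (s.image h) = eps g (s.image h) * (eps h s * eps h s) := by rw [h4, mul_one]
    _ = (eps g (s.image h) * eps h s) * eps h s := by ring
    _ = eps h s * eps h s := by rw [← h3]
    _ = 1 := h4

/-- The weight of a finite set. -/
def wt (g : Equiv.Perm V) (s : Finset V) : ℤ := (-1) ^ s.card * eps g s

theorem wt_or (g : Equiv.Perm V) (s : Finset V) : wt g s = 1 ∨ wt g s = -1 := by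
  unfold wt
  rcases neg_one_pow_eq_or ℤ s.card with h | h <;> rcases eps_or g s with h' | h' <;>
    rw [h, h'] <;> norm_num

theorem wt_empty (g : Equiv.Perm V) : wt g (∅ : Finset V) = 1 := by
  unfold wt eps
  simp

/-- The set of elements which normalise the powers of `g`. -/
theorem wt_inv (h1 : T_SGN.{u}) {g h : Equiv.Perm V} {n m : ℤ} (hgh : g * h = h * g ^ n)
    (hgh' : g * h⁻¹ = h⁻¹ * g ^ m) {s : Finset V} (hs : s.image g = s) :
    wt g (s.image h) = wt g s := by
  have hc : (s.image h).card = s.card := Finset.card_image_of_injective _ h.injective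
  unfold wt
  rw [hc]
  congr 1
  have h2 : (s.image h).image (h⁻¹ : Equiv.Perm V) = s := by
    rw [← img_mul, inv_mul_cancel, img_one]
  rcases eps_or g s with h3 | h3
  · rw [h3]
    exact eps_inv h1 hgh hs h3
  · rw [h3]
    rcases eps_or g (s.image h) with h4 | h4
    · exfalso
      have h5 := eps_inv h1 hgh' (img_inv hgh hs) h4
      rw [h2, h3] at h5
      norm_num at h5
    · exact h4

end

/-- The nonempty invariant cliques of weight `a`. -/
abbrev Y {V : Type u} [LinearOrder V] (G : SimpleGraph V) (g : Equiv.Perm V) (a : ℤ) : Type u :=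
  {s : Finset V // s.Nonempty ∧ G.IsClique (s : Set V) ∧ s.image g = s ∧ wt g s = a}

theorem clique_img {V : Type u} [LinearOrder V] (G : SimpleGraph V) (h : Equiv.Perm V)
    (hA : ∀ a b : V, G.Adj (h a) (h b) ↔ G.Adj a b) (s : Finset V)
    (hs : G.IsClique (s : Set V)) : G.IsClique ((s.image h : Finset V) : Set V) := by
  intro a ha b hb hab
  rw [Finset.mem_coe, Finset.mem_image] at ha hb
  obtain ⟨a', ha', rfl⟩ := ha
  obtain ⟨b', hb', rfl⟩ := hb
  rw [hA]
  refine hs ha' hb' ?_
  rintro rfl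
  exact hab rfl

/-- The action on the nonempty invariant cliques of weight `a`. -/
abbrev act {V : Type u} [LinearOrder V] (G : SimpleGraph V) {Q : Type} [Group Q]
    (σ : Q →* Equiv.Perm V) (g : Equiv.Perm V) (a : ℤ)
    (hA : ∀ (h : Q) (a b : V), G.Adj (σ h a) (σ h b) ↔ G.Adj a b)
    (h3 : ∀ (h : Q) (s : Finset V), s.image g = s → (s.image (σ h)).image g = s.image (σ h))
    (h4 : ∀ (h : Q) (s : Finset V), s.image g = s → wt g (s.image (σ h)) = wt g s) :
    MulAction Q (Y G g a) where
  smul h s := ⟨s.1.image (σ h), s.2.1.image _, clique_img G (σ h) (hA h) s.1 s.2.2.1,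
    h3 h s.1 s.2.2.2.1, (h4 h s.1 s.2.2.2.1).trans s.2.2.2.2⟩
  one_smul s := by
    apply Subtype.ext
    change s.1.image (σ 1) = s.1
    rw [map_one, img_one]
  mul_smul x y s := by
    apply Subtype.ext
    change s.1.image (σ (x * y)) = (s.1.image (σ y)).image (σ x)
    rw [map_mul, img_mul]

/-- The main step for a linearly ordered vertex set. -/
theorem main {V : Type u} [Fintype V] [LinearOrder V] (h1 : T_SGN.{u}) (h2 : T_LEF.{u})
    (G : SimpleGraph V) (hE : ∀ j, Ex G j) (Q : Type) [Group Q] (σ : Q →* Equiv.Perm V)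
    (hA : ∀ (h : Q) (a b : V), G.Adj (σ h a) (σ h b) ↔ G.Adj a b)
    (C : Subgroup Q) (hN : C.Normal) (g : Q) (hg : g ∈ C)
    (hC : ∀ c ∈ C, ∃ n : ℤ, σ c = σ g ^ n)
    (q : ℕ) [Fact q.Prime] (hq : ∀ x : Q, ∃ n : ℕ, x ^ (q ^ n) ∈ C) :
    ∃ s : Finset V, s.Nonempty ∧ G.IsClique (s : Set V) ∧ ∀ (h : Q), ∀ x ∈ s, σ h x ∈ s := by
  classical
  by_contra hno
  have hc : ∀ h : Q, ∃ n : ℤ, σ g * σ h = σ h * σ g ^ n := by
    intro h
    have h5 : h⁻¹ * g * h ∈ C := by
      have h6 := hN.conj_mem g hg h⁻¹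
      rwa [inv_inv] at h6
    obtain ⟨n, hn⟩ := hC _ h5
    refine ⟨n, ?_⟩
    rw [← hn, ← map_mul, ← map_mul]
    congr 1
    group
  have h3 : ∀ (h : Q) (s : Finset V), s.image (σ g) = s →
      (s.image (σ h)).image (σ g) = s.image (σ h) := by
    intro h s hs
    obtain ⟨n, hn⟩ := hc h
    exact img_inv hn hs
  have h4 : ∀ (h : Q) (s : Finset V), s.image (σ g) = s →
      wt (σ g) (s.image (σ h)) = wt (σ g) s := by
    intro h s hs
    obtain ⟨n, hn⟩ := hc h
    obtain ⟨m, hm⟩ := hc h⁻¹
    rw [map_inv] at hm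
    exact wt_inv h1 hn hm hs
  have h5 : ∀ a : ℤ, q ∣ Nat.card (Y G (σ g) a) := by
    intro a
    let _ : MulAction Q (Y G (σ g) a) := act G σ (σ g) a hA h3 h4
    refine dvd_card C ?_ q hq ?_
    · intro c hc' s
      obtain ⟨n, hn⟩ := hC c hc'
      apply Subtype.ext
      change s.1.image (σ c) = s.1
      rw [hn]
      exact zpow_mem (K := stab s.1) (show s.1.image (σ g) = s.1 from s.2.2.2.1) n
    · intro s
      by_contra hcon
      push Not at hcon
      refine hno ⟨s.1, s.2.1, s.2.2.1, ?_⟩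
      intro h x hx
      have h6 : s.1.image (σ h) = s.1 := congrArg Subtype.val (hcon h)
      rw [← h6]
      exact Finset.mem_image_of_mem _ hx
  have h6 := h2 G hE (σ g) (hA g)
  have h7 : ∑ s ∈ Finset.univ.filter
      (fun s : Finset V => G.IsClique (s : Set V) ∧ s.image (σ g) = s), wt (σ g) s = 0 := by
    rw [← h6]
    unfold wt
    refine Finset.sum_congr ?_ fun _ _ => rfl
    ext s
    simp only [Finset.mem_filter, Finset.mem_univ, true_and]
  have h8 : (∅ : Finset V) ∈ Finset.univ.filter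
      (fun s : Finset V => G.IsClique (s : Set V) ∧ s.image (σ g) = s) := by
    simp
  rw [← Finset.add_sum_erase _ _ h8, wt_empty,
    ← Finset.sum_filter_add_sum_filter_not _ (fun s => wt (σ g) s = 1)] at h7
  have h9 : ∀ (a : ℤ) (T : Finset (Finset V)), (∀ s, s ∈ T ↔ s.Nonempty ∧ G.IsClique (s : Set V) ∧
      s.image (σ g) = s ∧ wt (σ g) s = a) → (q : ℤ) ∣ ∑ s ∈ T, wt (σ g) s := by
    intro a T hT
    have h10 : ∑ s ∈ T, wt (σ g) s = ∑ _s ∈ T, a :=
      Finset.sum_congr rfl fun s hs => ((hT s).1 hs).2.2.2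
    rw [h10, Finset.sum_const, nsmul_eq_mul]
    refine Dvd.dvd.mul_right ?_ _
    have h11 : T.card = Nat.card (Y G (σ g) a) := (Nat.subtype_card T hT).symm
    rw [h11]
    exact Int.natCast_dvd_natCast.2 (h5 a)
  have h12 := h9 1 ((((Finset.univ.filter (fun s : Finset V => G.IsClique (s : Set V) ∧
    s.image (σ g) = s))).erase ∅).filter (fun s => wt (σ g) s = 1)) (by
      intro s
      simp only [Finset.mem_filter, Finset.mem_erase, Finset.mem_univ, true_and,
        Finset.nonempty_iff_ne_empty]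
      tauto)
  have h13 := h9 (-1) ((((Finset.univ.filter (fun s : Finset V => G.IsClique (s : Set V) ∧
    s.image (σ g) = s))).erase ∅).filter (fun s => ¬ wt (σ g) s = 1)) (by
      intro s
      have h14 : (¬ wt (σ g) s = 1) ↔ wt (σ g) s = -1 := by
        rcases wt_or (σ g) s with h | h <;> rw [h] <;> norm_num
      simp only [Finset.mem_filter, Finset.mem_erase, Finset.mem_univ, true_and,
        Finset.nonempty_iff_ne_empty, h14]
      tauto)
  have h15 := dvd_add h12 h13
  have h16 : (q : ℤ) ∣ 1 := by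
    have h17 : (q : ℤ) ∣ 0 := dvd_zero _
    rw [← h7] at h17
    exact (dvd_add_left h15).1 h17
  have h18 : q ∣ 1 := by exact_mod_cast h16
  exact (Fact.out : q.Prime).one_lt.ne' (Nat.dvd_one.1 h18)

end Pool.Agent.MSN.Grp.GCQF

namespace Pool.Agent.MSN.Grp

open Pool.Agent.MSF Pool.Agent.MSN Pool.Agent.MSN.Alg

universe u

theorem tCQF (h1 : T_SGN.{u}) (h2 : T_LEF.{u}) : T_CQF.{u} := by
  intro V _ inst G hE Q _ _ _ hA C hN g hg hC q _ hq
  let _ : LinearOrder V := LinearOrder.lift' (Fintype.equivFin V) (Equiv.injective _)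
  have hE' : ∀ j, @Ex V (fun a b => LinearOrder.toDecidableEq a b) G j := by
    intro j
    have h0 := hE j
    have e : (fun a b => LinearOrder.toDecidableEq a b : DecidableEq V) = inst :=
      Subsingleton.elim _ _
    rw [e]
    exact h0
  have h3 := GCQF.main h1 h2 G hE' Q (MulAction.toPermHom Q V) hA C hN g hg (by
    intro c hc
    obtain ⟨n, hn⟩ := hC c hc
    refine ⟨n, ?_⟩
    rw [← map_zpow]
    ext v
    exact hn v) q hq
  exact h3

end Pool.Agent.MSN.Grp
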