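import Pool.Agent.MSN.Targets

/-!
# MSN: GEOD, shortest path trees (helper49)
-/

set_option autoImplicit false

namespace Pool.Agent.MSN

universe u

namespace GEOD

variable {N : Type u}

theorem elen_nonneg {len : N → N → ℝ} {E : N → N → Prop} (hE : ∀ x y, E x y → 0 < len x y) :
    ∀ l : List N, List.IsChain E l → 0 ≤ elen len l := by
  intro l
  induction l with
  | nil => intro _; simp [elen]
  | cons a l ih =>
    cases l with
    | nil => intro _; simp [elen]
    | cons b l =>
      intro h
      rw [List.isChain_cons_cons] at h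
      have h1 := hE _ _ h.1
      have h2 := ih h.2
      simp only [elen]
      linarith

theorem elen_append (len : N → N → ℝ) (x y : N) :
    ∀ l : List N, l.getLast? = some y → elen len (l ++ [x]) = elen len l + len y x := by
  intro l
  induction l with
  | nil => intro h; simp at h
  | cons a l ih =>
    intro h
    cases l with
    | nil =>
      simp only [List.getLast?_singleton, Option.some.injEq] at h
      subst h
      simp [elen]
    | cons b l =>
      have h1 : (b :: l).getLast? = some y := by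
        rw [List.getLast?_cons_cons] at h
        exact h
      have h2 := ih h1
      simp only [List.cons_append, elen] at h2 ⊢
      rw [h2, add_assoc]

/-- The lengths of the walks from `b` to `x`. -/
def W (len : N → N → ℝ) (E : N → N → Prop) (b x : N) : Set ℝ :=
  {t | ∃ P : List N, P.head? = some b ∧ P.getLast? = some x ∧ List.IsChain E P ∧ elen len P = t}

end GEOD

open GEOD

theorem tGEOD : T_GEOD.{u} := by
  classical
  intro N len E S b B hS hb hE hP
  have hpos : ∀ x y, E x y → 0 < len x y := fun x y h => (hE x y h).2.2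
  have hbd : ∀ x, BddBelow (W len E b x) := by
    intro x
    refine ⟨0, ?_⟩
    rintro t ⟨P, -, -, hc, rfl⟩
    exact elen_nonneg hpos P hc
  let d : N → ℝ := fun x => sInf (W len E b x)
  have hdB : ∀ x ∈ S, d x ≤ B := by
    intro x hx
    obtain ⟨P, h1, h2, h3, h4⟩ := hP x hx
    exact (csInf_le (hbd x) ⟨P, h1, h2, h3, rfl⟩).trans h4
  have hB0 : 0 ≤ B := by
    obtain ⟨P, -, -, h3, h4⟩ := hP b hb
    exact (elen_nonneg hpos P h3).trans h4
  -- a walk to `x ≠ b` has a last edge
  have hlast : ∀ x, x ≠ b → ∀ P : List N, P.head? = some b → P.getLast? = some x →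
      List.IsChain E P → ∃ y, E y x ∧ d y + len y x ≤ elen len P := by
    intro x hxb P h1 h2 h3
    obtain ⟨P', rfl⟩ := List.getLast?_eq_some_iff.1 h2
    have hne : P' ≠ [] := by
      rintro rfl
      simp only [List.nil_append, List.head?_cons, Option.some.injEq] at h1
      exact hxb h1
    obtain ⟨y, hy⟩ : ∃ y, P'.getLast? = some y :=
      ⟨P'.getLast hne, List.getLast?_eq_some_getLast hne⟩
    rw [List.isChain_append] at h3
    obtain ⟨h4, -, h5⟩ := h3
    have h6 : E y x := h5 y hy x (by simp)
    refine ⟨y, h6, ?_⟩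
    rw [elen_append len x y P' hy]
    have h7 : P'.head? = some b := by
      cases P' with
      | nil => exact absurd rfl hne
      | cons a l => simpa using h1
    have h8 : d y ≤ elen len P' := csInf_le (hbd y) ⟨P', h7, hy, h4, rfl⟩
    linarith
  have hpar : ∀ x : N, ∃ y : N, x ∈ S → x ≠ b → y ∈ S ∧ E y x ∧ d y + len y x ≤ d x := by
    intro x
    by_cases hx : x ∈ S ∧ x ≠ b
    · obtain ⟨hxS, hxb⟩ := hx
      let Y : Set N := {y | E y x}
      have hYf : Y.Finite := hS.subset fun y hy => (hE y x hy).1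
      obtain ⟨P, h1, h2, h3, -⟩ := hP x hxS
      obtain ⟨y1, hy1, -⟩ := hlast x hxb P h1 h2 h3
      obtain ⟨y, hy, hmin⟩ := Set.exists_min_image Y (fun y => d y + len y x) hYf ⟨y1, hy1⟩
      refine ⟨y, fun _ _ => ⟨(hE y x hy).1, hy, ?_⟩⟩
      refine le_csInf ⟨_, P, h1, h2, h3, rfl⟩ ?_
      rintro t ⟨Q, g1, g2, g3, rfl⟩
      obtain ⟨z, hz, hzl⟩ := hlast x hxb Q g1 g2 g3
      exact (hmin z hz).trans hzl
    · exact ⟨x, fun h1 h2 => absurd ⟨h1, h2⟩ hx⟩
  choose p hp using hpar
  let rk : N → ℕ := fun x => (hS.toFinset.filter fun z => d z < d x).card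
  have hrk : ∀ x, x ∈ S → x ≠ b → rk (p x) < rk x := by
    intro x hx hxb
    obtain ⟨h1, h2, h3⟩ := hp x hx hxb
    have h4 : d (p x) < d x := by
      have := hpos _ _ h2
      linarith
    apply Finset.card_lt_card
    rw [Finset.ssubset_iff_of_subset]
    · exact ⟨p x, by simp [h1, h4], by simp⟩
    · intro z hz
      rw [Finset.mem_filter] at hz ⊢
      exact ⟨hz.1, hz.2.trans h4⟩
  let wf := (measure rk).wf
  let γ : N → List N := wf.fix fun x rec =>
    if h : x ∈ S ∧ x ≠ b then rec (p x) (hrk x h.1 h.2) ++ [x] else [x]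
  have hγ : ∀ x, γ x = if x ∈ S ∧ x ≠ b then γ (p x) ++ [x] else [x] := by
    intro x
    have h1 : γ x = _ := wf.fix_eq _ x
    rw [h1]
    by_cases h : x ∈ S ∧ x ≠ b
    · rw [dif_pos h, if_pos h]
    · rw [dif_neg h, if_neg h]
  have hγb : γ b = [b] := by
    rw [hγ b, if_neg (fun h => h.2 rfl)]
  have hlst : ∀ x, (γ x).getLast? = some x := by
    intro x
    rw [hγ x]
    split_ifs <;> simp
  have hlen : ∀ n, ∀ x ∈ S, rk x ≤ n → elen len (γ x) ≤ max (d x) 0 := by
    intro n
    induction n with
    | zero =>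
      intro x hx hn
      by_cases hxb : x = b
      · rw [hxb, hγb]
        simp [elen]
      · have := hrk x hx hxb
        omega
    | succ n ih =>
      intro x hx hn
      by_cases hxb : x = b
      · rw [hxb, hγb]
        simp [elen]
      · obtain ⟨h1, h2, h3⟩ := hp x hx hxb
        have h4 := hrk x hx hxb
        rw [hγ x, if_pos ⟨hx, hxb⟩, elen_append len x (p x) _ (hlst (p x))]
        have h5 := ih (p x) h1 (by omega)
        have h6 : 0 ≤ d (p x) := by
          obtain ⟨P, g1, g2, g3, -⟩ := hP (p x) h1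
          refine le_csInf ⟨_, P, g1, g2, g3, rfl⟩ ?_
          rintro t ⟨Q, -, -, k3, rfl⟩
          exact elen_nonneg hpos Q k3
        rw [max_eq_left h6] at h5
        exact (by linarith : elen len (γ (p x)) + len (p x) x ≤ d x).trans (le_max_left _ _)
  refine ⟨γ, hγb, fun x _ => hlst x, fun x hx => ?_, fun x hx hxb => ?_⟩
  · exact (hlen (rk x) x hx le_rfl).trans (max_le (hdB x hx) hB0)
  · obtain ⟨h1, h2, -⟩ := hp x hx hxb
    exact ⟨p x, h1, h2, by rw [hγ x, if_pos ⟨hx, hxb⟩]⟩

end Pool.Agent.MSN
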