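import Pool.Agent.MSN.Grp
import Pool.Agent.MSN.AALGA

/-!
# T_KEY: the exactness statement of module M4 (the `key` inside the proof of `Alg.tALGA`)
-/

namespace Pool.Agent.MSN.Grp

open List Pool.Agent.MSF Pool.Agent.MSN Pool.Agent.MSN.Fin Pool.Agent.MSN.Alg

universe u

/-- T_KEY, from the targets used by `Alg.tALGA` (the same order of the hypotheses; those which are
used only after the exactness statement are left out). -/
theorem GKEY.key (hRES : Pool.Agent.MSF.T_RES.{u}) (hLARGE : Pool.Agent.MSF.T_LARGE.{u})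
    (hTRIG : Pool.Agent.MSF.T_TRIG.{u}) (hUNIQ : T_UNIQ.{u}) (hINJ : T_INJ.{u})
    (hSURJ : T_SURJ.{u}) (hEXA : T_EXA.{u}) (hEXC : T_EXC.{u}) (hEXB : T_EXB.{u})
    (hEXD : T_EXD.{u}) (hEXF : T_EXF.{u}) (hGX : T_GX.{u}) (hLT : T_LT.{u})
    (hZETA : T_ZETA.{u}) : T_KEY.{u} := by
  intro V _ _ G len hX hN hF j
  have hA : Angled G (angle len) := angled_of_ms hLARGE hTRIG hX
  have hconn : ∀ a b, ∃ P, IsP G a b P := fun a b => alga_conn hX.simplyConn.1 a b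
  match j with
  | 0 => exact (hEXA G hX.simplyConn.1).1
  | 1 => exact (hEXA G hX.simplyConn.1).2
  | 2 => exact (hEXC G).1 (hEXB G hX.simplyConn hconn)
  | 3 =>
    exact (hEXC G).2 (hEXD G hX.simplyConn hconn fun ω h1 h2 P t h3 h4 h5 =>
      hUNIQ G (angle len) hA ω h1 h2 P t h3 h4 h5)
  | 4 =>
    refine hEXF G fun v η hη => ?_
    obtain ⟨o, g, lam, hL⟩ := hGX G v hconn (hSURJ G len hX hN v)
    refine hZETA (lkG G v) (delG G v) o lam η hη ?_ ?_ hL.lpath hL.rev hL.edge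
      (hLT G v o g lam hL fun a p => hINJ G (angle len) hA v a p)
    · intro P t h3 h4 h5
      exact hUNIQ (lkG G v) (angle len) (hRES G (angle len) _ hA) η hη (alga_cocy hF v η)
        P t h3 h4 h5
    · intro a b hab
      exact ⟨hab.1, hab.2.1.ne', hab.2.2.ne'⟩
  | (k + 5) => exact alga_ex5 hF k

/-- T_KEY: the exactness statement of module M4, with the same hypotheses as `Alg.tALGA`. -/
theorem tKEY (hRES : Pool.Agent.MSF.T_RES.{u}) (hLARGE : Pool.Agent.MSF.T_LARGE.{u})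
    (hTRIG : Pool.Agent.MSF.T_TRIG.{u}) (hUNIQ : T_UNIQ.{u}) (hINJ : T_INJ.{u})
    (hSURJ : T_SURJ.{u}) (hEXA : T_EXA.{u}) (hEXC : T_EXC.{u}) (hEXB : T_EXB.{u})
    (hEXD : T_EXD.{u}) (hEXF : T_EXF.{u}) (hGX : T_GX.{u}) (hLT : T_LT.{u})
    (hZETA : T_ZETA.{u}) (_hCHI : T_CHI.{u}) (_hOD : T_OD.{u}) (_hPG : T_PG.{u}) : T_KEY.{u} :=
  GKEY.key hRES hLARGE hTRIG hUNIQ hINJ hSURJ hEXA hEXC hEXB hEXD hEXF hGX hLT hZETA

end Pool.Agent.MSN.Grp
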