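import Pool.Agent.MSN.Grp

/-!
# LEF: the exact Lefschetz number
-/

set_option autoImplicit false

namespace Pool.Agent.MSN.Grp

open Pool.Agent.MSF Pool.Agent.MSN Pool.Agent.MSN.Alg

universe u

namespace GLEF

theorem sg_mod2 {V : Type u} [LinearOrder V] (t : Finset V) (x : V) :
    ((sg t x : ℤ) : ZMod 2) = 1 := by
  unfold sg
  push_cast
  have : (-1 : ZMod 2) = 1 := by decide
  rw [this, one_pow]

/-- The signed sum over pairs of different elements vanishes. -/
theorem pairs {V : Type u} [LinearOrder V] (h2 : T_SGN.{u}) (t : Finset V)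
    (c : Finset V → ℤ) :
    ∑ x ∈ t, ∑ y ∈ t.erase x, sg t x * sg (t.erase x) y * c ((t.erase x).erase y) = 0 := by
  rw [Finset.sum_sigma' t (fun x => t.erase x)
    (fun x y => sg t x * sg (t.erase x) y * c ((t.erase x).erase y))]
  refine Finset.sum_involution (fun p _ => ⟨p.2, p.1⟩) ?_ ?_ ?_ ?_
  · rintro ⟨x, y⟩ h
    simp only [Finset.mem_sigma, Finset.mem_erase] at h
    show sg t x * sg (t.erase x) y * c ((t.erase x).erase y) +
      sg t y * sg (t.erase y) x * c ((t.erase y).erase x) = 0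
    rw [Finset.erase_right_comm (s := t) (a := y) (b := x), ← add_mul,
      h2.1 t x y h.1 h.2.2 (fun hh => h.2.1 hh.symm), zero_mul]
  · rintro ⟨x, y⟩ h _ heq
    simp only [Finset.mem_sigma, Finset.mem_erase] at h
    exact h.2.1 (congrArg Sigma.fst heq)
  · rintro ⟨x, y⟩ h
    simp only [Finset.mem_sigma, Finset.mem_erase] at h ⊢
    exact ⟨h.2.2, fun hh => h.2.1 hh.symm, h.1⟩
  · rintro ⟨x, y⟩ h
    rfl

end GLEF

open GLEF in
open Classical in
theorem tLEF (h1 : T_RNK.{u}) (h2 : T_SGN.{u}) (h3 : T_TRC.{u}) : T_LEF.{u} := by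
  intro V _ _ G hEx g hg
  let K : Type u := {s : Finset V // G.IsClique (s : Set V)}
  have herase : ∀ (s : K) (x : V), G.IsClique ((s.1.erase x : Finset V) : Set V) := by
    intro s x
    exact s.2.subset (by simp)
  let er : K → V → K := fun s x => ⟨s.1.erase x, herase s x⟩
  let D : Matrix K K ℤ := Matrix.of fun t s => ∑ x ∈ t.1, if er t x = s then sg t.1 x else 0
  have D_apply : ∀ t s, D t s = ∑ x ∈ t.1, if er t x = s then sg t.1 x else 0 := fun _ _ => rfl
  have D_mul : ∀ (R : Type) [CommRing R] (c : K → R) (t : K),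
      (D.map (Int.cast : ℤ → R)).mulVec c t = ∑ x ∈ t.1, ((sg t.1 x : ℤ) : R) * c (er t x) := by
    intro R _ c t
    rw [Matrix.mulVec, dotProduct]
    have e1 : ∀ s : K, (D.map (Int.cast : ℤ → R)) t s * c s =
        ∑ x ∈ t.1, if er t x = s then ((sg t.1 x : ℤ) : R) * c s else 0 := by
      intro s
      rw [Matrix.map_apply, D_apply, Int.cast_sum, Finset.sum_mul]
      refine Finset.sum_congr rfl fun x _ => ?_
      split_ifs
      · rfl
      · rw [Int.cast_zero, zero_mul]
    rw [Finset.sum_congr rfl fun s _ => e1 s, Finset.sum_comm]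
    refine Finset.sum_congr rfl fun x _ => ?_
    rw [Finset.sum_ite_eq]
    simp
  have hDD : D * D = 0 := by
    ext t r
    rw [Matrix.mul_apply]
    have e0 : ∀ s : K, D t s * D s r = ∑ x ∈ t.1, if er t x = s then sg t.1 x * D s r else 0 := by
      intro s
      rw [D_apply, Finset.sum_mul]
      refine Finset.sum_congr rfl fun x _ => ?_
      split_ifs
      · rfl
      · rw [zero_mul]
    rw [Finset.sum_congr rfl fun s _ => e0 s, Finset.sum_comm]
    have e2 := pairs h2 t.1 (fun s => if s = r.1 then 1 else 0)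
    rw [Matrix.zero_apply]
    refine Eq.trans ?_ e2
    refine Finset.sum_congr rfl fun x _ => ?_
    rw [Finset.sum_ite_eq, if_pos (Finset.mem_univ _), D_apply, Finset.mul_sum]
    refine Finset.sum_congr rfl fun y _ => ?_
    have e3 : (er (er t x) y = r) ↔ ((t.1.erase x).erase y = r.1) :=
      ⟨fun h => congrArg Subtype.val h, fun h => Subtype.ext h⟩
    by_cases h : (t.1.erase x).erase y = r.1
    · rw [if_pos (e3.2 h), if_pos h, mul_one]
    · rw [if_neg (fun hh => h (e3.1 hh)), if_neg h, mul_zero, mul_zero]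
  have hex2 : ∀ c : K → ZMod 2, (D.map (Int.cast : ℤ → ZMod 2)).mulVec c = 0 →
      ∃ e, (D.map (Int.cast : ℤ → ZMod 2)).mulVec e = c := by
    intro c hc
    let ext : Finset V → ZMod 2 := fun s => if h : G.IsClique (s : Set V) then c ⟨s, h⟩ else 0
    have ext_of : ∀ s : K, ext s.1 = c s := fun s => dif_pos s.2
    have hj : ∀ j : ℕ, ∃ e : Finset V → ZMod 2, ∀ s : Finset V, G.IsClique (s : Set V) →
        s.card = j → ext s = ∑ x ∈ s, e (s.erase x) := by
      intro j
      refine hEx j ext ?_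
      intro t ht _
      have e1 := congrFun hc ⟨t, ht⟩
      rw [D_mul] at e1
      rw [Pi.zero_apply] at e1
      refine Eq.trans ?_ e1
      refine Finset.sum_congr rfl fun x _ => ?_
      rw [sg_mod2, one_mul]
      exact ext_of (er ⟨t, ht⟩ x)
    choose e he using hj
    refine ⟨fun s => e (s.1.card + 1) s.1, ?_⟩
    funext t
    rw [D_mul, ← ext_of t, he t.1.card t.1 t.2 rfl]
    refine Finset.sum_congr rfl fun x hx => ?_
    rw [sg_mod2, one_mul]
    show e ((t.1.erase x).card + 1) (t.1.erase x) = _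
    rw [Finset.card_erase_add_one hx]
  have hexQ := h1 D hDD hex2
  have himg : ∀ s : K, G.IsClique ((s.1.image g : Finset V) : Set V) := by
    intro s a ha b hb hab
    simp only [Finset.coe_image, Set.mem_image] at ha hb
    obtain ⟨a, ha, rfl⟩ := ha
    obtain ⟨b, hb, rfl⟩ := hb
    exact (hg a b).2 (s.2 ha hb fun h => hab (by rw [h]))
  let σ : K → K := fun s => ⟨s.1.image g, himg s⟩
  let P : Matrix K K ℚ := Matrix.of fun s s' => if σ s = s' then ((eps g s.1 : ℤ) : ℚ) else 0
  have P_apply : ∀ s s', P s s' = if σ s = s' then ((eps g s.1 : ℤ) : ℚ) else 0 := fun _ _ => rfl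
  have P_mul : ∀ (c : K → ℚ) (s : K), P.mulVec c s = ((eps g s.1 : ℤ) : ℚ) * c (σ s) := by
    intro c s
    rw [Matrix.mulVec, dotProduct]
    have e1 : ∀ s' : K, P s s' * c s' = if σ s = s' then ((eps g s.1 : ℤ) : ℚ) * c s' else 0 := by
      intro s'
      rw [P_apply]
      split_ifs
      · rfl
      · rw [zero_mul]
    rw [Finset.sum_congr rfl fun s' _ => e1 s', Finset.sum_ite_eq]
    simp
  let J : Matrix K K ℚ := Matrix.diagonal fun s => (-1 : ℚ) ^ s.1.card
  have hPD : P * D.map (Int.cast : ℤ → ℚ) = D.map (Int.cast : ℤ → ℚ) * P := by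
    apply Matrix.mulVec_injective
    funext c
    rw [← Matrix.mulVec_mulVec, ← Matrix.mulVec_mulVec]
    funext t
    rw [P_mul, D_mul, D_mul]
    show ((eps g t.1 : ℤ) : ℚ) * ∑ z ∈ t.1.image g, ((sg (t.1.image g) z : ℤ) : ℚ) * c (er (σ t) z) = _
    rw [Finset.sum_image (fun a _ b _ h => g.injective h), Finset.mul_sum]
    refine Finset.sum_congr rfl fun y hy => ?_
    rw [P_mul]
    have e1 : er (σ t) (g y) = σ (er t y) := by
      apply Subtype.ext
      show (t.1.image g).erase (g y) = (t.1.erase y).image g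
      exact (Finset.image_erase g.injective _ _).symm
    rw [e1, ← mul_assoc, ← mul_assoc, ← Int.cast_mul, ← Int.cast_mul, h2.2.1 g t.1 y hy]
  have hJD : J * D.map (Int.cast : ℤ → ℚ) = -(D.map (Int.cast : ℤ → ℚ) * J) := by
    ext t s
    rw [Matrix.neg_apply, Matrix.diagonal_mul, Matrix.mul_diagonal, Matrix.map_apply, D_apply,
      Int.cast_sum, Finset.mul_sum, Finset.sum_mul, ← Finset.sum_neg_distrib]
    refine Finset.sum_congr rfl fun x hx => ?_
    split_ifs with h
    · have e1 : t.1.card = s.1.card + 1 := by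
        rw [← h]
        exact (Finset.card_erase_add_one hx).symm
      rw [e1, pow_succ]
      ring
    · rw [Int.cast_zero, mul_zero, zero_mul, neg_zero]
  have hDDQ : D.map (Int.cast : ℤ → ℚ) * D.map (Int.cast : ℤ → ℚ) = 0 := by
    have e1 : (D * D).map (Int.cast : ℤ → ℚ) = D.map (Int.cast : ℤ → ℚ) * D.map (Int.cast : ℤ → ℚ) :=
      Matrix.map_mul (f := Int.castRingHom ℚ)
    rw [← e1, hDD]
    ext t s
    simp
  have htr := h3 (D.map (Int.cast : ℤ → ℚ)) P J hDDQ hexQ hPD hJD
  rw [Matrix.trace] at htr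
  have e1 : ∀ s : K, (J * P).diag s =
      if σ s = s then (((-1 : ℤ) ^ s.1.card * eps g s.1 : ℤ) : ℚ) else 0 := by
    intro s
    rw [Matrix.diag_apply, Matrix.diagonal_mul, P_apply]
    split_ifs
    · push_cast
      rfl
    · rw [mul_zero]
  rw [Finset.sum_congr rfl fun s _ => e1 s, ← Finset.sum_filter, ← Int.cast_sum] at htr
  have htr' := Int.cast_eq_zero.1 htr
  rw [← htr']
  refine (Finset.sum_bij (fun (s : K) _ => s.1) ?_ ?_ ?_ ?_).symm
  · intro s hs
    rw [Finset.mem_filter] at hs ⊢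
    exact ⟨Finset.mem_univ _, s.2, congrArg Subtype.val hs.2⟩
  · intro s _ s' _ h
    exact Subtype.ext h
  · intro s hs
    rw [Finset.mem_filter] at hs
    refine ⟨⟨s, hs.2.1⟩, ?_, rfl⟩
    rw [Finset.mem_filter]
    exact ⟨Finset.mem_univ _, Subtype.ext hs.2.2⟩
  · intro s _
    rfl

end Pool.Agent.MSN.Grp
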