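import Pool.Agent.MSN.Grp

/-!
# The main theorem of part 4

A finite group with normal subgroups `K ≤ C`, `K` solvable and moving no vertex to an adjacent vertex,
`C / K` cyclic, `H / C` a `q`-group, has an invariant clique.
-/

namespace Pool.Agent.MSN.Grp

open Pool.Agent.MSF Pool.Agent.MSN

universe u

namespace GMAIN

/-- The vertices fixed by `K`. -/
abbrev FixK {V : Type u} {H : Type} [Group H] [MulAction H V] (K : Subgroup H) : Set V :=
  {v : V | ∀ k ∈ K, k • v = v}

theorem smul_mem {V : Type u} {H : Type} [Group H] [MulAction H V] (K : Subgroup H)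
    (hK : K.Normal) (h : H) (v : V) (hv : v ∈ FixK (V := V) K) : h • v ∈ FixK (V := V) K := by
  intro k hk
  have h1 : h⁻¹ * k * h ∈ K := by
    have := hK.conj_mem k hk h⁻¹
    simpa using this
  have h2 := hv _ h1
  calc k • h • v = h • ((h⁻¹ * k * h) • v) := by
        simp only [smul_smul, mul_assoc, mul_inv_cancel_left]
    _ = h • v := by rw [h2]

/-- The action of the group on the vertices fixed by the normal subgroup `K`. -/
abbrev act {V : Type u} {H : Type} [Group H] [MulAction H V] (K : Subgroup H)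
    (hK : K.Normal) : MulAction H (FixK (V := V) K) where
  smul h v := ⟨h • v.1, smul_mem K hK h v.1 v.2⟩
  one_smul v := Subtype.ext (one_smul H v.1)
  mul_smul a b v := Subtype.ext (mul_smul a b v.1)

end GMAIN

theorem tMAIN (h1 : T_CQA.{u}) (h2 : T_SOL.{u}) : T_MAIN.{u} := by
  intro V G len hMS hN h5 H _ _ _ hadj hlen K C hK hC hsol hmove g hCg q _ hq
  classical
  have hMS' := h2 G len hMS hN h5 H hadj hlen K hsol hmove
  let _ : MulAction H (GMAIN.FixK (V := V) K) := GMAIN.act K hK
  have hN' : NonObtuse (G.induce (GMAIN.FixK (V := V) K))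
      (fun a b => len (a : V) (b : V)) := by
    intro v a b hva hvb hab
    exact hN v.1 a.1 b.1 hva hvb hab
  have h5' : (G.induce (GMAIN.FixK (V := V) K)).CliqueFree 5 :=
    h5.comap ⟨⟨(SimpleGraph.Embedding.induce (G := G) (GMAIN.FixK (V := V) K)).toHom,
      Subtype.val_injective⟩⟩
  obtain ⟨s, hs, hcl, hinv⟩ := h1 (G.induce (GMAIN.FixK (V := V) K))
    (fun a b => len (a : V) (b : V)) hMS' hN' h5' H
    (fun h a b => hadj h a.1 b.1) K C hK hC
    (fun k hk v => Subtype.ext (v.2 k hk)) g hCg q hq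
  refine ⟨s.map (Function.Embedding.subtype _), hs.map, ?_, ?_⟩
  · intro a ha b hb hab
    simp only [Finset.coe_map, Set.mem_image, Finset.mem_coe] at ha hb
    obtain ⟨a', ha', rfl⟩ := ha
    obtain ⟨b', hb', rfl⟩ := hb
    exact hcl ha' hb' (fun h => hab (by rw [h]))
  · intro h x hx
    simp only [Finset.mem_map] at hx ⊢
    obtain ⟨x', hx', rfl⟩ := hx
    exact ⟨h • x', hinv h x' hx', rfl⟩

end Pool.Agent.MSN.Grp
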