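import Pool.Agent.MSN.Grp

/-!
# Fixed vertices of finite solvable groups

The fixed vertices of a finite solvable group none of whose elements moves a vertex to an adjacent
vertex span a metrically systolic complex.
-/

namespace Pool.Agent.MSN.Grp

open Pool.Agent.MSF Pool.Agent.MSN

universe u

namespace GSOL

/-- A nontrivial finite solvable group is generated by a proper normal subgroup and one element. -/
theorem exists_gen {K : Type*} [Group K] [Finite K] [Nontrivial K] (hK : Group.IsSolvable K) :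
    ∃ (N : Subgroup K) (a : K), N.Normal ∧ N ≠ ⊤ ∧ N ⊔ Subgroup.zpowers a = ⊤ := by
  have hlt : commutator K < ⊤ := Group.IsSolvable.commutator_lt_top_of_nontrivial K
  obtain ⟨N, hN, hle⟩ := (eq_top_or_exists_le_coatom (commutator K)).resolve_left hlt.ne
  have hnorm : N.Normal := Subgroup.Normal.of_commutator_le K hle
  obtain ⟨a, ha⟩ : ∃ a : K, a ∉ N := by
    by_contra hcon
    push Not at hcon
    exact hN.1 (by ext x; simp [hcon x])
  refine ⟨N, a, hnorm, hN.1, ?_⟩
  refine hN.2 _ (lt_of_le_of_ne le_sup_left ?_)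
  intro h
  exact ha (h ▸ (le_sup_right (a := N) (Subgroup.mem_zpowers a)))

variable {V : Type u} {H : Type} [Group H] [MulAction H V]

/-- Elements of a group which preserves a set act on this set. -/
abbrev act (Q : Subgroup H) (Y : Set V) (hQ : ∀ q ∈ Q, ∀ v ∈ Y, q • v ∈ Y) : MulAction Q Y where
  smul q v := ⟨(q : H) • v.1, hQ q q.2 v.1 v.2⟩
  one_smul v := Subtype.ext (one_smul H v.1)
  mul_smul a b v := Subtype.ext (mul_smul (a : H) (b : H) v.1)

/-- The cyclic group generated by `a` fixes a vertex of the invariant subcomplex on `Y`, if it is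
metrically systolic and `a` moves no vertex of it to an adjacent vertex. -/
theorem exists_fixed [Finite H] (h1 : T_CQA.{u}) {G : SimpleGraph V} {len : V → V → ℝ}
    (Y : Set V) (hMS : MetricallySystolic (G.induce Y) (fun a b => len a b))
    (hN : NonObtuse G len) (h5 : G.CliqueFree 5)
    (hadj : ∀ (h : H) (a b : V), G.Adj (h • a) (h • b) ↔ G.Adj a b)
    (a : H) (hQ : ∀ q ∈ Subgroup.zpowers a, ∀ v ∈ Y, q • v ∈ Y)
    (hno : ∀ v ∈ Y, ¬ G.Adj v (a • v)) : ∃ v ∈ Y, a • v = v := by
  let _ : MulAction (Subgroup.zpowers a) Y := act (Subgroup.zpowers a) Y hQ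
  have hN' : NonObtuse (G.induce Y) (fun a b => len (a : V) (b : V)) := by
    intro v a b hva hvb hab
    exact hN v.1 a.1 b.1 hva hvb hab
  have h5' : (G.induce Y).CliqueFree 5 :=
    h5.comap ⟨⟨(SimpleGraph.Embedding.induce (G := G) Y).toHom, Subtype.val_injective⟩⟩
  have hcyc : (⊤ : Subgroup (Subgroup.zpowers a)) =
      ⊥ ⊔ Subgroup.zpowers (⟨a, Subgroup.mem_zpowers a⟩ : Subgroup.zpowers a) := by
    rw [bot_sup_eq]
    symm
    rw [eq_top_iff]
    rintro ⟨x, hx⟩ -
    obtain ⟨n, rfl⟩ := Subgroup.mem_zpowers_iff.1 hx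
    exact Subgroup.mem_zpowers_iff.2 ⟨n, by ext; simp⟩
  have : Fact (Nat.Prime 2) := ⟨Nat.prime_two⟩
  obtain ⟨s, ⟨x, hx⟩, hcl, hinv⟩ := h1 (G.induce Y) (fun a b => len (a : V) (b : V)) hMS hN' h5'
    (Subgroup.zpowers a) (fun h a b => hadj h a.1 b.1) ⊥ ⊤ inferInstance inferInstance
    (fun k hk v => by rw [Subgroup.mem_bot.1 hk, one_smul])
    ⟨a, Subgroup.mem_zpowers a⟩ hcyc 2 (fun x => ⟨0, trivial⟩)
  refine ⟨x.1, x.2, ?_⟩
  by_contra hne
  have h2 : (⟨a, Subgroup.mem_zpowers a⟩ : Subgroup.zpowers a) • x ∈ s := hinv _ x hx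
  have h3 := hcl hx h2 (fun h => hne (congrArg Subtype.val h).symm)
  exact hno x.1 x.2 h3

/-- The inductive step. -/
theorem step [Finite H] (h1 : T_CQA.{u}) (hT2 : T_T2.{u}) (hT3 : T_T3.{u}) (hRes : T_RES.{u})
    (hMCI : T_MCI.{u}) (hN2H : T_N2H.{u}) (hIND : T_IND.{u})
    {G : SimpleGraph V} {len : V → V → ℝ} (hX : MetricallySystolic G len)
    (hN : NonObtuse G len) (h5 : G.CliqueFree 5) (hA : Angled G (angle len))
    (hadj : ∀ (h : H) (a b : V), G.Adj (h • a) (h • b) ↔ G.Adj a b)
    (hlen : ∀ (h : H) (a b : V), G.Adj a b → len (h • a) (h • b) = len a b)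
    (K1 K : Subgroup H) (a : H) (hconj : ∀ k : H, a⁻¹ * k * a ∈ K1 ↔ k ∈ K1)
    (hK : K = K1 ⊔ Subgroup.zpowers a)
    (hno : ∀ v : V, ¬ G.Adj v (a • v)) (hS : SCon G (fixS V K1)) : SCon G (fixS V K) := by
  have hang : ∀ (h : H) (v a b : V), G.Adj v a → G.Adj v b → G.Adj a b →
      angle len (h • v) (h • a) (h • b) = angle len v a b :=
    fun h v a b h1 h2 h3 => angle_congr (f := fun x => h • x) (hlen h) h1 h2 h3
  have hmem : ∀ v, a • v ∈ fixS V K1 ↔ v ∈ fixS V K1 := fun v => smul_mem_fixS hconj v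
  have hQ : ∀ q ∈ Subgroup.zpowers a, ∀ v ∈ fixS V K1, q • v ∈ fixS V K1 := by
    intro q hq v hv
    have hfin : IsOfFinOrder a := isOfFinOrder_of_finite a
    rw [← hfin.mem_powers_iff_mem_zpowers] at hq
    obtain ⟨n, rfl⟩ := hq
    induction n with
    | zero => simpa using hv
    | succ n ih =>
      have e : (fun x => a ^ x) (n + 1) = a * (fun x => a ^ x) n := pow_succ' a n
      rw [e, mul_smul]
      exact (hmem _).2 ih
  have hfix : fixS V K = {v | v ∈ fixS V K1 ∧ (MulAction.toPerm a) v = v} := by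
    ext v
    simp only [MulAction.toPerm_apply, Set.mem_ofPred_eq]
    constructor
    · intro h
      exact ⟨fun k hk => h k (hK ▸ (le_sup_left (b := Subgroup.zpowers a) hk)),
        h a (hK ▸ (le_sup_right (a := K1) (Subgroup.mem_zpowers a)))⟩
    · rintro ⟨h1, h2⟩
      have h3 : K ≤ MulAction.stabilizer H v := by
        rw [hK, sup_le_iff, Subgroup.zpowers_le]
        exact ⟨fun k hk => h1 k hk, h2⟩
      exact fun k hk => h3 hk
  have hMS := ms_of_scon hN2H hIND hMCI hX hS
  obtain ⟨v, hv, hav⟩ := exists_fixed h1 (fixS V K1) hMS hN h5 hadj a hQ (fun v _ => hno v)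
  have hg := isAut_smul (G := G) hadj hang a
  have hA' := hRes G (angle len) (fixS V K1) hA
  have hg' := isAut_res hg hmem
  have hsupp : ∀ a b, (resG G (fixS V K1)).Adj a b → a ∈ fixS V K1 := fun a b h => h.2.1
  have hno' : ∀ v ∈ fixS V K1, ¬ (resG G (fixS V K1)).Adj v ((MulAction.toPerm a) v) :=
    fun v _ h => hno v h.1
  have hsub : {v | v ∈ fixS V K1 ∧ (MulAction.toPerm a) v = v} ⊆ fixS V K1 := fun v hv => hv.1
  have hrr := resG_resG G hsub
  rw [hfix]
  refine ⟨⟨v, hv, hav⟩, ?_, ?_⟩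
  · rintro x ⟨hx, hx'⟩ y ⟨hy, hy'⟩
    have := hT2 (resG G (fixS V K1)) _ hA' _ hsupp hS.conn hS.sc _ hg' hno' x hx hx' y hy hy'
    rwa [hrr] at this
  · have := hT3 (resG G (fixS V K1)) _ hA' _ hsupp hS.sc _ hg' hno'
    rwa [hrr] at this

/-- The induction on the order. -/
theorem all [Finite H] (h1 : T_CQA.{u}) (hT2 : T_T2.{u}) (hT3 : T_T3.{u}) (hRes : T_RES.{u})
    (hMCI : T_MCI.{u}) (hN2H : T_N2H.{u}) (hIND : T_IND.{u})
    {G : SimpleGraph V} {len : V → V → ℝ} (hX : MetricallySystolic G len)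
    (hN : NonObtuse G len) (h5 : G.CliqueFree 5) (hA : Angled G (angle len))
    (hadj : ∀ (h : H) (a b : V), G.Adj (h • a) (h • b) ↔ G.Adj a b)
    (hlen : ∀ (h : H) (a b : V), G.Adj a b → len (h • a) (h • b) = len a b)
    (hU : SCon G Set.univ) (n : ℕ) :
    ∀ K : Subgroup H, Nat.card K ≤ n → Group.IsSolvable K →
      (∀ k ∈ K, ∀ v : V, ¬ G.Adj v (k • v)) → SCon G (fixS V K) := by
  induction n with
  | zero =>
    intro K hK
    have := Nat.card_pos (α := K)
    omega
  | succ n ih =>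
    intro K hcard hsol hmove
    rcases subsingleton_or_nontrivial K with hs | hnt
    · have hK : K = ⊥ := Subgroup.eq_bot_of_subsingleton K
      have : fixS V K = Set.univ := by
        ext v
        simp [fixS, hK]
      rw [this]
      exact hU
    · obtain ⟨N, a, hnorm, hne, hsup⟩ := exists_gen hsol
      have hmapK : N.map K.subtype ≤ K := by
        rintro x hx
        obtain ⟨y, -, rfl⟩ := Subgroup.mem_map.1 hx
        exact y.2
      have hKeq : K = N.map K.subtype ⊔ Subgroup.zpowers (a : H) := by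
        have h2 := congrArg (Subgroup.map K.subtype) hsup
        rw [Subgroup.map_sup, MonoidHom.map_zpowers, ← MonoidHom.range_eq_map,
          Subgroup.range_subtype] at h2
        exact h2.symm
      have hconj : ∀ k : H, (a : H)⁻¹ * k * a ∈ N.map K.subtype ↔ k ∈ N.map K.subtype := by
        intro k
        constructor
        · intro h
          obtain ⟨y, hy, hy1⟩ := Subgroup.mem_map.1 h
          refine Subgroup.mem_map.2 ⟨a * y * a⁻¹, hnorm.conj_mem _ hy a, ?_⟩
          have e : (y : H) = (a : H)⁻¹ * k * a := hy1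
          simp only [Subgroup.coe_subtype, Subgroup.coe_mul, Subgroup.coe_inv, e]
          group
        · intro h
          obtain ⟨y, hy, rfl⟩ := Subgroup.mem_map.1 h
          refine Subgroup.mem_map.2 ⟨a⁻¹ * y * a, ?_, by simp⟩
          simpa using hnorm.conj_mem _ hy a⁻¹
      refine step h1 hT2 hT3 hRes hMCI hN2H hIND hX hN h5 hA hadj hlen (N.map K.subtype) K a
        hconj hKeq (hmove a a.2) (ih _ ?_ ?_ ?_)
      · have h2 : Nat.card (N.map K.subtype) = Nat.card N :=
          Nat.card_congr (N.equivMapOfInjective K.subtype K.subtype_injective).toEquiv.symm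
        have h3 : Nat.card N < Nat.card K := by
          have h4 := N.card_mul_index
          have h5 : N.index ≠ 1 := fun h => hne (Subgroup.index_eq_one.1 h)
          have h6 : N.index ≠ 0 := N.index_ne_zero_of_finite
          have h7 := Nat.card_pos (α := N)
          have h8 : 2 ≤ N.index := by omega
          nlinarith
        omega
      · exact Group.isSolvable_of_surjective
          (f := (N.equivMapOfInjective K.subtype K.subtype_injective).toMonoidHom)
          (N.equivMapOfInjective K.subtype K.subtype_injective).surjective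
      · intro k hk
        exact hmove k (hmapK hk)

end GSOL

/-- SOL. -/
theorem tSOL (h1 : T_CQA.{u}) (hT2 : T_T2.{u}) (hT3 : T_T3.{u}) (hRes : T_RES.{u})
    (hLARGE : T_LARGE.{u}) (hTRIG : T_TRIG.{u}) (hH2N : T_H2N.{u}) (hN2H : T_N2H.{u})
    (hIND : T_IND.{u}) (hMCI : T_MCI.{u}) : T_SOL.{u} := by
  intro V G len hX hN h5 H _ _ _ hadj hlen K hsol hmove
  exact ms_of_scon hN2H hIND hMCI hX
    (GSOL.all h1 hT2 hT3 hRes hMCI hN2H hIND hX hN h5 (angled_of_ms hLARGE hTRIG hX) hadj hlen
      (scon_univ_of_ms hH2N hX) (Nat.card K) K le_rfl hsol hmove)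

end Pool.Agent.MSN.Grp
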