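import Pool.Agent.MSN.Grp

set_option autoImplicit false

/-!
# Trace lemma (MP_d6353f_al)
-/

universe u

namespace Pool.Agent.MSN.Grp

namespace GTRC

/-- a homotopy of the identity from exactness -/
lemma exists_homotopy {ι : Type u} [Fintype ι] [DecidableEq ι] (D : Matrix ι ι ℚ)
    (hD : D * D = 0) (hex : ∀ c : ι → ℚ, D.mulVec c = 0 → ∃ e, D.mulVec e = c) :
    ∃ S : Matrix ι ι ℚ, D * S + S * D = 1 := by
  set f : (ι → ℚ) →ₗ[ℚ] (ι → ℚ) := Matrix.toLin' D with hf
  have hff : f ∘ₗ f = 0 := by
    rw [hf, ← Matrix.toLin'_mul, hD, map_zero]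
  obtain ⟨g, hg⟩ := f.rangeRestrict.exists_rightInverse_of_surjective
    (LinearMap.range_eq_top.mpr f.surjective_rangeRestrict)
  have hg1 : ∀ z : LinearMap.range f, f (g z) = z := by
    intro z
    have h := LinearMap.congr_fun hg z
    have h2 := congrArg Subtype.val h
    exact h2
  set q : (ι → ℚ) →ₗ[ℚ] (ι → ℚ) := LinearMap.id - g ∘ₗ f.rangeRestrict with hq
  have hq1 : ∀ x, q x ∈ LinearMap.range f := by
    intro x
    have h0 : D.mulVec (q x) = 0 := by
      have : f (q x) = 0 := by
        rw [hq]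
        simp only [LinearMap.sub_apply, LinearMap.id_apply, LinearMap.comp_apply, map_sub]
        rw [hg1]
        simp
      rwa [hf, Matrix.toLin'_apply] at this
    obtain ⟨e, he⟩ := hex _ h0
    exact ⟨e, by rw [hf, Matrix.toLin'_apply]; exact he⟩
  set s : (ι → ℚ) →ₗ[ℚ] (ι → ℚ) := g ∘ₗ (q.codRestrict (LinearMap.range f) hq1) with hs
  have h1 : f ∘ₗ s + s ∘ₗ f = LinearMap.id := by
    refine LinearMap.ext fun x => ?_
    have e1 : f (s x) = x - g (f.rangeRestrict x) := by
      show f (g (q.codRestrict (LinearMap.range f) hq1 x)) = _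
      rw [hg1]
      rfl
    have e2 : f (f x) = 0 := LinearMap.congr_fun hff x
    have e3 : f.rangeRestrict (f x) = 0 := Subtype.ext e2
    have e4 : q (f x) = f x := by
      show f x - g (f.rangeRestrict (f x)) = f x
      rw [e3, map_zero, sub_zero]
    have e5 : q.codRestrict (LinearMap.range f) hq1 (f x) = f.rangeRestrict x :=
      Subtype.ext e4
    have e6 : s (f x) = g (f.rangeRestrict x) := by
      show g (q.codRestrict (LinearMap.range f) hq1 (f x)) = _
      rw [e5]
    show f (s x) + s (f x) = x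
    rw [e1, e6, sub_add_cancel]
  refine ⟨LinearMap.toMatrix' s, ?_⟩
  have h2 : D = LinearMap.toMatrix' f := by
    rw [hf, LinearMap.toMatrix'_toLin']
  rw [h2, ← LinearMap.toMatrix'_comp, ← LinearMap.toMatrix'_comp, ← map_add, h1,
    LinearMap.toMatrix'_id]

end GTRC

open GTRC in
theorem tTRC : T_TRC.{u} := by
  intro ι _ _ D P J hD hex hP hJ
  obtain ⟨S, hS⟩ := exists_homotopy D hD hex
  have h1 : J * P = J * P * D * S + J * P * S * D := by
    calc J * P = J * P * (D * S + S * D) := by rw [hS, mul_one]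
      _ = J * P * D * S + J * P * S * D := by
        rw [mul_add, ← mul_assoc, ← mul_assoc]
  have h2 : J * P * D * S = -(D * (J * P * S)) := by
    calc J * P * D * S = J * (P * D) * S := by rw [mul_assoc J P D]
      _ = J * D * P * S := by rw [hP, ← mul_assoc]
      _ = -(D * (J * P * S)) := by
        rw [hJ]
        simp only [neg_mul, mul_assoc]
  rw [h1, Matrix.trace_add, h2, Matrix.trace_neg, Matrix.trace_mul_comm (J * P * S) D]
  ring

end Pool.Agent.MSN.Grp
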