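import Pool.Agent.MSN.Lol

/-!
# HEAD: homotopies preserve ends
-/

set_option autoImplicit false

namespace Pool.Agent.MSN

open List Pool.Agent.MSF

universe u

namespace HEAD

variable {V : Type u}

/-- The invariants of homotopies. -/
def Same (G : SimpleGraph V) (S : Set V) (P Q : List V) : Prop :=
  (P ≠ [] ↔ Q ≠ []) ∧ Q.head? = P.head? ∧ Q.getLast? = P.getLast? ∧
    (List.IsChain (resG G S).Adj P ↔ List.IsChain (resG G S).Adj Q) ∧
    ((∀ x ∈ P, x ∈ S) ↔ ∀ x ∈ Q, x ∈ S)

theorem elem_same (G : SimpleGraph V) (S : Set V) {P Q : List V} (h : Elem (resG G S) P Q) :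
    Same G S P Q := by
  cases h with
  | spur p q a b h =>
    have hba : (resG G S).Adj b a := h.symm
    have haS : a ∈ S := h.2.1
    have hbS : b ∈ S := h.2.2
    refine ⟨by simp, by simp [List.head?_append], ?_, ?_, ?_⟩
    · rw [List.getLast?_append_of_ne_nil _ (by simp), List.getLast?_append_of_ne_nil _ (by simp),
        List.getLast?_cons_cons, List.getLast?_cons_cons]
    · rw [List.isChain_split, List.isChain_split (l₁ := p) (l₂ := b :: a :: q),
        List.isChain_cons_cons, List.isChain_cons_cons]
      tauto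
    · simp only [List.mem_append, List.mem_cons]
      constructor
      · intro h1 x hx
        rcases hx with hx | rfl | rfl | rfl | hx
        · exact h1 x (Or.inl hx)
        · exact haS
        · exact hbS
        · exact haS
        · exact h1 x (Or.inr (Or.inr hx))
      · intro h1 x hx
        rcases hx with hx | rfl | hx
        · exact h1 x (Or.inl hx)
        · exact haS
        · exact h1 x (Or.inr (Or.inr (Or.inr (Or.inr hx))))
  | tri p q a b c hab hbc hac =>
    have haS : a ∈ S := hab.2.1
    have hbS : b ∈ S := hab.2.2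
    have hcS : c ∈ S := hac.2.2
    refine ⟨by simp, by simp [List.head?_append], ?_, ?_, ?_⟩
    · rw [List.getLast?_append_of_ne_nil _ (by simp), List.getLast?_append_of_ne_nil _ (by simp),
        List.getLast?_cons_cons, List.getLast?_cons_cons, List.getLast?_cons_cons]
    · rw [List.isChain_split, List.isChain_split (l₁ := p) (l₂ := b :: c :: q),
        List.isChain_cons_cons, List.isChain_cons_cons, List.isChain_cons_cons]
      tauto
    · simp only [List.mem_append, List.mem_cons]
      constructor
      · intro h1 x hx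
        rcases hx with hx | rfl | rfl | rfl | hx
        · exact h1 x (Or.inl hx)
        · exact haS
        · exact hbS
        · exact hcS
        · exact h1 x (Or.inr (Or.inr (Or.inr hx)))
      · intro h1 x hx
        rcases hx with hx | rfl | rfl | hx
        · exact h1 x (Or.inl hx)
        · exact haS
        · exact hcS
        · exact h1 x (Or.inr (Or.inr (Or.inr (Or.inr hx))))

theorem same (G : SimpleGraph V) (S : Set V) {P Q : List V}
    (h : Relation.EqvGen (Elem (resG G S)) P Q) : Same G S P Q := by
  induction h with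
  | rel P Q h => exact elem_same G S h
  | refl P => exact ⟨Iff.rfl, rfl, rfl, Iff.rfl, Iff.rfl⟩
  | symm P Q _ ih => exact ⟨ih.1.symm, ih.2.1.symm, ih.2.2.1.symm, ih.2.2.2.1.symm, ih.2.2.2.2.symm⟩
  | trans P Q R _ _ ih1 ih2 =>
    exact ⟨ih1.1.trans ih2.1, ih2.2.1.trans ih1.2.1, ih2.2.2.1.trans ih1.2.2.1,
      ih1.2.2.2.1.trans ih2.2.2.2.1, ih1.2.2.2.2.trans ih2.2.2.2.2⟩

end HEAD

theorem tHEAD : T_HEAD.{u} := by
  intro V G S P Q hP h
  obtain ⟨h1, h2, h3, h4, h5⟩ := HEAD.same G S h
  exact ⟨h1.mp hP, h2, h3, h4.mp, h5.mp⟩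

end Pool.Agent.MSN
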