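import Pool.Agent.MSN.WDefs
import Pool.Agent.MSF.N2H
import Pool.Agent.MSF.H2N

/-!
# INJA: injectivity for homotopies of paths, from the statement for cyclic lists
-/

set_option autoImplicit false

namespace Pool.Agent.MSN

open List Pool.Agent.MSF

universe u

namespace INJA

variable {V : Type u}

theorem chain_all {R : V → V → Prop} {P : V → Prop} (hR : ∀ a b, R a b → P b) :
    ∀ (L : List V) (x : V), List.IsChain R (x :: L) → ∀ y ∈ L, P y := by
  intro L
  induction L with
  | nil =>
    intro x _ y hy
    simp at hy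
  | cons z L ih =>
    intro x h y hy
    rw [List.isChain_cons_cons] at h
    rcases List.mem_cons.1 hy with rfl | hy
    · exact hR _ _ h.1
    · exact ih z h.2 y hy

end INJA

theorem tINJA : T_INJA.{u} := by
  intro hZ hN V G ang hA v a p hva hch heq
  rcases eq_or_ne p [] with rfl | hne
  · simp only [List.nil_append, List.isChain_cons_cons] at hch
    exact absurd hch.1 ((lkG G v).loopless.irrefl a)
  · obtain ⟨m, hm⟩ := (H2N.eqv_iff hZ heq).2 ⟨0, Or.inl ⟨a, rfl⟩⟩
    have h3 : NullR (delG G v) m ((a :: p) ++ [a]) := by simpa using hm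
    obtain ⟨l, _, he, hn⟩ := H2N.out (by simp) h3
    rw [← he] at hn
    have hall : ∀ x ∈ a :: p, G.Adj v x := by
      intro x hx
      rcases List.mem_cons.1 hx with rfl | hx
      · exact hva
      · exact INJA.chain_all (R := (lkG G v).Adj) (P := fun y => G.Adj v y)
          (fun _ _ h => h.2.2) (p ++ [a]) a hch x (List.mem_append_left _ hx)
    have hcw : CW G (a :: p) := by
      rw [CW_cons hne]
      exact hch.imp fun _ _ h => h.1
    obtain ⟨A, hA'⟩ := hN G ang hA v (a :: p) hall hcw ⟨m, hn⟩
    exact N2H.null_homotopic hA' a p rfl hne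

end Pool.Agent.MSN
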