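import Pool.Agent.MSN.WDefs
import Pool.Agent.MSF.T3

/-!
# INJN: a closed walk in the link of `v` which is null in the complement of `v` is null in the link
-/

namespace Pool.Agent.MSN

open List Pool.Agent.MSF

universe u

namespace INJN

variable {V : Type u} {G : SimpleGraph V}

/-- Data of a path `L` from `x` to `z` in the link of `y` that can replace `x y z`. -/
structure GoodB (G : SimpleGraph V) (ang : V → V → V → ℝ) (v x y : V) (R : List V) (A : ℕ)
    (B : ℝ) (L : List V) : Prop where
  head : L.head? = some x
  last : L.getLast? = some y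
  chain : List.IsChain G.Adj L
  link : ∀ z ∈ L, G.Adj v z
  len : plen ang v L < B
  null : ∃ k, Null G k (L ++ R) ∧ k + L.length ≤ A + 1

theorem good_form {ang : V → V → V → ℝ} {v x y : V} {R : List V} {A : ℕ} {B : ℝ} {L : List V}
    (h : GoodB G ang v x y R A B L) (hxy : x ≠ y) : ∃ F, L = x :: (F ++ [y]) := by
  cases L with
  | nil => have := h.head; simp at this
  | cons a L =>
    have h1 : a = x := by have := h.head; simpa using this
    subst h1
    rcases List.eq_nil_or_concat L with rfl | ⟨F, b, rfl⟩
    · have := h.last
      simp at this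
      exact absurd this hxy
    · have h2 : b = y := by
        have h0 := h.last
        have e : a :: F.concat b = (a :: F) ++ [b] := by simp
        rw [e, List.getLast?_append] at h0
        simpa using h0
      subst h2
      exact ⟨F, by simp⟩

theorem good_drop1 {ang : V → V → V → ℝ} (hA : Angled G ang) {v x y : V} {R : List V} {A : ℕ}
    {B : ℝ} {X Y : List V} {p q r : V} (h : GoodB G ang v x y R A B (X ++ p :: q :: r :: Y))
    (hpr : G.Adj p r) : GoodB G ang v x y R A B (X ++ p :: r :: Y) := by
  have hch := h.chain
  rw [List.isChain_append_cons_cons] at hch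
  have hpq : G.Adj p q := hch.2.1
  have hqr : G.Adj q r := by
    have := hch.2.2
    rw [List.isChain_cons_cons] at this
    exact this.1
  have hlast := h.last
  refine ⟨?_, ?_, ?_, ?_, ?_, ?_⟩
  · have := h.head
    cases X <;> simpa using this
  · have e1 : (X ++ p :: q :: r :: Y).getLast? = (X ++ p :: r :: Y).getLast? := by
      simp [List.getLast?_append, List.getLast?_cons_cons]
    rw [← e1]; exact hlast
  · rw [List.isChain_append_cons_cons]
    refine ⟨hch.1, hpr, ?_⟩
    have := hch.2.2
    rw [List.isChain_cons_cons] at this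
    exact this.2
  · intro z hz
    apply h.link
    simp only [List.mem_append, List.mem_cons] at hz ⊢
    tauto
  · refine lt_of_le_of_lt ?_ h.len
    rw [T3.plen_append, T3.plen_append ang v X p (q :: r :: Y)]
    simp only [plen]
    have := hA.link v p q r (h.link p (by simp)) (h.link q (by simp)) (h.link r (by simp))
      hpq hqr hpr
    linarith
  · obtain ⟨k, hk, hk2⟩ := h.null
    refine ⟨k + 1, ?_, ?_⟩
    · have : Null G k (X ++ p :: q :: r :: (Y ++ R)) := by simpa using hk
      simpa using this.triAt hpr hpq hqr
    · simp only [List.length_append, List.length_cons] at hk2 ⊢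
      omega

theorem good_drop2 (hZ : T_ZIP.{u}) {ang : V → V → V → ℝ} (hA : Angled G ang) {v x y : V}
    {R : List V} {A : ℕ} {B : ℝ}
    {X Y : List V} {p q : V} (h : GoodB G ang v x y R A B (X ++ p :: q :: p :: Y))
    (hxy : x ≠ y) : GoodB G ang v x y R A B (X ++ p :: Y) := by
  have hch := h.chain
  rw [List.isChain_append_cons_cons] at hch
  have hpq : G.Adj p q := hch.2.1
  have hch2 := hch.2.2
  rw [List.isChain_cons_cons] at hch2
  refine ⟨?_, ?_, ?_, ?_, ?_, ?_⟩
  · have := h.head
    cases X <;> simpa using this
  · have e1 : (X ++ p :: q :: p :: Y).getLast? = (X ++ p :: Y).getLast? := by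
      simp [List.getLast?_append, List.getLast?_cons_cons]
    rw [← e1]; exact h.last
  · rw [List.isChain_split]
    exact ⟨hch.1, hch2.2⟩
  · intro z hz
    apply h.link
    simp only [List.mem_append, List.mem_cons] at hz ⊢
    tauto
  · refine lt_of_le_of_lt ?_ h.len
    rw [T3.plen_append, T3.plen_append ang v X p (q :: p :: Y)]
    simp only [plen]
    have h1 := hA.pos v p q (h.link p (by simp)) (h.link q (by simp)) hpq
    have h2 := hA.pos v q p (h.link q (by simp)) (h.link p (by simp)) hpq.symm
    linarith
  · obtain ⟨k, hk, hk2⟩ := h.null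
    refine ⟨k, ?_, ?_⟩
    · have h1 : Null G k (X ++ p :: q :: p :: (Y ++ R)) := by simpa using hk
      have h2 := hZ G k p q X (Y ++ R) ?_ h1
      · simpa using h2
      · intro h0
        obtain ⟨h3, rfl⟩ := List.append_eq_nil_iff.1 h0
        obtain ⟨rfl, rfl⟩ := List.append_eq_nil_iff.1 h3
        have e1 := h.head
        have e2 := h.last
        simp at e1 e2
        exact hxy (e1.symm.trans e2)
    · simp only [List.length_append, List.length_cons] at hk2 ⊢
      omega

/-- A minimal good path has no ears. -/
theorem good_noEar (hZ : T_ZIP.{u}) {ang : V → V → V → ℝ} (hA : Angled G ang) {v x y : V}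
    {R : List V} {A : ℕ} {B : ℝ} {L : List V} (h : GoodB G ang v x y R A B L) (hxy : x ≠ y)
    (hmin : ∀ L', GoodB G ang v x y R A B L' → L.length ≤ L'.length) : NoEar G L := by
  intro X p q r Y hL
  subst hL
  constructor
  · rintro rfl
    have := hmin _ (good_drop2 hZ hA h hxy)
    simp only [List.length_append, List.length_cons] at this
    omega
  · intro hpr
    have := hmin _ (good_drop1 hA h hpr)
    simp only [List.length_append, List.length_cons] at this
    omega

theorem exists_of_sum_pos (f : Corner V → ℝ) : ∀ D : List (Corner V),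
    0 < (D.map f).sum → ∃ D₁ d D₂, D = D₁ ++ d :: D₂ ∧ 0 < f d
  | [], h => by simp at h
  | (c :: D), h => by
    by_cases hc : 0 < f c
    · exact ⟨[], c, D, rfl, hc⟩
    · simp only [List.map_cons, List.sum_cons] at h
      obtain ⟨D₁, d, D₂, rfl, hd⟩ := exists_of_sum_pos f D (by linarith)
      exact ⟨c :: D₁, d, D₂, rfl, hd⟩

/-- The sum of the angles at the boundary of the triangles with apex `v`. -/
theorem cone_sum {ang : V → V → V → ℝ} (hA : Angled G ang) {v : V} :
    ∀ (c : Corner V) (D : List (Corner V)) (e : Corner V),
      List.IsChain Corner.Next (c :: (D ++ [e])) →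
      (∀ d ∈ c :: (D ++ [e]), G.Adj v d.v ∧ G.Adj d.v d.n) →
      ((c :: D).map fun d => ang d.v v d.n).sum + ((D ++ [e]).map fun d => ang d.v v d.p).sum ≤
        ((D.length : ℝ) + 1) * Real.pi := by
  intro c D
  have key : ∀ c d : Corner V, Corner.Next c d → G.Adj v c.v → G.Adj c.v c.n → G.Adj v d.v →
      ang c.v v c.n + ang d.v v d.p ≤ Real.pi := by
    intro c d h h1 h2 h3
    have h4 : G.Adj c.v d.v := by rw [← h.1]; exact h2
    have h5 := hA.sum_le v c.v d.v h1 h4 h3
    have h6 := hA.pos v c.v d.v h1 h3 h4
    rw [h.1, h.2]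
    have h7 := hA.symm d.v v c.v
    linarith
  induction D generalizing c with
  | nil =>
    intro e hch hd
    simp only [List.nil_append, List.isChain_cons_cons] at hch
    have := key c e hch.1 (hd c (by simp)).1 (hd c (by simp)).2 (hd e (by simp)).1
    simpa using this
  | cons d D ih =>
    intro e hch hd
    simp only [List.cons_append, List.isChain_cons_cons] at hch
    have h1 := key c d hch.1 (hd c (by simp)).1 (hd c (by simp)).2 (hd d (by simp)).1
    have h2 := ih d e (by simpa using hch.2) (fun x hx => hd x (by
      simp only [List.cons_append, List.mem_cons] at hx ⊢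
      tauto))
    simp only [List.map_cons, List.sum_cons, List.cons_append, List.length_cons,
      Nat.cast_add, Nat.cast_one] at h2 ⊢
    linarith

/-- The walk around a corner, in normal form. -/
theorem corner_form {A : ℕ} {w : List V} (hw3 : 3 ≤ w.length)
    {D₁ D₂ : List (Corner V)} {d : Corner V} (hDw : (D₁ ++ d :: D₂).map Corner.v = w)
    (hDc : CycC (D₁ ++ d :: D₂))
    (hDm : ∀ M : List (Corner V × Bool), M.map Prod.fst = D₁ ++ d :: D₂ → MarksOK G M →
      ∃ k, Null G k (expand M) ∧ k + cost M ≤ A) :
    ∃ R : List V, w ~r (d.p :: d.v :: d.n :: R) ∧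
      ∃ k, Null G k (d.p :: (d.F ++ d.n :: R)) ∧ k + d.F.length + 1 ≤ A := by
  obtain ⟨k, hk1, hk2⟩ := hDm (D₁.map (fun c => (c, false)) ++ (d, true) ::
    D₂.map (fun c => (c, false))) (by
      simp only [List.map_append, List.map_map, List.map_cons]
      congr 1
      · simp [Function.comp_def]
      · simp [Function.comp_def]) (by
      unfold MarksOK
      rw [List.pairwise_append]
      refine ⟨?_, ?_, ?_⟩
      · rw [List.pairwise_map]
        exact List.pairwise_of_forall (fun _ _ h => by simp at h)
      · rw [List.pairwise_cons]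
        refine ⟨?_, ?_⟩
        · intro a ha _ h2
          rw [List.mem_map] at ha
          obtain ⟨b, _, rfl⟩ := ha
          simp at h2
        · rw [List.pairwise_map]
          exact List.pairwise_of_forall (fun _ _ h => by simp at h)
      · intro a ha b _ h1
        rw [List.mem_map] at ha
        obtain ⟨b, _, rfl⟩ := ha
        simp at h1)
  have e1 : expand (D₁.map (fun c => (c, false)) ++ (d, true) ::
      D₂.map (fun c => (c, false))) = D₁.map Corner.v ++ (d.F ++ D₂.map Corner.v) := by
    rw [T3.expand_false]
    congr 1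
    simp only [expand]
    have := T3.expand_false D₂ []
    simp only [List.append_nil, expand] at this
    rw [this]
    simp
  have e2 : cost (D₁.map (fun c => (c, false)) ++ (d, true) ::
      D₂.map (fun c => (c, false))) = d.F.length + 1 := by
    rw [T3.cost_false]
    simp only [cost]
    have := T3.cost_false D₂ []
    simp only [List.append_nil, cost] at this
    rw [this]
    simp
  rw [e1] at hk1
  rw [e2] at hk2
  have hlen : 2 ≤ (D₂ ++ D₁).length := by
    rw [← hDw] at hw3
    simp only [List.length_map, List.length_append, List.length_cons] at hw3 ⊢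
    omega
  -- the rotated list of corners
  have hcyc : CycC (d :: (D₂ ++ D₁)) := by
    refine T3.cycC_rotated hDc ?_
    have := List.isRotated_append (l := D₁) (l' := d :: D₂)
    simpa using this
  obtain ⟨e, E, f, hE⟩ : ∃ e E f, D₂ ++ D₁ = e :: (E ++ [f]) := by
    cases h0 : D₂ ++ D₁ with
    | nil => rw [h0] at hlen; simp at hlen
    | cons e E =>
      rcases List.eq_nil_or_concat E with rfl | ⟨E', f, rfl⟩
      · rw [h0] at hlen; simp at hlen
      · exact ⟨e, E', f, by simp⟩
  rw [hE] at hcyc
  simp only [CycC] at hcyc
  have hcyc1 : d.n = e.v ∧ e.p = d.v := by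
    rw [List.cons_append, List.isChain_cons_cons] at hcyc
    exact hcyc.1
  have hcyc2 : f.n = d.v ∧ d.p = f.v := by
    have e0 : d :: (e :: (E ++ [f]) ++ [d]) = (d :: e :: E) ++ f :: [d] := by simp
    rw [e0, List.isChain_append_cons_cons] at hcyc
    exact hcyc.2.1
  have hv : D₂.map Corner.v ++ D₁.map Corner.v = d.n :: (E.map Corner.v ++ [d.p]) := by
    rw [← List.map_append, hE, hcyc1.1, hcyc2.2]
    simp
  refine ⟨E.map Corner.v, ?_, k, ?_, ?_⟩
  · rw [← hDw]
    have h1 : (D₁ ++ d :: D₂).map Corner.v ~r (d.v :: (D₂.map Corner.v ++ D₁.map Corner.v)) := by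
      have := List.isRotated_append (l := D₁.map Corner.v) (l' := d.v :: D₂.map Corner.v)
      simpa using this
    rw [hv] at h1
    refine h1.trans ?_
    have := List.isRotated_append (l := d.v :: d.n :: E.map Corner.v) (l' := [d.p])
    simpa using this
  · have h1 : Null G k ((d.F ++ D₂.map Corner.v) ++ D₁.map Corner.v) := hk1.swap
    rw [List.append_assoc, hv] at h1
    have h2 : Null G k ((d.F ++ d.n :: E.map Corner.v) ++ [d.p]) := by simpa using h1
    simpa using h2.swap
  · omega

theorem chain_res {S : Set V} {L : List V} (h : List.IsChain G.Adj L) (hS : ∀ x ∈ L, x ∈ S) :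
    List.IsChain (resG G S).Adj L := by
  induction L with
  | nil => exact List.isChain_nil
  | cons a L ih =>
    cases L with
    | nil => exact List.isChain_singleton _
    | cons b L =>
      rw [List.isChain_cons_cons] at h ⊢
      exact ⟨⟨h.1, hS a (by simp), hS b (by simp)⟩, ih h.2 fun x hx => hS x (by simp [hx])⟩

theorem cw_res {S : Set V} {w : List V} (h : CW G w) (hS : ∀ x ∈ w, x ∈ S) :
    CW (resG G S) w := by
  match w, h with
  | [_], _ => trivial
  | (a :: b :: l), h =>
    refine chain_res (S := S) h ?_
    intro x hx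
    apply hS
    simp only [List.mem_cons, List.mem_append, List.not_mem_nil, or_false] at hx ⊢
    tauto

theorem main (hD : T_DS.{u}) (hC : T_CONE.{u}) (hZ : T_ZIP.{u}) (hR : T_RES.{u})
    {ang : V → V → V → ℝ} (hA : Angled G ang) (v : V) :
    ∀ (A n : ℕ) (w : List V), w.length = n → Null (delG G v) A w →
      CW (lkG G v) w → ∃ B, Null (lkG G v) B w := by
  have hA' : Angled (delG G v) ang := hR G ang _ hA
  intro A
  induction A using Nat.strong_induction_on with
  | _ A ihA =>
  intro n
  induction n using Nat.strong_induction_on with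
  | _ n ihn =>
  intro w hwn hw hcw
  by_cases hw3 : w.length < 3
  · match w, hcw, hw3 with
    | [], h, _ => exact absurd h id
    | [a], _, _ => exact ⟨0, Null.pt a⟩
    | [a, b], h, _ =>
      simp only [CW, List.nil_append, List.isChain_cons_cons] at h
      exact ⟨0, Null.dig h.1⟩
    | (a :: b :: c :: l), _, h =>
      simp only [List.length_cons] at h
      omega
  push Not at hw3
  by_cases hmin : MinA (delG G v) A w
  swap
  · have : ∃ k, k < A ∧ Null (delG G v) k w := by
      unfold MinA at hmin
      push Not at hmin
      obtain ⟨k, hk, hk2⟩ := hmin hw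
      exact ⟨k, hk2, hk⟩
    obtain ⟨k, hk, hk2⟩ := this
    exact ihA k hk _ w rfl hk2 hcw
  by_cases hirr : Irr (delG G v) A w
  swap
  · unfold Irr at hirr
    push Not at hirr
    obtain ⟨c, s, t, m, n', hr, hs, ht, h1, h2, h3⟩ := hirr
    have hc2 := hcw.rotated hr
    obtain ⟨hc3, hc4⟩ := CW_unsplit hs ht hc2
    have hlen : w.length = s.length + t.length + 2 := by
      rw [hr.perm.length_eq]
      simp only [List.length_cons, List.length_append]
      omega
    have hs' := List.length_pos_iff.2 hs
    have ht' := List.length_pos_iff.2 ht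
    have key : ∀ (m' : ℕ) (s' : List V), m' ≤ A → (c :: s').length < w.length →
        Null (delG G v) m' (c :: s') → CW (lkG G v) (c :: s') →
        ∃ B, Null (lkG G v) B (c :: s') := by
      intro m' s' hm' hl hn hc
      rcases Nat.lt_or_ge m' A with h | h
      · exact ihA m' h _ _ rfl hn hc
      · have : m' = A := by omega
        subst this
        exact ihn _ (by omega) _ rfl hn hc
    obtain ⟨B1, hB1⟩ := key m s (by omega) (by simp only [List.length_cons]; omega) h1 hc3
    obtain ⟨B2, hB2⟩ := key n' t (by omega) (by simp only [List.length_cons]; omega) h2 hc4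
    exact ⟨B1 + B2, (Null.split hs ht hB1 hB2).rotated hr.symm⟩
  obtain ⟨D, hDw, hDc, hDk, hDs, hDm⟩ := hD (delG G v) ang hA' A w hw3 hmin hirr
  -- a corner with a small angle
  have hlkw : ∀ x ∈ w, G.Adj v x := by
    intro x hx
    match w, hcw, hw3 with
    | (a :: b :: l), h, _ =>
      have h1 : List.IsChain (lkG G v).Adj (a :: (b :: (l ++ [a]))) := h
      have h2 : ∀ (L : List V) (a : V), List.IsChain (lkG G v).Adj (a :: L) → L ≠ [] →
          ∀ x ∈ a :: L, G.Adj v x := by
        intro L
        induction L with
        | nil => intro a _ h _; exact absurd rfl h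
        | cons b L ih =>
          intro a h _ x hx
          rw [List.isChain_cons_cons] at h
          rcases List.mem_cons.1 hx with rfl | hx
          · exact h.1.2.1
          · cases L with
            | nil =>
              simp only [List.mem_singleton] at hx
              subst hx
              exact h.1.2.2
            | cons c L => exact ih b h.2 (by simp) x hx
      refine h2 _ a h1 (by simp) x ?_
      simp only [List.mem_cons, List.mem_append, List.not_mem_nil, or_false] at hx ⊢
      tauto
  have hDv : ∀ d ∈ D, G.Adj v d.v := fun d hd => hlkw _ (by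
    rw [← hDw]; exact List.mem_map_of_mem hd)
  have hsum : 0 < (D.map fun c => 2 * Real.pi - c.th - ang c.v v c.n - ang c.v v c.p).sum := by
    match D, hDc, hDk, hDs, hDv with
    | (c :: D), hc, hk, hs, hv =>
      have h1 := cone_sum hA (v := v) c D c hc (fun d hd => by
        have hd' : d ∈ c :: D := by
          simp only [List.mem_cons, List.mem_append, List.not_mem_nil, or_false] at hd ⊢
          tauto
        exact ⟨hv d hd', ((hk d hd').link d.n (by simp)).1⟩)
      have h2 : ((D ++ [c]).map fun d => ang d.v v d.p).sum =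
          ((c :: D).map fun d => ang d.v v d.p).sum := by
        simp only [List.map_append, List.sum_append, List.map_cons, List.map_nil, List.sum_cons,
          List.sum_nil]
        ring
      rw [h2] at h1
      have h3 : ∀ L : List (Corner V),
          (L.map fun c => 2 * Real.pi - c.th - ang c.v v c.n - ang c.v v c.p).sum =
          (L.map fun c => Real.pi - c.th).sum + (L.length : ℝ) * Real.pi -
            (L.map fun d => ang d.v v d.n).sum - (L.map fun d => ang d.v v d.p).sum := by
        intro L
        induction L with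
        | nil => simp
        | cons a L ih =>
          simp only [List.map_cons, List.sum_cons, List.length_cons, Nat.cast_add,
            Nat.cast_one]
          rw [ih]
          ring
      rw [h3]
      have := Real.pi_pos
      simp only [List.length_cons, Nat.cast_add, Nat.cast_one]
      linarith
  obtain ⟨D₁, d, D₂, rfl, hd⟩ := exists_of_sum_pos _ D hsum
  have hk := hDk d (by simp)
  obtain ⟨R, hr, k, hk1, hk2⟩ := corner_form hw3 hDw hDc hDm
  generalize hxe : d.p = x at hr hk1 hd
  generalize hye : d.v = y at hr hk1 hd
  generalize hze : d.n = z at hr hk1 hd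
  have hch := hk.chain
  have hlk := hk.link
  have hth := hk.len
  rw [hxe, hze] at hch hlk hth
  rw [hye] at hlk hth
  generalize d.F = F at hk1 hk2 hch hlk hth
  rw [hth] at hd
  have hcw2 : CW (lkG G v) (x :: y :: z :: R) := hcw.rotated hr
  suffices h : ∃ B, Null (lkG G v) B (x :: y :: z :: R) by
    obtain ⟨B, hB⟩ := h
    exact ⟨B, hB.rotated hr.symm⟩
  have hcw3 := hcw2
  simp only [CW, List.cons_append, List.isChain_cons_cons] at hcw3
  obtain ⟨hxy, hyz, hzR⟩ := hcw3
  have hvx : G.Adj v x := hxy.2.1
  have hvy : G.Adj v y := hxy.2.2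
  have hvz : G.Adj v z := hyz.2.2
  have hxz : x ≠ z := by
    rintro rfl
    cases R with
    | nil => simp at hzR
    | cons r R =>
      have hw2 : Null (delG G v) A (x :: y :: x :: r :: R) := hw.rotated hr
      have h1 : Null (delG G v) A ([] ++ x :: (r :: R)) :=
        hZ (delG G v) A x y [] (r :: R) (by simp) (by simpa using hw2)
      have := hirr x [y] (r :: R) 0 A (by simpa using hr) (by simp) (by simp)
        (Null.dig ⟨hxy.1, hvx.ne', hvy.ne'⟩) (by simpa using h1)
      omega
  set Bd : ℝ := 2 * Real.pi - ang y v z - ang y v x with hBd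
  have hgood : GoodB (delG G v) ang y x z R A Bd (x :: (F ++ [z])) := by
    refine ⟨by simp, ?_, hch, hlk, by rw [hBd]; linarith, k, by simpa using hk1, ?_⟩
    · have e : x :: (F ++ [z]) = (x :: F) ++ [z] := by simp
      rw [e, List.getLast?_append]
      simp
    · simp only [List.length_cons, List.length_append, List.length_nil]
      omega
  obtain ⟨L, hL, hLmin⟩ : ∃ L, GoodB (delG G v) ang y x z R A Bd L ∧
      ∀ L', GoodB (delG G v) ang y x z R A Bd L' → L.length ≤ L'.length := by
    classical
    have hex : ∃ n, ∃ L, GoodB (delG G v) ang y x z R A Bd L ∧ L.length = n := ⟨_, _, hgood, rfl⟩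
    obtain ⟨L, hL, hLn⟩ := Nat.find_spec hex
    refine ⟨L, hL, fun L' hL' => ?_⟩
    rw [hLn]
    exact Nat.find_min' hex ⟨L', hL', rfl⟩
  have hne := good_noEar hZ hA' hL hxz hLmin
  obtain ⟨F', rfl⟩ := good_form hL hxz
  obtain ⟨k', hk'1, hk'2⟩ := hL.null
  simp only [List.length_cons, List.length_append, List.length_nil] at hk'2
  rcases List.eq_nil_or_concat F' with rfl | ⟨F'', f, rfl⟩
  · have hxz' : G.Adj x z := by
      have := hL.chain
      simp only [List.nil_append, List.isChain_cons_cons] at this
      exact this.1.1
    have hxzL : (lkG G v).Adj x z := ⟨hxz', hvx, hvz⟩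
    obtain ⟨B, hB⟩ := ihA k' (by simp at hk'2; omega) _ (x :: z :: R) rfl (by simpa using hk'1) (by
      simp only [CW, List.isChain_cons_cons]
      exact ⟨hxzL, hzR⟩)
    have h0 : Null (lkG G v) B ([] ++ x :: z :: R) := by simpa using hB
    exact ⟨B + 1, by simpa using h0.push hxy hyz hxzL⟩
  · have hF : F''.concat f = F'' ++ [f] := by simp
    rw [hF] at hL hne hk'1 hk'2
    have hchG : List.IsChain G.Adj (x :: ((F'' ++ [f]) ++ [z])) :=
      List.IsChain.imp (fun _ _ h => h.1) hL.chain
    have hyf : (delG G v).Adj y f := hL.link f (by simp)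
    have hfz : (delG G v).Adj f z := by
      have := hL.chain
      have e : x :: ((F'' ++ [f]) ++ [z]) = (x :: F'') ++ f :: [z] := by simp
      rw [e, List.isChain_append_cons_cons] at this
      exact this.2.1
    -- the last vertex of the path is adjacent to `v`
    have hvf : G.Adj v f := by
      by_contra hcon
      have hlarge := hA.large y v x ((F'' ++ [f]) ++ [z]) (by simp) (by
        simp only [CW, List.isChain_cons_cons]
        refine ⟨hvx, ?_⟩
        have e : x :: (((F'' ++ [f]) ++ [z]) ++ [v]) = (x :: (F'' ++ [f])) ++ z :: [v] := by simp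
        rw [e, List.isChain_split]
        refine ⟨by simpa using hchG, ?_⟩
        simpa using hvz.symm) (by
        intro t ht
        rcases List.mem_cons.1 ht with rfl | ht
        · exact hvy.symm
        · exact (hL.link t ht).1) (by
        intro X p q r Y hXY
        rcases List.eq_nil_or_concat Y with rfl | ⟨Y', t, rfl⟩
        · have h1 : (x :: F'') ++ [f, z, v] = X ++ [p, q, r] := by
            rw [← hXY]; simp
          have h2 := List.append_inj' h1 (by simp)
          have h3 := h2.2
          simp only [List.cons.injEq, and_true] at h3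
          obtain ⟨rfl, rfl, rfl⟩ := h3
          exact ⟨hyf.2.2, fun h => hcon h.symm⟩
        · have h1 : (x :: ((F'' ++ [f]) ++ [z])) ++ [v] = (X ++ p :: q :: r :: Y') ++ [t] := by
            have e1 : (x :: ((F'' ++ [f]) ++ [z])) ++ [v] =
                x :: (((F'' ++ [f]) ++ [z]) ++ [v]) := by simp
            rw [e1, hXY]
            simp
          have h2 := List.append_inj' h1 (by simp)
          have h3 := hne X p q r Y' h2.1
          refine ⟨h3.1, fun hpr => h3.2 ⟨hpr, ?_, ?_⟩⟩
          · exact (hL.link p (by rw [h2.1]; simp)).2.2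
          · exact (hL.link r (by rw [h2.1]; simp)).2.2)
      have hcl : clen ang y (v :: x :: ((F'' ++ [f]) ++ [z])) =
          ang y v x + plen ang y (x :: ((F'' ++ [f]) ++ [z])) + ang y z v := by
        have e : v :: (x :: ((F'' ++ [f]) ++ [z]) ++ [v]) =
          (v :: x :: (F'' ++ [f])) ++ z :: [v] := by simp
        simp only [clen]
        rw [e, T3.plen_append]
        simp [plen]
      have hlen := hL.len
      have hs := hA.symm y z v
      rw [hcl] at hlarge
      rw [hBd] at hlen
      linarith
    have h1 := hC (delG G v) k' y x f F'' (z :: R) (by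
      have := hL.chain
      have e : x :: ((F'' ++ [f]) ++ [z]) = (x :: F'') ++ f :: [z] := by simp
      rw [e, List.isChain_split] at this
      simpa using this.1) (by
      intro t ht
      exact hL.link t (by simp at ht ⊢; tauto)) (by simpa using hk'1)
    have hyfL : (lkG G v).Adj y f := ⟨hyf.1, hvy, hvf⟩
    have hfzL : (lkG G v).Adj f z := ⟨hfz.1, hvf, hvz⟩
    obtain ⟨B, hB⟩ := ihA (k' + F''.length + 1) (by simp at hk'2; omega) _ _ rfl h1 (by
      simp only [CW, List.cons_append, List.isChain_cons_cons]
      exact ⟨hxy, hyfL, hfzL, hzR⟩)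
    have h4 : Null (lkG G v) B ([x] ++ y :: f :: z :: R) := by simpa using hB
    exact ⟨B + 1, by simpa using h4.triAt hyz hyfL hfzL⟩

end INJN

theorem tINJN (h1 : Pool.Agent.MSF.T_DS.{u}) (h2 : Pool.Agent.MSF.T_CONE.{u})
    (h3 : Pool.Agent.MSF.T_ZIP.{u}) (h4 : Pool.Agent.MSF.T_RES.{u}) : T_INJN.{u} := by
  intro V G ang hA v w hv hcw hnull
  obtain ⟨A, hA'⟩ := hnull
  exact INJN.main h1 h2 h3 h4 hA v A _ w rfl hA' (INJN.cw_res hcw hv)

end Pool.Agent.MSN
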