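import Pool.Agent.MSN.Targets

/-!
# Basic invariants of planar discs
-/

namespace Pool.Agent.MSN

open List Pool.Agent.MSF

universe u

variable {N : Type u}

namespace INV

/-! ### Cyclic chains -/

lemma rot_split {α : Type*} {l m : List α} (h : l ~r m) : ∃ X Y, l = X ++ Y ∧ m = Y ++ X := by
  obtain ⟨n, hn⟩ := h
  rw [List.rotate_eq_drop_append_take_mod] at hn
  exact ⟨l.take (n % l.length), l.drop (n % l.length), (List.take_append_drop _ _).symm, hn.symm⟩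

lemma of_chain {α : Type*} {R : α → α → Prop} {c₀ : α} {l : List α}
    (h : List.IsChain R (c₀ :: (l ++ [c₀]))) {c c' : α} {L' : List α}
    (hr : (c₀ :: l) ~r (c :: c' :: L')) : R c c' := by
  rw [List.isChain_iff_forall_rel_of_append_cons_cons] at h
  obtain ⟨X, Y, h1, h2⟩ := rot_split hr
  match Y, h1, h2 with
  | [], h1, h2 =>
    simp only [List.append_nil, List.nil_append] at h1 h2
    rw [← h2] at h1
    injection h1 with h3 h4
    refine h (l₁ := []) (l₂ := L' ++ [c₀]) ?_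
    rw [h3, h4]
    simp
  | [y], h1, h2 =>
    simp only [List.cons_append, List.nil_append] at h2
    injection h2 with h3 h4
    rw [← h4, ← h3] at h1
    simp only [List.cons_append] at h1
    injection h1 with h5 h6
    refine h (l₁ := c₀ :: L') (l₂ := []) ?_
    rw [h6, h5]
    simp
  | y :: y' :: Y', h1, h2 =>
    simp only [List.cons_append] at h2
    injection h2 with h3 h4
    injection h4 with h5 h6
    refine h (l₁ := X) (l₂ := Y' ++ [c₀]) ?_
    rw [← List.cons_append, h1, h3, h5]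
    simp

lemma exists_rot {α : Type*} {c₀ : α} {l : List α} (hl : l ≠ []) {c c' : α} {X Y : List α}
    (h : c₀ :: (l ++ [c₀]) = X ++ c :: c' :: Y) : ∃ L', (c₀ :: l) ~r (c :: c' :: L') := by
  rcases List.eq_nil_or_concat Y with rfl | ⟨Y', y, rfl⟩
  · have h1 : (c₀ :: l) ++ [c₀] = (X ++ [c]) ++ [c'] := by
      rw [List.cons_append, h]; simp
    obtain ⟨h2, h3⟩ := List.append_inj' h1 rfl
    injection h3 with h4
    match X, h2 with
    | [], h2 =>
      simp only [List.nil_append] at h2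
      injection h2 with h5 h6
      exact absurd h6 hl
    | x :: X', h2 =>
      simp only [List.cons_append] at h2
      injection h2 with h5 h6
      refine ⟨X', ?_⟩
      rw [h6, h4]
      have : (c' :: (X' ++ [c])) = (c' :: X') ++ [c] := by simp
      rw [this]
      exact List.isRotated_append
  · have h1 : (c₀ :: l) ++ [c₀] = (X ++ c :: c' :: Y') ++ [y] := by
      rw [List.cons_append, h]; simp
    obtain ⟨h2, -⟩ := List.append_inj' h1 rfl
    refine ⟨Y' ++ X, ?_⟩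
    rw [h2]
    have := List.isRotated_append (l := X) (l' := c :: c' :: Y')
    simpa using this

/-! ### Reformulation -/

/-- Relation between consecutive corners. -/
def Rr (C : Cx N) (c c' : FC N) : Prop := Nx c c' ∧ C.E c.v c'.v ∧ ∀ w, ¬ C.T c'.v c.v w

/-- Properties of the fan of a corner. -/
def Fn (C : Cx N) (c : FC N) : Prop :=
  c.P.Nodup ∧ List.IsChain (fun r s => C.T r c.v s) c.P ∧
    (∀ r s, C.T r c.v s → ∃ X Y, c.P = X ++ r :: s :: Y) ∧ ∀ x, C.E c.v x ↔ x ∈ c.P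

/-- Properties of the complex. -/
structure Gd (C : Cx N) : Prop where
  symm : ∀ x y, C.E x y → C.E y x
  irr : ∀ x, ¬ C.E x x
  cyc : ∀ x y z, C.T x y z → C.T y z x
  TE : ∀ x y z, C.T x y z → C.E x y
  func : ∀ x y z z', C.T x y z → C.T x y z' → z = z'

/-- The invariants in terms of chains. -/
structure J (C : Cx N) (c₀ : FC N) (l : List (FC N)) : Prop where
  hl : l ≠ []
  nodup : ((c₀ :: l).map FC.v).Nodup
  gd : Gd C
  ch : List.IsChain (Rr C) (c₀ :: (l ++ [c₀]))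
  fn : ∀ c ∈ c₀ :: l, Fn C c

lemma J.inv {C : Cx N} {c₀ : FC N} {l : List (FC N)} (h : J C c₀ l) : Inv C (c₀ :: l) := by
  have hb : List.IsChain (fun x y => C.E x y ∧ ∀ w, ¬ C.T y x w)
      (c₀.v :: (l.map FC.v ++ [c₀.v])) := by
    have : List.IsChain (fun x y => C.E x y ∧ ∀ w, ¬ C.T y x w)
        ((c₀ :: (l ++ [c₀])).map FC.v) := by
      rw [List.isChain_map]
      exact h.ch.imp fun _ _ hab => hab.2
    simpa using this
  refine ⟨?_, h.nodup, h.gd.symm, h.gd.irr, h.gd.cyc, h.gd.TE, h.gd.func, ?_, ?_, ?_, ?_, ?_, ?_,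
    ?_⟩
  · have := List.length_pos_iff.mpr h.hl
    simp only [List.length_cons]
    omega
  · intro c c' L' hr
    exact (of_chain h.ch hr).1
  · rintro x y ⟨l', hl'⟩
    rw [List.map_cons] at hl'
    exact (of_chain hb hl').1
  · rintro x y w ⟨l', hl'⟩
    rw [List.map_cons] at hl'
    exact (of_chain hb hl').2 w
  · exact fun c hc => (h.fn c hc).1
  · exact fun c hc => (h.fn c hc).2.1
  · exact fun c hc => (h.fn c hc).2.2.1
  · exact fun c hc => (h.fn c hc).2.2.2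

lemma ofInv {C : Cx N} {c₀ : FC N} {l : List (FC N)} (h : Inv C (c₀ :: l)) : J C c₀ l := by
  have hl : l ≠ [] := by
    rintro rfl
    have := h.len
    simp at this
  refine ⟨hl, h.nodup, ⟨h.symm, h.irr, h.cyc, h.TE, h.func⟩, ?_, fun c hc =>
    ⟨h.fnodup c hc, h.fchain c hc, h.fall c hc, h.fnb c hc⟩⟩
  rw [List.isChain_iff_forall_rel_of_append_cons_cons]
  intro c c' X Y hX
  obtain ⟨L', hL'⟩ := exists_rot hl hX
  have hB : Bd (c₀ :: l) c.v c'.v := ⟨L'.map FC.v, by simpa using hL'.map FC.v⟩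
  exact ⟨h.nx c c' L' hL', h.bdE _ _ hB, fun w => h.bdT _ _ w hB⟩

lemma rotInv {C : Cx N} {L L' : List (FC N)} (hr : L ~r L') (h : Inv C L) : Inv C L' := by
  have hB : ∀ x y, Bd L' x y → Bd L x y := fun x y ⟨l, hl⟩ => ⟨l, (hr.map FC.v).trans hl⟩
  have hm : ∀ c, c ∈ L' → c ∈ L := fun c hc => hr.mem_iff.mpr hc
  refine ⟨?_, ?_, h.symm, h.irr, h.cyc, h.TE, h.func, ?_, ?_, ?_, ?_, ?_, ?_, ?_⟩
  · rw [← hr.perm.length_eq]; exact h.len
  · exact (hr.map FC.v).nodup_iff.mp h.nodup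
  · intro c c' M hM
    exact h.nx c c' M (hr.trans hM)
  · exact fun x y hb => h.bdE x y (hB x y hb)
  · exact fun x y w hb => h.bdT x y w (hB x y hb)
  · exact fun c hc => h.fnodup c (hm c hc)
  · exact fun c hc => h.fchain c (hm c hc)
  · exact fun c hc => h.fall c (hm c hc)
  · exact fun c hc => h.fnb c (hm c hc)

/-! ### Digon -/

lemma digon {a b : N} (h : a ≠ b) : J (Cx.edge a b) ⟨a, [b]⟩ [⟨b, [a]⟩] := by
  refine ⟨by simp, by simpa using h, ⟨?_, ?_, ?_, ?_, ?_⟩, ?_, ?_⟩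
  · intro x y hxy
    simp only [Cx.edge] at hxy ⊢
    tauto
  · rintro x (⟨h1, h2⟩ | ⟨h1, h2⟩)
    · exact h (h1.symm.trans h2)
    · exact h (h2.symm.trans h1)
  · intro x y z hT
    exact hT.elim
  · intro x y z hT
    exact hT.elim
  · intro x y z z' hT
    exact hT.elim
  · simp [Rr, Nx, Cx.edge]
  · intro c hc
    simp only [List.mem_cons, List.not_mem_nil, or_false] at hc
    rcases hc with rfl | rfl
    · refine ⟨by simp, by simp, fun r s hT => hT.elim, fun x => ?_⟩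
      simp only [Cx.edge, List.mem_singleton]
      constructor
      · rintro (⟨-, h2⟩ | ⟨h1, -⟩)
        · exact h2
        · exact absurd h1 h
      · rintro rfl
        simp
    · refine ⟨by simp, by simp, fun r s hT => hT.elim, fun x => ?_⟩
      simp only [Cx.edge, List.mem_singleton]
      constructor
      · rintro (⟨h1, -⟩ | ⟨-, h2⟩)
        · exact absurd h1.symm h
        · exact h2
      · rintro rfl
        simp

/-! ### Tools -/

lemma chain_end {α : Type*} {R S : α → α → Prop} {a a' : α} {L : List α} {c : α}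
    (h : List.IsChain R (c :: (L ++ [a])))
    (h2 : ∀ x ∈ c :: L, ∀ y ∈ L, R x y → S x y) (h3 : ∀ x ∈ c :: L, R x a → S x a') :
    List.IsChain S (c :: (L ++ [a'])) := by
  induction L generalizing c with
  | nil =>
    simp only [List.nil_append, List.isChain_cons_cons, List.isChain_singleton, and_true] at h ⊢
    exact h3 c (by simp) h
  | cons d L ih =>
    rw [List.cons_append, List.isChain_cons_cons] at h ⊢
    refine ⟨h2 c (by simp) d (by simp) h.1, ih h.2 ?_ ?_⟩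
    · intro x hx y hy
      exact h2 x (List.mem_cons_of_mem _ hx) y (List.mem_cons_of_mem _ hy)
    · intro x hx
      exact h3 x (List.mem_cons_of_mem _ hx)

lemma chain_ends {α : Type*} {R S : α → α → Prop} {b b' a a' : α} {L : List α}
    (h : List.IsChain R (b :: (L ++ [a]))) (h1 : ∀ y ∈ L, R b y → S b' y)
    (h2 : ∀ x ∈ L, ∀ y ∈ L, R x y → S x y) (h3 : ∀ x ∈ L, R x a → S x a')
    (h4 : R b a → S b' a') : List.IsChain S (b' :: (L ++ [a'])) := by
  match L, h, h1, h2, h3 with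
  | [], h, h1, h2, h3 =>
    simp only [List.nil_append, List.isChain_cons_cons, List.isChain_singleton, and_true] at h ⊢
    exact h4 h
  | d :: L, h, h1, h2, h3 =>
    rw [List.cons_append, List.isChain_cons_cons] at h ⊢
    refine ⟨h1 d (by simp) h.1, chain_end h.2 ?_ ?_⟩
    · intro x hx y hy
      exact h2 x hx y (List.mem_cons_of_mem _ hy)
    · exact h3

lemma Gd.S_left {C : Cx N} {x y : N} (h : C.E x y) : x ∈ C.S := ⟨y, h⟩

lemma Gd.S_right {C : Cx N} (g : Gd C) {x y : N} (h : C.E x y) : y ∈ C.S := ⟨x, g.symm _ _ h⟩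

lemma Gd.T1 {C : Cx N} (g : Gd C) {x y w : N} (h : C.T x y w) : x ∈ C.S := ⟨y, g.TE _ _ _ h⟩

lemma Gd.T2 {C : Cx N} (g : Gd C) {x y w : N} (h : C.T x y w) : y ∈ C.S :=
  g.T1 (g.cyc _ _ _ h)

lemma Gd.T3 {C : Cx N} (g : Gd C) {x y w : N} (h : C.T x y w) : w ∈ C.S :=
  g.T2 (g.cyc _ _ _ h)

lemma J.memS {C : Cx N} {c₀ : FC N} {l : List (FC N)} (h : J C c₀ l) {c : FC N}
    (hc : c ∈ c₀ :: l) : c.v ∈ C.S := by
  obtain ⟨s, t, hst⟩ := List.append_of_mem hc
  have h1 : c₀ :: (l ++ [c₀]) = s ++ c :: (t ++ [c₀]) := by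
    rw [← List.cons_append, hst]
    simp
  have h2 := h.ch
  rw [List.isChain_iff_forall_rel_of_append_cons_cons] at h2
  match t, h1 with
  | [], h1 => exact ⟨_, (h2 (l₁ := s) (l₂ := []) h1).2.1⟩
  | d :: t', h1 => exact ⟨_, (h2 (l₁ := s) (l₂ := t' ++ [c₀]) h1).2.1⟩

lemma getLast?_cons' {α : Type*} {l : List α} {x y : α} (h : l.getLast? = some y) :
    (x :: l).getLast? = some y := by
  rw [List.getLast?_cons, h]
  rfl

lemma getLast?_app {α : Type*} {l m : List α} {y : α} (h : m.getLast? = some y) :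
    (l ++ m).getLast? = some y := by
  rw [List.getLast?_append, h]
  rfl

lemma head?_app {α : Type*} {l m : List α} {y : α} (h : l.head? = some y) :
    (l ++ m).head? = some y := by
  rw [List.head?_append, h]
  rfl

/-! ### Inner -/

lemma inner {C : Cx N} {a b z : N} {Pa Pz Pb : List N} {L : List (FC N)}
    (h : J C ⟨a, Pa⟩ (⟨z, Pz⟩ :: ⟨b, Pb⟩ :: L)) (hab : ¬ C.E a b) :
    J (C.add a b z) ⟨a, Pa ++ [b]⟩ (⟨b, a :: Pb⟩ :: L) := by
  have hnd := h.nodup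
  simp only [List.map_cons, List.nodup_cons, List.mem_cons, not_or] at hnd
  obtain ⟨⟨haz, hanb, haL⟩, ⟨hzb, hzL⟩, hbL, hLnd⟩ := hnd
  have hch := h.ch
  rw [List.cons_append, List.cons_append, List.isChain_cons_cons, List.isChain_cons_cons] at hch
  obtain ⟨⟨⟨hAZ1, hAZ2⟩, hAZ3, hAZ4⟩, ⟨⟨hZB1, hZB2⟩, hZB3, hZB4⟩, hch⟩ := hch
  simp only at hAZ1 hAZ2 hAZ3 hAZ4 hZB1 hZB2 hZB3 hZB4
  have g := h.gd
  have hv : ∀ c ∈ L, c.v ≠ a ∧ c.v ≠ b ∧ c.v ≠ z := by
    intro c hc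
    refine ⟨?_, ?_, ?_⟩
    · intro e; exact haL (e ▸ List.mem_map_of_mem hc)
    · intro e; exact hbL (e ▸ List.mem_map_of_mem hc)
    · intro e; exact hzL (e ▸ List.mem_map_of_mem hc)
  have hba : ¬ C.E b a := fun e => hab (g.symm _ _ e)
  refine ⟨by simp, ?_, ⟨?_, ?_, ?_, ?_, ?_⟩, ?_, ?_⟩
  · simp only [List.map_cons, List.nodup_cons, List.mem_cons, not_or]
    exact ⟨⟨hanb, haL⟩, hbL, hLnd⟩
  · intro x y hxy
    simp only [Cx.add] at hxy ⊢
    rcases hxy with h1 | h1 | h1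
    · exact Or.inl (g.symm _ _ h1)
    · exact Or.inr (Or.inr h1.symm)
    · exact Or.inr (Or.inl h1.symm)
  · rintro x (h1 | ⟨h1, h2⟩ | ⟨h1, h2⟩)
    · exact g.irr x h1
    · exact hanb (h1.symm.trans h2)
    · exact hanb (h2.symm.trans h1)
  · intro x y w hT
    simp only [Cx.add] at hT ⊢
    rcases hT with h1 | ⟨h1, h2, h3⟩ | ⟨h1, h2, h3⟩ | ⟨h1, h2, h3⟩
    · exact Or.inl (g.cyc _ _ _ h1)
    · exact Or.inr (Or.inr (Or.inl ⟨h2, h3, h1⟩))
    · exact Or.inr (Or.inr (Or.inr ⟨h2, h3, h1⟩))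
    · exact Or.inr (Or.inl ⟨h2, h3, h1⟩)
  · intro x y w hT
    simp only [Cx.add] at hT ⊢
    rcases hT with h1 | ⟨h1, h2, h3⟩ | ⟨h1, h2, h3⟩ | ⟨h1, h2, h3⟩
    · exact Or.inl (g.TE _ _ _ h1)
    · exact Or.inr (Or.inl ⟨h1, h2⟩)
    · subst h1 h2; exact Or.inl (g.symm _ _ hZB3)
    · subst h1 h2; exact Or.inl (g.symm _ _ hAZ3)
  · intro x y w w' hT hT'
    simp only [Cx.add] at hT hT'
    rcases hT with h1 | ⟨h1, h2, h3⟩ | ⟨h1, h2, h3⟩ | ⟨h1, h2, h3⟩ <;>
    rcases hT' with k1 | ⟨k1, k2, k3⟩ | ⟨k1, k2, k3⟩ | ⟨k1, k2, k3⟩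
    · exact g.func _ _ _ _ h1 k1
    · subst k1 k2; exact absurd (g.TE _ _ _ h1) hab
    · subst k1 k2; exact absurd h1 (hZB4 _)
    · subst k1 k2; exact absurd h1 (hAZ4 _)
    · subst h1 h2; exact absurd (g.TE _ _ _ k1) hab
    · rw [h3, k3]
    · exact absurd (h1.symm.trans k1) hanb
    · exact absurd (h1.symm.trans k1) haz
    · subst h1 h2; exact absurd k1 (hZB4 _)
    · exact absurd (k1.symm.trans h1) hanb
    · rw [h3, k3]
    · exact absurd (k1.symm.trans h1) hzb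
    · subst h1 h2; exact absurd k1 (hAZ4 _)
    · exact absurd (k1.symm.trans h1) haz
    · exact absurd (h1.symm.trans k1) hzb
    · rw [h3, k3]
  · rw [List.cons_append, List.isChain_cons_cons]
    refine ⟨⟨⟨by simp, by simp⟩, Or.inr (Or.inl ⟨rfl, rfl⟩), ?_⟩, chain_ends hch ?_ ?_ ?_ ?_⟩
    · rintro w (h1 | ⟨h1, h2, h3⟩ | ⟨h1, h2, h3⟩ | ⟨h1, h2, h3⟩)
      · exact hba (g.TE _ _ _ h1)
      · exact hanb h2
      · exact haz h2
      · exact hzb h1.symm
    · intro y hy hR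
      obtain ⟨⟨h1, h2⟩, h3, h4⟩ := hR
      refine ⟨⟨getLast?_cons' h1, h2⟩, Or.inl h3, ?_⟩
      rintro w (k1 | ⟨k1, k2, k3⟩ | ⟨k1, k2, k3⟩ | ⟨k1, k2, k3⟩)
      · exact h4 w k1
      · exact (hv y hy).1 k1
      · exact (hv y hy).2.1 k1
      · exact (hv y hy).2.2 k1
    · intro x hx y hy hR
      obtain ⟨h1, h3, h4⟩ := hR
      refine ⟨h1, Or.inl h3, ?_⟩
      rintro w (k1 | ⟨k1, k2, k3⟩ | ⟨k1, k2, k3⟩ | ⟨k1, k2, k3⟩)
      · exact h4 w k1
      · exact (hv y hy).1 k1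
      · exact (hv y hy).2.1 k1
      · exact (hv y hy).2.2 k1
    · intro x hx hR
      obtain ⟨⟨h1, h2⟩, h3, h4⟩ := hR
      refine ⟨⟨h1, head?_app h2⟩, Or.inl h3, ?_⟩
      rintro w (k1 | ⟨k1, k2, k3⟩ | ⟨k1, k2, k3⟩ | ⟨k1, k2, k3⟩)
      · exact h4 w k1
      · exact (hv x hx).2.1 k2
      · exact (hv x hx).2.2 k2
      · exact (hv x hx).1 k2
    · intro hR
      exact absurd hR.2.1 hba
  · have fA := h.fn ⟨a, Pa⟩ (by simp)
    have fB := h.fn ⟨b, Pb⟩ (by simp)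
    obtain ⟨fA1, fA2, fA3, fA4⟩ := fA
    obtain ⟨fB1, fB2, fB3, fB4⟩ := fB
    simp only at fA1 fA2 fA3 fA4 fB1 fB2 fB3 fB4
    intro c hc
    rw [List.mem_cons, List.mem_cons] at hc
    rcases hc with rfl | rfl | hc
    · refine ⟨?_, ?_, ?_, ?_⟩
      · rw [List.nodup_append]
        refine ⟨fA1, by simp, ?_⟩
        intro x hx y hy
        simp only [List.mem_singleton] at hy
        rintro rfl
        exact hab ((fA4 _).mpr (hy ▸ hx))
      · rw [List.isChain_append]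
        refine ⟨fA2.imp fun r s hT => Or.inl hT, by simp, ?_⟩
        intro x hx y hy
        rw [hAZ1] at hx
        simp only [Option.mem_def, Option.some.injEq, List.head?_cons] at hx hy
        exact Or.inr (Or.inr (Or.inr ⟨hx.symm, rfl, hy.symm⟩))
      · rintro r s (h1 | ⟨h1, h2, h3⟩ | ⟨h1, h2, h3⟩ | ⟨h1, h2, h3⟩)
        · obtain ⟨X, Y, hXY⟩ := fA3 r s h1
          exact ⟨X, Y ++ [b], by simp [hXY]⟩
        · exact absurd h2 hanb
        · exact absurd h2 haz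
        · obtain ⟨X, hX⟩ := List.getLast?_eq_some_iff.mp hAZ1
          exact ⟨X, [], by simp [hX, h1, h3]⟩
      · intro x
        simp only [Cx.add, List.mem_append, List.mem_singleton]
        rw [fA4 x]
        constructor
        · rintro (h1 | ⟨-, h2⟩ | ⟨h1, -⟩)
          · exact Or.inl h1
          · exact Or.inr h2
          · exact absurd h1 hanb
        · rintro (h1 | h1)
          · exact Or.inl h1
          · exact Or.inr (Or.inl ⟨trivial, h1⟩)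
    · refine ⟨?_, ?_, ?_, ?_⟩
      · rw [List.nodup_cons]
        exact ⟨fun hx => hba ((fB4 _).mpr hx), fB1⟩
      · rw [List.isChain_cons]
        refine ⟨?_, fB2.imp fun r s hT => Or.inl hT⟩
        intro y hy
        rw [hZB2] at hy
        simp only [Option.mem_def, Option.some.injEq] at hy
        exact Or.inr (Or.inl ⟨rfl, rfl, hy.symm⟩)
      · rintro r s (h1 | ⟨h1, h2, h3⟩ | ⟨h1, h2, h3⟩ | ⟨h1, h2, h3⟩)
        · obtain ⟨X, Y, hXY⟩ := fB3 r s h1
          exact ⟨a :: X, Y, by simp [hXY]⟩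
        · obtain ⟨Y, hY⟩ := List.head?_eq_some_iff.mp hZB2
          exact ⟨[], Y, by simp [hY, h1, h3]⟩
        · exact absurd h2.symm hzb
        · exact absurd h2.symm hanb
      · intro x
        simp only [Cx.add, List.mem_cons]
        rw [fB4 x]
        constructor
        · rintro (h1 | ⟨h1, -⟩ | ⟨-, h2⟩)
          · exact Or.inr h1
          · exact absurd h1.symm hanb
          · exact Or.inl h2
        · rintro (h1 | h1)
          · exact Or.inr (Or.inr ⟨trivial, h1⟩)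
          · exact Or.inl h1
    · obtain ⟨f1, f2, f3, f4⟩ := h.fn c (by simp [hc])
      obtain ⟨v1, v2, v3⟩ := hv c hc
      refine ⟨f1, f2.imp fun r s hT => Or.inl hT, ?_, ?_⟩
      · rintro r s (h1 | ⟨h1, h2, h3⟩ | ⟨h1, h2, h3⟩ | ⟨h1, h2, h3⟩)
        · exact f3 r s h1
        · exact absurd h2 v2
        · exact absurd h2 v3
        · exact absurd h2 v1
      · intro x
        simp only [Cx.add]
        rw [f4 x]
        constructor
        · rintro (h1 | ⟨h1, -⟩ | ⟨h1, -⟩)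
          · exact h1
          · exact absurd h1 v1
          · exact absurd h1 v2
        · exact Or.inl

/-! ### Both -/

lemma both {C₁ C₂ : Cx N} {a b z : N} {Pa Pz Qz Pb : List N} {L₁ L₂ : List (FC N)}
    (h₁ : J C₁ ⟨z, Pz⟩ (⟨b, Pb⟩ :: L₁)) (h₂ : J C₂ ⟨z, Qz⟩ (L₂ ++ [⟨a, Pa⟩]))
    (hd : ∀ x, x ∈ C₁.S → x ∈ C₂.S → x = z) :
    J ((C₁.sup C₂).add a b z) ⟨a, Pa ++ [b]⟩ (⟨b, a :: Pb⟩ :: (L₁ ++ ⟨z, Pz ++ Qz⟩ :: L₂)) := by
  have g₁ := h₁.gd
  have g₂ := h₂.gd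
  have hnd₁ := h₁.nodup
  have hnd₂ := h₂.nodup
  simp only [List.map_cons, List.nodup_cons, List.mem_cons, not_or] at hnd₁
  obtain ⟨⟨hzb, hzL₁⟩, hbL₁, hL₁nd⟩ := hnd₁
  simp only [List.map_cons, List.map_append, List.map_nil, List.nodup_cons, List.mem_append,
    List.mem_singleton, not_or] at hnd₂
  obtain ⟨⟨hzL₂, hza⟩, hnd₂⟩ := hnd₂
  rw [List.nodup_append] at hnd₂
  obtain ⟨hL₂nd, -, haL₂⟩ := hnd₂
  have haL₂' : a ∉ L₂.map FC.v := fun h => haL₂ a h a (by simp) rfl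
  have hza' : a ≠ z := fun h => hza h.symm
  have hzb' : b ≠ z := fun h => hzb h.symm
  have hbS₁ : b ∈ C₁.S := h₁.memS (c := ⟨b, Pb⟩) (by simp)
  have hzS₁ : z ∈ C₁.S := h₁.memS (c := ⟨z, Pz⟩) (by simp)
  have haS₂ : a ∈ C₂.S := h₂.memS (c := ⟨a, Pa⟩) (by simp)
  have hzS₂ : z ∈ C₂.S := h₂.memS (c := ⟨z, Qz⟩) (by simp)
  have haS₁ : a ∉ C₁.S := fun h => hza (hd a h haS₂).symm
  have hbS₂ : b ∉ C₂.S := fun h => hzb (hd b hbS₁ h).symm
  have hab : a ≠ b := fun h => haS₁ (h ▸ hbS₁)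
  have hL₁S : ∀ c ∈ L₁, c.v ∈ C₁.S := fun c hc => h₁.memS (by simp [hc])
  have hL₂S : ∀ c ∈ L₂, c.v ∈ C₂.S := fun c hc => h₂.memS (by simp [hc])
  have hL₁z : ∀ c ∈ L₁, c.v ≠ z := fun c hc e => hzL₁ (e ▸ List.mem_map_of_mem hc)
  have hL₂z : ∀ c ∈ L₂, c.v ≠ z := fun c hc e => hzL₂ (e ▸ List.mem_map_of_mem hc)
  have hL₁b : ∀ c ∈ L₁, c.v ≠ b := fun c hc e => hbL₁ (e ▸ List.mem_map_of_mem hc)
  have hL₂a : ∀ c ∈ L₂, c.v ≠ a := fun c hc e => haL₂' (e ▸ List.mem_map_of_mem hc)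
  have hch₁ := h₁.ch
  rw [List.cons_append, List.isChain_cons_cons] at hch₁
  obtain ⟨⟨⟨hZB1, hZB2⟩, hZB3, hZB4⟩, hch₁⟩ := hch₁
  simp only at hZB1 hZB2 hZB3 hZB4
  have hch₂ := h₂.ch
  have e₂ : (⟨z, Qz⟩ :: ((L₂ ++ [⟨a, Pa⟩]) ++ [⟨z, Qz⟩]) : List (FC N)) =
      (⟨z, Qz⟩ :: L₂) ++ ⟨a, Pa⟩ :: ⟨z, Qz⟩ :: [] := by simp
  rw [e₂, List.isChain_append_cons_cons] at hch₂
  obtain ⟨hch₂, ⟨⟨hAZ1, hAZ2⟩, hAZ3, hAZ4⟩, -⟩ := hch₂
  simp only at hAZ1 hAZ2 hAZ3 hAZ4
  rw [List.cons_append] at hch₂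
  -- triangles seen from the first and from the second piece
  have k₁ : ∀ p q w, p ∈ C₁.S → p ≠ z → q ∈ C₁.S → ((C₁.sup C₂).add a b z).T q p w →
      C₁.T q p w := by
    rintro p q w hp hpz hq ((h1 | h1) | ⟨h1, h2, h3⟩ | ⟨h1, h2, h3⟩ | ⟨h1, h2, h3⟩)
    · exact h1
    · exact absurd (hd p hp (g₂.T2 h1)) hpz
    · exact absurd (h1 ▸ hq) haS₁
    · exact absurd h2 hpz
    · exact absurd (h2 ▸ hp) haS₁
  have k₂ : ∀ p q w, p ∈ C₂.S → q ∈ C₂.S → q ≠ z → ((C₁.sup C₂).add a b z).T q p w →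
      C₂.T q p w := by
    rintro p q w hp hq hqz ((h1 | h1) | ⟨h1, h2, h3⟩ | ⟨h1, h2, h3⟩ | ⟨h1, h2, h3⟩)
    · exact absurd (hd q (g₁.T1 h1) hq) hqz
    · exact h1
    · exact absurd (h2 ▸ hp) hbS₂
    · exact absurd (h1 ▸ hq) hbS₂
    · exact absurd h1 hqz
  refine ⟨by simp, ?_, ⟨?_, ?_, ?_, ?_, ?_⟩, ?_, ?_⟩
  · simp only [List.map_cons, List.map_append, List.nodup_cons, List.mem_cons, List.mem_append,
      not_or]
    refine ⟨⟨hab, ?_, hza', haL₂'⟩, ⟨hbL₁, hzb', ?_⟩, ?_⟩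
    · intro h
      obtain ⟨c, hc, hcv⟩ := List.mem_map.mp h
      exact haS₁ (hcv ▸ hL₁S c hc)
    · intro h
      obtain ⟨c, hc, hcv⟩ := List.mem_map.mp h
      exact hbS₂ (hcv ▸ hL₂S c hc)
    · rw [List.nodup_append]
      refine ⟨hL₁nd, ?_, ?_⟩
      · rw [List.nodup_cons]
        exact ⟨hzL₂, hL₂nd⟩
      · intro x hx y hy hxy
        subst hxy
        obtain ⟨c, hc, hcv⟩ := List.mem_map.mp hx
        rcases List.mem_cons.mp hy with h | h
        · exact hL₁z c hc (hcv.trans h)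
        · obtain ⟨c', hc', hcv'⟩ := List.mem_map.mp h
          exact hL₁z c hc (hd _ (hL₁S c hc) (by rw [hcv, ← hcv']; exact hL₂S c' hc'))
  · rintro x y ((h1 | h1) | h1 | h1)
    · exact Or.inl (Or.inl (g₁.symm _ _ h1))
    · exact Or.inl (Or.inr (g₂.symm _ _ h1))
    · exact Or.inr (Or.inr h1.symm)
    · exact Or.inr (Or.inl h1.symm)
  · rintro x ((h1 | h1) | ⟨h1, h2⟩ | ⟨h1, h2⟩)
    · exact g₁.irr x h1
    · exact g₂.irr x h1
    · exact hab (h1.symm.trans h2)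
    · exact hab (h2.symm.trans h1)
  · rintro x y w ((h1 | h1) | ⟨h1, h2, h3⟩ | ⟨h1, h2, h3⟩ | ⟨h1, h2, h3⟩)
    · exact Or.inl (Or.inl (g₁.cyc _ _ _ h1))
    · exact Or.inl (Or.inr (g₂.cyc _ _ _ h1))
    · exact Or.inr (Or.inr (Or.inl ⟨h2, h3, h1⟩))
    · exact Or.inr (Or.inr (Or.inr ⟨h2, h3, h1⟩))
    · exact Or.inr (Or.inl ⟨h2, h3, h1⟩)
  · rintro x y w ((h1 | h1) | ⟨h1, h2, h3⟩ | ⟨h1, h2, h3⟩ | ⟨h1, h2, h3⟩)
    · exact Or.inl (Or.inl (g₁.TE _ _ _ h1))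
    · exact Or.inl (Or.inr (g₂.TE _ _ _ h1))
    · exact Or.inr (Or.inl ⟨h1, h2⟩)
    · subst h1 h2; exact Or.inl (Or.inl (g₁.symm _ _ hZB3))
    · subst h1 h2; exact Or.inl (Or.inr (g₂.symm _ _ hAZ3))
  · rintro x y w w' ((h1 | h1) | ⟨h1, h2, h3⟩ | ⟨h1, h2, h3⟩ | ⟨h1, h2, h3⟩)
      ((j1 | j1) | ⟨j1, j2, j3⟩ | ⟨j1, j2, j3⟩ | ⟨j1, j2, j3⟩)
    · exact g₁.func _ _ _ _ h1 j1
    · have e1 := hd x (g₁.T1 h1) (g₂.T1 j1)
      have e2 := hd y (g₁.T2 h1) (g₂.T2 j1)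
      subst e1
      exact absurd (e2 ▸ g₁.TE _ _ _ h1) (g₁.irr _)
    · exact absurd (j1 ▸ g₁.T1 h1) haS₁
    · subst j1 j2; exact absurd h1 (hZB4 _)
    · exact absurd (j2 ▸ g₁.T2 h1) haS₁
    · have e1 := hd x (g₁.T1 j1) (g₂.T1 h1)
      have e2 := hd y (g₁.T2 j1) (g₂.T2 h1)
      subst e1
      exact absurd (e2 ▸ g₁.TE _ _ _ j1) (g₁.irr _)
    · exact g₂.func _ _ _ _ h1 j1
    · exact absurd (j2 ▸ g₂.T2 h1) hbS₂
    · exact absurd (j1 ▸ g₂.T1 h1) hbS₂
    · subst j1 j2; exact absurd h1 (hAZ4 _)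
    · exact absurd (h1 ▸ g₁.T1 j1) haS₁
    · exact absurd (h2 ▸ g₂.T2 j1) hbS₂
    · rw [h3, j3]
    · exact absurd (h1.symm.trans j1) hab
    · exact absurd (j1.symm.trans h1) hza
    · subst h1 h2; exact absurd j1 (hZB4 _)
    · exact absurd (h1 ▸ g₂.T1 j1) hbS₂
    · exact absurd (j1.symm.trans h1) hab
    · rw [h3, j3]
    · exact absurd (j1.symm.trans h1) hzb
    · exact absurd (h2 ▸ g₁.T2 j1) haS₁
    · subst h1 h2; exact absurd j1 (hAZ4 _)
    · exact absurd (h1.symm.trans j1) hza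
    · exact absurd (h1.symm.trans j1) hzb
    · rw [h3, j3]
  · rw [List.cons_append, List.isChain_cons_cons]
    refine ⟨⟨⟨by simp, by simp⟩, Or.inr (Or.inl ⟨rfl, rfl⟩), ?_⟩, ?_⟩
    · rintro w ((h1 | h1) | ⟨h1, h2, h3⟩ | ⟨h1, h2, h3⟩ | ⟨h1, h2, h3⟩)
      · exact haS₁ (g₁.T2 h1)
      · exact hbS₂ (g₂.T1 h1)
      · exact hab h2
      · exact hza h2.symm
      · exact hzb h1.symm
    · have e : (⟨b, a :: Pb⟩ :: ((L₁ ++ ⟨z, Pz ++ Qz⟩ :: L₂) ++ [⟨a, Pa ++ [b]⟩]) : List (FC N)) =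
          (⟨b, a :: Pb⟩ :: L₁) ++ ⟨z, Pz ++ Qz⟩ :: (L₂ ++ [⟨a, Pa ++ [b]⟩]) := by simp
      rw [e, List.isChain_split]
      constructor
      · rw [List.cons_append]
        refine chain_ends hch₁ ?_ ?_ ?_ ?_
        · rintro y hy ⟨⟨r1, r2⟩, r3, r4⟩
          refine ⟨⟨getLast?_cons' r1, r2⟩, Or.inl (Or.inl r3), fun w hT => r4 w ?_⟩
          exact k₁ b y.v w hbS₁ hzb' (hL₁S y hy) hT
        · rintro x hx y hy ⟨r1, r3, r4⟩
          refine ⟨r1, Or.inl (Or.inl r3), fun w hT => r4 w ?_⟩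
          exact k₁ x.v y.v w (hL₁S x hx) (hL₁z x hx) (hL₁S y hy) hT
        · rintro x hx ⟨⟨r1, r2⟩, r3, r4⟩
          refine ⟨⟨r1, head?_app r2⟩, Or.inl (Or.inl r3), fun w hT => r4 w ?_⟩
          exact k₁ x.v z w (hL₁S x hx) (hL₁z x hx) hzS₁ hT
        · rintro ⟨⟨r1, r2⟩, r3, r4⟩
          refine ⟨⟨getLast?_cons' r1, head?_app r2⟩, Or.inl (Or.inl r3), fun w hT => r4 w ?_⟩
          exact k₁ b z w hbS₁ hzb' hzS₁ hT
      · refine chain_ends hch₂ ?_ ?_ ?_ ?_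
        · rintro y hy ⟨⟨r1, r2⟩, r3, r4⟩
          refine ⟨⟨getLast?_app r1, r2⟩, Or.inl (Or.inr r3), fun w hT => r4 w ?_⟩
          exact k₂ z y.v w hzS₂ (hL₂S y hy) (hL₂z y hy) hT
        · rintro x hx y hy ⟨r1, r3, r4⟩
          refine ⟨r1, Or.inl (Or.inr r3), fun w hT => r4 w ?_⟩
          exact k₂ x.v y.v w (hL₂S x hx) (hL₂S y hy) (hL₂z y hy) hT
        · rintro x hx ⟨⟨r1, r2⟩, r3, r4⟩
          refine ⟨⟨r1, head?_app r2⟩, Or.inl (Or.inr r3), fun w hT => r4 w ?_⟩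
          exact k₂ x.v a w (hL₂S x hx) haS₂ hza' hT
        · rintro ⟨⟨r1, r2⟩, r3, r4⟩
          refine ⟨⟨getLast?_app r1, head?_app r2⟩, Or.inl (Or.inr r3), fun w hT => r4 w ?_⟩
          exact k₂ z a w hzS₂ haS₂ hza' hT
  · obtain ⟨fA1, fA2, fA3, fA4⟩ := h₂.fn ⟨a, Pa⟩ (by simp)
    obtain ⟨fB1, fB2, fB3, fB4⟩ := h₁.fn ⟨b, Pb⟩ (by simp)
    obtain ⟨fZ1, fZ2, fZ3, fZ4⟩ := h₁.fn ⟨z, Pz⟩ (by simp)
    obtain ⟨fQ1, fQ2, fQ3, fQ4⟩ := h₂.fn ⟨z, Qz⟩ (by simp)
    simp only at fA1 fA2 fA3 fA4 fB1 fB2 fB3 fB4 fZ1 fZ2 fZ3 fZ4 fQ1 fQ2 fQ3 fQ4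
    intro c hc
    rw [List.mem_cons, List.mem_cons, List.mem_append, List.mem_cons] at hc
    rcases hc with rfl | rfl | hc | rfl | hc
    · refine ⟨?_, ?_, ?_, ?_⟩
      · rw [List.nodup_append]
        refine ⟨fA1, by simp, ?_⟩
        intro x hx y hy
        simp only [List.mem_singleton] at hy
        rintro rfl
        exact hbS₂ (g₂.S_right ((fA4 _).mpr (hy ▸ hx)))
      · rw [List.isChain_append]
        refine ⟨fA2.imp fun r s hT => Or.inl (Or.inr hT), by simp, ?_⟩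
        intro x hx y hy
        rw [hAZ1] at hx
        simp only [Option.mem_def, Option.some.injEq, List.head?_cons] at hx hy
        exact Or.inr (Or.inr (Or.inr ⟨hx.symm, rfl, hy.symm⟩))
      · rintro r s ((h1 | h1) | ⟨h1, h2, h3⟩ | ⟨h1, h2, h3⟩ | ⟨h1, h2, h3⟩)
        · exact absurd (g₁.T2 h1) haS₁
        · obtain ⟨X, Y, hXY⟩ := fA3 r s h1
          exact ⟨X, Y ++ [b], by simp [hXY]⟩
        · exact absurd h2 hab
        · exact absurd h2.symm hza
        · obtain ⟨X, hX⟩ := List.getLast?_eq_some_iff.mp hAZ1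
          exact ⟨X, [], by simp [hX, h1, h3]⟩
      · intro x
        rw [List.mem_append, List.mem_singleton, ← fA4 x]
        constructor
        · rintro ((h1 | h1) | ⟨-, h2⟩ | ⟨h1, -⟩)
          · exact absurd (Gd.S_left h1) haS₁
          · exact Or.inl h1
          · exact Or.inr h2
          · exact absurd h1 hab
        · rintro (h1 | h1)
          · exact Or.inl (Or.inr h1)
          · exact Or.inr (Or.inl ⟨rfl, h1⟩)
    · refine ⟨?_, ?_, ?_, ?_⟩
      · rw [List.nodup_cons]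
        exact ⟨fun hx => haS₁ (g₁.S_right ((fB4 _).mpr hx)), fB1⟩
      · rw [List.isChain_cons]
        refine ⟨?_, fB2.imp fun r s hT => Or.inl (Or.inl hT)⟩
        intro y hy
        rw [hZB2] at hy
        simp only [Option.mem_def, Option.some.injEq] at hy
        exact Or.inr (Or.inl ⟨rfl, rfl, hy.symm⟩)
      · rintro r s ((h1 | h1) | ⟨h1, h2, h3⟩ | ⟨h1, h2, h3⟩ | ⟨h1, h2, h3⟩)
        · obtain ⟨X, Y, hXY⟩ := fB3 r s h1
          exact ⟨a :: X, Y, by simp [hXY]⟩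
        · exact absurd (g₂.T2 h1) hbS₂
        · obtain ⟨Y, hY⟩ := List.head?_eq_some_iff.mp hZB2
          exact ⟨[], Y, by simp [hY, h1, h3]⟩
        · exact absurd h2.symm hzb
        · exact absurd h2.symm hab
      · intro x
        rw [List.mem_cons, ← fB4 x]
        constructor
        · rintro ((h1 | h1) | ⟨h1, -⟩ | ⟨-, h2⟩)
          · exact Or.inr h1
          · exact absurd (Gd.S_left h1) hbS₂
          · exact absurd h1.symm hab
          · exact Or.inl h2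
        · rintro (h1 | h1)
          · exact Or.inr (Or.inr ⟨rfl, h1⟩)
          · exact Or.inl (Or.inl h1)
    · obtain ⟨f1, f2, f3, f4⟩ := h₁.fn c (by simp [hc])
      have v2 : c.v ∉ C₂.S := fun h => hL₁z c hc (hd _ (hL₁S c hc) h)
      have va : c.v ≠ a := fun h => haS₁ (h ▸ hL₁S c hc)
      refine ⟨f1, f2.imp fun r s hT => Or.inl (Or.inl hT), ?_, ?_⟩
      · rintro r s ((h1 | h1) | ⟨h1, h2, h3⟩ | ⟨h1, h2, h3⟩ | ⟨h1, h2, h3⟩)
        · exact f3 r s h1
        · exact absurd (g₂.T2 h1) v2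
        · exact absurd h2 (hL₁b c hc)
        · exact absurd h2 (hL₁z c hc)
        · exact absurd h2 va
      · intro x
        rw [← f4 x]
        constructor
        · rintro ((h1 | h1) | ⟨h1, -⟩ | ⟨h1, -⟩)
          · exact h1
          · exact absurd (Gd.S_left h1) v2
          · exact absurd h1 va
          · exact absurd h1 (hL₁b c hc)
        · exact fun h1 => Or.inl (Or.inl h1)
    · refine ⟨?_, ?_, ?_, ?_⟩
      · rw [List.nodup_append]
        refine ⟨fZ1, fQ1, ?_⟩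
        rintro x hx y hy rfl
        have e1 := (fZ4 x).mpr hx
        have e2 := (fQ4 x).mpr hy
        have e3 := hd x (g₁.S_right e1) (g₂.S_right e2)
        rw [e3] at e1
        exact g₁.irr _ e1
      · rw [List.isChain_append]
        refine ⟨fZ2.imp fun r s hT => Or.inl (Or.inl hT), fQ2.imp fun r s hT => Or.inl (Or.inr hT),
          ?_⟩
        intro x hx y hy
        rw [hZB1] at hx
        rw [hAZ2] at hy
        simp only [Option.mem_def, Option.some.injEq] at hx hy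
        exact Or.inr (Or.inr (Or.inl ⟨hx.symm, rfl, hy.symm⟩))
      · rintro r s ((h1 | h1) | ⟨h1, h2, h3⟩ | ⟨h1, h2, h3⟩ | ⟨h1, h2, h3⟩)
        · obtain ⟨X, Y, hXY⟩ := fZ3 r s h1
          exact ⟨X, Y ++ Qz, by simp [hXY]⟩
        · obtain ⟨X, Y, hXY⟩ := fQ3 r s h1
          exact ⟨Pz ++ X, Y, by simp [hXY]⟩
        · exact absurd h2 hzb
        · obtain ⟨X, hX⟩ := List.getLast?_eq_some_iff.mp hZB1
          obtain ⟨Y, hY⟩ := List.head?_eq_some_iff.mp hAZ2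
          exact ⟨X, Y, by simp [hX, hY, h1, h3]⟩
        · exact absurd h2 hza
      · intro x
        rw [List.mem_append, ← fZ4 x, ← fQ4 x]
        constructor
        · rintro ((h1 | h1) | ⟨h1, -⟩ | ⟨h1, -⟩)
          · exact Or.inl h1
          · exact Or.inr h1
          · exact absurd h1 hza
          · exact absurd h1 hzb
        · exact fun h1 => Or.inl h1
    · obtain ⟨f1, f2, f3, f4⟩ := h₂.fn c (by simp [hc])
      have v1 : c.v ∉ C₁.S := fun h => hL₂z c hc (hd _ h (hL₂S c hc))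
      have vb : c.v ≠ b := fun h => hbS₂ (h ▸ hL₂S c hc)
      refine ⟨f1, f2.imp fun r s hT => Or.inl (Or.inr hT), ?_, ?_⟩
      · rintro r s ((h1 | h1) | ⟨h1, h2, h3⟩ | ⟨h1, h2, h3⟩ | ⟨h1, h2, h3⟩)
        · exact absurd (g₁.T2 h1) v1
        · exact f3 r s h1
        · exact absurd h2 vb
        · exact absurd h2 (hL₂z c hc)
        · exact absurd h2 (hL₂a c hc)
      · intro x
        rw [← f4 x]
        constructor
        · rintro ((h1 | h1) | ⟨h1, -⟩ | ⟨h1, -⟩)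
          · exact absurd (Gd.S_left h1) v1
          · exact h1
          · exact absurd h1 (hL₂a c hc)
          · exact absurd h1 vb
        · exact fun h1 => Or.inl (Or.inr h1)

end INV

/-- The basic invariants of planar discs. -/
theorem tINV : T_INV.{u} := by
  intro N ang A C L h
  induction h with
  | digon h => exact (INV.digon h).inv
  | rot h ih => exact INV.rotInv (List.isRotated_append (l := [_])) ih
  | inner h hab hz ih => exact (INV.inner (INV.ofInv ih) hab).inv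
  | both h₁ h₂ hd ih₁ ih₂ => exact (INV.both (INV.ofInv ih₁) (INV.ofInv ih₂) hd).inv

end Pool.Agent.MSN
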