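import Pool.Agent.MSN.Targets

/-!
# MSN, target INV2: links of interior vertices of planar discs
-/

namespace Pool.Agent.MSN

open List Pool.Agent.MSF

universe u

variable {N : Type u}

namespace INV2

theorem plen_snoc (ang : N → N → N → ℝ) (v : N) : ∀ (P : List N) (x y : N),
    P.getLast? = some x → plen ang v (P ++ [y]) = plen ang v P + ang v x y
  | [], _, _, h => by simp at h
  | [a], x, y, h => by
    have h' : a = x := by simpa using h
    subst h'
    simp [plen]
  | (a :: b :: l), x, y, h => by
    have h' : (b :: l).getLast? = some x := by simpa [List.getLast?_cons_cons] using h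
    have := plen_snoc ang v (b :: l) x y h'
    simp only [List.cons_append] at this ⊢
    simp only [plen] at this ⊢
    rw [this]
    ring

/-- The statement for one vertex. -/
def Good (ang : N → N → N → ℝ) (C : Cx N) (q : N) : Prop :=
  ∃ Q : List N, ∃ hQ : Q ≠ [], Q.Nodup ∧
    List.IsChain (fun r s => C.T r q s) (Q ++ [Q.head hQ]) ∧
    (∀ x, C.E q x ↔ x ∈ Q) ∧ 2 * Real.pi ≤ plen ang q (Q ++ [Q.head hQ])

theorem Good.mono {ang : N → N → N → ℝ} {C C' : Cx N} {q : N} (h : Good ang C q)
    (hT : ∀ r s, C.T r q s → C'.T r q s) (hE : ∀ x, C'.E q x ↔ C.E q x) : Good ang C' q := by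
  obtain ⟨Q, hQ, h1, h2, h3, h4⟩ := h
  exact ⟨Q, hQ, h1, List.IsChain.imp (fun r s hrs => hT r s hrs) h2,
    fun x => (hE x).trans (h3 x), h4⟩

end INV2

open INV2

/-- INV2. -/
theorem tINV2 (hINV : T_INV.{u}) : T_INV2.{u} := by
  intro N ang A C L h
  induction h with
  | @digon a b h =>
    rintro q ⟨y, hy | hy⟩ hq
    · exact absurd (by simp [hy.1]) hq
    · exact absurd (by simp [hy.1]) hq
  | @rot A C c L h ih =>
    intro q hq hL
    apply ih q hq
    simp only [List.map_append, List.map_cons, List.map_nil, List.mem_append, List.mem_cons,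
      List.not_mem_nil, or_false] at hL ⊢
    exact fun h => hL h.symm
  | @inner A C a b z Pa Pz Pb L h hab hz ih =>
    intro q hq hL
    have hI := hINV ang _ _ _ h
    simp only [List.map_cons, List.mem_cons, not_or] at hL
    obtain ⟨hqa, hqb, hqL⟩ := hL
    have hqS : q ∈ C.S := by
      obtain ⟨y, hy | hy | hy⟩ := hq
      · exact ⟨y, hy⟩
      · exact absurd hy.1 hqa
      · exact absurd hy.1 hqb
    have hEE : ∀ x, (C.add a b z).E q x ↔ C.E q x := by
      intro x
      constructor
      · rintro (hx | hx | hx)
        · exact hx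
        · exact absurd hx.1 hqa
        · exact absurd hx.1 hqb
      · exact fun hx => Or.inl hx
    by_cases hqz : q = z
    · subst hqz
      have h1 := hI.nx _ _ _ (List.IsRotated.refl _)
      have h2 := hI.nx ⟨q, Pz⟩ ⟨b, Pb⟩ (L ++ [⟨a, Pa⟩]) ⟨1, by simp⟩
      have hPz : Pz ≠ [] := by
        intro h0
        have := h1.2
        simp [h0] at this
      have hhead : Pz.head hPz = a := by
        have := h1.2
        rw [List.head?_eq_some_head hPz] at this
        simpa using this
      have hmem : (⟨q, Pz⟩ : FC N) ∈ (⟨a, Pa⟩ :: ⟨q, Pz⟩ :: ⟨b, Pb⟩ :: L : List (FC N)) := by simp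
      refine ⟨Pz, hPz, hI.fnodup _ hmem, ?_, fun x => (hEE x).trans (hI.fnb _ hmem x), ?_⟩
      · rw [hhead, List.isChain_append]
        refine ⟨List.IsChain.imp (fun r s hrs => Or.inl hrs) (hI.fchain _ hmem), by simp, ?_⟩
        intro x hx y hy
        have hx' : x = b := by
          have := h2.1
          simp only [Option.mem_def] at hx
          rw [hx] at this
          simpa using this
        have hy' : y = a := by
          simpa using hy.symm
        subst hx'
        subst hy'
        exact Or.inr (Or.inr (Or.inl ⟨rfl, rfl, rfl⟩))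
      · rw [hhead, plen_snoc ang q Pz b a h2.1]
        exact hz
    · have := ih q hqS (by
        simp only [List.map_cons, List.mem_cons, not_or]
        exact ⟨hqa, hqz, hqb, hqL⟩)
      exact Good.mono (C' := C.add a b z) this (fun r s hrs => Or.inl hrs) hEE
  | @both A₁ A₂ C₁ C₂ a b z Pa Pz Qz Pb L₁ L₂ h₁ h₂ hd ih₁ ih₂ =>
    intro q hq hL
    simp only [List.map_cons, List.map_append, List.mem_cons, List.mem_append, not_or] at hL
    obtain ⟨hqa, hqb, hq1, hqz, hq2⟩ := hL
    have hqS : q ∈ C₁.S ∨ q ∈ C₂.S := by
      obtain ⟨y, (hy | hy) | hy | hy⟩ := hq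
      · exact Or.inl ⟨y, hy⟩
      · exact Or.inr ⟨y, hy⟩
      · exact absurd hy.1 hqa
      · exact absurd hy.1 hqb
    rcases hqS with hqS | hqS
    · have h2 : ∀ x, ¬ C₂.E q x := fun x hx => hqz (hd q hqS ⟨x, hx⟩)
      have := ih₁ q hqS (by
        simp only [List.map_cons, List.mem_cons, not_or]
        exact ⟨hqz, hqb, hq1⟩)
      refine Good.mono (C' := (C₁.sup C₂).add a b z) this
        (fun r s hrs => Or.inl (Or.inl hrs)) ?_
      intro x
      constructor
      · rintro ((hx | hx) | hx | hx)
        · exact hx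
        · exact absurd hx (h2 x)
        · exact absurd hx.1 hqa
        · exact absurd hx.1 hqb
      · exact fun hx => Or.inl (Or.inl hx)
    · have h1 : ∀ x, ¬ C₁.E q x := fun x hx => hqz (hd q ⟨x, hx⟩ hqS)
      have := ih₂ q hqS (by
        simp only [List.map_cons, List.map_append, List.map_nil, List.mem_cons, List.mem_append,
          List.not_mem_nil, or_false, not_or]
        exact ⟨hqz, hq2, hqa⟩)
      refine Good.mono (C' := (C₁.sup C₂).add a b z) this
        (fun r s hrs => Or.inl (Or.inr hrs)) ?_
      intro x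
      constructor
      · rintro ((hx | hx) | hx | hx)
        · exact absurd hx (h1 x)
        · exact hx
        · exact absurd hx.1 hqa
        · exact absurd hx.1 hqb
      · exact fun hx => Or.inl (Or.inr hx)

end Pool.Agent.MSN
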