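import Pool.Agent.MSN.Lol

/-!
# LAB: facts on the part of a path after its last visit of `v`
-/

set_option autoImplicit false

namespace Pool.Agent.MSN

open List Pool.Agent.MSF

universe u

namespace LAB

variable {V : Type u}

theorem app (v : V) (Γ : List V) (y : V) (hy : y ≠ v) : lab v (Γ ++ [y]) = lab v Γ ++ [y] := by
  unfold lab
  rw [List.reverse_append, List.reverse_singleton, List.singleton_append,
    List.takeWhile_cons_of_pos (by simpa using hy), List.reverse_cons]

theorem app_v (v : V) (Γ : List V) : lab v (Γ ++ [v]) = [] := by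
  unfold lab
  rw [List.reverse_append, List.reverse_singleton, List.singleton_append,
    List.takeWhile_cons_of_neg (by simp), List.reverse_nil]

theorem mem (v : V) (Γ : List V) : ∀ x ∈ lab v Γ, x ≠ v := by
  intro x hx
  unfold lab at hx
  rw [List.mem_reverse] at hx
  have := List.mem_takeWhile_imp hx
  simpa using this

theorem split (v : V) (Γ : List V) (h : v ∈ Γ) : ∃ X, Γ = X ++ v :: lab v Γ := by
  induction Γ using List.reverseRecOn with
  | nil => simp at h
  | append_singleton Γ y ih =>
    by_cases hy : y = v
    · refine ⟨Γ, ?_⟩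
      rw [hy, app_v]
    · have h1 : v ∈ Γ := by
        rw [List.mem_append, List.mem_singleton] at h
        rcases h with h | h
        · exact h
        · exact absurd h.symm hy
      obtain ⟨X, hX⟩ := ih h1
      refine ⟨X, ?_⟩
      rw [app v Γ y hy, ← List.cons_append, ← List.append_assoc, ← hX]

theorem cons (v : V) (t : List V) (h : ∀ x ∈ t, x ≠ v) : lab v (v :: t) = t := by
  induction t using List.reverseRecOn with
  | nil => exact app_v v []
  | append_singleton t y ih =>
    rw [← List.cons_append, app v _ y (h y (by simp)), ih (fun x hx => h x (by simp [hx]))]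

end LAB

theorem tLAB : T_LAB.{u} := by
  intro V G v
  refine ⟨fun Γ y hc hy hyv => ?_, fun Γ y hy => LAB.app v Γ y hy, LAB.app_v v,
    fun Γ => LAB.split v _ (by simp), LAB.cons v⟩
  obtain ⟨X, hX⟩ := LAB.split v (v :: Γ) (by simp)
  have hch : List.IsChain G.Adj (v :: lab v (v :: Γ)) := by
    rw [hX] at hc
    exact hc.right_of_append
  have hlast : (v :: lab v (v :: Γ)).getLast? = some y := by
    rw [hX, List.getLast?_append] at hy
    cases hl : (v :: lab v (v :: Γ)).getLast? with
    | none => simp at hl
    | some z =>
      rw [hl] at hy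
      simpa using hy
  have hm := LAB.mem v (v :: Γ)
  cases hL : lab v (v :: Γ) with
  | nil =>
    rw [hL] at hlast
    simp only [List.getLast?_singleton, Option.some.injEq] at hlast
    exact absurd hlast.symm hyv
  | cons a L =>
    rw [hL] at hlast hch hm
    rw [List.getLast?_cons_cons] at hlast
    rw [List.isChain_cons_cons] at hch
    exact ⟨⟨hch.2, hm, a, rfl, hch.1⟩, hlast⟩

end Pool.Agent.MSN
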