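import Pool.Agent.MSN.Lol

/-!
# MSN, target LFIN: assembly of LTR, LKS, TREE, LGO
-/

namespace Pool.Agent.MSN

open List Pool.Agent.MSF

universe u

namespace LFIN

/-- the first boundary vertex is a vertex -/
theorem mem_S {N : Type u} {C : Cx N} {L : List (FC N)} (h : Inv C L) {b₀ : N} {M : List N}
    (hL : L.map FC.v = b₀ :: M) : b₀ ∈ C.S := by
  have h1 := h.len
  have h2 : (L.map FC.v).length = (b₀ :: M).length := by rw [hL]
  rw [List.length_map] at h2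
  cases M with
  | nil => simp at h2; omega
  | cons y M' =>
    refine ⟨y, h.bdE b₀ y ⟨M', ?_⟩⟩
    rw [hL]

end LFIN

/-- LFIN. -/
theorem tLFIN (h1 : T_TREE.{0}) (h2 : T_INV.{0}) (h3 : T_LKS.{u}) (h4 : T_LTR.{u})
    (h5 : T_LGO.{u}) : T_LFIN.{u} := by
  intro V G v t s hL hEq ang A π C L b₀ M γ hang hPD hadj hLM hMs hb hγ0 hγ hI
  have hInv : Inv C L := h2 ang A C L hPD
  have hbS : b₀ ∈ C.S := LFIN.mem_S hInv hLM
  obtain ⟨hOK, hlb, hcon⟩ := h4 G v t s hL hEq π C b₀ γ hInv.symm hadj hb hbS hγ0 hγ hI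
  obtain ⟨hK1, hK2⟩ := h3 G v π C _ hEq hInv.symm hInv.cyc hInv.TE hadj hOK
  have hB := h1 ang hang A C L hPD _ hK1 hK2 b₀ hbS hcon
  exact h5 G v t s hL hEq π C L b₀ M _ hInv.symm hadj hLM hMs hb hOK hlb hB

end Pool.Agent.MSN
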