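import Pool.Agent.MSN.Lol

set_option autoImplicit false

namespace Pool.Agent.MSN

open List Pool.Agent.MSF

universe u

namespace LGO

variable {V : Type u} {G : SimpleGraph V} {v : V}

lemma dpath_two {P : List V} {x y : V} (h : DPath G v (P ++ [x])) (hxy : G.Adj x y)
    (hy : y ≠ v) : DPath G v (P ++ [x, y]) := by
  obtain ⟨h1, h2, a, h3, h4⟩ := h
  refine ⟨?_, ?_, a, ?_, h4⟩
  · have e : P ++ [x, y] = (P ++ [x]) ++ [y] := by simp
    rw [e, List.isChain_append]
    refine ⟨h1, List.isChain_singleton y, ?_⟩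
    intro p hp q hq
    simp at hp hq
    subst hp; subst hq
    exact hxy
  · intro z hz
    simp only [List.mem_append, List.mem_cons, List.not_mem_nil, or_false] at hz h2
    rcases hz with hz | hz | hz
    · exact h2 z (Or.inl hz)
    · exact h2 z (Or.inr hz)
    · rw [hz]; exact hy
  · cases P with
    | nil => simpa using h3
    | cons p P => simpa using h3

lemma chain_of_split {α : Type*} {R : α → α → Prop} : ∀ l : List α,
    (∀ X x y Y, l = X ++ x :: y :: Y → R x y) → List.IsChain R l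
  | [], _ => List.isChain_nil
  | [a], _ => List.isChain_singleton a
  | (a :: b :: l), h => by
    refine List.IsChain.cons_cons (h [] a b l rfl) ?_
    apply chain_of_split
    intro X x y Y e
    exact h (a :: X) x y Y (by rw [e]; rfl)

lemma step (hE : EqvAlg G v) {π : ℕ → V} {C : Cx ℕ} {lb : ℕ → List V}
    (hsym : ∀ x y, C.E x y → C.E y x)
    (hhom : ∀ x y, C.E x y → G.Adj (π x) (π y)) (hlb : LbOK G v π C lb) {z y : ℕ} {W : List V}
    (hz : π z ≠ v) (hy : π y ≠ v) (hW : DPath G v (W ++ [π z]))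
    (h : Eqv G v (W ++ [π z]) (lb z)) (hk : KC G v π C lb z y) :
    DPath G v ((W ++ [π z]) ++ [π y]) ∧ Eqv G v ((W ++ [π z]) ++ [π y]) (lb y) := by
  obtain ⟨he, hk⟩ := hk
  have hadj := hhom z y he
  have hzS : z ∈ C.S := ⟨y, he⟩
  have hyS : y ∈ C.S := ⟨z, hsym _ _ he⟩
  have h1 : Eqv G v (lb z ++ [π y]) (lb y) := by
    rcases hk with ⟨_, _, h⟩ | ⟨h, _⟩ | ⟨h, _⟩
    · exact h
    · exact absurd h hz
    · exact absurd h hy
  obtain ⟨⟨Q, hQ⟩, hQd⟩ := hlb z hzS hz
  obtain ⟨-, hyd⟩ := hlb y hyS hy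
  rw [hQ] at h h1 hQd
  have e1 : W ++ [π z] ++ [π y] = W ++ [π z, π y] := by simp
  have e2 : Q ++ [π z] ++ [π y] = Q ++ [π z, π y] := by simp
  rw [e2] at h1
  rw [e1]
  have d1 := dpath_two hW hadj hy
  exact ⟨d1, hE.trans _ _ _ d1 (dpath_two hQd hadj hy) hyd
    (hE.app W Q (π z) (π y) hW hQd hadj hy h) h1⟩

lemma walk (hE : EqvAlg G v) {π : ℕ → V} {C : Cx ℕ} {lb : ℕ → List V}
    (hsym : ∀ x y, C.E x y → C.E y x)
    (hhom : ∀ x y, C.E x y → G.Adj (π x) (π y)) (hlb : LbOK G v π C lb) :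
    ∀ (M : List ℕ) (z : ℕ) (W : List V), π z ≠ v → (∀ x ∈ M, π x ≠ v) →
      DPath G v (W ++ [π z]) → Eqv G v (W ++ [π z]) (lb z) →
      List.IsChain (KC G v π C lb) (z :: M) →
      ∃ y W', (z :: M).getLast? = some y ∧ π y ≠ v ∧
        (W ++ [π z]) ++ M.map π = W' ++ [π y] ∧ DPath G v (W' ++ [π y]) ∧
        Eqv G v (W' ++ [π y]) (lb y)
  | [], z, W, hz, _, hW, h, _ => ⟨z, W, rfl, hz, by simp, hW, h⟩
  | (y :: M), z, W, hz, hM, hW, h, hc => by
    rw [List.isChain_cons_cons] at hc
    have hy : π y ≠ v := hM y (List.mem_cons_self)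
    obtain ⟨h1, h2⟩ := step hE hsym hhom hlb hz hy hW h hc.1
    obtain ⟨w, W', h3, h4, h5, h6, h7⟩ := walk hE hsym hhom hlb M y (W ++ [π z]) hy
      (fun x hx => hM x (List.mem_cons_of_mem _ hx)) h1 h2 hc.2
    refine ⟨w, W', ?_, h4, ?_, h6, h7⟩
    · rw [← h3]; simp [List.getLast?_cons_cons]
    · rw [← h5]; simp

lemma elem_right {H : SimpleGraph V} {P Q : List V} (Y : List V) (h : Elem H P Q) :
    Elem H (P ++ Y) (Q ++ Y) := by
  cases h with
  | spur p q a b hab =>
    have := Elem.spur (G := H) p (q ++ Y) a b hab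
    simpa using this
  | tri p q a b c hab hbc hac =>
    have := Elem.tri (G := H) p (q ++ Y) a b c hab hbc hac
    simpa using this

lemma eqv_right {H : SimpleGraph V} {P Q : List V} (Y : List V)
    (h : Relation.EqvGen (Elem H) P Q) : Relation.EqvGen (Elem H) (P ++ Y) (Q ++ Y) := by
  induction h with
  | rel P Q h => exact Relation.EqvGen.rel _ _ (elem_right Y h)
  | refl P => exact Relation.EqvGen.refl _
  | symm P Q _ ih => exact Relation.EqvGen.symm _ _ ih
  | trans P Q R _ _ ih1 ih2 => exact Relation.EqvGen.trans _ _ _ ih1 ih2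

lemma chain_del {P : List V} (h : List.IsChain G.Adj P) (hv : ∀ x ∈ P, x ≠ v) :
    List.IsChain (delG G v).Adj P := by
  induction P with
  | nil => exact List.isChain_nil
  | cons a P ih =>
    cases P with
    | nil => exact List.isChain_singleton a
    | cons b P =>
      rw [List.isChain_cons_cons] at h ⊢
      refine ⟨⟨h.1, hv a (by simp), hv b (by simp)⟩, ih h.2 fun x hx => hv x (by simp at hx ⊢; tauto)⟩

end LGO

open LGO in
theorem tLGO (h1 : T_CANC.{u}) : T_LGO.{u} := by
  intro V G v t s hL hE π C L b₀ M lb hsym hhom hLm hMs hb hlb hlt hbd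
  obtain ⟨hs, hLc, hLn⟩ := hL
  have hM : M ≠ [] := by
    rintro rfl
    exact hs hMs.symm
  -- consistency along the boundary
  have hch : List.IsChain (KC G v π C lb) (b₀ :: M) := by
    apply chain_of_split
    intro X x y Y e
    apply hbd
    refine ⟨Y ++ X, ?_⟩
    rw [hLm, e]
    exact ⟨X.length, by simp⟩
  have hMv : ∀ x ∈ M, π x ≠ v := by
    intro x hx
    apply hLn
    rw [List.mem_append]
    right
    rw [← hMs]
    exact List.mem_map_of_mem hx
  have hclose : ∀ z, (b₀ :: M).getLast? = some z → KC G v π C lb z b₀ := by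
    intro z hz
    apply hbd
    obtain ⟨b₁, M₁, hM1⟩ := List.exists_cons_of_ne_nil hM
    have hz' : M.getLast? = some z := by
      rw [hM1] at hz ⊢
      rw [← hz, List.getLast?_cons_cons]
    obtain ⟨M', hM'⟩ := List.getLast?_eq_some_iff.1 hz'
    refine ⟨M', ?_⟩
    rw [hLm, hM']
    refine ⟨(b₀ :: M').length, ?_⟩
    have : b₀ :: (M' ++ [z]) = (b₀ :: M') ++ [z] := by simp
    rw [this, List.rotate_append_length_eq]
    rfl
  obtain ⟨b₁, M₁, hM1⟩ := List.exists_cons_of_ne_nil hM
  have hch01 : KC G v π C lb b₀ b₁ := by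
    rw [hM1, List.isChain_cons_cons] at hch
    exact hch.1
  have hb0S : b₀ ∈ C.S := ⟨b₁, hch01.1⟩
  by_cases ht : t = []
  · -- the basepoint is `v`
    subst ht
    have hbv : π b₀ = v := by rw [hb]; rfl
    rw [hM1, List.isChain_cons_cons] at hch
    have hb1 : π b₁ ≠ v := hMv b₁ (by rw [hM1]; simp)
    have h2 : Eqv G v [π b₁] (lb b₁) := by
      rcases hch.1.2 with ⟨h, _⟩ | ⟨_, h⟩ | ⟨h, _⟩
      · exact absurd hbv h
      · exact h
      · exact absurd h hb1
    have hadj1 : G.Adj v (π b₁) := by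
      have := hhom _ _ hch.1.1
      rwa [hbv] at this
    have d1 : DPath G v ([] ++ [π b₁]) := by
      refine ⟨List.isChain_singleton _, ?_, π b₁, rfl, hadj1⟩
      intro z hz
      simp only [List.nil_append, List.mem_singleton] at hz
      rw [hz]; exact hb1
    obtain ⟨y, W', h3, h4, h5, h6, h7⟩ := walk hE hsym hhom hlb M₁ b₁ [] hb1
      (fun x hx => hMv x (by rw [hM1]; simp [hx])) d1 h2 hch.2
    have hy : (b₀ :: M).getLast? = some y := by
      rw [hM1, List.getLast?_cons_cons, h3]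
    obtain ⟨hye, hyk⟩ := hclose y hy
    have h8 : Eqv G v [π y] (lb y) := by
      rcases hyk with ⟨_, h, _⟩ | ⟨h, _⟩ | ⟨_, h⟩
      · exact absurd hbv h
      · exact absurd h h4
      · exact h
    have hadjy : G.Adj v (π y) := by
      have := hhom _ _ hye
      rw [hbv] at this
      exact this.symm
    have dy : DPath G v [π y] := by
      refine ⟨List.isChain_singleton _, ?_, π y, rfl, hadjy⟩
      intro z hz
      rw [List.mem_singleton] at hz
      rw [hz]; exact h4
    obtain ⟨-, dly⟩ := hlb y ⟨b₀, hye⟩ h4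
    have h9 : Eqv G v (W' ++ [π y]) [π y] :=
      hE.trans _ _ _ h6 dly dy h7 (hE.symm _ _ dy dly h8)
    have h10 := (hE.iness W' (π y) h6 hadjy).2 h9
    have e : s = W' ++ [π y] := by
      rw [← h5, ← hMs, hM1]; simp
    simpa [e] using h10
  · -- `t ≠ []`
    have hc : ∃ T', t = T' ++ [π b₀] := by
      have : t.getLast? = some (π b₀) := by
        rw [hb]
        obtain ⟨a, t', rfl⟩ := List.exists_cons_of_ne_nil ht
        unfold lcl
        rw [List.getLast_cons (by simp), List.getLast?_eq_getLast_of_ne_nil (by simp)]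
      exact List.getLast?_eq_some_iff.1 this
    obtain ⟨T', hT'⟩ := hc
    have hbv : π b₀ ≠ v := by
      apply hLn
      rw [List.mem_append]
      left
      rw [hT']; simp
    obtain ⟨-, dt⟩ := hlb b₀ hb0S hbv
    rw [hlt] at dt
    have h2 : Eqv G v (T' ++ [π b₀]) (lb b₀) := by
      rw [hlt, ← hT']
      exact hE.refl _ dt
    have dt' : DPath G v (T' ++ [π b₀]) := by rw [← hT']; exact dt
    obtain ⟨y, W', h3, h4, h5, h6, h7⟩ := walk hE hsym hhom hlb M b₀ T' hbv hMv dt' h2 hch
    have hcl := hclose y h3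
    obtain ⟨h8, h9⟩ := step hE hsym hhom hlb h4 hbv h6 h7 hcl
    rw [hlt] at h9
    rw [← h5, ← hT', hMs] at h9
    obtain ⟨R, hR, hR1, hR2, hR3⟩ := h9
    -- the head of `t`
    obtain ⟨z, Z, hz⟩ := List.exists_cons_of_ne_nil ht
    have hRl : R.getLast? = some z := by rw [hR2, hz]; rfl
    obtain ⟨R', hR'⟩ := List.getLast?_eq_some_iff.1 hRl
    have hzc : List.IsChain (delG G v).Adj (z :: Z) := by
      rw [← hz]
      exact chain_del dt.1 dt.2.1
    refine ⟨R, hR, ?_⟩
    have h10 := eqv_right (t.reverse.tail) hR3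
    have e1 : t ++ s ++ [π b₀] ++ t.reverse.tail = t ++ (s ++ t.reverse) := by
      have : t.reverse = π b₀ :: t.reverse.tail := by
        rw [hT']; simp
      conv_rhs => rw [this]
      simp
    rw [e1] at h10
    refine Relation.EqvGen.trans _ _ _ h10 ?_
    have h11 := (h1 (delG G v) R' [] Z z hzc).2
    have e2 : R ++ t.tail ++ t.reverse.tail = R' ++ (z :: (Z ++ ((z :: Z).reverse.tail ++ []))) := by
      rw [hR', hz]; simp
    rw [e2, hR']
    exact h11

end Pool.Agent.MSN
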