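import Pool.Agent.MSN.Lol

/-!
# LGOOD: arcs shorter than the minimal essential lollipop are inessential (helper83)
-/

namespace Pool.Agent.MSN

open List Pool.Agent.MSF

universe u

theorem tLGOOD : T_LGOOD.{u} := by
  intro V G len hnull v A t s hmin Q hQ hch hne hlen
  by_contra hess
  obtain ⟨b, l, rfl⟩ := List.exists_cons_of_ne_nil hQ
  have hCW : CW G (v :: b :: l) := hch
  obtain ⟨k, hk⟩ := hnull _ hCW
  have hLol : Lol G v [] (b :: l) := by
    refine ⟨hQ, hch, ?_⟩
    intro x hx
    exact hne x (by simpa using hx)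
  have hess' : ¬ Iness G v ([] ++ ((b :: l) ++ ([] : List V).reverse)) := by
    simpa using hess
  have h := (hmin.min [] (b :: l) k hLol hess' hk).1
  have h2 : Llen len v [] (b :: l) = elen len (v :: ((b :: l) ++ [v])) := by
    simp [Llen, lcl, elen, cyl]
  rw [h2] at h
  exact absurd h (not_le.2 hlen)

end Pool.Agent.MSN
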