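import Pool.Agent.MSN.Lol

/-! Target LIRR of the project MSN: minimal essential lollipops are irreducible. -/

namespace Pool.Agent.MSN

open List Pool.Agent.MSF

universe u

namespace LIRR

variable {V : Type u}

lemma elen_append (len : V → V → ℝ) (c : V) (Q : List V) : ∀ P : List V,
    elen len (P ++ c :: Q) = elen len (P ++ [c]) + elen len (c :: Q)
  | [] => by simp [elen]
  | [p] => by simp [elen]
  | p :: q :: P => by
    have := elen_append len c Q (q :: P)
    simp only [List.cons_append, elen] at this ⊢
    rw [this]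
    ring

lemma elen_reverse (len : V → V → ℝ) (hs : ∀ x y, len x y = len y x) : ∀ P : List V,
    elen len P.reverse = elen len P
  | [] => rfl
  | [p] => rfl
  | p :: q :: P => by
    have h1 := elen_reverse len hs (q :: P)
    have h2 : (p :: q :: P).reverse = P.reverse ++ q :: [p] := by simp
    have h3 : (q :: P).reverse = P.reverse ++ [q] := by simp
    rw [h2, elen_append, ← h3, h1]
    simp only [elen]
    rw [hs q p]
    ring

lemma elen_nonneg (len : V → V → ℝ) {E : V → V → Prop} (hp : ∀ x y, E x y → 0 < len x y) :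
    ∀ P : List V, List.IsChain E P → 0 ≤ elen len P
  | [], _ => le_rfl
  | [p], _ => le_rfl
  | p :: q :: P, h => by
    rw [List.isChain_cons_cons] at h
    have h1 := elen_nonneg len hp (q :: P) h.2
    have h2 := hp p q h.1
    simp only [elen]
    linarith

lemma elen_pos (len : V → V → ℝ) {E : V → V → Prop} (hp : ∀ x y, E x y → 0 < len x y)
    (p c : V) (M : List V) (h : List.IsChain E (p :: (M ++ [c]))) :
    0 < elen len (p :: (M ++ [c])) := by
  cases M with
  | nil =>
    simp only [List.nil_append, List.isChain_cons_cons] at h ⊢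
    have := hp p c h.1
    simp only [elen]
    linarith
  | cons q M =>
    simp only [List.cons_append, List.isChain_cons_cons] at h ⊢
    have h1 := elen_nonneg len hp (q :: (M ++ [c])) h.2
    have h2 := hp p q h.1
    simp only [elen]
    linarith

lemma eqv_ctx {H : SimpleGraph V} {P P' : List V} (X Y : List V)
    (h : Relation.EqvGen (Elem H) P P') :
    Relation.EqvGen (Elem H) (X ++ P ++ Y) (X ++ P' ++ Y) := by
  induction h with
  | rel _ _ h =>
    refine Relation.EqvGen.rel _ _ ?_
    cases h with
    | spur p q a b h =>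
      have := Elem.spur (X ++ p) (q ++ Y) a b h
      simpa using this
    | tri p q a b c h1 h2 h3 =>
      have := Elem.tri (X ++ p) (q ++ Y) a b c h1 h2 h3
      simpa using this
  | refl _ => exact Relation.EqvGen.refl _
  | symm _ _ _ ih => exact Relation.EqvGen.symm _ _ ih
  | trans _ _ _ _ _ ih ih' => exact Relation.EqvGen.trans _ _ _ ih ih'

lemma chainDel {G : SimpleGraph V} {v : V} : ∀ {P : List V}, List.IsChain G.Adj P →
    (∀ x ∈ P, x ≠ v) → List.IsChain (delG G v).Adj P
  | [], _, _ => List.isChain_nil
  | [p], _, _ => List.isChain_singleton p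
  | p :: q :: P, h, h' => by
    rw [List.isChain_cons_cons] at h ⊢
    refine ⟨⟨h.1, h' p (by simp), h' q (by simp)⟩, chainDel h.2 fun x hx => h' x ?_⟩
    exact List.mem_cons_of_mem _ hx

lemma split_last (v : V) (t : List V) : v :: t = (v :: t).dropLast ++ [lcl v t] := by
  unfold lcl
  exact (List.dropLast_append_getLast (by simp)).symm

lemma chain_rev {G : SimpleGraph V} {P : List V} (h : List.IsChain G.Adj P) :
    List.IsChain G.Adj P.reverse := by
  rw [List.isChain_reverse]
  exact h.imp fun _ _ h => h.symm

lemma lol_iff {G : SimpleGraph V} {v : V} {t s : List V} : Lol G v t s ↔ s ≠ [] ∧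
    List.IsChain G.Adj (v :: t) ∧ List.IsChain G.Adj (lcl v t :: (s ++ [lcl v t])) ∧
    ∀ x ∈ t ++ s, x ≠ v := by
  have h1 := split_last v t
  set T := (v :: t).dropLast with hT
  set c := lcl v t with hc
  have h2 : t.reverse ++ [v] = c :: T.reverse := by
    rw [← List.reverse_cons, h1]
    simp
  have h3 : v :: (t ++ (s ++ (t.reverse ++ [v]))) = T ++ c :: (s ++ c :: T.reverse) := by
    rw [h2, ← List.cons_append, h1]
    simp
  unfold Lol
  rw [h3, List.isChain_split, h1]
  have h4 : c :: (s ++ c :: T.reverse) = (c :: s) ++ c :: T.reverse := rfl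
  have h5 : c :: (s ++ [c]) = (c :: s) ++ [c] := rfl
  rw [h4, List.isChain_split (l₁ := c :: s) (l₂ := T.reverse), h5]
  constructor
  · rintro ⟨a, ⟨b, c, -⟩, d⟩
    exact ⟨a, b, c, d⟩
  · rintro ⟨a, b, c', d⟩
    refine ⟨a, ⟨b, c', ?_⟩, d⟩
    have := chain_rev b
    simpa using this

lemma iness_short {G : SimpleGraph V} {len : V → V → ℝ} {v : V} {A : ℕ} {t s : List V}
    (hM : MinLol G len v A t s) {t' s' : List V} {k : ℕ} (hL : Lol G v t' s')
    (hN : Null G k (lcl v t' :: s')) (h : Llen len v t' s' < Llen len v t s ∨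
      (Llen len v t' s' ≤ Llen len v t s ∧ k ≤ A ∧ s'.length < s.length)) :
    Iness G v (t' ++ (s' ++ t'.reverse)) := by
  by_contra hc
  have h1 := hM.min t' s' k hL hc hN
  rcases h with h | ⟨h, h2, h3⟩
  · exact absurd h1.1 (not_le.mpr h)
  · have := (h1.2 h).2 h2
    omega

/-- composition of inessential paths -/
lemma iness_comp (hH : T_HEAD.{u}) {G : SimpleGraph V} {v : V} {P A B : List V} {h : V}
    (hA : Iness G v (A ++ [h])) (hB : Iness G v (h :: B))
    (hP : Relation.EqvGen (Elem (delG G v)) (A ++ h :: B) P) : Iness G v P := by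
  obtain ⟨Q₂, ⟨a1, a2, a3⟩, a4⟩ := hA
  obtain ⟨Q₁, ⟨b1, b2, b3⟩, b4⟩ := hB
  have c1 := hH G {x | x ≠ v} _ _ (by simp) a4
  have c2 := hH G {x | x ≠ v} _ _ (by simp) b4
  have d1 := c1.2.2.1
  have d2 := c2.2.1
  rw [List.getLast?_concat] at d1
  rw [List.head?_cons] at d2
  rcases List.eq_nil_or_concat Q₂ with rfl | ⟨R, r, rfl⟩
  · exact absurd rfl a1
  rw [List.concat_eq_append] at *
  rw [List.getLast?_concat, Option.some.injEq] at d1
  subst d1
  cases Q₁ with
  | nil => exact absurd rfl b1
  | cons q Q =>
    rw [List.head?_cons, Option.some.injEq] at d2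
    subst d2
    refine ⟨R ++ q :: Q, ⟨by simp, ?_, ?_⟩, ?_⟩
    · rw [List.isChain_split]
      exact ⟨a2, b2⟩
    · intro x hx
      rw [List.mem_append] at hx
      rcases hx with hx | hx
      · exact a3 x (by simp [hx])
      · exact b3 x hx
    · refine (hP.symm _ _).trans _ _ _ ?_
      have e1 := eqv_ctx [] B a4
      have e2 := eqv_ctx R [] b4
      simp only [List.nil_append, List.append_assoc, List.cons_append, List.append_nil] at e1 e2
      exact e1.trans _ _ _ e2

lemma lcl_append (v : V) (t U : List V) (a : V) : lcl v (t ++ (U ++ [a])) = a := by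
  unfold lcl
  have : v :: (t ++ (U ++ [a])) = (v :: (t ++ U)) ++ [a] := by simp
  simp only [this, List.getLast_append, List.getLast_singleton]
  simp

lemma lcl_cons (v z : V) (Z : List V) : lcl v (z :: Z) = lcl z Z := by
  unfold lcl
  rw [List.getLast_cons]

lemma elen_ext (len : V → V → ℝ) (v : V) (t M : List V) :
    elen len (v :: (t ++ M)) = elen len (v :: t) + elen len (lcl v t :: M) := by
  have h1 := split_last v t
  rw [← List.cons_append, h1, List.append_assoc, List.singleton_append, elen_append]

lemma chain_ext {G : SimpleGraph V} (v : V) (t M : List V) :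
    List.IsChain G.Adj (v :: (t ++ M)) ↔
      List.IsChain G.Adj (v :: t) ∧ List.IsChain G.Adj (lcl v t :: M) := by
  have h1 := split_last v t
  rw [← List.cons_append, h1, List.append_assoc, List.singleton_append, List.isChain_split]

lemma cw_of {G : SimpleGraph V} {a : V} {l : List V} (hl : l ≠ [])
    (h : List.IsChain G.Adj (a :: (l ++ [a]))) : CW G (a :: l) := by
  cases l with
  | nil => exact absurd rfl hl
  | cons b l => simpa [CW] using h

/-- general case -/
lemma core (hC : T_CANC.{u}) (hH : T_HEAD.{u}) {G : SimpleGraph V} {len : V → V → ℝ}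
    (hs : ∀ a b, len a b = len b a) (hp : ∀ a b, G.Adj a b → 0 < len a b)
    (hN : ∀ w, CW G w → ∃ A, Null G A w) {v : V} {A n : ℕ} {t U Y W : List V} {a : V}
    (hM : MinLol G len v A t (U ++ a :: (Y ++ a :: W))) (hY : Y ≠ [])
    (hn : Null G n (a :: Y)) (hnA : n ≤ A) : False := by
  obtain ⟨-, k1, k2, k3⟩ := lol_iff.mp hM.lol
  set c := lcl v t with hc
  -- the three walks
  have e0 : c :: (U ++ a :: (Y ++ a :: W) ++ [c]) =
      (c :: U) ++ a :: (Y ++ a :: (W ++ [c])) := by simp
  have e1 : a :: (Y ++ a :: (W ++ [c])) = (a :: Y) ++ a :: (W ++ [c]) := rfl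
  rw [e0, List.isChain_split (l₁ := c :: U), e1, List.isChain_split (l₁ := a :: Y)] at k2
  obtain ⟨kU, kY, kW⟩ := k2
  simp only [List.cons_append] at kU kY
  have pY := elen_pos len hp a a Y kY
  have kW' : List.IsChain G.Adj (c :: (W.reverse ++ [a])) := by
    have := chain_rev kW
    simpa using this
  have eW' : elen len (c :: (W.reverse ++ [a])) = elen len (a :: (W ++ [c])) := by
    rw [← elen_reverse len hs (a :: (W ++ [c]))]
    simp
  have hL : Llen len v t (U ++ a :: (Y ++ a :: W)) = 2 * elen len (v :: t) +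
      (elen len (c :: (U ++ [a])) + (elen len (a :: (Y ++ [a])) +
        elen len (a :: (W ++ [c])))) := by
    unfold Llen
    rw [← hc]
    change _ + elen len (c :: (U ++ a :: (Y ++ a :: W) ++ [c])) = _
    rw [e0, elen_append len a _ (c :: U), e1, elen_append len a _ (a :: Y)]
    simp
  have k3' : ∀ x, x ∈ t ∨ x ∈ U ∨ x = a ∨ x ∈ Y ∨ x ∈ W → x ≠ v := by
    intro x hx
    refine k3 x ?_
    simp only [List.mem_append, List.mem_cons]
    tauto
  -- P1
  have kL1 : Lol G v t (U ++ a :: W) := by
    refine lol_iff.mpr ⟨by simp, k1, ?_, ?_⟩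
    · have e2 : c :: (U ++ a :: W ++ [c]) = (c :: U) ++ a :: (W ++ [c]) := by simp
      rw [← hc, e2, List.isChain_split]
      exact ⟨kU, kW⟩
    · intro x hx
      refine k3' x ?_
      simp only [List.mem_append, List.mem_cons] at hx
      tauto
  have kI1 : Iness G v (t ++ ((U ++ a :: W) ++ t.reverse)) := by
    obtain ⟨k, hk⟩ := hN (lcl v t :: (U ++ a :: W)) (cw_of (by simp) (lol_iff.mp kL1).2.2.1)
    refine iness_short hM kL1 hk (Or.inl ?_)
    rw [hL]
    unfold Llen
    rw [← hc]
    change _ + elen len (c :: (U ++ a :: W ++ [c])) < _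
    have e2 : c :: (U ++ a :: W ++ [c]) = (c :: U) ++ a :: (W ++ [c]) := by simp
    rw [e2, elen_append]
    simp only [List.cons_append]
    linarith
  have hlen : Y.length < (U ++ a :: (Y ++ a :: W)).length := by
    simp only [List.length_append, List.length_cons]
    omega
  refine hM.ess ?_
  rcases le_total (elen len (c :: (U ++ [a]))) (elen len (a :: (W ++ [c]))) with hUW | hUW
  · -- first choice
    have kL2 : Lol G v (t ++ (U ++ [a])) Y := by
      refine lol_iff.mpr ⟨hY, (chain_ext v t _).mpr ⟨k1, kU⟩, ?_, ?_⟩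
      · rw [lcl_append]
        exact kY
      · intro x hx
        refine k3' x ?_
        simp only [List.mem_append, List.mem_singleton] at hx
        tauto
    have kI2 : Iness G v ((t ++ (U ++ [a])) ++ (Y ++ (t ++ (U ++ [a])).reverse)) := by
      refine iness_short hM kL2 (by rw [lcl_append]; exact hn) (Or.inr ⟨?_, hnA, hlen⟩)
      rw [hL]
      unfold Llen
      rw [lcl_append, elen_ext]
      change _ + elen len (a :: (Y ++ [a])) ≤ _
      rw [← hc]
      linarith
    obtain ⟨z, Z, hz⟩ : ∃ z Z, t ++ (U ++ [a]) = z :: Z := by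
      cases h : t ++ (U ++ [a]) with
      | nil => simp at h
      | cons z Z => exact ⟨z, Z, rfl⟩
    have hza : lcl z Z = a := by
      rw [← lcl_cons v z Z, ← hz, lcl_append]
    have hzc : List.IsChain (delG G v).Adj (z :: Z) := by
      refine chainDel ?_ ?_
      · rw [← hz]
        exact ((chain_ext v t _).mpr ⟨k1, kU⟩).tail
      · intro x hx
        rw [← hz] at hx
        refine k3' x ?_
        simp only [List.mem_append, List.mem_singleton] at hx
        tauto
    have hcan := (hC (delG G v) ((z :: Z) ++ Y) (W ++ t.reverse) Z z hzc).1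
    rw [hza] at hcan
    have f1 : t ++ ((U ++ a :: W) ++ t.reverse) = z :: (Z ++ (W ++ t.reverse)) := by
      rw [← List.cons_append, ← hz]
      simp
    have f2 : (t ++ (U ++ [a])) ++ (Y ++ (t ++ (U ++ [a])).reverse) =
        ((z :: Z) ++ Y ++ Z.reverse) ++ [z] := by
      rw [hz]
      simp
    rw [f1] at kI1
    rw [f2] at kI2
    refine iness_comp hH kI2 kI1 ?_
    have f3 : (z :: Z) ++ Y ++ Z.reverse ++ z :: (Z ++ (W ++ t.reverse)) =
        (z :: Z) ++ Y ++ ((z :: Z).reverse ++ (Z ++ (W ++ t.reverse))) := by simp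
    have f4 : t ++ ((U ++ a :: (Y ++ a :: W)) ++ t.reverse) =
        (z :: Z) ++ Y ++ a :: (W ++ t.reverse) := by
      rw [← hz]
      simp
    rw [f3, f4]
    exact hcan
  · -- second choice
    have kL2 : Lol G v (t ++ (W.reverse ++ [a])) Y := by
      refine lol_iff.mpr ⟨hY, (chain_ext v t _).mpr ⟨k1, kW'⟩, ?_, ?_⟩
      · rw [lcl_append]
        exact kY
      · intro x hx
        refine k3' x ?_
        simp only [List.mem_append, List.mem_singleton, List.mem_reverse] at hx
        tauto
    have kI2 : Iness G v ((t ++ (W.reverse ++ [a])) ++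
        (Y ++ (t ++ (W.reverse ++ [a])).reverse)) := by
      refine iness_short hM kL2 (by rw [lcl_append]; exact hn) (Or.inr ⟨?_, hnA, hlen⟩)
      rw [hL]
      unfold Llen
      rw [lcl_append, elen_ext]
      change _ + elen len (a :: (Y ++ [a])) ≤ _
      rw [← hc, eW']
      linarith
    obtain ⟨z, Z, hz⟩ : ∃ z Z, t ++ (W.reverse ++ [a]) = z :: Z := by
      cases h : t ++ (W.reverse ++ [a]) with
      | nil => simp at h
      | cons z Z => exact ⟨z, Z, rfl⟩
    have hza : lcl z Z = a := by
      rw [← lcl_cons v z Z, ← hz, lcl_append]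
    have hzc : List.IsChain (delG G v).Adj (z :: Z) := by
      refine chainDel ?_ ?_
      · rw [← hz]
        exact ((chain_ext v t _).mpr ⟨k1, kW'⟩).tail
      · intro x hx
        rw [← hz] at hx
        refine k3' x ?_
        simp only [List.mem_append, List.mem_singleton, List.mem_reverse] at hx
        tauto
    have hzr : (z :: Z).reverse = a :: (W ++ t.reverse) := by
      rw [← hz]
      simp
    have hcan := (hC (delG G v) (t ++ U) (Y ++ (z :: Z).reverse) Z z hzc).1
    rw [hza] at hcan
    have f1 : t ++ ((U ++ a :: W) ++ t.reverse) = (t ++ U ++ Z.reverse) ++ [z] := by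
      have : t ++ ((U ++ a :: W) ++ t.reverse) = t ++ U ++ (a :: (W ++ t.reverse)) := by simp
      rw [this, ← hzr]
      simp
    have f2 : (t ++ (W.reverse ++ [a])) ++ (Y ++ (t ++ (W.reverse ++ [a])).reverse) =
        z :: (Z ++ (Y ++ (z :: Z).reverse)) := by
      rw [hz]
      simp
    rw [f1] at kI1
    rw [f2] at kI2
    refine iness_comp hH kI1 kI2 ?_
    have f3 : t ++ U ++ Z.reverse ++ z :: (Z ++ (Y ++ (z :: Z).reverse)) =
        t ++ U ++ ((z :: Z).reverse ++ (Z ++ (Y ++ (z :: Z).reverse))) := by simp
    have f4 : t ++ ((U ++ a :: (Y ++ a :: W)) ++ t.reverse) =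
        t ++ U ++ a :: (Y ++ (z :: Z).reverse) := by
      rw [hzr]
      simp
    rw [f3, f4]
    exact hcan

/-- the case where the vertex is the root -/
lemma core0 (hC : T_CANC.{u}) (hH : T_HEAD.{u}) {G : SimpleGraph V} {len : V → V → ℝ}
    (hp : ∀ a b, G.Adj a b → 0 < len a b) {v : V} {A m n : ℕ} {t X Y : List V}
    (hM : MinLol G len v A t (X ++ lcl v t :: Y)) (hX : X ≠ []) (hY : Y ≠ [])
    (hm : Null G m (lcl v t :: X)) (hn : Null G n (lcl v t :: Y)) : False := by
  obtain ⟨-, k1, k2, k3⟩ := lol_iff.mp hM.lol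
  have ht : t ≠ [] := by
    rintro rfl
    exact k3 (lcl v []) (by simp) rfl
  set c := lcl v t with hc
  have e0 : c :: (X ++ c :: Y ++ [c]) = (c :: X) ++ c :: (Y ++ [c]) := by simp
  rw [e0, List.isChain_split] at k2
  obtain ⟨kX, kY⟩ := k2
  simp only [List.cons_append] at kX
  have pX := elen_pos len hp c c X kX
  have pY := elen_pos len hp c c Y kY
  have hL : Llen len v t (X ++ c :: Y) = 2 * elen len (v :: t) +
      (elen len (c :: (X ++ [c])) + elen len (c :: (Y ++ [c]))) := by
    unfold Llen
    rw [← hc]
    change _ + elen len (c :: (X ++ c :: Y ++ [c])) = _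
    rw [e0, elen_append]
    simp
  have kI1 : Iness G v (t ++ (X ++ t.reverse)) := by
    refine iness_short hM (lol_iff.mpr ⟨hX, k1, kX, fun x hx => k3 x ?_⟩) hm (Or.inl ?_)
    · simp only [List.mem_append, List.mem_cons] at hx ⊢
      tauto
    · rw [hL]
      unfold Llen
      rw [← hc]
      change _ + elen len (c :: (X ++ [c])) < _
      linarith
  have kI2 : Iness G v (t ++ (Y ++ t.reverse)) := by
    refine iness_short hM (lol_iff.mpr ⟨hY, k1, kY, fun x hx => k3 x ?_⟩) hn (Or.inl ?_)
    · simp only [List.mem_append, List.mem_cons] at hx ⊢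
      tauto
    · rw [hL]
      unfold Llen
      rw [← hc]
      change _ + elen len (c :: (Y ++ [c])) < _
      linarith
  refine hM.ess ?_
  obtain ⟨z, Z, hz⟩ : ∃ z Z, t = z :: Z := by
    cases h : t with
    | nil => exact absurd h ht
    | cons z Z => exact ⟨z, Z, rfl⟩
  have hza : lcl z Z = c := by
    rw [← lcl_cons v z Z, ← hz]
  have hzc : List.IsChain (delG G v).Adj (z :: Z) := by
    refine chainDel ?_ ?_
    · rw [← hz]
      exact k1.tail
    · intro x hx
      rw [← hz] at hx
      exact k3 x (by simp [hx])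
  have hcan := (hC (delG G v) (t ++ X) (Y ++ t.reverse) Z z hzc).1
  rw [hza] at hcan
  have f1 : t ++ (X ++ t.reverse) = (t ++ X ++ Z.reverse) ++ [z] := by
    rw [hz]
    simp
  have f2 : t ++ (Y ++ t.reverse) = z :: (Z ++ (Y ++ t.reverse)) := by
    rw [← List.cons_append, ← hz]
  rw [f1] at kI1
  rw [f2] at kI2
  refine iness_comp hH kI1 kI2 ?_
  have f3 : t ++ X ++ Z.reverse ++ z :: (Z ++ (Y ++ t.reverse)) =
      t ++ X ++ ((z :: Z).reverse ++ (Z ++ (Y ++ t.reverse))) := by simp
  have f4 : t ++ ((X ++ c :: Y) ++ t.reverse) = t ++ X ++ c :: (Y ++ t.reverse) := by simp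
  rw [f3, f4]
  exact hcan

end LIRR

open LIRR in
theorem tLIRR (h1 : T_CANC.{u}) (h2 : T_HEAD.{u}) : T_LIRR.{u} := by
  intro V G len hs hp hN v A t s hM
  obtain ⟨k0, k1, k2, k3⟩ := lol_iff.mp hM.lol
  refine ⟨?_, ⟨hM.null, fun k hk => ((hM.min t s k hM.lol hM.ess hk).2 le_rfl).1⟩, ?_⟩
  · -- at least three vertices
    by_contra hlt
    have hs1 : s.length = 1 := by
      have : s.length ≠ 0 := by
        rw [Ne, List.length_eq_zero_iff]
        exact k0
      simp only [List.length_cons] at hlt
      omega
    obtain ⟨x, rfl⟩ := List.length_eq_one_iff.mp hs1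
    refine hM.ess ?_
    cases t with
    | nil =>
      refine ⟨[x], ⟨by simp, List.isChain_singleton x, ?_⟩, Relation.EqvGen.refl _⟩
      intro y hy
      rw [List.mem_singleton] at hy
      subst hy
      simp only [List.cons_append, List.nil_append, List.isChain_cons_cons] at k2
      exact k2.1
    | cons z Z =>
      have hzv : G.Adj v z := by
        rw [List.isChain_cons_cons] at k1
        exact k1.1
      refine ⟨[z], ⟨by simp, List.isChain_singleton z, ?_⟩, ?_⟩
      · intro y hy
        rw [List.mem_singleton] at hy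
        subst hy
        exact hzv
      have hzc : List.IsChain (delG G v).Adj (z :: Z) :=
        chainDel k1.tail fun y hy => k3 y (by simp only [List.mem_append]; exact Or.inl hy)
      obtain ⟨D, hc⟩ : ∃ D, z :: Z = D ++ [lcl z Z] := ⟨_, split_last z Z⟩
      have hr : (z :: Z).reverse = lcl z Z :: D.reverse := by
        conv_lhs => rw [hc]
        simp
      have hr' : (z :: Z).reverse.tail = D.reverse := by rw [hr]; rfl
      rw [lcl_cons] at k2
      have hxc : (delG G v).Adj (lcl z Z) x := by
        simp only [List.cons_append, List.nil_append, List.isChain_cons_cons] at k2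
        refine ⟨k2.1, ?_, k3 x (by simp)⟩
        refine k3 _ ?_
        simp only [List.mem_append]
        left
        unfold lcl
        exact List.getLast_mem _
      have g1 : (z :: Z) ++ ([x] ++ (z :: Z).reverse) =
          D ++ lcl z Z :: x :: lcl z Z :: D.reverse := by
        rw [hr, hc]
        simp
      have g2 := Relation.EqvGen.rel _ _ (Elem.spur (G := delG G v) D D.reverse (lcl z Z) x hxc)
      have g3 := (h1 (delG G v) [] [] Z z hzc).2
      rw [hr'] at g3
      rw [g1]
      refine (g2.symm _ _).trans _ _ _ ?_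
      have g4 : D ++ lcl z Z :: D.reverse = z :: (Z ++ (D.reverse ++ [])) := by
        rw [List.append_nil, ← List.cons_append, hc]
        simp
      rw [g4]
      simpa using g3
  · -- irreducible
    intro a X Y m n hr hX hY hm hn
    by_contra hlt
    rw [not_lt] at hlt
    obtain ⟨j, hj⟩ := hr.symm
    rw [← List.rotate_mod] at hj
    set w' := a :: (X ++ a :: Y) with hw'
    have hpos : 0 < w'.length := by simp [hw']
    set i := j % w'.length with hi
    have hi' : i < w'.length := Nat.mod_lt _ hpos
    rw [List.rotate_eq_drop_append_take hi'.le] at hj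
    have hab : w'.take i ++ w'.drop i = (a :: X) ++ (a :: Y) := by
      rw [List.take_append_drop]
      simp [hw']
    have hdrop : w'.drop i ≠ [] := by
      rw [Ne, List.drop_eq_nil_iff]
      omega
    generalize w'.take i = α at hj hab
    generalize w'.drop i = β at hj hab hdrop
    have key0 : ∀ X' Y' : List V, ∀ m' n' : ℕ, X' ≠ [] → Y' ≠ [] → Null G m' (a :: X') →
        Null G n' (a :: Y') → lcl v t = a → s = X' ++ a :: Y' → False := by
      intro X' Y' m' n' q1 q2 q3 q4 q5 q6
      rw [← q5] at q3 q4 q6
      rw [q6] at hM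
      exact core0 h1 h2 hp hM q1 q2 q3 q4
    have key1 : ∀ U' Y' W' : List V, ∀ n' : ℕ, Y' ≠ [] → Null G n' (a :: Y') → n' ≤ A →
        s = U' ++ a :: (Y' ++ a :: W') → False := by
      intro U' Y' W' n' q1 q2 q3 q4
      rw [q4] at hM
      exact core h1 h2 hs hp hN hM q1 q2 q3
    rw [List.append_eq_append_iff] at hab
    rcases hab with ⟨γ, g1, g2⟩ | ⟨γ, g1, g2⟩
    · -- the beginning lies in the first part
      cases γ with
      | nil =>
        rw [List.append_nil] at g1
        rw [List.nil_append] at g2
        rw [g2, ← g1, List.cons_append, List.cons.injEq] at hj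
        exact key0 Y X n m hY hX hn hm hj.1.symm hj.2.symm
      | cons c' U =>
        rw [g2, List.cons_append, List.cons_append, List.cons.injEq] at hj
        cases α with
        | nil =>
          rw [List.nil_append, List.cons.injEq] at g1
          obtain ⟨rfl, rfl⟩ := g1
          refine key0 X Y m n hX hY hm hn hj.1.symm ?_
          rw [← hj.2]
          simp
        | cons a' W =>
          rw [List.cons_append, List.cons.injEq] at g1
          obtain ⟨rfl, g1⟩ := g1
          refine key1 U Y W n hY hn (by omega) ?_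
          rw [← hj.2]
          simp
    · cases γ with
      | nil =>
        rw [List.append_nil] at g1
        rw [List.nil_append] at g2
        rw [← g2, g1, List.cons_append, List.cons.injEq] at hj
        exact key0 Y X n m hY hX hn hm hj.1.symm hj.2.symm
      | cons a' W =>
        rw [List.cons_append, List.cons.injEq] at g2
        obtain ⟨rfl, g2⟩ := g2
        cases β with
        | nil => exact absurd rfl hdrop
        | cons c' β' =>
          rw [List.cons_append, List.cons.injEq] at hj
          refine key1 β' X W m hX hm (by omega) ?_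
          rw [← hj.2, g1]
          simp

end Pool.Agent.MSN
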