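import Pool.Agent.MSN.Lol

set_option autoImplicit false

namespace Pool.Agent.MSN

open List Pool.Agent.MSF

universe u

namespace LKS

variable {V : Type u} {G : SimpleGraph V} {v : V}

lemma dpath_one {x : V} (h : G.Adj v x) : DPath G v [x] := by
  refine ⟨List.isChain_singleton x, ?_, x, rfl, h⟩
  intro y hy
  rw [List.mem_singleton] at hy
  subst hy
  exact h.ne'

lemma dpath_two {P : List V} {x y : V} (h : DPath G v (P ++ [x])) (hxy : G.Adj x y)
    (hy : y ≠ v) : DPath G v (P ++ [x, y]) := by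
  obtain ⟨h1, h2, a, h3, h4⟩ := h
  refine ⟨?_, ?_, a, ?_, h4⟩
  · have e : P ++ [x, y] = (P ++ [x]) ++ [y] := by simp
    rw [e, List.isChain_append]
    refine ⟨h1, List.isChain_singleton y, ?_⟩
    intro p hp q hq
    simp at hp hq
    subst hp; subst hq
    exact hxy
  · intro z hz
    simp only [List.mem_append, List.mem_cons, List.not_mem_nil, or_false] at hz h2
    rcases hz with hz | hz | hz
    · exact h2 z (Or.inl hz)
    · exact h2 z (Or.inr hz)
    · rw [hz]; exact hy
  · cases P with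
    | nil => simpa using h3
    | cons p P => simpa using h3

lemma hom_spur (hE : EqvAlg G v) {P : List V} {x y : V} (h : DPath G v (P ++ [x]))
    (hxy : G.Adj x y) (hx : x ≠ v) (hy : y ≠ v) :
    Eqv G v (P ++ [x]) (P ++ [x, y, x]) := by
  apply hE.hom _ _ h
  have := Elem.spur (G := delG G v) P [] x y ⟨hxy, hx, hy⟩
  exact Relation.EqvGen.rel _ _ this

lemma hom_tri (hE : EqvAlg G v) {P : List V} {x y z : V} (h : DPath G v (P ++ [x]))
    (hxy : G.Adj x y) (hyz : G.Adj y z) (hxz : G.Adj x z) (hx : x ≠ v) (hy : y ≠ v) (hz : z ≠ v) :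
    Eqv G v (P ++ [x, z]) (P ++ [x, y, z]) := by
  apply hE.hom _ _ (dpath_two h hxz hz)
  have := Elem.tri (G := delG G v) P [] x y z ⟨hxy, hx, hy⟩ ⟨hyz, hy, hz⟩ ⟨hxz, hx, hz⟩
  exact Relation.EqvGen.rel _ _ this

/-- The symmetric form of the first case. -/
lemma symm_main (hE : EqvAlg G v) {P Q : List V} {x y : V} (hP : DPath G v (P ++ [x]))
    (hQ : DPath G v (Q ++ [y])) (hxy : G.Adj x y) (hx : x ≠ v) (hy : y ≠ v)
    (h : Eqv G v (P ++ [x, y]) (Q ++ [y])) : Eqv G v (P ++ [x]) (Q ++ [y, x]) := by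
  have hP2 : DPath G v (P ++ [x, y]) := dpath_two hP hxy hy
  have e1 : P ++ [x, y] = (P ++ [x]) ++ [y] := by simp
  have e2 : P ++ [x, y, x] = (P ++ [x]) ++ [y, x] := by simp
  have hP2' : DPath G v ((P ++ [x]) ++ [y]) := by rw [← e1]; exact hP2
  have hP3 : DPath G v ((P ++ [x]) ++ [y, x]) := dpath_two hP2' hxy.symm hx
  have h' : Eqv G v ((P ++ [x]) ++ [y]) (Q ++ [y]) := by rw [← e1]; exact h
  have h1 := hE.app (P ++ [x]) Q y x hP2' hQ hxy.symm hx h'
  have h2 := hom_spur hE hP hxy hx hy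
  rw [e2] at h2
  exact hE.trans _ _ _ hP hP3 (dpath_two hQ hxy.symm hx) h2 h1

end LKS

open LKS in
theorem tLKS : T_LKS.{u} := by
  intro V G v π C lb hE hsym hcyc hTE hhom hlb
  have hS : ∀ x y, C.E x y → x ∈ C.S := fun x y h => ⟨y, h⟩
  constructor
  · rintro x y ⟨hxy, h⟩
    refine ⟨hsym x y hxy, ?_⟩
    rcases h with ⟨hx, hy, h⟩ | ⟨hx, h⟩ | ⟨hy, h⟩
    · left
      refine ⟨hy, hx, ?_⟩
      obtain ⟨⟨P, hP⟩, hPd⟩ := hlb x (hS x y hxy) hx
      obtain ⟨⟨Q, hQ⟩, hQd⟩ := hlb y (hS y x (hsym x y hxy)) hy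
      have hadj := hhom x y hxy
      rw [hP] at hPd h ⊢
      rw [hQ] at hQd h ⊢
      have e1 : P ++ [π x] ++ [π y] = P ++ [π x, π y] := by simp
      have e2 : Q ++ [π y] ++ [π x] = Q ++ [π y, π x] := by simp
      rw [e1] at h
      rw [e2]
      exact hE.symm _ _ hPd (dpath_two hQd hadj.symm hx)
        (symm_main hE hPd hQd hadj hx hy h)
    · right; right
      exact ⟨hx, h⟩
    · right; left
      exact ⟨hy, h⟩
  · intro x y z hT hxy hyz
    obtain ⟨exy, hxy⟩ := hxy
    obtain ⟨eyz, hyz⟩ := hyz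
    have ezx : C.E z x := hTE z x y (hcyc _ _ _ (hcyc _ _ _ hT))
    have exz : C.E x z := hsym _ _ ezx
    have aXY := hhom x y exy
    have aYZ := hhom y z eyz
    have aXZ := hhom x z exz
    refine ⟨exz, ?_⟩
    have hlx := hlb x (hS x y exy)
    have hly := hlb y (hS y z eyz)
    have hlz := hlb z (hS z x ezx)
    by_cases hX : π x = v
    · -- case B
      have hY : π y ≠ v := by rw [← hX]; exact aXY.ne'
      have hZ : π z ≠ v := by rw [← hX]; exact aXZ.ne'
      have vY : G.Adj v (π y) := by rw [← hX]; exact aXY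
      have vZ : G.Adj v (π z) := by rw [← hX]; exact aXZ
      right; left
      refine ⟨hX, ?_⟩
      have h1 : Eqv G v [π y] (lb y) := by
        rcases hxy with ⟨h, _⟩ | ⟨_, h⟩ | ⟨h, _⟩
        · exact absurd hX h
        · exact h
        · exact absurd h hY
      have h2 : Eqv G v (lb y ++ [π z]) (lb z) := by
        rcases hyz with ⟨_, _, h⟩ | ⟨h, _⟩ | ⟨h, _⟩
        · exact h
        · exact absurd h hY
        · exact absurd h hZ
      obtain ⟨⟨Q, hQ⟩, hQd⟩ := hly hY
      obtain ⟨-, hZd⟩ := hlz hZ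
      rw [hQ] at hQd h1 h2
      have e2 : Q ++ [π y] ++ [π z] = Q ++ [π y, π z] := by simp
      rw [e2] at h2
      have d1 : DPath G v [π y] := dpath_one vY
      have h3 := hE.app [] Q (π y) (π z) d1 hQd aYZ hZ h1
      have h4 := hE.lnk (π y) (π z) vY vZ aYZ
      have d2 : DPath G v [π y, π z] := by
        have := dpath_two (P := []) d1 aYZ hZ
        simpa using this
      have d3 : DPath G v (Q ++ [π y, π z]) := dpath_two hQd aYZ hZ
      exact hE.trans _ _ _ (dpath_one vZ) d2 hZd (hE.symm _ _ d2 (dpath_one vZ) h4)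
        (hE.trans _ _ _ d2 d3 hZd h3 h2)
    by_cases hY : π y = v
    · -- case C
      have hZ : π z ≠ v := by rw [← hY]; exact aYZ.ne'
      have vX : G.Adj v (π x) := by rw [← hY]; exact aXY.symm
      have vZ : G.Adj v (π z) := by rw [← hY]; exact aYZ
      left
      refine ⟨hX, hZ, ?_⟩
      have h1 : Eqv G v [π x] (lb x) := by
        rcases hxy with ⟨_, h, _⟩ | ⟨h, _⟩ | ⟨_, h⟩
        · exact absurd hY h
        · exact absurd h hX
        · exact h
      have h2 : Eqv G v [π z] (lb z) := by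
        rcases hyz with ⟨h, _⟩ | ⟨_, h⟩ | ⟨h, _⟩
        · exact absurd hY h
        · exact h
        · exact absurd h hZ
      obtain ⟨⟨P, hP⟩, hPd⟩ := hlx hX
      obtain ⟨-, hZd⟩ := hlz hZ
      rw [hP] at hPd h1 ⊢
      have e1 : P ++ [π x] ++ [π z] = P ++ [π x, π z] := by simp
      rw [e1]
      have d1 : DPath G v [π x] := dpath_one vX
      have h3 := hE.app [] P (π x) (π z) d1 hPd aXZ hZ h1
      have h4 := hE.lnk (π x) (π z) vX vZ aXZ
      have d2 : DPath G v [π x, π z] := by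
        have := dpath_two (P := []) d1 aXZ hZ
        simpa using this
      have d3 : DPath G v (P ++ [π x, π z]) := dpath_two hPd aXZ hZ
      exact hE.trans _ _ _ d3 d2 hZd (hE.symm _ _ d2 d3 h3)
        (hE.trans _ _ _ d2 (dpath_one vZ) hZd h4 h2)
    have h1 : Eqv G v (lb x ++ [π y]) (lb y) := by
      rcases hxy with ⟨_, _, h⟩ | ⟨h, _⟩ | ⟨h, _⟩
      · exact h
      · exact absurd h hX
      · exact absurd h hY
    obtain ⟨⟨P, hP⟩, hPd⟩ := hlx hX
    obtain ⟨⟨Q, hQ⟩, hQd⟩ := hly hY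
    rw [hP] at hPd h1 ⊢
    rw [hQ] at hQd h1
    have e1 : P ++ [π x] ++ [π y] = P ++ [π x, π y] := by simp
    rw [e1] at h1
    by_cases hZ : π z = v
    · -- case D
      have vX : G.Adj v (π x) := by rw [← hZ]; exact aXZ.symm
      have vY : G.Adj v (π y) := by rw [← hZ]; exact aYZ.symm
      right; right
      refine ⟨hZ, ?_⟩
      have h2 : Eqv G v [π y] (lb y) := by
        rcases hyz with ⟨_, h, _⟩ | ⟨h, _⟩ | ⟨_, h⟩
        · exact absurd hZ h
        · exact absurd h hY
        · exact h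
      rw [hQ] at h2
      have d1 : DPath G v [π y] := dpath_one vY
      have h3 := hE.app [] Q (π y) (π x) d1 hQd aXY.symm hX h2
      have h4 := hE.lnk (π y) (π x) vY vX aXY.symm
      have d2 : DPath G v [π y, π x] := by
        have := dpath_two (P := []) d1 aXY.symm hX
        simpa using this
      have d3 : DPath G v (Q ++ [π y, π x]) := dpath_two hQd aXY.symm hX
      have h5 := symm_main hE hPd hQd aXY hX hY h1
      have d4 : DPath G v [π x] := dpath_one vX
      refine hE.symm _ _ hPd d4 ?_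
      refine hE.trans _ _ _ hPd d3 d4 h5 ?_
      exact hE.trans _ _ _ d3 d2 d4 (hE.symm _ _ d2 d3 h3) h4
    · -- case A
      left
      refine ⟨hX, hZ, ?_⟩
      have h2 : Eqv G v (lb y ++ [π z]) (lb z) := by
        rcases hyz with ⟨_, _, h⟩ | ⟨h, _⟩ | ⟨h, _⟩
        · exact h
        · exact absurd h hY
        · exact absurd h hZ
      obtain ⟨-, hZd⟩ := hlz hZ
      rw [hQ] at h2
      have e2 : Q ++ [π y] ++ [π z] = Q ++ [π y, π z] := by simp
      rw [e2] at h2
      have e3 : P ++ [π x] ++ [π z] = P ++ [π x, π z] := by simp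
      rw [e3]
      have dP2 : DPath G v (P ++ [π x, π y]) := dpath_two hPd aXY hY
      have dP2' : DPath G v ((P ++ [π x]) ++ [π y]) := by rw [e1]; exact dP2
      have h1' : Eqv G v ((P ++ [π x]) ++ [π y]) (Q ++ [π y]) := by rw [e1]; exact h1
      have h3 := hE.app (P ++ [π x]) Q (π y) (π z) dP2' hQd aYZ hZ h1'
      have e4 : P ++ [π x] ++ [π y, π z] = P ++ [π x, π y, π z] := by simp
      rw [e4] at h3
      have dP3 : DPath G v (P ++ [π x, π y, π z]) := by
        have := dpath_two dP2' aYZ hZ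
        rw [e4] at this
        exact this
      have h4 := hom_tri hE hPd aXY aYZ aXZ hX hY hZ
      have dXZ : DPath G v (P ++ [π x, π z]) := dpath_two hPd aXZ hZ
      exact hE.trans _ _ _ dXZ dP3 hZd h4
        (hE.trans _ _ _ dP3 (dpath_two hQd aYZ hZ) hZd h3 h2)

end Pool.Agent.MSN
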