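import Pool.Agent.MSN.Lol

/-!
# T_LMIN: existence of a minimal essential lollipop
-/

namespace Pool.Agent.MSN

open List Pool.Agent.MSF

universe u

namespace LMIN

variable {V : Type u}

theorem exists_delta [Finite V] (G : SimpleGraph V) (len : V → V → ℝ)
    (hpos : ∀ a b, G.Adj a b → 0 < len a b) : ∃ δ : ℝ, 0 < δ ∧ ∀ a b, G.Adj a b → δ ≤ len a b := by
  by_cases hne : ({p : V × V | G.Adj p.1 p.2} : Set (V × V)).Nonempty
  · obtain ⟨p, hp, hmin⟩ := Set.exists_min_image {p : V × V | G.Adj p.1 p.2}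
      (fun p => len p.1 p.2) (Set.toFinite _) hne
    exact ⟨len p.1 p.2, hpos _ _ hp, fun a b hab => hmin (a, b) hab⟩
  · refine ⟨1, one_pos, fun a b hab => absurd ⟨(a, b), hab⟩ hne⟩

theorem elen_lb (G : SimpleGraph V) (len : V → V → ℝ) (δ : ℝ)
    (hδ : ∀ a b, G.Adj a b → δ ≤ len a b) :
    ∀ P : List V, P ≠ [] → List.IsChain G.Adj P → δ * P.length ≤ elen len P + δ
  | [], h, _ => absurd rfl h
  | [a], _, _ => by simp [elen]
  | (a :: b :: l), _, h => by
    have h' := List.isChain_cons_cons.1 h
    have h1 := elen_lb G len δ hδ (b :: l) (by simp) h'.2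
    have h2 := hδ a b h'.1
    simp only [List.length_cons, elen] at h1 ⊢
    push_cast at h1 ⊢
    linarith

theorem lol_split {G : SimpleGraph V} {v : V} {t s : List V} (h : Lol G v t s) :
    List.IsChain G.Adj (v :: t) ∧ List.IsChain G.Adj (lcl v t :: (s ++ [lcl v t])) := by
  obtain ⟨-, h, -⟩ := h
  have e1 : v :: t = (v :: t).dropLast ++ [lcl v t] :=
    (List.dropLast_append_getLast (by simp)).symm
  have e2 : v :: (t ++ (s ++ (t.reverse ++ [v]))) =
      (v :: t).dropLast ++ ((lcl v t :: (s ++ [lcl v t])) ++ (v :: t).dropLast.reverse) := by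
    have e3 : t.reverse ++ [v] = lcl v t :: (v :: t).dropLast.reverse := by
      have : t.reverse ++ [v] = (v :: t).reverse := by simp
      rw [this]
      conv_lhs => rw [e1]
      simp
    have e4 : v :: (t ++ (s ++ (t.reverse ++ [v]))) = (v :: t) ++ (s ++ (t.reverse ++ [v])) := by
      simp
    rw [e4, e3]
    conv_lhs => rw [e1]
    simp
  constructor
  · have h' : List.IsChain G.Adj ((v :: t) ++ (s ++ (t.reverse ++ [v]))) := by simpa using h
    exact h'.left_of_append
  · rw [e2] at h
    exact h.right_of_append.left_of_append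

theorem lol_cw {G : SimpleGraph V} {v : V} {t s : List V} (h : Lol G v t s) :
    CW G (lcl v t :: s) := by
  have h1 := (lol_split h).2
  cases s with
  | nil => exact absurd rfl h.1
  | cons b l => simpa [CW] using h1

theorem lol_len (G : SimpleGraph V) (len : V → V → ℝ) (δ : ℝ)
    (hδ : ∀ a b, G.Adj a b → δ ≤ len a b) (h0 : 0 < δ) {v : V} {t s : List V} (h : Lol G v t s) :
    δ * (t.length + s.length) ≤ Llen len v t s := by
  have h1 := elen_lb G len δ hδ _ (by simp) (lol_split h).1
  have h2 := elen_lb G len δ hδ _ (by simp) (lol_split h).2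
  simp only [List.length_cons, List.length_append, List.length_nil] at h1 h2
  push_cast at h1 h2
  have e : Llen len v t s = 2 * elen len (v :: t) + elen len (lcl v t :: (s ++ [lcl v t])) := rfl
  rw [e]
  have : 0 ≤ δ * (t.length : ℝ) := by positivity
  linarith

end LMIN

open LMIN in
theorem tLMIN : T_LMIN.{u} := by
  intro V _ G len _ hpos hnull v hex
  obtain ⟨P, ⟨hPc, hPv, a, ha, hva⟩, ⟨b, hb, hvb⟩, hP⟩ := hex
  obtain ⟨δ, hδ0, hδ⟩ := exists_delta G len hpos
  have hL0 : Lol G v [] P := by
    refine ⟨?_, ?_, by simpa using hPv⟩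
    · rintro rfl; simp at ha
    · have : List.IsChain G.Adj (v :: (P ++ [v])) := by
        apply List.IsChain.cons
        · apply List.IsChain.append hPc (List.isChain_singleton v)
          intro x hx y hy
          have hx' : x = b := by
            rw [hb] at hx; simpa using hx.symm
          have hy' : y = v := by simpa using hy.symm
          rw [hx', hy']; exact hvb.symm
        · intro y hy
          have : (P ++ [v]).head? = some a := by
            cases P with
            | nil => simp at ha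
            | cons c l => simpa using ha
          rw [this] at hy
          have : y = a := by simpa using hy.symm
          rw [this]; exact hva
      simpa using this
  have hE0 : ¬ Iness G v ([] ++ (P ++ ([] : List V).reverse)) := by simpa using hP
  -- minimal length
  let B := Llen len v [] P
  let S : Set (List V × List V) := {q | Lol G v q.1 q.2 ∧
    ¬ Iness G v (q.1 ++ (q.2 ++ q.1.reverse)) ∧ Llen len v q.1 q.2 ≤ B}
  have hSne : S.Nonempty := ⟨([], P), hL0, hE0, le_refl _⟩
  have hSfin : S.Finite := by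
    obtain ⟨n, hn⟩ := exists_nat_gt (B / δ)
    have h1 : ({l : List V | l.length ≤ n} ×ˢ {l : List V | l.length ≤ n}).Finite :=
      (List.finite_length_le V n).prod (List.finite_length_le V n)
    refine h1.subset ?_
    rintro ⟨t, s⟩ ⟨h1, -, h3⟩
    have h4 := lol_len G len δ hδ hδ0 h1
    have h5 : δ * (t.length + s.length) < δ * n := by
      have : B < δ * n := by
        rw [div_lt_iff₀ hδ0] at hn; linarith
      linarith
    have h6 : ((t.length : ℝ) + s.length) < n := lt_of_mul_lt_mul_left h5 hδ0.le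
    have h7 : t.length + s.length < n := by exact_mod_cast h6
    exact ⟨by show t.length ≤ n; omega, by show s.length ≤ n; omega⟩
  obtain ⟨⟨t₀, s₀⟩, ⟨hl₀, he₀, hb₀⟩, hmin₀⟩ :=
    Set.exists_min_image S (fun q => Llen len v q.1 q.2) hSfin hSne
  simp only at hl₀ he₀ hb₀
  have hmin : ∀ t' s', Lol G v t' s' → ¬ Iness G v (t' ++ (s' ++ t'.reverse)) →
      Llen len v t₀ s₀ ≤ Llen len v t' s' := by
    intro t' s' h1 h2
    by_cases h3 : Llen len v t' s' ≤ B
    · exact hmin₀ (t', s') ⟨h1, h2, h3⟩
    · push Not at h3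
      exact hb₀.trans h3.le
  let Q : ℕ → ℕ → Prop := fun k n => ∃ t s, Lol G v t s ∧ ¬ Iness G v (t ++ (s ++ t.reverse)) ∧
    Null G k (lcl v t :: s) ∧ s.length = n ∧ Llen len v t s ≤ Llen len v t₀ s₀
  classical
  have hQ : ∃ k, ∃ n, Q k n := by
    obtain ⟨k, hk⟩ := hnull _ (lol_cw hl₀)
    exact ⟨k, _, t₀, s₀, hl₀, he₀, hk, rfl, le_refl _⟩
  have hQ1 : ∃ n, Q (Nat.find hQ) n := Nat.find_spec hQ
  obtain ⟨t, s, h1, h2, h3, h4, h5⟩ := Nat.find_spec hQ1
  refine ⟨Nat.find hQ, t, s, h1, h2, h3, ?_⟩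
  intro t' s' k hl he hk
  refine ⟨h5.trans (hmin t' s' hl he), fun hle => ?_⟩
  have h6 : Q k s'.length := ⟨t', s', hl, he, hk, rfl, hle.trans h5⟩
  have h7 : Nat.find hQ ≤ k := Nat.find_min' hQ ⟨_, h6⟩
  refine ⟨h7, fun h8 => ?_⟩
  have h9 : k = Nat.find hQ := le_antisymm h8 h7
  rw [h4]
  exact Nat.find_min' hQ1 (h9 ▸ h6)

end Pool.Agent.MSN
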