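import Pool.Agent.MSN.Lol

set_option autoImplicit false

namespace Pool.Agent.MSN

open List Pool.Agent.MSF

universe u

theorem tLTR (h1 : T_LAB.{u}) : T_LTR.{u} := by
  intro V G v t s hL hE π C b₀ γ hsym hhom hb hbS hγb htree hin
  obtain ⟨lab1, lab2, lab3, -, lab5⟩ := h1 G v
  obtain ⟨-, hLc, hLn⟩ := hL
  -- the walks
  have key : ∀ n : ℕ, ∀ x ∈ C.S, (γ x).length = n → γ x ≠ [] ∧
      List.IsChain G.Adj (v :: (t ++ (γ x).tail.map π)) ∧
      (v :: (t ++ (γ x).tail.map π)).getLast? = some (π x) := by
    intro n
    induction n using Nat.strong_induction_on with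
    | _ n ih =>
      intro x hx hn
      by_cases hxb : x = b₀
      · subst hxb
        rw [hγb]
        refine ⟨by simp, ?_, ?_⟩
        · simp only [List.tail_cons, List.map_nil, List.append_nil]
          have : v :: (t ++ (s ++ (t.reverse ++ [v]))) = (v :: t) ++ (s ++ (t.reverse ++ [v])) := by
            simp
          rw [this] at hLc
          exact hLc.left_of_append
        · simp only [List.tail_cons, List.map_nil, List.append_nil]
          rw [hb, List.getLast?_eq_getLast_of_ne_nil (by simp)]
          rfl
      · obtain ⟨y, hy, hyx, hγ⟩ := htree x hx hxb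
        have hlen : (γ y).length < n := by
          rw [← hn, hγ]; simp
        obtain ⟨hne, hch, hlast⟩ := ih _ hlen y hy rfl
        have htl : (γ x).tail = (γ y).tail ++ [x] := by
          rw [hγ]
          cases hg : γ y with
          | nil => exact absurd hg hne
          | cons a l => simp
        have hΓ : v :: (t ++ (γ x).tail.map π) = (v :: (t ++ (γ y).tail.map π)) ++ [π x] := by
          rw [htl]; simp
        refine ⟨by rw [hγ]; simp, ?_, ?_⟩
        · rw [hΓ, List.isChain_append]
          refine ⟨hch, List.isChain_singleton _, ?_⟩
          intro p hp q hq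
          rw [hlast] at hp
          simp at hp hq
          subst hp; subst hq
          exact hhom _ _ hyx
        · rw [hΓ, List.getLast?_concat]
  have hlb : LbOK G v π C (fun x => lab v (v :: (t ++ (γ x).tail.map π))) := by
    intro x hx hxv
    obtain ⟨-, hch, hlast⟩ := key _ x hx rfl
    obtain ⟨hd, hl⟩ := lab1 _ _ hch hlast hxv
    refine ⟨?_, hd⟩
    exact (List.getLast?_eq_some_iff.1 hl)
  refine ⟨hlb, ?_, ?_⟩
  · rw [hγb]
    simp only [List.tail_cons, List.map_nil, List.append_nil]
    apply lab5
    intro x hx
    exact hLn x (List.mem_append_left _ hx)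
  · have key2 : ∀ n : ℕ, ∀ x ∈ C.S, (γ x).length = n → Relation.ReflTransGen (fun x y => C.E x y ∧
        KC G v π C (fun x => lab v (v :: (t ++ (γ x).tail.map π))) x y) b₀ x := by
      intro n
      induction n using Nat.strong_induction_on with
      | _ n ih =>
        intro x hx hn
        by_cases hxb : x = b₀
        · subst hxb
          exact Relation.ReflTransGen.refl
        · obtain ⟨y, hy, hyx, hγ⟩ := htree x hx hxb
          have hlen : (γ y).length < n := by
            rw [← hn, hγ]; simp
          refine Relation.ReflTransGen.tail (ih _ hlen y hy rfl) ⟨hyx, hyx, ?_⟩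
          obtain ⟨hne, hch, hlast⟩ := key _ y hy rfl
          have htl : (γ x).tail = (γ y).tail ++ [x] := by
            rw [hγ]
            cases hg : γ y with
            | nil => exact absurd hg hne
            | cons a l => simp
          have hΓ : v :: (t ++ (γ x).tail.map π) = (v :: (t ++ (γ y).tail.map π)) ++ [π x] := by
            rw [htl]; simp
          have hadj := hhom y x hyx
          show (π y ≠ v ∧ π x ≠ v ∧ Eqv G v (lab v (v :: (t ++ (γ y).tail.map π)) ++ [π x])
              (lab v (v :: (t ++ (γ x).tail.map π)))) ∨
            (π y = v ∧ Eqv G v [π x] (lab v (v :: (t ++ (γ x).tail.map π)))) ∨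
            (π x = v ∧ Eqv G v [π y] (lab v (v :: (t ++ (γ y).tail.map π))))
          by_cases hxv : π x = v
          · right; right
            refine ⟨hxv, ?_⟩
            have hyv : π y ≠ v := by rw [← hxv]; exact hadj.ne
            have hi := hin x hx y hy hyx hγ hxv
            obtain ⟨⟨P, hP⟩, hPd⟩ := hlb y hy hyv
            simp only at hP hPd
            rw [hP] at hi hPd ⊢
            have hvy : G.Adj v (π y) := by rw [← hxv]; exact hadj.symm
            have h2 := (hE.iness P (π y) hPd hvy).1 hi
            refine hE.symm _ _ hPd ?_ h2
            refine ⟨List.isChain_singleton _, ?_, π y, rfl, hvy⟩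
            intro z hz
            rw [List.mem_singleton] at hz
            rw [hz]; exact hyv
          · obtain ⟨⟨P, hP⟩, hPd⟩ := hlb x hx hxv
            simp only at hP hPd
            by_cases hyv : π y = v
            · right; left
              refine ⟨hyv, ?_⟩
              have hl : v :: (t ++ (γ y).tail.map π) =
                  (v :: (t ++ (γ y).tail.map π)).dropLast ++ [v] := by
                obtain ⟨W, hW⟩ := List.getLast?_eq_some_iff.1 hlast
                rw [hW, hyv]; simp
              have e : lab v (v :: (t ++ (γ x).tail.map π)) = [π x] := by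
                rw [hΓ, lab2 _ _ hxv, hl, lab3]; simp
              rw [e]
              apply hE.refl
              rw [← e]; exact hPd
            · left
              refine ⟨hyv, hxv, ?_⟩
              have e : lab v (v :: (t ++ (γ x).tail.map π)) =
                  lab v (v :: (t ++ (γ y).tail.map π)) ++ [π x] := by
                rw [hΓ, lab2 _ _ hxv]
              rw [← e]
              exact hE.refl _ hPd
    intro x hx
    exact key2 _ x hx rfl

end Pool.Agent.MSN
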