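import Pool.Agent.MSN.Targets

set_option autoImplicit false

/-!
# MAP: relabelling of a planar disc along an injective map
-/

namespace Pool.Agent.MSN

open List Pool.Agent.MSF

universe u

namespace MAP

variable {N N' : Type u}

lemma plen_map (f : N → N') (ang : N → N → N → ℝ) (ang' : N' → N' → N' → ℝ)
    (h : ∀ v x y, ang' (f v) (f x) (f y) = ang v x y) (v : N) :
    ∀ P : List N, plen ang' (f v) (P.map f) = plen ang v P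
  | [] => rfl
  | [_] => rfl
  | (x :: y :: l) => by
    have ih := plen_map f ang ang' h v (y :: l)
    simp only [List.map_cons] at ih ⊢
    simp only [plen, h, ih]

lemma map_edge (f : N → N') (a b : N) : (Cx.edge a b).map f = Cx.edge (f a) (f b) := by
  refine Cx.ext ?_ ?_
  · funext x y
    refine propext ⟨?_, ?_⟩
    · rintro ⟨u, v, (⟨rfl, rfl⟩ | ⟨rfl, rfl⟩), rfl, rfl⟩
      · exact Or.inl ⟨rfl, rfl⟩
      · exact Or.inr ⟨rfl, rfl⟩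
    · rintro (⟨rfl, rfl⟩ | ⟨rfl, rfl⟩)
      · exact ⟨a, b, Or.inl ⟨rfl, rfl⟩, rfl, rfl⟩
      · exact ⟨b, a, Or.inr ⟨rfl, rfl⟩, rfl, rfl⟩
  · funext x y w
    refine propext ⟨?_, fun h => h.elim⟩
    rintro ⟨u, v, c, h, -⟩
    exact h

lemma map_add (f : N → N') (C : Cx N) (a b z : N) :
    (C.add a b z).map f = (C.map f).add (f a) (f b) (f z) := by
  refine Cx.ext ?_ ?_
  · funext x y
    refine propext ⟨?_, ?_⟩
    · rintro ⟨u, v, (h | ⟨rfl, rfl⟩ | ⟨rfl, rfl⟩), rfl, rfl⟩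
      · exact Or.inl ⟨u, v, h, rfl, rfl⟩
      · exact Or.inr (Or.inl ⟨rfl, rfl⟩)
      · exact Or.inr (Or.inr ⟨rfl, rfl⟩)
    · rintro (⟨u, v, h, rfl, rfl⟩ | ⟨rfl, rfl⟩ | ⟨rfl, rfl⟩)
      · exact ⟨u, v, Or.inl h, rfl, rfl⟩
      · exact ⟨a, b, Or.inr (Or.inl ⟨rfl, rfl⟩), rfl, rfl⟩
      · exact ⟨b, a, Or.inr (Or.inr ⟨rfl, rfl⟩), rfl, rfl⟩
  · funext x y w
    refine propext ⟨?_, ?_⟩
    · rintro ⟨u, v, c, (h | ⟨rfl, rfl, rfl⟩ | ⟨rfl, rfl, rfl⟩ | ⟨rfl, rfl, rfl⟩), rfl, rfl, rfl⟩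
      · exact Or.inl ⟨u, v, c, h, rfl, rfl, rfl⟩
      · exact Or.inr (Or.inl ⟨rfl, rfl, rfl⟩)
      · exact Or.inr (Or.inr (Or.inl ⟨rfl, rfl, rfl⟩))
      · exact Or.inr (Or.inr (Or.inr ⟨rfl, rfl, rfl⟩))
    · rintro (⟨u, v, c, h, rfl, rfl, rfl⟩ | ⟨rfl, rfl, rfl⟩ | ⟨rfl, rfl, rfl⟩ |
        ⟨rfl, rfl, rfl⟩)
      · exact ⟨u, v, c, Or.inl h, rfl, rfl, rfl⟩
      · exact ⟨a, b, z, Or.inr (Or.inl ⟨rfl, rfl, rfl⟩), rfl, rfl, rfl⟩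
      · exact ⟨b, z, a, Or.inr (Or.inr (Or.inl ⟨rfl, rfl, rfl⟩)), rfl, rfl, rfl⟩
      · exact ⟨z, a, b, Or.inr (Or.inr (Or.inr ⟨rfl, rfl, rfl⟩)), rfl, rfl, rfl⟩

lemma map_sup (f : N → N') (C C' : Cx N) : (C.sup C').map f = (C.map f).sup (C'.map f) := by
  refine Cx.ext ?_ ?_
  · funext x y
    refine propext ⟨?_, ?_⟩
    · rintro ⟨u, v, (h | h), rfl, rfl⟩
      · exact Or.inl ⟨u, v, h, rfl, rfl⟩
      · exact Or.inr ⟨u, v, h, rfl, rfl⟩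
    · rintro (⟨u, v, h, rfl, rfl⟩ | ⟨u, v, h, rfl, rfl⟩)
      · exact ⟨u, v, Or.inl h, rfl, rfl⟩
      · exact ⟨u, v, Or.inr h, rfl, rfl⟩
  · funext x y w
    refine propext ⟨?_, ?_⟩
    · rintro ⟨u, v, c, (h | h), rfl, rfl, rfl⟩
      · exact Or.inl ⟨u, v, c, h, rfl, rfl, rfl⟩
      · exact Or.inr ⟨u, v, c, h, rfl, rfl, rfl⟩
    · rintro (⟨u, v, c, h, rfl, rfl, rfl⟩ | ⟨u, v, c, h, rfl, rfl, rfl⟩)
      · exact ⟨u, v, c, Or.inl h, rfl, rfl, rfl⟩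
      · exact ⟨u, v, c, Or.inr h, rfl, rfl, rfl⟩

lemma mem_S (f : N → N') (C : Cx N) (x : N') (h : x ∈ (C.map f).S) :
    ∃ a, a ∈ C.S ∧ f a = x := by
  obtain ⟨y, a, b, hE, ha, -⟩ := h
  exact ⟨a, ⟨b, hE⟩, ha⟩

end MAP

theorem tMAP : T_MAP.{u} := by
  intro N N' f ang ang' hf hang A C L h
  induction h with
  | @digon a b h =>
    rw [MAP.map_edge]
    exact PD.digon (fun e => h (hf e))
  | @rot A C c L h ih =>
    rw [List.map_append]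
    exact PD.rot ih
  | @inner A C a b z Pa Pz Pb L h hab hz ih =>
    rw [MAP.map_add]
    simp only [List.map_cons, FC.map, List.map_append, List.map_nil] at ih ⊢
    refine PD.inner (Pz := Pz.map f) ih ?_ ?_
    · rintro ⟨u, v, hE, hu, hv⟩
      rw [hf hu, hf hv] at hE
      exact hab hE
    · rw [MAP.plen_map f ang ang' hang, hang]
      exact hz
  | @both A₁ A₂ C₁ C₂ a b z Pa Pz Qz Pb L₁ L₂ h₁ h₂ hd ih₁ ih₂ =>
    rw [MAP.map_add, MAP.map_sup]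
    simp only [List.map_cons, FC.map, List.map_append, List.map_nil] at ih₁ ih₂ ⊢
    refine PD.both ih₁ ih₂ ?_
    intro x h1 h2
    obtain ⟨a1, ha1, e1⟩ := MAP.mem_S f _ x h1
    obtain ⟨a2, ha2, e2⟩ := MAP.mem_S f _ x h2
    have : a1 = a2 := hf (e1.trans e2.symm)
    subst this
    rw [← e1, hd a1 ha1 ha2]

end Pool.Agent.MSN
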