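import Pool.Agent.MSN.Targets

/-! The transport inequality: assembly. -/

namespace Pool.Agent.MSN

open List Pool.Agent.MSF

universe u

namespace MT

variable {N : Type u}

theorem pd_rotate {ang : N → N → N → ℝ} {A : ℕ} {C : Cx N} (n : ℕ) :
    ∀ {L : List (FC N)}, PD ang A C L → PD ang A C (L.rotate n) := by
  induction n with
  | zero => intro L h; simpa using h
  | succ n ih =>
    intro L h
    cases L with
    | nil => simpa using h
    | cons c L =>
      rw [List.rotate_cons_succ]
      exact ih h.rot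

theorem pd_isRotated {ang : N → N → N → ℝ} {A : ℕ} {C : Cx N} {L L' : List (FC N)}
    (h : PD ang A C L) (hr : L ~r L') : PD ang A C L' := by
  obtain ⟨n, rfl⟩ := hr
  exact pd_rotate n h

theorem split {α : Type*} {X Y P Q : List α} {z : α} (h : X ++ z :: Y = P ++ Q) :
    (∃ P₂, P = X ++ z :: P₂ ∧ Y = P₂ ++ Q) ∨ (∃ Q₁, X = P ++ Q₁ ∧ Q = Q₁ ++ z :: Y) := by
  rcases List.append_eq_append_iff.1 h with ⟨as, h1, h2⟩ | ⟨cs, h1, h2⟩
  · cases as with
    | nil =>
      right
      refine ⟨[], by simpa using h1.symm, by simpa using h2.symm⟩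
    | cons a as =>
      left
      rw [List.cons_append, List.cons.injEq] at h2
      exact ⟨as, by rw [h1, ← h2.1], h2.2⟩
  · right
    exact ⟨cs, h1, h2⟩

theorem chain_aux {C : Cx N} {L : List (FC N)} (hI : Inv C L) {a : N} {M : List N}
    (hL : L.map FC.v = a :: M) : ∀ (Y X : List N), L.map FC.v = X ++ Y →
      List.IsChain C.E (Y ++ [a]) := by
  intro Y
  induction Y with
  | nil => intro X _; simp
  | cons y Y ih =>
    intro X hX
    cases Y with
    | nil =>
      have hE : C.E y a := by
        apply hI.bdE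
        cases X with
        | nil =>
          exfalso
          have h1 := hI.len
          have h2 : (L.map FC.v).length = 1 := by rw [hX]; rfl
          rw [List.length_map] at h2
          omega
        | cons x X =>
          have hx : x = a := by
            rw [hL, List.cons_append, List.cons.injEq] at hX
            exact hX.1.symm
          subst hx
          refine ⟨X, ?_⟩
          rw [hX]
          exact List.isRotated_append (l := x :: X) (l' := [y])
      simpa using hE
    | cons y' Y =>
      have hE : C.E y y' := by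
        apply hI.bdE
        refine ⟨Y ++ X, ?_⟩
        rw [hX]
        exact List.isRotated_append (l := X) (l' := y :: y' :: Y)
      have h2 := ih (X ++ [y]) (by rw [hX]; simp)
      simp only [List.cons_append] at h2 ⊢
      exact List.isChain_cons_cons.2 ⟨hE, h2⟩

theorem elen_nonneg {len : N → N → ℝ} {E : N → N → Prop} (hE : ∀ x y, E x y → 0 < len x y) :
    ∀ l : List N, List.IsChain E l → 0 ≤ elen len l := by
  intro l
  induction l with
  | nil => intro _; simp [elen]
  | cons a l ih =>
    cases l with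
    | nil => intro _; simp [elen]
    | cons b l =>
      intro h
      rw [List.isChain_cons_cons] at h
      have h1 := hE _ _ h.1
      have h2 := ih h.2
      simp only [elen]
      linarith

theorem WS_nonpos {len : N → N → ℝ} {E : N → N → Prop} (hE : ∀ x y, E x y → 0 < len x y) (y : N) :
    ∀ K : List (FC N × ℝ), List.IsChain E ((K.map Prod.fst).map FC.v ++ [y]) →
      (∀ p ∈ K, Real.cos p.2 ≤ 0) → WS len K y ≤ 0 := by
  intro K
  induction K with
  | nil => intro _ _; simp [WS]
  | cons p K ih =>
    obtain ⟨c, φ⟩ := p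
    intro h hc
    have h1 := hc (c, φ) (by simp)
    have h2 : WS len K y ≤ 0 := by
      apply ih
      · simp only [List.map_cons, List.cons_append] at h
        exact h.tail
      · intro q hq
        exact hc q (by simp [hq])
    have h3 : E c.v (fstV y (K.map Prod.fst)) := by
      cases K with
      | nil => simpa [fstV] using h
      | cons q K =>
        simp only [List.map_cons, List.cons_append] at h
        exact (List.isChain_cons_cons.1 h).1
    have h4 := hE _ _ h3
    simp only [WS]
    have h5 : len c.v (fstV y (K.map Prod.fst)) * Real.cos φ ≤ 0 :=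
      mul_nonpos_of_nonneg_of_nonpos h4.le h1
    linarith

end MT

open MT in
theorem tMT (h1 : T_INV.{u}) (h2 : T_RR.{u}) (h3 : T_MTI.{u}) (h4 : T_MTBR.{u}) (h5 : T_MTB2.{u})
    (h6 : T_MTB1.{u}) (h7 : T_MTD.{u}) : T_MT.{u} := by
  intro N len ang A
  induction A using Nat.strong_induction_on with
  | _ A ih =>
  intro C R K hPD hE hM
  by_cases hK : ∃ p ∈ K, |p.2| ≤ Real.pi / 2
  · obtain ⟨⟨cx, ψ⟩, hp, hψ⟩ := hK
    obtain ⟨K₁, K₂, rfl⟩ := List.append_of_mem hp
    have hrot : PD ang A C (cx :: (K₂.map Prod.fst ++ (R ++ K₁.map Prod.fst))) := by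
      refine pd_isRotated hPD ?_
      have e1 : R ++ (K₁ ++ (cx, ψ) :: K₂).map Prod.fst =
          (R ++ K₁.map Prod.fst) ++ (cx :: K₂.map Prod.fst) := by simp
      rw [e1]
      exact List.isRotated_append
    have hI := h1 ang A C _ hrot
    obtain ⟨cy, L, hL⟩ : ∃ cy L, K₂.map Prod.fst ++ (R ++ K₁.map Prod.fst) = cy :: L := by
      cases hl : K₂.map Prod.fst ++ (R ++ K₁.map Prod.fst) with
      | nil =>
        exfalso
        have := hI.len
        rw [hl] at this
        simp at this
      | cons cy L => exact ⟨cy, L, rfl⟩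
    obtain ⟨x, Px⟩ := cx
    obtain ⟨y, Py⟩ := cy
    rw [hL] at hrot hI
    have hD := h2 ang hE.asymm A C x Px y Py L hrot
    cases hD with
    | digon hA hC hPa hPb hLn =>
      subst hPa hPb hLn hC
      have hxy : x ≠ y := by
        have := hI.nodup
        simp at this
        exact this
      rcases List.append_eq_singleton_iff.1 hL with ⟨g1, g2⟩ | ⟨g1, g2⟩
      · refine h7 len ang y x R _ hxy.symm ?_ (by simp) ?_ hM
        · have e : Cx.edge y x = Cx.edge x y := by
            apply Cx.ext
            · funext s t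
              simp only [Cx.edge, eq_iff_iff]
              tauto
            · rfl
          rw [e]
          exact hE
        · rw [List.map_append, List.map_cons, g1, ← List.append_assoc, g2]
          rfl
      · refine h7 len ang x y R _ hxy hE (by simp) ?_ hM
        rw [List.append_eq_nil_iff] at g2
        rw [List.map_append, List.map_cons, g2.1, g2.2, g1]
        rfl
    | inner A' C' z Pa' Pz Pb' hA hC hPa hPb h hab hz =>
      subst hPa hPb hC hA
      exact h3 len ang A' (ih A' (by omega)) C' x y z Pa' Pz Pb' L R ψ K₁ K₂ hL h (h1 ang _ _ _ h)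
        hab hz hE hψ hM
    | both A₁ A₂ C₁ C₂ z Pa' Pz Qz Pb' L₁ L₂ hA hC hPa hPb hLe g₁ g₂ hd =>
      subst hPa hPb hC hA hLe
      have hB : ∀ L₂' : List (FC N), L₂' = L₂ → BData len ang A₁ A₂ C₁ C₂ x y z Pa' Pz Qz Pb' L₁ L₂' :=
        fun L₂' e => by
          subst e
          exact ⟨ih A₁ (by omega), ih A₂ (by omega), g₁, h1 ang _ _ _ g₁, g₂, h1 ang _ _ _ g₂, hd, hE⟩
      have hs : (⟨y, x :: Pb'⟩ :: L₁) ++ ⟨z, Pz ++ Qz⟩ :: L₂ =
          K₂.map Prod.fst ++ (R ++ K₁.map Prod.fst) := by rw [hL]; rfl
      rcases split hs with ⟨P₂, e1, e2⟩ | ⟨Q₁, e1, e2⟩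
      · -- apex in `K₂`
        obtain ⟨K₂a, K₂', rfl, e3, e4⟩ := List.map_eq_append_iff.1 e1
        obtain ⟨⟨cz, φz⟩, K₂b, rfl, e5, e6⟩ := List.map_eq_cons_iff.1 e4
        simp only at e5
        subst e5
        refine h5 len ang A₁ A₂ C₁ C₂ x y z Pa' Pz Qz Pb' L₁ R ψ φz K₁ K₂a K₂b (hB _ ?_) e3 hψ hM
        rw [e2, e6]
      · rcases split (X := Q₁) (Y := L₂) (z := ⟨z, Pz ++ Qz⟩) (P := R) (Q := K₁.map Prod.fst)
          e2.symm with ⟨R₂, e3, e4⟩ | ⟨Q₂, e3, e4⟩
        · -- apex in `R`
          subst e3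
          exact h4 len ang A₁ A₂ C₁ C₂ x y z Pa' Pz Qz Pb' L₁ Q₁ R₂ ψ K₁ K₂ (hB _ e4.symm)
            e1.symm hψ hM
        · -- apex in `K₁`
          obtain ⟨K₁a, K₁', rfl, e5, e6⟩ := List.map_eq_append_iff.1 e4
          obtain ⟨⟨cz, φz⟩, K₁b, rfl, e7, e8⟩ := List.map_eq_cons_iff.1 e6
          simp only at e7
          subst e7
          have hM' : MCon ang (K₁a ++ (⟨z, Pz ++ Qz⟩, φz) ::
              (K₁b ++ (⟨x, Pa' ++ [y]⟩, ψ) :: K₂)) := by
            simpa using hM
          have := h6 len ang A₁ A₂ C₁ C₂ x y z Pa' Pz Qz Pb' L₁ R ψ φz K₁a K₁b K₂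
            (hB _ e8) (by rw [e1, e3, e5]) hψ hM'
          simpa using this
  · push Not at hK
    intro x₀ K' hx₀
    have hI := h1 ang A C _ hPD
    obtain ⟨a, M, hM'⟩ : ∃ a M, (R ++ K.map Prod.fst).map FC.v = a :: M ∧
        a = fstV x₀.v R := by
      rw [hx₀]
      cases R with
      | nil => exact ⟨x₀.v, K'.map FC.v, rfl, rfl⟩
      | cons r R => exact ⟨r.v, _, rfl, rfl⟩
    have hch := chain_aux hI hM'.1 ((R ++ K.map Prod.fst).map FC.v) [] rfl
    have hpos : ∀ s t, C.E s t → 0 < len s t := hE.lpos
    have hc1 : List.IsChain C.E (R.map FC.v ++ [x₀.v]) := by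
      rw [List.map_append, hx₀, List.map_cons] at hch
      have e : R.map FC.v ++ x₀.v :: K'.map FC.v ++ [a] =
          (R.map FC.v ++ [x₀.v]) ++ (K'.map FC.v ++ [a]) := by simp
      rw [e] at hch
      exact hch.left_of_append
    have hc2 : List.IsChain C.E ((K.map Prod.fst).map FC.v ++ [a]) := by
      rw [List.map_append, List.append_assoc] at hch
      exact hch.right_of_append
    have hr := elen_nonneg hpos _ hc1
    have hl : WS len K (fstV x₀.v R) ≤ 0 := by
      rw [← hM'.2]
      refine WS_nonpos hpos a K hc2 fun p hp => ?_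
      have h8 := hM.1 p hp
      have h9 := hK p hp
      rw [← Real.cos_abs]
      exact Real.cos_nonpos_of_pi_div_two_le_of_le h9.le (by linarith [Real.pi_pos])
    linarith

end Pool.Agent.MSN
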