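import Pool.Agent.MSN.Targets

/-!
# MSN: the transport inequality, case both, apex in the first part of the path (T_MTB1)
-/

namespace Pool.Agent.MSN

open List Pool.Agent.MSF

universe u

namespace MTB1

variable {N : Type u}

theorem plen_app (ang : N → N → N → ℝ) (v a b : N) : ∀ (X Y : List N),
    X.getLast? = some a → Y.head? = some b →
    plen ang v (X ++ Y) = plen ang v X + ang v a b + plen ang v Y
  | [], _, hX, _ => by simp at hX
  | [c], Y, hX, hY => by
    cases Y with
    | nil => simp at hY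
    | cons d Y =>
      simp only [List.getLast?_singleton, Option.some.injEq] at hX
      simp only [List.head?_cons, Option.some.injEq] at hY
      subst hX; subst hY
      simp [plen]
  | c :: d :: X, Y, hX, hY => by
    have h1 : (d :: X).getLast? = some a := by
      rw [List.getLast?_cons_cons] at hX
      exact hX
    have h2 := plen_app ang v a b (d :: X) Y h1 hY
    show ang v c d + plen ang v (d :: X ++ Y) = ang v c d + plen ang v (d :: X) + ang v a b +
      plen ang v Y
    rw [h2]; ring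

theorem euc_mono {len : N → N → ℝ} {ang : N → N → N → ℝ} {C C' : Cx N} (h : Euc len ang C')
    (hE : ∀ x y, C.E x y → C'.E x y) (hT : ∀ x y w, C.T x y w → C'.T x y w) :
    Euc len ang C :=
  ⟨h.lsymm, h.asymm, fun x y hx => h.lpos x y (hE x y hx),
    fun x y z hx => h.apos x y z (hT x y z hx), fun x y z hx => h.ale x y z (hT x y z hx),
    fun x y z hx => h.asum x y z (hT x y z hx), fun x y z hx => h.proj x y z (hT x y z hx)⟩

theorem pd_rot {ang : N → N → N → ℝ} {A : ℕ} {C : Cx N} : ∀ (X Y : List (FC N)),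
    PD ang A C (X ++ Y) → PD ang A C (Y ++ X)
  | [], Y, h => by simpa using h
  | c :: X, Y, h => by
    have h1 : PD ang A C ((X ++ Y) ++ [c]) := PD.rot h
    rw [List.append_assoc] at h1
    have h2 := pd_rot X (Y ++ [c]) h1
    rw [List.append_assoc] at h2
    exact h2

/-- the constraint between two consecutive directions -/
def TRel (ang : N → N → N → ℝ) (p q : FC N × ℝ) : Prop := Real.pi - q.1.th ang ≤ q.2 - p.2

theorem tele (ang : N → N → N → ℝ) : ∀ (K : List (FC N × ℝ)) (p l : FC N × ℝ),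
    List.IsChain (TRel ang) (p :: (K ++ [l])) →
    (K.map fun q => Real.pi - q.1.th ang).sum + (Real.pi - l.1.th ang) ≤ l.2 - p.2
  | [], p, l, h => by
    simp only [List.nil_append, List.isChain_cons_cons] at h
    have := h.1
    unfold TRel at this
    simpa using this
  | q :: K, p, l, h => by
    rw [List.cons_append, List.isChain_cons_cons] at h
    have h1 := tele ang K q l h.2
    have h2 := h.1
    unfold TRel at h2
    rw [List.map_cons, List.sum_cons]
    linarith

/-- the vertex and the direction -/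
def gg (p : FC N × ℝ) : N × ℝ := (p.1.v, p.2)

theorem fstV_map (d : N) : ∀ (K K' : List (FC N × ℝ)), K.map gg = K'.map gg →
    fstV d (K.map Prod.fst) = fstV d (K'.map Prod.fst)
  | [], [], _ => rfl
  | [], _ :: _, h => by simp at h
  | _ :: _, [], h => by simp at h
  | p :: K, p' :: K', h => by
    simp only [List.map_cons, List.cons.injEq] at h
    exact congrArg Prod.fst h.1

theorem WS_congr (len : N → N → ℝ) (y : N) : ∀ (K K' : List (FC N × ℝ)),
    K.map gg = K'.map gg → WS len K y = WS len K' y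
  | [], [], _ => rfl
  | [], _ :: _, h => by simp at h
  | _ :: _, [], h => by simp at h
  | (c, φ) :: K, (c', φ') :: K', h => by
    simp only [List.map_cons, List.cons.injEq] at h
    have h1 := WS_congr len y K K' h.2
    have h2 := fstV_map y K K' h.2
    have h3 : c.v = c'.v := congrArg Prod.fst h.1
    have h4 : φ = φ' := congrArg Prod.snd h.1
    simp only [WS]
    rw [h1, h2, h3, h4]

theorem fstV_append (d : N) : ∀ (L L' : List (FC N)),
    fstV d (L ++ L') = fstV (fstV d L') L
  | [], _ => rfl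
  | _ :: _, _ => rfl

theorem WS_append (len : N → N → ℝ) (y : N) : ∀ (K K' : List (FC N × ℝ)),
    WS len (K ++ K') y = WS len K (fstV y (K'.map Prod.fst)) + WS len K' y
  | [], K' => by simp [WS]
  | (c, φ) :: K, K' => by
    have h1 := WS_append len y K K'
    simp only [List.cons_append, WS]
    rw [h1, List.map_append, fstV_append]
    ring

theorem fstV_congr (d : N) : ∀ (L L' : List (FC N)), L.map FC.v = L'.map FC.v →
    fstV d L = fstV d L'
  | [], [], _ => rfl
  | [], _ :: _, h => by simp at h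
  | _ :: _, [], h => by simp at h
  | p :: K, p' :: K', h => by
    simp only [List.map_cons, List.cons.injEq] at h
    exact h.1

/-- the final computation -/
theorem core {len : N → N → ℝ} {ang : N → N → N → ℝ} {A₁ : ℕ} {C₁ : Cx N} {x y z : N}
    {Px Pz Qz : List N} {R R' : List (FC N)} {ψ φz β γ : ℝ}
    {K₁a K₁a' K₁b K₂ K₂' : List (FC N × ℝ)} (m₁ : MTat len ang A₁) (he : Euc len ang C₁)
    (hPD : PD ang A₁ C₁ (R' ++ (K₁a' ++ (⟨z, Pz⟩, ψ - γ) :: K₂').map Prod.fst))
    (hMC : MCon ang (K₁a' ++ (⟨z, Pz⟩, ψ - γ) :: K₂'))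
    (ha : K₁a'.map gg = K₁a.map gg) (h2 : K₂'.map gg = K₂.map gg)
    (hR : R'.map FC.v = R.map FC.v)
    (hy : ∀ x₀ K', (K₁a ++ (⟨z, Pz ++ Qz⟩, φz) ::
      (K₁b ++ (⟨x, Px ++ [y]⟩, ψ) :: K₂)).map Prod.fst = x₀ :: K' →
      fstV (fstV x₀.v R) (K₂.map Prod.fst) = y)
    (hd2 : WS len ((⟨z, Qz⟩, φz) :: (K₁b ++ [(⟨x, Px⟩, ψ + β)])) z ≤ 0)
    (hpr : len x y * Real.cos ψ = len x z * Real.cos (ψ + β) + len z y * Real.cos (ψ - γ)) :
    MTc len R (K₁a ++ (⟨z, Pz ++ Qz⟩, φz) :: (K₁b ++ (⟨x, Px ++ [y]⟩, ψ) :: K₂)) := by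
  intro x₀ K' hx0
  have hyy := hy x₀ K' hx0
  have hm := m₁ C₁ R' (K₁a' ++ (⟨z, Pz⟩, ψ - γ) :: K₂') hPD he hMC
  -- the first corner
  obtain ⟨x₀', K'', hx0', hv⟩ : ∃ x₀' K'',
      (K₁a' ++ (⟨z, Pz⟩, ψ - γ) :: K₂').map Prod.fst = x₀' :: K'' ∧ x₀'.v = x₀.v := by
    cases K₁a' with
    | nil =>
      have : K₁a = [] := by
        cases K₁a with
        | nil => rfl
        | cons a l => simp at ha
      subst this
      simp only [List.nil_append, List.map_cons, List.cons.injEq] at hx0
      refine ⟨⟨z, Pz⟩, K₂'.map Prod.fst, by simp, ?_⟩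
      rw [← hx0.1]
    | cons p l =>
      cases K₁a with
      | nil => simp at ha
      | cons q l' =>
        simp only [List.map_cons, List.cons.injEq] at ha
        simp only [List.cons_append, List.map_cons, List.cons.injEq] at hx0
        refine ⟨p.1, (l ++ (⟨z, Pz⟩, ψ - γ) :: K₂').map Prod.fst, by simp, ?_⟩
        rw [← hx0.1]
        exact congrArg Prod.fst ha.1
  have hm1 := hm x₀' K'' hx0'
  rw [hR, hv, fstV_congr x₀.v R' R hR] at hm1
  -- the sums
  set e := fstV x₀.v R with hedef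
  have e1 : WS len (K₁a' ++ (⟨z, Pz⟩, ψ - γ) :: K₂') e = WS len K₁a z +
      (len z y * Real.cos (ψ - γ) + WS len K₂ e) := by
    rw [WS_append, WS_congr len _ K₁a' K₁a ha]
    congr 1
    simp only [WS]
    rw [WS_congr len e K₂' K₂ h2, fstV_map e K₂' K₂ h2, hyy]
  have e2 : WS len (K₁a ++ (⟨z, Pz ++ Qz⟩, φz) :: (K₁b ++ (⟨x, Px ++ [y]⟩, ψ) :: K₂)) e =
      WS len K₁a z + (WS len ((⟨z, Qz⟩, φz) :: K₁b) x +
        (len x y * Real.cos ψ + WS len K₂ e)) := by
    rw [WS_append]
    congr 1
    rw [← List.cons_append, WS_append]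
    have e3 : WS len ((⟨z, Pz ++ Qz⟩, φz) :: K₁b) x = WS len ((⟨z, Qz⟩, φz) :: K₁b) x :=
      WS_congr len x _ _ (by simp [gg])
    have e4 : fstV e (((⟨x, Px ++ [y]⟩, ψ) :: K₂ : List (FC N × ℝ)).map Prod.fst) = x := rfl
    rw [e4, e3]
    congr 1
    simp only [WS]
    rw [hyy]
  have e5 : WS len ((⟨z, Qz⟩, φz) :: (K₁b ++ [(⟨x, Px⟩, ψ + β)])) z =
      WS len ((⟨z, Qz⟩, φz) :: K₁b) x + len x z * Real.cos (ψ + β) := by
    rw [← List.cons_append, WS_append]
    have e4 : fstV z (([(⟨x, Px⟩, ψ + β)] : List (FC N × ℝ)).map Prod.fst) = x := rfl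
    rw [e4]
    simp [WS, fstV]
  rw [e1] at hm1
  rw [e2]
  rw [e5] at hd2
  linarith

theorem chain_fst {ang : N → N → N → ℝ} {p p' : FC N × ℝ} (h : p.2 = p'.2)
    {K : List (FC N × ℝ)} (hK : List.IsChain (TRel ang) (p :: K)) :
    List.IsChain (TRel ang) (p' :: K) := by
  rw [List.isChain_cons] at hK ⊢
  refine ⟨fun q hq => ?_, hK.2⟩
  have := hK.1 q hq
  unfold TRel at this ⊢
  rw [← h]
  exact this

end MTB1

open MTB1 in
theorem tMTB1 (hGB : T_GB.{u}) : T_MTB1.{u} := by
  intro N len ang A₁ A₂ C₁ C₂ x y z Px Pz Qz Py L₁ R ψ φz K₁a K₁b K₂ hB hL hψ hM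
  obtain ⟨hdir, hch⟩ := hM
  have hch : List.IsChain (TRel ang)
    (K₁a ++ (⟨z, Pz ++ Qz⟩, φz) :: (K₁b ++ (⟨x, Px ++ [y]⟩, ψ) :: K₂)) := hch
  have hT1 : ((C₁.sup C₂).add x y z).T x y z := Or.inr (Or.inl ⟨rfl, rfl, rfl⟩)
  have hT3 : ((C₁.sup C₂).add x y z).T z x y := Or.inr (Or.inr (Or.inr ⟨rfl, rfl, rfl⟩))
  have hsum := hB.euc.asum x y z hT1
  have hγ0 := hB.euc.apos x y z hT1
  have hγ1 := hB.euc.ale x y z hT1
  have hβ0 := hB.euc.apos z x y hT3
  have hβ1 := hB.euc.ale z x y hT3
  rw [hB.euc.asymm x z y] at hβ0 hβ1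
  have hpr := hB.euc.proj x y z hT1 ψ
  have he1 : Euc len ang C₁ := euc_mono hB.euc (fun _ _ h => Or.inl (Or.inl h))
    (fun _ _ _ h => Or.inl (Or.inl h))
  have he2 : Euc len ang C₂ := euc_mono hB.euc (fun _ _ h => Or.inl (Or.inr h))
    (fun _ _ _ h => Or.inl (Or.inr h))
  -- fans
  have n1 := hB.i₁.nx ⟨z, Pz⟩ ⟨y, Py⟩ L₁ (List.IsRotated.refl _)
  have n2 := hB.i₂.nx ⟨x, Px⟩ ⟨z, Qz⟩ (K₁b.map Prod.fst) (by
    have : (⟨z, Qz⟩ :: (K₁b.map Prod.fst ++ [⟨x, Px⟩]) : List (FC N)) =
      (⟨z, Qz⟩ :: K₁b.map Prod.fst) ++ [⟨x, Px⟩] := rfl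
    rw [this]
    exact List.isRotated_append)
  obtain ⟨n1a, n1b⟩ := n1
  obtain ⟨n2a, n2b⟩ := n2
  simp only at n1a n1b n2a n2b
  have tx : (⟨x, Px ++ [y]⟩ : FC N).th ang = (⟨x, Px⟩ : FC N).th ang + ang x y z := by
    show plen ang x (Px ++ [y]) = plen ang x Px + ang x y z
    rw [plen_app ang x z y Px [y] n2a rfl, hB.euc.asymm x z y]
    simp [plen]
  have ty : (⟨y, x :: Py⟩ : FC N).th ang = (⟨y, Py⟩ : FC N).th ang + ang y x z := by
    show plen ang y ([x] ++ Py) = plen ang y Py + ang y x z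
    rw [plen_app ang y x z [x] Py rfl n1b]
    simp [plen]; ring
  have tz : (⟨z, Pz ++ Qz⟩ : FC N).th ang = (⟨z, Pz⟩ : FC N).th ang + ang z x y +
      (⟨z, Qz⟩ : FC N).th ang := by
    show plen ang z (Pz ++ Qz) = plen ang z Pz + ang z x y + plen ang z Qz
    rw [plen_app ang z y x Pz Qz n1a n2b, hB.euc.asymm z y x]
  -- split the chain
  obtain ⟨c1, c2, c3⟩ := List.isChain_append.1 hch
  rw [← List.cons_append] at c2
  obtain ⟨c4, c5, c6⟩ := List.isChain_append.1 c2
  have hzdir : |φz| ≤ Real.pi := hdir (⟨z, Pz ++ Qz⟩, φz) (by simp)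
  -- the second disc
  have cd2 : List.IsChain (TRel ang) ((⟨z, Qz⟩, φz) :: (K₁b ++ [(⟨x, Px⟩, ψ + ang x y z)])) := by
    have c7 : List.IsChain (TRel ang) (((⟨z, Pz ++ Qz⟩, φz) :: K₁b) ++
        [(⟨x, Px⟩, ψ + ang x y z)]) := by
      rw [List.isChain_append]
      refine ⟨c4, List.isChain_singleton _, ?_⟩
      intro p hp q hq
      have h1 := c6 p hp (⟨x, Px ++ [y]⟩, ψ) (by simp)
      simp only [List.head?_cons, Option.mem_def, Option.some.injEq] at hq
      subst hq
      unfold TRel at h1 ⊢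
      simp only at h1 ⊢
      rw [tx] at h1
      linarith
    exact chain_fst (p := (⟨z, Pz ++ Qz⟩, φz)) (p' := (⟨z, Qz⟩, φz)) rfl c7
  have hM2 : MCon ang ((⟨z, Qz⟩, φz) :: (K₁b ++ [(⟨x, Px⟩, ψ + ang x y z)])) := by
    refine ⟨?_, cd2⟩
    intro p hp
    simp only [List.mem_cons, List.mem_append, List.not_mem_nil, or_false] at hp
    rcases hp with hp | hp | hp
    · rw [hp]; exact hzdir
    · exact hdir p (by simp [hp])
    · rw [hp]
      simp only
      rw [abs_le] at hψ ⊢
      constructor <;> linarith [hψ.1, hψ.2]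
  have hd2 := hB.m₂ C₂ [] ((⟨z, Qz⟩, φz) :: (K₁b ++ [(⟨x, Px⟩, ψ + ang x y z)]))
    (by simpa using hB.h₂) he2 hM2 ⟨z, Qz⟩ _ rfl
  simp only [fstV, List.map_nil, List.nil_append, elen] at hd2
  -- Gauss-Bonnet
  have hgb := hGB ang A₂ C₂ _ hB.euc.asymm (fun a b c h => (he2.asum a b c h).le) hB.h₂
  have ht := tele ang K₁b (⟨z, Qz⟩, φz) (⟨x, Px⟩, ψ + ang x y z) cd2
  have hsum2 : ((⟨z, Qz⟩ :: (K₁b.map Prod.fst ++ [⟨x, Px⟩])).map
      fun c : FC N => Real.pi - c.th ang).sum = (Real.pi - (⟨z, Qz⟩ : FC N).th ang) +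
      ((K₁b.map fun q => Real.pi - q.1.th ang).sum + (Real.pi - (⟨x, Px⟩ : FC N).th ang)) := by
    rw [List.map_cons, List.sum_cons, List.map_append, List.sum_append, List.map_map]
    simp [Function.comp_def]
  rw [hsum2] at hgb
  simp only at ht
  -- the constraint at z in the first disc
  have hz : ∀ t : ℝ, Real.pi - (⟨z, Pz ++ Qz⟩ : FC N).th ang ≤ φz - t →
      Real.pi - (⟨z, Pz⟩ : FC N).th ang ≤ (ψ - ang y x z) - t := by
    intro t h1
    rw [tz] at h1
    linarith
  have hψγ : |ψ - ang y x z| ≤ Real.pi := by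
    rw [abs_le] at hψ ⊢
    constructor <;> linarith [hψ.1, hψ.2]
  rcases K₂ with _ | ⟨q, K₂⟩
  · rcases R with _ | ⟨q, R⟩
    · rcases K₁a with _ | ⟨q, K₁a⟩
      · simp at hL
      · -- y is the first corner of K₁a
        simp only [List.map_nil, List.nil_append, List.map_cons, List.cons.injEq] at hL
        obtain ⟨hq, hL⟩ := hL
        refine core (R' := []) (K₁a' := (⟨y, Py⟩, q.2) :: K₁a) (K₂' := []) hB.m₁ he1 ?_ ?_ ?_
          rfl rfl ?_ hd2 hpr
        · have h1 := hB.h₁
          rw [← hL] at h1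
          have h2 := PD.rot h1
          simpa using h2
        · refine ⟨?_, ?_⟩
          · intro p hp
            simp only [List.cons_append, List.mem_cons, List.mem_append, List.not_mem_nil,
              or_false] at hp
            rcases hp with hp | hp | hp
            · rw [hp]; exact hdir q (by simp)
            · exact hdir p (by simp [hp])
            · rw [hp]; exact hψγ
          · show List.IsChain (TRel ang) _
            rw [List.isChain_append]
            refine ⟨chain_fst (p := q) (p' := (⟨y, Py⟩, q.2)) rfl c1, List.isChain_singleton _, ?_⟩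
            intro p hp r hr
            simp only [List.head?_cons, Option.mem_def, Option.some.injEq] at hr
            subst hr
            obtain ⟨p', hp', hpp⟩ : ∃ p' ∈ (q :: K₁a).getLast?, p'.2 = p.2 := by
              rcases K₁a with _ | ⟨r, K₁a⟩
              · simp only [List.getLast?_singleton, Option.mem_def, Option.some.injEq] at hp
                exact ⟨q, by simp, by rw [← hp]⟩
              · rw [List.getLast?_cons_cons] at hp ⊢
                exact ⟨p, hp, rfl⟩
            have h1 := c3 p' hp' (⟨z, Pz ++ Qz⟩, φz) (by simp)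
            unfold TRel at h1 ⊢
            simp only at h1 ⊢
            rw [← hpp]
            exact hz _ h1
        · simp [gg, hq]
        · intro x₀ K' hx0
          simp only [List.cons_append, List.map_cons, List.cons.injEq] at hx0
          simp only [fstV, List.map_nil]
          rw [← hx0.1, hq]
    · -- y is the first corner of R
      simp only [List.map_nil, List.nil_append, List.cons_append, List.cons.injEq] at hL
      obtain ⟨hq, hL⟩ := hL
      refine core (R' := ⟨y, Py⟩ :: R) (K₁a' := K₁a) (K₂' := []) hB.m₁ he1 ?_ ?_ rfl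
        rfl ?_ ?_ hd2 hpr
      · have h1 := hB.h₁
        rw [← hL] at h1
        have h2 := PD.rot h1
        simpa using h2
      · refine ⟨?_, ?_⟩
        · intro p hp
          simp only [List.mem_append, List.mem_cons, List.not_mem_nil, or_false] at hp
          rcases hp with hp | hp
          · exact hdir p (by simp [hp])
          · rw [hp]; exact hψγ
        · show List.IsChain (TRel ang) _
          rw [List.isChain_append]
          refine ⟨c1, List.isChain_singleton _, ?_⟩
          intro p hp r hr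
          simp only [List.head?_cons, Option.mem_def, Option.some.injEq] at hr
          subst hr
          have h1 := c3 p hp (⟨z, Pz ++ Qz⟩, φz) (by simp)
          unfold TRel at h1 ⊢
          simp only at h1 ⊢
          exact hz _ h1
      · simp [hq]
      · intro x₀ K' hx0
        simp only [fstV, List.map_nil]
        rw [hq]
  · -- y is the first corner of K₂
    simp only [List.map_cons, List.cons_append, List.cons.injEq] at hL
    obtain ⟨hq, hL⟩ := hL
    refine core (R' := R) (K₁a' := K₁a) (K₂' := (⟨y, Py⟩, q.2) :: K₂) hB.m₁ he1 ?_ ?_ rfl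
      ?_ rfl ?_ hd2 hpr
    · have h1 := hB.h₁
      rw [← hL] at h1
      have h2 := pd_rot (⟨z, Pz⟩ :: ⟨y, Py⟩ :: K₂.map Prod.fst) (R ++ K₁a.map Prod.fst)
        (by simpa using h1)
      simpa using h2
    · refine ⟨?_, ?_⟩
      · intro p hp
        simp only [List.mem_append, List.mem_cons] at hp
        rcases hp with hp | hp | hp | hp
        · exact hdir p (by simp [hp])
        · rw [hp]; exact hψγ
        · rw [hp]; exact hdir q (by simp)
        · exact hdir p (by simp [hp])
      · show List.IsChain (TRel ang) _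
        rw [List.isChain_cons_cons] at c5
        obtain ⟨c8, c9⟩ := c5
        rw [List.isChain_append]
        refine ⟨c1, ?_, ?_⟩
        · rw [List.isChain_cons_cons]
          refine ⟨?_, chain_fst (p := q) (p' := (⟨y, Py⟩, q.2)) rfl c9⟩
          unfold TRel at c8 ⊢
          simp only at c8 ⊢
          rw [hq, ty] at c8
          linarith
        · intro p hp r hr
          simp only [List.head?_cons, Option.mem_def, Option.some.injEq] at hr
          subst hr
          have h1 := c3 p hp (⟨z, Pz ++ Qz⟩, φz) (by simp)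
          unfold TRel at h1 ⊢
          simp only at h1 ⊢
          exact hz _ h1
    · simp [gg, hq]
    · intro x₀ K' hx0
      simp only [fstV, List.map_cons]
      rw [hq]

end Pool.Agent.MSN
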