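import Pool.Agent.MSN.Targets

/-!
# MTB2: transport inequality, case both, apex in the second part of the path
-/

namespace Pool.Agent.MSN

open List Pool.Agent.MSF

universe u

namespace MTB2

variable {N : Type u}

lemma pd_rot {ang : N → N → N → ℝ} {A : ℕ} {C : Cx N} : ∀ (L L' : List (FC N)),
    PD ang A C (L ++ L') → PD ang A C (L' ++ L)
  | [], L', h => by simpa using h
  | c :: L, L', h => by
    have h1 : PD ang A C ((L ++ L') ++ [c]) := PD.rot (by simpa using h)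
    have h2 : PD ang A C (L ++ (L' ++ [c])) := by simpa [List.append_assoc] using h1
    have h3 := pd_rot L (L' ++ [c]) h2
    simpa [List.append_assoc] using h3

lemma euc_mono {len : N → N → ℝ} {ang : N → N → N → ℝ} {C C' : Cx N} (h : Euc len ang C')
    (hE : ∀ x y, C.E x y → C'.E x y) (hT : ∀ x y w, C.T x y w → C'.T x y w) :
    Euc len ang C :=
  ⟨h.lsymm, h.asymm, fun x y e => h.lpos x y (hE _ _ e), fun x y w e => h.apos x y w (hT _ _ _ e),
    fun x y w e => h.ale x y w (hT _ _ _ e), fun x y w e => h.asum x y w (hT _ _ _ e),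
    fun x y w e => h.proj x y w (hT _ _ _ e)⟩

lemma ws_append (len : N → N → ℝ) (e : N) : ∀ (K K' : List (FC N × ℝ)),
    WS len (K ++ K') e = WS len K (fstV e (K'.map Prod.fst)) + WS len K' e
  | [], K' => by simp [WS]
  | (c, φ) :: K, K' => by
    have ih := ws_append len e K K'
    cases K with
    | nil => simp [WS, fstV]
    | cons p K =>
      obtain ⟨d, χ⟩ := p
      simp only [List.cons_append, List.map_cons, WS, fstV] at ih ⊢
      linarith

lemma plen_snoc' (ang : N → N → N → ℝ) (v a b : N) (Y : List N) : ∀ X : List N,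
    plen ang v (X ++ a :: b :: Y) = plen ang v (X ++ [a]) + ang v a b + plen ang v (b :: Y)
  | [] => by simp [plen]
  | [c] => by
    simp only [List.cons_append, List.nil_append, plen]
    ring
  | c :: d :: X => by
    have ih := plen_snoc' ang v a b Y (d :: X)
    simp only [List.cons_append, plen] at ih ⊢
    linarith

lemma tele (ang : N → N → N → ℝ) : ∀ (p : FC N × ℝ) (K : List (FC N × ℝ)),
    List.IsChain (fun p q : FC N × ℝ => Real.pi - q.1.th ang ≤ q.2 - p.2) (p :: K) →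
    ∀ q : FC N × ℝ, (p :: K).getLast? = some q →
    ((K.map Prod.fst).map fun c => Real.pi - c.th ang).sum ≤ q.2 - p.2
  | p, [], _, q, hq => by
    simp only [List.getLast?_singleton, Option.some.injEq] at hq
    subst hq
    simp
  | p, r :: K, h, q, hq => by
    rw [List.isChain_cons_cons] at h
    have hq' : (r :: K).getLast? = some q := by
      rw [← hq, List.getLast?_cons_cons]
    have ih := tele ang r K h.2 q hq'
    have h1 := h.1
    simp only [List.map_cons, List.sum_cons]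
    linarith

end MTB2

open MTB2 in
/-- The target `T_MTB2`. -/
theorem tMTB2 (hGB : T_GB.{u}) : T_MTB2.{u} := by
  intro N len ang A₁ A₂ C₁ C₂ x y z Px Pz Qz Py L₁ R ψ φz K₁ K₂a K₂b hB hK hψ hM
  obtain ⟨m₁, m₂, h₁, i₁, h₂, i₂, hd, euc⟩ := hB
  obtain _ | ⟨⟨cy, φy⟩, K₂⟩ := K₂a
  · simp at hK
  simp only [List.map_cons, List.cons.injEq] at hK
  obtain ⟨rfl, rfl⟩ := hK
  -- angles of the new triangle
  have hT : ((C₁.sup C₂).add x y z).T x y z := Or.inr (Or.inl ⟨rfl, rfl, rfl⟩)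
  have hT3 : ((C₁.sup C₂).add x y z).T z x y := Or.inr (Or.inr (Or.inr ⟨rfl, rfl, rfl⟩))
  have g0 := euc.apos x y z hT
  have g1 := euc.ale x y z hT
  have b0 := euc.apos z x y hT3
  have b1 := euc.ale z x y hT3
  rw [euc.asymm x z y] at b0 b1
  have hsum := euc.asum x y z hT
  have hproj := euc.proj x y z hT ψ
  have euc₁ : Euc len ang C₁ := euc_mono euc (fun _ _ h => Or.inl (Or.inl h))
    (fun _ _ _ h => Or.inl (Or.inl h))
  have euc₂ : Euc len ang C₂ := euc_mono euc (fun _ _ h => Or.inl (Or.inr h))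
    (fun _ _ _ h => Or.inl (Or.inr h))
  -- fans
  obtain ⟨hn1, hn2⟩ := i₁.nx ⟨z, Pz⟩ ⟨y, Py⟩ _ (List.IsRotated.refl _)
  obtain ⟨hn3, hn4⟩ := i₂.nx ⟨x, Px⟩ ⟨z, Qz⟩ (K₂b.map Prod.fst ++ (R ++ K₁.map Prod.fst))
    (by
      have := List.isRotated_append (l := ⟨z, Qz⟩ :: (K₂b.map Prod.fst ++ (R ++ K₁.map Prod.fst)))
        (l' := [⟨x, Px⟩])
      simpa using this)
  simp only at hn1 hn2 hn3 hn4
  obtain ⟨Pz', rfl⟩ := List.getLast?_eq_some_iff.mp hn1
  obtain ⟨Py', rfl⟩ := List.head?_eq_some_iff.mp hn2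
  obtain ⟨Px', rfl⟩ := List.getLast?_eq_some_iff.mp hn3
  obtain ⟨Qz', rfl⟩ := List.head?_eq_some_iff.mp hn4
  obtain ⟨hM1, hM2⟩ := hM
  have hψ1 := abs_le.mp hψ
  -- split the chain
  rw [List.isChain_append] at hM2
  obtain ⟨hc1, hc2, hc3⟩ := hM2
  rw [List.cons_append, List.isChain_cons_cons] at hc2
  obtain ⟨hc4, hc5⟩ := hc2
  rw [← List.cons_append, List.isChain_append] at hc5
  obtain ⟨hc6, hc7, hc8⟩ := hc5
  have ey : plen ang y (x :: z :: Py') = ang y x z + plen ang y (z :: Py') := by simp [plen]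
  have ex : plen ang x ((Px' ++ [z]) ++ [y]) = plen ang x (Px' ++ [z]) + ang x z y := by
    have := plen_snoc' ang x z y [] Px'
    simpa [plen] using this
  have ez : plen ang z ((Pz' ++ [y]) ++ (x :: Qz')) =
      plen ang z (Pz' ++ [y]) + ang z y x + plen ang z (x :: Qz') := by
    have := plen_snoc' ang z y x Qz' Pz'
    simpa using this
  -- first disc
  have c₁ : List.IsChain (fun p q : FC N × ℝ => Real.pi - q.1.th ang ≤ q.2 - p.2)
      ((⟨z, Pz' ++ [y]⟩, ψ - ang y x z) :: (⟨y, z :: Py'⟩, φy) :: K₂) := by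
    rw [List.isChain_cons_cons]
    refine ⟨?_, ?_⟩
    · simp only [FC.th] at hc4 ⊢
      rw [ey] at hc4
      linarith
    · cases K₂ with
      | nil => simp
      | cons p K =>
        rw [List.isChain_cons_cons] at hc6 ⊢
        exact hc6
  -- the last direction of the second part
  obtain ⟨φl, ⟨c, hφ1⟩, ⟨c', hφ2⟩⟩ : ∃ φl : ℝ,
      (∃ c, (((⟨z, Pz' ++ [y]⟩ : FC N), ψ - ang y x z) ::
        ((⟨y, z :: Py'⟩ : FC N), φy) :: K₂).getLast? = some (c, φl)) ∧
      (∃ c', (((⟨y, x :: z :: Py'⟩ : FC N), φy) :: K₂).getLast? = some (c', φl)) := by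
    rcases List.eq_nil_or_concat K₂ with rfl | ⟨K, p, rfl⟩
    · exact ⟨φy, ⟨_, rfl⟩, ⟨_, rfl⟩⟩
    · refine ⟨p.2, ⟨p.1, ?_⟩, ⟨p.1, ?_⟩⟩
      · rw [List.getLast?_cons_cons, List.getLast?_cons, List.concat_eq_append]
        simp
      · rw [List.getLast?_cons, List.concat_eq_append]
        simp
  have ht := tele ang _ _ c₁ _ hφ1
  have hz := hc8 _ hφ2 (⟨z, (Pz' ++ [y]) ++ (x :: Qz')⟩, φz) rfl
  have hgb := hGB ang A₁ C₁ _ euc₁.asymm (fun a b c h => (euc₁.asum a b c h).le) h₁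
  simp only [List.map_cons, List.sum_cons, FC.th] at ht hz hgb
  rw [ez, euc.asymm z y x] at hz
  have key : Real.pi - plen ang z (x :: Qz') ≤ φz - (ψ + ang x y z) := by linarith
  -- second disc
  have c₂ : List.IsChain (fun p q : FC N × ℝ => Real.pi - q.1.th ang ≤ q.2 - p.2)
      (K₁ ++ (⟨x, Px' ++ [z]⟩, ψ + ang x y z) :: (⟨z, x :: Qz'⟩, φz) :: K₂b) := by
    rw [List.isChain_append]
    refine ⟨hc1, ?_, ?_⟩
    · rw [List.isChain_cons_cons]
      refine ⟨key, ?_⟩
      cases K₂b with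
      | nil => simp
      | cons p K =>
        rw [List.isChain_cons_cons] at hc7 ⊢
        exact hc7
    · intro p hp q hq
      have h := hc3 p hp (⟨x, (Px' ++ [z]) ++ [y]⟩, ψ) rfl
      simp only [List.head?_cons, Option.mem_def, Option.some.injEq] at hq
      subst hq
      simp only [FC.th] at h ⊢
      rw [ex, euc.asymm x z y] at h
      linarith
  have r₁ := m₁ C₁ [] ((⟨z, Pz' ++ [y]⟩, ψ - ang y x z) :: (⟨y, z :: Py'⟩, φy) :: K₂)
    (by simpa using h₁) euc₁ ⟨by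
      intro p hp
      simp only [List.mem_cons] at hp
      rcases hp with rfl | rfl | hp
      · rw [abs_le]
        constructor <;> simp only <;> linarith [Real.pi_pos]
      · exact hM1 (⟨y, x :: z :: Py'⟩, φy) (by simp)
      · exact hM1 p (by simp [hp]), c₁⟩ ⟨z, Pz' ++ [y]⟩ _ rfl
  have hpd : PD ang A₂ C₂ (R ++ (K₁ ++ (⟨x, Px' ++ [z]⟩, ψ + ang x y z) ::
      (⟨z, x :: Qz'⟩, φz) :: K₂b).map Prod.fst) := by
    have h := pd_rot (⟨z, x :: Qz'⟩ :: K₂b.map Prod.fst)
      (R ++ K₁.map Prod.fst ++ [⟨x, Px' ++ [z]⟩]) (by simpa using h₂)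
    simpa using h
  have r₂ := m₂ C₂ R (K₁ ++ (⟨x, Px' ++ [z]⟩, ψ + ang x y z) :: (⟨z, x :: Qz'⟩, φz) :: K₂b)
    hpd euc₂ ⟨by
      intro p hp
      simp only [List.mem_append, List.mem_cons] at hp
      rcases hp with hp | rfl | rfl | hp
      · exact hM1 p (by simp [hp])
      · rw [abs_le]
        constructor <;> simp only <;> linarith [Real.pi_pos]
      · exact hM1 (⟨z, (Pz' ++ [y]) ++ (x :: Qz')⟩, φz) (by simp)
      · exact hM1 p (by simp [hp]), c₂⟩
  intro x₀ K' hx₀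
  have r₃ : WS len (K₁ ++ (⟨x, Px' ++ [z]⟩, ψ + ang x y z) :: (⟨z, x :: Qz'⟩, φz) :: K₂b)
      (fstV x₀.v R) ≤ elen len (R.map FC.v ++ [x₀.v]) := by
    cases K₁ with
    | nil =>
      simp only [List.nil_append, List.map_cons, List.cons.injEq] at hx₀
      rw [← hx₀.1]
      exact r₂ ⟨x, Px' ++ [z]⟩ _ rfl
    | cons p K =>
      simp only [List.cons_append, List.map_cons, List.cons.injEq] at hx₀
      rw [← hx₀.1]
      exact r₂ _ _ rfl
  generalize fstV x₀.v R = e at r₃ ⊢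
  have hf : fstV e (K₂.map Prod.fst ++ ⟨z, Pz' ++ [y] ++ x :: Qz'⟩ :: K₂b.map Prod.fst) =
      fstV z (K₂.map Prod.fst) := by
    cases K₂ <;> rfl
  have r₄ : len z y * Real.cos (ψ - ang y x z) + (len y (fstV z (K₂.map Prod.fst)) * Real.cos φy +
      WS len K₂ z) ≤ 0 := r₁
  rw [ws_append] at r₃ ⊢
  have r₅ : WS len K₁ x + (len x z * Real.cos (ψ + ang x y z) +
      (len z (fstV e (K₂b.map Prod.fst)) * Real.cos φz + WS len K₂b e)) ≤
      elen len (R.map FC.v ++ [x₀.v]) := r₃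
  have hg : WS len (((⟨y, x :: z :: Py'⟩ : FC N), φy) :: K₂ ++
      (⟨z, Pz' ++ [y] ++ x :: Qz'⟩, φz) :: K₂b) e =
      (len y (fstV z (K₂.map Prod.fst)) * Real.cos φy + WS len K₂ z) +
      (len z (fstV e (K₂b.map Prod.fst)) * Real.cos φz + WS len K₂b e) := by
    rw [ws_append]
    rfl
  show WS len K₁ x + (len x y * Real.cos ψ + WS len (((⟨y, x :: z :: Py'⟩ : FC N), φy) :: K₂ ++
      (⟨z, Pz' ++ [y] ++ x :: Qz'⟩, φz) :: K₂b) e) ≤ _
  rw [hg]
  linarith

end Pool.Agent.MSN
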