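import Pool.Agent.MSN.MTI

/-!
# MTBR: transport inequality, case both, apex in the complementary path
-/

namespace Pool.Agent.MSN

open List Pool.Agent.MSF

universe u

namespace MTBR

open MTI

variable {N : Type u}

theorem elen_split (len : N → N → ℝ) (z : N) (Y : List N) : ∀ X : List N,
    elen len (X ++ z :: Y) = elen len (X ++ [z]) + elen len (z :: Y)
  | [] => by simp [elen]
  | [a] => by simp [elen]
  | a :: b :: X => by
    have h := elen_split len z Y (b :: X)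
    simp only [List.cons_append] at h ⊢
    simp only [elen]
    rw [h]
    ring

theorem WS_split (len : N → N → ℝ) (c : FC N) (φ : ℝ) (K₁ K₂ : List (FC N × ℝ)) (e : N) :
    WS len (K₁ ++ (c, φ) :: K₂) e = WV len (K₁.map vv) c.v +
      (len c.v (((K₂.map Prod.fst).map FC.v).headD e) * Real.cos φ + WV len (K₂.map vv) e) := by
  rw [WS_eq, List.map_append, List.map_cons]
  show WV len (K₁.map vv ++ (c.v, φ) :: K₂.map vv) e = _
  rw [WV_append]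
  show _ + (len c.v (((K₂.map vv).map Prod.fst).headD e) * Real.cos φ + _) = _
  rw [map_vv]

/-- The comparison of the sums. -/
theorem core (len : N → N → ℝ) (ang : N → N → N → ℝ) (A₁ A₂ : ℕ) (m₁ : MTat len ang A₁)
    (m₂ : MTat len ang A₂) (C₁ C₂ : Cx N) (x y z : N) (Px Pz Qz Pxy Pzz : List N)
    (R₁ R₁' R₂ : List (FC N)) (ψ β γ : ℝ) (K₁ K₂ K₂' : List (FC N × ℝ))
    (e2 : K₂'.map vv = K₂.map vv) (eR : R₁'.map FC.v = R₁.map FC.v)
    (hy : ((K₂.map Prod.fst ++ R₁).map FC.v).head? = some y)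
    (h₁ : PD ang A₁ C₁ (R₁' ++ ⟨z, Pz⟩ :: K₂'.map Prod.fst))
    (h₂ : PD ang A₂ C₂ (⟨z, Qz⟩ :: ((R₂ ++ K₁.map Prod.fst) ++ [⟨x, Px⟩])))
    (hE₁ : Euc len ang C₁) (hE₂ : Euc len ang C₂)
    (hp : len x y * Real.cos ψ = len x z * Real.cos (ψ + β) + len z y * Real.cos (ψ - γ))
    (hM₁ : MCon ang ((⟨z, Pz⟩, ψ - γ) :: K₂'))
    (hM₂ : MCon ang (K₁ ++ [(⟨x, Px⟩, ψ + β)])) :
    MTc len (R₁ ++ ⟨z, Pzz⟩ :: R₂) (K₁ ++ (⟨x, Pxy⟩, ψ) :: K₂) := by
  intro x₀ K hK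
  have hK' : ∃ x₀' K', (K₁ ++ [((⟨x, Px⟩ : FC N), ψ + β)]).map Prod.fst = x₀' :: K' ∧
      x₀'.v = x₀.v := by
    cases K₁ with
    | nil =>
      simp only [List.nil_append, List.map_cons, List.cons.injEq] at hK
      refine ⟨_, _, rfl, ?_⟩
      rw [← hK.1]
    | cons p K₁ =>
      simp only [List.cons_append, List.map_cons, List.cons.injEq] at hK
      refine ⟨_, _, rfl, ?_⟩
      rw [← hK.1]
  obtain ⟨x₀', K', hK', hv⟩ := hK'
  -- the first piece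
  have i1 := m₁ C₁ R₁' ((⟨z, Pz⟩, ψ - γ) :: K₂') h₁ hE₁ hM₁ ⟨z, Pz⟩ (K₂'.map Prod.fst) rfl
  have i2 := m₂ C₂ (⟨z, Qz⟩ :: R₂) (K₁ ++ [(⟨x, Px⟩, ψ + β)]) (by
    have e : (⟨z, Qz⟩ :: R₂) ++ (K₁ ++ [((⟨x, Px⟩ : FC N), ψ + β)]).map Prod.fst =
        ⟨z, Qz⟩ :: ((R₂ ++ K₁.map Prod.fst) ++ [⟨x, Px⟩]) := by
      simp
    rw [e]
    exact h₂) hE₂ hM₂ x₀' K' hK'
  have s1 := WS_split len (⟨z, Pz⟩ : FC N) (ψ - γ) [] K₂' (fstV z R₁')
  have s2 := WS_split len (⟨x, Px⟩ : FC N) (ψ + β) K₁ [] (fstV x₀'.v (⟨z, Qz⟩ :: R₂))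
  have s3 := WS_split len (⟨x, Pxy⟩ : FC N) ψ K₁ K₂ (fstV x₀.v (R₁ ++ ⟨z, Pzz⟩ :: R₂))
  have f1 : fstV x₀.v (R₁ ++ ⟨z, Pzz⟩ :: R₂) = fstV z R₁ := by
    cases R₁ <;> rfl
  have f2 : fstV z R₁' = fstV z R₁ := by
    rw [fstV_eq, fstV_eq, eR]
  have f3 : (K₂'.map Prod.fst).map FC.v = (K₂.map Prod.fst).map FC.v := by
    rw [← map_vv, ← map_vv, e2]
  have f4 : ((K₂.map Prod.fst).map FC.v).headD (fstV z R₁) = y := by
    rw [fstV_eq]
    cases K₂ with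
    | cons q K₂ =>
      simp only [List.map_cons, List.cons_append, List.head?_cons, Option.some.injEq] at hy
      exact hy
    | nil =>
      cases R₁ with
      | cons q R₁ =>
        simp only [List.map_nil, List.nil_append, List.map_cons,
          List.head?_cons, Option.some.injEq] at hy
        exact hy
      | nil => simp at hy
  have k1 : WS len ([] ++ (⟨z, Pz⟩, ψ - γ) :: K₂') (fstV z R₁') ≤
      elen len (R₁'.map FC.v ++ [z]) := i1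
  rw [s1, f2, f3, f4, e2, eR] at k1
  rw [s2, hv] at i2
  rw [s3, f1, f4]
  have g1 : elen len ((R₁ ++ ⟨z, Pzz⟩ :: R₂).map FC.v ++ [x₀.v]) =
      elen len (R₁.map FC.v ++ [z]) + elen len ((⟨z, Qz⟩ :: R₂ : List (FC N)).map FC.v ++ [x₀.v]) := by
    have := elen_split len z (R₂.map FC.v ++ [x₀.v]) (R₁.map FC.v)
    simpa using this
  rw [g1]
  have j1 : (0 : ℝ) + (len z y * Real.cos (ψ - γ) + WV len (K₂.map vv) (fstV z R₁)) ≤
      elen len (R₁.map FC.v ++ [z]) := k1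
  have j2 : WV len (K₁.map vv) x + (len x z * Real.cos (ψ + β) + 0) ≤
      elen len ((⟨z, Qz⟩ :: R₂ : List (FC N)).map FC.v ++ [x₀.v]) := i2
  show WV len (K₁.map vv) x + (len x y * Real.cos ψ + WV len (K₂.map vv) (fstV z R₁)) ≤ _
  rw [hp]
  linarith

/-- The constraints of the second piece. -/
theorem mcon₂ (ang : N → N → N → ℝ) (x : N) (Px Pxy : List N) (ψ β : ℝ)
    (K₁ K₂ : List (FC N × ℝ)) (hβ : 0 ≤ β) (hβ' : β ≤ Real.pi / 2) (hψ : |ψ| ≤ Real.pi / 2)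
    (hx : (⟨x, Pxy⟩ : FC N).th ang + ψ ≤ (⟨x, Px⟩ : FC N).th ang + (ψ + β))
    (hM : MCon ang (K₁ ++ (⟨x, Pxy⟩, ψ) :: K₂)) :
    MCon ang (K₁ ++ [(⟨x, Px⟩, ψ + β)]) := by
  obtain ⟨hd, hc⟩ := hM
  have hc' : List.IsChain (rel ang) (K₁ ++ ((⟨x, Pxy⟩ : FC N), ψ) :: K₂) := hc
  rw [List.isChain_split] at hc'
  have hψ1 := (abs_le.1 hψ).1
  have hψ2 := (abs_le.1 hψ).2
  refine ⟨fun p hp => ?_, chain_last hx hc'.1⟩
  rw [List.mem_append, List.mem_singleton] at hp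
  rcases hp with hp | hp
  · exact hd p (List.mem_append_left _ hp)
  · subst hp
    exact abs_le.2 ⟨by dsimp only; linarith [Real.pi_pos], by dsimp only; linarith⟩

/-- The constraints of the first piece. -/
theorem mcon₁ (ang : N → N → N → ℝ) (z : N) (Pz : List N) (cx : FC N) (ψ γ : ℝ)
    (K₁ K₂ K₂' : List (FC N × ℝ)) (hγ : 0 ≤ γ) (hγ' : γ ≤ Real.pi / 2) (hψ : |ψ| ≤ Real.pi / 2)
    (h2 : (K₂ = [] ∧ K₂' = []) ∨ ∃ c c' φ K, K₂ = (c, φ) :: K ∧ K₂' = (c', φ) :: K ∧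
      c.th ang ≤ c'.th ang + γ)
    (hM : MCon ang (K₁ ++ (cx, ψ) :: K₂)) :
    MCon ang ((⟨z, Pz⟩, ψ - γ) :: K₂') := by
  obtain ⟨hd, hc⟩ := hM
  have hc' : List.IsChain (rel ang) (K₁ ++ (cx, ψ) :: K₂) := hc
  rw [List.isChain_split] at hc'
  obtain ⟨-, c2⟩ := hc'
  have hψ1 := (abs_le.1 hψ).1
  have hψ2 := (abs_le.1 hψ).2
  constructor
  · intro p hp
    rw [List.mem_cons] at hp
    rcases hp with hp | hp
    · subst hp
      exact abs_le.2 ⟨by dsimp only; linarith, by dsimp only; linarith [Real.pi_pos]⟩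
    · rcases h2 with ⟨-, h2⟩ | ⟨c, c', φ, K, hK, hK', -⟩
      · rw [h2] at hp
        simp at hp
      · rw [hK', List.mem_cons] at hp
        rcases hp with hp | hp
        · subst hp
          exact hd (c, φ) (List.mem_append_right _ (by rw [hK]; simp))
        · exact hd p (List.mem_append_right _ (by rw [hK]; simp [hp]))
  · show List.IsChain (rel ang) _
    rcases h2 with ⟨-, h2⟩ | ⟨c, c', φ, K, hK, hK', hcc⟩
    · rw [h2]
      exact List.isChain_singleton _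
    · rw [hK, List.isChain_cons_cons] at c2
      rw [hK', List.isChain_cons_cons]
      refine ⟨?_, chain_first c' c2.2⟩
      have := c2.1
      unfold rel at this ⊢
      dsimp only at this ⊢
      linarith

end MTBR

open MTI MTBR in
/-- Transport inequality, case both, apex in the complementary path. -/
theorem tMTBR : T_MTBR.{u} := by
  intro N len ang A₁ A₂ C₁ C₂ x y z Px Pz Qz Py L₁ R₁ R₂ ψ K₁ K₂ hB hL hψ hMC
  obtain ⟨m₁, m₂, h₁, i₁, h₂, i₂, -, hE⟩ := hB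
  have hT1 : ((C₁.sup C₂).add x y z).T x y z := Or.inr (Or.inl ⟨rfl, rfl, rfl⟩)
  have hT3 : ((C₁.sup C₂).add x y z).T z x y := Or.inr (Or.inr (Or.inr ⟨rfl, rfl, rfl⟩))
  have hE₁ : Euc len ang C₁ :=
    euc_le hE (fun _ _ h => Or.inl (Or.inl h)) (fun _ _ _ h => Or.inl (Or.inl h))
  have hE₂ : Euc len ang C₂ :=
    euc_le hE (fun _ _ h => Or.inl (Or.inr h)) (fun _ _ _ h => Or.inl (Or.inr h))
  have a1 := hE.apos x y z hT1
  have a2 := hE.ale x y z hT1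
  have b1 := hE.apos z x y hT3
  have b2 := hE.ale z x y hT3
  rw [hE.asymm x z y] at b1 b2
  have hp := hE.proj x y z hT1 ψ
  have n1 := i₂.nx ⟨x, Px⟩ ⟨z, Qz⟩ (R₂ ++ K₁.map Prod.fst) (by
    refine ⟨(⟨z, Qz⟩ :: (R₂ ++ K₁.map Prod.fst) : List (FC N)).length, ?_⟩
    rw [← List.cons_append, List.rotate_append_length_eq]
    rfl)
  have n2 := i₁.nx ⟨z, Pz⟩ ⟨y, Py⟩ L₁ (List.IsRotated.refl _)
  have hx : (⟨x, Px ++ [y]⟩ : FC N).th ang + ψ ≤ (⟨x, Px⟩ : FC N).th ang + (ψ + ang x y z) := by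
    show plen ang x (Px ++ [y]) + ψ ≤ plen ang x Px + (ψ + ang x y z)
    rw [plen_last ang x z y Px n1.1, hE.asymm x z y]
    linarith
  have hyy : (⟨y, x :: Py⟩ : FC N).th ang ≤ (⟨y, Py⟩ : FC N).th ang + ang y x z := by
    show plen ang y (x :: Py) ≤ plen ang y Py + ang y x z
    rw [plen_head ang y z x Py n2.2]
    linarith
  have hM₂ := mcon₂ ang x Px _ ψ _ K₁ K₂ b1.le b2 hψ hx hMC
  cases K₂ with
  | cons q K₂ =>
    obtain ⟨c, φ⟩ := q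
    simp only [List.map_cons, List.cons_append, List.cons.injEq] at hL
    obtain ⟨hc, hL⟩ := hL
    subst hc
    refine core len ang A₁ A₂ m₁ m₂ C₁ C₂ x y z Px Pz Qz _ _ R₁ R₁ R₂ ψ (ang x y z)
      (ang y x z) K₁ _ ((⟨y, Py⟩, φ) :: K₂) rfl rfl ?_ ?_ h₂ hE₁ hE₂ hp ?_ hM₂
    · simp
    · have := rot_append (⟨z, Pz⟩ :: ⟨y, Py⟩ :: K₂.map Prod.fst) R₁
        (by rw [← hL] at h₁; simpa using h₁)
      simpa using this
    · exact mcon₁ ang z Pz _ ψ _ K₁ _ _ a1.le a2 hψ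
        (Or.inr ⟨_, _, φ, K₂, rfl, rfl, hyy⟩) hMC
  | nil =>
    simp only [List.map_nil, List.nil_append] at hL
    subst hL
    refine core len ang A₁ A₂ m₁ m₂ C₁ C₂ x y z Px Pz Qz _ _ _ (⟨y, Py⟩ :: L₁) R₂ ψ
      (ang x y z) (ang y x z) K₁ [] [] rfl rfl ?_ ?_ h₂ hE₁ hE₂ hp ?_ hM₂
    · simp
    · have := rot_append [(⟨z, Pz⟩ : FC N)] (⟨y, Py⟩ :: L₁) (by simpa using h₁)
      simpa using this
    · exact mcon₁ ang z Pz _ ψ _ K₁ _ _ a1.le a2 hψ (Or.inl ⟨rfl, rfl⟩) hMC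

end Pool.Agent.MSN
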