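import Pool.Agent.MSN.Targets

/-!
# The transport inequality for a digon (job MSN-MTD)
-/

namespace Pool.Agent.MSN

open List Pool.Agent.MSF

universe u

namespace MTD

theorem cos_add_le {p q : ℝ} (hp : |p| ≤ Real.pi) (hq : |q| ≤ Real.pi)
    (h : Real.pi ≤ q - p) : Real.cos p + Real.cos q ≤ 0 := by
  have h1 := abs_le.1 hp
  have h2 := abs_le.1 hq
  have h3 : Real.cos q ≤ Real.cos (p + Real.pi) :=
    Real.cos_le_cos_of_nonneg_of_le_pi (by linarith) h2.2 (by linarith)
  rw [Real.cos_add_pi] at h3
  linarith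

end MTD

theorem tMTD : T_MTD.{u} := by
  intro N len ang x y R K hxy hE hK hRK hM x₀ K' hx₀
  have hxE : (Cx.edge x y).E x y := Or.inl ⟨rfl, rfl⟩
  have hl := hE.lpos x y hxE
  have hs := hE.lsymm x y
  rcases R with _ | ⟨c, R⟩
  · -- closed path
    rcases K with _ | ⟨⟨c₁, p⟩, _ | ⟨⟨c₂, q⟩, _ | ⟨k, K⟩⟩⟩
    · exact absurd rfl hK
    · simp at hRK
    · simp only [List.nil_append, List.map_cons, List.map_nil, List.cons.injEq, and_true]
        at hRK hx₀
      obtain ⟨rfl, rfl⟩ := hRK
      obtain ⟨rfl, rfl⟩ := hx₀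
      obtain ⟨h1, h2⟩ := hM
      have hp := h1 (⟨x, [y]⟩, p) (by simp)
      have hq := h1 (⟨y, [x]⟩, q) (by simp)
      simp only at hp hq
      have h3 : Real.pi ≤ q - p := by
        have := h2
        simp only [List.isChain_cons_cons, FC.th, plen] at this
        linarith [this.1]
      have h4 := MTD.cos_add_le hp hq h3
      simp only [WS, fstV, List.map_cons, List.map_nil, List.nil_append, elen]
      rw [← hs]
      nlinarith
    · simp at hRK
  · rcases R with _ | ⟨c', R⟩
    · rcases K with _ | ⟨⟨c₁, p⟩, _ | ⟨k, K⟩⟩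
      · exact absurd rfl hK
      · simp only [List.cons_append, List.nil_append, List.map_cons, List.map_nil,
          List.cons.injEq, and_true] at hRK hx₀
        obtain ⟨rfl, rfl⟩ := hRK
        obtain ⟨rfl, rfl⟩ := hx₀
        simp only [WS, fstV, List.map_cons, List.map_nil, List.cons_append, List.nil_append,
          elen]
        rw [← hs]
        nlinarith [Real.cos_le_one p]
      · simp at hRK
    · rcases K with _ | ⟨k, K⟩
      · exact absurd rfl hK
      · simp at hRK

end Pool.Agent.MSN
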