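import Pool.Agent.MSN.Targets

/-!
# MSN: a two-sided path has no repeated vertex
-/

set_option autoImplicit false

namespace Pool.Agent.MSN

open List Pool.Agent.MSF

universe u

namespace NR

variable {N : Type u}

theorem bp_tail {ang : N → N → N → ℝ} {C : Cx N} {I : N → Prop} {x : N} {φ : ℝ} {y : N}
    {l : List (ℝ × N)} (h : Bp ang C I x ((φ, y) :: l)) : Bp ang C I y l := by
  cases l with
  | nil => trivial
  | cons p l =>
    obtain ⟨a, b⟩ := p
    exact h.2.2.2.2

theorem bp_head {ang : N → N → N → ℝ} {C : Cx N} {I : N → Prop} {x : N} {φ : ℝ} {y : N}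
    {l : List (ℝ × N)} (h : Bp ang C I x ((φ, y) :: l)) : C.E x y ∧ |φ| ≤ Real.pi / 4 := by
  cases l with
  | nil => exact h
  | cons p l =>
    obtain ⟨a, b⟩ := p
    exact ⟨h.1, h.2.1⟩

theorem bp_left {ang : N → N → N → ℝ} {C : Cx N} {I : N → Prop} (l₁ : List (ℝ × N)) :
    ∀ (x : N) (l₂ : List (ℝ × N)), Bp ang C I x (l₁ ++ l₂) → Bp ang C I x l₁ := by
  induction l₁ with
  | nil => intro x l₂ _; trivial
  | cons p l₁ ih =>
    intro x l₂ h
    obtain ⟨φ, y⟩ := p
    cases l₁ with
    | nil => exact bp_head h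
    | cons p' l' =>
      obtain ⟨φ', y'⟩ := p'
      exact ⟨h.1, h.2.1, h.2.2.1, h.2.2.2.1, ih y l₂ h.2.2.2.2⟩

theorem bp_bound {ang : N → N → N → ℝ} {C : Cx N} {I : N → Prop} (l : List (ℝ × N)) :
    ∀ x : N, Bp ang C I x l → ∀ p ∈ l, |p.1| ≤ Real.pi / 4 := by
  induction l with
  | nil => intro x _ p hp; simp at hp
  | cons p l ih =>
    intro x h q hq
    obtain ⟨φ, y⟩ := p
    rcases List.mem_cons.1 hq with rfl | hq
    · exact (bp_head h).2
    · exact ih y (bp_tail h) q hq

theorem bp_chain {ang : N → N → N → ℝ} {C : Cx N} {I : N → Prop} (l : List (ℝ × N)) :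
    ∀ x : N, Bp ang C I x l → List.IsChain C.E (x :: l.map Prod.snd) := by
  induction l with
  | nil => intro x _; simp
  | cons p l ih =>
    intro x h
    obtain ⟨φ, y⟩ := p
    rw [List.map_cons, List.isChain_cons_cons]
    exact ⟨(bp_head h).1, ih y (bp_tail h)⟩

theorem bi_symm {ang : N → N → N → ℝ} {C : Cx N} {p q n : N} {φ φ' : ℝ}
    (h : Bi ang C p q n φ φ') : Bi ang C n q p φ' φ := by
  obtain ⟨X, Y, h1, h2, h3, h4, h5, h6⟩ := h
  exact ⟨Y, X, h3, h4, h1, h2, h6, h5⟩

/-- The fan of a corner is the list of `Bi`. -/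
theorem fan_eq (h3 : T_FAN.{u}) {ang : N → N → N → ℝ} {C : Cx N}
    (hf : ∀ x y z z', C.T x y z → C.T x y z' → z = z') {c : FC N} {p n : N} {φ φ' : ℝ}
    (hP : c.P.Nodup) (hch : List.IsChain (fun r s => C.T r c.v s) c.P)
    (hh : c.P.head? = some p) (hl : c.P.getLast? = some n) (hB : Bi ang C p c.v n φ φ') :
    Real.pi - c.th ang ≤ φ' - φ := by
  obtain ⟨X, Y, h1, h2, _, _, h5, _⟩ := hB
  have hpn : p ≠ n := by
    intro e
    subst e
    simp at h1
  obtain ⟨Z, hZ⟩ : ∃ Z : List N, c.P = p :: (Z ++ [n]) := by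
    obtain ⟨v, P⟩ := c
    dsimp only at hh hl ⊢
    cases P with
    | nil => simp at hh
    | cons a P =>
      rw [List.head?_cons, Option.some.injEq] at hh
      subst hh
      rcases List.eq_nil_or_concat P with rfl | ⟨Z, b, rfl⟩
      · rw [List.getLast?_singleton, Option.some.injEq] at hl
        exact absurd hl hpn
      · rw [List.concat_eq_append] at hl ⊢
        rw [← List.cons_append, List.getLast?_concat, Option.some.injEq] at hl
        subst hl
        exact ⟨Z, rfl⟩
  rw [hZ] at hP hch
  have h7 := h3 (fun r s => C.T r c.v s) (fun x y y' => hf x c.v y y') p n X Z h1 hP h2 hch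
  have h8 : c.th ang = plen ang c.v (p :: (X ++ [n])) := by
    rw [FC.th, hZ, h7]
  rw [h8]
  exact h5

/-- Telescoping sum over the inner corners. -/
theorem tele {ang : N → N → N → ℝ} {C : Cx N} {I : N → Prop} (S : List (FC N))
    (R : FC N → FC N → Prop) (σ : ℝ)
    (hstep : ∀ cp c cn : FC N, ∀ φ φ' : ℝ, c ∈ S → R cp c → R c cn →
      Bi ang C cp.v c.v cn.v φ φ' → Real.pi - c.th ang ≤ σ * (φ' - φ))
    (l : List (ℝ × N)) : ∀ (M : List (FC N)) (cp ce : FC N) (ψ : ℝ),
      M.map FC.v = l.map Prod.snd → Bp ang C I cp.v (l ++ [(ψ, ce.v)]) →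
      List.IsChain R (cp :: (M ++ [ce])) → (∀ c ∈ M, c ∈ S) →
      ∀ (φ₁ : ℝ) (y₁ : N) (l₂ : List (ℝ × N)), l ++ [(ψ, ce.v)] = (φ₁, y₁) :: l₂ →
        (M.map fun c => Real.pi - c.th ang).sum ≤ σ * (ψ - φ₁) := by
  induction l with
  | nil =>
    intro M cp ce ψ hM _ _ _ φ₁ y₁ l₂ he
    have hM' : M = [] := by simpa using hM
    subst hM'
    simp only [List.nil_append, List.cons.injEq, Prod.mk.injEq] at he
    rw [← he.1.1]
    simp
  | cons p l ih =>
    intro M cp ce ψ hM hB hR hS φ₁ y₁ l₂ he
    obtain ⟨φ, y⟩ := p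
    cases M with
    | nil => simp at hM
    | cons c M =>
      rw [List.map_cons, List.map_cons, List.cons.injEq] at hM
      obtain ⟨hcy, hM⟩ := hM
      dsimp only at hcy
      have hφ : φ = φ₁ := by
        rw [List.cons_append, List.cons.injEq, Prod.mk.injEq] at he
        exact he.1.1
      obtain ⟨φ₂, y₂, l₃, hl⟩ : ∃ (φ₂ : ℝ) (y₂ : N) (l₃ : List (ℝ × N)),
          l ++ [(ψ, ce.v)] = (φ₂, y₂) :: l₃ := by
        cases l with
        | nil => exact ⟨ψ, ce.v, [], rfl⟩
        | cons p l => exact ⟨p.1, p.2, l ++ [(ψ, ce.v)], rfl⟩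
      rw [List.cons_append, hl] at hB
      obtain ⟨_, _, _, g4, g5⟩ := hB
      rw [← hl, ← hcy] at g5
      rw [List.cons_append, List.isChain_cons_cons] at hR
      have h1 := ih M c ce ψ hM g5 hR.2 (fun c' hc' => hS c' (List.mem_cons_of_mem _ hc')) φ₂ y₂ l₃
        hl
      obtain ⟨cn, M', hcn, hcn2⟩ : ∃ (cn : FC N) (M' : List (FC N)), M ++ [ce] = cn :: M' ∧
          cn.v = y₂ := by
        cases M with
        | nil =>
          refine ⟨ce, [], rfl, ?_⟩
          have hl0 : l = [] := by simpa using hM.symm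
          subst hl0
          simp only [List.nil_append, List.cons.injEq, Prod.mk.injEq] at hl
          exact hl.1.2
        | cons c' M' =>
          refine ⟨c', M' ++ [ce], rfl, ?_⟩
          cases l with
          | nil => simp at hM
          | cons p l =>
            rw [List.map_cons, List.map_cons, List.cons.injEq] at hM
            rw [List.cons_append, List.cons.injEq] at hl
            rw [hM.1, hl.1]
      have h2 : R c cn := by
        have h3 := hR.2
        rw [hcn, List.isChain_cons_cons] at h3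
        exact h3.1
      have h3 := hstep cp c cn φ φ₂ (hS c List.mem_cons_self) hR.1 h2 (by rw [hcn2, hcy]; exact g4)
      rw [List.map_cons, List.sum_cons, ← hφ]
      linarith

/-- The cyclic list of corners as a chain. -/
theorem cyc_chain {L : List (FC N)} (hn : ∀ c c' L', L ~r (c :: c' :: L') → Nx c c')
    (a : FC N) (M : List (FC N)) (hM : M ≠ []) (h : L ~r (a :: M)) :
    List.IsChain Nx (a :: (M ++ [a])) := by
  rw [List.isChain_iff_forall_rel_of_append_cons_cons]
  intro b c X Y hXY
  rcases List.eq_nil_or_concat Y with rfl | ⟨Y', d, rfl⟩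
  · have h1 : (a :: M) ++ [a] = (X ++ [b]) ++ [c] := by
      rw [List.cons_append, hXY]; simp
    obtain ⟨h2, h3⟩ := List.append_inj' h1 rfl
    rw [List.cons.injEq] at h3
    cases X with
    | nil =>
      rw [List.nil_append, List.cons.injEq] at h2
      exact absurd h2.2 hM
    | cons a' X' =>
      rw [List.cons_append, List.cons.injEq] at h2
      obtain ⟨h4, h5⟩ := h2
      rw [← h3.1]
      apply hn b a X'
      refine h.trans ?_
      rw [h5, ← List.cons_append]
      exact List.isRotated_append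
  · rw [List.concat_eq_append] at hXY
    have h1 : (a :: M) ++ [a] = (X ++ b :: c :: Y') ++ [d] := by
      rw [List.cons_append, hXY]; simp
    obtain ⟨h2, _⟩ := List.append_inj' h1 rfl
    apply hn b c (Y' ++ X)
    refine h.trans ?_
    rw [h2]
    exact List.isRotated_append

theorem plen_nonneg {ang : N → N → N → ℝ} (v : N) (P : List N)
    (h : List.IsChain (fun r s => 0 ≤ ang v r s) P) : 0 ≤ plen ang v P := by
  induction P with
  | nil => exact le_refl _
  | cons a P ih =>
    cases P with
    | nil => exact le_refl _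
    | cons b P =>
      rw [List.isChain_cons_cons] at h
      exact add_nonneg h.1 (ih h.2)

/-- There is no closed two-sided path. -/
theorem closed (h1 : T_INV.{u}) (h2 : T_SUB.{u}) (h3 : T_FAN.{u}) (h4 : T_GB.{u})
    {len : N → N → ℝ} {ang : N → N → N → ℝ} {A : ℕ} {C : Cx N} {L : List (FC N)}
    (hD : PD ang A C L) (hE : Euc len ang C) {I : N → Prop} {x : N} {l : List (ℝ × N)} {ψ : ℝ}
    (hB : Bp ang C I x (l ++ [(ψ, x)])) (hnd : (x :: l.map Prod.snd).Nodup) : False := by
  have hI := h1 ang A C L hD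
  rcases Nat.lt_or_ge l.length 2 with hlen | hlen
  · cases l with
    | nil => exact hI.irr x (bp_head hB).1
    | cons p l =>
      cases l with
      | nil =>
        obtain ⟨φ, y⟩ := p
        obtain ⟨_, _, _, ⟨X, Y, g1, _⟩, _⟩ := hB
        simp at g1
      | cons q l => simp at hlen
  · obtain ⟨A', C', L', _, hD', hLe, hL'⟩ := h2 ang hE.asymm A C L hD x (l.map Prod.snd)
      (by simpa using hlen) hnd (by
        have h5 := bp_chain _ x hB
        rwa [List.map_append] at h5)
    have hI' := h1 ang A' C' L' hD'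
    have hGB := h4 ang A' C' L' hE.asymm
      (fun a b c hT => (hE.asum a b c (hLe.T _ _ _ hT)).le) hD'
    have hne : l.map Prod.snd ≠ [] := by
      intro e
      have e' : l = [] := by simpa using e
      rw [e'] at hlen
      simp at hlen
    obtain ⟨φ₁, y₁, l₂, hl₂⟩ : ∃ (φ₁ : ℝ) (y₁ : N) (l₂ : List (ℝ × N)),
        l ++ [(ψ, x)] = (φ₁, y₁) :: l₂ := by
      cases l with
      | nil => exact ⟨ψ, x, [], rfl⟩
      | cons p l => exact ⟨p.1, p.2, l ++ [(ψ, x)], rfl⟩
    have b1 : |ψ| ≤ Real.pi / 4 := bp_bound _ x hB (ψ, x) (by simp)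
    have b2 : |φ₁| ≤ Real.pi / 4 := bp_bound _ x hB (φ₁, y₁) (by rw [hl₂]; simp)
    rw [abs_le] at b1 b2
    have hpi := Real.pi_pos
    -- the corner at `x`
    have h0 : ∀ c ∈ L', 0 ≤ c.th ang := by
      intro c hc
      apply plen_nonneg
      refine (hI'.fchain c hc).imp fun r s hrs => ?_
      exact (hE.apos r c.v s (hLe.T _ _ _ hrs)).le
    have hfun := hI.func
    have hch : ∀ c ∈ L', List.IsChain (fun r s => C.T r c.v s) c.P := fun c hc =>
      (hI'.fchain c hc).imp fun r s hrs => hLe.T _ _ _ hrs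
    rcases hL' with hL' | hL'
    · cases hL0 : L' with
      | nil => rw [hL0] at hL'; simp at hL'
      | cons c₀ M =>
        rw [hL0, List.map_cons, List.cons.injEq] at hL'
        have hM : M ≠ [] := by
          rintro rfl
          exact hne (by simpa using hL'.2.symm)
        have hc := cyc_chain hI'.nx c₀ M hM (by rw [hL0])
        have ht := tele (ang := ang) (C := C) (I := I) L' Nx 1
          (fun cp c cn φ φ' hcL hp hn hb => by
            rw [one_mul]
            exact fan_eq h3 hfun (hI'.fnodup c hcL) (hch c hcL) hp.2 hn.1 hb)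
          l M c₀ c₀ ψ hL'.2 (by rw [hL'.1]; exact hB) hc
          (fun c hcM => by rw [hL0]; exact List.mem_cons_of_mem _ hcM) φ₁ y₁ l₂
          (by rw [hL'.1]; exact hl₂)
        have h00 := h0 c₀ (by rw [hL0]; exact List.mem_cons_self)
        rw [hL0, List.map_cons, List.sum_cons] at hGB
        linarith
    · have hrev : L'.reverse.map FC.v = x :: l.map Prod.snd := by
        rw [List.map_reverse, hL', List.reverse_reverse]
      cases hL0 : L'.reverse with
      | nil => rw [hL0] at hrev; simp at hrev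
      | cons c₀ M =>
        rw [hL0, List.map_cons, List.cons.injEq] at hrev
        have hM : M ≠ [] := by
          rintro rfl
          exact hne (by simpa using hrev.2.symm)
        have hL1 : L' = M.reverse ++ [c₀] := by
          rw [← List.reverse_reverse L', hL0, List.reverse_cons]
        have hc := cyc_chain hI'.nx c₀ M.reverse (by simpa using hM) (by
          rw [hL1]; exact List.isRotated_append)
        have hc2 : List.IsChain (flip Nx) (c₀ :: (M ++ [c₀])) := by
          rw [← List.isChain_reverse]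
          have e : (c₀ :: (M ++ [c₀])).reverse = c₀ :: (M.reverse ++ [c₀]) := by simp
          rw [e]
          exact hc
        have hmem : ∀ c, c ∈ L' ↔ c ∈ c₀ :: M := by
          intro c
          rw [← hL0, List.mem_reverse]
        have ht := tele (ang := ang) (C := C) (I := I) L' (flip Nx) (-1)
          (fun cp c cn φ φ' hcL hp hn hb => by
            have h9 := fan_eq h3 hfun (hI'.fnodup c hcL) (hch c hcL) hn.2 hp.1 (bi_symm hb)
            linarith)
          l M c₀ c₀ ψ hrev.2 (by rw [hrev.1]; exact hB) hc2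
          (fun c hcM => (hmem c).2 (List.mem_cons_of_mem _ hcM)) φ₁ y₁ l₂
          (by rw [hrev.1]; exact hl₂)
        have h00 := h0 c₀ ((hmem c₀).2 List.mem_cons_self)
        have hsum : (L'.map fun c => Real.pi - c.th ang).sum =
            (Real.pi - c₀.th ang) + (M.map fun c => Real.pi - c.th ang).sum := by
          rw [hL1, List.map_append, List.sum_append, List.map_reverse, List.sum_reverse]
          simp [add_comm]
        rw [hsum] at hGB
        linarith

end NR

theorem tNR (h1 : T_INV.{u}) (h2 : T_SUB.{u}) (h3 : T_FAN.{u}) (h4 : T_GB.{u}) : T_NR.{u} := by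
  intro N len ang A C L hD hE I x l
  induction l generalizing x with
  | nil => intro _; simp
  | cons p l ih =>
    intro hB
    obtain ⟨φ, y⟩ := p
    have h5 := ih y (NR.bp_tail hB)
    rw [List.nodup_cons]
    refine ⟨?_, by simpa using h5⟩
    intro hx
    rw [List.mem_map] at hx
    obtain ⟨⟨ψ, x'⟩, hmem, hxx⟩ := hx
    dsimp only at hxx
    subst hxx
    obtain ⟨l₁, l₂, hl⟩ := List.append_of_mem hmem
    have h6 : (((φ, y) :: l).map Prod.snd).Nodup := by simpa using h5
    rw [hl] at hB h6
    have h7 : Bp ang C I x' ((l₁ ++ [(ψ, x')]) ++ l₂) := by simpa using hB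
    refine NR.closed h1 h2 h3 h4 hD hE (NR.bp_left _ _ _ h7) ?_
    rw [List.map_append, List.map_cons, List.nodup_append] at h6
    rw [List.nodup_cons]
    refine ⟨fun hm => ?_, h6.1⟩
    exact h6.2.2 _ hm _ List.mem_cons_self rfl

end Pool.Agent.MSN
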