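import Pool.Agent.MSN.FTargets

/-! From finite complexes to all complexes. -/

namespace Pool.Agent.MSN.Fin

open List Pool.Agent.MSF

universe u

/-- An invariant clique of the finite complex gives an invariant clique of `X`. -/
theorem push {H : Type} [Group H] {V W : Type u} [MulAction H V] [MulAction H W]
    {G : SimpleGraph V} {K : SimpleGraph W} {π : W → V}
    (hπ : ∀ (h : H) (w : W), π (h • w) = h • π w) (hadj : ∀ a b, K.Adj a b → G.Adj (π a) (π b))
    {s : Finset W} (hs : s.Nonempty) (hc : K.IsClique s) (hi : ∀ (h : H), ∀ x ∈ s, h • x ∈ s) :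
    ∃ t : Finset V, t.Nonempty ∧ G.IsClique t ∧ ∀ (h : H), ∀ x ∈ t, h • x ∈ t := by
  classical
  refine ⟨s.image π, hs.image _, ?_, ?_⟩
  · intro a ha b hb hab
    simp only [Finset.coe_image, Set.mem_image] at ha hb
    obtain ⟨x, hx, rfl⟩ := ha
    obtain ⟨y, hy, rfl⟩ := hb
    exact hadj _ _ (hc hx hy fun h => hab (by rw [h]))
  · intro h x hx
    rw [Finset.mem_image] at hx ⊢
    obtain ⟨w, hw, rfl⟩ := hx
    exact ⟨h • w, hi h w hw, hπ h w⟩

/-- Finite `p`-groups, `X` arbitrary. -/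
theorem pgr_all (h1 : T_PGR.{u}) (h2 : T_FIN.{u}) {V : Type u} (G : SimpleGraph V)
    (len : V → V → ℝ) (hX : MetricallySystolic G len) (hN : NonObtuse G len)
    (h5 : G.CliqueFree 5) (p : ℕ) [Fact p.Prime] (H : Type) [Group H] [Finite H]
    [MulAction H V] (hp : IsPGroup p H)
    (hG : ∀ (h : H) (a b : V), G.Adj (h • a) (h • b) ↔ G.Adj a b) :
    ∃ s : Finset V, s.Nonempty ∧ G.IsClique s ∧ ∀ (h : H), ∀ x ∈ s, h • x ∈ s := by
  classical
  obtain ⟨W, hW, hA, K, π, hπ, hadj, hK, -, hY, hcf, hno⟩ := h2 H G len hX hG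
  have := Fintype.ofFinite W
  obtain ⟨s, hs, hc, hi⟩ := h1 K _ hY (hno hN) (hcf 5 h5) p H hp hK
  exact push hπ hadj hs hc hi

/-- Automorphisms of finite order, `X` arbitrary. -/
theorem cyc_all (h1 : T_ODD.{u}) (h2 : T_FIN.{u}) {V : Type u} (G : SimpleGraph V)
    (len : V → V → ℝ) (hX : MetricallySystolic G len) (hN : NonObtuse G len)
    (h5 : G.CliqueFree 5) (g : Equiv.Perm V) (hfin : IsOfFinOrder g)
    (hG : ∀ a b, G.Adj (g a) (g b) ↔ G.Adj a b) :
    ∃ s : Finset V, s.Nonempty ∧ G.IsClique s ∧ ∀ x ∈ s, g x ∈ s := by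
  classical
  -- the cyclic group generated by `g`, as a group in `Type`, acts on `V`
  have : Finite (Subgroup.zpowers g) := Set.finite_coe_iff.2 hfin.finite_zpowers
  let H := Multiplicative (ZMod (Nat.card (Subgroup.zpowers g)))
  let e : H ≃* Subgroup.zpowers g := zmodCyclicMulEquiv inferInstance
  have : Finite H := Finite.of_equiv _ e.symm.toEquiv
  let φ : H →* Equiv.Perm V := (Subgroup.zpowers g).subtype.comp e.toMonoidHom
  let : MulAction H V := MulAction.compHom V φ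
  have hsm : ∀ (h : H) (v : V), h • v = φ h v := fun h v => rfl
  have hφ : ∀ h : H, ∃ n : ℕ, φ h = g ^ n := by
    intro h
    have h1 : φ h ∈ Subgroup.zpowers g := (e h).2
    rw [← hfin.mem_powers_iff_mem_zpowers] at h1
    obtain ⟨n, hn⟩ := h1
    exact ⟨n, hn.symm⟩
  let γ : H := e.symm ⟨g, Subgroup.mem_zpowers g⟩
  have hφ1 : φ γ = g := by
    simp [φ, γ]
  have hpow : ∀ (n : ℕ) (a b : V), G.Adj ((g ^ n) a) ((g ^ n) b) ↔ G.Adj a b := by
    intro n
    induction n with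
    | zero => intro a b; simp
    | succ n ih =>
      intro a b
      rw [pow_succ', Equiv.Perm.mul_apply, Equiv.Perm.mul_apply, hG, ih]
  have hGH : ∀ (h : H) (a b : V), G.Adj (h • a) (h • b) ↔ G.Adj a b := by
    intro h a b
    obtain ⟨n, hn⟩ := hφ h
    rw [hsm, hsm, hn]
    exact hpow n a b
  obtain ⟨W, hW, hA, K, π, hπ, hadj, hK, -, hY, hcf, hno⟩ := h2 H G len hX hGH
  have := Fintype.ofFinite W
  have hodd := h1 K _ hY (hno hN) (hcf 5 h5) (MulAction.toPerm γ) (fun a b => hK γ a b)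
  have hne : Nat.card {s : Finset W // InvClique K (MulAction.toPerm γ) s} ≠ 0 := by
    intro h0
    rw [h0] at hodd
    exact absurd hodd (by decide)
  obtain ⟨⟨s, hs, hc, hi⟩⟩ := (Nat.card_ne_zero.1 hne).1
  refine ⟨s.image π, hs.image _, ?_, ?_⟩
  · intro a ha b hb hab
    simp only [Finset.coe_image, Set.mem_image] at ha hb
    obtain ⟨x, hx, rfl⟩ := ha
    obtain ⟨y, hy, rfl⟩ := hb
    exact hadj _ _ (hc hx hy fun h => hab (by rw [h]))
  · intro x hx
    rw [Finset.mem_image] at hx ⊢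
    obtain ⟨w, hw, rfl⟩ := hx
    refine ⟨γ • w, hi w hw, ?_⟩
    rw [hπ, hsm, hφ1]

end Pool.Agent.MSN.Fin
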