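import Pool.Agent.MSN.FTargets

/-! EXT: a finite simply connected `H`-complex which is locally full. -/

namespace Pool.Agent.MSN.Fin

open List Pool.Agent.MSF

universe u

/-- `Good` maps preserve simple connectivity. -/
theorem Good.simplyConn {H : Type} [Group H] {V : Type u} [MulAction H V] {G : SimpleGraph V}
    {Y Y' : HComp H G} {f : Y.W → Y'.W} (hf : Good Y Y' f) (h : SimplyConn Y.K) :
    SimplyConn Y'.K := by
  obtain ⟨o⟩ := Y.ne
  refine simplyConn_of_base Y'.ne Y'.conn (f o) fun P hP => ?_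
  obtain ⟨Q, hQ, hQP⟩ := hf.surj o P hP
  have h1 : Hom Y.K Q [o] := by
    rcases hQ.cases with ⟨h1, _⟩ | ⟨c, T, h1, h2, h3⟩
    · rw [h1]; exact Relation.EqvGen.refl _
    · subst h1
      have hl := hQ.last
      rcases List.eq_nil_or_concat T with rfl | ⟨T', b, rfl⟩
      · simp at hl
        subst hl
        exact absurd h2 (Y.K.irrefl)
      · have hb : b = o := by
          have e : o :: c :: (T' ++ [b]) = (o :: c :: T') ++ [b] := by simp
          rw [List.concat_eq_append, e, List.getLast?_append_of_ne_nil _ (by simp)] at hl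
          simpa using hl
        subst hb
        have hc := hQ.chain
        rw [List.concat_eq_append] at hc ⊢
        exact h.2 b (c :: T') hc
  exact hQP.symm'.trans' (Hom.map hf.adj h1)

theorem ext (hB : T_OPB.{u}) (hC : T_OPC.{u}) (hS : T_SC.{u}) : T_EXT.{u} := by
  intro H _ _ V _ G hG hX
  classical
  obtain ⟨Y0, hY0⟩ := hS H G hG hX
  have hex : ∃ n, ∃ Y : HComp H G, SimplyConn Y.K ∧ Y.nonadj = n := ⟨_, Y0, hY0, rfl⟩
  obtain ⟨Y, hY, hn⟩ := Nat.find_spec hex
  have hmin : ∀ Y' : HComp H G, SimplyConn Y'.K → ¬ Y'.nonadj < Y.nonadj := by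
    intro Y' h' hlt
    rw [hn] at hlt
    exact Nat.find_min hex hlt ⟨Y', h', rfl⟩
  refine ⟨Y, hY, fun v x z hxz hx hz => ⟨fun he => ?_, fun ha => ?_⟩⟩
  · obtain ⟨Y', f, hf, _, h2⟩ := hC H G hG Y x z v hx hz he
    exact hmin Y' (hf.simplyConn hY) (h2 hxz)
  · by_contra hna
    obtain ⟨Y', f, hf, _, h2⟩ := hB H G hG Y x z v hx hz ha
    exact hmin Y' (hf.simplyConn hY) (h2 hna)

end Pool.Agent.MSN.Fin
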