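import Pool.Agent.MSN.FTargets

/-! FIN: the finite reduction. -/

namespace Pool.Agent.MSN.Fin

open List Pool.Agent.MSF

universe u

theorem fin (hE : T_EXT.{u}) : T_FIN.{u} := by
  intro H _ _ V _ G len hX hG
  classical
  obtain ⟨Y, hY, hloc⟩ := hE H G (fun h a b hab => (hG h a b).2 hab) hX.simplyConn
  refine ⟨Y.W, Y.fin, Y.act, Y.K, Y.π, Y.π_smul, Y.π_adj, ?_, hloc, ?_, ?_, ?_⟩
  · intro h a b
    refine ⟨fun hab => ?_, Y.K_smul h a b⟩
    have := Y.K_smul h⁻¹ _ _ hab
    simpa using this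
  · refine ⟨⟨?_, ?_, ?_, ?_⟩, ?_, hY⟩
    · intro a b
      exact hX.complex.symm _ _
    · intro a b hab
      exact hX.complex.pos _ _ (Y.π_adj _ _ hab)
    · intro a b c hab hbc hac
      exact hX.complex.triangle _ _ _ (Y.π_adj _ _ hab) (Y.π_adj _ _ hbc) (Y.π_adj _ _ hac)
    · intro v a b c h1 h2 h3 h4 h5 h6
      exact hX.complex.link _ _ _ _ (Y.π_adj _ _ h1) (Y.π_adj _ _ h2) (Y.π_adj _ _ h3)
        (Y.π_adj _ _ h4) (Y.π_adj _ _ h5) (Y.π_adj _ _ h6)
    · intro v k c hk hper hinj hv hadj hfull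
      refine hX.large (Y.π v) k (fun i => Y.π (c i)) hk (fun i => by rw [hper i]) ?_
        (fun i => Y.π_adj _ _ (hv i)) (fun i => Y.π_adj _ _ (hadj i)) ?_
      · intro i hi j hj hij
        by_contra hne
        have hcij : c i ≠ c j := fun h => hne (hinj hi hj h)
        exact (hloc v (c i) (c j) hcij (hv i) (hv j)).1 hij
      · intro i hadj'
        have hcij : c i ≠ c (i + 2) := by
          intro h
          have hadj'' : G.Adj (Y.π (c i)) (Y.π (c (i + 2))) := hadj'
          rw [h] at hadj''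
          exact G.irrefl hadj''
        exact hfull i ((hloc v _ _ hcij (hv i) (hv (i + 2))).2 hadj')
  · intro n hn s hs
    have hinj : Set.InjOn Y.π (s : Set Y.W) := by
      intro x hx y hy hxy
      by_contra hne
      have h1 := Y.π_adj _ _ (hs.isClique hx hy hne)
      rw [hxy] at h1
      exact G.irrefl h1
    refine hn (s.image Y.π) ⟨?_, ?_⟩
    · intro a ha b hb hab
      simp only [Finset.coe_image, Set.mem_image] at ha hb
      obtain ⟨x, hx, rfl⟩ := ha
      obtain ⟨y, hy, rfl⟩ := hb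
      exact Y.π_adj _ _ (hs.isClique hx hy fun h => hab (by rw [h]))
    · rw [Finset.card_image_of_injOn hinj]
      exact hs.card_eq
  · intro hN v a b h1 h2 h3
    exact hN _ _ _ (Y.π_adj _ _ h1) (Y.π_adj _ _ h2) (Y.π_adj _ _ h3)

end Pool.Agent.MSN.Fin
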