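import Pool.Agent.MSN.FTargets

/-!
# M5: finitely many closed paths can be made null-homotopic
-/

set_option autoImplicit false

namespace Pool.Agent.MSN.Fin

open List Pool.Agent.MSF

universe u

/-- The identity is good. -/
theorem KILL_refl {H : Type} [Group H] {V : Type u} [MulAction H V] {G : SimpleGraph V}
    (Y : HComp H G) : Good Y Y id where
  pi_eq _ := rfl
  adj _ _ h := h
  surj o P hP := ⟨P, hP, by rw [List.map_id]; exact Hom.rfl' P⟩

/-- Good maps compose. -/
theorem KILL_comp {H : Type} [Group H] {V : Type u} [MulAction H V] {G : SimpleGraph V}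
    {Y Y₁ Y₂ : HComp H G} {f : Y.W → Y₁.W} {g : Y₁.W → Y₂.W} (hf : Good Y Y₁ f)
    (hg : Good Y₁ Y₂ g) : Good Y Y₂ (g ∘ f) where
  pi_eq w := by
    show Y₂.π (g (f w)) = Y.π w
    rw [hg.pi_eq, hf.pi_eq]
  adj a b h := hg.adj _ _ (hf.adj _ _ h)
  surj o P hP := by
    obtain ⟨Q₁, hQ₁, h₁⟩ := hg.surj (f o) P hP
    obtain ⟨Q, hQ, h₂⟩ := hf.surj o Q₁ hQ₁
    refine ⟨Q, hQ, ?_⟩
    have h3 := Hom.map hg.adj h₂
    rw [List.map_map] at h3
    exact h3.trans' h₁

/-- Closed paths of a simply connected complex are null-homotopic. -/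
theorem KILL_null {V : Type u} {G : SimpleGraph V} (h : SimplyConn G) {a : V} {P : List V}
    (hP : IsP G a a P) : Hom G P [a] := by
  rcases hP.cases with ⟨h1, -⟩ | ⟨c, T, h1, -, -⟩
  · rw [h1]
    exact Hom.rfl' _
  · have h2 := hP.last
    rw [h1, List.getLast?_cons_cons] at h2
    obtain ⟨p, hp⟩ := List.getLast?_eq_some_iff.mp h2
    have h3 := hP.chain
    rw [h1, hp] at h3
    rw [h1, hp]
    exact h.2 a p h3

/-- KILL: finitely many closed paths can be made null-homotopic. -/
theorem kill : T_LIFT.{u} → T_KILL.{u} := by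
  intro lift H _ _ V _ G hG hS L
  induction L with
  | nil =>
    intro Y o γ _
    exact ⟨Y, id, KILL_refl Y, by simp⟩
  | cons i L ih =>
    intro Y o γ hγ
    have hi := hγ i (by simp)
    have h1 : Hom G ((γ i).map Y.π) [Y.π o] := KILL_null hS (IsP.map Y.π_adj hi)
    obtain ⟨Y₁, f₁, Q', hf₁, -, hQ', h2⟩ := (lift H G hG _ _ h1).1 Y (γ i) hi.chain rfl
    obtain ⟨w, rfl⟩ : ∃ w, Q' = [w] := by
      have h3 := congrArg List.length hQ'
      simp only [List.length_map, List.length_singleton] at h3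
      exact List.length_eq_one_iff.mp h3
    have h4 : f₁ o = w := by
      have h5 := h2.head
      rw [List.head?_map, hi.head] at h5
      simpa using h5
    rw [← h4] at h2
    obtain ⟨Y₂, f₂, hf₂, h6⟩ := ih Y₁ (f₁ o) (fun j => (γ j).map f₁)
      fun j hj => IsP.map hf₁.adj (hγ j (by simp [hj]))
    refine ⟨Y₂, f₂ ∘ f₁, KILL_comp hf₁ hf₂, ?_⟩
    intro j hj
    rcases List.mem_cons.mp hj with rfl | hj
    · have h7 := Hom.map hf₂.adj h2
      rw [List.map_map] at h7
      exact h7
    · have h7 := h6 j hj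
      rw [List.map_map] at h7
      exact h7

end Pool.Agent.MSN.Fin
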