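import Pool.Agent.MSN.FTargets

/-!
# M5: homotopies of `G` lift
-/

set_option autoImplicit false

namespace Pool.Agent.MSN.Fin

open List Pool.Agent.MSF

universe u

namespace LIFT_

variable {H : Type} [Group H] {V : Type u} [MulAction H V] {G : SimpleGraph V}

theorem good_refl (Y : HComp H G) : Good Y Y id where
  pi_eq _ := rfl
  adj _ _ h := h
  surj _ P hP := ⟨P, hP, by rw [List.map_id]; exact Hom.rfl' P⟩

theorem good_comp {Y Y' Y'' : HComp H G} {f : Y.W → Y'.W} {g : Y'.W → Y''.W}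
    (hf : Good Y Y' f) (hg : Good Y' Y'' g) : Good Y Y'' (g ∘ f) where
  pi_eq w := by rw [Function.comp_apply, hg.pi_eq, hf.pi_eq]
  adj a b h := hg.adj _ _ (hf.adj _ _ h)
  surj o P hP := by
    obtain ⟨Q', hQ', h1⟩ := hg.surj (f o) P hP
    obtain ⟨Q, hQ, h2⟩ := hf.surj o Q' hQ'
    refine ⟨Q, hQ, ?_⟩
    have h3 := Hom.map hg.adj h2
    rw [List.map_map] at h3
    exact h3.trans' h1

/-- The conclusion in one direction. -/
def Lf (H : Type) [Group H] {V : Type u} [MulAction H V] (G : SimpleGraph V)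
    (P P' : List V) : Prop :=
  ∀ (Y : HComp H G) (Q : List Y.W), Q.IsChain Y.K.Adj → Q.map Y.π = P →
    ∃ (Y' : HComp H G) (f : Y.W → Y'.W) (Q' : List Y'.W), Good Y Y' f ∧
      Q'.IsChain Y'.K.Adj ∧ Q'.map Y'.π = P' ∧ Hom Y'.K (Q.map f) Q'

theorem lf_refl (P : List V) : Lf H G P P := by
  intro Y Q hQ hP
  exact ⟨Y, id, Q, good_refl Y, hQ, hP, by rw [List.map_id]; exact Hom.rfl' Q⟩

theorem lf_trans {P P' P'' : List V} (h1 : Lf H G P P') (h2 : Lf H G P' P'') :
    Lf H G P P'' := by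
  intro Y Q hQ hP
  obtain ⟨Y₁, f₁, Q₁, g1, c1, m1, k1⟩ := h1 Y Q hQ hP
  obtain ⟨Y₂, f₂, Q₂, g2, c2, m2, k2⟩ := h2 Y₁ Q₁ c1 m1
  refine ⟨Y₂, f₂ ∘ f₁, Q₂, good_comp g1 g2, c2, m2, ?_⟩
  have h3 := Hom.map g2.adj k1
  rw [List.map_map] at h3
  exact h3.trans' k2

/-- Packaging: it is enough to give `Q'` homotopic to `Q.map f` with the right image. -/
theorem mk {Y Y' : HComp H G} {Q : List Y.W} {P' : List V} (hQ : Q.IsChain Y.K.Adj)
    (f : Y.W → Y'.W) (Q' : List Y'.W) (hf : Good Y Y' f) (hm : Q'.map Y'.π = P')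
    (hh : Hom Y'.K (Q.map f) Q') :
    ∃ (Y' : HComp H G) (f : Y.W → Y'.W) (Q' : List Y'.W), Good Y Y' f ∧
      Q'.IsChain Y'.K.Adj ∧ Q'.map Y'.π = P' ∧ Hom Y'.K (Q.map f) Q' := by
  refine ⟨Y', f, Q', hf, ?_, hm, hh⟩
  rw [← hh.chain, List.isChain_map]
  exact hQ.imp hf.adj

theorem map_pi {Y Y' : HComp H G} {f : Y.W → Y'.W} (hf : Good Y Y' f) (Q : List Y.W) :
    (Q.map f).map Y'.π = Q.map Y.π := by
  rw [List.map_map]
  exact List.map_congr_left fun w _ => hf.pi_eq w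

end LIFT_

open LIFT_ in
theorem lift : T_OPA.{u} → T_OPB.{u} → T_OPC.{u} → T_LIFT.{u} := by
  intro hA hB hC H _ _ V _ G hG P P' hPP
  change Lf H G P P' ∧ Lf H G P' P
  induction hPP with
  | rel P P' h =>
    cases h with
    | spur p q a b h =>
      constructor
      · intro Y Q hQ hP
        obtain ⟨Qp, Q1, rfl, hp, h1⟩ := List.map_eq_append_iff.1 hP
        obtain ⟨x, Qs, rfl, hx, hq⟩ := List.map_eq_cons_iff.1 h1
        subst hp hx hq
        obtain ⟨Y', f, b', hf, hb, h2, h3⟩ := hA H G hG Y x x b (Or.inl rfl) h h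
        refine mk hQ f (Qp.map f ++ f x :: b' :: f x :: Qs.map f) hf ?_ ?_
        · simp only [List.map_append, List.map_cons, map_pi hf, hf.pi_eq, hb]
        · rw [List.map_append, List.map_cons]
          exact Hom.spur _ _ h2
      · intro Y Q hQ hP
        obtain ⟨Qp, Q1, rfl, hp, h1⟩ := List.map_eq_append_iff.1 hP
        obtain ⟨x, Q2, rfl, hx, h2⟩ := List.map_eq_cons_iff.1 h1
        obtain ⟨y, Q3, rfl, hy, h3⟩ := List.map_eq_cons_iff.1 h2
        obtain ⟨z, Qs, rfl, hz, hq⟩ := List.map_eq_cons_iff.1 h3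
        have hc := (List.isChain_append.1 hQ).2.1
        simp only [List.isChain_cons_cons] at hc
        obtain ⟨Y', f, hf, hxz, -⟩ := hC H G hG Y x z y hc.1.symm hc.2.1 (hx.trans hz.symm)
        refine mk hQ f (Qp.map f ++ f x :: Qs.map f) hf ?_ ?_
        · simp only [List.map_append, List.map_cons, map_pi hf, hf.pi_eq, hp, hx, hq]
        · simp only [List.map_append, List.map_cons, ← hxz]
          exact (Hom.spur _ _ (hf.adj _ _ hc.1)).symm'
    | tri p q a b c h1 h2 h3 =>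
      constructor
      · intro Y Q hQ hP
        obtain ⟨Qp, Q1, rfl, hp, k1⟩ := List.map_eq_append_iff.1 hP
        obtain ⟨x, Q2, rfl, hx, k2⟩ := List.map_eq_cons_iff.1 k1
        obtain ⟨z, Qs, rfl, hz, hq⟩ := List.map_eq_cons_iff.1 k2
        subst hp hx hz hq
        have hc := (List.isChain_append.1 hQ).2.1
        simp only [List.isChain_cons_cons] at hc
        obtain ⟨Y', f, b', hf, hb, k3, k4⟩ := hA H G hG Y x z b (Or.inr hc.1) h1 h2.symm
        refine mk hQ f (Qp.map f ++ f x :: b' :: f z :: Qs.map f) hf ?_ ?_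
        · simp only [List.map_append, List.map_cons, map_pi hf, hf.pi_eq, hb]
        · rw [List.map_append, List.map_cons, List.map_cons]
          exact Hom.tri _ _ k3 k4 (hf.adj _ _ hc.1)
      · intro Y Q hQ hP
        obtain ⟨Qp, Q1, rfl, hp, k1⟩ := List.map_eq_append_iff.1 hP
        obtain ⟨x, Q2, rfl, hx, k2⟩ := List.map_eq_cons_iff.1 k1
        obtain ⟨y, Q3, rfl, hy, k3⟩ := List.map_eq_cons_iff.1 k2
        obtain ⟨z, Qs, rfl, hz, hq⟩ := List.map_eq_cons_iff.1 k3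
        subst hp hx hy hz hq
        have hc := (List.isChain_append.1 hQ).2.1
        simp only [List.isChain_cons_cons] at hc
        obtain ⟨Y', f, hf, hxz, -⟩ := hB H G hG Y x z y hc.1.symm hc.2.1 h3
        refine mk hQ f (Qp.map f ++ f x :: f z :: Qs.map f) hf ?_ ?_
        · simp only [List.map_append, List.map_cons, map_pi hf, hf.pi_eq]
        · simp only [List.map_append, List.map_cons]
          exact (Hom.tri _ _ (hf.adj _ _ hc.1) (hf.adj _ _ hc.2.1) hxz).symm'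
  | refl P => exact ⟨lf_refl P, lf_refl P⟩
  | symm P P' _ ih => exact ⟨ih.2, ih.1⟩
  | trans P P' P'' _ _ ih ih' => exact ⟨lf_trans ih.1 ih'.1, lf_trans ih'.2 ih.2⟩

end Pool.Agent.MSN.Fin
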