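import Pool.Agent.MSN.FTargets

/-!
# M5, OPB: adding the orbit of an edge (helper97)
-/

namespace Pool.Agent.MSN.Fin

open List Pool.Agent.MSF

universe u

namespace OPB_

variable {H : Type} [Group H] {V : Type u} [MulAction H V] {G : SimpleGraph V}

/-- the new graph -/
def newK (hG : ∀ (h : H) (a b : V), G.Adj a b → G.Adj (h • a) (h • b)) (Y : HComp H G)
    (x z : Y.W) (hxz : G.Adj (Y.π x) (Y.π z)) : SimpleGraph Y.W where
  Adj p q := Y.K.Adj p q ∨ ∃ h : H, (p = h • x ∧ q = h • z) ∨ (p = h • z ∧ q = h • x)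
  symm := ⟨by
    intro p q h
    rcases h with h | ⟨h, ⟨h1, h2⟩ | ⟨h1, h2⟩⟩
    · exact Or.inl h.symm
    · exact Or.inr ⟨h, Or.inr ⟨h2, h1⟩⟩
    · exact Or.inr ⟨h, Or.inl ⟨h2, h1⟩⟩⟩
  loopless := ⟨by
    intro p hp
    rcases hp with h | ⟨h, ⟨h1, h2⟩ | ⟨h1, h2⟩⟩
    · exact Y.K.loopless.irrefl p h
    · have h3 := hG h _ _ hxz
      rw [← Y.π_smul, ← Y.π_smul, ← h1, ← h2] at h3
      exact G.loopless.irrefl _ h3
    · have h3 := hG h _ _ hxz
      rw [← Y.π_smul, ← Y.π_smul, ← h1, ← h2] at h3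
      exact G.loopless.irrefl _ h3⟩

/-- the new complex -/
def newY (hG : ∀ (h : H) (a b : V), G.Adj a b → G.Adj (h • a) (h • b)) (Y : HComp H G)
    (x z : Y.W) (hxz : G.Adj (Y.π x) (Y.π z)) : HComp H G where
  W := Y.W
  fin := Y.fin
  act := Y.act
  K := newK hG Y x z hxz
  π := Y.π
  π_smul := Y.π_smul
  π_adj := by
    intro a b hab
    rcases hab with h | ⟨h, ⟨h1, h2⟩ | ⟨h1, h2⟩⟩
    · exact Y.π_adj a b h
    · rw [h1, h2, Y.π_smul, Y.π_smul]
      exact hG h _ _ hxz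
    · rw [h1, h2, Y.π_smul, Y.π_smul]
      exact (hG h _ _ hxz).symm
  K_smul := by
    intro g a b hab
    rcases hab with h | ⟨h, ⟨h1, h2⟩ | ⟨h1, h2⟩⟩
    · exact Or.inl (Y.K_smul g a b h)
    · exact Or.inr ⟨g * h, Or.inl ⟨by rw [h1, mul_smul], by rw [h2, mul_smul]⟩⟩
    · exact Or.inr ⟨g * h, Or.inr ⟨by rw [h1, mul_smul], by rw [h2, mul_smul]⟩⟩
  ne := Y.ne
  conn := by
    intro a b
    obtain ⟨P, hP⟩ := Y.conn a b
    have h1 : IsP (newK hG Y x z hxz) (id a) (id b) (P.map id) :=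
      IsP.map (fun _ _ h => Or.inl h) hP
    exact ⟨P.map id, h1⟩

theorem lift_path (hG : ∀ (h : H) (a b : V), G.Adj a b → G.Adj (h • a) (h • b))
    (Y : HComp H G) (x z v : Y.W) (hxz : G.Adj (Y.π x) (Y.π z)) (hvx : Y.K.Adj v x)
    (hvz : Y.K.Adj v z) (P : List Y.W) : ∀ a b : Y.W, IsP (newK hG Y x z hxz) a b P →
      ∃ Q, IsP Y.K a b Q ∧ Hom (newK hG Y x z hxz) Q P := by
  induction P with
  | nil =>
    intro a b h
    exact absurd rfl h.ne_nil
  | cons y T ih =>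
    intro a b h
    rcases h.cases with ⟨h1, h2⟩ | ⟨c, T', h1, h2, h3⟩
    · subst h2
      rw [h1]
      exact ⟨[a], IsP.single a, Hom.rfl' _⟩
    · simp only [List.cons.injEq] at h1
      obtain ⟨rfl, rfl⟩ := h1
      obtain ⟨Q, hQ, hQP⟩ := ih c b h3
      -- the case of a new edge
      have hnew : ∀ w : Y.W, Y.K.Adj y w → Y.K.Adj w c →
          ∃ Q, IsP Y.K y b Q ∧ Hom (newK hG Y x z hxz) Q (y :: c :: T') := by
        intro w hyw hwc
        refine ⟨y :: w :: Q, IsP.cons hyw (IsP.cons hwc hQ), ?_⟩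
        have e1 : Hom (newK hG Y x z hxz) (y :: w :: Q) (y :: w :: c :: T') := by
          simpa using Hom.left [y, w] hQP
        have e2 : Hom (newK hG Y x z hxz) (y :: c :: T') (y :: w :: c :: T') := by
          have hyw' : (newK hG Y x z hxz).Adj y w := Or.inl hyw
          have hwc' : (newK hG Y x z hxz).Adj w c := Or.inl hwc
          simpa using Hom.tri (K := newK hG Y x z hxz) [] T' hyw' hwc' h2
        exact e1.trans' e2.symm'
      rcases h2 with h | ⟨h, ⟨h4, h5⟩ | ⟨h4, h5⟩⟩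
      · refine ⟨y :: Q, IsP.cons h hQ, ?_⟩
        simpa using Hom.left [y] hQP
      · refine hnew (h • v) ?_ ?_
        · rw [h4]
          exact (Y.K_smul h _ _ hvx).symm
        · rw [h5]
          exact Y.K_smul h _ _ hvz
      · refine hnew (h • v) ?_ ?_
        · rw [h4]
          exact (Y.K_smul h _ _ hvz).symm
        · rw [h5]
          exact Y.K_smul h _ _ hvx

end OPB_

open OPB_ in
theorem opB : T_OPB.{u} := by
  intro H _ _ V _ G hG Y x z v hvx hvz hxz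
  refine ⟨newY hG Y x z hxz, fun w => w, ⟨fun _ => rfl, fun a b h => Or.inl h, ?_⟩, ?_, ?_⟩
  · intro o P hP
    obtain ⟨Q, hQ, hQP⟩ := lift_path hG Y x z v hxz hvx hvz P o o hP
    refine ⟨Q, hQ, ?_⟩
    have e : Q.map (fun w : Y.W => w) = Q := List.map_id' Q
    exact e.symm ▸ hQP
  · exact Or.inr ⟨1, Or.inl ⟨(one_smul H x).symm, (one_smul H z).symm⟩⟩
  · intro hn
    have hfin : Finite Y.W := Y.fin
    show Nat.card {p : Y.W × Y.W // ¬ (newK hG Y x z hxz).Adj p.1 p.2} <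
      Nat.card {p : Y.W × Y.W // ¬ Y.K.Adj p.1 p.2}
    have h1 : {p : Y.W × Y.W | ¬ (newK hG Y x z hxz).Adj p.1 p.2} ⊂
        {p : Y.W × Y.W | ¬ Y.K.Adj p.1 p.2} := by
      rw [Set.ssubset_iff_of_subset]
      · refine ⟨(x, z), hn, fun h => h ?_⟩
        exact Or.inr ⟨1, Or.inl ⟨(one_smul H x).symm, (one_smul H z).symm⟩⟩
      · intro p hp h
        exact hp (Or.inl h)
    have h2 := Set.ncard_lt_ncard h1 (Set.toFinite _)
    rw [← Nat.card_coe_set_eq, ← Nat.card_coe_set_eq] at h2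
    exact h2

end Pool.Agent.MSN.Fin
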