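import Pool.Agent.MSN.FTargets

set_option autoImplicit false

/-!
# M5, block OPC: fold two vertices equivariantly
-/

namespace Pool.Agent.MSN.Fin

open List Pool.Agent.MSF

universe u

namespace OPC_

theorem elem_reverse {W : Type u} {K : SimpleGraph W} {P Q : List W} (h : Elem K P Q) :
    Elem K P.reverse Q.reverse := by
  cases h with
  | spur p q a b h => simpa using Elem.spur q.reverse p.reverse a b h
  | tri p q a b c h1 h2 h3 =>
    simpa using Elem.tri q.reverse p.reverse c b a h2.symm h1.symm h3.symm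

theorem hom_reverse {W : Type u} {K : SimpleGraph W} {P Q : List W} (h : Hom K P Q) :
    Hom K P.reverse Q.reverse := by
  induction h with
  | rel _ _ h => exact Relation.EqvGen.rel _ _ (elem_reverse h)
  | refl _ => exact Relation.EqvGen.refl _
  | symm _ _ _ ih => exact Relation.EqvGen.symm _ _ ih
  | trans _ _ _ _ _ ih ih' => exact Relation.EqvGen.trans _ _ _ ih ih'

variable {H : Type} [Group H] {V : Type u} [MulAction H V] {G : SimpleGraph V}

/-- the generators of the equivalence relation -/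
def R0 (Y : HComp H G) (x z : Y.W) (p q : Y.W) : Prop := ∃ h : H, p = h • x ∧ q = h • z

/-- the equivalence relation -/
def S0 (Y : HComp H G) (x z : Y.W) : Setoid Y.W := Relation.EqvGen.setoid (R0 Y x z)

theorem S0_smul (Y : HComp H G) (x z : Y.W) (h : H) {p q : Y.W}
    (hpq : Relation.EqvGen (R0 Y x z) p q) : Relation.EqvGen (R0 Y x z) (h • p) (h • q) := by
  induction hpq with
  | rel _ _ hr =>
    obtain ⟨g, h1, h2⟩ := hr
    exact Relation.EqvGen.rel _ _ ⟨h * g, by rw [h1, mul_smul], by rw [h2, mul_smul]⟩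
  | refl _ => exact Relation.EqvGen.refl _
  | symm _ _ _ ih => exact Relation.EqvGen.symm _ _ ih
  | trans _ _ _ _ _ ih ih' => exact Relation.EqvGen.trans _ _ _ ih ih'

theorem S0_pi (Y : HComp H G) {x z : Y.W} (hxz : Y.π x = Y.π z) {p q : Y.W}
    (hpq : Relation.EqvGen (R0 Y x z) p q) : Y.π p = Y.π q := by
  induction hpq with
  | rel _ _ hr =>
    obtain ⟨g, h1, h2⟩ := hr
    rw [h1, h2, Y.π_smul, Y.π_smul, hxz]
  | refl _ => rfl
  | symm _ _ _ ih => exact ih.symm
  | trans _ _ _ _ _ ih ih' => exact ih.trans ih'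

/-- the action on the quotient -/
@[reducible] def act0 (Y : HComp H G) (x z : Y.W) : MulAction H (Quotient (S0 Y x z)) where
  smul h := Quotient.map (fun w => h • w) fun _ _ hpq => S0_smul Y x z h hpq
  one_smul A := by
    induction A using Quotient.inductionOn with
    | h w => exact congrArg (Quotient.mk _) (one_smul H w)
  mul_smul a b A := by
    induction A using Quotient.inductionOn with
    | h w => exact congrArg (Quotient.mk _) (mul_smul a b w)

/-- the quotient graph -/
def K0 (Y : HComp H G) (x z : Y.W) (hxz : Y.π x = Y.π z) :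
    SimpleGraph (Quotient (S0 Y x z)) where
  Adj A B := ∃ p q, Quotient.mk _ p = A ∧ Quotient.mk _ q = B ∧ Y.K.Adj p q
  symm := ⟨fun _ _ ⟨p, q, h1, h2, h3⟩ => ⟨q, p, h2, h1, h3.symm⟩⟩
  loopless := ⟨fun A ⟨p, q, h1, h2, h3⟩ => by
    have h4 : Y.π p = Y.π q := S0_pi Y hxz (Quotient.exact (h1.trans h2.symm))
    have h5 := Y.π_adj p q h3
    rw [h4] at h5
    exact G.irrefl h5⟩

/-- the quotient complex -/
def Y0 (Y : HComp H G) (x z : Y.W) (hxz : Y.π x = Y.π z) : HComp H G :=
  letI := act0 Y x z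
  { W := Quotient (S0 Y x z)
    fin := Quotient.finite _
    act := act0 Y x z
    K := K0 Y x z hxz
    π := Quotient.lift Y.π fun _ _ hpq => S0_pi Y hxz hpq
    π_smul := fun h A => by
      induction A using Quotient.inductionOn with
      | h w => exact Y.π_smul h w
    π_adj := fun A B hAB => by
      obtain ⟨p, q, h1, h2, h3⟩ := hAB
      rw [← h1, ← h2]
      exact Y.π_adj p q h3
    K_smul := fun h A B hAB => by
      obtain ⟨p, q, h1, h2, h3⟩ := hAB
      rw [← h1, ← h2]
      exact ⟨h • p, h • q, rfl, rfl, Y.K_smul h p q h3⟩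
    ne := Y.ne.map (Quotient.mk _)
    conn := fun A B => by
      induction A using Quotient.inductionOn with
      | h p =>
        induction B using Quotient.inductionOn with
        | h q =>
          obtain ⟨P, hP⟩ := Y.conn p q
          have hadj : ∀ a b, Y.K.Adj a b →
              (K0 Y x z hxz).Adj (Quotient.mk (S0 Y x z) a) (Quotient.mk (S0 Y x z) b) :=
            fun a b hab => ⟨a, b, rfl, rfl, hab⟩
          exact ⟨P.map (Quotient.mk (S0 Y x z)), hP.map hadj⟩ }

/-- the projection -/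
def f0 (Y : HComp H G) (x z : Y.W) (hxz : Y.π x = Y.π z) : Y.W → (Y0 Y x z hxz).W :=
  Quotient.mk (S0 Y x z)

theorem f0_adj (Y : HComp H G) (x z : Y.W) (hxz : Y.π x = Y.π z) (a b : Y.W)
    (h : Y.K.Adj a b) : (Y0 Y x z hxz).K.Adj (f0 Y x z hxz a) (f0 Y x z hxz b) :=
  ⟨a, b, rfl, rfl, h⟩

theorem lem1 (Y : HComp H G) (x z v : Y.W) (hxz : Y.π x = Y.π z) (hx : Y.K.Adj v x)
    (hz : Y.K.Adj v z) {p q : Y.W} (hpq : Relation.EqvGen (R0 Y x z) p q) :
    ∃ Q, IsP Y.K p q Q ∧
      Hom (Y0 Y x z hxz).K (Q.map (f0 Y x z hxz)) [f0 Y x z hxz p] := by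
  induction hpq with
  | rel p q hr =>
    obtain ⟨g, h1, h2⟩ := hr
    refine ⟨[p, g • v, q], ?_, ?_⟩
    · rw [h1, h2]
      exact IsP.cons (Y.K_smul g _ _ hx.symm) (IsP.cons (Y.K_smul g _ _ hz) (IsP.single _))
    · have h3 : f0 Y x z hxz q = f0 Y x z hxz p :=
        Quotient.sound (Relation.EqvGen.symm _ _ (Relation.EqvGen.rel _ _ ⟨g, h1, h2⟩))
      have h4 : (Y0 Y x z hxz).K.Adj (f0 Y x z hxz p) (f0 Y x z hxz (g • v)) := by
        refine f0_adj Y x z hxz p (g • v) ?_
        rw [h1]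
        exact Y.K_smul g _ _ hx.symm
      have h5 := (Hom.spur (K := (Y0 Y x z hxz).K) [] [] h4).symm'
      simpa [h3] using h5
  | refl p => exact ⟨[p], IsP.single p, Hom.rfl' _⟩
  | symm p q h ih =>
    obtain ⟨Q, h1, h2⟩ := ih
    refine ⟨Q.reverse, h1.reverse, ?_⟩
    have h3 : f0 Y x z hxz p = f0 Y x z hxz q := Quotient.sound h
    have h4 := hom_reverse h2
    rw [← h3]
    simpa using h4
  | trans p q r h h' ih ih' =>
    obtain ⟨Q1, h1, h2⟩ := ih
    obtain ⟨Q2, h3, h4⟩ := ih'
    refine ⟨Q1 ++ Q2.tail, h1.comp h3, ?_⟩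
    have h5 : f0 Y x z hxz p = f0 Y x z hxz q := Quotient.sound h
    have h6 := Hom.right ((Q2.map (f0 Y x z hxz)).tail) h2
    have h7 : [f0 Y x z hxz p] ++ (Q2.map (f0 Y x z hxz)).tail = Q2.map (f0 Y x z hxz) := by
      rcases Q2 with _ | ⟨y, T⟩
      · exact absurd rfl h3.ne_nil
      · have := h3.head
        simp at this
        simp [this, h5]
    rw [h7] at h6
    rw [List.map_append, List.map_tail]
    rw [h5]
    exact h6.trans' h4

theorem lem2 (Y : HComp H G) (x z v : Y.W) (hxz : Y.π x = Y.π z) (hx : Y.K.Adj v x)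
    (hz : Y.K.Adj v z) (P : List (Y0 Y x z hxz).W) : ∀ (p q : Y.W),
    IsP (Y0 Y x z hxz).K (f0 Y x z hxz p) (f0 Y x z hxz q) P →
    ∃ Q, IsP Y.K p q Q ∧ Hom (Y0 Y x z hxz).K (Q.map (f0 Y x z hxz)) P := by
  induction P with
  | nil => exact fun p q h => absurd rfl h.ne_nil
  | cons A T ih =>
    intro p q h
    rcases h.cases with ⟨h1, h2⟩ | ⟨C, T', h1, h2, h3⟩
    · obtain ⟨Q, h3, h4⟩ := lem1 Y x z v hxz hx hz (Quotient.exact h2)
      exact ⟨Q, h3, by rw [h1]; exact h4⟩
    · simp only [List.cons.injEq] at h1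
      obtain ⟨hA, rfl⟩ := h1
      obtain ⟨p', c, h4, h5, h6⟩ := h2
      obtain ⟨Q1, h7, h8⟩ := lem1 Y x z v hxz hx hz (Quotient.exact h4.symm)
      have h9 : f0 Y x z hxz c = C := h5
      rw [← h9] at h3
      obtain ⟨Q2, h10, h11⟩ := ih c q (by rw [← h9]; exact h3)
      refine ⟨Q1 ++ Q2, ?_, ?_⟩
      · have := h7.comp (IsP.cons h6 h10)
        simpa using this
      · rw [List.map_append, hA]
        have h12 := Hom.right (Q2.map (f0 Y x z hxz)) h8
        have h13 := Hom.left [f0 Y x z hxz p] h11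
        exact h12.trans' h13

end OPC_

open OPC_ in
theorem opC : T_OPC.{u} := by
  intro H _ _ V _ G hG Y x z v hx hz hxz
  refine ⟨Y0 Y x z hxz, f0 Y x z hxz, ⟨fun w => rfl, f0_adj Y x z hxz, ?_⟩, ?_, ?_⟩
  · intro o P hP
    exact lem2 Y x z v hxz hx hz P o o hP
  · exact Quotient.sound (Relation.EqvGen.rel _ _ ⟨1, by rw [one_smul], by rw [one_smul]⟩)
  · intro hne
    classical
    have hfx : f0 Y x z hxz x = f0 Y x z hxz z :=
      Quotient.sound (Relation.EqvGen.rel _ _ ⟨1, by rw [one_smul], by rw [one_smul]⟩)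
    -- the section
    let out : (Y0 Y x z hxz).W → Y.W := fun A =>
      if A = f0 Y x z hxz x then x else Quotient.out A
    have hout : ∀ A, f0 Y x z hxz (out A) = A := by
      intro A
      by_cases h : A = f0 Y x z hxz x
      · simp only [out, if_pos h]
        exact h.symm
      · simp only [out, if_neg h]
        exact Quotient.out_eq A
    let φ : {p : (Y0 Y x z hxz).W × (Y0 Y x z hxz).W // ¬ (Y0 Y x z hxz).K.Adj p.1 p.2} →
        {p : Y.W × Y.W // ¬ Y.K.Adj p.1 p.2} := fun p =>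
      ⟨(out p.1.1, out p.1.2), fun h => p.2 (by
        have := f0_adj Y x z hxz _ _ h
        rwa [hout, hout] at this)⟩
    have hinj : Function.Injective φ := by
      intro p q hpq
      have h1 : (out p.1.1, out p.1.2) = (out q.1.1, out q.1.2) := congrArg Subtype.val hpq
      rw [Prod.mk.injEq] at h1
      apply Subtype.ext
      apply Prod.ext
      · rw [← hout p.1.1, ← hout q.1.1, h1.1]
      · rw [← hout p.1.2, ← hout q.1.2, h1.2]
    have hnot : (⟨(z, z), fun h => Y.K.irrefl h⟩ : {p : Y.W × Y.W // ¬ Y.K.Adj p.1 p.2}) ∉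
        Set.range φ := by
      rintro ⟨p, hp⟩
      have h1 : (out p.1.1, out p.1.2) = (z, z) := congrArg Subtype.val hp
      rw [Prod.mk.injEq] at h1
      have h2 : p.1.1 = f0 Y x z hxz x := by
        rw [← hout p.1.1, h1.1, hfx]
      have h3 : out p.1.1 = x := by
        simp only [out, if_pos h2]
      exact hne (h3.symm.trans h1.1)
    have : Fintype {p : Y.W × Y.W // ¬ Y.K.Adj p.1 p.2} := Fintype.ofFinite _
    have : Fintype {p : (Y0 Y x z hxz).W × (Y0 Y x z hxz).W //
      ¬ (Y0 Y x z hxz).K.Adj p.1 p.2} := Fintype.ofFinite _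
    unfold HComp.nonadj
    rw [Nat.card_eq_fintype_card, Nat.card_eq_fintype_card]
    exact Fintype.card_lt_of_injective_of_notMem φ hinj hnot

end Pool.Agent.MSN.Fin
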