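import Pool.Agent.MSN.FTargets

/-!
# SC: there is a finite simply connected complex with an action over `G`
-/

namespace Pool.Agent.MSN.Fin

open List Pool.Agent.MSF

universe u

namespace SC

variable {W : Type u} {K : SimpleGraph W}

theorem snoc_cases {a b : W} {P : List W} (h : IsP K a b P) :
    (P = [a] ∧ a = b) ∨ ∃ c T, P = T ++ [b] ∧ K.Adj c b ∧ IsP K a c T := by
  rcases h.reverse.cases with ⟨h1, h2⟩ | ⟨c, T, h1, h2, h3⟩
  · left
    subst h2
    refine ⟨?_, rfl⟩
    have := congrArg List.reverse h1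
    simpa using this
  · right
    refine ⟨c, (c :: T).reverse, ?_, h2.symm, h3.reverse⟩
    have := congrArg List.reverse h1
    simpa using this

/-- If `P R⁻¹` is null-homotopic then `P` is homotopic to `R`. -/
theorem hom_of_closed {o y : W} {P₀ R : List W} (hR : IsP K o y R)
    (h : Hom K ((P₀ ++ [y]) ++ R.reverse.tail) [o]) : Hom K (P₀ ++ [y]) R := by
  have e1 : R.reverse = y :: R.reverse.tail := by
    have hh := hR.reverse.head
    rcases h0 : R.reverse with _ | ⟨x, r⟩
    · simp [h0] at hh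
    · rw [h0] at hh
      simp at hh
      simp [hh]
  have e2 : R = o :: R.tail := by
    have hh := hR.head
    rcases R with _ | ⟨x, r⟩
    · simp at hh
    · simp at hh
      simp [hh]
  have h1 := Hom.left P₀ hR.cancel
  have e3 : P₀ ++ (R.reverse ++ R.tail) = ((P₀ ++ [y]) ++ R.reverse.tail) ++ R.tail := by
    conv_lhs => rw [e1]
    simp
  rw [e3] at h1
  have h2 := Hom.right R.tail h
  have e4 : [o] ++ R.tail = R := by
    conv_rhs => rw [e2]
    rfl
  rw [e4] at h2
  exact h1.symm'.trans' h2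

end SC

open SC in
/-- The finite simply connected complex. -/
theorem sc : T_KILL.{u} → T_YNIL.{u} → T_SC.{u} := by
  intro hK hN H _ _ V _ G hG hS
  classical
  obtain ⟨Y⟩ := hN H G hG hS.1
  obtain ⟨o⟩ := Y.ne
  have hg : ∀ x : Y.W, ∃ P, IsP Y.K o x P ∧ (x = o → P = [o]) := by
    intro x
    by_cases hx : x = o
    · subst hx
      exact ⟨[x], IsP.single x, fun _ => rfl⟩
    · obtain ⟨P, hP⟩ := Y.conn o x
      exact ⟨P, hP, fun h => absurd h hx⟩
  choose g hg hgo using hg
  obtain ⟨n, ⟨e⟩⟩ := Finite.exists_equiv_fin (Y.W × Y.W)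
  let lp : Y.W × Y.W → List Y.W := fun p =>
    if Y.K.Adj p.1 p.2 then (g p.1 ++ [p.2]) ++ (g p.2).reverse.tail else [o]
  have hlp : ∀ p, IsP Y.K o o (lp p) := by
    intro p
    simp only [lp]
    split_ifs with h
    · exact ((hg p.1).snoc h).comp (hg p.2).reverse
    · exact IsP.single o
  let γ : ℕ → List Y.W := fun i => if h : i < n then lp (e.symm ⟨i, h⟩) else [o]
  have hγ : ∀ i ∈ List.range n, IsP Y.K o o (γ i) := by
    intro i _
    simp only [γ]
    split_ifs with h
    · exact hlp _
    · exact IsP.single o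
  obtain ⟨Y', f, hf, hkill⟩ := hK H G hG hS (List.range n) Y o γ hγ
  have h1 : ∀ x y, Y.K.Adj x y → Hom Y'.K ((g x).map f ++ [f y]) ((g y).map f) := by
    intro x y hxy
    have h2 := hkill (e (x, y)).1 (List.mem_range.2 (e (x, y)).2)
    have h3 : γ (e (x, y)).1 = (g x ++ [y]) ++ (g y).reverse.tail := by
      simp only [γ, lp]
      rw [dif_pos (e (x, y)).2]
      simp only [Fin.eta, Equiv.symm_apply_apply]
      rw [if_pos hxy]
    rw [h3] at h2
    apply hom_of_closed ((hg y).map hf.adj)
    simpa [List.map_tail] using h2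
  have h4 : ∀ (Q : List Y.W) (x : Y.W), IsP Y.K o x Q → Hom Y'.K (Q.map f) ((g x).map f) := by
    intro Q
    induction Q using List.reverseRecOn with
    | nil => intro x hx; exact absurd rfl hx.ne_nil
    | append_singleton Q a ih =>
      intro x hx
      rcases snoc_cases hx with ⟨h5, h6⟩ | ⟨c, T, h5, h6, h7⟩
      · rw [h5, hgo x h6.symm]
        exact Hom.rfl' _
      · obtain ⟨h8, h9⟩ := List.append_inj' h5 rfl
        subst h8
        rw [h5, List.map_append, List.map_singleton]
        exact (Hom.right [f x] (ih c h7)).trans' (h1 c x h6)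
  refine ⟨Y', simplyConn_of_base Y'.ne Y'.conn (f o) fun P hP => ?_⟩
  obtain ⟨Q, hQ, hQP⟩ := hf.surj o P hP
  have h5 := h4 Q o hQ
  rw [hgo o rfl] at h5
  exact hQP.symm'.trans' h5

end Pool.Agent.MSN.Fin
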