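import Pool.Agent.MSN.FTargets

/-!
# A finite connected invariant subcomplex (job MSN-YNIL)
-/

namespace Pool.Agent.MSN.Fin

open List Pool.Agent.MSF

universe u

theorem ynil_walk {V : Type u} {G : SimpleGraph V} {S : Set V} {a b : V} (q : G.Walk a b)
    (hq : ∀ w ∈ q.support, w ∈ S) : ∀ (w : V) (hw : w ∈ q.support),
      ∃ P, IsP (G.comap (Subtype.val : S → V)) ⟨a, hq a q.start_mem_support⟩ ⟨w, hq w hw⟩ P := by
  induction q with
  | nil =>
    intro w hw
    have h1 := hw
    simp only [SimpleGraph.Walk.support_nil, List.mem_singleton] at h1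
    subst h1
    exact ⟨_, IsP.single _⟩
  | @cons a c b hac q ih =>
    intro w hw
    have h1 := hw
    rw [SimpleGraph.Walk.support_cons, List.mem_cons] at h1
    rcases h1 with h1 | h1
    · subst h1
      exact ⟨_, IsP.single _⟩
    · have hq' : ∀ w ∈ q.support, w ∈ S := fun w hw =>
        hq w (by rw [SimpleGraph.Walk.support_cons]; exact List.mem_cons_of_mem _ hw)
      obtain ⟨P, hP⟩ := ih hq' w h1
      exact ⟨_, IsP.cons (b := ⟨c, hq' c q.start_mem_support⟩) (by simpa using hac) hP⟩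

theorem ynil : T_YNIL.{u} := by
  intro H _ _ V _ G hG hconn
  obtain ⟨x₀⟩ := hconn.nonempty
  have hp : ∀ h : H, Nonempty (G.Walk x₀ (h • x₀)) := fun h => hconn.preconnected x₀ (h • x₀)
  let p : ∀ h : H, G.Walk x₀ (h • x₀) := fun h => (hp h).some
  let S : Set V := ⋃ g : H, ⋃ h : H, (fun w => g • w) '' {w | w ∈ (p h).support}
  have hS : ∀ v, v ∈ S ↔ ∃ g h : H, ∃ w ∈ (p h).support, g • w = v := by
    intro v
    simp only [S, Set.mem_iUnion, Set.mem_image, Set.mem_setOf_eq]
  have hfin : Finite S := by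
    rw [Set.finite_coe_iff]
    refine Set.finite_iUnion fun g => Set.finite_iUnion fun h => Set.Finite.image _ ?_
    exact List.finite_toSet _
  have hinv : ∀ (k : H) {v : V}, v ∈ S → k • v ∈ S := by
    intro k v hv
    rw [hS] at hv ⊢
    obtain ⟨g, h, w, hw, rfl⟩ := hv
    exact ⟨k * g, h, w, hw, mul_smul k g w⟩
  let act : MulAction H S :=
    { smul := fun h s => ⟨h • s.1, hinv h s.2⟩
      one_smul := fun s => Subtype.ext (one_smul H s.1)
      mul_smul := fun g h s => Subtype.ext (mul_smul g h s.1) }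
  have hsupp : ∀ h : H, ∀ w ∈ (p h).support, w ∈ S := by
    intro h w hw
    rw [hS]
    exact ⟨1, h, w, hw, one_smul H w⟩
  have hx : x₀ ∈ S := hsupp 1 x₀ (p 1).start_mem_support
  have hsm : ∀ (h : H) (a b : S), (G.comap (Subtype.val : S → V)).Adj a b →
      (G.comap (Subtype.val : S → V)).Adj (h • a) (h • b) := by
    intro h a b hab
    exact hG h a.1 b.1 hab
  have hbase : ∀ s : S, ∃ P, IsP (G.comap (Subtype.val : S → V)) ⟨x₀, hx⟩ s P := by
    rintro ⟨v, hv⟩
    obtain ⟨g, h, w, hw, rfl⟩ := (hS v).1 hv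
    obtain ⟨P, hP⟩ := ynil_walk (p h) (hsupp h) w hw
    obtain ⟨Q, hQ⟩ := ynil_walk (p g) (hsupp g) (g • x₀) (p g).end_mem_support
    have hP' := IsP.map (f := fun s : S => g • s) (hsm g) hP
    exact ⟨_, hQ.comp hP'⟩
  refine ⟨{ W := S
            fin := hfin
            act := act
            K := G.comap (Subtype.val : S → V)
            π := Subtype.val
            π_smul := fun h w => rfl
            π_adj := fun a b h => h
            K_smul := hsm
            ne := ⟨⟨x₀, hx⟩⟩
            conn := ?_ }⟩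
  intro a b
  obtain ⟨P, hP⟩ := hbase a
  obtain ⟨Q, hQ⟩ := hbase b
  exact ⟨_, hP.reverse.comp hQ⟩

end Pool.Agent.MSN.Fin
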