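import Pool.Agent.MSN.P_OPA
import Pool.Agent.MSN.P_OPB
import Pool.Agent.MSN.P_OPC
import Pool.Agent.MSN.P_LIFT
import Pool.Agent.MSN.P_KILL
import Pool.Agent.MSN.P_YNIL
import Pool.Agent.MSN.P_SC
import Pool.Agent.MSN.P_FEXT
import Pool.Agent.MSN.P_FFIN
import Pool.Agent.MSN.P_FMAIN

/-!
# The finite reduction, unconditionally (part M5 of MP_d6353f_al)

Every nonempty finite subcomplex situation of a connected, simply connected good flag complex
with a finite group acting embeds equivariantly into a finite one: `finite_reduction : T_FIN`.
-/

namespace Pool.Agent.MSN.Fin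

universe u

/-- All targets of the finite reduction are proved, so the reduction holds unconditionally. -/
theorem finite_reduction : T_FIN.{u} :=
  fin (ext opB opC (sc (kill (lift opA opB opC)) ynil))

end Pool.Agent.MSN.Fin
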