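import Pool.Agent.MSN.Targets

/-! REAL: every disc diagram is the image of a planar disc. -/

namespace Pool.Agent.MSN

open List Pool.Agent.MSF

universe u

namespace REAL

variable {V : Type u}

/-- The pulled back angles. -/
abbrev pb (ang : V → V → V → ℝ) (π : ℕ → V) : ℕ → ℕ → ℕ → ℝ := fun v a b => ang (π v) (π a) (π b)

/-- The image of a corner. -/
def im (π : ℕ → V) (c : FC ℕ) : V × List V := (π c.v, c.P.map π)

/-- Realised cyclic lists of corners. -/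
def Rz (G : SimpleGraph V) (ang : V → V → V → ℝ) (A : ℕ) (W : List (V × List V)) : Prop :=
  ∃ (π : ℕ → V) (C : Cx ℕ) (L : List (FC ℕ)), PD (pb ang π) A C L ∧ L.map (im π) = W ∧
    ∀ x y, C.E x y → G.Adj (π x) (π y)

theorem plen_map (ang : V → V → V → ℝ) (π : ℕ → V) (v : ℕ) :
    ∀ P : List ℕ, plen (pb ang π) v P = plen ang (π v) (P.map π)
  | [] => rfl
  | [_] => rfl
  | (a :: b :: l) => by
    have := plen_map ang π v (b :: l)
    simp only [List.map_cons, plen] at this ⊢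
    rw [this]

theorem rz_digon {G : SimpleGraph V} {ang : V → V → V → ℝ} {a b : V} (h : G.Adj a b) :
    Rz G ang 0 [(a, [b]), (b, [a])] := by
  refine ⟨fun n => if n = 0 then a else b, Cx.edge 0 1, [⟨0, [1]⟩, ⟨1, [0]⟩],
    PD.digon (by norm_num), by simp [im], ?_⟩
  intro x y hxy
  rcases hxy with ⟨rfl, rfl⟩ | ⟨rfl, rfl⟩
  · simpa using h
  · simpa using h.symm

theorem rz_rot {G : SimpleGraph V} {ang : V → V → V → ℝ} {A : ℕ} {c : V × List V}
    {W : List (V × List V)} (h : Rz G ang A (c :: W)) : Rz G ang A (W ++ [c]) := by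
  obtain ⟨π, C, L, hP, hL, hE⟩ := h
  cases L with
  | nil => simp at hL
  | cons d L =>
    simp only [List.map_cons, List.cons.injEq] at hL
    exact ⟨π, C, L ++ [d], PD.rot hP, by simp [hL.1, hL.2], hE⟩

/-- The two relabellings. -/
def f1 (z : ℕ) (x : ℕ) : ℕ := if x = z then 0 else 2 * x + 1
def f2 (z : ℕ) (x : ℕ) : ℕ := if x = z then 0 else 2 * x + 2

theorem f1_inj (z : ℕ) : Function.Injective (f1 z) := by
  intro x y h
  unfold f1 at h
  split_ifs at h with h1 h2 h2 <;> omega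

theorem f2_inj (z : ℕ) : Function.Injective (f2 z) := by
  intro x y h
  unfold f2 at h
  split_ifs at h with h1 h2 h2 <;> omega

theorem f12 {z z' x y : ℕ} (h : f1 z x = f2 z' y) : f1 z x = 0 := by
  unfold f1 f2 at *
  split_ifs at h ⊢ with h1 h2 h2 <;> omega

/-- The common labelling. -/
def pp (π₁ π₂ : ℕ → V) (z₁ : ℕ) (n : ℕ) : V :=
  if n = 0 then π₁ z₁ else if n % 2 = 1 then π₁ (n / 2) else π₂ (n / 2 - 1)

theorem pp1 (π₁ π₂ : ℕ → V) (z₁ x : ℕ) : pp π₁ π₂ z₁ (f1 z₁ x) = π₁ x := by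
  unfold pp f1
  by_cases h : x = z₁
  · simp [h]
  · have h1 : (2 * x + 1) % 2 = 1 := by omega
    have h2 : (2 * x + 1) / 2 = x := by omega
    simp [h, h1, h2]

theorem pp2 (π₁ π₂ : ℕ → V) (z₁ z₂ x : ℕ) (hz : π₁ z₁ = π₂ z₂) :
    pp π₁ π₂ z₁ (f2 z₂ x) = π₂ x := by
  unfold pp f2
  by_cases h : x = z₂
  · simp [h, hz]
  · have h1 : ¬ (2 * x + 2) % 2 = 1 := by omega
    have h2 : (2 * x + 2) / 2 - 1 = x := by omega
    simp only [h, if_false, h2, h1]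
    simp

theorem im_map {V : Type u} (π : ℕ → V) (f : ℕ → ℕ) (ρ : ℕ → V) (h : ∀ x, π (f x) = ρ x)
    (L : List (FC ℕ)) : (L.map (FC.map f)).map (im π) = L.map (im ρ) := by
  rw [List.map_map]
  refine List.map_congr_left ?_
  intro c _
  simp only [Function.comp, im, FC.map, h, List.map_map, Prod.mk.injEq, true_and]
  refine List.map_congr_left ?_
  intro x _
  exact h x

theorem S_map {C : Cx ℕ} {f : ℕ → ℕ} {x : ℕ} (h : x ∈ (C.map f).S) : ∃ a, f a = x := by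
  obtain ⟨y, a, b, _, ha, _⟩ := h
  exact ⟨a, ha⟩

theorem rz_both (h5 : T_MAP.{0}) {G : SimpleGraph V} {ang : V → V → V → ℝ} {A₁ A₂ : ℕ}
    {a b z : V} {Pa Pz Qz Pb : List V} {W₁ W₂ : List (V × List V)}
    (hab : G.Adj a b)
    (h₁ : Rz G ang A₁ ((z, Pz) :: (b, Pb) :: W₁))
    (h₂ : Rz G ang A₂ ((z, Qz) :: (W₂ ++ [(a, Pa)]))) :
    Rz G ang (A₁ + A₂ + 1) ((a, Pa ++ [b]) :: (b, a :: Pb) :: (W₁ ++ (z, Pz ++ Qz) :: W₂)) := by
  obtain ⟨π₁, C₁, L₁, hP₁, hL₁, hE₁⟩ := h₁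
  obtain ⟨π₂, C₂, L₂, hP₂, hL₂, hE₂⟩ := h₂
  -- shapes
  rcases L₁ with _ | ⟨⟨z₁, Pz₁⟩, _ | ⟨⟨b₁, Pb₁⟩, M₁⟩⟩
  · simp at hL₁
  · simp at hL₁
  rcases L₂ with _ | ⟨⟨z₂, Qz₂⟩, M₂⟩
  · simp at hL₂
  rcases List.eq_nil_or_concat M₂ with rfl | ⟨M₂, ⟨a₂, Pa₂⟩, rfl⟩
  · simp at hL₂
  simp only [List.map_cons, List.cons.injEq, im, Prod.mk.injEq] at hL₁
  obtain ⟨⟨hz₁, hPz₁⟩, ⟨hb₁, hPb₁⟩, hM₁⟩ := hL₁
  simp only [List.concat_eq_append, List.map_cons, List.map_append, List.map_nil,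
    List.cons.injEq] at hL₂
  obtain ⟨h20, h21⟩ := hL₂
  obtain ⟨h22, h23⟩ := List.append_inj' h21 (by simp)
  simp only [im, Prod.mk.injEq] at h20
  simp only [im, List.cons.injEq, Prod.mk.injEq, and_true] at h23
  obtain ⟨hz₂, hQz₂⟩ := h20
  obtain ⟨ha₂, hPa₂⟩ := h23
  have hzz : π₁ z₁ = π₂ z₂ := by rw [hz₁, hz₂]
  set π := pp π₁ π₂ z₁ with hπ
  have e1 : ∀ x, π (f1 z₁ x) = π₁ x := pp1 π₁ π₂ z₁
  have e2 : ∀ x, π (f2 z₂ x) = π₂ x := fun x => pp2 π₁ π₂ z₁ z₂ x hzz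
  have k1 := h5 (f1 z₁) (pb ang π₁) (pb ang π) (f1_inj z₁)
    (fun v x y => by simp only [pb, e1]) A₁ C₁ _ hP₁
  have k2 := h5 (f2 z₂) (pb ang π₂) (pb ang π) (f2_inj z₂)
    (fun v x y => by simp only [pb, e2]) A₂ C₂ _ hP₂
  have hf1 : f1 z₁ z₁ = 0 := by simp [f1]
  have hf2 : f2 z₂ z₂ = 0 := by simp [f2]
  simp only [List.map_cons, FC.map, hf1] at k1
  simp only [List.concat_eq_append, List.map_cons, List.map_append, List.map_nil, FC.map,
    hf2] at k2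
  have hd : ∀ x, x ∈ (C₁.map (f1 z₁)).S → x ∈ (C₂.map (f2 z₂)).S → x = 0 := by
    intro x hx hy
    obtain ⟨p, rfl⟩ := S_map hx
    obtain ⟨q, hq⟩ := S_map hy
    exact f12 hq.symm
  have key := PD.both k1 k2 hd
  refine ⟨π, _, _, key, ?_, ?_⟩
  · have m1 := im_map π (f1 z₁) π₁ e1 M₁
    have m2 := im_map π (f2 z₂) π₂ e2 M₂
    have n1 : ∀ P : List ℕ, (P.map (f1 z₁)).map π = P.map π₁ := by
      intro P
      rw [List.map_map]
      exact List.map_congr_left (fun x _ => e1 x)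
    have n2 : ∀ P : List ℕ, (P.map (f2 z₂)).map π = P.map π₂ := by
      intro P
      rw [List.map_map]
      exact List.map_congr_left (fun x _ => e2 x)
    have e0 : π 0 = z := by rw [← hf1, e1, hz₁]
    simp only [List.map_cons, List.map_append] at m1 m2 ⊢
    have q1 : List.map (im π) (List.map (FC.map (f1 z₁)) M₁) = W₁ := by rw [m1]; exact hM₁
    have q2 : List.map (im π) (List.map (FC.map (f2 z₂)) M₂) = W₂ := by rw [m2]; exact h22
    have i1 : im π ⟨f2 z₂ a₂, Pa₂.map (f2 z₂) ++ [f1 z₁ b₁]⟩ = (a, Pa ++ [b]) := by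
      simp only [im, List.map_append, List.map_cons, List.map_nil, n2, e2, e1, ha₂, hPa₂, hb₁]
    have i2 : im π ⟨f1 z₁ b₁, f2 z₂ a₂ :: Pb₁.map (f1 z₁)⟩ = (b, a :: Pb) := by
      simp only [im, List.map_cons, n1, e2, e1, hb₁, hPb₁, ha₂]
    have i3 : im π ⟨0, Pz₁.map (f1 z₁) ++ Qz₂.map (f2 z₂)⟩ = (z, Pz ++ Qz) := by
      simp only [im, List.map_append, n1, n2, e0, hPz₁, hQz₂]
    rw [i1, i2, i3, ← q1, ← q2]
  · intro x y hxy
    have hcase : ((C₁.map (f1 z₁)).E x y ∨ (C₂.map (f2 z₂)).E x y) ∨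
        (x = f2 z₂ a₂ ∧ y = f1 z₁ b₁) ∨ (x = f1 z₁ b₁ ∧ y = f2 z₂ a₂) := hxy
    rcases hcase with (⟨p, q, hpq, rfl, rfl⟩ | ⟨p, q, hpq, rfl, rfl⟩) | ⟨rfl, rfl⟩ | ⟨rfl, rfl⟩
    · rw [e1, e1]; exact hE₁ _ _ hpq
    · rw [e2, e2]; exact hE₂ _ _ hpq
    · rw [e2, e1, ha₂, hb₁]; exact hab
    · rw [e2, e1, ha₂, hb₁]; exact hab.symm

theorem plen_nonneg {N : Type u} {ang : N → N → N → ℝ} {v : N} (R : N → N → Prop)
    (h : ∀ r s, R r s → 0 ≤ ang v r s) :
    ∀ P : List N, List.IsChain R P → 0 ≤ plen ang v P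
  | [], _ => le_refl _
  | [_], _ => le_refl _
  | (a :: b :: l), hc => by
    rw [List.isChain_cons_cons] at hc
    have := plen_nonneg R h (b :: l) hc.2
    have h2 := h a b hc.1
    simp only [plen]
    linarith

theorem bd01 {x y : ℕ} {Px Py : List ℕ} {M : List (FC ℕ)} :
    Bd (⟨x, Px⟩ :: ⟨y, Py⟩ :: M) x y := ⟨M.map FC.v, List.IsRotated.refl _⟩

theorem bd12 {x y z : ℕ} {Px Py Pz : List ℕ} {M : List (FC ℕ)} :
    Bd (⟨x, Px⟩ :: ⟨y, Py⟩ :: ⟨z, Pz⟩ :: M) y z := by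
  refine ⟨M.map FC.v ++ [x], ?_⟩
  exact ⟨1, by simp⟩

/-- A list with given first and last elements. -/
theorem shape {P : List ℕ} {a b : ℕ} (h1 : P.head? = some a) (h2 : P.getLast? = some b)
    (hab : a ≠ b) : ∃ X, P = a :: (X ++ [b]) := by
  cases P with
  | nil => simp at h1
  | cons x P =>
    simp only [List.head?_cons, Option.some.injEq] at h1
    subst h1
    rcases List.eq_nil_or_concat P with rfl | ⟨X, y, rfl⟩
    · simp at h2; exact absurd h2 hab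
    · refine ⟨X, ?_⟩
      have : y = b := by
        rw [List.concat_eq_append, ← List.cons_append, List.getLast?_append] at h2
        simpa using h2
      rw [this, List.concat_eq_append]

/-- The key claim: in case inner `a`, `b` are not adjacent in the planar disc. -/
theorem key (h1 : T_INV.{0}) (h2 : T_GB.{0}) (h3 : T_SUB.{0}) (h4 : T_FAN.{0})
    {ang : ℕ → ℕ → ℕ → ℝ} (hs : ∀ v x y, ang v x y = ang v y x) {A : ℕ} {C : Cx ℕ}
    {a z b : ℕ} {Pa Pz Pb : List ℕ} {L : List (FC ℕ)}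
    (hP : PD ang A C (⟨a, Pa⟩ :: ⟨z, Pz⟩ :: ⟨b, Pb⟩ :: L))
    (hsum : ∀ x y z, C.T x y z → ang x y z + ang y x z + ang z x y ≤ Real.pi)
    (hpos : ∀ x y z, C.T x y z → 0 ≤ ang y x z)
    (hz : Real.pi < plen ang z Pz) : ¬ C.E a b := by
  intro hE
  have I := h1 ang A C _ hP
  have hnd := I.nodup
  simp only [List.map_cons, List.nodup_cons, List.mem_cons, not_or] at hnd
  obtain ⟨⟨haz, hab, _⟩, ⟨hzb, _⟩, _⟩ := hnd
  have e1 : C.E a z := I.bdE _ _ bd01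
  have e2 : C.E z b := I.bdE _ _ bd12
  obtain ⟨A', C', L', hA', hP', hLe, hL'⟩ := h3 ang hs A C _ hP a [z, b] (by simp)
    (by simp [haz, hab, hzb]) (by simp [e1, e2, I.symm _ _ hE])
  have I' := h1 ang A' C' L' hP'
  have G := h2 ang A' C' L' hs (fun x y z h => hsum _ _ _ (hLe.T _ _ _ h)) hP'
  have hnn : ∀ c ∈ L', 0 ≤ c.th ang := by
    intro c hc
    refine plen_nonneg (fun r s => C'.T r c.v s) ?_ c.P (I'.fchain c hc)
    intro r s hrs
    exact hpos _ _ _ (hLe.T _ _ _ hrs)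
  rcases hL' with hL' | hL'
  · rcases L' with _ | ⟨⟨a', Pa'⟩, _ | ⟨⟨z', Pz'⟩, _ | ⟨⟨b', Pb'⟩, _ | ⟨_, _⟩⟩⟩⟩
    · simp at hL'
    · simp at hL'
    · simp at hL'
    · simp only [List.map_cons, List.map_nil, List.cons.injEq, and_true] at hL'
      obtain ⟨rfl, rfl, rfl⟩ := hL'
      have n1 := I'.nx ⟨a', Pa'⟩ ⟨z', Pz'⟩ _ (List.IsRotated.refl _)
      have n2 := I'.nx ⟨z', Pz'⟩ ⟨b', Pb'⟩ [⟨a', Pa'⟩] ⟨1, by simp⟩
      obtain ⟨X, hX⟩ := shape (P := Pz') (a := a') (b := b') n1.2 n2.1 hab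
      have m1 := I.nx ⟨a', Pa⟩ ⟨z', Pz⟩ _ (List.IsRotated.refl _)
      have m2 := I.nx ⟨z', Pz⟩ ⟨b', Pb⟩ (L ++ [⟨a', Pa⟩]) ⟨1, by simp⟩
      obtain ⟨Y, hY⟩ := shape (P := Pz) (a := a') (b := b') m1.2 m2.1 hab
      have c1 := I'.fchain ⟨z', Pz'⟩ (by simp)
      have c2 := I.fchain ⟨z', Pz⟩ (by simp)
      have d1 := I'.fnodup ⟨z', Pz'⟩ (by simp)
      have d2 := I.fnodup ⟨z', Pz⟩ (by simp)
      simp only at c1 c2 d1 d2
      have c1' : List.IsChain (fun r s => C.T r z' s) Pz' :=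
        c1.imp (fun _ _ h => hLe.T _ _ _ h)
      have hXY : X = Y := h4 (fun r s => C.T r z' s) (fun x y y' h h' => I.func _ _ _ _ h h')
        a' b' X Y (by rw [← hX]; exact d1) (by rw [← hY]; exact d2) (by rw [← hX]; exact c1')
        (by rw [← hY]; exact c2)
      have hPP : Pz' = Pz := by rw [hX, hY, hXY]
      have t1 := hnn ⟨a', Pa'⟩ (by simp)
      have t2 := hnn ⟨b', Pb'⟩ (by simp)
      simp only [List.map_cons, List.map_nil, List.sum_cons, List.sum_nil] at G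
      have t3 : FC.th ang ⟨z', Pz'⟩ = plen ang z' Pz := by rw [FC.th, hPP]
      rw [t3] at G
      linarith
    · simp at hL'
  · rcases L' with _ | ⟨⟨b', Pb'⟩, _ | ⟨⟨z', Pz'⟩, _ | ⟨⟨a', Pa'⟩, _ | ⟨_, _⟩⟩⟩⟩
    · simp at hL'
    · simp at hL'
    · simp at hL'
    · simp only [List.map_cons, List.map_nil, List.reverse_cons, List.reverse_nil,
        List.nil_append, List.cons_append, List.cons.injEq, and_true] at hL'
      obtain ⟨rfl, rfl, rfl⟩ := hL'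
      have n1 := I'.nx ⟨b', Pb'⟩ ⟨z', Pz'⟩ _ (List.IsRotated.refl _)
      have n2 := I'.nx ⟨z', Pz'⟩ ⟨a', Pa'⟩ [⟨b', Pb'⟩] ⟨1, by simp⟩
      obtain ⟨X, hX⟩ := shape (P := Pz') (a := b') (b := a') n1.2 n2.1 (Ne.symm hab)
      have c1 := I'.fchain ⟨z', Pz'⟩ (by simp)
      simp only at c1
      rw [hX] at c1
      cases X with
      | nil =>
        simp only [List.nil_append, List.isChain_cons_cons] at c1
        exact I.bdT z' b' a' bd12 (hLe.T _ _ _ c1.1)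
      | cons s X =>
        simp only [List.cons_append, List.isChain_cons_cons] at c1
        exact I.bdT z' b' s bd12 (hLe.T _ _ _ c1.1)
    · simp at hL'

theorem rz_inner (h1 : T_INV.{0}) (h2 : T_GB.{0}) (h3 : T_SUB.{0}) (h4 : T_FAN.{0})
    {G : SimpleGraph V} {ang : V → V → V → ℝ} (hA : Angled G ang)
    (hlt : ∀ v a b, G.Adj v a → G.Adj v b → G.Adj a b → ang v a b < Real.pi) {A : ℕ}
    {a b z : V} {Pa Pz Pb : List V} {W : List (V × List V)}
    (hab : G.Adj a b) (haz : G.Adj a z) (hzb : G.Adj z b)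
    (h : Rz G ang A ((a, Pa) :: (z, Pz) :: (b, Pb) :: W))
    (hz : 2 * Real.pi ≤ plen ang z Pz + ang z b a) :
    Rz G ang (A + 1) ((a, Pa ++ [b]) :: (b, a :: Pb) :: W) := by
  obtain ⟨π, C, L, hP, hL, hE⟩ := h
  rcases L with _ | ⟨⟨a', Pa'⟩, _ | ⟨⟨z', Pz'⟩, _ | ⟨⟨b', Pb'⟩, L⟩⟩⟩
  · simp at hL
  · simp at hL
  · simp at hL
  simp only [List.map_cons, List.cons.injEq, im, Prod.mk.injEq] at hL
  obtain ⟨⟨ha, hPa⟩, ⟨hz', hPz⟩, ⟨hb, hPb⟩, hW⟩ := hL
  have I := h1 _ A C _ hP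
  have hT : ∀ x y w, C.T x y w → G.Adj (π x) (π y) ∧ G.Adj (π y) (π w) ∧ G.Adj (π x) (π w) := by
    intro x y w h
    have c1 := I.cyc _ _ _ h
    have c2 := I.cyc _ _ _ c1
    exact ⟨hE _ _ (I.TE _ _ _ h), hE _ _ (I.TE _ _ _ c1), (hE _ _ (I.TE _ _ _ c2)).symm⟩
  have hzz : 2 * Real.pi ≤ plen (pb ang π) z' Pz' + pb ang π z' b' a' := by
    rw [plen_map, hz', hPz]
    simpa only [pb, hz', hb, ha] using hz
  have hang : pb ang π z' b' a' < Real.pi := by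
    simp only [pb, hz', hb, ha]
    exact hlt z b a hzb haz.symm hab.symm
  have hn : ¬ C.E a' b' := by
    refine key h1 h2 h3 h4 (ang := pb ang π) (fun v x y => hA.symm _ _ _) hP ?_ ?_ ?_
    · intro x y w h
      obtain ⟨u1, u2, u3⟩ := hT x y w h
      exact hA.sum_le _ _ _ u1 u2 u3
    · intro x y w h
      obtain ⟨u1, u2, u3⟩ := hT x y w h
      exact (hA.pos _ _ _ u1.symm u2 u3).le
    · linarith
  refine ⟨π, _, _, PD.inner hP hn hzz, ?_, ?_⟩
  · simp [im, ha, hb, hPa, hPb, hW]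
  · intro x y hxy
    have hcase : C.E x y ∨ (x = a' ∧ y = b') ∨ (x = b' ∧ y = a') := hxy
    rcases hcase with h | ⟨rfl, rfl⟩ | ⟨rfl, rfl⟩
    · exact hE _ _ h
    · rw [ha, hb]; exact hab
    · rw [ha, hb]; exact hab.symm

/-- The corner of a diagram, as vertex and fan. -/
def co (c : Corner V) : V × List V := (c.v, c.p :: (c.F ++ [c.n]))

theorem rz_main (hD : Pool.Agent.MSF.T_DISC1.{u}) (h1 : T_INV.{0}) (h2 : T_GB.{0})
    (h3 : T_SUB.{0}) (h4 : T_FAN.{0}) (h5 : T_MAP.{0})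
    {G : SimpleGraph V} {ang : V → V → V → ℝ} (hA : Angled G ang)
    (hlt : ∀ v a b, G.Adj v a → G.Adj v b → G.Adj a b → ang v a b < Real.pi) {A : ℕ}
    {D : List (Corner V)} (h : Disc G ang A D) : Rz G ang A (D.map co) := by
  induction h with
  | @base a b z hab haz hzb =>
    have := rz_both h5 (W₁ := []) (W₂ := []) hab (rz_digon (ang := ang) hzb)
      (rz_digon (ang := ang) haz.symm)
    simpa [co] using this
  | rot _ ih =>
    simp only [List.map_append, List.map_cons, List.map_nil] at ih ⊢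
    exact rz_rot ih
  | @inner m a b z x y Fa Fz Fb ta tz tb D hab haz hzb h hz ih =>
    have hd := (hD G ang hA _ _ h).2.2 ⟨a, z, b, Fz, tz⟩ (by simp)
    have hl := hd.len
    simp only at hl
    rw [hl] at hz
    simp only [List.map_cons, co] at ih ⊢
    have := rz_inner h1 h2 h3 h4 hA hlt hab haz hzb ih hz
    simpa using this
  | @left n a b z x y Fa Fz ta tz D hab haz hzb h ih =>
    simp only [List.map_cons, List.map_append, List.map_nil, co] at ih ⊢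
    have := rz_both h5 (W₁ := []) hab (rz_digon (ang := ang) hzb) ih
    simpa [Nat.zero_add] using this
  | @right m a b z x y Fz Fb tz tb D hab haz hzb h ih =>
    simp only [List.map_cons, List.map_append, List.map_nil, co] at ih ⊢
    have := rz_both h5 (W₂ := []) hab ih (rz_digon (ang := ang) haz.symm)
    simpa using this
  | @both m n a b z x y x' y' Fa Fz Fb Fz' ta tz tb tz' D D' hab haz hzb h h' ih ih' =>
    simp only [List.map_cons, List.map_append, List.map_nil, co] at ih ih' ⊢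
    have := rz_both h5 hab ih ih'
    simpa using this

end REAL

theorem tREAL (hD : Pool.Agent.MSF.T_DISC1.{u}) (h1 : T_INV.{0}) (h2 : T_GB.{0})
    (h3 : T_SUB.{0}) (h4 : T_FAN.{0}) (h5 : T_MAP.{0}) : T_REAL.{u} := by
  intro V G ang hA hlt A D h
  obtain ⟨π, C, L, hP, hL, hE⟩ := REAL.rz_main hD h1 h2 h3 h4 h5 hA hlt h
  refine ⟨π, C, L, hP, ?_, ?_, hE⟩
  · have := congrArg (List.map Prod.fst) hL
    simpa [REAL.im, REAL.co, Function.comp_def] using this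
  · have := congrArg (List.map Prod.snd) hL
    simpa [REAL.im, REAL.co, Function.comp_def] using this

end Pool.Agent.MSN
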