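import Pool.Agent.MSN.Targets

set_option autoImplicit false

/-!
# MSN, block RR: re-rooting
-/

namespace Pool.Agent.MSN

open List Pool.Agent.MSF

universe u

namespace RR

variable {N : Type u}

lemma edge_comm (a b : N) : Cx.edge a b = Cx.edge b a := by
  unfold Cx.edge
  congr 1
  funext x y
  exact propext or_comm

/-- If a disc is decomposed at one edge, then it is decomposed at the next one. -/
lemma step (h1 : T_INV.{u}) (h2 : T_RRI.{u}) (h3 : T_RRB0.{u}) (h4 : T_RRB1.{u})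
    (ang : N → N → N → ℝ) (hs : ∀ v x y, ang v x y = ang v y x) (A : ℕ)
    (IH : ∀ A' < A, ∀ (C : Cx N) a Pa b Pb L,
      PD ang A' C (⟨a, Pa⟩ :: ⟨b, Pb⟩ :: L) → Dec ang A' C a Pa b Pb L)
    (C : Cx N) (a : N) (Pa : List N) (b : N) (Pb : List N) (L : List (FC N))
    (hD : Dec ang A C a Pa b Pb L) (b' : N) (Qb : List N) (d : N) (Pd : List N)
    (L' : List (FC N)) (he : (⟨b, Pb⟩ : FC N) :: (L ++ [⟨a, Pa⟩]) = ⟨b', Qb⟩ :: ⟨d, Pd⟩ :: L') :
    Dec ang A C b' Qb d Pd L' := by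
  rw [List.cons.injEq] at he
  obtain ⟨e1, e2⟩ := he
  rw [FC.mk.injEq] at e1
  obtain ⟨rfl, rfl⟩ := e1
  cases hD with
  | digon hA hC hPa hPb hL =>
    subst hA hC hPa hPb hL
    rw [List.nil_append, List.cons.injEq, FC.mk.injEq] at e2
    obtain ⟨⟨rfl, rfl⟩, rfl⟩ := e2
    exact Dec.digon rfl (edge_comm _ _) rfl rfl rfl
  | inner A' C' z Pa' Pz Pb' hA hC hPa hPb h hab hz =>
    subst hA hC hPa hPb
    cases L with
    | nil =>
      exfalso
      have hI := h1 ang A' C' _ h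
      apply hab
      apply hI.symm
      apply hI.bdE
      exact ⟨[z], 2, rfl⟩
    | cons c L =>
      obtain ⟨v, P⟩ := c
      rw [List.cons_append, List.cons.injEq, FC.mk.injEq] at e2
      obtain ⟨⟨rfl, rfl⟩, rfl⟩ := e2
      exact h2 ang A' (IH A' (Nat.lt_succ_self _)) hs C' a z b v Pa' Pz Pb' P L h hab hz
  | both A₁ A₂ C₁ C₂ z Pa' Pz Qz Pb' L₁ L₂ hA hC hPa hPb hL hp₁ hp₂ hd =>
    subst hA hC hPa hPb hL
    cases L₁ with
    | nil =>
      rw [List.nil_append, List.cons_append, List.cons.injEq, FC.mk.injEq] at e2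
      obtain ⟨⟨rfl, rfl⟩, rfl⟩ := e2
      exact h3 ang A₁ A₂ C₁ C₂ a z b Pa' Pz Qz Pb' L₂ hp₁ hp₂ hd
    | cons c L₁ =>
      obtain ⟨v, P⟩ := c
      rw [List.cons_append, List.cons_append, List.cons.injEq, FC.mk.injEq] at e2
      obtain ⟨⟨rfl, rfl⟩, rfl⟩ := e2
      rw [List.append_assoc, List.cons_append]
      exact h4 ang A₁ (IH A₁ (by omega)) A₂ C₁ C₂ a z b v Pa' Pz Qz Pb' P L₁ L₂ hp₁ hp₂ hd

lemma main (h1 : T_INV.{u}) (h2 : T_RRI.{u}) (h3 : T_RRB0.{u}) (h4 : T_RRB1.{u})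
    (ang : N → N → N → ℝ) (hs : ∀ v x y, ang v x y = ang v y x) (A : ℕ) (C : Cx N)
    (M : List (FC N)) (h : PD ang A C M) :
    (∀ A' < A, ∀ (C : Cx N) a Pa b Pb L,
      PD ang A' C (⟨a, Pa⟩ :: ⟨b, Pb⟩ :: L) → Dec ang A' C a Pa b Pb L) →
    ∀ (a : N) (Pa : List N) (b : N) (Pb : List N) (L : List (FC N)),
      M = ⟨a, Pa⟩ :: ⟨b, Pb⟩ :: L → Dec ang A C a Pa b Pb L := by
  induction h with
  | digon h =>
    intro _ a Pa b Pb L e
    rw [List.cons.injEq, List.cons.injEq, FC.mk.injEq, FC.mk.injEq] at e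
    obtain ⟨⟨rfl, rfl⟩, ⟨rfl, rfl⟩, rfl⟩ := e
    exact Dec.digon rfl rfl rfl rfl rfl
  | @rot A C c L h ih =>
    intro IH a Pa b Pb L' e
    cases L with
    | nil => exact ih IH a Pa b Pb L' e
    | cons c' L =>
      obtain ⟨v, P⟩ := c
      obtain ⟨v', P'⟩ := c'
      exact step h1 h2 h3 h4 ang hs A IH C v P v' P' L (ih IH v P v' P' L rfl) a Pa b Pb L'
        (by rw [← e, List.cons_append])
  | inner h hab hz _ =>
    intro _ a Pa b Pb L e
    rw [List.cons.injEq, List.cons.injEq, FC.mk.injEq, FC.mk.injEq] at e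
    obtain ⟨⟨rfl, rfl⟩, ⟨rfl, rfl⟩, rfl⟩ := e
    exact Dec.inner _ _ _ _ _ _ rfl rfl rfl rfl h hab hz
  | both hp₁ hp₂ hd _ _ =>
    intro _ a Pa b Pb L e
    rw [List.cons.injEq, List.cons.injEq, FC.mk.injEq, FC.mk.injEq] at e
    obtain ⟨⟨rfl, rfl⟩, ⟨rfl, rfl⟩, rfl⟩ := e
    exact Dec.both _ _ _ _ _ _ _ _ _ _ _ rfl rfl rfl rfl rfl hp₁ hp₂ hd

end RR

theorem tRR (h1 : T_INV.{u}) (h2 : T_RRI.{u}) (h3 : T_RRB0.{u}) (h4 : T_RRB1.{u}) :
    T_RR.{u} := by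
  intro N ang hs A
  induction A using Nat.strong_induction_on with
  | _ A IH =>
    intro C a Pa b Pb L h
    exact RR.main h1 h2 h3 h4 ang hs A C _ h IH a Pa b Pb L rfl

end Pool.Agent.MSN
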