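import Pool.Agent.MSN.Targets

/-!
# MSN-RRB0: re-rooting at the next edge, case both with a digon
-/

namespace Pool.Agent.MSN

open List Pool.Agent.MSF

universe u

namespace RRB0

variable {N : Type u}

theorem edge_comm (a b : N) : Cx.edge a b = Cx.edge b a := by
  apply Cx.ext
  · funext x y
    simp only [Cx.edge, eq_iff_iff]
    tauto
  · rfl

/-- Two boundary corners imply digon. -/
theorem two (hINV : T_INV.{u}) (ang : N → N → N → ℝ) (A : ℕ) (C : Cx N) (L : List (FC N))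
    (h : PD ang A C L) : L.length = 2 →
      ∃ a b : N, a ≠ b ∧ A = 0 ∧ C = Cx.edge a b ∧ L = [⟨a, [b]⟩, ⟨b, [a]⟩] := by
  induction h with
  | @digon a b h => exact fun _ => ⟨a, b, h, rfl, rfl, rfl⟩
  | @rot A C c L h ih =>
    intro hl
    have hl' : (c :: L).length = 2 := by simpa using hl
    obtain ⟨a, b, hab, hA, hC, hL⟩ := ih hl'
    simp only [List.cons.injEq] at hL
    obtain ⟨hc, hL⟩ := hL
    subst hc
    subst hL
    exact ⟨b, a, hab.symm, hA, by rw [hC, edge_comm], rfl⟩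
  | @inner A C a b z Pa Pz Pb L h hab hz ih =>
    intro hl
    have hL : L = [] := by
      simp only [List.length_cons] at hl
      exact List.length_eq_zero_iff.mp (by omega)
    subst hL
    have I := hINV ang _ _ _ h
    have hbd : Bd ([⟨a, Pa⟩, ⟨z, Pz⟩, ⟨b, Pb⟩] : List (FC N)) b a := by
      refine ⟨[z], 2, ?_⟩
      simp
    exact absurd (I.symm _ _ (I.bdE _ _ hbd)) hab
  | @both A₁ A₂ C₁ C₂ a b z Pa Pz Qz Pb L₁ L₂ h₁ h₂ hd ih₁ ih₂ =>
    intro hl
    simp only [List.length_cons, List.length_append] at hl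
    omega

/-- Rotation. -/
theorem rotN (ang : N → N → N → ℝ) (A : ℕ) (C : Cx N) (n : ℕ) : ∀ L : List (FC N),
    PD ang A C L → PD ang A C (L.rotate n) := by
  induction n with
  | zero => intro L h; simpa using h
  | succ n ih =>
    intro L h
    cases L with
    | nil => simpa using h
    | cons c L =>
      rw [List.rotate_cons_succ]
      exact ih _ h.rot

end RRB0

theorem tRRB0 (hINV : T_INV.{u}) : T_RRB0.{u} := by
  intro N ang A₁ A₂ C₁ C₂ a z b Pa Pz Qz Pb L₂ h₁ h₂ hd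
  obtain ⟨z', b', hzb, hA, hC, hL⟩ := RRB0.two hINV ang _ _ _ h₁ rfl
  simp only [List.cons.injEq, FC.mk.injEq, and_true] at hL
  obtain ⟨⟨rfl, rfl⟩, rfl, rfl⟩ := hL
  subst hA
  subst hC
  have I := hINV ang _ _ _ h₂
  have hbS : b ∈ (Cx.edge z b).S := ⟨z, Or.inr ⟨rfl, rfl⟩⟩
  have hbd : Bd ((⟨z, Qz⟩ : FC N) :: (L₂ ++ [⟨a, Pa⟩])) a z := by
    refine ⟨L₂.map FC.v, ?_⟩
    have : ((⟨z, Qz⟩ : FC N) :: (L₂ ++ [⟨a, Pa⟩])).map FC.v = (z :: L₂.map FC.v) ++ [a] := by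
      simp
    rw [this]
    exact List.isRotated_append
  have haS : a ∈ C₂.S := ⟨z, I.bdE _ _ hbd⟩
  have hbS₂ : b ∉ C₂.S := fun h => hzb (hd b hbS h).symm
  have hab : a ≠ b := fun h => hbS₂ (h ▸ haS)
  refine Dec.both A₂ 0 C₂ (Cx.edge a b) a [a] Pa [b] Qz L₂ [] (by omega) ?_ rfl rfl rfl ?_ ?_ ?_
  · apply Cx.ext
    · funext x y
      simp only [Cx.add, Cx.sup, Cx.edge, eq_iff_iff]
      tauto
    · funext x y w
      simp only [Cx.add, Cx.sup, Cx.edge, eq_iff_iff]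
      tauto
  · have h := RRB0.rotN ang _ _ (L₂.length + 1) _ h₂
    have e : ((⟨z, Qz⟩ : FC N) :: (L₂ ++ [⟨a, Pa⟩])).rotate (L₂.length + 1)
        = ⟨a, Pa⟩ :: ⟨z, Qz⟩ :: L₂ := by
      rw [List.rotate_cons_succ]
      simp
    rwa [e] at h
  · exact PD.digon hab
  · rintro x hx ⟨y, ⟨rfl, -⟩ | ⟨rfl, -⟩⟩
    · rfl
    · exact absurd hx hbS₂

end Pool.Agent.MSN
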