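import Pool.Agent.MSN.Targets

/-! MSN-RRB1: re-rooting, case both (helper99). -/

set_option autoImplicit false

namespace Pool.Agent.MSN

open List Pool.Agent.MSF

universe u

namespace RRB1

variable {N : Type u}

lemma pd_rotate {ang : N → N → N → ℝ} {A : ℕ} {C : Cx N} {L : List (FC N)}
    (h : PD ang A C L) (n : ℕ) : PD ang A C (L.rotate n) := by
  induction n with
  | zero => simpa using h
  | succ n ih =>
    rw [← List.rotate_rotate]
    cases hL : L.rotate n with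
    | nil => rw [hL] at ih; simpa using ih
    | cons c l =>
      rw [hL] at ih
      simpa using PD.rot ih

lemma pd_isRot {ang : N → N → N → ℝ} {A : ℕ} {C : Cx N} {L L' : List (FC N)}
    (h : PD ang A C L) (hr : L ~r L') : PD ang A C L' := by
  obtain ⟨n, rfl⟩ := hr
  exact pd_rotate h n

lemma or1 (p q r s : Prop) : (((p ∨ r) ∨ q) ∨ s) ↔ (((p ∨ q) ∨ s) ∨ r) := by tauto

lemma or2 (p q r s t : Prop) : ((((p ∨ q) ∨ r) ∨ s) ∨ t) ↔ ((p ∨ ((q ∨ s) ∨ t)) ∨ r) := by tauto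

lemma edge_comm (a b : N) : Cx.edge a b = Cx.edge b a := by
  ext x y w
  · simp only [Cx.edge]
    tauto
  · simp [Cx.edge]

lemma digon (hINV : T_INV.{u}) {ang : N → N → N → ℝ} {A : ℕ} {C : Cx N} {L : List (FC N)}
    (h : PD ang A C L) : L.length = 2 →
    ∃ a b : N, A = 0 ∧ C = Cx.edge a b ∧ L = [⟨a, [b]⟩, ⟨b, [a]⟩] := by
  induction h with
  | @digon a b hab => intro _; exact ⟨a, b, rfl, rfl, rfl⟩
  | @rot A C c L h ih =>
    intro hl
    obtain ⟨a, b, hA, hC, hL⟩ := ih (by simpa using hl)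
    refine ⟨b, a, hA, by rw [hC, edge_comm], ?_⟩
    simp only [List.cons.injEq] at hL
    obtain ⟨h1, h2⟩ := hL
    rw [h1, h2]
    rfl
  | @inner A C a b z Pa Pz Pb L h hab hz ih =>
    intro hl
    have hL : L = [] := by
      simp only [List.length_cons] at hl
      exact List.eq_nil_of_length_eq_zero (by omega)
    subst hL
    have hI := hINV ang A C _ h
    have h1 : Bd [(⟨a, Pa⟩ : FC N), ⟨z, Pz⟩, ⟨b, Pb⟩] b a := by
      refine ⟨[z], ?_⟩
      simp only [List.map_cons, List.map_nil]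
      exact List.isRotated_append (l := [a, z]) (l' := [b])
    exact absurd (hI.symm _ _ (hI.bdE _ _ h1)) hab
  | both h₁ h₂ hd ih₁ ih₂ =>
    intro hl
    simp only [List.length_cons, List.length_append] at hl
    omega

lemma mem_S {C : Cx N} {L : List (FC N)} (hI : Inv C L) {c : FC N} (hc : c ∈ L) :
    c.v ∈ C.S := by
  obtain ⟨X, Y, rfl⟩ := List.append_of_mem hc
  have h1 : (X ++ c :: Y) ~r (c :: Y ++ X) := List.isRotated_append
  have h2 : Y ++ X ≠ [] := by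
    intro h
    have h3 := hI.len
    rw [h1.perm.length_eq] at h3
    rw [List.cons_append, h] at h3
    simp at h3
  obtain ⟨c', L', h3⟩ := List.exists_cons_of_ne_nil h2
  rw [List.cons_append, h3] at h1
  refine ⟨c'.v, hI.bdE _ _ ⟨L'.map FC.v, ?_⟩⟩
  have h4 := h1.map FC.v
  simpa using h4

end RRB1

theorem tRRB1 (hINV : T_INV.{u}) : T_RRB1.{u} := by
  intro N ang A₁ IH A₂ C₁ C₂ a z b d Pa Pz Qz Pb Pd L₁ L₂ h₁ h₂ hd
  have I₁ := hINV ang A₁ C₁ _ h₁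
  have I₂ := hINV ang A₂ C₂ _ h₂
  have hnd := I₁.nodup
  simp only [List.map_cons, List.nodup_cons, List.mem_cons, not_or] at hnd
  obtain ⟨⟨hzb, hzd, -⟩, ⟨hbd, -⟩, -⟩ := hnd
  have hbS : b ∈ C₁.S := RRB1.mem_S I₁ (c := ⟨b, Pb⟩) (by simp)
  have hdS : d ∈ C₁.S := RRB1.mem_S I₁ (c := ⟨d, Pd⟩) (by simp)
  have haS : a ∈ C₂.S := RRB1.mem_S I₂ (c := ⟨a, Pa⟩) (by simp)
  have hr : PD ang A₁ C₁ (⟨b, Pb⟩ :: ⟨d, Pd⟩ :: (L₁ ++ [⟨z, Pz⟩])) := PD.rot h₁
  cases IH C₁ b Pb d Pd (L₁ ++ [⟨z, Pz⟩]) hr with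
  | digon hA hC hPa hPb hL => simp at hL
  | inner A' C' y Pb' Py Pd' hA hC hPb hPd h hbd' hy =>
    have hsub : ∀ x, x ∈ C'.S → x ∈ C₁.S := by
      rintro x ⟨w, hw⟩
      rw [hC]
      exact ⟨w, Or.inl hw⟩
    have h' : PD ang A' C' (⟨z, Pz⟩ :: ⟨b, Pb'⟩ :: (⟨y, Py⟩ :: ⟨d, Pd'⟩ :: L₁)) := by
      refine RRB1.pd_isRot h ?_
      exact List.isRotated_append (l := ⟨b, Pb'⟩ :: ⟨y, Py⟩ :: ⟨d, Pd'⟩ :: L₁) (l' := [⟨z, Pz⟩])
    have hb := PD.rot (PD.both h' h₂ (fun x hx hx' => hd x (hsub x hx) hx'))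
    refine Dec.inner (A' + A₂ + 1) ((C'.sup C₂).add a b z) y (a :: Pb') Py Pd'
      (by omega) ?_ (by rw [hPb]; rfl) hPd ?_ ?_ hy
    · rw [hC]
      ext u v w
      · exact RRB1.or1 _ _ _ _
      · exact RRB1.or1 _ _ _ _
    · simpa using hb
    · simp only [Cx.add, Cx.sup]
      rintro ((h3 | h3) | ⟨h3, -⟩ | ⟨-, h3⟩)
      · exact hbd' h3
      · exact hzb (hd b hbS ⟨d, h3⟩).symm
      · rw [← h3] at haS
        exact hzb (hd b hbS haS).symm
      · rw [← h3] at haS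
        exact hzd (hd d hdS haS).symm
  | both A₁' A₂' D₁ D₂ y Pb' Py Qy Pd' M₁ M₂ hA hC hPb hPd hL h₁' h₂' hd' =>
    have J₁ := hINV ang A₁' D₁ _ h₁'
    have J₂ := hINV ang A₂' D₂ _ h₂'
    have hsub₁ : ∀ x, x ∈ D₁.S → x ∈ C₁.S := by
      rintro x ⟨w, hw⟩
      rw [hC]
      exact ⟨w, Or.inl (Or.inl hw)⟩
    have hsub₂ : ∀ x, x ∈ D₂.S → x ∈ C₁.S := by
      rintro x ⟨w, hw⟩
      rw [hC]
      exact ⟨w, Or.inl (Or.inr hw)⟩
    have hbD₂ : b ∈ D₂.S := RRB1.mem_S J₂ (c := ⟨b, Pb'⟩) (by simp)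
    rcases List.eq_nil_or_concat M₂ with rfl | ⟨M₂', c, rfl⟩
    · -- the apex is `z`
      obtain ⟨hL1, hL2⟩ := List.append_inj' hL (by simp)
      subst hL1
      simp only [List.cons.injEq, FC.mk.injEq, and_true] at hL2
      obtain ⟨rfl, hPz⟩ := hL2
      obtain ⟨p, q, hA2, hD2, hl⟩ := RRB1.digon hINV h₂' (by simp)
      simp only [List.nil_append, List.cons.injEq, FC.mk.injEq, and_true] at hl
      obtain ⟨⟨rfl, hQ⟩, ⟨rfl, hP⟩⟩ := hl
      have hb := PD.rot (PD.rot (PD.both (PD.digon (ang := ang) hzb) h₂ (by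
        intro x hx hx'
        obtain ⟨w, hw⟩ := hx
        rcases hw with ⟨rfl, -⟩ | ⟨rfl, -⟩
        · rfl
        · exact hd _ hbS hx')))
      refine Dec.both A₁' (0 + A₂ + 1) D₁ (((Cx.edge z b).sup C₂).add a b z) z (a :: Pb') Py
        ([b] ++ Qz) Pd' L₁ (L₂ ++ [⟨a, Pa ++ [b]⟩]) (by omega) ?_ (by rw [hPb]; rfl) hPd ?_ h₁' ?_ ?_
      · rw [hC, hD2]
        ext u v w
        · exact RRB1.or2 _ _ _ _ _
        · exact RRB1.or2 _ _ _ _ _
      · rw [hPz, hQ, List.append_assoc]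
      · rw [hP]
        simpa using hb
      · rintro x hx ⟨w, hw⟩
        simp only [Cx.add, Cx.sup, Cx.edge] at hw
        rcases hw with ((⟨rfl, -⟩ | ⟨rfl, -⟩) | hw) | ⟨rfl, -⟩ | ⟨rfl, -⟩
        · rfl
        · exact hd' _ hx hbD₂
        · exact hd x (hsub₁ x hx) ⟨w, hw⟩
        · exact hd _ (hsub₁ _ hx) haS
        · exact hd' _ hx hbD₂
    · -- the apex is in `L₁`
      rw [List.concat_eq_append] at hL h₂' J₂
      have hL' : L₁ ++ [⟨z, Pz⟩] = (M₁ ++ ⟨y, Py ++ Qy⟩ :: M₂') ++ [c] := by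
        rw [hL]
        simp
      obtain ⟨hL1, hL2⟩ := List.append_inj' hL' (by simp)
      simp only [List.cons.injEq, and_true] at hL2
      subst hL1
      subst hL2
      have hzD₂ : z ∈ D₂.S := RRB1.mem_S J₂ (c := ⟨z, Pz⟩) (by simp)
      have h' : PD ang A₂' D₂ (⟨z, Pz⟩ :: ⟨b, Pb'⟩ :: (⟨y, Qy⟩ :: M₂')) := by
        refine RRB1.pd_isRot h₂' ?_
        have := List.isRotated_append (l := ⟨y, Qy⟩ :: M₂') (l' := [⟨z, Pz⟩, ⟨b, Pb'⟩])
        simpa using this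
      have hb := PD.rot (PD.rot (PD.both h' h₂ (fun x hx hx' => hd x (hsub₂ x hx) hx')))
      refine Dec.both A₁' (A₂' + A₂ + 1) D₁ ((D₂.sup C₂).add a b z) y (a :: Pb') Py Qy Pd' M₁
        (M₂' ++ ⟨z, Pz ++ Qz⟩ :: (L₂ ++ [⟨a, Pa ++ [b]⟩])) (by omega) ?_ (by rw [hPb]; rfl) hPd
        (by simp) h₁' ?_ ?_
      · rw [hC]
        ext u v w
        · exact RRB1.or2 _ _ _ _ _
        · exact RRB1.or2 _ _ _ _ _
      · simpa using hb
      · rintro x hx ⟨w, hw⟩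
        simp only [Cx.add, Cx.sup] at hw
        rcases hw with (hw | hw) | ⟨rfl, -⟩ | ⟨rfl, -⟩
        · exact hd' x hx ⟨w, hw⟩
        · have h3 := hd x (hsub₁ x hx) ⟨w, hw⟩
          rw [h3] at hx ⊢
          exact hd' z hx hzD₂
        · have h3 := hd _ (hsub₁ _ hx) haS
          rw [h3] at hx ⊢
          exact hd' z hx hzD₂
        · exact hd' _ hx hbD₂

end Pool.Agent.MSN
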