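import Pool.Agent.MSN.Targets

/-!
# RRI: re-rooting at the next edge, case inner
-/

namespace Pool.Agent.MSN

open List Pool.Agent.MSF

universe u

namespace RRI

variable {N : Type u} {ang : N → N → N → ℝ}

theorem edge_symm (a b : N) : Cx.edge a b = Cx.edge b a := by
  refine Cx.ext ?_ rfl
  funext x y
  exact propext or_comm

theorem add_comm (C : Cx N) (a b z a' b' z' : N) :
    (C.add a b z).add a' b' z' = (C.add a' b' z').add a b z := by
  refine Cx.ext ?_ ?_
  · funext x y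
    exact propext or_right_comm
  · funext x y w
    exact propext or_right_comm

theorem sup_comm (C C' : Cx N) : C.sup C' = C'.sup C := by
  refine Cx.ext ?_ ?_
  · funext x y
    exact propext or_comm
  · funext x y w
    exact propext or_comm

theorem sup_add (C C' : Cx N) (a b z : N) : C.sup (C'.add a b z) = (C.sup C').add a b z := by
  refine Cx.ext ?_ ?_
  · funext x y
    exact propext or_assoc.symm
  · funext x y w
    exact propext or_assoc.symm

/-- Any rotation. -/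
theorem rotn {A : ℕ} {C : Cx N} : ∀ (M L : List (FC N)), PD ang A C (M ++ L) →
    PD ang A C (L ++ M)
  | [], L, h => by simpa using h
  | c :: M, L, h => by
    have h1 : PD ang A C (M ++ (L ++ [c])) := by
      have := PD.rot (c := c) (L := M ++ L) h
      simpa using this
    have h2 := rotn M (L ++ [c]) h1
    simpa using h2

theorem plen_cons' (v x y : N) (l : List N) :
    plen ang v (x :: y :: l) = ang v x y + plen ang v (y :: l) := rfl

theorem plen_snoc (v : N) : ∀ (l : List N) (x y : N), l.getLast? = some x →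
    plen ang v (l ++ [y]) = plen ang v l + ang v x y
  | [], x, y, h => by simp at h
  | [a], x, y, h => by
    simp at h
    subst h
    simp [plen]
  | a :: b :: l, x, y, h => by
    have h' : (b :: l).getLast? = some x := by simpa [List.getLast?_cons_cons] using h
    have ih := plen_snoc v (b :: l) x y h'
    simp only [List.cons_append] at ih ⊢
    rw [plen_cons', ih, plen_cons']
    ring

theorem plen_cons_head (v : N) (l : List N) (x y : N) (h : l.head? = some x) :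
    plen ang v (y :: l) = ang v y x + plen ang v l := by
  cases l with
  | nil => simp at h
  | cons a l =>
    simp at h
    subst h
    rfl

/-- The boundary edges are edges. -/
theorem bd_edge (hINV : T_INV.{u}) {A : ℕ} {C : Cx N} {p q : FC N} {L : List (FC N)}
    (h : PD ang A C (p :: q :: L)) : C.E p.v q.v :=
  (hINV ang A C _ h).bdE _ _ ⟨L.map FC.v, List.IsRotated.refl _⟩

/-- A disc with two boundary corners is a digon. -/
theorem two_corners (hINV : T_INV.{u}) {A : ℕ} {C : Cx N} {L : List (FC N)}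
    (h : PD ang A C L) (hL : L.length = 2) :
    A = 0 ∧ ∃ a b : N, C = Cx.edge a b ∧ L = [⟨a, [b]⟩, ⟨b, [a]⟩] := by
  induction h with
  | @digon a b h => exact ⟨rfl, a, b, rfl, rfl⟩
  | @rot A C c L h ih =>
    obtain ⟨h0, a, b, hC, hL'⟩ := ih (by simpa using hL)
    refine ⟨h0, b, a, by rw [hC, edge_symm], ?_⟩
    injection hL' with h1 h2
    rw [h1, h2]
    rfl
  | @inner A C a b z Pa Pz Pb L h hab hz ih =>
    exfalso
    have hL0 : L = [] := by
      simp only [List.length_cons] at hL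
      exact List.length_eq_zero_iff.mp (by omega)
    subst hL0
    have h1 : PD ang A C ([⟨a, Pa⟩, ⟨z, Pz⟩] ++ [⟨b, Pb⟩]) := h
    have h2 := rotn _ _ h1
    have h3 : C.E b a := bd_edge hINV (p := ⟨b, Pb⟩) (q := ⟨a, Pa⟩) h2
    exact hab ((hINV ang A C _ h).symm _ _ h3)
  | @both A₁ A₂ C₁ C₂ a b z Pa Pz Qz Pb L₁ L₂ h₁ h₂ hd ih₁ ih₂ =>
    exfalso
    simp only [List.length_cons, List.length_append] at hL
    omega

theorem two_corners' (hINV : T_INV.{u}) {A : ℕ} {C : Cx N} {x y : N} {P Q : List N}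
    (h : PD ang A C [⟨x, P⟩, ⟨y, Q⟩]) :
    A = 0 ∧ C = Cx.edge x y ∧ P = [y] ∧ Q = [x] := by
  obtain ⟨h0, a, b, hC, hL⟩ := two_corners hINV h rfl
  simp only [List.cons.injEq, FC.mk.injEq, and_true] at hL
  obtain ⟨⟨h1, h2⟩, h3, h4⟩ := hL
  subst h1 h3
  exact ⟨h0, hC, h2, h4⟩

end RRI

theorem tRRI (hINV : T_INV.{u}) : T_RRI.{u} := by
  intro N ang A IH hsym C a z b d Pa Pz Pb Pd L h hab hz
  have hI := hINV ang A C _ h
  have hnd := hI.nodup
  simp only [List.map_cons, List.nodup_cons, List.mem_cons, not_or] at hnd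
  obtain ⟨⟨haz, hab', had, haL⟩, ⟨hzb, hzd, hzL⟩, ⟨hbd, hbL⟩, hdL, hLL⟩ := hnd
  have hrot : PD ang A C (⟨b, Pb⟩ :: ⟨d, Pd⟩ :: (L ++ [⟨a, Pa⟩, ⟨z, Pz⟩])) := by
    have h1 : PD ang A C ([⟨a, Pa⟩, ⟨z, Pz⟩] ++ (⟨b, Pb⟩ :: ⟨d, Pd⟩ :: L)) := h
    exact RRI.rotn _ _ h1
  rcases IH C b Pb d Pd _ hrot with
    ⟨_, _, _, _, hL⟩ | ⟨A', C', y, Pb', Py, Pd', hA, hC, hPb, hPd, h', hbd', hy⟩ |
    ⟨A₁, A₂, C₁, C₂, y, Pb', Py, Qy, Pd', L₁, L₂, hA, hC, hPb, hPd, hL, h₁, h₂, hd⟩
  · simp at hL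
  · -- inner
    have hab2 : ¬ C'.E a b := by
      intro hE
      apply hab
      rw [hC]
      exact Or.inl hE
    have h1 : PD ang A' C' (⟨a, Pa⟩ :: ⟨z, Pz⟩ :: ⟨b, Pb'⟩ :: (⟨y, Py⟩ :: ⟨d, Pd'⟩ :: L)) := by
      have h2 : PD ang A' C' ((⟨b, Pb'⟩ :: ⟨y, Py⟩ :: ⟨d, Pd'⟩ :: L) ++ [⟨a, Pa⟩, ⟨z, Pz⟩]) := h'
      exact RRI.rotn _ _ h2
    have h3 := PD.rot (PD.inner h1 hab2 hz)
    refine Dec.inner (A' + 1) (C'.add a b z) y (a :: Pb') Py Pd' ?_ ?_ ?_ hPd h3 ?_ hy
    · rw [hA]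
    · rw [hC, RRI.add_comm]
    · rw [hPb]
      rfl
    · rintro (hE | ⟨h4, h5⟩ | ⟨h4, h5⟩)
      · exact hbd' hE
      · exact hab' h4.symm
      · exact had h5.symm
  · -- both
    have hbS : b ∈ C₂.S := by
      have h2 : PD ang A₂ C₂ ((⟨y, Qy⟩ :: L₂) ++ [⟨b, Pb'⟩]) := h₂
      have h3 := RRI.rotn _ _ h2
      exact ⟨y, RRI.bd_edge hINV (p := ⟨b, Pb'⟩) (q := ⟨y, Qy⟩) h3⟩
    rcases List.eq_nil_or_concat L₂ with hL2 | ⟨M', w', hL2⟩
    · -- the second piece is a digon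
      subst hL2
      have e1 : (L ++ [⟨a, Pa⟩]) ++ [⟨z, Pz⟩] = L₁ ++ [⟨y, Py ++ Qy⟩] := by
        simpa using hL
      obtain ⟨e2, e3⟩ := List.append_inj' e1 rfl
      simp only [List.cons.injEq, FC.mk.injEq, and_true] at e3
      obtain ⟨e4, e5⟩ := e3
      subst e4
      obtain ⟨f0, f1, f2, f3⟩ := RRI.two_corners' hINV (by simpa using h₂)
      subst f0 f1 f2 f3
      rw [← e2] at h₁
      have hbC : b ∉ C₁.S := fun hb => hzb (hd b hb hbS).symm
      have g1 : PD ang A₁ C₁ (⟨z, Py⟩ :: ((⟨d, Pd'⟩ :: L) ++ [⟨a, Pa⟩])) := by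
        simpa using h₁
      have g2 := PD.both (L₁ := []) (PD.digon (ang := ang) hzb) g1 (by
        rintro x ⟨w, hw⟩ hx
        rcases hw with ⟨hw, _⟩ | ⟨hw, _⟩
        · exact hw
        · rw [hw] at hx
          exact absurd hx hbC)
      have g3 := PD.rot g2
      refine Dec.inner (0 + A₁ + 1) (((Cx.edge z b).sup C₁).add a b z) z [a, z] ([b] ++ Py) Pd'
        ?_ ?_ ?_ hPd ?_ ?_ ?_
      · omega
      · rw [hC, RRI.add_comm, RRI.sup_comm]
      · rw [hPb]
        rfl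
      · simpa using g3
      · rintro ((hE | hE) | ⟨h4, h5⟩ | ⟨h4, h5⟩)
        · rcases hE with ⟨h6, _⟩ | ⟨_, h7⟩
          · exact hzb h6.symm
          · exact hzd h7.symm
        · exact hbC ⟨d, hE⟩
        · exact hab' h4.symm
        · exact had h5.symm
      · have hI1 := hINV ang A₁ C₁ _ g1
        have n1 : Nx ⟨z, Py⟩ ⟨d, Pd'⟩ := hI1.nx _ _ _ (by
          simp only [List.cons_append]
          exact List.IsRotated.refl _)
        have n2 : Nx ⟨a, Pa⟩ ⟨z, Py⟩ := hI1.nx _ _ (⟨d, Pd'⟩ :: L) (by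
          have : (⟨z, Py⟩ :: ((⟨d, Pd'⟩ :: L) ++ [⟨a, Pa⟩]) : List (FC N)) =
              (⟨z, Py⟩ :: ⟨d, Pd'⟩ :: L) ++ [⟨a, Pa⟩] := by simp
          rw [this]
          exact List.isRotated_append)
        have p1 : plen ang z (Py ++ [b]) = plen ang z Py + ang z d b :=
          RRI.plen_snoc z Py d b n1.1
        have p2 : plen ang z (b :: Py) = ang z b a + plen ang z Py :=
          RRI.plen_cons_head z Py a b n2.2
        rw [e5, p1] at hz
        simp only [List.singleton_append]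
        rw [p2]
        linarith
    · rcases List.eq_nil_or_concat M' with hM | ⟨M, w, hM⟩
      · -- the boundary edge `b → a`
        exfalso
        subst hM
        have e1 : L ++ [⟨a, Pa⟩, ⟨z, Pz⟩] = L₁ ++ [⟨y, Py ++ Qy⟩, w'] := by
          rw [hL, hL2]
          simp
        obtain ⟨e2, e3⟩ := List.append_inj' e1 rfl
        simp only [List.cons.injEq, FC.mk.injEq, and_true] at e3
        obtain ⟨⟨e4, e5⟩, e6⟩ := e3
        subst e4
        have h2 : PD ang A₂ C₂ ((⟨a, Qy⟩ :: L₂) ++ [⟨b, Pb'⟩]) := h₂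
        have h3 := RRI.rotn _ _ h2
        have h4 : C₂.E b a := RRI.bd_edge hINV (p := ⟨b, Pb'⟩) (q := ⟨a, Qy⟩) h3
        apply hab
        rw [hC]
        exact Or.inl (Or.inr ((hINV ang A₂ C₂ _ h₂).symm _ _ h4))
      · subst hM
        have e1 : L ++ [⟨a, Pa⟩, ⟨z, Pz⟩] = (L₁ ++ ⟨y, Py ++ Qy⟩ :: M) ++ [w, w'] := by
          rw [hL, hL2]
          simp
        obtain ⟨e2, e3⟩ := List.append_inj' e1 rfl
        simp only [List.cons.injEq, and_true] at e3
        obtain ⟨e4, e5⟩ := e3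
        subst e4 e5
        have hab2 : ¬ C₂.E a b := by
          intro hE
          apply hab
          rw [hC]
          exact Or.inl (Or.inr hE)
        have g1 : PD ang A₂ C₂
            (⟨a, Pa⟩ :: ⟨z, Pz⟩ :: ⟨b, Pb'⟩ :: (⟨y, Qy⟩ :: M)) := by
          have h2 : PD ang A₂ C₂ ((⟨y, Qy⟩ :: M) ++ [⟨a, Pa⟩, ⟨z, Pz⟩, ⟨b, Pb'⟩]) := by
            rw [hL2] at h₂
            simpa using h₂
          exact RRI.rotn _ _ h2
        have hI2 := hINV ang A₂ C₂ _ g1
        have haS : a ∈ C₂.S := ⟨z, RRI.bd_edge hINV (p := ⟨a, Pa⟩) (q := ⟨z, Pz⟩) g1⟩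
        have g2 := PD.inner g1 hab2 hz
        have g3 : PD ang (A₂ + 1) (C₂.add a b z)
            (⟨y, Qy⟩ :: ((M ++ [⟨a, Pa ++ [b]⟩]) ++ [⟨b, a :: Pb'⟩])) := by
          have g4 : PD ang (A₂ + 1) (C₂.add a b z)
            ([⟨a, Pa ++ [b]⟩, ⟨b, a :: Pb'⟩] ++ (⟨y, Qy⟩ :: M)) := g2
          have g5 := RRI.rotn _ _ g4
          simpa using g5
        refine Dec.both A₁ (A₂ + 1) C₁ (C₂.add a b z) y (a :: Pb') Py Qy Pd' L₁
          (M ++ [⟨a, Pa ++ [b]⟩]) ?_ ?_ ?_ hPd ?_ h₁ g3 ?_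
        · omega
        · rw [hC, RRI.add_comm, RRI.sup_add]
        · rw [hPb]
          rfl
        · rw [e2]
          simp
        · rintro x hx ⟨w, hw⟩
          apply hd x hx
          rcases hw with hw | ⟨hw, _⟩ | ⟨hw, _⟩
          · exact ⟨w, hw⟩
          · rw [hw]
            exact haS
          · rw [hw]
            exact hbS

end Pool.Agent.MSN
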