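import Pool.Agent.MSN.Targets

/-!
# SIDE: chord versus arc
-/

namespace Pool.Agent.MSN

open List Pool.Agent.MSF

universe u

namespace SIDE

variable {N : Type u}

theorem pd_rot {ang : N → N → N → ℝ} {A : ℕ} {C : Cx N} : ∀ (X Z : List (FC N)),
    PD ang A C (X ++ Z) → PD ang A C (Z ++ X) := by
  intro X
  induction X with
  | nil => intro Z h; simpa using h
  | cons c X ih =>
    intro Z h
    have h1 : PD ang A C ((X ++ Z) ++ [c]) := PD.rot h
    rw [List.append_assoc] at h1
    have h2 := ih (Z ++ [c]) h1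
    rw [List.append_assoc] at h2
    exact h2

theorem cos_ge {φ : ℝ} (h : |φ| ≤ Real.pi / 4) : Real.sqrt 2 / 2 ≤ Real.cos φ := by
  rw [← Real.cos_pi_div_four, ← Real.cos_abs φ]
  apply Real.cos_le_cos_of_nonneg_of_le_pi (abs_nonneg _) _ h
  have := Real.pi_pos
  linarith

/-- the fans of the corners `K`, whose predecessor is `p` and whose successor is `y` -/
def Fans (C : Cx N) : N → List (FC N) → N → Prop
  | _, [], _ => True
  | p, c :: K, y => (c.P.Nodup ∧ List.IsChain (fun r s => C.T r c.v s) c.P ∧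
      c.P.head? = some p ∧ c.P.getLast? = some (fstV y K)) ∧ Fans C c.v K y

theorem shape {P : List N} {p n : N} (h : p ≠ n) (h1 : P.head? = some p)
    (h2 : P.getLast? = some n) : ∃ X : List N, P = p :: (X ++ [n]) := by
  cases P with
  | nil => simp at h1
  | cons a P =>
    simp only [List.head?_cons, Option.some.injEq] at h1
    subst h1
    rcases List.eq_nil_or_concat P with h3 | ⟨X, b, h3⟩
    · subst h3
      simp at h2
      exact absurd h2 h
    · rw [List.concat_eq_append] at h3
      subst h3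
      refine ⟨X, ?_⟩
      have h4 : (a :: (X ++ [b])).getLast? = some b := by
        rw [show a :: (X ++ [b]) = (a :: X) ++ [b] from rfl, List.getLast?_concat]
      rw [h4] at h2
      rw [Option.some.inj h2]

theorem main (h3 : T_FAN.{u}) {len : N → N → ℝ} {ang : N → N → N → ℝ} {C : Cx N}
    (hE : Euc len ang C) (hf : ∀ x y z z', C.T x y z → C.T x y z' → z = z') (I : N → Prop) :
    ∀ (l : List (ℝ × N)) (x : N) (φ : ℝ) (y : N) (c : FC N) (K : List (FC N × ℝ)),
      c.v = x → K.map (fun p => p.1.v) = l.map Prod.snd →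
      ∀ ψ, ψ :: K.map (fun p => p.2) = (l ++ [(φ, y)]).map Prod.fst →
      Bp ang C I x (l ++ [(φ, y)]) → Fans C c.v (K.map Prod.fst) y →
      (∀ p ∈ (c, ψ) :: K, |p.2| ≤ Real.pi / 4) ∧
      List.IsChain (fun p q : FC N × ℝ => Real.pi - q.1.th ang ≤ q.2 - p.2) ((c, ψ) :: K) ∧
      Real.sqrt 2 / 2 * elen len (x :: (l.map Prod.snd ++ [y])) ≤ WS len ((c, ψ) :: K) y := by
  intro l
  induction l with
  | nil =>
    intro x φ y c K hc hK ψ hψ hB _
    have hK' : K = [] := by simpa using hK
    subst hK'
    have hψ' : ψ = φ := by simpa using hψ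
    subst hψ'
    simp only [List.nil_append, Bp] at hB
    obtain ⟨hxy, hφ⟩ := hB
    refine ⟨by simpa using hφ, List.isChain_singleton _, ?_⟩
    simp only [List.map_nil, List.nil_append, elen, WS, fstV, add_zero, hc]
    have h1 := cos_ge hφ
    have h2 := hE.lpos x y hxy
    nlinarith
  | cons st l ih =>
    intro x φ y c K hc hK ψ hψ hB hF
    obtain ⟨φ₁, y₁⟩ := st
    cases K with
    | nil => simp at hK
    | cons kc K =>
      obtain ⟨c₁, ψ₁⟩ := kc
      simp only [List.map_cons, List.cons.injEq] at hK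
      simp only [List.cons_append, List.map_cons, List.cons.injEq] at hψ
      obtain ⟨hψ1, hψ2⟩ := hψ
      subst hψ1
      obtain ⟨hc1, hK1⟩ := hK
      simp only [List.map_cons, Fans] at hF
      obtain ⟨⟨hn, hch, hhd, hlt⟩, hF'⟩ := hF
      -- the second step
      obtain ⟨φ₂, y₂, rest, hrest⟩ : ∃ (φ₂ : ℝ) (y₂ : N) (rest : List (ℝ × N)),
          l ++ [(φ, y)] = (φ₂, y₂) :: rest := by
        cases l with
        | nil => exact ⟨φ, y, [], rfl⟩
        | cons a l => exact ⟨a.1, a.2, l ++ [(φ, y)], rfl⟩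
      rw [List.cons_append, hrest] at hB
      simp only [Bp] at hB
      obtain ⟨hE1, hφ1, _, hBi, hB'⟩ := hB
      rw [← hrest] at hB'
      have hψ₂ : ψ₁ = φ₂ := by
        rw [hrest] at hψ2
        simp only [List.map_cons, List.cons.injEq] at hψ2
        exact hψ2.1
      have hy₂ : fstV y (K.map Prod.fst) = y₂ := by
        cases l with
        | nil =>
          have hK' : K = [] := by simpa using hK1
          subst hK'
          simp only [List.nil_append, List.cons.injEq, Prod.mk.injEq] at hrest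
          exact hrest.1.2
        | cons a l =>
          cases K with
          | nil => simp at hK1
          | cons k K =>
            simp only [List.map_cons, List.cons.injEq] at hK1
            simp only [List.cons_append, List.cons.injEq] at hrest
            simp only [List.map_cons, fstV]
            rw [hK1.1, hrest.1]
      obtain ⟨h4, h5, h6⟩ := ih y₁ φ y c₁ K hc1 hK1 ψ₁ hψ2 hB' hF'
      obtain ⟨X, Z, hX1, hX2, _, _, hX3, _⟩ := hBi
      have hne : x ≠ y₂ := by
        intro h7
        rw [List.nodup_cons] at hX1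
        exact hX1.1 (by rw [h7]; simp)
      rw [hy₂] at hlt
      rw [hc] at hhd
      obtain ⟨X', hX'⟩ := shape hne hhd hlt
      rw [hX'] at hn hch
      rw [hc1] at hch
      have h8 : X' = X := h3 (fun r s => C.T r y₁ s) (fun a b b' h h' => hf _ _ _ _ h h')
        x y₂ X' X hn hX1 hch hX2
      have hth : c₁.th ang = plen ang y₁ (x :: (X ++ [y₂])) := by
        rw [FC.th, hX', h8, hc1]
      refine ⟨?_, ?_, ?_⟩
      · intro p hp
        rw [List.mem_cons] at hp
        rcases hp with rfl | hp
        · exact hφ1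
        · exact h4 p hp
      · rw [List.isChain_cons_cons]
        refine ⟨?_, h5⟩
        show Real.pi - c₁.th ang ≤ ψ₁ - ψ
        rw [hth, hψ₂]
        exact hX3
      · have h9 := cos_ge hφ1
        have h10 := hE.lpos x y₁ hE1
        simp only [List.map_cons, List.cons_append, elen] at h6 ⊢
        have e : WS len ((c, ψ) :: (c₁, ψ₁) :: K) y =
            len c.v c₁.v * Real.cos ψ + WS len ((c₁, ψ₁) :: K) y := rfl
        rw [e, hc, hc1]
        have h11 : Real.sqrt 2 / 2 * len x y₁ ≤ len x y₁ * Real.cos ψ := by nlinarith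
        linarith

theorem fans_of {C C' : Cx N} {L : List (FC N)} (hI : Inv C' L) (hle : Cx.Le C' C) (y : N)
    (cy : FC N) (hy : cy.v = y) (R : List (FC N)) : ∀ (K X : List (FC N)) (p : FC N),
    L = X ++ p :: (K ++ cy :: R) → Fans C p.v K y := by
  intro K
  induction K with
  | nil => intro X p _; trivial
  | cons c K ih =>
    intro X p hL
    have hmem : c ∈ L := by rw [hL]; simp
    have hrot : ∀ (X : List (FC N)) (a b : FC N) (Z : List (FC N)), L = X ++ a :: b :: Z →
        Nx a b := by
      intro X a b Z hL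
      apply hI.nx a b (Z ++ X)
      rw [hL]
      have : a :: b :: (Z ++ X) = (a :: b :: Z) ++ X := rfl
      rw [this]
      exact List.isRotated_append
    have h1 : Nx p c := hrot X p c (K ++ cy :: R) hL
    have h2 : ∃ d Z, L = (X ++ [p]) ++ c :: d :: Z ∧ d.v = fstV y K := by
      cases K with
      | nil => exact ⟨cy, R, by rw [hL]; simp, hy⟩
      | cons d K => exact ⟨d, K ++ cy :: R, by rw [hL]; simp, rfl⟩
    obtain ⟨d, Z, h3, h4⟩ := h2
    have h5 : Nx c d := hrot _ c d Z h3
    refine ⟨⟨hI.fnodup c hmem, ?_, h1.2, ?_⟩, ih (X ++ [p]) c (by rw [hL]; simp)⟩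
    · exact (hI.fchain c hmem).imp (fun a b h => hle.T _ _ _ h)
    · rw [h5.1, h4]

theorem euc_le {len : N → N → ℝ} {ang : N → N → N → ℝ} {C C' : Cx N} (hE : Euc len ang C)
    (hle : Cx.Le C' C) : Euc len ang C' where
  lsymm := hE.lsymm
  asymm := hE.asymm
  lpos := fun x y h => hE.lpos x y (hle.E _ _ h)
  apos := fun x y z h => hE.apos x y z (hle.T _ _ _ h)
  ale := fun x y z h => hE.ale x y z (hle.T _ _ _ h)
  asum := fun x y z h => hE.asum x y z (hle.T _ _ _ h)
  proj := fun x y z h => hE.proj x y z (hle.T _ _ _ h)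

theorem side (h1 : T_INV.{u}) (h3 : T_FAN.{u}) (h5 : T_MT.{u}) {len : N → N → ℝ}
    {ang : N → N → N → ℝ} {C C' : Cx N} {A : ℕ} (hE : Euc len ang C)
    (hf : ∀ x y z z', C.T x y z → C.T x y z' → z = z') (I : N → Prop) (hle : Cx.Le C' C)
    (l : List (ℝ × N)) (x : N) (φ : ℝ) (y : N) (Y : List N) (L : List (FC N))
    (hPD : PD ang A C' L) (hL : L.map FC.v = x :: (l.map Prod.snd ++ y :: Y))
    (hB : Bp ang C I x (l ++ [(φ, y)])) :
    Real.sqrt 2 / 2 * elen len (x :: (l.map Prod.snd ++ [y])) ≤ elen len (y :: (Y ++ [x])) := by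
  have hL' : L.map FC.v = (x :: l.map Prod.snd) ++ (y :: Y) := hL
  rw [List.map_eq_append_iff] at hL'
  obtain ⟨K0, R0, hL1, hK0, hR0⟩ := hL'
  cases K0 with
  | nil => simp at hK0
  | cons c K0 =>
    cases R0 with
    | nil => simp at hR0
    | cons cy R =>
      simp only [List.map_cons, List.cons.injEq] at hK0 hR0
      obtain ⟨hc, hK0⟩ := hK0
      obtain ⟨hy, hR⟩ := hR0
      -- directions
      obtain ⟨ψ, D, hD⟩ : ∃ ψ D, (l ++ [(φ, y)]).map Prod.fst = ψ :: D := by
        cases l with
        | nil => exact ⟨φ, [], rfl⟩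
        | cons a l => exact ⟨a.1, _, rfl⟩
      have hlen : K0.length = D.length := by
        have e1 := congrArg List.length hK0
        have e2 := congrArg List.length hD
        simp at e1 e2
        omega
      have hz1 : (K0.zip D).map Prod.fst = K0 := List.map_fst_zip hlen.le
      have hz2 : (K0.zip D).map Prod.snd = D := List.map_snd_zip hlen.ge
      have hF : Fans C c.v ((K0.zip D).map Prod.fst) y := by
        rw [hz1]
        exact fans_of (h1 ang A C' L hPD) hle y cy hy R K0 [] c (by rw [hL1]; rfl)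
      have hK1 : (K0.zip D).map (fun p => p.1.v) = l.map Prod.snd := by
        rw [← hK0, ← hz1, List.map_map, hz1]
        rfl
      obtain ⟨h6, h7, h8⟩ := main h3 hE hf I l x φ y c (K0.zip D) hc hK1 ψ
        (by rw [hD]; exact congrArg _ hz2) hB hF
      refine h8.trans ?_
      have hmap : ((c, ψ) :: K0.zip D).map Prod.fst = c :: K0 := by
        rw [List.map_cons, hz1]
      have hPD2 : PD ang A C' ((cy :: R) ++ ((c, ψ) :: K0.zip D).map Prod.fst) := by
        rw [hmap]
        apply pd_rot
        rw [← hL1]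
        exact hPD
      have hM := h5 len ang A C' (cy :: R) ((c, ψ) :: K0.zip D) hPD2 (euc_le hE hle)
        ⟨fun p hp => (h6 p hp).trans (by have := Real.pi_pos; linarith), h7⟩ c K0 hmap
      have e1 : fstV c.v (cy :: R) = y := hy
      rw [e1, List.map_cons, hy, hR, hc] at hM
      exact hM

theorem elen_snoc (len : N → N → ℝ) : ∀ (l : List N) (a b : N),
    elen len (l ++ [a] ++ [b]) = elen len (l ++ [a]) + len a b := by
  intro l
  induction l with
  | nil => intro a b; simp [elen]
  | cons c l ih =>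
    intro a b
    cases l with
    | nil => simp [elen]
    | cons d l =>
      have := ih a b
      simp only [List.cons_append, elen] at this ⊢
      rw [this]; ring

theorem elen_reverse {len : N → N → ℝ} (hs : ∀ x y, len x y = len y x) : ∀ l : List N,
    elen len l.reverse = elen len l := by
  intro l
  induction l with
  | nil => rfl
  | cons a l ih =>
    cases l with
    | nil => rfl
    | cons b l =>
      rw [List.reverse_cons, List.reverse_cons, elen_snoc, ← List.reverse_cons, ih, hs b a]
      simp only [elen]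
      ring

theorem revB_spec : ∀ (l : List (ℝ × N)) (x : N) (φ : ℝ) (y : N),
    ∃ (l' : List (ℝ × N)) (φ' : ℝ), revB x (l ++ [(φ, y)]) = l' ++ [(φ', x)] ∧
      l'.map Prod.snd = (l.map Prod.snd).reverse := by
  intro l
  induction l with
  | nil => intro x φ y; exact ⟨[], φ, rfl, rfl⟩
  | cons a l ih =>
    intro x φ y
    obtain ⟨l', φ', h1, h2⟩ := ih a.2 φ y
    refine ⟨l' ++ [(φ', a.2)], a.1, ?_, ?_⟩
    · obtain ⟨ψ, z⟩ := a
      simp only [List.cons_append, revB]
      rw [h1]
    · simp [h2]

end SIDE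

theorem tSIDE (h1 : T_INV.{u}) (h2 : T_SUB.{u}) (h3 : T_FAN.{u}) (h4 : T_BREV.{u})
    (h5 : T_MT.{u}) : T_SIDE.{u} := by
  intro N len ang A C L hPD hE I x l φ y Y hB hnd hch hlen
  have hInv := h1 ang A C L hPD
  have hch' : List.IsChain C.E (x :: ((l.map Prod.snd ++ y :: Y) ++ [x])) := by
    simpa using hch
  obtain ⟨A', C', L', _, hPD', hle, hL' | hL'⟩ := h2 ang hE.asymm A C L hPD x
    (l.map Prod.snd ++ y :: Y) (by simp at hlen ⊢; omega) hnd hch'
  · exact SIDE.side h1 h3 h5 hE hInv.func I hle l x φ y Y L' hPD' hL' hB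
  · have hB' := h4 ang C I hInv.symm x l y φ hB
    obtain ⟨l', φ', h6, h7⟩ := SIDE.revB_spec l x φ y
    rw [h6] at hB'
    have hL2 : L'.map FC.v = Y.reverse ++ (y :: ((l.map Prod.snd).reverse ++ [x])) := by
      rw [hL']; simp
    rw [List.map_eq_append_iff] at hL2
    obtain ⟨R1, R2, hR, hR1, hR2⟩ := hL2
    have hPD2 : PD ang A' C' (R2 ++ R1) := by
      apply SIDE.pd_rot
      rw [← hR]
      exact hPD'
    have h8 := SIDE.side h1 h3 h5 hE hInv.func I hle l' y φ' x Y.reverse (R2 ++ R1) hPD2
      (by rw [List.map_append, hR1, hR2, h7]; simp) hB'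
    have e1 : y :: (l'.map Prod.snd ++ [x]) = (x :: (l.map Prod.snd ++ [y])).reverse := by
      rw [h7]; simp
    have e2 : x :: (Y.reverse ++ [y]) = (y :: (Y ++ [x])).reverse := by simp
    rw [e1, e2, SIDE.elen_reverse hE.lsymm, SIDE.elen_reverse hE.lsymm] at h8
    exact h8

end Pool.Agent.MSN
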