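import Pool.Agent.MSN.Targets

/-!
# MSN: subdiscs (SUB)
-/

namespace Pool.Agent.MSN

open List Pool.Agent.MSF

universe u

namespace SUB

variable {N : Type u}

theorem chain_of {α : Type u} {R : α → α → Prop} : ∀ L : List α,
    (∀ l1 u v l2, L = l1 ++ u :: v :: l2 → R u v) → List.IsChain R L
  | [], _ => List.isChain_nil
  | [_], _ => List.isChain_singleton _
  | (x :: y :: L), h => by
    rw [List.isChain_cons_cons]
    refine ⟨h [] x y L rfl, chain_of (y :: L) fun l1 u v l2 he => ?_⟩
    exact h (x :: l1) u v l2 (by rw [he]; rfl)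

theorem of_chain {α : Type u} {R : α → α → Prop} : ∀ (l1 : List α) (u v : α) (l2 : List α),
    List.IsChain R (l1 ++ u :: v :: l2) → R u v
  | [], u, v, l2, h => by
    rw [List.nil_append, List.isChain_cons_cons] at h
    exact h.1
  | (x :: l1), u, v, l2, h => by
    have h2 : List.IsChain R (l1 ++ u :: v :: l2) := by
      rw [List.cons_append] at h
      exact h.tail
    exact of_chain l1 u v l2 h2

/-- consecutive elements of the closed walk are cyclic edges -/
theorem cyc_edge {α : Type u} (a : α) (l : List α) (hl : 2 ≤ l.length) (l1 : List α) (u v : α)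
    (l2 : List α) (h : a :: (l ++ [a]) = l1 ++ u :: v :: l2) :
    ∃ m, (a :: l) ~r (u :: v :: m) := by
  rcases List.eq_nil_or_concat l2 with h2 | ⟨l3, z, h2⟩
  · subst h2
    have e1 : (a :: l) ++ [a] = (l1 ++ [u]) ++ [v] := by simpa using h
    obtain ⟨e2, e3⟩ := List.append_inj' e1 rfl
    have e4 : a = v := by simpa using e3
    subst e4
    rcases l1 with _ | ⟨b, l1⟩
    · have : l = [] := by simpa using congrArg List.tail e2
      rw [this] at hl
      simp at hl
    · have e5 : b = a := by
        have := congrArg List.head? e2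
        simpa using this.symm
      subst e5
      refine ⟨l1, ?_⟩
      rw [e2]
      exact List.isRotated_append
  · subst h2
    have e1 : (a :: l) ++ [a] = (l1 ++ u :: v :: l3) ++ [z] := by simpa using h
    obtain ⟨e2, -⟩ := List.append_inj' e1 rfl
    refine ⟨l3 ++ l1, ?_⟩
    rw [e2]
    exact List.isRotated_append

theorem rot_n {ang : N → N → N → ℝ} {A : ℕ} {C : Cx N} {L : List (FC N)}
    (h : PD ang A C L) (n : ℕ) : PD ang A C (L.rotate n) := by
  induction n with
  | zero => simpa using h
  | succ n ih =>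
    rw [← List.rotate_rotate]
    rcases hL : L.rotate n with _ | ⟨c, M⟩
    · rw [hL] at ih
      simpa using ih
    · rw [hL] at ih
      simpa using PD.rot ih

theorem not_edge {x y : N} {a : N} {l : List N} (hl : 2 ≤ l.length) (hn : (a :: l).Nodup)
    (hc : List.IsChain (Cx.edge x y).E (a :: (l ++ [a]))) : False := by
  rcases l with _ | ⟨b, _ | ⟨c, l⟩⟩
  · simp at hl
  · simp at hl
  · rw [List.cons_append, List.cons_append, List.isChain_cons_cons, List.isChain_cons_cons] at hc
    obtain ⟨h1, h2, -⟩ := hc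
    have hac : a ≠ c := by
      intro h
      rw [h] at hn
      simp at hn
    have hab : a ≠ b := by
      intro h
      rw [h] at hn
      simp at hn
    rcases h1 with ⟨e1, e2⟩ | ⟨e1, e2⟩ <;> rcases h2 with ⟨e3, e4⟩ | ⟨e3, e4⟩
    · exact hab (by rw [e1, e3])
    · exact hac (by rw [e1, e4])
    · exact hac (by rw [e1, e4])
    · exact hab (by rw [e1, e3])

end SUB

open SUB in
theorem tSUB (h1 : T_INV.{u}) (h2 : T_RR.{u}) (h3 : T_CYC.{u}) (h4 : T_UNI.{u}) : T_SUB.{u} := by
  intro N ang hang A
  induction A using Nat.strong_induction_on with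
  | _ A ih =>
  intro C L hP a l hl hn hc
  have hI := h1 ang A C L hP
  by_cases hall : ∀ x y m, L.map FC.v ~r (x :: y :: m) →
      (∃ l', (a :: l) ~r (x :: y :: l')) ∨ ∃ l', (a :: l) ~r (y :: x :: l')
  · by_cases h3L : 3 ≤ (L.map FC.v).length
    · have h5 : 3 ≤ (a :: l).length := by rw [List.length_cons]; omega
      have hfin : ∀ w : List N, L.map FC.v ~r w → ∃ L', PD ang A C L' ∧ L'.map FC.v = w := by
        rintro w ⟨n, rfl⟩
        exact ⟨L.rotate n, rot_n hP n, List.map_rotate _ _ _⟩
      have hle : Cx.Le C C := ⟨fun _ _ h => h, fun _ _ _ h => h⟩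
      rcases h3 (L.map FC.v) (a :: l) h3L h5 hI.nodup hn hall with h | h
      · obtain ⟨L', h6, h7⟩ := hfin _ h
        exact ⟨A, C, L', le_rfl, h6, hle, Or.inl h7⟩
      · obtain ⟨L', h6, h7⟩ := hfin _ h
        exact ⟨A, C, L', le_rfl, h6, hle, Or.inr h7⟩
    · exfalso
      have h5 := hI.len
      rw [List.length_map] at h3L
      rcases L with _ | ⟨⟨x, Px⟩, _ | ⟨⟨y, Py⟩, _ | ⟨c, L⟩⟩⟩
      · simp at h5
      · simp at h5
      · cases h2 ang hang A C x Px y Py [] hP with
        | digon hA hC hPa hPb hL =>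
          rw [hC] at hc
          exact not_edge hl hn hc
        | inner A' C' z Pa' Pz Pb' hA hC hPa hPb h hab hz =>
          have hI' := h1 ang A' C' _ h
          apply hab
          apply hI'.symm
          apply hI'.bdE
          refine ⟨[z], ?_⟩
          show [x, z, y] ~r [y, x, z]
          exact ⟨2, rfl⟩
        | both A₁ A₂ C₁ C₂ z Pa' Pz Qz Pb' L₁ L₂ hA hC hPa hPb hL h₁ h₂ hd =>
          simp at hL
      · exact h3L (by simp)
  · push Not at hall
    obtain ⟨x, y, m, hm, hx, hy⟩ := hall
    obtain ⟨n, hn'⟩ := hm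
    rw [← List.map_rotate] at hn'
    have hP' := rot_n hP n
    rcases hL : L.rotate n with _ | ⟨⟨x', Px⟩, _ | ⟨⟨y', Py⟩, L'⟩⟩
    · rw [hL] at hn'
      simp at hn'
    · rw [hL] at hn'
      simp at hn'
    · rw [hL] at hn' hP'
      have e1 : x' = x := by simpa using congrArg List.head? hn'
      have e2 : y' = y := by
        have := congrArg (fun l => (List.tail l).head?) hn'
        simpa using this
      subst e1
      subst e2
      -- the walk avoids the edge
      have hav : ∀ R : N → N → Prop, (∀ u v, C.E u v → ¬ (u = x' ∧ v = y') →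
          ¬ (u = y' ∧ v = x') → R u v) → List.IsChain R (a :: (l ++ [a])) := by
        intro R hR
        refine chain_of _ fun l1 u v l2 he => ?_
        have h6 : C.E u v := of_chain l1 u v l2 (by rw [← he]; exact hc)
        obtain ⟨m', hm'⟩ := cyc_edge a l hl l1 u v l2 he
        refine hR u v h6 ?_ ?_
        · rintro ⟨rfl, rfl⟩
          exact hx m' hm'
        · rintro ⟨rfl, rfl⟩
          exact hy m' hm'
      cases h2 ang hang A C x' Px y' Py L' hP' with
      | digon hA hC hPa hPb hL =>
        rw [hC] at hc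
        exact (not_edge hl hn hc).elim
      | inner A' C' z Pa' Pz Pb' hA hC hPa hPb h hab hz =>
        have h7 : List.IsChain C'.E (a :: (l ++ [a])) := by
          refine hav _ fun u v h8 h9 h10 => ?_
          rw [hC] at h8
          rcases h8 with h8 | h8 | h8
          · exact h8
          · exact absurd h8 h9
          · exact absurd h8 h10
        obtain ⟨A'', C'', L'', g1, g2, g3, g4⟩ := ih A' (by omega) C' _ h a l hl hn h7
        refine ⟨A'', C'', L'', by omega, g2, ⟨fun u v h8 => ?_, fun u v w h8 => ?_⟩, g4⟩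
        · rw [hC]; exact Or.inl (g3.E u v h8)
        · rw [hC]; exact Or.inl (g3.T u v w h8)
      | both A₁ A₂ C₁ C₂ z Pa' Pz Qz Pb' L₁ L₂ hA hC hPa hPb hL h₁ h₂ hd =>
        have h7 : List.IsChain (fun u v => C₁.E u v ∨ C₂.E u v) (a :: (l ++ [a])) := by
          refine hav _ fun u v h8 h9 h10 => ?_
          rw [hC] at h8
          rcases h8 with h8 | h8 | h8
          · exact h8
          · exact absurd h8 h9
          · exact absurd h8 h10
        have I1 := h1 ang A₁ C₁ _ h₁
        have I2 := h1 ang A₂ C₂ _ h₂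
        rcases h4 C₁.E C₂.E z I1.symm I2.symm
          (fun u v v' e1 e2 => hd u ⟨v, e1⟩ ⟨v', e2⟩) a l hn h7 with h8 | h8
        · obtain ⟨A'', C'', L'', g1, g2, g3, g4⟩ := ih A₁ (by omega) C₁ _ h₁ a l hl hn h8
          refine ⟨A'', C'', L'', by omega, g2, ⟨fun u v h8 => ?_, fun u v w h8 => ?_⟩, g4⟩
          · rw [hC]; exact Or.inl (Or.inl (g3.E u v h8))
          · rw [hC]; exact Or.inl (Or.inl (g3.T u v w h8))
        · obtain ⟨A'', C'', L'', g1, g2, g3, g4⟩ := ih A₂ (by omega) C₂ _ h₂ a l hl hn h8
          refine ⟨A'', C'', L'', by omega, g2, ⟨fun u v h8 => ?_, fun u v w h8 => ?_⟩, g4⟩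
          · rw [hC]; exact Or.inl (Or.inr (g3.E u v h8))
          · rw [hC]; exact Or.inl (Or.inr (g3.T u v w h8))

end Pool.Agent.MSN
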