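import Pool.Agent.MSN.Lol

/-!
# SURJA: assembly of SURJ
-/

namespace Pool.Agent.MSN

open List Pool.Agent.MSF

universe u

namespace SURJA

theorem lcl_cons {V : Type u} (a b : V) (t : List V) : lcl a (b :: t) = lcl b t := by
  simp [lcl]

theorem elen_map {V : Type u} {W : Type} (len : V → V → ℝ) (f : W → V) :
    ∀ P : List W, elen (fun x y => len (f x) (f y)) P = elen len (P.map f)
  | [] => rfl
  | [_] => rfl
  | (a :: b :: l) => by
    show len (f a) (f b) + elen (fun x y => len (f x) (f y)) (b :: l) =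
      len (f a) (f b) + elen len ((b :: l).map f)
    rw [elen_map len f (b :: l)]

theorem cyl_map {V : Type u} {W : Type} (len : V → V → ℝ) (f : W → V) (P : List W) :
    cyl (fun x y => len (f x) (f y)) P = cyl len (P.map f) := by
  cases P with
  | nil => rfl
  | cons a l =>
    show elen (fun x y => len (f x) (f y)) (a :: (l ++ [a])) =
      elen len (f a :: (l.map f ++ [f a]))
    rw [elen_map]
    simp

theorem elen_join {V : Type u} (len : V → V → ℝ) (R : List V) : ∀ (t : List V) (a : V),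
    elen len (a :: (t ++ R)) = elen len (a :: t) + elen len (lcl a t :: R)
  | [], a => by
    show elen len (a :: R) = 0 + elen len (a :: R)
    rw [zero_add]
  | (b :: t), a => by
    show len a b + elen len (b :: (t ++ R)) = len a b + elen len (b :: t) + _
    rw [elen_join len R t b, lcl_cons, add_assoc]

theorem chain_join {V : Type u} {r : V → V → Prop} (R : List V) : ∀ (t : List V) (a : V),
    List.IsChain r (a :: t) → List.IsChain r (lcl a t :: R) → List.IsChain r (a :: (t ++ R))
  | [], _, _, h => h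
  | (b :: t), a, h, h' => by
    rw [lcl_cons] at h'
    rw [List.isChain_cons_cons] at h
    show List.IsChain r (a :: b :: (t ++ R))
    rw [List.isChain_cons_cons]
    exact ⟨h.1, chain_join R t b h.2 h'⟩

theorem elen_nonneg {V : Type u} {G : SimpleGraph V} {len : V → V → ℝ}
    (hp : ∀ a b, G.Adj a b → 0 < len a b) : ∀ l : List V, List.IsChain G.Adj l →
    0 ≤ elen len l
  | [], _ => le_rfl
  | [_], _ => le_rfl
  | (a :: b :: l), h => by
    rw [List.isChain_cons_cons] at h
    show 0 ≤ len a b + elen len (b :: l)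
    have h1 := hp a b h.1
    have h2 := elen_nonneg hp (b :: l) h.2
    linarith

theorem elen_pos {V : Type u} {G : SimpleGraph V} {len : V → V → ℝ}
    (hp : ∀ a b, G.Adj a b → 0 < len a b) (a b : V) (l : List V)
    (h : List.IsChain G.Adj (a :: b :: l)) : 0 < elen len (a :: b :: l) := by
  rw [List.isChain_cons_cons] at h
  show 0 < len a b + elen len (b :: l)
  have h1 := hp a b h.1
  have h2 := elen_nonneg hp (b :: l) h.2
  linarith

theorem elen_suffix {V : Type u} {G : SimpleGraph V} {len : V → V → ℝ}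
    (hp : ∀ a b, G.Adj a b → 0 < len a b) (Y : List V) : ∀ X : List V,
    List.IsChain G.Adj (X ++ Y) → elen len Y ≤ elen len (X ++ Y)
  | [], _ => le_rfl
  | (a :: X), h => by
    have h0 : List.IsChain G.Adj (a :: (X ++ Y)) := h
    show elen len Y ≤ elen len (a :: (X ++ Y))
    have h3 : List.IsChain G.Adj (X ++ Y) := h0.tail
    have h4 := elen_suffix hp Y X h3
    refine h4.trans ?_
    rcases hZ : X ++ Y with _ | ⟨b, l⟩
    · exact le_rfl
    · rw [hZ, List.isChain_cons_cons] at h0
      show elen len (b :: l) ≤ len a b + elen len (b :: l)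
      have := hp a b h0.1
      linarith

theorem chain_mem {V : Type u} {G : SimpleGraph V} {S : Set V} : ∀ (l : List V) (a : V),
    List.IsChain (resG G S).Adj (a :: l) → a ∈ S → ∀ x ∈ a :: l, x ∈ S
  | [], a, _, ha => by
    intro x hx
    rw [List.mem_singleton] at hx
    rw [hx]
    exact ha
  | (b :: l), a, h, ha => by
    rw [List.isChain_cons_cons] at h
    intro x hx
    rcases List.mem_cons.1 hx with h1 | h1
    · rw [h1]
      exact ha
    · exact chain_mem l b h.2 h.1.2.2 x h1

theorem chain_res {V : Type u} {G : SimpleGraph V} {S : Set V} : ∀ l : List V,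
    List.IsChain G.Adj l → (∀ x ∈ l, x ∈ S) → List.IsChain (resG G S).Adj l
  | [], _, _ => List.isChain_nil
  | [a], _, _ => List.isChain_singleton a
  | (a :: b :: l), h, hS => by
    rw [List.isChain_cons_cons] at h ⊢
    refine ⟨⟨h.1, hS a (by simp), hS b (by simp)⟩, chain_res (b :: l) h.2 ?_⟩
    intro x hx
    exact hS x (List.mem_cons_of_mem _ hx)

/-- the paths of a shortest path tree -/
theorem tree_path {E : ℕ → ℕ → Prop} {S : Set ℕ} {b : ℕ} {γ : ℕ → List ℕ} (h0 : γ b = [b])
    (hl : ∀ x ∈ S, (γ x).getLast? = some x)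
    (hs : ∀ x ∈ S, x ≠ b → ∃ y ∈ S, E y x ∧ γ x = γ y ++ [x]) :
    ∀ (n : ℕ) (x : ℕ), x ∈ S → (γ x).length = n →
      List.IsChain E (γ x) ∧ ∃ T, γ x = b :: T := by
  intro n
  induction n using Nat.strong_induction_on with
  | _ n ih =>
    intro x hx hn
    by_cases hxb : x = b
    · rw [hxb, h0]
      exact ⟨List.isChain_singleton _, [], rfl⟩
    · obtain ⟨y, hy, hE, hγ⟩ := hs x hx hxb
      have h1 : (γ y).length < n := by
        rw [← hn, hγ]
        simp
      obtain ⟨h2, T, hT⟩ := ih _ h1 y hy rfl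
      refine ⟨?_, T ++ [x], ?_⟩
      · rw [hγ, List.isChain_append]
        refine ⟨h2, List.isChain_singleton _, ?_⟩
        intro a ha c hc
        rw [hl y hy] at ha
        simp at ha hc
        rw [← ha, ← hc]
        exact hE
      · rw [hγ, hT]
        rfl

end SURJA

open SURJA

theorem tSURJA : T_SURJA.{u} := by
  intro hDEX hH2N hLARGE hTRIG hINV hFIN hDIST hGEOD hREAL hEUC hEQA hLMIN hLIRR hLGOOD hLAB
    hLFIN _ V _ G len hX hN v P hP hch hhead hlast
  have hAng : Angled G (angle len) := by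
    obtain ⟨h1, h2, h3⟩ := hTRIG G len hX.complex
    exact ⟨h1, h2, h3, hX.complex.link, hLARGE G len hX.complex hX.large h2⟩
  have hnull : ∀ w, CW G w → ∃ A, Null G A w := hH2N G hX.simplyConn
  have hsym := hX.complex.symm
  have hpos := hX.complex.pos
  by_contra hcon
  -- the path `P` is essential
  have hPess : ¬ Iness G v P := by
    rintro ⟨Q, ⟨hQ1, hQ2, hQ3⟩, hQ4⟩
    exact hcon ⟨Q, hQ1, chain_res Q hQ2 hQ3, hQ4⟩
  have hPD : DPath G v P := by
    refine ⟨hch.imp fun _ _ h => h.1, ?_, P.head hP, List.head?_eq_some_head hP, hhead⟩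
    obtain ⟨a, l, rfl⟩ := List.exists_cons_of_ne_nil hP
    have ha : a ≠ v := by
      intro h1
      simp only [List.head_cons] at hhead
      rw [h1] at hhead
      exact G.loopless.irrefl _ hhead
    exact chain_mem l a hch ha
  obtain ⟨A, t, s, hM⟩ := hLMIN G len hsym hpos hnull v
    ⟨P, hPD, ⟨P.getLast hP, List.getLast?_eq_some_getLast hP, hlast⟩, hPess⟩
  obtain ⟨h3, hMin, hIrr⟩ := hLIRR G len hsym hpos hnull v A t s hM
  obtain ⟨D, hD, hDv⟩ := hDEX G (angle len) hAng A _ h3 hMin hIrr
  obtain ⟨π, C, L, hPDL, hL1, -, hE⟩ := hREAL G (angle len) hAng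
    (fun w a b h1 h2 h4 => (hN w a b h1 h2 h4).trans_lt (by linarith [Real.pi_pos])) A D hD
  have hInv := hINV _ A C L hPDL
  have hEuc := hEUC G len hX.complex hN π C hE hInv.cyc hInv.TE
  rw [hDv] at hL1
  obtain ⟨b₀, M, hLM⟩ : ∃ b₀ M, L.map FC.v = b₀ :: M := by
    rcases L with _ | ⟨c, L'⟩
    · simp at hL1
    · exact ⟨c.v, L'.map FC.v, rfl⟩
  have hmap : (b₀ :: M).map π = lcl v t :: s := by
    rw [← hLM, List.map_map]
    exact hL1
  have hπb : π b₀ = lcl v t := by
    simp only [List.map_cons, List.cons.injEq] at hmap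
    exact hmap.1
  have hMs : M.map π = s := by
    simp only [List.map_cons, List.cons.injEq] at hmap
    exact hmap.2
  obtain ⟨hfin, hbS, -⟩ := hFIN _ A C L hPDL
  have hb₀S : b₀ ∈ C.S := by
    have h1 : b₀ ∈ L.map FC.v := by
      rw [hLM]
      exact List.mem_cons_self
    obtain ⟨c, hc, hc2⟩ := List.mem_map.1 h1
    rw [← hc2]
    exact hbS c hc
  -- the perimeter
  obtain ⟨per, hper⟩ : ∃ per, per = cyl len (lcl v t :: s) := ⟨_, rfl⟩
  have hs : s ≠ [] := hM.lol.1
  have hperpos : 0 < per := by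
    have h1 : CW G (lcl v t :: s) := hM.null.cw
    obtain ⟨x, s', hs'⟩ := List.exists_cons_of_ne_nil hs
    rw [hper, hs']
    rw [hs'] at h1
    exact elen_pos hpos _ _ _ h1
  have hcyl : cyl (fun x y => len (π x) (π y)) (L.map FC.v) = per := by
    rw [cyl_map, hLM, hmap, hper]
  obtain ⟨γ, hγ0, hγ1, hγ2, hγ3⟩ := hGEOD (fun x y => len (π x) (π y)) C.E C.S b₀
    ((1 / 2 + Real.sqrt 2 / 4) * per) hfin hb₀S
    (fun x y h => ⟨⟨y, h⟩, ⟨x, hInv.symm _ _ h⟩, hEuc.lpos x y h⟩)
    (fun x hx => by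
      obtain ⟨R, hR1, hR2, hR3, hR4⟩ := hDIST _ _ A C L hPDL hEuc x hx b₀
        (by rw [hLM]; exact List.mem_cons_self)
      rw [hcyl] at hR4
      exact ⟨R, hR1, hR2, hR3, hR4⟩)
  refine hM.ess (hLFIN G v t s hM.lol (hEQA G v) _ A π C L b₀ M γ
    (fun w x y => hEuc.asymm w x y) hPDL hE hLM hMs hπb hγ0 hγ3 ?_)
  intro x hx y hy hEyx hγx hπx
  obtain ⟨hL1', -, -, hL4, -⟩ := hLAB G v
  obtain ⟨hcy, T, hT⟩ := tree_path hγ0 hγ1 hγ3 _ y hy rfl
  have htail : (γ y).tail = T := by rw [hT]; rfl
  rw [htail]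
  -- the walk
  have hvt : List.IsChain G.Adj (v :: t) := by
    have h1 : List.IsChain G.Adj ((v :: t) ++ (s ++ (t.reverse ++ [v]))) := hM.lol.2.1
    exact (List.isChain_append.1 h1).1
  have hcT : List.IsChain G.Adj (lcl v t :: T.map π) := by
    have h1 : List.IsChain G.Adj ((γ y).map π) := by
      rw [List.isChain_map]
      exact hcy.imp fun a b h => hE a b h
    rw [hT, List.map_cons, hπb] at h1
    exact h1
  have hcx : List.IsChain G.Adj (lcl v t :: (T.map π ++ [v])) := by
    have h1 : List.IsChain G.Adj ((γ x).map π) := by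
      rw [List.isChain_map]
      exact (tree_path hγ0 hγ1 hγ3 _ x hx rfl).1.imp fun a b h => hE a b h
    rw [hγx, hT, List.map_append, List.map_cons, hπb, List.map_cons, List.map_nil, hπx] at h1
    exact h1
  have hΓ : List.IsChain G.Adj (v :: (t ++ T.map π)) := chain_join _ t v hvt hcT
  have hΓv : List.IsChain G.Adj (v :: (t ++ (T.map π ++ [v]))) := chain_join _ t v hvt hcx
  have hadj : G.Adj (π y) v := by
    have := hE y x hEyx
    rwa [hπx] at this
  have hyv : π y ≠ v := hadj.ne
  have hlastT : (lcl v t :: T.map π).getLast? = some (π y) := by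
    have h1 : ((γ y).map π).getLast? = some (π y) := by
      rw [List.getLast?_map, hγ1 y hy]
      rfl
    rw [hT, List.map_cons, hπb] at h1
    exact h1
  have hlast' : (v :: (t ++ T.map π)).getLast? = some (π y) := by
    rcases hTm : T.map π with _ | ⟨a, T'⟩
    · rw [hTm] at hlastT
      simp only [List.getLast?_singleton] at hlastT
      rw [List.append_nil, ← hlastT]
      show (v :: t).getLast? = some ((v :: t).getLast _)
      exact List.getLast?_eq_some_getLast _
    · rw [hTm] at hlastT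
      have h1 : v :: (t ++ a :: T') = (v :: t) ++ (a :: T') := rfl
      rw [h1, List.getLast?_append_of_ne_nil _ (by simp)]
      rw [List.getLast?_cons_cons] at hlastT
      exact hlastT
  obtain ⟨hQD, hQl⟩ := hL1' (t ++ T.map π) (π y) hΓ hlast' hyv
  obtain ⟨X, hXX⟩ := hL4 (t ++ T.map π)
  obtain ⟨Q, hQ⟩ : ∃ Q, Q = lab v (v :: (t ++ T.map π)) := ⟨_, rfl⟩
  rw [← hQ] at hQD hQl hXX ⊢
  have hQne : Q ≠ [] := by
    intro h1
    rw [h1] at hQl
    simp at hQl
  have hΓ2 : v :: (t ++ (T.map π ++ [v])) = X ++ (v :: (Q ++ [v])) := by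
    have h1 : v :: (t ++ (T.map π ++ [v])) = (v :: (t ++ T.map π)) ++ [v] := by simp
    rw [h1, hXX]
    simp
  have hch2 : List.IsChain G.Adj (X ++ (v :: (Q ++ [v]))) := hΓ2 ▸ hΓv
  have hch3 : List.IsChain G.Adj (v :: (Q ++ [v])) := (List.isChain_append.1 hch2).2.1
  refine hLGOOD G len hnull v A t s hM Q hQne hch3 hQD.2.1 ?_
  have e1 := elen_suffix hpos _ X hch2
  rw [← hΓ2, elen_join len (T.map π ++ [v]) t v] at e1
  have e2 : elen len (lcl v t :: (T.map π ++ [v])) = elen (fun x y => len (π x) (π y)) (γ x) := by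
    rw [elen_map, hγx, hT, List.map_append, List.map_cons, hπb, List.map_cons, List.map_nil,
      hπx]
    rfl
  have e3 := hγ2 x hx
  have e4 := elen_nonneg hpos _ hvt
  have e5 : (1 / 2 + Real.sqrt 2 / 4) * per < per := by
    have h1 : Real.sqrt 2 < 2 := by
      rw [Real.sqrt_lt' (by norm_num)]
      norm_num
    nlinarith
  show elen len (v :: (Q ++ [v])) < 2 * elen len (v :: t) + cyl len (lcl v t :: s)
  rw [← hper]
  linarith

end Pool.Agent.MSN
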