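import Pool.Agent.MSN.Targets

/-! MSN-TREE: consistency (helper99). -/

set_option autoImplicit false

namespace Pool.Agent.MSN

open List Pool.Agent.MSF

universe u

namespace TREE

variable {N : Type u}

lemma pd_rotate {ang : N → N → N → ℝ} {A : ℕ} {C : Cx N} {L : List (FC N)}
    (h : PD ang A C L) (n : ℕ) : PD ang A C (L.rotate n) := by
  induction n with
  | zero => simpa using h
  | succ n ih =>
    rw [← List.rotate_rotate]
    cases hL : L.rotate n with
    | nil => rw [hL] at ih; simpa using ih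
    | cons c l =>
      rw [hL] at ih
      simpa using PD.rot ih

lemma bd_split {L : List (FC N)} {x y : N} (h : Bd L x y) :
    ∃ (n : ℕ) (Px Py : List N) (L' : List (FC N)), L.rotate n = ⟨x, Px⟩ :: ⟨y, Py⟩ :: L' := by
  obtain ⟨l, n, hn⟩ := h
  rw [← List.map_rotate] at hn
  refine ⟨n, ?_⟩
  rcases hL : L.rotate n with _ | ⟨⟨v, P⟩, _ | ⟨⟨v', P'⟩, L'⟩⟩
  · rw [hL] at hn; simp at hn
  · rw [hL] at hn; simp at hn
  · rw [hL] at hn
    simp only [List.map_cons, List.cons.injEq] at hn
    obtain ⟨rfl, rfl, -⟩ := hn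
    exact ⟨P, P', L', rfl⟩

/-- the consistent edges -/
def R (C : Cx N) (K : N → N → Prop) (x y : N) : Prop := C.E x y ∧ K x y

lemma retract {C C₁ : Cx N} {K : N → N → Prop} {z : N}
    (h : ∀ x y, C.E x y → K x y → C₁.E x y ∨ ((x ∈ C₁.S → x = z) ∧ (y ∈ C₁.S → y = z)))
    (hs : ∀ x y, C₁.E x y → C₁.E y x) {u w : N} (hu : u ∈ C₁.S) (hw : w ∈ C₁.S)
    (huw : Relation.ReflTransGen (R C K) u w) : Relation.ReflTransGen (R C₁ K) u w := by
  classical
  set f : N → N := fun x => if x ∈ C₁.S then x else z with hf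
  have h1 : ∀ a b, R C K a b → Relation.ReflTransGen (R C₁ K) (f a) (f b) := by
    intro a b hab
    rcases h a b hab.1 hab.2 with h2 | ⟨h2, h3⟩
    · have ha : a ∈ C₁.S := ⟨b, h2⟩
      have hb : b ∈ C₁.S := ⟨a, hs _ _ h2⟩
      simp only [hf, if_pos ha, if_pos hb]
      exact Relation.ReflTransGen.single ⟨h2, hab.2⟩
    · have ha : f a = z := by
        simp only [hf]
        split_ifs with h4
        · exact h2 h4
        · rfl
      have hb : f b = z := by
        simp only [hf]
        split_ifs with h4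
        · exact h3 h4
        · rfl
      rw [ha, hb]
  have h2 : Relation.ReflTransGen (R C₁ K) (f u) (f w) :=
    Relation.ReflTransGen.lift' f h1 u w huw
  simpa only [hf, if_pos hu, if_pos hw] using h2

lemma main (h1 : T_INV.{u}) (h2 : T_RR.{u}) (ang : N → N → N → ℝ)
    (hang : ∀ v x y, ang v x y = ang v y x) (K : N → N → Prop) (hK : ∀ x y, K x y → K y x) :
    ∀ (A : ℕ) (C : Cx N) (L : List (FC N)), PD ang A C L →
      (∀ x y z, C.T x y z → K x y → K y z → K x z) →
      (∀ x ∈ C.S, ∀ y ∈ C.S, Relation.ReflTransGen (R C K) x y) →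
      ∀ x y, Bd L x y → K x y := by
  intro A
  induction A using Nat.strong_induction_on with
  | _ A ih =>
    intro C L hP hT hc x y hxy
    have hInv := h1 ang A C L hP
    by_contra hne
    have hE := hInv.bdE x y hxy
    have hxS : x ∈ C.S := ⟨y, hE⟩
    have hyS : y ∈ C.S := ⟨x, hInv.symm _ _ hE⟩
    have hxy' : x ≠ y := by
      rintro rfl
      exact hInv.irr _ hE
    obtain ⟨n, Px, Py, L', hn⟩ := bd_split hxy
    have hP' := pd_rotate hP n
    rw [hn] at hP'
    have hne' : ¬ K y x := fun h => hne (hK _ _ h)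
    have hcyc := hInv.cyc
    cases h2 ang hang A C x Px y Py L' hP' with
    | digon hA hC hPa hPb hL =>
      rcases Relation.ReflTransGen.cases_head (hc x hxS y hyS) with h | ⟨w, hw, -⟩
      · exact hxy' h
      · have hw1 := hw.1
        rw [hC] at hw1
        rcases hw1 with ⟨-, h⟩ | ⟨h, -⟩
        · rw [h] at hw
          exact hne hw.2
        · exact hxy' h
    | inner A' C' z Pa' Pz Pb' hA hC hPa hPb h hab hz =>
      have hInv' := h1 ang A' C' _ h
      have hsub : ∀ u w, C'.E u w → C.E u w := by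
        intro u w huw
        rw [hC]
        exact Or.inl huw
      have hE' : ∀ u w, C.E u w → K u w → C'.E u w := by
        intro u w huw hk
        rw [hC] at huw
        rcases huw with h | ⟨rfl, rfl⟩ | ⟨rfl, rfl⟩
        · exact h
        · exact absurd hk hne
        · exact absurd hk hne'
      have hIH := ih A' (by omega) C' _ h
        (fun u v w huvw => hT u v w (by rw [hC]; exact Or.inl huvw))
        (fun u hu w hw => by
          obtain ⟨u', hu'⟩ := hu
          obtain ⟨w', hw'⟩ := hw
          have hle : R C K ≤ R C' K := fun a b hab => ⟨hE' _ _ hab.1 hab.2, hab.2⟩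
          exact Relation.ReflTransGen.mono hle u w
            (hc u ⟨u', hsub _ _ hu'⟩ w ⟨w', hsub _ _ hw'⟩))
      have hxz : K x z := hIH x z ⟨_, List.IsRotated.refl _⟩
      have hzy : K z y := hIH z y ⟨_, by
        simp only [List.map_cons]
        exact List.isRotated_append (l := [x])⟩
      have ht : C.T x y z := by
        rw [hC]
        exact Or.inr (Or.inl ⟨rfl, rfl, rfl⟩)
      exact hne' (hT y z x (hcyc _ _ _ ht) (hK _ _ hzy) (hK _ _ hxz))
    | both A₁ A₂ C₁ C₂ z Pa' Pz Qz Pb' L₁ L₂ hA hC hPa hPb hL h₁ h₂ hd =>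
      have hInv₁ := h1 ang A₁ C₁ _ h₁
      have hInv₂ := h1 ang A₂ C₂ _ h₂
      have hsub₁ : ∀ u w, C₁.E u w → C.E u w := by
        intro u w huw
        rw [hC]
        exact Or.inl (Or.inl huw)
      have hsub₂ : ∀ u w, C₂.E u w → C.E u w := by
        intro u w huw
        rw [hC]
        exact Or.inl (Or.inr huw)
      have hE' : ∀ u w, C.E u w → K u w → C₁.E u w ∨ C₂.E u w := by
        intro u w huw hk
        rw [hC] at huw
        rcases huw with h | ⟨rfl, rfl⟩ | ⟨rfl, rfl⟩
        · exact h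
        · exact absurd hk hne
        · exact absurd hk hne'
      have hIH₁ := ih A₁ (by omega) C₁ _ h₁
        (fun u v w huvw => hT u v w (by rw [hC]; exact Or.inl (Or.inl huvw)))
        (fun u hu w hw => by
          refine retract (z := z) ?_ hInv₁.symm hu hw
            (hc u (hu.imp fun _ => hsub₁ _ _) w (hw.imp fun _ => hsub₁ _ _))
          intro a b hab hk
          rcases hE' a b hab hk with h | h
          · exact Or.inl h
          · exact Or.inr ⟨fun ha => hd a ha ⟨b, h⟩, fun hb => hd b hb ⟨a, hInv₂.symm _ _ h⟩⟩)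
      have hIH₂ := ih A₂ (by omega) C₂ _ h₂
        (fun u v w huvw => hT u v w (by rw [hC]; exact Or.inl (Or.inr huvw)))
        (fun u hu w hw => by
          refine retract (z := z) ?_ hInv₂.symm hu hw
            (hc u (hu.imp fun _ => hsub₂ _ _) w (hw.imp fun _ => hsub₂ _ _))
          intro a b hab hk
          rcases hE' a b hab hk with h | h
          · exact Or.inr ⟨fun ha => hd a ⟨b, h⟩ ha, fun hb => hd b ⟨a, hInv₁.symm _ _ h⟩ hb⟩
          · exact Or.inl h)
      have hzy : K z y := hIH₁ z y ⟨_, List.IsRotated.refl _⟩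
      have hxz : K x z := hIH₂ x z ⟨L₂.map FC.v, by
        simp only [List.map_cons, List.map_append, List.map_nil]
        exact List.isRotated_append (l := z :: L₂.map FC.v) (l' := [x])⟩
      have ht : C.T x y z := by
        rw [hC]
        exact Or.inr (Or.inl ⟨rfl, rfl, rfl⟩)
      exact hne' (hT y z x (hcyc _ _ _ ht) (hK _ _ hzy) (hK _ _ hxz))

end TREE

theorem tTREE (h1 : T_INV.{u}) (h2 : T_RR.{u}) : T_TREE.{u} := by
  intro N ang hang A C L hP K hK hT r hr hc
  have hInv := h1 ang A C L hP
  have hsymm : Std.Symm (TREE.R C K) := ⟨fun x y h => ⟨hInv.symm _ _ h.1, hK _ _ h.2⟩⟩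
  refine TREE.main h1 h2 ang hang K hK A C L hP hT ?_
  intro x hx y hy
  have h3 : Relation.ReflTransGen (TREE.R C K) x r :=
    Relation.ReflTransGen.stdSymm.symm _ _ (hc x hx)
  exact h3.trans (hc y hy)

end Pool.Agent.MSN
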