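import Pool.Agent.MSN.Targets

/-!
# UNI: a simple closed walk in the union of two graphs
-/

set_option autoImplicit false

namespace Pool.Agent.MSN

open List

universe u

namespace UNI

variable {N : Type u}

theorem first_edge {E : N → N → Prop} (a : N) (l : List N) (b : N)
    (h : List.IsChain E (a :: (l ++ [b]))) : ∃ d, E a d := by
  cases l with
  | nil => exact ⟨b, by simpa using h⟩
  | cons c l =>
    rw [List.cons_append, List.isChain_cons_cons] at h
    exact ⟨c, h.1⟩

theorem last_edge {E : N → N → Prop} (l : List N) :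
    ∀ (a b : N), List.IsChain E (a :: (l ++ [b])) → ∃ d, E d b := by
  induction l with
  | nil =>
    intro a b h
    exact ⟨a, by simpa using h⟩
  | cons c l ih =>
    intro a b h
    rw [List.cons_append, List.isChain_cons_cons] at h
    exact ih c b h.2

theorem path {E₁ E₂ : N → N → Prop} {z : N} (h1 : ∀ x y, E₁ x y → E₁ y x)
    (h2 : ∀ x y, E₂ x y → E₂ y x) (hz : ∀ x y y', E₁ x y → E₂ x y' → x = z) (l : List N) :
    ∀ (a b : N), (∀ x ∈ l, x ≠ z) →
      List.IsChain (fun x y => E₁ x y ∨ E₂ x y) (a :: (l ++ [b])) →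
      List.IsChain E₁ (a :: (l ++ [b])) ∨ List.IsChain E₂ (a :: (l ++ [b])) := by
  induction l with
  | nil =>
    intro a b _ h
    have h' : E₁ a b ∨ E₂ a b := by simpa using h
    rcases h' with h' | h'
    · left
      simpa using h'
    · right
      simpa using h'
  | cons c l ih =>
    intro a b hl h
    rw [List.cons_append, List.isChain_cons_cons] at h
    have hc : c ≠ z := hl c (by simp)
    rcases ih c b (fun x hx => hl x (by simp [hx])) h.2 with h3 | h3
    · obtain ⟨d, hd⟩ := first_edge c l b h3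
      left
      rw [List.cons_append, List.isChain_cons_cons]
      refine ⟨?_, h3⟩
      rcases h.1 with h4 | h4
      · exact h4
      · exact absurd (hz c d a hd (h2 a c h4)) hc
    · obtain ⟨d, hd⟩ := first_edge c l b h3
      right
      rw [List.cons_append, List.isChain_cons_cons]
      refine ⟨?_, h3⟩
      rcases h.1 with h4 | h4
      · exact absurd (hz c a d (h1 a c h4) hd) hc
      · exact h4

end UNI

theorem tUNI : T_UNI.{u} := by
  intro N E₁ E₂ z h1 h2 hz a l hnd hch
  by_cases hzl : z ∈ l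
  · obtain ⟨l₁, l₂, rfl⟩ := List.append_of_mem hzl
    have ha : a ≠ z := by
      rintro rfl
      exact (List.nodup_cons.mp hnd).1 hzl
    have hnd2 := (List.nodup_cons.mp hnd).2
    have hl1 : ∀ x ∈ l₁, x ≠ z := by
      rintro x hx rfl
      exact (List.nodup_append.mp hnd2).2.2 x hx x (by simp) rfl
    have hl2 : ∀ x ∈ l₂, x ≠ z := by
      rintro x hx rfl
      exact (List.nodup_cons.mp (List.nodup_append.mp hnd2).2.1).1 hx
    have e : a :: ((l₁ ++ z :: l₂) ++ [a]) = (a :: l₁) ++ z :: (l₂ ++ [a]) := by simp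
    rw [e, List.isChain_split] at hch
    have e1 : (a :: l₁) ++ [z] = a :: (l₁ ++ [z]) := rfl
    rw [e1] at hch
    have hs : ∀ E : N → N → Prop, List.IsChain E (a :: (l₁ ++ [z])) →
        List.IsChain E (z :: (l₂ ++ [a])) → List.IsChain E (a :: ((l₁ ++ z :: l₂) ++ [a])) := by
      intro E h3 h4
      rw [e, List.isChain_split, e1]
      exact ⟨h3, h4⟩
    rcases UNI.path h1 h2 hz l₁ a z hl1 hch.1 with h3 | h3 <;>
      rcases UNI.path h1 h2 hz l₂ z a hl2 hch.2 with h4 | h4
    · exact Or.inl (hs _ h3 h4)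
    · obtain ⟨d, hd⟩ := UNI.first_edge a l₁ z h3
      obtain ⟨d', hd'⟩ := UNI.last_edge l₂ z a h4
      exact absurd (hz a d d' hd (h2 d' a hd')) ha
    · obtain ⟨d, hd⟩ := UNI.first_edge a l₁ z h3
      obtain ⟨d', hd'⟩ := UNI.last_edge l₂ z a h4
      exact absurd (hz a d' d (h1 d' a hd') hd) ha
    · exact Or.inr (hs _ h3 h4)
  · exact UNI.path h1 h2 hz l a a (fun x hx hxz => hzl (hxz ▸ hx)) hch

end Pool.Agent.MSN
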