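import Pool.Agent.MSN.WDefs

/-! WA3: the first triangle of a minimal irreducible closed walk, with values. -/

namespace Pool.Agent.MSN

open List Pool.Agent.MSF

universe u

namespace WA3

variable {V : Type u} {G : SimpleGraph V} {ω : V → V → V → ZMod 2}

theorem rot1 (hB : WBas G ω) {m : ℕ} {a : V} {l : List V} {t : ZMod 2}
    (h : NullW G ω m (l ++ [a]) t) : NullW G ω m (a :: l) t := by
  refine hB.rotated m _ _ t h ?_
  have := List.isRotated_append (l := l) (l' := [a])
  simpa using this

end WA3

theorem tWA3 (h0 : T_WBAS.{u}) (h : T_WPEEL.{u}) : T_WA3.{u} := by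
  intro V G ω hω A a b l x hl hmin hirr
  have hB := h0 G ω hω
  have hcw := (hB.forget _ _ _ hmin.1).cw
  have hab : G.Adj a b := by
    simp only [CW, List.isChain_cons_cons] at hcw
    exact hcw.1
  have hrot : (a :: b :: l) ~r (b :: (l ++ [a])) := by
    have := List.isRotated_append (l := [a]) (l' := b :: l)
    simpa using this
  rcases h G ω hω A _ x hmin.1 b a l hrot with
    ⟨z, m', x', hm', -, haz, hzb, hx, hN⟩ | ⟨P, Q, m₁, m₂, x₁, x₂, hPQ, h1, h2, hmm, hx⟩
  · have h3 : NullW G ω m' (a :: z :: b :: l) x' := by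
      have : NullW G ω m' ((z :: b :: l) ++ [a]) x' := by simpa using hN
      exact WA3.rot1 hB this
    have hxx : x + ω a b z = x' := by
      rw [hx, add_assoc, CharTwo.add_self_eq_zero, add_zero]
    have h4 : A ≤ m' + 1 := by
      refine hmin.2 _ ?_
      rw [hx]
      exact NullW.tri hab haz hzb h3
    refine ⟨z, m', by omega, hab, haz, hzb, ?_, fun k hk => ?_⟩
    · rw [hxx]
      exact h3
    · rw [hxx] at hk
      have h5 : A ≤ k + 1 := by
        refine hmin.2 _ ?_
        rw [hx]
        exact NullW.tri hab haz hzb hk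
      omega
  · exfalso
    rcases h1 with ⟨⟨x0, rfl⟩, hx1⟩ | ⟨x0, r₁, hr₁, rfl, hN1⟩
    · simp only [List.cons_append, List.nil_append, List.cons.injEq] at hPQ
      obtain ⟨rfl, hPQ⟩ := hPQ
      rcases h2 with ⟨⟨y, rfl⟩, -⟩ | ⟨y, r₂, hr₂, rfl, hN2⟩
      · have := congrArg List.length hPQ
        simp at this
        exact hl this
      · have h3 : l ++ [a] = (y :: r₂) ++ [y] := by rw [hPQ]; simp
        have h4 := List.append_inj' h3 (by simp)
        obtain ⟨rfl, h5⟩ := h4
        simp only [List.cons.injEq, and_true] at h5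
        subst h5
        have h6 := hirr a [b] r₂ 0 m₂ 0 x₂ (List.IsRotated.refl _) (by simp) hr₂ (NullW.dig hab)
          hN2 (by rw [hx, hx1])
        omega
    · simp only [List.cons_append, List.cons.injEq] at hPQ
      obtain ⟨rfl, hPQ⟩ := hPQ
      rcases h2 with ⟨⟨y, rfl⟩, hx2⟩ | ⟨y, r₂, hr₂, rfl, hN2⟩
      · have h4 := List.append_inj' hPQ (by simp)
        obtain ⟨rfl, h5⟩ := h4
        simp only [List.cons.injEq, and_true] at h5
        subst h5
        have hr : (a :: b :: (r₁ ++ [b])) ~r (b :: (r₁ ++ b :: [a])) := by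
          have := List.isRotated_append (l := [a]) (l' := b :: (r₁ ++ [b]))
          simpa using this
        have h6 := hirr b r₁ [a] m₁ 0 x₁ 0 hr hr₁ (by simp) hN1 (NullW.dig hab.symm)
          (by rw [hx, hx2])
        omega
      · have h3 : l ++ [a] = ((r₁ ++ [b]) ++ (y :: r₂)) ++ [y] := by rw [hPQ]; simp
        have h4 := List.append_inj' h3 (by simp)
        obtain ⟨rfl, h5⟩ := h4
        simp only [List.cons.injEq, and_true] at h5
        subst h5
        have hr : (a :: b :: ((r₁ ++ [b]) ++ (a :: r₂))) ~r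
            (b :: (r₁ ++ b :: (a :: (r₂ ++ [a])))) := by
          have := List.isRotated_append (l := [a]) (l' := b :: ((r₁ ++ [b]) ++ (a :: r₂)))
          simpa using this
        have h7 : NullW G ω m₂ (b :: a :: (r₂ ++ [a])) x₂ := by
          have := hB.loop 0 m₂ a [b] [] r₂ 0 x₂ (NullW.dig hab.symm) hr₂ hN2 (by simp)
          simpa using this
        have h6 := hirr b r₁ (a :: (r₂ ++ [a])) m₁ m₂ x₁ x₂ hr hr₁ (by simp) hN1 h7 hx.symm
        omega

end Pool.Agent.MSN
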