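import Pool.Agent.MSN.WDefs
import Pool.Agent.MSF.ANGZ

/-! WANGZ: the new interior vertex has total angle at least `2π` (with values). -/

namespace Pool.Agent.MSN

open List Pool.Agent.MSF

universe u

namespace WANGZ

variable {V : Type*}

lemma fval_snoc (ω : V → V → V → ZMod 2) (v : V) : ∀ (X : List V) (b a : V),
    fval ω v (X ++ [b, a]) = fval ω v (X ++ [b]) + ω v b a := by
  intro X
  induction X with
  | nil => intro b a; simp [fval]
  | cons x X ih =>
    intro b a
    cases X with
    | nil => simp [fval]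
    | cons y X =>
      have := ih b a
      simp only [List.cons_append] at this ⊢
      rw [fval, fval, this]
      ring

lemma cval_eq (ω : V → V → V → ZMod 2) (v a b : V) (F : List V) :
    cval ω v (a :: (F ++ [b])) = fval ω v (a :: (F ++ [b])) + ω v b a := by
  have := fval_snoc ω v (a :: F) b a
  simp only [List.cons_append] at this
  simp only [cval, List.append_assoc, List.cons_append, List.nil_append]
  exact this

end WANGZ

open WANGZ

theorem tWANGZ (h0 : T_WBAS.{u}) (h1 : Pool.Agent.MSF.T_DISC1.{u}) (h2 : T_WFOR.{u})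
    (h3 : T_WEXP.{u}) (h4 : T_WFILL.{u}) (h5 : T_WGLUE.{u}) : T_WANGZ.{u} := by
  intro V G ang ω hA hS hC N hN k a b z x y Fa Fz Fb ta tz tb D t hk hab haz hzb hmin hD
  by_contra hlt
  push Not at hlt
  obtain ⟨-, -, hok⟩ := h1 G ang hA k _ (h2 G ang ω k _ t hD)
  have hc := hok ⟨a, z, b, Fz, tz⟩ (by simp)
  have hchain : List.IsChain G.Adj (a :: (Fz ++ [b])) := hc.chain
  have hlink : ∀ x ∈ a :: (Fz ++ [b]), G.Adj z x := hc.link
  have hlen : tz = plen ang z (a :: (Fz ++ [b])) := hc.len
  -- the closed walk in the link of `z`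
  have hcw : CW G (a :: (Fz ++ [b])) := by
    rw [CW_cons (by simp)]
    have : a :: ((Fz ++ [b]) ++ [a]) = (a :: (Fz ++ [b])) ++ [a] := by simp
    rw [this, List.isChain_append]
    refine ⟨hchain, by simp, ?_⟩
    intro u hu v hv
    have hu' : u = b := by
      rw [← List.cons_append, List.getLast?_append] at hu
      simp at hu
      exact hu.symm
    have hv' : v = a := by simpa using hv.symm
    rw [hu', hv']
    exact hab.symm
  have hfill := h4 G ang ω hA hS hC z (a :: (Fz ++ [b])) (by simp) hcw hlink (by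
    rw [ANGZ.clen_eq, ← hlen]; exact hlt)
  have hl : (a :: (Fz ++ [b])).length - 2 = Fz.length := by simp
  rw [hl, cval_eq] at hfill
  -- the expansion
  obtain ⟨k', hk', hk'2⟩ := (h3 G ang ω hA hS k _ t hD).2 [⟨x, a, z, Fa, ta⟩]
    (⟨z, b, y, Fb, tb⟩ :: D) ⟨a, z, b, Fz, tz⟩ rfl
  have hk'' : NullW G ω k' (a :: (Fz ++ b :: D.map Corner.v))
      (t + fval ω z (a :: (Fz ++ [b]))) := by simpa using hk'
  have hcost : k' + Fz.length + 1 ≤ k := hk'2
  have hrev : NullW G ω Fz.length (a :: ([] ++ b :: Fz.reverse))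
      (fval ω z (a :: (Fz ++ [b])) + ω z b a) := by
    have h6 := (h0 G ω hS).reverse _ _ _ hfill
    refine (h0 G ω hS).rotated _ _ _ _ h6 ?_
    have h7 : (a :: (Fz ++ [b])).reverse = (b :: Fz.reverse) ++ [a] := by simp
    rw [h7]
    have h8 : (a :: ([] ++ b :: Fz.reverse)) = [a] ++ (b :: Fz.reverse) := by simp
    rw [h8]
    exact List.isRotated_append
  have hglue := h5 G ω hS N hN k' Fz.length a b [] Fz (D.map Corner.v) _ _ (by omega) hk'' hrev
  have hval : t + fval ω z (a :: (Fz ++ [b])) + (fval ω z (a :: (Fz ++ [b])) + ω z b a) =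
      t + ω a b z := by
    have e1 : ω z b a = ω a b z := by
      rw [hS.s12 z b a, hS.s23 b z a, hS.s12 b a z]
    have e2 : fval ω z (a :: (Fz ++ [b])) + fval ω z (a :: (Fz ++ [b])) = 0 :=
      CharTwo.add_self_eq_zero _
    rw [e1]
    linear_combination e2
  rw [hval] at hglue
  have := hmin.2 (k' + Fz.length) (by simpa using hglue)
  omega

end Pool.Agent.MSN
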