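import Pool.Agent.MSN.WDefs

/-!
# MSN, target WBAS: basic facts on fillings with values
-/

namespace Pool.Agent.MSN

open List Pool.Agent.MSF

universe u

namespace WBAS

variable {V : Type u} {G : SimpleGraph V} {ω : V → V → V → ZMod 2}

theorem forget {m : ℕ} {w : List V} {t : ZMod 2} (h : NullW G ω m w t) : Null G m w := by
  induction h with
  | pt a => exact Null.pt a
  | dig h => exact Null.dig h
  | rot _ ih => exact ih.rot
  | tri hab haz hzb _ ih => exact Null.tri hab haz hzb ih
  | split hl hl' _ _ ih ih' => exact Null.split hl hl' ih ih'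
  | weak _ ih => exact ih.weak

theorem ex {m : ℕ} {w : List V} (h : Null G m w) : ∃ t, NullW G ω m w t := by
  induction h with
  | pt a => exact ⟨_, NullW.pt a⟩
  | dig h => exact ⟨_, NullW.dig h⟩
  | rot _ ih =>
    obtain ⟨t, ht⟩ := ih
    exact ⟨t, ht.rot⟩
  | tri hab haz hzb _ ih =>
    obtain ⟨t, ht⟩ := ih
    exact ⟨_, NullW.tri hab haz hzb ht⟩
  | split hl hl' _ _ ih ih' =>
    obtain ⟨t, ht⟩ := ih
    obtain ⟨t', ht'⟩ := ih'
    exact ⟨_, NullW.split hl hl' ht ht'⟩
  | weak _ ih =>
    obtain ⟨t, ht⟩ := ih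
    exact ⟨t, ht.weak⟩

theorem rotate {m : ℕ} {w : List V} {t : ZMod 2} (h : NullW G ω m w t) (n : ℕ) :
    NullW G ω m (w.rotate n) t := by
  induction n with
  | zero => simpa using h
  | succ n ih =>
    rw [← List.rotate_rotate]
    cases hw : w.rotate n with
    | nil => exact absurd hw (forget ih).ne_nil
    | cons a l =>
      rw [hw] at ih
      simpa [List.rotate_cons_succ] using ih.rot

theorem rotated {m : ℕ} {w w' : List V} {t : ZMod 2} (h : NullW G ω m w t) (hr : w ~r w') :
    NullW G ω m w' t := by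
  obtain ⟨n, rfl⟩ := hr
  exact rotate h n

theorem swap {m : ℕ} {X Y : List V} {t : ZMod 2} (h : NullW G ω m (X ++ Y) t) :
    NullW G ω m (Y ++ X) t :=
  rotated h List.isRotated_append

theorem mono {m n : ℕ} {w : List V} {t : ZMod 2} (h : NullW G ω m w t) (hmn : m ≤ n) :
    NullW G ω n w t := by
  induction hmn with
  | refl => exact h
  | step _ ih => exact ih.weak

theorem loop {m n : ℕ} {a : V} {X Y L : List V} {x y : ZMod 2}
    (h : NullW G ω m (X ++ a :: Y) x) (h' : NullW G ω n (a :: L) y) (hXY : Y ++ X ≠ [])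
    (hL : L ≠ []) : NullW G ω (m + n) (X ++ a :: (L ++ a :: Y)) (x + y) := by
  have h1 : NullW G ω m (a :: (Y ++ X)) x := by simpa using swap h
  have h2 : NullW G ω (n + m) (a :: (L ++ a :: (Y ++ X))) (y + x) :=
    NullW.split hL hXY h' h1
  rw [Nat.add_comm, add_comm x y]
  have h3 : NullW G ω (n + m) ((a :: (L ++ a :: Y)) ++ X) (y + x) := by simpa using h2
  exact swap h3

theorem spur {m : ℕ} {a b : V} {X Y : List V} {x : ZMod 2} (h : NullW G ω m (X ++ a :: Y) x)
    (hXY : Y ++ X ≠ []) (hab : G.Adj a b) : NullW G ω m (X ++ a :: b :: a :: Y) x := by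
  have := loop (L := [b]) h (NullW.dig hab) hXY (by simp)
  simpa using this

theorem triAt {m : ℕ} {a b z : V} {X Y : List V} {x : ZMod 2}
    (h : NullW G ω m (X ++ a :: z :: b :: Y) x)
    (hab : G.Adj a b) (haz : G.Adj a z) (hzb : G.Adj z b) :
    NullW G ω (m + 1) (X ++ a :: b :: Y) (x + ω a b z) := by
  have h1 : NullW G ω m (a :: z :: b :: (Y ++ X)) x := by simpa using swap h
  have h2 : NullW G ω (m + 1) ((a :: b :: Y) ++ X) (x + ω a b z) := by
    simpa using NullW.tri hab haz hzb h1
  exact swap h2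

theorem push {m : ℕ} {a b z : V} {X Y : List V} {x : ZMod 2} (hs : Sym3 ω)
    (h : NullW G ω m (X ++ a :: b :: Y) x)
    (hab : G.Adj a b) (haz : G.Adj a z) (hzb : G.Adj z b) :
    NullW G ω (m + 1) (X ++ a :: z :: b :: Y) (x + ω a b z) := by
  have h1 : NullW G ω m ((X ++ [a]) ++ b :: Y) x := by simpa using h
  have h2 : NullW G ω m ((X ++ [a]) ++ b :: z :: b :: Y) x := spur h1 (by simp) hzb.symm
  have h3 : NullW G ω m (X ++ a :: b :: z :: b :: Y) x := by simpa using h2
  have h4 := triAt h3 haz hab hzb.symm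
  rwa [← hs.s23 a b z] at h4

theorem reverse (hs : Sym3 ω) {m : ℕ} {w : List V} {t : ZMod 2} (h : NullW G ω m w t) :
    NullW G ω m w.reverse t := by
  induction h with
  | pt a => simpa using NullW.pt a
  | dig h => simpa using NullW.dig h.symm
  | @rot m a l t _ ih =>
    have : NullW G ω m (l.reverse ++ [a]) t := by simpa using ih
    simpa using swap this
  | @tri m a b z l t hab haz hzb _ ih =>
    have : NullW G ω m (l.reverse ++ b :: z :: a :: []) t := by simpa using ih
    have := triAt this hab.symm hzb.symm haz.symm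
    rw [hs.s12 a b z]
    simpa using this
  | @split m n a l l' t t' hl hl' _ _ ih ih' =>
    have h1 : NullW G ω m (a :: l.reverse) t := by
      have : NullW G ω m (l.reverse ++ [a]) t := by simpa using ih
      simpa using swap this
    have h2 : NullW G ω n (l'.reverse ++ [a]) t' := by simpa using ih'
    have h3 : NullW G ω (n + m) (l'.reverse ++ a :: (l.reverse ++ a :: [])) (t' + t) :=
      loop h2 h1 (by simpa using hl') (by simpa using hl)
    rw [Nat.add_comm, add_comm t t']
    simpa using h3
  | weak _ ih => exact ih.weak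

theorem triangle (hs : Sym3 ω) {a b c : V} (hab : G.Adj a b) (hbc : G.Adj b c)
    (hac : G.Adj a c) : NullW G ω 1 [a, b, c] (ω a b c) := by
  have h : NullW G ω 0 ([] ++ a :: c :: []) 0 := NullW.dig hac
  have h1 := push hs h hac hab hbc
  rw [zero_add, hs.s23 a c b] at h1
  simpa using h1

theorem len1 {m : ℕ} {w : List V} {t : ZMod 2} (h : NullW G ω m w t) :
    w.length = 1 → t = 0 := by
  induction h with
  | pt a => exact fun _ => rfl
  | dig h => exact fun _ => rfl
  | rot _ ih =>
    intro hl
    apply ih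
    simpa using hl
  | tri hab haz hzb _ ih => intro hl; simp at hl
  | split hl hl' _ _ ih ih' =>
    intro h1
    simp at h1
  | weak _ ih => exact ih

end WBAS

/-- WBAS. -/
theorem tWBAS : T_WBAS.{u} := by
  intro V G ω hs
  refine ⟨?_, ?_, ?_, ?_, ?_, ?_, ?_, ?_, ?_, ?_, ?_⟩
  · intro m w t h
    exact WBAS.forget h
  · intro m w h
    exact WBAS.ex h
  · intro m w w' t h hr
    exact WBAS.rotated h hr
  · intro m n w t h hmn
    exact WBAS.mono h hmn
  · intro m w t h
    exact WBAS.reverse hs h
  · intro m n a X Y L x y h hL h' hXY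
    refine WBAS.loop h h' ?_ hL
    intro h0
    apply hXY
    rw [List.append_eq_nil_iff] at h0 ⊢
    exact h0.symm
  · intro m a b X Y x h hab hXY
    refine WBAS.spur h ?_ hab
    intro h0
    apply hXY
    rw [List.append_eq_nil_iff] at h0 ⊢
    exact h0.symm
  · intro m a b z X Y x h hab haz hzb
    exact WBAS.triAt h hab haz hzb
  · intro m a b z X Y x h hab haz hzb
    exact WBAS.push hs h hab haz hzb
  · intro a b c hab hbc hac
    exact WBAS.triangle hs hab hbc hac
  · intro m a x h
    exact WBAS.len1 h (by simp)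

end Pool.Agent.MSN
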