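import Pool.Agent.MSN.WDefs

/-! Job MSN-WDEX: existence of disc diagrams with values. -/

namespace Pool.Agent.MSN

open List Pool.Agent.MSF

universe u

namespace WDEX

variable {V : Type u} {G : SimpleGraph V} {ang : V → V → V → ℝ} {ω : V → V → V → ZMod 2}

theorem exists3 {k : ℕ} {a z b : V} {l : List V} {D' : List (Corner V)} {t : ZMod 2}
    (hc : CycC D') (hD : DiscW G ang ω k D' t) (hv : D'.map Corner.v = a :: z :: b :: l) :
    ∃ (x y : V) (Fa Fz Fb : List V) (ta tz tb : ℝ) (D : List (Corner V)),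
      DiscW G ang ω k (⟨x, a, z, Fa, ta⟩ :: ⟨a, z, b, Fz, tz⟩ :: ⟨z, b, y, Fb, tb⟩ :: D) t ∧
      D.map Corner.v = l := by
  match D', hv with
  | ca :: cz :: cb :: D, hv =>
    simp only [List.map_cons, List.cons.injEq] at hv
    obtain ⟨h1, h2, h3, h4⟩ := hv
    obtain ⟨x, a', n1, Fa, ta⟩ := ca
    obtain ⟨p2, z', n2, Fz, tz⟩ := cz
    obtain ⟨p3, b', y, Fb, tb⟩ := cb
    simp only at h1 h2 h3
    subst h1 h2 h3
    simp only [CycC, List.cons_append, List.isChain_cons_cons, Corner.Next] at hc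
    obtain ⟨⟨e1, e2⟩, ⟨e3, e4⟩, _⟩ := hc
    subst e1 e2 e3 e4
    exact ⟨x, y, Fa, Fz, Fb, ta, tz, tb, D, hD, h4⟩

theorem exists2 {k : ℕ} {z b : V} {l : List V} {D' : List (Corner V)} {t : ZMod 2}
    (hc : CycC D') (hD : DiscW G ang ω k D' t) (hv : D'.map Corner.v = z :: b :: l) :
    ∃ (x y : V) (Fz Fb : List V) (tz tb : ℝ) (D : List (Corner V)),
      DiscW G ang ω k (⟨x, z, b, Fz, tz⟩ :: ⟨z, b, y, Fb, tb⟩ :: D) t ∧
      D.map Corner.v = l := by
  match D', hv with
  | cz :: cb :: D, hv =>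
    simp only [List.map_cons, List.cons.injEq] at hv
    obtain ⟨h2, h3, h4⟩ := hv
    obtain ⟨x, z', n2, Fz, tz⟩ := cz
    obtain ⟨p3, b', y, Fb, tb⟩ := cb
    simp only at h2 h3
    subst h2 h3
    simp only [CycC, List.cons_append, List.isChain_cons_cons, Corner.Next] at hc
    obtain ⟨⟨e3, e4⟩, _⟩ := hc
    subst e3 e4
    exact ⟨x, y, Fz, Fb, tz, tb, D, hD, h4⟩

theorem existsL {k : ℕ} {z a : V} {l : List V} {D' : List (Corner V)} {t : ZMod 2}
    (hc : CycC D') (hD : DiscW G ang ω k D' t) (hv : D'.map Corner.v = z :: (l ++ [a])) :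
    ∃ (x y : V) (Fa Fz : List V) (ta tz : ℝ) (D : List (Corner V)),
      DiscW G ang ω k (⟨a, z, y, Fz, tz⟩ :: (D ++ [⟨x, a, z, Fa, ta⟩])) t ∧
      D.map Corner.v = l := by
  match D', hv with
  | cz :: D2, hv =>
    simp only [List.map_cons, List.cons.injEq] at hv
    obtain ⟨h2, h3⟩ := hv
    obtain ⟨D, D3, rfl, h5, h6⟩ := List.map_eq_append_iff.1 h3
    match D3, h6 with
    | [ca], h6 =>
      obtain ⟨p2, z', y, Fz, tz⟩ := cz
      obtain ⟨x, a', n1, Fa, ta⟩ := ca
      simp only [List.map_cons, List.map_nil, List.cons.injEq, and_true] at h6 h2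
      subst h2 h6
      simp only [CycC, List.append_assoc, List.cons_append, List.nil_append] at hc
      rw [← List.cons_append, List.isChain_split] at hc
      have hc2 := hc.2
      simp only [List.isChain_cons_cons, Corner.Next] at hc2
      obtain ⟨⟨e3, e4⟩, _⟩ := hc2
      subst e3 e4
      exact ⟨x, y, Fa, Fz, ta, tz, D, hD, h5⟩

end WDEX

/-- WDEX. -/
theorem tWDEX (_h0 : T_WBAS.{u}) (hA : T_WA3.{u}) (hR : T_WRED.{u}) (hZ : T_WANGZ.{u})
    (h1 : Pool.Agent.MSF.T_DISC1.{u}) (hF : T_WFOR.{u}) : T_WDEX.{u} := by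
  intro V G ang ω hG hsym hcoc N hN A
  induction A using Nat.strong_induction_on with
  | _ A ih =>
    intro w t hAN hw hmin hirr
    match w, hw with
    | a :: b :: c₀ :: l₀, _ =>
      generalize hl : c₀ :: l₀ = l at *
      have hlne : l ≠ [] := by rw [← hl]; simp
      obtain ⟨z, k, hk, hab, haz, hzb, hmin'⟩ := hA G ω hsym A a b l t hlne hmin hirr
      subst hk
      obtain ⟨s, hs⟩ : ∃ s, s = t + ω a b z := ⟨_, rfl⟩
      have ht : t = s + ω a b z := by
        rw [hs, add_assoc, CharTwo.add_self_eq_zero, add_zero]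
      rw [← hs] at hmin'
      subst ht
      clear hs
      by_cases hi : IrrW G ω k (a :: z :: b :: l) s
      · obtain ⟨D', hD', hv⟩ := ih k (Nat.lt_succ_self k) (a :: z :: b :: l) s (by omega)
          (by simp) hmin' hi
        obtain ⟨_, hc, _⟩ := h1 G ang hG k D' (hF G ang ω k D' s hD')
        obtain ⟨x, y, Fa, Fz, Fb, ta, tz, tb, D, hD, hDl⟩ := WDEX.exists3 hc hD' hv
        have hz := hZ G ang ω hG hsym hcoc N hN k a b z x y Fa Fz Fb ta tz tb D s (by omega)
          hab haz hzb (by rw [hDl]; exact hmin) hD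
        exact ⟨_, DiscW.inner hab haz hzb hD hz, by simp [hDl]⟩
      · obtain ⟨l₁, l₂, m, n, x₁, x₂, rfl, hmn, hx, hm1, hi1, hm2, hi2⟩ :=
          hR G ω hsym k a b z l s hlne hab haz hzb hmin hirr hmin' hi
        subst hmn
        subst hx
        rcases l₁ with _ | ⟨b₁, l₁⟩
        · have hx1 : x₁ = 0 := hN m z b x₁ (by omega) hm1.1
          subst hx1
          have hm0 : m = 0 := Nat.le_zero.1 (hm1.2 0 (NullW.dig hzb))
          subst hm0
          rcases l₂ with _ | ⟨b₂, l₂⟩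
          · have hx2 : x₂ = 0 := hN n z a x₂ (by omega) hm2.1
            subst hx2
            have hn0 : n = 0 := Nat.le_zero.1 (hm2.2 0 (NullW.dig haz.symm))
            subst hn0
            have h5 := DiscW.base (ang := ang) (ω := ω) hab haz hzb
            rw [show (0 : ZMod 2) + 0 + ω a b z = ω a b z by rw [add_zero, zero_add]]
            exact ⟨_, h5, rfl⟩
          · obtain ⟨D', hD', hv⟩ := ih n (by omega) (z :: ((b₂ :: l₂) ++ [a])) x₂ (by omega)
              (by simp) hm2 hi2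
            obtain ⟨_, hc, _⟩ := h1 G ang hG n D' (hF G ang ω n D' x₂ hD')
            obtain ⟨x, y, Fa, Fz, ta, tz, D, hD, hDl⟩ := WDEX.existsL hc hD' hv
            have h2 := DiscW.left hab haz hzb hD
            have h3 : 0 + n + 1 = n + 1 := by omega
            rw [h3, zero_add]
            exact ⟨_, h2, by simp [hDl]⟩
        · obtain ⟨D', hD', hv⟩ := ih m (by omega) (z :: b :: b₁ :: l₁) x₁ (by omega) (by simp)
            hm1 hi1
          obtain ⟨_, hc, _⟩ := h1 G ang hG m D' (hF G ang ω m D' x₁ hD')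
          obtain ⟨x, y, Fz, Fb, tz, tb, D, hD, hDl⟩ := WDEX.exists2 hc hD' hv
          rcases l₂ with _ | ⟨b₂, l₂⟩
          · have hx2 : x₂ = 0 := hN n z a x₂ (by omega) hm2.1
            subst hx2
            have hn0 : n = 0 := Nat.le_zero.1 (hm2.2 0 (NullW.dig haz.symm))
            subst hn0
            rw [add_zero x₁]
            exact ⟨_, DiscW.right hab haz hzb hD, by simp [hDl]⟩
          · obtain ⟨D2', hD2', hv2⟩ :=
              ih n (by omega) (z :: ((b₂ :: l₂) ++ [a])) x₂ (by omega) (by simp) hm2 hi2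
            obtain ⟨_, hc2, _⟩ := h1 G ang hG n D2' (hF G ang ω n D2' x₂ hD2')
            obtain ⟨x', y', Fa, Fz', ta, tz', D2, hD2, hDl2⟩ := WDEX.existsL hc2 hD2' hv2
            exact ⟨_, DiscW.both hab haz hzb hD hD2, by simp [hDl, hDl2]⟩

end Pool.Agent.MSN
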