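import Pool.Agent.MSN.WDefs
import Pool.Agent.MSF.Targets

/-!
# WEXP: expansion of one corner of a disc diagram, with values
-/

set_option autoImplicit false

namespace Pool.Agent.MSN

open List Pool.Agent.MSF

universe u

namespace WEXP

variable {V : Type u} {G : SimpleGraph V} {ang : V → V → V → ℝ} {ω : V → V → V → ZMod 2}

theorem cst {m : ℕ} {w w' : List V} {x x' : ZMod 2} (h : NullW G ω m w x) (hw : w = w')
    (hx : x = x') : NullW G ω m w' x' := by
  subst hw hx
  exact h

theorem swp (B : WBas G ω) {m : ℕ} {X Y : List V} {x : ZMod 2} (h : NullW G ω m (X ++ Y) x) :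
    NullW G ω m (Y ++ X) x := B.rotated _ _ _ _ h List.isRotated_append

theorem fval_split (v a : V) (X Y : List V) :
    fval ω v (X ++ a :: Y) = fval ω v (X ++ [a]) + fval ω v (a :: Y) := by
  induction X with
  | nil => simp [fval]
  | cons x X ih =>
    cases X with
    | nil => simp [fval]
    | cons x' X =>
      simp only [List.cons_append, fval] at ih ⊢
      rw [ih, add_assoc]

theorem dd (x : ZMod 2) : x + x = 0 := CharTwo.add_self_eq_zero x

/-- forget the value -/
theorem forgetD {A : ℕ} {D : List (Corner V)} {t : ZMod 2} (h : DiscW G ang ω A D t) :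
    Disc G ang A D := by
  induction h with
  | base hab haz hzb => exact Disc.base hab haz hzb
  | rot _ ih => exact Disc.rot ih
  | inner hab haz hzb _ hz ih => exact Disc.inner hab haz hzb ih hz
  | left hab haz hzb _ ih => exact Disc.left hab haz hzb ih
  | right hab haz hzb _ ih => exact Disc.right hab haz hzb ih
  | both hab haz hzb _ _ ih ih' => exact Disc.both hab haz hzb ih ih'

theorem mid {α : Type*} {D D' D₁ D₂ : List α} {e c : α} (h : D ++ e :: D' = D₁ ++ c :: D₂) :
    (∃ E, D = D₁ ++ c :: E ∧ D₂ = E ++ e :: D') ∨ (D₁ = D ∧ c = e ∧ D₂ = D') ∨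
      (∃ E, D' = E ++ c :: D₂ ∧ D₁ = D ++ e :: E) := by
  rw [List.append_eq_append_iff] at h
  rcases h with ⟨s, h1, h2⟩ | ⟨s, h1, h2⟩
  · cases s with
    | nil =>
      simp only [List.nil_append, List.cons.injEq] at h2
      right; left
      exact ⟨by simpa using h1, h2.1.symm, h2.2.symm⟩
    | cons s0 s =>
      simp only [List.cons_append, List.cons.injEq] at h2
      right; right
      exact ⟨s, h2.2, by rw [h1, h2.1]⟩
  · cases s with
    | nil =>
      simp only [List.nil_append, List.cons.injEq] at h2
      right; left
      exact ⟨by simpa using h1.symm, h2.1, h2.2⟩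
    | cons s0 s =>
      simp only [List.cons_append, List.cons.injEq] at h2
      left
      exact ⟨s, by rw [h1, h2.1], h2.2⟩

end WEXP

open WEXP in
theorem tWEXP (h0 : T_WBAS.{u}) (h1 : Pool.Agent.MSF.T_DISC1.{u}) : T_WEXP.{u} := by
  intro V G ang ω hA hω A D t hD
  have B := h0 G ω hω
  have s12 := hω.s12
  have s23 := hω.s23
  induction hD with
  | @base a b z hab haz hzb =>
    refine ⟨by simpa using B.triangle a b z hab hzb.symm haz, ?_⟩
    have e1 : ω a z b = ω a b z := s23 a z b
    have e2 : ω b a z = ω a b z := s12 b a z
    have e3 : ω z b a = ω a b z := by rw [s12 z b a, s23 b z a, s12 b a z]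
    intro D₁ D₂ c hc
    rcases D₁ with _ | ⟨d, D₁⟩
    · simp only [List.nil_append, List.cons.injEq] at hc
      obtain ⟨rfl, rfl⟩ := hc
      refine ⟨0, cst (NullW.dig hzb.symm) (by simp) ?_, by simp⟩
      simp only [List.nil_append, fval, add_zero]
      rw [e1, dd]
    · simp only [List.cons_append, List.cons.injEq] at hc
      obtain ⟨rfl, hc⟩ := hc
      rcases D₁ with _ | ⟨d, D₁⟩
      · simp only [List.nil_append, List.cons.injEq] at hc
        obtain ⟨rfl, rfl⟩ := hc
        refine ⟨0, cst (NullW.dig haz) (by simp) ?_, by simp⟩
        simp only [List.nil_append, fval, add_zero]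
        rw [e2, dd]
      · simp only [List.cons_append, List.cons.injEq] at hc
        obtain ⟨rfl, hc⟩ := hc
        rcases D₁ with _ | ⟨d, D₁⟩
        · simp only [List.nil_append, List.cons.injEq] at hc
          obtain ⟨rfl, rfl⟩ := hc
          refine ⟨0, cst (NullW.dig hab) (by simp) ?_, by simp⟩
          simp only [List.nil_append, fval, add_zero]
          rw [e3, dd]
        · simp at hc
  | @rot m c D t h ih =>
    obtain ⟨ih1, ih2⟩ := ih
    constructor
    · have h2 : NullW G ω m ([c.v] ++ D.map Corner.v) t := by simpa using ih1
      simpa using swp B h2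
    · intro D₁ D₂ c' hc
      rcases mid hc with ⟨E, h3, h4⟩ | ⟨h3, h4, h5⟩ | ⟨E, h3, h4⟩
      · subst h3 h4
        obtain ⟨k, hk, hle⟩ := ih2 (c :: D₁) E c' (by simp)
        refine ⟨k, ?_, hle⟩
        have h5 : NullW G ω k ([c.v] ++ (D₁.map Corner.v ++ (c'.F ++ E.map Corner.v)))
          (t + fval ω c'.v (c'.p :: (c'.F ++ [c'.n]))) := by simpa using hk
        simpa using swp B h5
      · subst h3 h4 h5
        obtain ⟨k, hk, hle⟩ := ih2 [] D₁ c' (by simp)
        refine ⟨k, ?_, hle⟩
        have h5 : NullW G ω k (c'.F ++ D₁.map Corner.v)
          (t + fval ω c'.v (c'.p :: (c'.F ++ [c'.n]))) := by simpa using hk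
        simpa using swp B h5
      · simp at h3
  | @inner m a b z x y Fa Fz Fb ta tz tb D t hab haz hzb h hz ih =>
    obtain ⟨ih1, ih2⟩ := ih
    have e1 : ω a z b = ω a b z := s23 a z b
    have e2 : ω b a z = ω a b z := s12 b a z
    constructor
    · simpa using NullW.tri hab haz hzb (by simpa using ih1)
    · intro D₁ D₂ c hc
      rcases D₁ with _ | ⟨d, D₁⟩
      · simp only [List.nil_append, List.cons.injEq] at hc
        obtain ⟨rfl, rfl⟩ := hc
        obtain ⟨k, hk, hle⟩ := ih2 [] _ _ rfl
        refine ⟨k, cst hk (by simp) ?_, ?_⟩
        · have h3 := fval_split (ω := ω) a z (x :: Fa) [b]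
          simp only [List.cons_append, List.nil_append, List.append_assoc, fval, add_zero] at h3 ⊢
          rw [h3, e1]
          linear_combination -dd (ω a b z)
        · simp only [List.length_append, List.length_cons, List.length_nil] at hle ⊢
          omega
      · simp only [List.cons_append, List.cons.injEq] at hc
        obtain ⟨rfl, hc⟩ := hc
        rcases D₁ with _ | ⟨d, D₁⟩
        · simp only [List.nil_append, List.cons.injEq] at hc
          obtain ⟨rfl, rfl⟩ := hc
          obtain ⟨k, hk, hle⟩ := ih2 [_, _] _ _ rfl
          refine ⟨k, cst hk (by simp) ?_, ?_⟩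
          · simp only [List.cons_append, fval]
            rw [e2]
            linear_combination -dd (ω a b z)
          · simp only [List.length_cons] at hle ⊢
            omega
        · simp only [List.cons_append, List.cons.injEq] at hc
          obtain ⟨rfl, rfl⟩ := hc
          obtain ⟨k, hk, hle⟩ := ih2 (_ :: _ :: _ :: D₁) D₂ c rfl
          refine ⟨k + 1, cst (NullW.tri (l := D₁.map Corner.v ++ (c.F ++ D₂.map Corner.v))
            hab haz hzb (by simpa using hk)) (by simp) (by ring), by omega⟩
  | @left n a b z x y Fa Fz ta tz D t hab haz hzb h ih =>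
    obtain ⟨ih1, ih2⟩ := ih
    have hd := h1 G ang hA _ _ (forgetD h)
    have hDne : D ≠ [] := by
      rintro rfl
      have := hd.1
      simp at this
    have hDn2 : D.map Corner.v ≠ [] := by simpa using hDne
    have e1 : ω a z b = ω a b z := s23 a z b
    have e2 : ω b a z = ω a b z := s12 b a z
    have e3 : ω z b a = ω a b z := by rw [s12 z b a, s23 b z a, s12 b a z]
    have hr : NullW G ω n (a :: z :: D.map Corner.v) t := by
      have h3 : NullW G ω n ((z :: D.map Corner.v) ++ [a]) t := by simpa using ih1
      simpa using swp B h3
    constructor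
    · have h4 := B.push n a z b [] (D.map Corner.v) t (by simpa using hr) haz hab hzb.symm
      exact cst h4 (by simp) (by rw [e1])
    · intro D₁ D₂ c hc
      rcases D₁ with _ | ⟨d, D₁⟩
      · simp only [List.nil_append, List.cons.injEq] at hc
        obtain ⟨rfl, rfl⟩ := hc
        obtain ⟨k, hk, hle⟩ := ih2 (_ :: D) [] _ rfl
        have h3 : NullW G ω k ((z :: D.map Corner.v) ++ Fa)
            (t + fval ω a (x :: (Fa ++ [z]))) := by simpa using hk
        have h4 := B.spur k z b Fa (D.map Corner.v) _ (swp B h3) hzb (by simp [hDne])
        refine ⟨k, cst h4 (by simp) ?_, ?_⟩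
        · have h3 := fval_split (ω := ω) a z (x :: Fa) [b]
          simp only [List.cons_append, List.nil_append, List.append_assoc, fval, add_zero] at h3 ⊢
          rw [h3, e1]
          linear_combination -dd (ω a b z)
        · simp only [List.length_append, List.length_cons, List.length_nil] at hle ⊢
          omega
      · simp only [List.cons_append, List.cons.injEq] at hc
        obtain ⟨rfl, hc⟩ := hc
        rcases D₁ with _ | ⟨d, D₁⟩
        · simp only [List.nil_append, List.cons.injEq] at hc
          obtain ⟨rfl, rfl⟩ := hc
          refine ⟨n, cst hr (by simp) ?_, by simp⟩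
          simp only [List.nil_append, fval, add_zero]
          rw [e2]
          linear_combination -dd (ω a b z)
        · simp only [List.cons_append, List.cons.injEq] at hc
          obtain ⟨rfl, hc⟩ := hc
          rcases D₁ with _ | ⟨d, D₁⟩
          · simp only [List.nil_append, List.cons.injEq] at hc
            obtain ⟨rfl, rfl⟩ := hc
            obtain ⟨k, hk, hle⟩ := ih2 [] _ _ rfl
            have h3 : NullW G ω k ((Fz ++ D.map Corner.v) ++ [a])
                (t + fval ω z (a :: (Fz ++ [y]))) := by simpa using hk
            have h4 := B.spur k a b [] (Fz ++ D.map Corner.v) _ (by simpa using swp B h3) hab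
              (by simp [hDne])
            refine ⟨k, cst h4 (by simp) ?_, ?_⟩
            · simp only [List.cons_append, fval]
              rw [e3]
              linear_combination -dd (ω a b z)
            · simp only [List.length_cons] at hle ⊢
              omega
          · simp only [List.cons_append, List.cons.injEq] at hc
            obtain ⟨rfl, rfl⟩ := hc
            obtain ⟨k, hk, hle⟩ := ih2 (_ :: D₁) (D₂ ++ [_]) c
              (by simp; exact ⟨rfl, rfl⟩)
            have h3 : NullW G ω k ((z :: (D₁.map Corner.v ++ (c.F ++ D₂.map Corner.v))) ++ [a])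
                (t + fval ω c.v (c.p :: (c.F ++ [c.n]))) := by simpa using hk
            have h4 := B.push k a z b [] (D₁.map Corner.v ++ (c.F ++ D₂.map Corner.v)) _
              (by simpa using swp B h3) haz hab hzb.symm
            refine ⟨k + 1, cst h4 (by simp) (by rw [e1]; ring), by omega⟩
  | @right m a b z x y Fz Fb tz tb D t hab haz hzb h ih =>
    obtain ⟨ih1, ih2⟩ := ih
    have hd := h1 G ang hA _ _ (forgetD h)
    have hDne : D ≠ [] := by
      rintro rfl
      have := hd.1
      simp at this
    have e1 : ω a z b = ω a b z := s23 a z b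
    have e2 : ω b a z = ω a b z := s12 b a z
    have e3 : ω z b a = ω a b z := by rw [s12 z b a, s23 b z a, s12 b a z]
    constructor
    · have h4 := B.push m z b a [] (D.map Corner.v) t (by simpa using ih1) hzb haz.symm hab
      have h5 : NullW G ω (m + 1) ([z] ++ (a :: b :: D.map Corner.v)) (t + ω z b a) := by
        simpa using h4
      exact cst (swp B h5) (by simp) (by rw [e3])
    · intro D₁ D₂ c hc
      rcases D₁ with _ | ⟨d, D₁⟩
      · simp only [List.nil_append, List.cons.injEq] at hc
        obtain ⟨rfl, rfl⟩ := hc
        have h5 : NullW G ω m ([z] ++ (b :: D.map Corner.v)) t := by simpa using ih1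
        refine ⟨m, cst (swp B h5) (by simp) ?_, by simp⟩
        simp only [List.nil_append, fval, add_zero]
        rw [e1]
        linear_combination -dd (ω a b z)
      · simp only [List.cons_append, List.cons.injEq] at hc
        obtain ⟨rfl, hc⟩ := hc
        rcases D₁ with _ | ⟨d, D₁⟩
        · simp only [List.nil_append, List.cons.injEq] at hc
          obtain ⟨rfl, rfl⟩ := hc
          obtain ⟨k, hk, hle⟩ := ih2 [_] _ _ rfl
          have h4 := B.spur k z a [] (Fb ++ D.map Corner.v) _ (by simpa using hk) haz.symm
            (by simp [hDne])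
          have h5 : NullW G ω k ([z] ++ (a :: z :: (Fb ++ D.map Corner.v)))
              (t + fval ω b (z :: (Fb ++ [y]))) := by simpa using h4
          refine ⟨k, cst (swp B h5) (by simp) ?_, ?_⟩
          · simp only [List.cons_append, fval]
            rw [e2]
            linear_combination -dd (ω a b z)
          · simp only [List.length_cons] at hle ⊢
            omega
        · simp only [List.cons_append, List.cons.injEq] at hc
          obtain ⟨rfl, hc⟩ := hc
          rcases mid hc with ⟨E, h3, h4⟩ | ⟨h3, h4, h5⟩ | ⟨E, h3, h4⟩
          · subst h3 h4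
            obtain ⟨k, hk, hle⟩ := ih2 (_ :: _ :: D₁) E c rfl
            have h4 := B.push k z b a [] (D₁.map Corner.v ++ (c.F ++ E.map Corner.v)) _
              (by simpa using hk) hzb haz.symm hab
            have h5 : NullW G ω (k + 1)
                ([z] ++ (a :: b :: (D₁.map Corner.v ++ (c.F ++ E.map Corner.v))))
                (t + fval ω c.v (c.p :: (c.F ++ [c.n])) + ω z b a) := by
              simpa using h4
            exact ⟨k + 1, cst (swp B h5) (by simp) (by rw [e3]; ring), by omega⟩
          · subst h3 h4 h5
            obtain ⟨k, hk, hle⟩ := ih2 [] _ _ rfl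
            have h4 := B.spur k b a Fz (D₁.map Corner.v) _ (by simpa using hk) hab.symm
              (by simp [hDne])
            have h5 : NullW G ω k ((Fz ++ [b]) ++ (a :: b :: D₁.map Corner.v))
                (t + fval ω z (x :: (Fz ++ [b]))) := by simpa using h4
            refine ⟨k, cst (swp B h5) (by simp) ?_, ?_⟩
            · have h3 := fval_split (ω := ω) z b (x :: Fz) [a]
              simp only [List.cons_append, List.nil_append, List.append_assoc, fval,
                add_zero] at h3 ⊢
              rw [h3, e3]
              linear_combination -dd (ω a b z)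
            · simp only [List.length_append, List.length_cons, List.length_nil] at hle ⊢
              omega
          · simp at h3
  | @both m n a b z x y x' y' Fa Fz Fb Fz' ta tz tb tz' D D' t t' hab haz hzb h h' ih ih' =>
    obtain ⟨ih1, ih2⟩ := ih
    obtain ⟨jh1, jh2⟩ := ih'
    have hd := h1 G ang hA _ _ (forgetD h)
    have hDne : D ≠ [] := by
      rintro rfl
      have := hd.1
      simp at this
    have hd' := h1 G ang hA _ _ (forgetD h')
    have hDne' : D' ≠ [] := by
      rintro rfl
      have := hd'.1
      simp at this
    have e1 : ω a z b = ω a b z := s23 a z b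
    have e2 : ω b a z = ω a b z := s12 b a z
    have e3 : ω z b a = ω a b z := by rw [s12 z b a, s23 b z a, s12 b a z]
    have ih1' : NullW G ω m (z :: (b :: D.map Corner.v)) t := by simpa using ih1
    have jh1' : NullW G ω n (z :: (D'.map Corner.v ++ [a])) t' := by simpa using jh1
    constructor
    · have h2 : NullW G ω (m + n) (z :: ((b :: D.map Corner.v) ++ z :: (D'.map Corner.v ++ [a])))
          (t + t') := NullW.split (by simp) (by simp) ih1' jh1'
      have h3 : NullW G ω (m + n) ((z :: b :: (D.map Corner.v ++ z :: D'.map Corner.v)) ++ [a])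
          (t + t') := by simpa using h2
      have h4 : NullW G ω (m + n) (a :: z :: b :: (D.map Corner.v ++ z :: D'.map Corner.v))
          (t + t') := by simpa using swp B h3
      exact cst (NullW.tri hab haz hzb h4) (by simp) rfl
    · intro D₁ D₂ c hc
      rcases D₁ with _ | ⟨d, D₁⟩
      · simp only [List.nil_append, List.cons.injEq] at hc
        obtain ⟨rfl, rfl⟩ := hc
        obtain ⟨k, hk, hle⟩ := jh2 (_ :: D') [] _ rfl
        have h3 : NullW G ω k (z :: (D'.map Corner.v ++ Fa))
            (t' + fval ω a (x' :: (Fa ++ [z]))) := by simpa using hk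
        have h4 : NullW G ω (m + k)
            (z :: ((b :: D.map Corner.v) ++ z :: (D'.map Corner.v ++ Fa)))
            (t + (t' + fval ω a (x' :: (Fa ++ [z])))) :=
          NullW.split (by simp) (by simp [hDne']) ih1' h3
        have h5 : NullW G ω (m + k)
            ((z :: b :: (D.map Corner.v ++ z :: D'.map Corner.v)) ++ Fa)
            (t + (t' + fval ω a (x' :: (Fa ++ [z])))) := by simpa using h4
        refine ⟨m + k, cst (swp B h5) (by simp) ?_, ?_⟩
        · have h3 := fval_split (ω := ω) a z (x' :: Fa) [b]
          simp only [List.cons_append, List.nil_append, List.append_assoc, fval, add_zero] at h3 ⊢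
          rw [h3, e1]
          linear_combination -dd (ω a b z)
        · simp only [List.length_append, List.length_cons, List.length_nil] at hle ⊢
          omega
      · simp only [List.cons_append, List.cons.injEq] at hc
        obtain ⟨rfl, hc⟩ := hc
        rcases D₁ with _ | ⟨d, D₁⟩
        · simp only [List.nil_append, List.cons.injEq] at hc
          obtain ⟨rfl, rfl⟩ := hc
          obtain ⟨k, hk, hle⟩ := ih2 [_] _ _ rfl
          have h3 : NullW G ω k (z :: (Fb ++ D.map Corner.v))
              (t + fval ω b (z :: (Fb ++ [y]))) := by simpa using hk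
          have h4 : NullW G ω (k + n)
              (z :: ((Fb ++ D.map Corner.v) ++ z :: (D'.map Corner.v ++ [a])))
              (t + fval ω b (z :: (Fb ++ [y])) + t') :=
            NullW.split (by simp [hDne]) (by simp) h3 jh1'
          have h5 : NullW G ω (k + n)
              ((z :: (Fb ++ (D.map Corner.v ++ z :: D'.map Corner.v))) ++ [a])
              (t + fval ω b (z :: (Fb ++ [y])) + t') := by simpa using h4
          refine ⟨k + n, cst (swp B h5) (by simp) ?_, ?_⟩
          · simp only [List.cons_append, fval]
            rw [e2]
            linear_combination -dd (ω a b z)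
          · simp only [List.length_cons] at hle ⊢
            omega
        · simp only [List.cons_append, List.cons.injEq] at hc
          obtain ⟨rfl, hc⟩ := hc
          rcases mid hc with ⟨E, h3, h4⟩ | ⟨h3, h4, h5⟩ | ⟨E, h3, h4⟩
          · subst h3 h4
            obtain ⟨k, hk, hle⟩ := ih2 (_ :: _ :: D₁) E c rfl
            have h3 : NullW G ω k (z :: (b :: (D₁.map Corner.v ++ (c.F ++ E.map Corner.v))))
                (t + fval ω c.v (c.p :: (c.F ++ [c.n]))) := by simpa using hk
            have h4 : NullW G ω (k + n)
                (z :: ((b :: (D₁.map Corner.v ++ (c.F ++ E.map Corner.v))) ++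
                  z :: (D'.map Corner.v ++ [a])))
                (t + fval ω c.v (c.p :: (c.F ++ [c.n])) + t') :=
              NullW.split (by simp) (by simp) h3 jh1'
            have h5 : NullW G ω (k + n)
                ((z :: b :: (D₁.map Corner.v ++ (c.F ++ (E.map Corner.v ++
                  z :: D'.map Corner.v)))) ++ [a])
                (t + fval ω c.v (c.p :: (c.F ++ [c.n])) + t') := by simpa using h4
            have h6 : NullW G ω (k + n)
                (a :: z :: b :: (D₁.map Corner.v ++ (c.F ++ (E.map Corner.v ++
                  z :: D'.map Corner.v))))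
                (t + fval ω c.v (c.p :: (c.F ++ [c.n])) + t') := by simpa using swp B h5
            exact ⟨k + n + 1, cst (NullW.tri hab haz hzb h6) (by simp) (by ring), by omega⟩
          · subst h3 h4 h5
            obtain ⟨k, hk, hle⟩ := ih2 [] _ _ rfl
            obtain ⟨k', hk', hle'⟩ := jh2 [] _ _ rfl
            have h3 : NullW G ω k' ((Fz' ++ D₂.map Corner.v) ++ [a])
                (t' + fval ω z (a :: (Fz' ++ [y']))) := by simpa using hk'
            have h4 := B.spur k' a b [] (Fz' ++ D₂.map Corner.v) _ (by simpa using swp B h3) hab
              (by simp [hDne'])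
            have h5 : NullW G ω k ((Fz) ++ (b :: D₁.map Corner.v))
                (t + fval ω z (x :: (Fz ++ [b]))) := by simpa using hk
            have h6 : NullW G ω k (b :: (D₁.map Corner.v ++ Fz))
                (t + fval ω z (x :: (Fz ++ [b]))) := by simpa using swp B h5
            have h7 := B.loop k' k b [a] (a :: (Fz' ++ D₂.map Corner.v))
              (D₁.map Corner.v ++ Fz) _ _ (by simpa using h4) (by simp [hDne]) h6 (by simp)
            refine ⟨k' + k, cst h7 (by simp) ?_, ?_⟩
            · have h3 := fval_split (ω := ω) z b (x :: Fz) (a :: (Fz' ++ [y']))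
              simp only [List.cons_append, List.append_assoc, fval] at h3 ⊢
              rw [h3, e3]
              linear_combination -dd (ω a b z)
            · simp only [List.length_append, List.length_cons] at hle hle' ⊢
              omega
          · subst h3 h4
            obtain ⟨k, hk, hle⟩ := jh2 (_ :: E) (D₂ ++ [_]) c (by simp; exact ⟨rfl, rfl⟩)
            have h3 : NullW G ω k (z :: ((E.map Corner.v ++ (c.F ++ D₂.map Corner.v)) ++ [a]))
                (t' + fval ω c.v (c.p :: (c.F ++ [c.n]))) := by simpa using hk
            have h4 : NullW G ω (m + k)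
                (z :: ((b :: D.map Corner.v) ++
                  z :: ((E.map Corner.v ++ (c.F ++ D₂.map Corner.v)) ++ [a])))
                (t + (t' + fval ω c.v (c.p :: (c.F ++ [c.n])))) :=
              NullW.split (by simp) (by simp) ih1' h3
            have h5 : NullW G ω (m + k)
                ((z :: b :: (D.map Corner.v ++ z :: (E.map Corner.v ++
                  (c.F ++ D₂.map Corner.v)))) ++ [a])
                (t + (t' + fval ω c.v (c.p :: (c.F ++ [c.n])))) := by simpa using h4
            have h6 : NullW G ω (m + k)
                (a :: z :: b :: (D.map Corner.v ++ z :: (E.map Corner.v ++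
                  (c.F ++ D₂.map Corner.v))))
                (t + (t' + fval ω c.v (c.p :: (c.F ++ [c.n])))) := by simpa using swp B h5
            exact ⟨m + k + 1, cst (NullW.tri hab haz hzb h6) (by simp) (by ring), by omega⟩

end Pool.Agent.MSN
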