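import Pool.Agent.MSN.WDefs

/-!
# Forget the value of a disc diagram (WFOR)
-/

namespace Pool.Agent.MSN

open List Pool.Agent.MSF

universe u

theorem tWFOR : T_WFOR.{u} := by
  intro V G ang ω A D t h
  induction h with
  | base hab haz hzb => exact Disc.base hab haz hzb
  | rot _ ih => exact Disc.rot ih
  | inner hab haz hzb _ hz ih => exact Disc.inner hab haz hzb ih hz
  | left hab haz hzb _ ih => exact Disc.left hab haz hzb ih
  | right hab haz hzb _ ih => exact Disc.right hab haz hzb ih
  | both hab haz hzb _ _ ih ih' => exact Disc.both hab haz hzb ih ih'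

end Pool.Agent.MSN
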