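import Pool.Agent.MSN.WDefs

/-! WH: fillings with values follow homotopies with values (MP_d6353f_al, MSN). Port of
MSF/H2N.lean. -/

namespace Pool.Agent.MSN

open List Pool.Agent.MSF

universe u

namespace WH

variable {V : Type u} {G : SimpleGraph V} {ω : V → V → V → ZMod 2}

theorem out {m : ℕ} {X : List V} {d : V} {x : ZMod 2} (hX : X ≠ [])
    (h : NullRW G ω m (X ++ [d]) x) :
    ∃ l, l ≠ [] ∧ X = d :: l ∧ NullW G ω m (d :: l) x := by
  rcases h with ⟨⟨a, ha⟩, _⟩ | ⟨a, l, hl, he, h⟩
  · cases X with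
    | nil => exact absurd rfl hX
    | cons x X => simp at ha
  · have h1 : X ++ [d] = (a :: l) ++ [a] := by simpa using he
    obtain ⟨h2, h3⟩ := List.append_inj' h1 (by simp)
    have h4 : d = a := by simpa using h3
    subst h4
    exact ⟨l, hl, h2, h⟩

theorem into {m : ℕ} {l : List V} {d : V} {x : ZMod 2} (hl : l ≠ [])
    (h : NullW G ω m (d :: l) x) :
    NullRW G ω m ((d :: l) ++ [d]) x := Or.inr ⟨d, l, hl, by simp, h⟩

theorem into' {m : ℕ} {X : List V} {d : V} {x : ZMod 2} (hX : ∃ l, l ≠ [] ∧ X = d :: l)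
    (h : NullW G ω m X x) :
    NullRW G ω m (X ++ [d]) x := by
  obtain ⟨l, hl, rfl⟩ := hX
  exact into hl h

/-- the head is kept when the tail part is changed -/
theorem head_eq {p r r' l : List V} {a d : V} (h : p ++ a :: r = d :: l) (hr : p ++ r' ≠ []) :
    ∃ l', l' ≠ [] ∧ p ++ a :: r' = d :: l' := by
  cases p with
  | nil =>
    simp only [List.nil_append, List.cons.injEq] at h
    exact ⟨r', by simpa using hr, by simp [h.1]⟩
  | cons x p =>
    simp only [List.cons_append, List.cons.injEq] at h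
    exact ⟨p ++ a :: r', by simp, by simp [h.1]⟩

theorem cw (hB : WBas G ω) {m : ℕ} {w : List V} {x : ZMod 2} (h : NullW G ω m w x) : CW G w :=
  (hB.forget _ _ _ h).cw

theorem swap (hB : WBas G ω) {m : ℕ} {X Y : List V} {x : ZMod 2} (h : NullW G ω m (X ++ Y) x) :
    NullW G ω m (Y ++ X) x :=
  hB.rotated _ _ _ _ h List.isRotated_append

theorem spur_fwd (hB : WBas G ω) {m : ℕ} {p q : List V} {a b : V} {x : ZMod 2}
    (hab : G.Adj a b) (h : NullRW G ω m (p ++ a :: q) x) :
    NullRW G ω m (p ++ a :: b :: a :: q) x := by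
  rcases List.eq_nil_or_concat q with rfl | ⟨q1, c, rfl⟩
  · by_cases hp : p = []
    · subst hp
      rcases h with ⟨⟨d, hd⟩, rfl⟩ | ⟨d, l, hl, he, h⟩
      · exact Or.inr ⟨a, [b], by simp, by simp,
          hB.mono _ _ _ _ (NullW.dig hab) (Nat.zero_le _)⟩
      · simp at he
    · obtain ⟨l, hl, he, hn⟩ := out hp h
      subst he
      have h1 : NullW G ω m ([] ++ a :: l) x := hn
      have h2 := hB.spur _ _ _ _ _ _ h1 hab (by simpa using hl)
      have h3 : NullW G ω m ([a, b] ++ (a :: l)) x := by simpa using h2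
      have h4 : NullW G ω m (a :: (l ++ [a, b])) x := by simpa using swap hB h3
      exact Or.inr ⟨a, l ++ [a, b], by simp, by simp, h4⟩
  · have h1 : NullRW G ω m ((p ++ a :: q1) ++ [c]) x := by simpa using h
    obtain ⟨l, hl, he, hn⟩ := out (by simp) h1
    have hpq : p ++ q1 ≠ [] := by
      intro h0
      obtain ⟨rfl, rfl⟩ := List.append_eq_nil_iff.1 h0
      simp only [List.nil_append, List.cons.injEq] at he
      exact hl he.2.symm
    have h2 : NullW G ω m (p ++ a :: q1) x := by rw [he]; exact hn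
    have h3 := hB.spur _ _ _ _ _ _ h2 hab hpq
    have h4 := into' (head_eq he (r' := b :: a :: q1) (by simp)) h3
    simpa using h4

theorem spur_back (hB : WBas G ω)
    (hZ : ∀ (m : ℕ) (a b : V) (X Y : List V) (x : ZMod 2), Y ++ X ≠ [] →
      NullW G ω m (X ++ a :: b :: a :: Y) x → NullW G ω m (X ++ a :: Y) x)
    (hS : ∀ (m : ℕ) (a b : V) (x : ZMod 2), NullW G ω m [a, b] x → x = 0)
    {m : ℕ} {p q : List V} {a b : V} {x : ZMod 2}
    (h : NullRW G ω m (p ++ a :: b :: a :: q) x) : NullRW G ω m (p ++ a :: q) x := by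
  rcases List.eq_nil_or_concat q with rfl | ⟨q1, c, rfl⟩
  · have h1 : NullRW G ω m ((p ++ [a, b]) ++ [a]) x := by simpa using h
    obtain ⟨l, hl, he, hn⟩ := out (by simp) h1
    cases p with
    | nil =>
      simp only [List.nil_append, List.cons.injEq, true_and] at he
      subst he
      exact Or.inl ⟨⟨a, by simp⟩, hS _ _ _ _ hn⟩
    | cons y p =>
      simp only [List.cons_append, List.cons.injEq] at he
      obtain ⟨rfl, rfl⟩ := he
      have h2 : NullW G ω m (p ++ y :: b :: y :: []) x := by
        simpa using hn.rot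
      by_cases hp : p = []
      · subst hp
        exact (CW.not_adj_self (X := []) (a := y) (Y := [b]) (by simpa using cw hB hn)).elim
      · have h3 : NullW G ω m (p ++ y :: []) x := hZ m y b p [] x (by simpa using hp) h2
        have h4 : NullW G ω m (y :: p) x := by simpa using swap hB h3
        exact Or.inr ⟨y, p, hp, by simp, h4⟩
  · have h1 : NullRW G ω m ((p ++ a :: b :: a :: q1) ++ [c]) x := by simpa using h
    obtain ⟨l, hl, he, hn⟩ := out (by simp) h1
    rw [← he] at hn
    by_cases hpq : q1 ++ p = []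
    · obtain ⟨rfl, rfl⟩ := List.append_eq_nil_iff.1 hpq
      exact (CW.not_adj_self (X := []) (a := a) (Y := [b])
        ((cw hB hn).rotated ⟨2, by simp [List.rotate]⟩)).elim
    · have h2 := hZ m a b p q1 x hpq hn
      have h3 := into' (head_eq he (r' := q1) (by
        intro h0; apply hpq
        obtain ⟨rfl, rfl⟩ := List.append_eq_nil_iff.1 h0
        rfl)) h2
      simpa using h3

theorem tri_fwd (hB : WBas G ω) (hω : Sym3 ω) {m : ℕ} {p q : List V} {a b c : V} {x : ZMod 2}
    (hab : G.Adj a b) (hbc : G.Adj b c)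
    (hac : G.Adj a c) (h : NullRW G ω m (p ++ a :: c :: q) x) :
    NullRW G ω (m + 1) (p ++ a :: b :: c :: q) (x + ω a b c) := by
  have hs : ω a b c = ω a c b := hω.s23 a b c
  rcases List.eq_nil_or_concat q with rfl | ⟨q1, d, rfl⟩
  · have h1 : NullRW G ω m ((p ++ [a]) ++ [c]) x := by simpa using h
    obtain ⟨l, hl, he, hn⟩ := out (by simp) h1
    cases p with
    | nil =>
      simp only [List.nil_append, List.cons.injEq] at he
      exact absurd he.2.symm hl
    | cons y p =>
      simp only [List.cons_append, List.cons.injEq] at he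
      obtain ⟨rfl, rfl⟩ := he
      have h2 : NullW G ω m ([] ++ a :: y :: p) x := by
        have : NullW G ω m ((y :: p) ++ [a]) x := by simpa using hn
        simpa using swap hB this
      have h3 := hB.push _ _ _ b _ _ _ h2 hac hab hbc
      have h4 : NullW G ω (m + 1) (y :: (p ++ [a, b])) (x + ω a b y) := by
        rw [hs]
        have : NullW G ω (m + 1) ([a, b] ++ (y :: p)) (x + ω a y b) := by simpa using h3
        simpa using swap hB this
      exact Or.inr ⟨y, p ++ [a, b], by simp, by simp, h4⟩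
  · have h1 : NullRW G ω m ((p ++ a :: c :: q1) ++ [d]) x := by simpa using h
    obtain ⟨l, hl, he, hn⟩ := out (by simp) h1
    rw [← he] at hn
    have h2 := hB.push _ _ _ b _ _ _ hn hac hab hbc
    rw [← hs] at h2
    have h3 := into' (head_eq he (r' := b :: c :: q1) (by simp)) h2
    simpa using h3

theorem tri_back (hB : WBas G ω) (hω : Sym3 ω) {m : ℕ} {p q : List V} {a b c : V} {x : ZMod 2}
    (hab : G.Adj a b) (hbc : G.Adj b c)
    (hac : G.Adj a c) (h : NullRW G ω m (p ++ a :: b :: c :: q) x) :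
    NullRW G ω (m + 1) (p ++ a :: c :: q) (x + ω a b c) := by
  have hs : ω a b c = ω a c b := hω.s23 a b c
  rcases List.eq_nil_or_concat q with rfl | ⟨q1, d, rfl⟩
  · have h1 : NullRW G ω m ((p ++ [a, b]) ++ [c]) x := by simpa using h
    obtain ⟨l, hl, he, hn⟩ := out (by simp) h1
    cases p with
    | nil =>
      simp only [List.nil_append, List.cons.injEq] at he
      rw [he.1] at hac
      exact (G.loopless.irrefl _ hac).elim
    | cons y p =>
      simp only [List.cons_append, List.cons.injEq] at he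
      obtain ⟨rfl, rfl⟩ := he
      have h2 : NullW G ω m (a :: b :: y :: p) x := by
        have : NullW G ω m ((y :: p) ++ [a, b]) x := by simpa using hn
        simpa using swap hB this
      have h3 : NullW G ω (m + 1) (a :: y :: p) (x + ω a y b) := NullW.tri hac hab hbc h2
      rw [← hs] at h3
      have h4 : NullW G ω (m + 1) (y :: (p ++ [a])) (x + ω a b y) := by simpa using h3.rot
      exact Or.inr ⟨y, p ++ [a], by simp, by simp, h4⟩
  · have h1 : NullRW G ω m ((p ++ a :: b :: c :: q1) ++ [d]) x := by simpa using h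
    obtain ⟨l, hl, he, hn⟩ := out (by simp) h1
    rw [← he] at hn
    have h2 := hB.triAt _ _ _ _ _ _ _ hn hac hab hbc
    rw [← hs] at h2
    have h3 := into' (head_eq he (r' := c :: q1) (by simp)) h2
    simpa using h3

theorem add_self (x t : ZMod 2) : x + t + t = x := by
  rw [add_assoc, CharTwo.add_self_eq_zero, add_zero]

end WH

theorem tWH (h0 : T_WBAS.{u}) (h1 : T_WZIP.{u}) : T_WH.{u} := by
  intro V G ω hω hU P Q t h
  have hB : WBas G ω := h0 G ω hω
  have hS : ∀ (m : ℕ) (a b : V) (x : ZMod 2), NullW G ω m [a, b] x → x = 0 := by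
    intro m a b x hx
    have hab : G.Adj a b := by
      have h2 := WH.cw hB hx
      simp only [CW, List.nil_append, List.isChain_cons_cons] at h2
      exact h2.1
    exact hU (m + 0) m 0 [a, b] x 0 le_rfl hx (NullW.dig hab)
  have hZ : ∀ (m : ℕ) (a b : V) (X Y : List V) (x : ZMod 2), Y ++ X ≠ [] →
      NullW G ω m (X ++ a :: b :: a :: Y) x → NullW G ω m (X ++ a :: Y) x := by
    intro m a b X Y x hXY hx
    exact h1 G ω hω m (fun k a b y _ hy => hS k a b y hy) m a b X Y x le_rfl hXY hx
  induction h with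
  | refl P => intro x; rw [add_zero]
  | spur p q a b hab =>
    intro x
    rw [add_zero]
    exact ⟨fun ⟨m, h⟩ => ⟨m, WH.spur_fwd hB hab h⟩, fun ⟨m, h⟩ => ⟨m, WH.spur_back hB hZ hS h⟩⟩
  | tri p q a b c hab hbc hac =>
    intro x
    refine ⟨fun ⟨m, h⟩ => ⟨m + 1, WH.tri_fwd hB hω hab hbc hac h⟩, fun ⟨m, h⟩ => ⟨m + 1, ?_⟩⟩
    have := WH.tri_back hB hω hab hbc hac h
    rwa [WH.add_self] at this
  | symm _ ih =>
    rename_i P Q t _
    intro x
    have := ih (x + t)
    rw [WH.add_self] at this
    exact this.symm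
  | trans _ _ ih ih' =>
    rename_i P Q R s t _ _
    intro x
    rw [ih x, ih' (x + s), add_assoc]

end Pool.Agent.MSN
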