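import Pool.Agent.MSN.WDefs

/-! WRED: splitting after the first triangle has been removed, with values (port of MSF/RED). -/

namespace Pool.Agent.MSN

open List Pool.Agent.MSF

universe u

namespace WRED

variable {V : Type u} {G : SimpleGraph V} {ω : V → V → V → ZMod 2}

/-- A reducible cyclic list in linear form. -/
theorem lin {w : List V} {c : V} {s t : List V} (h : w ~r (c :: (s ++ c :: t))) :
    ∃ X s' Z, w = X ++ c :: (s' ++ c :: Z) ∧
      ((s' = s ∧ Z ++ X = t) ∨ (s' = t ∧ Z ++ X = s)) := by
  have h' := h.symm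
  obtain ⟨n, hn, hw⟩ := List.isRotated_iff_mod.1 h'
  obtain ⟨A, B, hAB, hBA⟩ : ∃ A B, c :: (s ++ c :: t) = A ++ B ∧ w = B ++ A := by
    refine ⟨(c :: (s ++ c :: t)).take n, (c :: (s ++ c :: t)).drop n,
      (List.take_append_drop _ _).symm, ?_⟩
    rw [← hw, List.rotate_eq_drop_append_take hn]
  subst hBA
  cases A with
  | nil =>
    rw [List.nil_append] at hAB
    subst hAB
    exact ⟨[], s, t, by simp, Or.inl ⟨rfl, by simp⟩⟩
  | cons a A =>
    rw [List.cons_append] at hAB
    obtain ⟨rfl, hAB1⟩ := List.cons_eq_cons.1 hAB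
    clear hAB
    rcases List.append_eq_append_iff.1 hAB1 with ⟨T, hT1, hT2⟩ | ⟨S, hS1, hS2⟩
    · -- A = s ++ T, c :: t = T ++ B
      cases T with
      | nil =>
        simp only [List.append_nil] at hT1
        simp only [List.nil_append] at hT2
        subst hT1
        subst hT2
        exact ⟨[], t, A, by simp, Or.inr ⟨rfl, by simp⟩⟩
      | cons d T =>
        rw [List.cons_append] at hT2
        obtain ⟨rfl, hT3⟩ := List.cons_eq_cons.1 hT2
        clear hT2
        subst hT1
        subst hT3
        exact ⟨B, s, T, by simp, Or.inl ⟨rfl, rfl⟩⟩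
    · -- s = A ++ S, B = S ++ c :: t
      subst hS1
      subst hS2
      exact ⟨S, t, A, by simp, Or.inr ⟨rfl, rfl⟩⟩

theorem swap (h0 : WBas G ω) {m : ℕ} {X Y : List V} {t : ZMod 2}
    (h : NullW G ω m (X ++ Y) t) : NullW G ω m (Y ++ X) t :=
  h0.rotated m _ _ t h List.isRotated_append

theorem not_irr {A : ℕ} {w : List V} {t : ZMod 2} (h : ¬ IrrW G ω A w t) :
    ∃ X c s Z m n x y, w = X ++ c :: (s ++ c :: Z) ∧ s ≠ [] ∧ Z ++ X ≠ [] ∧
      NullW G ω m (c :: s) x ∧ NullW G ω n (c :: (Z ++ X)) y ∧ x + y = t ∧ m + n ≤ A := by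
  unfold IrrW at h
  push Not at h
  obtain ⟨c, s, r, m, n, x, y, hw, hs, ht, hm, hn, hxy, hA⟩ := h
  obtain ⟨X, s', Z, hX, h | h⟩ := lin hw
  · obtain ⟨rfl, rfl⟩ := h
    exact ⟨X, c, s', Z, m, n, x, y, hX, hs, ht, hm, hn, hxy, hA⟩
  · obtain ⟨rfl, rfl⟩ := h
    exact ⟨X, c, s', Z, n, m, y, x, hX, ht, hs, hn, hm, by rw [← hxy]; ring, by omega⟩

theorem irr_lin {A : ℕ} {w : List V} {t : ZMod 2} (h : IrrW G ω A w t) {X s Z : List V} {c : V}
    {m n : ℕ} {x y : ZMod 2}
    (hw : w = X ++ c :: (s ++ c :: Z)) (hs : s ≠ []) (hZ : Z ++ X ≠ [])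
    (hm : NullW G ω m (c :: s) x) (hn : NullW G ω n (c :: (Z ++ X)) y) (hxy : x + y = t) :
    A < m + n := by
  refine h c s (Z ++ X) m n x y ?_ hs hZ hm hn hxy
  subst hw
  have := List.isRotated_append (l := X) (l' := c :: (s ++ c :: Z))
  simpa using this

theorem irr_rotated {A : ℕ} {w w' : List V} {t : ZMod 2} (h : IrrW G ω A w t) (hr : w ~r w') :
    IrrW G ω A w' t :=
  fun c s r m n x y hw => h c s r m n x y (hr.trans hw)

theorem irr_reverse (h0 : WBas G ω) {A : ℕ} {w : List V} {t : ZMod 2} (h : IrrW G ω A w t) :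
    IrrW G ω A w.reverse t := by
  intro c s r m n x y hw hs ht hm hn hxy
  have h1 : w ~r (c :: (s ++ c :: r)).reverse := by
    have := hw.reverse
    simpa using this
  have h2 : (c :: (s ++ c :: r)).reverse ~r (c :: (r.reverse ++ c :: s.reverse)) := by
    have := List.isRotated_append (l := r.reverse ++ c :: s.reverse) (l' := [c])
    simpa using this
  have h3 : NullW G ω n (c :: r.reverse) y := by
    have h4 : NullW G ω n (r.reverse ++ [c]) y := by simpa using h0.reverse _ _ _ hn
    simpa using swap h0 h4
  have h5 : NullW G ω m (c :: s.reverse) x := by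
    have h4 : NullW G ω m (s.reverse ++ [c]) x := by simpa using h0.reverse _ _ _ hm
    simpa using swap h0 h4
  have := h c r.reverse s.reverse n m y x (h1.trans h2) (by simpa using ht) (by simpa using hs)
    h3 h5 (by rw [← hxy]; ring)
  omega

/-- Joining two loops at `z` and removing `z`. -/
theorem join (h0 : WBas G ω) {m n : ℕ} {a b z : V} {P l : List V} {x y : ZMod 2}
    (hab : G.Adj a b) (haz : G.Adj a z) (hzb : G.Adj z b) (hP : NullW G ω m (z :: b :: P) x)
    (hl : NullW G ω n (z :: (l ++ [a])) y) :
    NullW G ω (m + n) (a :: z :: b :: (P ++ z :: l)) (x + y) ∧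
      NullW G ω (m + n + 1) (a :: b :: (P ++ z :: l)) (x + y + ω a b z) := by
  have h1 : NullW G ω (m + n) (z :: ((b :: P) ++ z :: (l ++ [a]))) (x + y) :=
    NullW.split (by simp) (by simp) hP hl
  have h2 : NullW G ω (m + n) ((z :: b :: (P ++ z :: l)) ++ [a]) (x + y) := by simpa using h1
  have h3 : NullW G ω (m + n) (a :: z :: b :: (P ++ z :: l)) (x + y) := by
    simpa using swap h0 h2
  exact ⟨h3, NullW.tri hab haz hzb h3⟩

/-- One side. -/
theorem side (h0 : WBas G ω) {k m n : ℕ} {a b z : V} {l₁ l₂ : List V} {x x1 x2 : ZMod 2}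
    (hab : G.Adj a b) (haz : G.Adj a z) (hzb : G.Adj z b)
    (hI : IrrW G ω (k + 1) (a :: b :: (l₁ ++ z :: l₂)) (x + ω a b z)) (hmn : m + n = k)
    (hl : NullW G ω n (z :: (l₂ ++ [a])) x2) (hx : x1 + x2 = x) :
    IrrW G ω m (z :: b :: l₁) x1 := by
  by_contra hcon
  obtain ⟨X, c, s, Z, m', n', p, q, hw, hs, hZX, hm', hn', hpq, hle⟩ := not_irr hcon
  cases X with
  | nil =>
    rw [List.nil_append] at hw
    obtain ⟨hw1, hw2⟩ := List.cons_eq_cons.1 hw
    clear hw
    rename' hw2 => hw
    subst hw1
    cases s with
    | nil => exact hs rfl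
    | cons d s =>
      rw [List.cons_append] at hw
      obtain ⟨hw1, hw2⟩ := List.cons_eq_cons.1 hw
      clear hw
      subst hw1
      subst hw2
      simp only [List.append_nil] at hn' hZX
      obtain ⟨-, h1⟩ := join h0 hab haz hzb hm' hl
      have h2 : NullW G ω (m' + n + 1) (z :: (l₂ ++ a :: b :: s)) (p + x2 + ω a b z) := by
        have : NullW G ω (m' + n + 1) ((a :: b :: s) ++ z :: l₂) (p + x2 + ω a b z) := by
          simpa using h1
        simpa using swap h0 this
      have h3 := irr_lin hI (X := a :: b :: s) (c := z) (s := Z) (Z := l₂) (m := n')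
        (n := m' + n + 1) (by simp) hZX (by simp) hn' h2 (by rw [← hx, ← hpq]; ring)
      omega
  | cons x0 X =>
    rw [List.cons_append] at hw
    obtain ⟨hw1, hw2⟩ := List.cons_eq_cons.1 hw
    clear hw
    rename' hw2 => hw
    subst hw1
    -- the outer loop starts with `z, b`
    have hb : ∃ P, X ++ c :: Z = b :: P := by
      cases X with
      | nil =>
        rw [List.nil_append] at hw
        obtain ⟨hw1, -⟩ := List.cons_eq_cons.1 hw
        clear hw
        subst hw1
        exact ⟨Z, rfl⟩
      | cons y X =>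
        rw [List.cons_append] at hw
        obtain ⟨hw1, -⟩ := List.cons_eq_cons.1 hw
        clear hw
        subst hw1
        exact ⟨X ++ c :: Z, rfl⟩
    obtain ⟨P, hP⟩ := hb
    have h1 : NullW G ω n' (z :: b :: P) q := by
      rw [← hP]
      have : NullW G ω n' ((c :: Z) ++ z :: X) q := by simpa using hn'
      simpa using swap h0 this
    obtain ⟨-, h2⟩ := join h0 hab haz hzb h1 hl
    have h3 : NullW G ω (n' + n + 1) (a :: (X ++ c :: (Z ++ z :: l₂))) (q + x2 + ω a b z) := by
      have : b :: (P ++ z :: l₂) = X ++ c :: (Z ++ z :: l₂) := by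
        rw [← List.cons_append, ← hP]
        simp
      rwa [this] at h2
    have h4 : NullW G ω (n' + n + 1) (c :: ((Z ++ z :: l₂) ++ a :: X)) (q + x2 + ω a b z) := by
      have : NullW G ω (n' + n + 1) ((a :: X) ++ c :: (Z ++ z :: l₂)) (q + x2 + ω a b z) := by
        simpa using h3
      simpa using swap h0 this
    have h5 : a :: b :: (l₁ ++ z :: l₂) = (a :: X) ++ c :: (s ++ c :: (Z ++ z :: l₂)) := by
      have : b :: (l₁ ++ z :: l₂) = (b :: l₁) ++ z :: l₂ := rfl
      rw [this, hw]
      simp
    have h6 := irr_lin hI h5 hs (by simp) hm' h4 (by rw [← hx, ← hpq]; ring)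
    omega

end WRED

open WRED

theorem tWRED (h0' : T_WBAS.{u}) : T_WRED.{u} := by
  intro V G ω hS k a b z l x hl hab haz hzb hMw hIw hMw' hnI
  have h0 := h0' G ω hS
  obtain ⟨X, c, s, Z, m, n, p, q, hw, hs, hZX, hm, hn, hpq, hle⟩ := not_irr hnI
  cases X with
  | nil =>
    exfalso
    rw [List.nil_append] at hw
    obtain ⟨hw1, hw2⟩ := List.cons_eq_cons.1 hw
    clear hw
    rename' hw2 => hw
    subst hw1
    cases s with
    | nil => exact hs rfl
    | cons d s =>
      rw [List.cons_append] at hw
      obtain ⟨hw1, hw2⟩ := List.cons_eq_cons.1 hw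
      clear hw
      rename' hw2 => hw
      subst hw1
      cases s with
      | nil =>
        rw [List.nil_append] at hw
        obtain ⟨hw1, -⟩ := List.cons_eq_cons.1 hw
        clear hw
        subst hw1
        exact G.loopless.irrefl _ hab
      | cons d s =>
        rw [List.cons_append] at hw
        obtain ⟨hw1, hw2⟩ := List.cons_eq_cons.1 hw
        clear hw
        subst hw1
        subst hw2
        have h1 : NullW G ω (m + 1) (a :: b :: s) (p + ω a b z) := NullW.tri hab haz hzb hm
        have h2 := irr_lin hIw (X := []) (c := a) (s := b :: s) (Z := Z) (by simp) (by simp)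
          hZX h1 hn (by rw [← hpq]; ring)
        omega
  | cons x0 X =>
    rw [List.cons_append] at hw
    obtain ⟨hw1, hw2⟩ := List.cons_eq_cons.1 hw
    clear hw
    rename' hw2 => hw
    subst hw1
    cases X with
    | nil =>
      -- the main case
      rw [List.nil_append] at hw
      obtain ⟨hw1, hw2⟩ := List.cons_eq_cons.1 hw
      clear hw
      rename' hw2 => hw
      subst hw1
      cases s with
      | nil => exact absurd rfl hs
      | cons d s =>
        rw [List.cons_append] at hw
        obtain ⟨hw1, hw2⟩ := List.cons_eq_cons.1 hw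
        clear hw
        subst hw1
        subst hw2
        have hjoin : ∀ i j, NullW G ω i (z :: b :: s) p → NullW G ω j (z :: (Z ++ [a])) q →
            k ≤ i + j := by
          intro i j hi hj
          have h1 := (join h0 hab haz hzb hi hj).1
          rw [hpq] at h1
          exact hMw'.2 _ h1
        have hk : k ≤ m + n := hjoin m n hm hn
        have hkk : m + n = k := le_antisymm hle hk
        have hmin1 : ∀ j, NullW G ω j (z :: b :: s) p → m ≤ j := by
          intro j hj
          have := hjoin j n hj hn
          omega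
        have hmin2 : ∀ j, NullW G ω j (z :: (Z ++ [a])) q → n ≤ j := by
          intro j hj
          have := hjoin m j hm hj
          omega
        refine ⟨s, Z, m, n, p, q, rfl, hkk, hpq, ⟨hm, hmin1⟩, side h0 hab haz hzb hIw hkk hn hpq,
          ⟨hn, hmin2⟩, ?_⟩
        -- the other side, by reversal
        have hω : ω b a z = ω a b z := hS.s12 b a z
        have hI2 : IrrW G ω (k + 1) (b :: a :: (Z.reverse ++ z :: s.reverse)) (x + ω b a z) := by
          rw [hω]
          have h1 := irr_reverse h0 hIw
          refine irr_rotated h1 ?_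
          have := List.isRotated_append (l := Z.reverse ++ z :: s.reverse) (l' := [b, a])
          simpa using this
        have h2 : NullW G ω m (z :: (s.reverse ++ [b])) p := by
          have h3 : NullW G ω m ((s.reverse ++ [b]) ++ [z]) p := by
            simpa using h0.reverse _ _ _ hm
          simpa using swap h0 h3
        have h4 := side h0 hab.symm hzb.symm haz.symm hI2 (by omega : n + m = k) h2
          (x1 := q) (by rw [← hpq]; ring)
        have h5 := irr_reverse h0 h4
        refine irr_rotated h5 ?_
        have := List.isRotated_append (l := Z ++ [a]) (l' := [z])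
        simpa using this
    | cons y X =>
      exfalso
      rw [List.cons_append] at hw
      obtain ⟨hw1, hw2⟩ := List.cons_eq_cons.1 hw
      clear hw
      rename' hw2 => hw
      subst hw1
      cases X with
      | nil =>
        rw [List.nil_append] at hw
        obtain ⟨hw1, hw2⟩ := List.cons_eq_cons.1 hw
        clear hw
        subst hw1
        subst hw2
        have h1 : NullW G ω n ([a, z, b] ++ Z) q := by
          have : NullW G ω n ((b :: Z) ++ [a, z]) q := by simpa using hn
          simpa using swap h0 this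
        have h2 : NullW G ω (n + 1) (a :: b :: Z) (q + ω a b z) :=
          NullW.tri hab haz hzb (by simpa using h1)
        have h3 : NullW G ω (n + 1) (b :: (Z ++ [a])) (q + ω a b z) := by
          have : NullW G ω (n + 1) ([a] ++ b :: Z) (q + ω a b z) := by simpa using h2
          simpa using swap h0 this
        have h4 := irr_lin hIw (X := [a]) (c := b) (s := s) (Z := Z) (by simp) hs (by simp) hm h3
          (by rw [← hpq]; ring)
        omega
      | cons y X =>
        rw [List.cons_append] at hw
        obtain ⟨hw1, hw2⟩ := List.cons_eq_cons.1 hw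
        clear hw
        subst hw1
        subst hw2
        have h1 : NullW G ω n ((c :: Z) ++ a :: z :: b :: X) q := by simpa using hn
        have h2 : NullW G ω (n + 1) ((c :: Z) ++ a :: b :: X) (q + ω a b z) :=
          h0.triAt _ _ _ _ _ _ _ h1 hab haz hzb
        have h4 := irr_lin hIw (X := a :: b :: X) (c := c) (s := s) (Z := Z) (by simp) hs
          (by simp) hm (by simpa using h2) (by rw [← hpq]; ring)
        omega

end Pool.Agent.MSN
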