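import Pool.Agent.MSF.Final
import Pool.Agent.MSF.PEEL
import Pool.Agent.MSF.ZIP
import Pool.Agent.MSF.GLUE
import Pool.Agent.MSF.FILL
import Pool.Agent.MSF.LARGE
import Pool.Agent.MSF.TRIG
import Pool.Agent.MSF.DISC1
import Pool.Agent.MSF.DISC2
import Pool.Agent.MSF.DISC3
import Pool.Agent.MSF.A3
import Pool.Agent.MSF.RED
import Pool.Agent.MSF.ANGZ
import Pool.Agent.MSF.DEX
import Pool.Agent.MSF.T1I
import Pool.Agent.MSF.T1
import Pool.Agent.MSF.T2I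
import Pool.Agent.MSF.T2
import Pool.Agent.MSF.T3
import Pool.Agent.MSF.H2N
import Pool.Agent.MSF.N2H
import Pool.Agent.MSF.RES
import Pool.Agent.MSN.INV
import Pool.Agent.MSN.INV2
import Pool.Agent.MSN.FIN
import Pool.Agent.MSN.GB
import Pool.Agent.MSN.RRI
import Pool.Agent.MSN.RRB0
import Pool.Agent.MSN.RRB1
import Pool.Agent.MSN.RR
import Pool.Agent.MSN.CYC
import Pool.Agent.MSN.UNI
import Pool.Agent.MSN.SUB
import Pool.Agent.MSN.FAN
import Pool.Agent.MSN.MTI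
import Pool.Agent.MSN.MTBR
import Pool.Agent.MSN.MTB2
import Pool.Agent.MSN.MTB1
import Pool.Agent.MSN.MTD
import Pool.Agent.MSN.MT
import Pool.Agent.MSN.EXT
import Pool.Agent.MSN.BREV
import Pool.Agent.MSN.SIDE
import Pool.Agent.MSN.NR
import Pool.Agent.MSN.CHORD
import Pool.Agent.MSN.DIST
import Pool.Agent.MSN.TREE
import Pool.Agent.MSN.GEOD
import Pool.Agent.MSN.MAP
import Pool.Agent.MSN.REAL
import Pool.Agent.MSN.EUC
import Pool.Agent.MSN.CANC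
import Pool.Agent.MSN.HEAD
import Pool.Agent.MSN.EQA
import Pool.Agent.MSN.LMIN
import Pool.Agent.MSN.LIRR
import Pool.Agent.MSN.LGOOD
import Pool.Agent.MSN.LAB
import Pool.Agent.MSN.LKS
import Pool.Agent.MSN.LTR
import Pool.Agent.MSN.LGO
import Pool.Agent.MSN.LFIN
import Pool.Agent.MSN.SURJA
import Pool.Agent.MSN.WBAS
import Pool.Agent.MSN.WPEEL
import Pool.Agent.MSN.WZIP
import Pool.Agent.MSN.WGLUE
import Pool.Agent.MSN.WGEN
import Pool.Agent.MSN.WFILL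
import Pool.Agent.MSN.WEXP
import Pool.Agent.MSN.WFOR
import Pool.Agent.MSN.WA3
import Pool.Agent.MSN.WANGZ
import Pool.Agent.MSN.WRED
import Pool.Agent.MSN.WDEX
import Pool.Agent.MSN.WPD
import Pool.Agent.MSN.WPAIR
import Pool.Agent.MSN.WH
import Pool.Agent.MSN.WUNIQ
import Pool.Agent.MSN.INJN
import Pool.Agent.MSN.INJA
import Pool.Agent.MSN.AMain
import Pool.Agent.MSN.P_FRED
import Pool.Agent.MSN.P_FMAIN
import Pool.Agent.MSN.GRNK
import Pool.Agent.MSN.GSGN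
import Pool.Agent.MSN.GTRC
import Pool.Agent.MSN.GLEF
import Pool.Agent.MSN.GCQF
import Pool.Agent.MSN.GKEY
import Pool.Agent.MSN.GCQA
import Pool.Agent.MSN.GSOL
import Pool.Agent.MSN.GMAIN

/-!
# Assembly of the interface (MP_d6353f_al (a), MSN)
-/

namespace Pool.Agent.MSN.Asm

open Pool.Agent.MSF Pool.Agent.MSN

universe u

theorem zip : T_ZIP.{u} := tZIP tPEEL
theorem glue : T_GLUE.{u} := tGLUE zip
theorem gen : T_GEN.{u} := tGEN zip
theorem dex : T_DEX.{u} := tDEX (tA3 tPEEL) tRED (tANGZ tDISC1 (tDISC3 tDISC1) tFILL glue) tDISC1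
theorem ds : T_DS.{u} := tDS dex tDISC1 tDISC2 (tDISC3 tDISC1)
theorem t1 : T_T1.{u} := tT1 (tT1I gen) ds tFILL glue
theorem t2 : T_T2.{u} := tT2 (tT2I zip gen glue) ds tFILL glue
theorem t3 : T_T3.{u} := tT3 ds (tCONE zip) zip

theorem rr : T_RR.{u} := tRR tINV (tRRI tINV) (tRRB0 tINV) (tRRB1 tINV)
theorem sub : T_SUB.{u} := tSUB tINV rr tCYC tUNI
theorem mt : T_MT.{u} := tMT tINV rr tMTI tMTBR (tMTB2 (tGB tINV)) (tMTB1 (tGB tINV)) tMTD
theorem side : T_SIDE.{u} := tSIDE tINV sub tFAN tBREV mt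
theorem nr : T_NR.{u} := tNR tINV sub tFAN (tGB tINV)
theorem chord : T_CHORD.{u} := tCHORD tINV (tFIN tINV) (tEXT tINV (tINV2 tINV)) tBREV nr
theorem dist : T_DIST.{u} := tDIST tINV chord nr side tBREV
theorem real : T_REAL.{u} := tREAL tDISC1 tINV (tGB tINV) sub tFAN tMAP
theorem eqa : T_EQA.{u} := tEQA tCANC tHEAD
theorem lfin : T_LFIN.{u} := tLFIN (tTREE tINV rr) tINV tLKS (tLTR tLAB) (tLGO tCANC)

theorem surj : T_SURJ.{u} :=
  tSURJA dex (tH2N zip) tLARGE tTRIG tINV (tFIN tINV) dist tGEOD real tEUC eqa tLMIN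
    (tLIRR tCANC tHEAD) tLGOOD tLAB lfin tHEAD

theorem inj : T_INJ.{u} := tINJA zip (tINJN ds (tCONE zip) zip tRES)

theorem uniq : T_UNIQ.{u} := by
  have wred : T_WRED.{u} := tWRED tWBAS
  have wpeel : T_WPEEL.{u} := tWPEEL tWBAS
  have wzip : T_WZIP.{u} := tWZIP tWBAS wpeel
  have wglue : T_WGLUE.{u} := tWGLUE tWBAS wzip
  have wgen : T_WGEN.{u} := tWGEN tWBAS wzip
  have wfill : T_WFILL.{u} := tWFILL tWBAS
  have wexp : T_WEXP.{u} := tWEXP tWBAS tDISC1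
  have wa3 : T_WA3.{u} := tWA3 tWBAS wpeel
  have wangz : T_WANGZ.{u} := tWANGZ tWBAS tDISC1 tWFOR wexp wfill wglue
  have wdex : T_WDEX.{u} := tWDEX tWBAS wa3 wred wangz tDISC1 tWFOR
  have wpd : T_WPD.{u} := tWPD tWBAS wglue wfill wexp tWFOR wdex tDISC1 tDISC2
  have wpair : T_WPAIR.{u} := tWPAIR tWBAS wpeel wgen wpd
  have wh : T_WH.{u} := tWH tWBAS wzip
  have h : T_WBAS.{u} → T_WPAIR.{u} → T_WH.{u} → T_UNIQ.{u} := tWUNIQ
  intro V
  exact h tWBAS wpair wh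

theorem key : Pool.Agent.MSN.Grp.T_KEY.{u} :=
  Grp.tKEY tRES tLARGE tTRIG uniq inj surj Alg.tEXA Alg.tEXC Alg.tEXB Alg.tEXD Alg.tEXF Alg.tGX
    Alg.tLT Alg.tZETA Alg.tCHI Alg.tOD Alg.tPG

theorem lef : Pool.Agent.MSN.Grp.T_LEF.{u} := Grp.tLEF Grp.tRNK Grp.tSGN Grp.tTRC

theorem cqa : Pool.Agent.MSN.Grp.T_CQA.{u} :=
  Grp.tCQA key (Grp.tCQF Grp.tSGN lef) Fin.finite_reduction

theorem sol : Pool.Agent.MSN.Grp.T_SOL.{u} :=
  Grp.tSOL cqa t2 t3 tRES tLARGE tTRIG (tH2N zip) tN2H tIND tMCI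

theorem main : Pool.Agent.MSN.Grp.T_MAIN.{u} := Grp.tMAIN cqa sol

end Pool.Agent.MSN.Asm
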