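import Pool.Agent.MSN.ADefs

/-!
# M4: the algebra (MP_d6353f_al), targets

Every `T_X` is one job: prove `theorem tX : T_X.{u}` in `Pool/Agent/MSN/AX.lean`
(`import Pool.Agent.MSN.ATargets`). No target uses another one.

Calculus (ADefs, FDefs): `Hom K P Q` homotopy, `IsP K a b P` edge path from `a` to `b`
(`IsP.comp : P ++ Q.tail`, `IsP.reverse`, `IsP.cancel`, `IsP.of_hom`, `IsP.cases`, `isP_eq_cons`,
`isP_eq_snoc`, `Hom.left/right/ctx/spur/tri`, `hom_mulL`, `hom_mono`, `isP_mono`,
`hom_of_simplyConn`); `HW K ω P Q t` homotopy of value `t` (`hw_hom`, `hw_of_hom`, `hw_left`,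
`hw_right`, `hw_ctx`, `hw_reverse`, `hw_cancel : P.reverse ++ P.tail`,
`hw_cancel' : P ++ P.reverse.tail`, `hw_mulL`, `hw_cast`), `Uq K ω` = uniqueness of values,
`Uq.eq`, `J K ω P Q` the value, `J_spec`, `Uq.J_eq`.
-/

namespace Pool.Agent.MSN.Alg

open List Pool.Agent.MSF Pool.Agent.MSN Pool.Agent.MSN.Fin

universe u

/-- EXA (30 min): exactness for `j = 0, 1`.
`j = 0`: take a vertex `v` (`G.Connected`), `t = {v}`: `c ∅ = 0`; `e = 0` (the sum over `∅` is `0`).
`j = 1`: for an edge `a b`, `t = {a, b}` gives `c {b} + c {a} = 0`, so `c {a} = c {b}` (`ZMod 2`,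
`CharTwo`); by connectedness (`G.Connected`, induction on a walk, or `Relation.ReflTransGen`)
`c {a} = c {o}` for all `a`; `e = fun _ => c {o}`. -/
def T_EXA : Prop := ∀ {V : Type u} [DecidableEq V] (G : SimpleGraph V), G.Connected →
  Ex G 0 ∧ Ex G 1

/-- EXC (45 min): from functions of two and three variables to functions on finite sets.
`Ex2 → Ex G 2`: `c' a b = c {a, b}`; for a triangle use `t = {a, b, d}`; from `f` put
`e s = ∑ x ∈ s, f x`.
`Ex3 → Ex G 3`: `ω a b d = c {a, b, d}` (`Sym3`: `Finset.insert_comm`); `Cocy` from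
`t = {a, b, c, d}`; from the symmetric `η` put `e s = η a b` if `s = {a, b}` with `a ≠ b`
(by choice; well defined, as `{a, b} = {a', b'}` implies `(a', b') = (a, b)` or `(b, a)`),
zero otherwise. (`Finset.card_eq_two`, `Finset.card_eq_three`, `Finset.erase_insert`.) -/
def T_EXC : Prop := ∀ {V : Type u} [DecidableEq V] (G : SimpleGraph V),
  (Ex2 G → Ex G 2) ∧ (Ex3 G → Ex G 3)

/-- EXB (1 h): exactness for functions of two variables. Let `val P` be the sum of `c x y` over
consecutive elements of the list `P` (define it by recursion as `plen` in MSF/Defs). `Elem` does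
not change `val` (spur: `2 c a b = 0`; tri: the hypothesis), so `Hom G P Q → val P = val Q`. Fix `o`,
choose paths `g x` (`IsP G o x (g x)`, from connectedness: hypothesis), `f x = val (g x)`. For an
edge `a b` the paths `g a ++ [b]` and `g b` have the same ends, so they are homotopic
(`hom_of_simplyConn`), and `val (g a ++ [b]) = val (g a) + c a b` (`isP_eq_snoc`). -/
def T_EXB : Prop := ∀ {V : Type u} (G : SimpleGraph V), SimplyConn G →
  (∀ a b, ∃ P, IsP G a b P) → Ex2 G

/-- EXD (1 h): exactness for functions of three variables. Fix `o`, paths `g x` from `o` to `x`.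
`η x y = J G ω (g x ++ [y]) (g y)` if `G.Adj x y`, zero otherwise. The two paths are homotopic by
`hom_of_simplyConn`. For an edge `x y` write `H(x,y) : HW (g x ++ [y]) (g y) (η x y)`.
Symmetry: `HW (g x) (g x ++ [y, x]) 0` (spur), `HW (g x ++ [y, x]) (g y ++ [x]) (η x y)` (`hw_right`),
`HW (g y ++ [x]) (g x) (η y x)`; so `HW (g x) (g x) (η x y + η y x)` and `Uq` gives zero.
Triangle `a b d`: `HW (g a ++ [d]) (g a ++ [b, d]) (ω a b d)` (tri at the end of `g a`,
`isP_eq_snoc`), then `(g b ++ [d])` with `η a b`, then `g d` with `η b d`; and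
`HW (g a ++ [d]) (g d) (η a d)`; `Uq.eq`. -/
def T_EXD : Prop := ∀ {V : Type u} (G : SimpleGraph V), SimplyConn G →
  (∀ a b, ∃ P, IsP G a b P) → (∀ ω : V → V → V → ZMod 2, Sym3 ω → Cocy G ω → Uq G ω) → Ex3 G

/-- EXF (1.5 h): exactness for `j = 4`. (i) For every `v` and every `c` there is `e` with
`∑ x ∈ s, e (s.erase x) = if v ∈ s then c s else 0` for all cliques `s` with four vertices: apply
`ExtV G v` to `η a b d = c {v, a, b, d}`, get `ζ`, put `e t = 0` if `v ∈ t` and `e t = ζ a b d` if
`v ∉ t`, `t = {a, b, d}` with `a, b, d` different (by choice, well defined by `Sym3 ζ`), zero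
otherwise. If `v ∉ s = {a, b, c, d}` use `Cocy (delG G v) ζ`; if `s = {v, a, b, d}` only the term
`s.erase v` is not zero, and it is `ζ a b d = η a b d`. (ii) The set of all `c` for which the
conclusion of `Ex G 4` holds is closed under sums and contains `Pi.single s₀ a` for all `s₀`, `a`
(if `s₀` is a clique with four vertices, use (i) with `v ∈ s₀`; otherwise `e = 0`). (iii)
`c = ∑ s₀, Pi.single s₀ (c s₀)` (`Finset.univ_sum_single`). -/
def T_EXF : Prop := ∀ {V : Type u} [Fintype V] [DecidableEq V] (G : SimpleGraph V),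
  (∀ v, ExtV G v) → Ex G 4

/-- GX (1 h): paths and `Lam` data. Connectedness: for `x ≠ v` take an edge path of `G` from `v` to
`x` (hypothesis); the part after the last visit of `v` is a path of `delG G v` from a neighbour
`o x` of `v` to `x` (induction on the path: `List` induction, `IsP.cases`). For neighbours `x` of `v`
take `g x = [x]`. By the hypothesis `hS` (SURJ) applied to the path `g x ++ (g y).reverse` of
`delG G v` (`(g y).reverse` is a path from `y` to `o y`, `x y` is an edge; `IsP.comp`, or `isChain_append`) there is for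
every edge `x y` of `delG G v` a path `L x y` of `lkG G v` homotopic to it in `delG G v`; its ends are
`o x`, `o y` (`Hom.head`, `Hom.last`). `lam x y = [x, y]` if `x y` is an edge of `lkG G v`; otherwise
`lam x y = L x y` if `WellOrderingRel x y`, and `(L y x).reverse` if not (homotopies can be reversed:
prove `Hom K P Q → Hom K P.reverse Q.reverse` by induction; `(g x ++ (g y).reverse).reverse =
g y ++ (g x).reverse`). `rev` by trichotomy and asymmetry of `WellOrderingRel` (`x ≠ y`). -/
def T_GX : Prop := ∀ {V : Type u} (G : SimpleGraph V) (v : V), (∀ a b, ∃ P, IsP G a b P) →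
  (∀ (P : List V) (hP : P ≠ []), List.IsChain (delG G v).Adj P →
    G.Adj v (P.head hP) → G.Adj v (P.getLast hP) →
    ∃ Q : List V, Q ≠ [] ∧ List.IsChain (lkG G v).Adj Q ∧
      Relation.EqvGen (Elem (delG G v)) P Q) →
  ∃ (o : V → V) (g : V → List V) (lam : V → V → List V), Lam G v o g lam

/-- LT (1 h): `lam x z` is homotopic to `lam x y` followed by `lam y z`, in the link. Step 1: two
paths `P`, `Q` of `lkG G v` from `a` to `b`, `a` adjacent to `v`, which are homotopic in `delG G v`
are homotopic in `lkG G v`: the closed path `R = P ++ Q.reverse.tail` is homotopic in `delG G v` to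
`Q ++ Q.reverse.tail` and to `[a]` (`IsP.cancel` for `Q.reverse`); if `R ≠ [a]`, then
`R = a :: (p ++ [a])` and `hI` (INJ) shows that `R` is null-homotopic in `lkG G v`; conclude as in the
proof of `hom_of_simplyConn` (ADefs). Step 2, in `delG G v`:
`lam x y ++ (lam y z).tail ∼ lam x y ++ (g y ++ (g z).reverse).tail` (`hom_mulL`)
`∼ g x ++ (g y).reverse ++ (g y).tail ++ (g z).reverse` (`Hom.right`)
`∼ g x ++ [y] ++ (g z).reverse` (`IsP.cancel`) `∼ g x ++ (g z).reverse` (`Hom.tri`, as `g x` ends with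
`x` and `(g z).reverse` starts with `z`) `∼ lam x z`. -/
def T_LT : Prop := ∀ {V : Type u} (G : SimpleGraph V) (v : V) (o : V → V) (g : V → List V)
    (lam : V → V → List V), Lam G v o g lam →
  (∀ (a : V) (p : List V), G.Adj v a → List.IsChain (lkG G v).Adj (a :: (p ++ [a])) →
    Relation.EqvGen (Elem (delG G v)) (a :: (p ++ [a])) [a] →
    Relation.EqvGen (Elem (lkG G v)) (a :: (p ++ [a])) [a]) →
  ∀ x y z, (delG G v).Adj x y → (delG G v).Adj y z → (delG G v).Adj x z →
    Hom (lkG G v) (lam x z) (lam x y ++ (lam y z).tail)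

/-- ZETA (1.5 h): the cocycle. `ζ x y z = J K η (lam x z) (lam x y ++ (lam y z).tail)` if `x y z` is a
triangle of `D`, zero otherwise. For a triangle `H(x,y,z) : HW K η (lam x z) (lam x y ++ (lam y z).tail)
(ζ x y z)` (`J_spec`, hypothesis `tri`). `Sym3`: `ζ a b c = ζ b a c`: multiply `H(a,b,c)` on the left by
`lam b a = (lam a b).reverse` (`hw_mulL`) and cancel (`hw_cancel`, `hw_right`): a homotopy from
`lam b a ++ (lam a c).tail` to `lam b c` of value `ζ a b c`; `ζ a b c = ζ a c b`: multiply on the right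
by `lam c b` (`hw_right` with `(lam c b).tail`), cancel with `hw_cancel'`: from
`lam a c ++ (lam c b).tail` to `lam a b`. `Cocy`, for a 4-clique `a b c d` of `D`:
`lam a d ∼ lam a b · lam b d ∼ lam a b · lam b c · lam c d` has value `ζ a b d + ζ b c d`,
`lam a d ∼ lam a c · lam c d ∼ lam a b · lam b c · lam c d` has value `ζ a c d + ζ a b c`; `Uq.eq`.
Last claim: `HW.tri [] []` from `[a, d]` to `[a, b, d]`, `Uq.J_eq`. -/
def T_ZETA : Prop := ∀ {V : Type u} (K D : SimpleGraph V) (o : V → V) (lam : V → V → List V)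
    (η : V → V → V → ZMod 2), Sym3 η → Uq K η → (∀ a b, K.Adj a b → D.Adj a b) →
  (∀ x y, D.Adj x y → IsP K (o x) (o y) (lam x y)) →
  (∀ x y, D.Adj x y → lam y x = (lam x y).reverse) →
  (∀ x y, K.Adj x y → lam x y = [x, y]) →
  (∀ x y z, D.Adj x y → D.Adj y z → D.Adj x z → Hom K (lam x z) (lam x y ++ (lam y z).tail)) →
  ∃ ζ : V → V → V → ZMod 2, Sym3 ζ ∧ Cocy D ζ ∧
    ∀ a b d, K.Adj a b → K.Adj b d → K.Adj a d → ζ a b d = η a b d

/-- CHI (1 h): the Euler characteristic. Let `A j = ({s : Finset V // G.IsClique s ∧ s.card = j} → ZMod 2)`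
and `d j : A j →ₗ[ZMod 2] A (j+1)`, `(d j c) t = ∑ x ∈ t.1.attach, c ⟨t.1.erase x, _⟩` (or
`∑ s, if s.1 ⊆ t.1 then c s else 0`). `Ex G j` says `ker (d j) = range (d (j-1))` for `j ≥ 1` (extend
functions by zero to all finite sets; `d j ∘ d (j-1) = 0` is not needed if you prove `≤` from it: it
IS needed for `range ≤ ker`: every pair `x ≠ y` of `t` counts twice) and `ker (d 0) = ⊥` for `j = 0`.
With `r j = finrank (range (d j))`: `nC G 0 = r 0`, `nC G (j+1) = r (j+1) + r j`
(`LinearMap.finrank_range_add_finrank_ker`, `Module.finrank_fintype_fun_eq_card`), so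
`∑ j ∈ range n, (-1)^j nC G j = ± r (n-1)`, and `r j = 0` if `j ≥ Fintype.card V` (`A (j+1)` is
zero: no cliques with more than `card V` vertices). -/
def T_CHI : Prop := ∀ {V : Type u} [Fintype V] [DecidableEq V] (G : SimpleGraph V),
  (∀ j, Ex G j) → ∀ n : ℕ, Fintype.card V < n →
    ∑ j ∈ Finset.range n, (-1 : ℤ) ^ j * (nC G j : ℤ) = 0

/-- OD (1.5 h): the number of invariant cliques is odd. Let `K = {s : Finset V // G.IsClique s}` (with
the empty clique), `D : Matrix K K (ZMod 2)`, `D t s = 1` if `s.1 ⊆ t.1` and `t.card = s.card + 1`,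
else zero, so `(D.mulVec c) t = ∑ x ∈ t, c (t.erase x)`. Exactness: `D * D = 0`, and `D.mulVec c = 0`
implies `c = D.mulVec e` for some `e` (apply `Ex G j` to `c` restricted to cliques with `j` vertices,
extended by zero, to get `e_j`; then `e s = e_(s.card + 1) s`). Linear algebra: if
`ker D = range D` then there is `S` with `D * S + S * D = 1` (with `f = D.mulVecLin`, `π` a linear
projection onto `ker f`, `r : ker f → (K → ZMod 2)` a linear right inverse of `f` (onto its range
`ker f`), put `S = (1 - π) r π`: `f S = f r π = π`, `S f = (1 - π) r f = 1 - π`, as `r f x - x` lies in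
`ker f`). For the automorphism `g` let `P` be the permutation matrix of `s ↦ s.image g` on `K`;
`P * D = D * P`; `trace P = trace (P D S) + trace (P S D) = trace (P D S) + trace (D P S) =
2 trace (P D S) = 0` (`Matrix.trace_mul_comm`/`trace_mul_cycle`), and `trace P` is the number of
`s` with `s.image g = s` mod 2 (`Matrix.trace_permutation`). So this number is even, and without the
empty clique it is odd. (`InvClique`: `g x ∈ s` for all `x ∈ s` is `s.image g = s`, as `g` is
injective.) -/
def T_OD : Prop := ∀ {V : Type u} [Fintype V] [DecidableEq V] (G : SimpleGraph V),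
  (∀ j, Ex G j) → ∀ g : Equiv.Perm V, (∀ a b, G.Adj (g a) (g b) ↔ G.Adj a b) →
    Odd (Nat.card {s : Finset V // InvClique G g s})

/-- PG (1 h): `p`-groups. Suppose there is no invariant nonempty clique. `H` acts on
`{s : Finset V // G.IsClique s ∧ s.card = j}` by images (`Finset` has the pointwise action
`open Pointwise`, `h • s = s.image (h • ·)`), for `j ≥ 1` without fixed points, so `p ∣ nC G j`
(`IsPGroup.card_modEq_card_fixedPoints`). `nC G 0 = 1`. The alternating sum is zero (`n = card V + 1`),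
so `p ∣ 1`. -/
def T_PG : Prop := ∀ {V : Type u} [Fintype V] [DecidableEq V] (G : SimpleGraph V),
  (∀ n : ℕ, Fintype.card V < n → ∑ j ∈ Finset.range n, (-1 : ℤ) ^ j * (nC G j : ℤ) = 0) →
  ∀ (p : ℕ) [Fact p.Prime] (H : Type) [Group H] [Finite H] [MulAction H V], IsPGroup p H →
    (∀ (h : H) (a b : V), G.Adj (h • a) (h • b) ↔ G.Adj a b) →
    ∃ s : Finset V, s.Nonempty ∧ G.IsClique s ∧ ∀ (h : H), ∀ x ∈ s, h • x ∈ s

/-- ALGA: assembly. -/
def T_ALGA : Prop := Pool.Agent.MSF.T_RES.{u} → Pool.Agent.MSF.T_LARGE.{u} →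
  Pool.Agent.MSF.T_TRIG.{u} → T_UNIQ.{u} → T_INJ.{u} → T_SURJ.{u} → T_EXA.{u} → T_EXC.{u} →
  T_EXB.{u} → T_EXD.{u} → T_EXF.{u} → T_GX.{u} → T_LT.{u} → T_ZETA.{u} → T_CHI.{u} →
  T_OD.{u} → T_PG.{u} → T_ODD.{u} ∧ T_PGR.{u}

end Pool.Agent.MSN.Alg
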