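import Pool.Agent.MSN.Lol

/-!
# CANC: cancellation of paths
-/

namespace Pool.Agent.MSN

open List Pool.Agent.MSF

universe u

namespace CANC

variable {V : Type u}

lemma lcl_cons (z w : V) (Z : List V) : lcl z (w :: Z) = lcl w Z := by
  unfold lcl
  rw [List.getLast_cons (by simp)]

lemma first (H : SimpleGraph V) (X Y : List V) : ∀ (Z : List V) (z : V),
    List.IsChain H.Adj (z :: Z) →
    Relation.EqvGen (Elem H) (X ++ ((z :: Z).reverse ++ (Z ++ Y))) (X ++ (lcl z Z :: Y)) := by
  intro Z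
  induction Z with
  | nil =>
    intro z _
    have : X ++ ([z].reverse ++ ([] ++ Y)) = X ++ (lcl z [] :: Y) := by simp [lcl]
    rw [this]
    exact Relation.EqvGen.refl _
  | cons w Z' ih =>
    intro z hz
    rw [List.isChain_cons_cons] at hz
    have h1 := ih w hz.2
    rw [lcl_cons]
    refine Relation.EqvGen.trans _ _ _ (Relation.EqvGen.symm _ _ (Relation.EqvGen.rel _ _ ?_)) h1
    have h2 := Elem.spur (G := H) (X ++ Z'.reverse) (Z' ++ Y) w z hz.1.symm
    have e1 : X ++ ((w :: Z').reverse ++ (Z' ++ Y)) = X ++ Z'.reverse ++ w :: (Z' ++ Y) := by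
      simp
    have e2 : X ++ ((z :: w :: Z').reverse ++ (w :: Z' ++ Y)) =
        X ++ Z'.reverse ++ w :: z :: w :: (Z' ++ Y) := by
      simp
    rw [e1, e2]
    exact h2

lemma second (H : SimpleGraph V) : ∀ (Z : List V) (z : V) (X Y : List V),
    List.IsChain H.Adj (z :: Z) →
    Relation.EqvGen (Elem H) (X ++ (z :: (Z ++ ((z :: Z).reverse.tail ++ Y))))
      (X ++ (z :: Y)) := by
  intro Z
  induction Z with
  | nil =>
    intro z X Y _
    have : X ++ (z :: ([] ++ ([z].reverse.tail ++ Y))) = X ++ (z :: Y) := by simp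
    rw [this]
    exact Relation.EqvGen.refl _
  | cons w Z' ih =>
    intro z X Y hz
    rw [List.isChain_cons_cons] at hz
    have h1 := ih w (X ++ [z]) (z :: Y) hz.2
    have e0 : (z :: w :: Z').reverse.tail = (w :: Z').reverse.tail ++ [z] := by
      rw [List.reverse_cons, List.tail_append_of_ne_nil (by simp)]
    have e1 : X ++ (z :: (w :: Z' ++ ((z :: w :: Z').reverse.tail ++ Y))) =
        X ++ [z] ++ (w :: (Z' ++ ((w :: Z').reverse.tail ++ z :: Y))) := by
      rw [e0]
      simp
    have e2 : X ++ [z] ++ (w :: z :: Y) = X ++ z :: w :: z :: Y := by simp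
    rw [e1]
    refine Relation.EqvGen.trans _ _ _ h1 (Relation.EqvGen.symm _ _ (Relation.EqvGen.rel _ _ ?_))
    rw [e2]
    exact Elem.spur (G := H) X Y z w hz.1

end CANC

theorem tCANC : T_CANC.{u} := by
  intro V H X Y Z z hz
  exact ⟨CANC.first H X Y Z z hz, CANC.second H Z z X Y hz⟩

end Pool.Agent.MSN
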