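import Pool.Agent.MSF.Targets

/-!
# Finite p-groups on non-obtuse metrically systolic complexes (MP_d6353f_al, part (a))

Interface definitions and interface statements. Blueprint: row 4788 of the table `ideas`.
-/

namespace Pool.Agent.MSN

open List Pool.Agent.MSF

universe u

/-- All angles of triangles are at most `π / 2`. -/
def NonObtuse {V : Type u} (G : SimpleGraph V) (len : V → V → ℝ) : Prop :=
  ∀ v a b, G.Adj v a → G.Adj v b → G.Adj a b → angle len v a b ≤ Real.pi / 2

/-- The full subcomplex on the vertices different from `v`. -/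
abbrev delG {V : Type u} (G : SimpleGraph V) (v : V) : SimpleGraph V := resG G {x | x ≠ v}

/-- The link of `v`. -/
abbrev lkG {V : Type u} (G : SimpleGraph V) (v : V) : SimpleGraph V := resG G {x | G.Adj v x}

/-- Homotopies of edge paths, with values: the value is the sum of `ω` over the triangles used. -/
inductive HW {V : Type u} (G : SimpleGraph V) (ω : V → V → V → ZMod 2) :
    List V → List V → ZMod 2 → Prop
  | refl (P : List V) : HW G ω P P 0
  | spur (p q : List V) (a b : V) (h : G.Adj a b) :
      HW G ω (p ++ a :: q) (p ++ a :: b :: a :: q) 0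
  | tri (p q : List V) (a b c : V) (hab : G.Adj a b) (hbc : G.Adj b c) (hac : G.Adj a c) :
      HW G ω (p ++ a :: c :: q) (p ++ a :: b :: c :: q) (ω a b c)
  | symm {P Q : List V} {t : ZMod 2} (h : HW G ω P Q t) : HW G ω Q P t
  | trans {P Q R : List V} {s t : ZMod 2} (h : HW G ω P Q s) (h' : HW G ω Q R t) :
      HW G ω P R (s + t)

/-- Symmetric functions of three vertices. -/
structure Sym3 {V : Type u} (ω : V → V → V → ZMod 2) : Prop where
  s12 : ∀ a b c, ω a b c = ω b a c
  s23 : ∀ a b c, ω a b c = ω a c b

/-- `ω` is a cocycle: the sum over the four triangles of every 4-clique is zero. -/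
def Cocy {V : Type u} (G : SimpleGraph V) (ω : V → V → V → ZMod 2) : Prop :=
  ∀ a b c d, G.Adj a b → G.Adj a c → G.Adj a d → G.Adj b c → G.Adj b d → G.Adj c d →
    ω b c d + ω a c d + ω a b d + ω a b c = 0

/-- UNIQ: closed homotopies have value zero (asphericity, mod 2). -/
def T_UNIQ : Prop := ∀ {V : Type u} (G : SimpleGraph V) (ang : V → V → V → ℝ), Angled G ang →
  ∀ ω : V → V → V → ZMod 2, Sym3 ω → Cocy G ω →
  ∀ (P : List V) (t : ZMod 2), P ≠ [] → List.IsChain G.Adj P → HW G ω P P t → t = 0

/-- INJ: a closed path in the link of `v` which is null-homotopic in the complement of `v` is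
null-homotopic in the link. -/
def T_INJ : Prop := ∀ {V : Type u} (G : SimpleGraph V) (ang : V → V → V → ℝ), Angled G ang →
  ∀ (v a : V) (p : List V), G.Adj v a → List.IsChain (lkG G v).Adj (a :: (p ++ [a])) →
    Relation.EqvGen (Elem (delG G v)) (a :: (p ++ [a])) [a] →
    Relation.EqvGen (Elem (lkG G v)) (a :: (p ++ [a])) [a]

/-- SURJ: a path in the complement of `v` which starts and ends in the link of `v` is homotopic, in
the complement of `v`, to a path in the link. -/
def T_SURJ : Prop := ∀ {V : Type u} [Finite V] (G : SimpleGraph V) (len : V → V → ℝ),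
  MetricallySystolic G len → NonObtuse G len →
  ∀ (v : V) (P : List V) (hP : P ≠ []), List.IsChain (delG G v).Adj P →
    G.Adj v (P.head hP) → G.Adj v (P.getLast hP) →
    ∃ Q : List V, Q ≠ [] ∧ List.IsChain (lkG G v).Adj Q ∧
      Relation.EqvGen (Elem (delG G v)) P Q

/-- Invariant cliques of an automorphism. -/
def InvClique {V : Type u} (G : SimpleGraph V) (g : V → V) (s : Finset V) : Prop :=
  s.Nonempty ∧ G.IsClique s ∧ ∀ x, x ∈ s → g x ∈ s

/-- MAIN1 (from UNIQ, INJ, SURJ): every automorphism of a finite, non-obtuse, metrically systolic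
complex of dimension at most three has an odd number of invariant cliques. -/
def T_ODD : Prop := ∀ {V : Type u} [Fintype V] [DecidableEq V] (G : SimpleGraph V)
    (len : V → V → ℝ),
  MetricallySystolic G len → NonObtuse G len → G.CliqueFree 5 →
  ∀ g : Equiv.Perm V, (∀ a b, G.Adj (g a) (g b) ↔ G.Adj a b) →
    Odd (Nat.card {s : Finset V // InvClique G g s})

/-- MAIN2: every finite `p`-group acting simplicially on such a complex has an invariant clique. -/
def T_PGR : Prop := ∀ {V : Type u} [Fintype V] [DecidableEq V] (G : SimpleGraph V)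
    (len : V → V → ℝ),
  MetricallySystolic G len → NonObtuse G len → G.CliqueFree 5 →
  ∀ (p : ℕ) [Fact p.Prime] (H : Type) [Group H] [Finite H] [MulAction H V], IsPGroup p H →
    (∀ (h : H) (a b : V), G.Adj (h • a) (h • b) ↔ G.Adj a b) →
    ∃ s : Finset V, s.Nonempty ∧ G.IsClique s ∧ ∀ (h : H), ∀ x ∈ s, h • x ∈ s

end Pool.Agent.MSN
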