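import Pool.Agent.MSN.Defs

/-!
# M5: finite reduction (MP_d6353f_al), definitions and path algebra

A finite group `H` acts on a metrically systolic complex `X` (graph `G`).  We construct a finite
metrically systolic complex with an action of `H` and an equivariant map to `X` which is injective
on cliques.
-/

namespace Pool.Agent.MSN.Fin

open List Pool.Agent.MSF

universe u

/-- Homotopy of edge paths. -/
abbrev Hom {W : Type u} (K : SimpleGraph W) (P Q : List W) : Prop :=
  Relation.EqvGen (Elem K) P Q

/-- `P` is an edge path from `a` to `b`. -/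
structure IsP {W : Type u} (K : SimpleGraph W) (a b : W) (P : List W) : Prop where
  chain : P.IsChain K.Adj
  head : P.head? = some a
  last : P.getLast? = some b

/-- A finite path connected graph with an action of `H` and an equivariant, adjacency preserving
map `π` to the graph `G`. -/
structure HComp (H : Type) [Group H] {V : Type u} [MulAction H V] (G : SimpleGraph V) where
  W : Type u
  [fin : Finite W]
  [act : MulAction H W]
  K : SimpleGraph W
  π : W → V
  π_smul : ∀ (h : H) (w : W), π (h • w) = h • π w
  π_adj : ∀ a b, K.Adj a b → G.Adj (π a) (π b)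
  K_smul : ∀ (h : H) (a b : W), K.Adj a b → K.Adj (h • a) (h • b)
  ne : Nonempty W
  conn : ∀ a b : W, ∃ P, IsP K a b P

attribute [instance] HComp.fin HComp.act

/-- `f` is a map over `G`, preserves adjacency, and every closed path of the target at `f o` is
homotopic to the image of a closed path at `o`.  (Equivariance of `f` is not needed.) -/
structure Good {H : Type} [Group H] {V : Type u} [MulAction H V] {G : SimpleGraph V}
    (Y Y' : HComp H G) (f : Y.W → Y'.W) : Prop where
  pi_eq : ∀ w, Y'.π (f w) = Y.π w
  adj : ∀ a b, Y.K.Adj a b → Y'.K.Adj (f a) (f b)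
  surj : ∀ (o : Y.W) (P : List Y'.W), IsP Y'.K (f o) (f o) P →
    ∃ Q, IsP Y.K o o Q ∧ Hom Y'.K (Q.map f) P

/-- Number of non-adjacent ordered pairs. -/
noncomputable def HComp.nonadj {H : Type} [Group H] {V : Type u} [MulAction H V]
    {G : SimpleGraph V} (Y : HComp H G) : ℕ :=
  Nat.card {p : Y.W × Y.W // ¬ Y.K.Adj p.1 p.2}

/-! ### Homotopies -/

section paths

variable {W : Type u} {K : SimpleGraph W}

theorem elem_ctx {P Q : List W} (X Y : List W) (h : Elem K P Q) :
    Elem K (X ++ P ++ Y) (X ++ Q ++ Y) := by
  cases h with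
  | spur p q a b h => simpa using Elem.spur (X ++ p) (q ++ Y) a b h
  | tri p q a b c h1 h2 h3 => simpa using Elem.tri (X ++ p) (q ++ Y) a b c h1 h2 h3

theorem Hom.rfl' (P : List W) : Hom K P P := Relation.EqvGen.refl _

theorem Hom.symm' {P Q : List W} (h : Hom K P Q) : Hom K Q P := Relation.EqvGen.symm _ _ h

theorem Hom.trans' {P Q R : List W} (h : Hom K P Q) (h' : Hom K Q R) : Hom K P R :=
  Relation.EqvGen.trans _ _ _ h h'

theorem Hom.ctx {P Q : List W} (X Y : List W) (h : Hom K P Q) :
    Hom K (X ++ P ++ Y) (X ++ Q ++ Y) := by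
  induction h with
  | rel _ _ h => exact Relation.EqvGen.rel _ _ (elem_ctx X Y h)
  | refl _ => exact Relation.EqvGen.refl _
  | symm _ _ _ ih => exact Relation.EqvGen.symm _ _ ih
  | trans _ _ _ _ _ ih ih' => exact Relation.EqvGen.trans _ _ _ ih ih'

theorem Hom.left {P Q : List W} (X : List W) (h : Hom K P Q) : Hom K (X ++ P) (X ++ Q) := by
  simpa using Hom.ctx X [] h

theorem Hom.right {P Q : List W} (Y : List W) (h : Hom K P Q) : Hom K (P ++ Y) (Q ++ Y) := by
  simpa using Hom.ctx [] Y h

/-- Removing or inserting a backtrack. -/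
theorem Hom.spur (p q : List W) {a b : W} (h : K.Adj a b) :
    Hom K (p ++ a :: q) (p ++ a :: b :: a :: q) := Relation.EqvGen.rel _ _ (Elem.spur p q a b h)

/-- Pushing an edge across a triangle. -/
theorem Hom.tri (p q : List W) {a b c : W} (hab : K.Adj a b) (hbc : K.Adj b c) (hac : K.Adj a c) :
    Hom K (p ++ a :: c :: q) (p ++ a :: b :: c :: q) :=
  Relation.EqvGen.rel _ _ (Elem.tri p q a b c hab hbc hac)

theorem elem_head {P Q : List W} (h : Elem K P Q) : P.head? = Q.head? := by
  cases h with
  | spur p q a b h => cases p <;> simp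
  | tri p q a b c h1 h2 h3 => cases p <;> simp

theorem elem_last {P Q : List W} (h : Elem K P Q) : P.getLast? = Q.getLast? := by
  cases h with
  | spur p q a b h =>
    simp [List.getLast?_append, List.getLast?_cons]
  | tri p q a b c h1 h2 h3 =>
    simp [List.getLast?_append, List.getLast?_cons]

theorem elem_chain {P Q : List W} (h : Elem K P Q) : P.IsChain K.Adj ↔ Q.IsChain K.Adj := by
  cases h with
  | spur p q a b h =>
    constructor
    · intro hc
      rw [List.isChain_append] at hc ⊢
      refine ⟨hc.1, ?_, ?_⟩
      · simp only [List.isChain_cons_cons]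
        exact ⟨h, h.symm, hc.2.1⟩
      · simpa using hc.2.2
    · intro hc
      rw [List.isChain_append] at hc ⊢
      refine ⟨hc.1, ?_, ?_⟩
      · have := hc.2.1
        simp only [List.isChain_cons_cons] at this
        exact this.2.2
      · simpa using hc.2.2
  | tri p q a b c h1 h2 h3 =>
    constructor
    · intro hc
      rw [List.isChain_append] at hc ⊢
      refine ⟨hc.1, ?_, ?_⟩
      · have := hc.2.1
        simp only [List.isChain_cons_cons] at this ⊢
        exact ⟨h1, h2, this.2⟩
      · simpa using hc.2.2
    · intro hc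
      rw [List.isChain_append] at hc ⊢
      refine ⟨hc.1, ?_, ?_⟩
      · have := hc.2.1
        simp only [List.isChain_cons_cons] at this ⊢
        exact ⟨h3, this.2.2⟩
      · simpa using hc.2.2

theorem Hom.head {P Q : List W} (h : Hom K P Q) : P.head? = Q.head? := by
  induction h with
  | rel _ _ h => exact elem_head h
  | refl _ => rfl
  | symm _ _ _ ih => exact ih.symm
  | trans _ _ _ _ _ ih ih' => exact ih.trans ih'

theorem Hom.last {P Q : List W} (h : Hom K P Q) : P.getLast? = Q.getLast? := by
  induction h with
  | rel _ _ h => exact elem_last h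
  | refl _ => rfl
  | symm _ _ _ ih => exact ih.symm
  | trans _ _ _ _ _ ih ih' => exact ih.trans ih'

theorem Hom.chain {P Q : List W} (h : Hom K P Q) : P.IsChain K.Adj ↔ Q.IsChain K.Adj := by
  induction h with
  | rel _ _ h => exact elem_chain h
  | refl _ => rfl
  | symm _ _ _ ih => exact ih.symm
  | trans _ _ _ _ _ ih ih' => exact ih.trans ih'

theorem IsP.of_hom {a b : W} {P Q : List W} (hP : IsP K a b P) (h : Hom K P Q) : IsP K a b Q :=
  ⟨h.chain.1 hP.chain, h.head ▸ hP.head, h.last ▸ hP.last⟩

theorem Hom.map {W' : Type u} {K' : SimpleGraph W'} {f : W → W'}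
    (hf : ∀ a b, K.Adj a b → K'.Adj (f a) (f b)) {P Q : List W} (h : Hom K P Q) :
    Hom K' (P.map f) (Q.map f) := by
  induction h with
  | rel _ _ h =>
    apply Relation.EqvGen.rel
    cases h with
    | spur p q a b h => simpa using Elem.spur (p.map f) (q.map f) (f a) (f b) (hf _ _ h)
    | tri p q a b c h1 h2 h3 =>
      simpa using Elem.tri (p.map f) (q.map f) (f a) (f b) (f c) (hf _ _ h1) (hf _ _ h2)
        (hf _ _ h3)
  | refl _ => exact Relation.EqvGen.refl _
  | symm _ _ _ ih => exact Relation.EqvGen.symm _ _ ih
  | trans _ _ _ _ _ ih ih' => exact Relation.EqvGen.trans _ _ _ ih ih'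

theorem IsP.map {W' : Type u} {K' : SimpleGraph W'} {f : W → W'}
    (hf : ∀ a b, K.Adj a b → K'.Adj (f a) (f b)) {a b : W} {P : List W} (h : IsP K a b P) :
    IsP K' (f a) (f b) (P.map f) := by
  refine ⟨?_, by simp [h.head], by simp [List.getLast?_map, h.last]⟩
  rw [List.isChain_map]
  exact h.chain.imp hf

theorem IsP.single (a : W) : IsP K a a [a] := ⟨List.isChain_singleton _, rfl, rfl⟩

theorem IsP.ne_nil {a b : W} {P : List W} (h : IsP K a b P) : P ≠ [] := by
  intro h0
  have := h.head
  simp [h0] at this

theorem IsP.cases {a b : W} {P : List W} (h : IsP K a b P) :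
    (P = [a] ∧ a = b) ∨ ∃ c T, P = a :: c :: T ∧ K.Adj a c ∧ IsP K c b (c :: T) := by
  rcases P with _ | ⟨x, _ | ⟨y, T⟩⟩
  · exact absurd rfl h.ne_nil
  · left
    have h1 := h.head
    have h2 := h.last
    simp at h1 h2
    exact ⟨by rw [h1], h1 ▸ h2⟩
  · right
    have h1 := h.head
    have h2 := h.last
    have h3 := h.chain
    simp at h1
    subst h1
    simp only [List.isChain_cons_cons] at h3
    exact ⟨y, T, rfl, h3.1, h3.2, rfl, by simpa [List.getLast?_cons_cons] using h2⟩

theorem IsP.cons {a b c : W} {P : List W} (hab : K.Adj a b) (h : IsP K b c P) :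
    IsP K a c (a :: P) := by
  rcases P with _ | ⟨x, T⟩
  · exact absurd rfl h.ne_nil
  · have h1 := h.head
    simp at h1
    subst h1
    refine ⟨?_, rfl, ?_⟩
    · simp only [List.isChain_cons_cons]
      exact ⟨hab, h.chain⟩
    · rw [List.getLast?_cons_cons]
      exact h.last

/-- Composition of a path from `a` to `b` with a path from `b` to `c`. -/
theorem IsP.comp {a b c : W} {P Q : List W} (hP : IsP K a b P) (hQ : IsP K b c Q) :
    IsP K a c (P ++ Q.tail) := by
  rcases Q with _ | ⟨x, T⟩
  · exact absurd rfl hQ.ne_nil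
  · have h1 := hQ.head
    simp at h1
    subst h1
    have hc := hQ.chain
    refine ⟨?_, ?_, ?_⟩
    · rw [List.isChain_append]
      refine ⟨hP.chain, ?_, ?_⟩
      · exact hc.tail
      · intro y hy z hz
        rw [hP.last] at hy
        rcases T with _ | ⟨t, T⟩
        · simp at hz
        · simp at hy hz
          subst hy
          subst hz
          simp only [List.isChain_cons_cons] at hc
          exact hc.1
    · have := hP.ne_nil
      rw [List.head?_append_of_ne_nil _ this]
      exact hP.head
    · rcases T with _ | ⟨t, T⟩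
      · have h2 := hQ.last
        simp at h2
        subst h2
        simpa using hP.last
      · have h2 := hQ.last
        rw [List.getLast?_cons_cons] at h2
        rw [List.tail_cons, List.getLast?_append_of_ne_nil _ (by simp)]
        exact h2

theorem IsP.snoc {a b c : W} {P : List W} (h : IsP K a b P) (hbc : K.Adj b c) :
    IsP K a c (P ++ [c]) := by
  have := h.comp (IsP.cons hbc (IsP.single c))
  simpa using this

theorem IsP.reverse {a b : W} {P : List W} (h : IsP K a b P) : IsP K b a P.reverse := by
  refine ⟨?_, by rw [List.head?_reverse]; exact h.last, by rw [List.getLast?_reverse]; exact h.head⟩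
  rw [List.isChain_reverse]
  exact h.chain.imp fun _ _ hxy => hxy.symm

/-- `P⁻¹ P` is homotopic to a constant path. -/
theorem IsP.cancel {a b : W} {P : List W} (h : IsP K a b P) :
    Hom K (P.reverse ++ P.tail) [b] := by
  induction P generalizing a with
  | nil => exact absurd rfl h.ne_nil
  | cons x T ih =>
    rcases h.cases with ⟨h1, h2⟩ | ⟨c, T', h1, h2, h3⟩
    · subst h2
      rw [h1]
      exact Relation.EqvGen.refl _
    · simp only [List.cons.injEq] at h1
      obtain ⟨rfl, rfl⟩ := h1
      have h4 := ih h3
      refine Hom.trans' ?_ h4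
      have h5 := Hom.spur (K := K) T'.reverse T' h2.symm
      have e1 : (x :: c :: T').reverse ++ (x :: c :: T').tail =
        T'.reverse ++ c :: x :: c :: T' := by simp
      have e2 : (c :: T').reverse ++ (c :: T').tail = T'.reverse ++ c :: T' := by simp
      rw [e1, e2]
      exact h5.symm'

/-- If all closed paths at one vertex are null-homotopic, the complex is simply connected. -/
theorem simplyConn_of_base (hne : Nonempty W) (hc : ∀ a b : W, ∃ P, IsP K a b P) (o : W)
    (h : ∀ P, IsP K o o P → Hom K P [o]) : SimplyConn K := by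
  constructor
  · have := hne
    refine ⟨fun a b => ?_⟩
    obtain ⟨P, hP⟩ := hc a b
    clear h
    induction P generalizing a with
    | nil => exact absurd rfl hP.ne_nil
    | cons x T ih =>
      rcases hP.cases with ⟨_, h2⟩ | ⟨c, T', h1, h2, h3⟩
      · exact h2 ▸ SimpleGraph.Reachable.refl _
      · simp only [List.cons.injEq] at h1
        obtain ⟨_, rfl⟩ := h1
        exact h2.reachable.trans (ih c h3)
  · intro a p hp
    have hP : IsP K a a (a :: (p ++ [a])) := ⟨hp, rfl, by
      rw [← List.cons_append, List.getLast?_append_of_ne_nil _ (by simp)]; rfl⟩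
    obtain ⟨T, hT⟩ := hc o a
    -- the closed path `T P T⁻¹` at `o`
    have h1 := (hT.comp hP).comp hT.reverse
    have h2 := h _ h1
    -- `T⁻¹ (T P T⁻¹) T`
    obtain ⟨t, ht⟩ : ∃ t, T = o :: t := by
      rcases T with _ | ⟨x, t⟩
      · exact absurd rfl hT.ne_nil
      · have := hT.head
        simp at this
        exact ⟨t, by rw [this]⟩
    have hc1 := hT.cancel
    have e0 : T.reverse = a :: T.reverse.tail := by
      have hh := hT.reverse.head
      rcases h0 : T.reverse with _ | ⟨x, r⟩
      · simp [h0] at hh
      · rw [h0] at hh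
        simp at hh
        simp [hh]
    have hT1 : T.tail = t := by rw [ht]; rfl
    have hT2 : T.reverse = t.reverse ++ [o] := by rw [ht]; simp
    set r := T.reverse.tail with hr
    -- `T⁻¹ (T P T⁻¹) T` is null-homotopic
    have s1 : Hom K (t.reverse ++ (T ++ (a :: (p ++ [a])).tail ++ r) ++ t) [a] := by
      have := Hom.ctx t.reverse t h2
      rw [← hT2, ← hT1] at this
      rw [← hT1]
      exact this.trans' hc1
    -- and homotopic to `P`
    have s2 : Hom K (t.reverse ++ (T ++ (a :: (p ++ [a])).tail ++ r) ++ t)
        ([a] ++ ((p ++ [a]) ++ r ++ t)) := by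
      have := Hom.right ((p ++ [a]) ++ r ++ t) hc1
      have e1 : t.reverse ++ (T ++ (a :: (p ++ [a])).tail ++ r) ++ t =
          T.reverse ++ T.tail ++ ((p ++ [a]) ++ r ++ t) := by
        rw [hT1, hT2, ht]
        simp
      rw [e1]
      exact this
    have s3 : Hom K ([a] ++ ((p ++ [a]) ++ r ++ t)) (a :: (p ++ [a])) := by
      have := Hom.left (a :: p) hc1
      rw [e0, hT1] at this
      simpa using this
    exact (s3.symm'.trans' s2.symm').trans' s1

end paths

end Pool.Agent.MSN.Fin
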