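import Pool.Agent.MSN.FDefs

/-!
# M5: finite reduction, targets

`Hom K P Q` is homotopy of edge paths, `IsP K a b P` says that `P` is an edge path from `a` to `b`
(see `FDefs` for the calculus: `Hom.ctx`, `Hom.left`, `Hom.right`, `Hom.spur`, `Hom.tri`,
`Hom.map`, `Hom.head`, `Hom.chain`, `IsP.comp`, `IsP.reverse`, `IsP.cancel`, `IsP.cases`,
`simplyConn_of_base`).
-/

namespace Pool.Agent.MSN.Fin

open List Pool.Agent.MSF

universe u

/-- OPA: attach an orbit of new vertices `(h, b')` to the edges (or vertices) `h a, h c`.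

Proof. `W' = W ⊕ H`; `K'.Adj (inl w) (inl w') ↔ K.Adj w w'`,
`K'.Adj (inl w) (inr h) ↔ w = h • a ∨ w = h • c` (and symmetrically), no edges between the `inr`s;
`π' (inl w) = π w`, `π' (inr h) = h • b`; action `h • inr k = inr (h * k)`; `f = inl`,
`b' = inr 1`.  `π_adj` uses that `H` acts on `G` (hypothesis `hG`).  Surjectivity: by strong
induction on the length of `P`, every path `P` of `K'` from `inl x` to `inl y` is homotopic to
`Q.map inl` for a path `Q` of `K` from `x` to `y`: if the second vertex is `inl z` use the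
induction hypothesis; if it is `inr h`, then the third vertex exists and is `inl z` with
`x, z ∈ {h • a, h • c}`; if `x = z` remove the backtrack (`Hom.spur`), otherwise `K.Adj x z` and
push across the triangle (`Hom.tri`). -/
def T_OPA : Prop := ∀ (H : Type) [Group H] [Finite H] {V : Type u} [MulAction H V]
    (G : SimpleGraph V), (∀ (h : H) (a b : V), G.Adj a b → G.Adj (h • a) (h • b)) →
    ∀ (Y : HComp H G) (a c : Y.W) (b : V), (a = c ∨ Y.K.Adj a c) → G.Adj (Y.π a) b →
      G.Adj (Y.π c) b →
      ∃ (Y' : HComp H G) (f : Y.W → Y'.W) (b' : Y'.W), Good Y Y' f ∧ Y'.π b' = b ∧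
        Y'.K.Adj (f a) b' ∧ Y'.K.Adj b' (f c)

/-- OPB: add the orbit of an edge `x z` where `x`, `z` have a common neighbour `v`.

Proof. `W' = W`, `f = id`, `K'.Adj p q ↔ K.Adj p q ∨ ∃ h, (p = h • x ∧ q = h • z) ∨
(p = h • z ∧ q = h • x)`.  Surjectivity: every path `P` of `K'` from `p` to `q` is homotopic in
`K'` to a path of `K` (induction on `P` with `IsP.cases`): a new edge `h x, h z` is replaced by
`h x, h v, h z` (`Hom.tri`).  The number of non-adjacent pairs drops if `x z` was not an edge
(the subtype for `K'` is a proper subset of the subtype for `K`). -/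
def T_OPB : Prop := ∀ (H : Type) [Group H] [Finite H] {V : Type u} [MulAction H V]
    (G : SimpleGraph V), (∀ (h : H) (a b : V), G.Adj a b → G.Adj (h • a) (h • b)) →
    ∀ (Y : HComp H G) (x z v : Y.W), Y.K.Adj v x → Y.K.Adj v z → G.Adj (Y.π x) (Y.π z) →
      ∃ (Y' : HComp H G) (f : Y.W → Y'.W), Good Y Y' f ∧ Y'.K.Adj (f x) (f z) ∧
        (¬ Y.K.Adj x z → Y'.nonadj < Y.nonadj)

/-- OPC: fold `x` and `z` (with a common neighbour `v` and `π x = π z`), equivariantly.

Proof. `W' = Quotient s`, `s` the equivalence relation generated by `h • x ∼ h • z`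
(`Relation.EqvGen`); `π` is constant on classes; `K'.Adj A B ↔ ∃ p q, ⟦p⟧ = A ∧ ⟦q⟧ = B ∧
K.Adj p q` (irreflexive because `π p`, `π q` are adjacent, hence different, in `G`).
Surjectivity: (1) if `p ∼ q` there is a path `Q` of `K` from `p` to `q` with
`Hom K' (Q.map f) [f p]` (generators: `h x, h v, h z`, a backtrack in `K'`; `symm`, `trans` by
`IsP.reverse`, `IsP.comp`); (2) every path of `K'` from `⟦p⟧` to `⟦q⟧` is homotopic to `Q.map f`
for some path `Q` of `K` from `p` to `q` (induction with `IsP.cases`, using (1)).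
`nonadj`: `(A, B) ↦ (A.out', B.out')`, where `out'` is a section with `out' ⟦x⟧ = x`, is injective
from the non-adjacent pairs of `K'` to those of `K` and misses `(z, z)` if `x ≠ z`. -/
def T_OPC : Prop := ∀ (H : Type) [Group H] [Finite H] {V : Type u} [MulAction H V]
    (G : SimpleGraph V), (∀ (h : H) (a b : V), G.Adj a b → G.Adj (h • a) (h • b)) →
    ∀ (Y : HComp H G) (x z v : Y.W), Y.K.Adj v x → Y.K.Adj v z → Y.π x = Y.π z →
      ∃ (Y' : HComp H G) (f : Y.W → Y'.W), Good Y Y' f ∧ f x = f z ∧
        (x ≠ z → Y'.nonadj < Y.nonadj)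

/-- LIFT: homotopies of `G` lift, after enlarging `Y`.

Proof. Induction on the homotopy, both directions at once (`refl`: `Y' = Y`; `symm`: swap;
`trans`: compose, `Good` is closed under composition).  `rel`, four cases:
`spur` forward: `Q = p ++ a :: q`, OPA with `a = c`; `spur` backward:
`Q = p ++ a :: b :: a' :: q` with `π a = π a'`: OPC folds `a` and `a'`;
`tri` forward: OPA; `tri` backward: OPB.  Decompose `Q` with `List.map_eq_append_iff` and
`List.map_eq_cons_iff`. -/
def T_LIFT : Prop := ∀ (H : Type) [Group H] [Finite H] {V : Type u} [MulAction H V]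
    (G : SimpleGraph V), (∀ (h : H) (a b : V), G.Adj a b → G.Adj (h • a) (h • b)) →
    ∀ (P P' : List V), Hom G P P' →
      (∀ (Y : HComp H G) (Q : List Y.W), Q.IsChain Y.K.Adj → Q.map Y.π = P →
        ∃ (Y' : HComp H G) (f : Y.W → Y'.W) (Q' : List Y'.W), Good Y Y' f ∧
          Q'.IsChain Y'.K.Adj ∧ Q'.map Y'.π = P' ∧ Hom Y'.K (Q.map f) Q') ∧
      (∀ (Y : HComp H G) (Q : List Y.W), Q.IsChain Y.K.Adj → Q.map Y.π = P' →
        ∃ (Y' : HComp H G) (f : Y.W → Y'.W) (Q' : List Y'.W), Good Y Y' f ∧
          Q'.IsChain Y'.K.Adj ∧ Q'.map Y'.π = P ∧ Hom Y'.K (Q.map f) Q')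

/-- KILL: finitely many closed paths can be made null-homotopic.

Proof. Induction on the list `L` (for all `Y`, `o`): for the first path `Q`, `Q.map Y.π` is closed,
hence null-homotopic in `G` (`SimplyConn G`; the path `[o]` is trivial), LIFT gives `Y1`, `f1` and
`Q'` with `Q'.map Y1.π = [Y.π o]`, so `Q' = [w]`, and `w = f1 o` by `Hom.head`.  Apply the
induction hypothesis to `Y1`, `f1 o`, `L.map (·.map f1)` and compose. -/
def T_KILL : Prop := ∀ (H : Type) [Group H] [Finite H] {V : Type u} [MulAction H V]
    (G : SimpleGraph V), (∀ (h : H) (a b : V), G.Adj a b → G.Adj (h • a) (h • b)) →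
    SimplyConn G → ∀ (L : List ℕ) (Y : HComp H G) (o : Y.W) (γ : ℕ → List Y.W),
      (∀ i ∈ L, IsP Y.K o o (γ i)) →
      ∃ (Y' : HComp H G) (f : Y.W → Y'.W), Good Y Y' f ∧
        ∀ i ∈ L, Hom Y'.K ((γ i).map f) [f o]

/-- YNIL: there is a finite connected invariant subcomplex.

Proof. `x₀ : V`, for every `h : H` an edge path `p h` of `G` from `x₀` to `h • x₀`
(`G.Connected`; from `SimpleGraph.Walk.support` or by induction on reachability),
`S = {g • v | g : H, v ∈ p h, h : H}`: finite, invariant.  `W = S` (a `SubMulAction`, or the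
subtype with the obvious action), `K = G.comap Subtype.val`, `π = Subtype.val`.  Connected: every
`g • v` with `v ∈ p h` is joined to `g • x₀` by the translate of an initial part of `p h`, and
`g • x₀` is joined to `x₀` by `p g`. -/
def T_YNIL : Prop := ∀ (H : Type) [Group H] [Finite H] {V : Type u} [MulAction H V]
    (G : SimpleGraph V), (∀ (h : H) (a b : V), G.Adj a b → G.Adj (h • a) (h • b)) →
    G.Connected → Nonempty (HComp H G)

/-- SC: there is a finite simply connected `H`-complex over `G`.

Proof. `Y₀` from YNIL, `o : Y₀.W`, paths `g x` of `Y₀` from `o` to `x` with `g o = [o]`.  Apply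
KILL to the closed paths `g x ++ (g y).reverse` for the (finitely many) edges `x y` of `Y₀`
(number the pairs by natural numbers): `Y'`, `f`.  For an edge `x y`:
`f (g x ++ [y]) ∼ f (g x) ++ (f (g y)).reverse ++ (f (g y)).tail ∼ f (g y)` (`IsP.cancel`).
Hence, by induction on paths (`List.reverseRecOn` or a last step version of `IsP.cases`),
`Hom Y'.K (Q.map f) ((g x).map f)` for every path `Q` of `Y₀` from `o` to `x`, so
`Hom Y'.K (Q.map f) [f o]` for closed `Q`.  By `Good.surj` every closed path of `Y'` at `f o` is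
null-homotopic; conclude with `simplyConn_of_base`. -/
def T_SC : Prop := ∀ (H : Type) [Group H] [Finite H] {V : Type u} [MulAction H V]
    (G : SimpleGraph V), (∀ (h : H) (a b : V), G.Adj a b → G.Adj (h • a) (h • b)) →
    SimplyConn G → ∃ Y : HComp H G, SimplyConn Y.K

/-- EXT: there is a finite simply connected `H`-complex over `G` which is locally full.

Proof. Choose `Y` with `SimplyConn Y.K` and `Y.nonadj` minimal.  If `f` is `Good` and `Y.K` is
simply connected then so is `Y'.K` (`Good.surj`, `Hom.map`, `simplyConn_of_base`).  If `π x = π z`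
OPC contradicts minimality; if `π x`, `π z` are adjacent and `x`, `z` are not, OPB does. -/
def T_EXT : Prop := ∀ (H : Type) [Group H] [Finite H] {V : Type u} [MulAction H V]
    (G : SimpleGraph V), (∀ (h : H) (a b : V), G.Adj a b → G.Adj (h • a) (h • b)) →
    SimplyConn G → ∃ Y : HComp H G, SimplyConn Y.K ∧
      ∀ v x z, x ≠ z → Y.K.Adj v x → Y.K.Adj v z →
        Y.π x ≠ Y.π z ∧ (G.Adj (Y.π x) (Y.π z) → Y.K.Adj x z)

/-- FIN: the finite reduction. A finite group `H` acts by automorphisms on the metrically systolic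
complex `(G, len)`.  Then there is a finite metrically systolic complex with an action of `H` and
an equivariant map `π` to `G` which is an isomorphism from the closed star of every vertex onto a
full subgraph; angles are the angles of the images.

Proof. EXT; links map isomorphically onto full subgraphs of links. -/
def T_FIN : Prop := ∀ (H : Type) [Group H] [Finite H] {V : Type u} [MulAction H V]
    (G : SimpleGraph V) (len : V → V → ℝ), MetricallySystolic G len →
    (∀ (h : H) (a b : V), G.Adj (h • a) (h • b) ↔ G.Adj a b) →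
    ∃ (W : Type u) (_ : Finite W) (_ : MulAction H W) (K : SimpleGraph W) (π : W → V),
      (∀ (h : H) (w : W), π (h • w) = h • π w) ∧
      (∀ a b, K.Adj a b → G.Adj (π a) (π b)) ∧
      (∀ (h : H) (a b : W), K.Adj (h • a) (h • b) ↔ K.Adj a b) ∧
      (∀ v x z, x ≠ z → K.Adj v x → K.Adj v z →
        π x ≠ π z ∧ (G.Adj (π x) (π z) → K.Adj x z)) ∧
      MetricallySystolic K (fun a b => len (π a) (π b)) ∧
      (∀ n, G.CliqueFree n → K.CliqueFree n) ∧
      (NonObtuse G len → NonObtuse K (fun a b => len (π a) (π b)))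

end Pool.Agent.MSN.Fin
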