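import Pool.Agent.MSN.Grp

namespace Pool.Agent.MSN.Grp.GSGN

universe u

variable {V : Type u} [LinearOrder V]

theorem sg_mul_self (t : Finset V) (x : V) : sg t x * sg t x = 1 := by
  unfold sg
  rw [← pow_add]
  exact Even.neg_one_pow ⟨_, rfl⟩

theorem sg_of_lt (t : Finset V) {x y : V} (hx : x ∈ t) (h : x < y) :
    sg t y = - sg (t.erase x) y := by
  unfold sg
  have e : t.filter (· < y) = insert x ((t.erase x).filter (· < y)) := by
    ext z
    simp only [Finset.mem_filter, Finset.mem_insert, Finset.mem_erase]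
    constructor
    · rintro ⟨hz, hz'⟩
      by_cases h1 : z = x
      · left; exact h1
      · right; exact ⟨⟨h1, hz⟩, hz'⟩
    · rintro (rfl | ⟨⟨-, hz⟩, hz'⟩)
      · exact ⟨hx, h⟩
      · exact ⟨hz, hz'⟩
  rw [e, Finset.card_insert_of_notMem (by simp), pow_succ]
  ring

theorem sg_of_gt (t : Finset V) {x y : V} (h : x < y) : sg (t.erase y) x = sg t x := by
  unfold sg
  have e : (t.erase y).filter (· < x) = t.filter (· < x) := by
    ext z
    simp only [Finset.mem_filter, Finset.mem_erase]
    constructor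
    · rintro ⟨⟨-, hz⟩, hz'⟩
      exact ⟨hz, hz'⟩
    · rintro ⟨hz, hz'⟩
      exact ⟨⟨(hz'.trans h).ne, hz⟩, hz'⟩
  rw [e]

theorem one (t : Finset V) (x y : V) (hx : x ∈ t) (hy : y ∈ t) (hxy : x ≠ y) :
    sg t x * sg (t.erase x) y + sg t y * sg (t.erase y) x = 0 := by
  rcases lt_or_gt_of_ne hxy with h | h
  · rw [sg_of_lt t hx h, sg_of_gt t h]
    ring
  · rw [sg_of_lt t hy h, sg_of_gt t h]
    ring

theorem two (g : Equiv.Perm V) (t : Finset V) (y : V) (hy : y ∈ t) :
    eps g t * sg (t.image g) (g y) = sg t y * eps g (t.erase y) := by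
  have eA : ((t ×ˢ t).filter fun p => p.1 < p.2 ∧ g p.2 < g p.1) =
      (((t.erase y) ×ˢ (t.erase y)).filter fun p => p.1 < p.2 ∧ g p.2 < g p.1) ∪
        (((t.filter fun b => y < b ∧ g b < g y).image fun b => (y, b)) ∪
          ((t.filter fun a => a < y ∧ g y < g a).image fun a => (a, y))) := by
    ext ⟨a, b⟩
    simp only [Finset.mem_filter, Finset.mem_product, Finset.mem_union, Finset.mem_image,
      Finset.mem_erase, Prod.mk.injEq]
    constructor
    · rintro ⟨⟨ha, hb⟩, h1, h2⟩
      by_cases h3 : a = y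
      · right; left
        subst h3
        exact ⟨b, ⟨hb, h1, h2⟩, rfl, rfl⟩
      · by_cases h4 : b = y
        · right; right
          subst h4
          exact ⟨a, ⟨ha, h1, h2⟩, rfl, rfl⟩
        · left
          exact ⟨⟨⟨h3, ha⟩, h4, hb⟩, h1, h2⟩
    · rintro (⟨⟨⟨-, ha⟩, -, hb⟩, h1, h2⟩ | ⟨c, ⟨hc, h1, h2⟩, rfl, rfl⟩ |
        ⟨c, ⟨hc, h1, h2⟩, rfl, rfl⟩)
      · exact ⟨⟨ha, hb⟩, h1, h2⟩
      · exact ⟨⟨hy, hc⟩, h1, h2⟩
      · exact ⟨⟨hc, hy⟩, h1, h2⟩
  have cA : ((t ×ˢ t).filter fun p => p.1 < p.2 ∧ g p.2 < g p.1).card =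
      (((t.erase y) ×ˢ (t.erase y)).filter fun p => p.1 < p.2 ∧ g p.2 < g p.1).card +
        ((t.filter fun b => y < b ∧ g b < g y).card +
          (t.filter fun a => a < y ∧ g y < g a).card) := by
    rw [eA, Finset.card_union_of_disjoint, Finset.card_union_of_disjoint,
      Finset.card_image_of_injective, Finset.card_image_of_injective]
    · intro a b h
      exact (Prod.mk.inj h).1
    · intro a b h
      exact (Prod.mk.inj h).2
    · rw [Finset.disjoint_left]
      rintro ⟨a, b⟩ h1 h2
      simp only [Finset.mem_filter, Finset.mem_image, Prod.mk.injEq] at h1 h2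
      obtain ⟨c, ⟨-, h3, -⟩, rfl, rfl⟩ := h1
      obtain ⟨d, ⟨-, h4, -⟩, rfl, rfl⟩ := h2
      exact lt_irrefl _ h4
    · rw [Finset.disjoint_left]
      rintro ⟨a, b⟩ h1 h2
      simp only [Finset.mem_filter, Finset.mem_product, Finset.mem_union, Finset.mem_image,
        Finset.mem_erase, Prod.mk.injEq] at h1 h2
      rcases h2 with ⟨c, -, rfl, rfl⟩ | ⟨c, -, rfl, rfl⟩
      · exact h1.1.1.1 rfl
      · exact h1.1.2.1 rfl
  have cB : ((t.image g).filter (· < g y)).card =
      (t.filter fun b => b < y ∧ g b < g y).card +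
        (t.filter fun b => y < b ∧ g b < g y).card := by
    rw [Finset.filter_image, Finset.card_image_of_injective _ g.injective,
      ← Finset.card_union_of_disjoint]
    · congr 1
      ext b
      simp only [Finset.mem_filter, Finset.mem_union]
      constructor
      · rintro ⟨hb, h1⟩
        rcases lt_trichotomy b y with h | h | h
        · left; exact ⟨hb, h, h1⟩
        · rw [h] at h1
          exact absurd h1 (lt_irrefl _)
        · right; exact ⟨hb, h, h1⟩
      · rintro (⟨hb, -, h1⟩ | ⟨hb, -, h1⟩)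
        · exact ⟨hb, h1⟩
        · exact ⟨hb, h1⟩
    · rw [Finset.disjoint_left]
      intro b h1 h2
      rw [Finset.mem_filter] at h1 h2
      exact absurd h1.2.1 (not_lt.mpr h2.2.1.le)
  have cC : (t.filter (· < y)).card = (t.filter fun b => b < y ∧ g b < g y).card +
        (t.filter fun a => a < y ∧ g y < g a).card := by
    rw [← Finset.card_union_of_disjoint]
    · congr 1
      ext b
      simp only [Finset.mem_filter, Finset.mem_union]
      constructor
      · rintro ⟨hb, h1⟩
        rcases lt_trichotomy (g b) (g y) with h | h | h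
        · left; exact ⟨hb, h1, h⟩
        · rw [g.injective h] at h1
          exact absurd h1 (lt_irrefl _)
        · right; exact ⟨hb, h1, h⟩
      · rintro (⟨hb, h1, -⟩ | ⟨hb, h1, -⟩)
        · exact ⟨hb, h1⟩
        · exact ⟨hb, h1⟩
    · rw [Finset.disjoint_left]
      intro b h1 h2
      rw [Finset.mem_filter] at h1 h2
      exact absurd h1.2.2 (not_lt.mpr h2.2.2.le)
  unfold eps sg
  rw [cA, cB, cC, ← pow_add, ← pow_add]
  generalize (((t.erase y) ×ˢ (t.erase y)).filter fun p => p.1 < p.2 ∧ g p.2 < g p.1).card = I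
  generalize (t.filter fun b => y < b ∧ g b < g y).card = A
  generalize (t.filter fun a => a < y ∧ g y < g a).card = B
  generalize (t.filter fun b => b < y ∧ g b < g y).card = C
  have : I + (A + B) + (C + A) = 2 * A + (C + B + I) := by ring
  rw [this, pow_add, pow_mul]
  norm_num

theorem eps_eq (g : Equiv.Perm V) (t : Finset V) (y : V) (hy : y ∈ t) :
    eps g t = sg t y * eps g (t.erase y) * sg (t.image g) (g y) := by
  rw [← two g t y hy, mul_assoc, sg_mul_self, mul_one]

theorem three (g h : Equiv.Perm V) (s : Finset V) : eps (g * h : Equiv.Perm V) s =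
    eps g (s.image h) * eps h s := by
  induction s using Finset.strongInduction with
  | H s ih =>
    rcases s.eq_empty_or_nonempty with rfl | ⟨y, hy⟩
    · simp [eps]
    · have ih' := ih _ (Finset.erase_ssubset hy)
      rw [eps_eq (g * h : Equiv.Perm V) s y hy, ih', eps_eq h s y hy,
        eps_eq g (s.image h) (h y) (Finset.mem_image_of_mem _ hy)]
      have e1 : (s.image h).erase (h y) = (s.erase y).image h :=
        (Finset.image_erase h.injective s y).symm
      have e2 : s.image (g * h : Equiv.Perm V) = (s.image h).image g := by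
        rw [Finset.image_image]
        rfl
      have e3 := sg_mul_self (s.image h) (h y)
      rw [e1, e2]
      change _ * sg ((s.image h).image g) (g (h y)) = _
      linear_combination (- sg s y * eps g ((s.erase y).image h) * eps h (s.erase y) *
        sg ((s.image h).image g) (g (h y))) * e3

theorem four (s : Finset V) : eps (1 : Equiv.Perm V) s = 1 := by
  unfold eps
  rw [Finset.filter_false_of_mem]
  · simp
  · rintro ⟨a, b⟩ - ⟨h1, h2⟩
    exact absurd h1 (not_lt.mpr (le_of_lt h2))

end Pool.Agent.MSN.Grp.GSGN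

namespace Pool.Agent.MSN.Grp

universe u

theorem tSGN : T_SGN.{u} := fun {V} [LinearOrder V] =>
  ⟨GSGN.one, GSGN.two, GSGN.three, GSGN.four⟩

end Pool.Agent.MSN.Grp
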