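import Pool.Agent.MSN.ATargets
import Pool.Agent.MSN.P_FMAIN
import Pool.Agent.MSF.Final

/-!
# Targets: more groups (MP_d6353f_al (a), MSN part 4)

Exact Lefschetz numbers, groups with a cyclic normal subgroup of prime power index, solvable groups
which move no vertex to an adjacent vertex. Every `T_X` is one job: prove `theorem tX …` in
`Pool/Agent/MSN/GX.lean`, namespace `Pool.Agent.MSN.Grp`.
-/

namespace Pool.Agent.MSN.Grp

open Pool.Agent.MSF Pool.Agent.MSN Pool.Agent.MSN.Alg

universe u

/-- The sign of the face `t.erase x` of `t`. -/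
def sg {V : Type u} [LinearOrder V] (t : Finset V) (x : V) : ℤ :=
  (-1) ^ (t.filter (· < x)).card

/-- The sign of the map `g` on `s` (number of inversions). -/
def eps {V : Type u} [LinearOrder V] (g : V → V) (s : Finset V) : ℤ :=
  (-1) ^ ((s ×ˢ s).filter fun p => p.1 < p.2 ∧ g p.2 < g p.1).card

/-- RNK: exactness over `ZMod 2` implies exactness over `ℚ`. Let `n = card ι`. Over `ZMod 2`, `M` maps
onto its kernel, so `2 rank = n` (`M * M = 0` gives range ≤ kernel). The rank over `ℚ` is at least the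
rank over `ZMod 2`: a family of columns which is linearly independent mod 2 is linearly independent
over `ℚ` (a rational relation can be scaled to an integral relation with a coefficient which is odd:
divide by the gcd). Over `ℚ`, range ≤ kernel, `rank + dim ker = n`, `rank ≥ n / 2`, so
`dim ker ≤ n / 2 ≤ rank`, hence range = kernel. -/
def T_RNK : Prop := ∀ {ι : Type u} [Fintype ι] [DecidableEq ι] (M : Matrix ι ι ℤ), M * M = 0 →
  (∀ c : ι → ZMod 2, (M.map (Int.cast : ℤ → ZMod 2)).mulVec c = 0 →
    ∃ e, (M.map (Int.cast : ℤ → ZMod 2)).mulVec e = c) →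
  ∀ c : ι → ℚ, (M.map (Int.cast : ℤ → ℚ)).mulVec c = 0 →
    ∃ e, (M.map (Int.cast : ℤ → ℚ)).mulVec e = c

/-- SGN: rules for signs. (1) For `x < y` in `t`: `#{z ∈ t.erase x, z < y} = #{z ∈ t, z < y} - 1`, and
`#{z ∈ t.erase y, z < x} = #{z ∈ t, z < x}`. (2) The inversions of `g` on `t` which involve `y`: for `z ≠ y`
in `t`, `z y` is an inversion iff exactly one of `z < y`, `g z < g y` holds; so their number has the
parity of `#{z < y} + #{g z < g y}`. (3) For a pair `{x, y}` of elements of `s`: it is an inversion of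
`g * h` iff exactly one of: inversion of `h`; `{h x, h y}` is an inversion of `g`. -/
def T_SGN : Prop := ∀ {V : Type u} [LinearOrder V],
  (∀ (t : Finset V) (x y : V), x ∈ t → y ∈ t → x ≠ y →
    sg t x * sg (t.erase x) y + sg t y * sg (t.erase y) x = 0) ∧
  (∀ (g : Equiv.Perm V) (t : Finset V) (y : V), y ∈ t →
    eps g t * sg (t.image g) (g y) = sg t y * eps g (t.erase y)) ∧
  (∀ (g h : Equiv.Perm V) (s : Finset V), eps (g * h : Equiv.Perm V) s =
    eps g (s.image h) * eps h s) ∧
  (∀ s : Finset V, eps (1 : Equiv.Perm V) s = 1)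

/-- TRC: trace. As in the docstring of `Alg.T_OD`: there is `S` with `D * S + S * D = 1`;
`trace (J P) = trace (J P D S) + trace (J P S D)`, `J P D S = J D P S = - D J P S`, and
`trace (J P S D) = trace (D J P S)`. -/
def T_TRC : Prop := ∀ {ι : Type u} [Fintype ι] [DecidableEq ι] (D P J : Matrix ι ι ℚ),
  D * D = 0 → (∀ c : ι → ℚ, D.mulVec c = 0 → ∃ e, D.mulVec e = c) → P * D = D * P →
  J * D = -(D * J) → (J * P).trace = 0

open Classical in
/-- LEF (uses T_RNK, T_SGN, T_TRC): exact Lefschetz number. Let `K = {s : Finset V // G.IsClique s}` (with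
the empty clique), `D : Matrix K K ℤ`, `D t s = sg t x` if `s = t.erase x` with `x ∈ t`, else `0`;
`D * D = 0` by SGN (1) (faces of cliques are cliques); mod 2 this is the matrix of the proof of
`Alg.T_OD` (exact by `Ex G j`), so it is exact over `ℚ` (RNK). `P` = the matrix of
`(P c) s = eps g s * c (s.image g)`: commutes with `D` by SGN (2). `J` = diagonal `(-1)^card`. TRC.
`trace (J P) = Σ_{s.image g = s} (-1)^card eps g s`. -/
def T_LEF : Prop := ∀ {V : Type u} [Fintype V] [LinearOrder V] (G : SimpleGraph V),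
  (∀ j, Ex G j) → ∀ g : Equiv.Perm V, (∀ a b, G.Adj (g a) (g b) ↔ G.Adj a b) →
  ∑ s ∈ Finset.univ.filter (fun s : Finset V => G.IsClique (s : Set V) ∧ s.image g = s),
    (-1 : ℤ) ^ s.card * eps g s = 0

/-- CQF (uses T_SGN, T_LEF): a group `Q` with a normal subgroup `C` of `q`-power index which acts through
the powers of one element `g`. Choose a linear order on `V`. Let `ḡ` be the permutation of `V` given
by `g`, `X` = the set of cliques (with the empty one) with `s.image ḡ = s`. `C` acts trivially on `X`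
and `Q` acts on `X` (`C` normal: `h⁻¹ g h` acts as a power of `ḡ`). The weight
`w s = (-1)^card * eps ḡ s` is `Q`-invariant: for `h ∈ Q`, `h⁻¹ g h` acts as `ḡ^k` (an integer `k`), where
`ḡ^k` is conjugate to `ḡ`, so `k` is prime to the order `N` of `ḡ`; by SGN (3) the maps
`a ↦ eps a s` on the stabiliser of `s` are multiplicative, `eps ḡ (h s) = eps (h⁻¹ ḡ h) s = eps (ḡ^k) s
= (eps ḡ s)^k`, and if `eps ḡ s = -1` then `N` is even and `k` is odd. By LEF `Σ_{s ∈ X} w s = 0`. If
no nonempty `s ∈ X` is `Q`-invariant, the nonempty elements of `X` fall into `Q`-orbits of size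
divisible by `q` (the orbits have size dividing the index of `C`, a power of `q`, or use the action
of the `q`-group `Q ⧸ C`), so `0 = w ∅ = 1` mod `q`, a contradiction. -/
def T_CQF : Prop := ∀ {V : Type u} [Fintype V] [DecidableEq V] (G : SimpleGraph V),
  (∀ j, Ex G j) → ∀ (Q : Type) [Group Q] [Finite Q] [MulAction Q V],
  (∀ (h : Q) (a b : V), G.Adj (h • a) (h • b) ↔ G.Adj a b) →
  ∀ (C : Subgroup Q), C.Normal → ∀ g : Q, g ∈ C →
  (∀ c ∈ C, ∃ n : ℤ, ∀ v : V, c • v = (g ^ n) • v) →
  ∀ (q : ℕ) [Fact q.Prime], (∀ x : Q, ∃ n : ℕ, x ^ (q ^ n) ∈ C) →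
  ∃ s : Finset V, s.Nonempty ∧ G.IsClique s ∧ ∀ (h : Q), ∀ x ∈ s, h • x ∈ s

/-- The exactness statement of module M4 (it is `key` in the proof of `Alg.tALGA`). -/
def T_KEY : Prop := ∀ {V : Type u} [Fintype V] [DecidableEq V] (G : SimpleGraph V)
  (len : V → V → ℝ), MetricallySystolic G len → NonObtuse G len → G.CliqueFree 5 → ∀ j, Ex G j

/-- CQA (uses T_KEY, T_CQF, Fin.T_FIN): the same for arbitrary `X` (as `Fin.pgr_all` in
P_FMAIN.lean). The element `g` and the subgroup `C` act on the finite complex `W` of `Fin.T_FIN`; the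
hypothesis that `c ∈ C` acts as a power of `g` is needed on `W`: so here it is assumed in the group:
`c = g ^ n * k` with `k` in the normal subgroup `K`, where `K` acts trivially on `V`. Apply
`Fin.T_FIN` to the group `Q ⧸ K` (which acts on `V`, as `K` acts trivially) and CQF to `Q ⧸ K`. -/
def T_CQA : Prop := ∀ {V : Type u} (G : SimpleGraph V) (len : V → V → ℝ),
  MetricallySystolic G len → NonObtuse G len → G.CliqueFree 5 →
  ∀ (Q : Type) [Group Q] [Finite Q] [MulAction Q V],
  (∀ (h : Q) (a b : V), G.Adj (h • a) (h • b) ↔ G.Adj a b) →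
  ∀ (K C : Subgroup Q), K.Normal → C.Normal → (∀ k ∈ K, ∀ v : V, k • v = v) →
  ∀ g : Q, C = K ⊔ Subgroup.zpowers g →
  ∀ (q : ℕ) [Fact q.Prime], (∀ x : Q, ∃ n : ℕ, x ^ (q ^ n) ∈ C) →
  ∃ s : Finset V, s.Nonempty ∧ G.IsClique s ∧ ∀ (h : Q), ∀ x ∈ s, h • x ∈ s

/-- SOL (uses T_CQA or Fin.cyc_all, and MSF: T_T2, T_T3, T_RES, T_LARGE, T_TRIG, T_H2N, T_N2H, T_IND,
T_MCI): a finite solvable group none of whose elements moves a vertex to an adjacent vertex: the fixed
vertices span a metrically systolic complex. Show `SCon G (fixS V K')` (MSF/Main.lean) for all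
subgroups `K'` by induction on the order. `K' = ⊥`: `scon_univ_of_ms`. Otherwise `K'` has a normal
subgroup `N` of prime index (`Group.IsSolvable`); let `a ∈ K'`, `a ∉ N`; `K'` is generated by `N` and `a`.
By induction `S = fixS V N` satisfies SCon, so `G.induce S` is metrically systolic (`ms_of_scon`),
NonObtuse and CliqueFree 5; `a` maps `S` to itself (`smul_mem_fixS`) and induces on it an automorphism
of finite order; it has an invariant clique (CQA with trivial `K`, cyclic `Q`; or `Fin.cyc_all`), and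
since `a` moves no vertex to an adjacent vertex it fixes the vertices of this clique. Then
`{v | v ∈ S ∧ a • v = v} = fixS V K'` satisfies SCon: proof of `SCon.step` in MSF/Main.lean with this
nonemptiness instead of T_T1. Finally `ms_of_scon`. -/
def T_SOL : Prop := ∀ {V : Type u} (G : SimpleGraph V) (len : V → V → ℝ),
  MetricallySystolic G len → NonObtuse G len → G.CliqueFree 5 →
  ∀ (H : Type) [Group H] [Finite H] [MulAction H V],
  (∀ (h : H) (a b : V), G.Adj (h • a) (h • b) ↔ G.Adj a b) →
  (∀ (h : H) (a b : V), G.Adj a b → len (h • a) (h • b) = len a b) →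
  ∀ (K : Subgroup H), Group.IsSolvable K → (∀ k ∈ K, ∀ v : V, ¬ G.Adj v (k • v)) →
  MetricallySystolic (G.induce {v : V | ∀ k ∈ K, k • v = v}) (fun a b => len a b)

/-- MAIN (uses T_CQA, T_SOL): let `K ≤ C` be normal subgroups of the finite group `H`, `K` solvable
and moving no vertex to an adjacent vertex, `C / K` cyclic, `H / C` a `q`-group. Then `H` has an
invariant clique. `H` acts on the complex `G.induce {v | ∀ k ∈ K, k • v = v}` (`K` normal), which is
metrically systolic (SOL), NonObtuse, CliqueFree 5, and `K` acts trivially on it: CQA. -/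
def T_MAIN : Prop := ∀ {V : Type u} (G : SimpleGraph V) (len : V → V → ℝ),
  MetricallySystolic G len → NonObtuse G len → G.CliqueFree 5 →
  ∀ (H : Type) [Group H] [Finite H] [MulAction H V],
  (∀ (h : H) (a b : V), G.Adj (h • a) (h • b) ↔ G.Adj a b) →
  (∀ (h : H) (a b : V), G.Adj a b → len (h • a) (h • b) = len a b) →
  ∀ (K C : Subgroup H), K.Normal → C.Normal → Group.IsSolvable K →
  (∀ k ∈ K, ∀ v : V, ¬ G.Adj v (k • v)) → ∀ g : H, C = K ⊔ Subgroup.zpowers g →
  ∀ (q : ℕ) [Fact q.Prime], (∀ x : H, ∃ n : ℕ, x ^ (q ^ n) ∈ C) →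
  ∃ s : Finset V, s.Nonempty ∧ G.IsClique s ∧ ∀ (h : H), ∀ x ∈ s, h • x ∈ s

end Pool.Agent.MSN.Grp
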