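import Pool.Agent.MSN.Targets

/-!
# Targets of module M3, second part: the shortest essential arc (lollipops), SURJ

Every `T_X` is one job: prove `theorem tX : T_X.{u}` (or `tX (h : T_Y.{u}) … : T_X.{u}` when
the docstring says uses T_Y) in the file `Pool/Agent/MSN/X.lean`.
-/

namespace Pool.Agent.MSN

open List Pool.Agent.MSF

universe u

section defs

variable {V : Type u}

/-- Nonempty paths in the link of `v`. -/
def LPath (G : SimpleGraph V) (v : V) (R : List V) : Prop :=
  R ≠ [] ∧ List.IsChain G.Adj R ∧ ∀ x ∈ R, G.Adj v x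

/-- Nonempty paths in the complement of `v` which start in the link of `v`. -/
def DPath (G : SimpleGraph V) (v : V) (P : List V) : Prop :=
  List.IsChain G.Adj P ∧ (∀ x ∈ P, x ≠ v) ∧ ∃ a, P.head? = some a ∧ G.Adj v a

/-- Inessential: homotopic, in the complement of `v`, to a path in the link of `v`. -/
def Iness (G : SimpleGraph V) (v : V) (P : List V) : Prop :=
  ∃ Q, LPath G v Q ∧ Relation.EqvGen (Elem (delG G v)) P Q

/-- Equivalence of paths of `DPath` with the same end: `P` is homotopic, in the complement of `v`,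
to `R` followed by `Q`, where `R` is a path in the link from the start of `P` to the start of `Q`. -/
def Eqv (G : SimpleGraph V) (v : V) (P Q : List V) : Prop :=
  ∃ R, LPath G v R ∧ R.head? = P.head? ∧ R.getLast? = Q.head? ∧
    Relation.EqvGen (Elem (delG G v)) P (R ++ Q.tail)

/-- The rules for `Eqv`. -/
structure EqvAlg (G : SimpleGraph V) (v : V) : Prop where
  refl : ∀ P, DPath G v P → Eqv G v P P
  symm : ∀ P Q, DPath G v P → DPath G v Q → Eqv G v P Q → Eqv G v Q P
  trans : ∀ P Q R, DPath G v P → DPath G v Q → DPath G v R → Eqv G v P Q → Eqv G v Q R →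
    Eqv G v P R
  app : ∀ P Q x y, DPath G v (P ++ [x]) → DPath G v (Q ++ [x]) → G.Adj x y → y ≠ v →
    Eqv G v (P ++ [x]) (Q ++ [x]) → Eqv G v (P ++ [x, y]) (Q ++ [x, y])
  hom : ∀ P Q, DPath G v P → Relation.EqvGen (Elem (delG G v)) P Q → Eqv G v P Q
  lnk : ∀ x y, G.Adj v x → G.Adj v y → G.Adj x y → Eqv G v [x, y] [y]
  iness : ∀ P x, DPath G v (P ++ [x]) → G.Adj v x →
    (Iness G v (P ++ [x]) ↔ Eqv G v (P ++ [x]) [x])

/-- The end of the path `v :: t`. -/
def lcl (v : V) (t : List V) : V := (v :: t).getLast (by simp)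

/-- Lollipops: a path `v :: t` from `v` to `c = lcl v t` and a closed walk `c :: s` at `c`, avoiding
`v` except at the start (and at `c`, if `t = []`). The arc of the lollipop is
`v, t, s, t.reverse, v`. -/
def Lol (G : SimpleGraph V) (v : V) (t s : List V) : Prop :=
  s ≠ [] ∧ List.IsChain G.Adj (v :: (t ++ (s ++ (t.reverse ++ [v])))) ∧ ∀ x ∈ t ++ s, x ≠ v

/-- Length of the arc of a lollipop. -/
def Llen (len : V → V → ℝ) (v : V) (t s : List V) : ℝ :=
  2 * elen len (v :: t) + cyl len (lcl v t :: s)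

/-- Minimal essential lollipops: first the length, then the area of the closed walk, then its
number of vertices are minimal. -/
structure MinLol (G : SimpleGraph V) (len : V → V → ℝ) (v : V) (A : ℕ) (t s : List V) : Prop where
  lol : Lol G v t s
  ess : ¬ Iness G v (t ++ (s ++ t.reverse))
  null : Null G A (lcl v t :: s)
  min : ∀ t' s' k, Lol G v t' s' → ¬ Iness G v (t' ++ (s' ++ t'.reverse)) →
    Null G k (lcl v t' :: s') →
    Llen len v t s ≤ Llen len v t' s' ∧
      (Llen len v t' s' ≤ Llen len v t s → A ≤ k ∧ (k ≤ A → s.length ≤ s'.length))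

open Classical in
/-- The part of a path after the last visit of `v`. -/
noncomputable def lab (v : V) (Γ : List V) : List V :=
  (Γ.reverse.takeWhile fun x => decide (x ≠ v)).reverse

end defs

/-- CANC: cancellation of a path with its inverse, in any graph. (Induction on `Z`, `Elem.spur`; see
`eqv_ctx` in `MSF/N2H.lean` for contexts. The second statement is the first one for the reversed
path.) -/
def T_CANC : Prop := ∀ {V : Type u} (H : SimpleGraph V) (X Y Z : List V) (z : V),
  List.IsChain H.Adj (z :: Z) →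
  Relation.EqvGen (Elem H) (X ++ ((z :: Z).reverse ++ (Z ++ Y))) (X ++ (lcl z Z :: Y)) ∧
  Relation.EqvGen (Elem H) (X ++ (z :: (Z ++ ((z :: Z).reverse.tail ++ Y)))) (X ++ (z :: Y))

/-- HEAD: homotopies of nonempty paths preserve nonemptiness, the first vertex, the last vertex, and
the property of being a path (with all vertices in the set `S`, if the graph is `resG G S` and the path
has all its vertices in `S`). -/
def T_HEAD : Prop := ∀ {V : Type u} (G : SimpleGraph V) (S : Set V) (P Q : List V), P ≠ [] →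
  Relation.EqvGen (Elem (resG G S)) P Q →
  Q ≠ [] ∧ Q.head? = P.head? ∧ Q.getLast? = P.getLast? ∧
    (List.IsChain (resG G S).Adj P → List.IsChain (resG G S).Adj Q) ∧
    ((∀ x ∈ P, x ∈ S) → ∀ x ∈ Q, x ∈ S)

/-- EQA (uses T_CANC, T_HEAD): the rules for `Eqv`. refl: `R = [head]`. symm: `P ~ R·Q` gives
`Q ~ R⁻¹·P` (CANC). trans: `P ~ R·Q ~ R·R'·Q'`. app: append `y` to the homotopy. hom: `R = [head]`
(same head by HEAD). lnk: `R = [x, y]`. iness: `P ~ Q` with `Q` in the link from `head P` to `x`: take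
`R = Q`; conversely `P ~ R ++ [x].tail = R`. Paths in the link avoid `v`. -/
def T_EQA : Prop := ∀ {V : Type u} (G : SimpleGraph V) (v : V), EqvAlg G v

/-- LMIN: existence of a minimal essential lollipop. An essential path `P` gives the lollipop
`t = []`, `s = P`. `V` is finite, so there are finitely many edges, their lengths are at least some
`δ > 0`, a walk of length `≤ B` has at most `B / δ` edges, so there are finitely many walks of length
`≤ B`; hence the length `Llen` attains a minimum on essential lollipops (`Llen` is the length of the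
closed walk `v, t, s, t.reverse, v`; at least all values are sums of `elen` of finitely many walks).
Then minimise the area (a natural number) among those, and then `s.length`. -/
def T_LMIN : Prop := ∀ {V : Type u} [Finite V] (G : SimpleGraph V) (len : V → V → ℝ),
  (∀ a b, len a b = len b a) → (∀ a b, G.Adj a b → 0 < len a b) →
  (∀ w, CW G w → ∃ A, Null G A w) → ∀ v : V,
  (∃ P : List V, DPath G v P ∧ (∃ b, P.getLast? = some b ∧ G.Adj v b) ∧ ¬ Iness G v P) →
  ∃ A t s, MinLol G len v A t s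

/-- LIRR (uses T_CANC, T_HEAD): minimal essential lollipops are irreducible. `MinA`: `min` with the same
`t, s`. `3 ≤ length`: if `s = [x]`, then `t ++ x :: t.reverse` is homotopic (CANC) to `[head t]` (or it is
`[x]`, if `t = []`), which is in the link: inessential. `Irr`: let `c :: s ~r a :: (X ++ a :: Y)` with
`Null m (a::X)`, `Null n (a::Y)`, `m + n ≤ A`; by symmetry (rotation) `c` lies in the part `a :: X`:
either `c = a` (then `t ≠ []`, as `v ∉ s`), `s = X ++ a :: Y`; or `X = W ++ c :: U`,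
`s = U ++ a :: (Y ++ a :: W)`. Write `U` for the walk from `c` to `a`, `W` for the walk from `a`
back to `c` (`c = a`: then `U = X`, the walk `W` is trivial). Remove the loop `a Y a`: the lollipop
`(t, s₁)`, `s₁ = U ++ a :: W` (or `X`), is shorter, so by `min` (its area exists: remove loops, or it is
`Null` with some area by the hypothesis on closed walks) its arc `P₁ = t s₁ t⁻¹` is inessential. The
lollipops `(t ++ U ++ [a], Y)` and `(t ++ W.reverse ++ [a], Y)` (or `(t, Y)` if `a = c`) have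
lengths whose minimum is ≤ the old length (`2|U| ≤ |U| + |W|` or `2|W| ≤ |U| + |W|`, `len` symmetric),
area `n ≤ A`, and fewer vertices, so the arc `P₂` of the shorter one is inessential. Finally
`P = t s t⁻¹` is homotopic in `delG` to `P₂` followed by `P₁` (first choice), or to `P₁` followed by `P₂`
(second choice): CANC. So `P` is inessential, a contradiction. -/
def T_LIRR : Prop := ∀ {V : Type u} (G : SimpleGraph V) (len : V → V → ℝ),
  (∀ a b, len a b = len b a) → (∀ a b, G.Adj a b → 0 < len a b) →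
  (∀ w, CW G w → ∃ A, Null G A w) → ∀ (v : V) (A : ℕ) (t s : List V), MinLol G len v A t s →
  3 ≤ (lcl v t :: s).length ∧ MinA G A (lcl v t :: s) ∧ Irr G A (lcl v t :: s)

/-- LGOOD: arcs which are shorter than the minimal essential lollipop are inessential: `(t', s') =
([], Q)`. -/
def T_LGOOD : Prop := ∀ {V : Type u} (G : SimpleGraph V) (len : V → V → ℝ),
  (∀ w, CW G w → ∃ A, Null G A w) → ∀ (v : V) (A : ℕ) (t s : List V), MinLol G len v A t s →
  ∀ Q : List V, Q ≠ [] → List.IsChain G.Adj (v :: (Q ++ [v])) → (∀ x ∈ Q, x ≠ v) →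
    elen len (v :: (Q ++ [v])) < Llen len v t s → Iness G v Q

/-- LAB: facts on `lab`. -/
def T_LAB : Prop := ∀ {V : Type u} (G : SimpleGraph V) (v : V),
  (∀ (Γ : List V) (y : V), List.IsChain G.Adj (v :: Γ) → (v :: Γ).getLast? = some y → y ≠ v →
    DPath G v (lab v (v :: Γ)) ∧ (lab v (v :: Γ)).getLast? = some y) ∧
  (∀ (Γ : List V) (y : V), y ≠ v → lab v (Γ ++ [y]) = lab v Γ ++ [y]) ∧
  (∀ Γ : List V, lab v (Γ ++ [v]) = []) ∧
  (∀ Γ : List V, ∃ X, v :: Γ = X ++ v :: lab v (v :: Γ)) ∧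
  (∀ t : List V, (∀ x ∈ t, x ≠ v) → lab v (v :: t) = t)

/-- Consistent edges: `lb x` is a path (class) in the complement of `v` from the link to `π x`. -/
def KC {V : Type u} (G : SimpleGraph V) (v : V) (π : ℕ → V) (C : Cx ℕ) (lb : ℕ → List V)
    (x y : ℕ) : Prop :=
  C.E x y ∧ ((π x ≠ v ∧ π y ≠ v ∧ Eqv G v (lb x ++ [π y]) (lb y)) ∨
    (π x = v ∧ Eqv G v [π y] (lb y)) ∨ (π y = v ∧ Eqv G v [π x] (lb x)))

/-- Labels are paths which end at `π x`. -/
def LbOK {V : Type u} (G : SimpleGraph V) (v : V) (π : ℕ → V) (C : Cx ℕ) (lb : ℕ → List V) : Prop :=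
  ∀ x ∈ C.S, π x ≠ v → (∃ P, lb x = P ++ [π x]) ∧ DPath G v (lb x)

/-- LKS: consistency is symmetric and closed under triangles. Symmetry: from `lb x ++ [πy] ≈ lb y` get
`lb y ++ [πx] ≈ lb x ++ [πy, πx] ~ lb x` (spur). Triangle `x y z`, none over `v`:
`lb z ≈ lb y ++ [πz] ≈ lb x ++ [πy, πz] ~ lb x ++ [πz]` (tri). `πx = v`: `[πz] ≈ [πy, πz] ≈ lb y ++ [πz]
≈ lb z`. `πy = v`: `lb x ++ [πz] ≈ [πx, πz] ≈ [πz] ≈ lb z`. `πz = v`: `lb x ~ lb x ++ [πy, πx] ≈
lb y ++ [πx] ≈ [πy, πx] ≈ [πx]`. (A triangle has at most one vertex over `v`; vertices adjacent to `v`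
are in the link.) -/
def T_LKS : Prop := ∀ {V : Type u} (G : SimpleGraph V) (v : V) (π : ℕ → V) (C : Cx ℕ)
  (lb : ℕ → List V), EqvAlg G v → (∀ x y, C.E x y → C.E y x) → (∀ x y z, C.T x y z → C.T y z x) →
  (∀ x y z, C.T x y z → C.E x y) → (∀ x y, C.E x y → G.Adj (π x) (π y)) → LbOK G v π C lb →
  (∀ x y, KC G v π C lb x y → KC G v π C lb y x) ∧
  (∀ x y z, C.T x y z → KC G v π C lb x y → KC G v π C lb y z → KC G v π C lb x z)

/-- LTR (uses T_LAB): labels from a tree. `Γ x = v :: (t ++ (γ x).tail.map π)`, `lb x = lab v (Γ x)`.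
By induction on the length of `γ x` (`γ x = γ y ++ [x]`): `γ x` is an `E`-chain starting with `b₀`, so `Γ x` is a
walk from `v` to `π x` (or `Γ b₀ = v :: t`). The edge `y x` is consistent: if `πy, πx ≠ v`:
`lb x = lb y ++ [πx]`; if `πy = v`: `lb x = [πx]`; if `πx = v`: `lb y` is inessential by hypothesis, use
`EqvAlg.iness`, symm. -/
def T_LTR : Prop := ∀ {V : Type u} (G : SimpleGraph V) (v : V) (t s : List V), Lol G v t s →
  EqvAlg G v → ∀ (π : ℕ → V) (C : Cx ℕ) (b₀ : ℕ) (γ : ℕ → List ℕ),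
  (∀ x y, C.E x y → C.E y x) → (∀ x y, C.E x y → G.Adj (π x) (π y)) → π b₀ = lcl v t → b₀ ∈ C.S →
  γ b₀ = [b₀] → (∀ x ∈ C.S, x ≠ b₀ → ∃ y ∈ C.S, C.E y x ∧ γ x = γ y ++ [x]) →
  (∀ x ∈ C.S, ∀ y ∈ C.S, C.E y x → γ x = γ y ++ [x] → π x = v →
    Iness G v (lab v (v :: (t ++ (γ y).tail.map π)))) →
  LbOK G v π C (fun x => lab v (v :: (t ++ (γ x).tail.map π))) ∧
  lab v (v :: (t ++ (γ b₀).tail.map π)) = t ∧
  ∀ x ∈ C.S, Relation.ReflTransGen (fun x y => C.E x y ∧
    KC G v π C (fun x => lab v (v :: (t ++ (γ x).tail.map π))) x y) b₀ x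

/-- LGO (uses T_CANC): going around. The boundary is `b₀, b₁, …, b_{n-1}` with `π b₀ = c`. If `t ≠ []`, no
`π bᵢ` is `v`; consistency along the boundary gives `t ++ s ++ [c] ≈ lb b₀ = t` (`app`), i.e.
`t ++ s ++ [c] ~ R ++ t.tail` with `R` in the link; append `t.reverse.tail` and cancel (CANC):
`t ++ s ++ t.reverse ~ R`. If `t = []`: `c = v`, `[π b₁] ≈ lb b₁`, …, `s = [π b₁, …, π b_{n-1}] ≈
lb b_{n-1} ≈ [π b_{n-1}]` (closing edge), so `s` is inessential by `EqvAlg.iness`. (`Bd` of consecutive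
boundary vertices, and of the last and the first.) -/
def T_LGO : Prop := ∀ {V : Type u} (G : SimpleGraph V) (v : V) (t s : List V), Lol G v t s →
  EqvAlg G v → ∀ (π : ℕ → V) (C : Cx ℕ) (L : List (FC ℕ)) (b₀ : ℕ) (M : List ℕ) (lb : ℕ → List V),
  (∀ x y, C.E x y → C.E y x) → (∀ x y, C.E x y → G.Adj (π x) (π y)) →
  L.map FC.v = b₀ :: M → M.map π = s → π b₀ = lcl v t → LbOK G v π C lb → lb b₀ = t →
  (∀ x y, Bd L x y → KC G v π C lb x y) → Iness G v (t ++ (s ++ t.reverse))

/-- LFIN (uses T_TREE.{0}, T_INV.{0}, T_LKS, T_LTR, T_LGO): assembly of the three. -/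
def T_LFIN : Prop := ∀ {V : Type u} (G : SimpleGraph V) (v : V) (t s : List V), Lol G v t s →
  EqvAlg G v → ∀ (ang : ℕ → ℕ → ℕ → ℝ) (A : ℕ) (π : ℕ → V) (C : Cx ℕ) (L : List (FC ℕ)) (b₀ : ℕ)
    (M : List ℕ) (γ : ℕ → List ℕ),
  (∀ v x y, ang v x y = ang v y x) → PD ang A C L → (∀ x y, C.E x y → G.Adj (π x) (π y)) →
  L.map FC.v = b₀ :: M → M.map π = s → π b₀ = lcl v t →
  γ b₀ = [b₀] → (∀ x ∈ C.S, x ≠ b₀ → ∃ y ∈ C.S, C.E y x ∧ γ x = γ y ++ [x]) →
  (∀ x ∈ C.S, ∀ y ∈ C.S, C.E y x → γ x = γ y ++ [x] → π x = v →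
    Iness G v (lab v (v :: (t ++ (γ y).tail.map π)))) →
  Iness G v (t ++ (s ++ t.reverse))

/-- SURJA: assembly of SURJ. Suppose an essential path exists. LMIN gives a minimal lollipop `(t, s)`,
LIRR and MSF.T_DEX a disc diagram with boundary `c :: s`, REAL a planar disc on `ℕ` over it, EUC it is
Euclidean and non-obtuse, with `per = cyl (boundary) = cyl (c :: s) > 0`. DIST and GEOD (`B = (1/2 +
√2/4) * per < per`) give `γ`. If `π x = v` and `γ x = γ y ++ [x]`, then `Q = lab v (Γ y)` satisfies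
`Γ y = X ++ v :: Q` (LAB), so `v :: (Q ++ [v])` is the end of `Γ y ++ [v]`, which has length
`|v :: t| + elen (γ x) ≤ |v :: t| + B < Llen`; LGOOD: `Q` is inessential. LFIN: contradiction.
(`Angled`: `angled_of_ms` in MSF/Final.lean; `Null` for closed walks: T_H2N; angles `≤ π/2 < π`.) -/
def T_SURJA : Prop := Pool.Agent.MSF.T_DEX.{u} → Pool.Agent.MSF.T_H2N.{u} →
  Pool.Agent.MSF.T_LARGE.{u} → Pool.Agent.MSF.T_TRIG.{u} →
  T_INV.{0} → T_FIN.{0} → T_DIST.{0} → T_GEOD.{0} → T_REAL.{u} → T_EUC.{u} →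
  T_EQA.{u} → T_LMIN.{u} → T_LIRR.{u} → T_LGOOD.{u} → T_LAB.{u} → T_LFIN.{u} → T_HEAD.{u} →
  T_SURJ.{u}

end Pool.Agent.MSN
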