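import Pool.Agent.MSN.Targets

/-!
# MTI: transport inequality, inner case
-/

namespace Pool.Agent.MSN

open List Pool.Agent.MSF

universe u

namespace MTI

variable {N : Type u}

theorem rot_append {ang : N → N → N → ℝ} {A : ℕ} {C : Cx N} :
    ∀ l₁ l₂ : List (FC N), PD ang A C (l₁ ++ l₂) → PD ang A C (l₂ ++ l₁)
  | [], l₂, h => by simpa using h
  | c :: l₁, l₂, h => by
    have h1 : PD ang A C (l₁ ++ (l₂ ++ [c])) := by
      have := PD.rot (c := c) (L := l₁ ++ l₂) h
      rwa [List.append_assoc] at this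
    have h2 := rot_append l₁ (l₂ ++ [c]) h1
    rwa [List.append_assoc] at h2

theorem plen_last (ang : N → N → N → ℝ) (v z y : N) : ∀ P : List N, P.getLast? = some z →
    plen ang v (P ++ [y]) = plen ang v P + ang v z y
  | [], h => by simp at h
  | [a], h => by
    have : a = z := by simpa using h
    subst this
    simp [plen]
  | a :: b :: P, h => by
    have h1 : (b :: P).getLast? = some z := by
      rw [List.getLast?_cons_cons] at h
      exact h
    have h2 := plen_last ang v z y (b :: P) h1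
    simp only [List.cons_append, plen] at h2 ⊢
    rw [h2]
    ring

theorem plen_head (ang : N → N → N → ℝ) (v z x : N) : ∀ P : List N, P.head? = some z →
    plen ang v (x :: P) = ang v x z + plen ang v P
  | [], h => by simp at h
  | a :: P, h => by
    have : a = z := by simpa using h
    subst this
    simp [plen]

/-- Vertex and direction. -/
def vv (p : FC N × ℝ) : N × ℝ := (p.1.v, p.2)

/-- The sum in terms of vertices. -/
noncomputable def WV (len : N → N → ℝ) : List (N × ℝ) → N → ℝ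
  | [], _ => 0
  | (v, φ) :: l, y => len v ((l.map Prod.fst).headD y) * Real.cos φ + WV len l y

theorem fstV_eq (d : N) : ∀ L : List (FC N), fstV d L = (L.map FC.v).headD d
  | [] => rfl
  | _ :: _ => rfl

theorem map_vv (K : List (FC N × ℝ)) :
    (K.map vv).map Prod.fst = (K.map Prod.fst).map FC.v := by
  rw [List.map_map, List.map_map]
  rfl

theorem WS_eq (len : N → N → ℝ) : ∀ (K : List (FC N × ℝ)) (y : N),
    WS len K y = WV len (K.map vv) y
  | [], _ => rfl
  | (c, φ) :: K, y => by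
    show _ = len c.v (((K.map vv).map Prod.fst).headD y) * Real.cos φ + WV len (K.map vv) y
    rw [map_vv, ← fstV_eq, ← WS_eq len K y]
    rfl

theorem WV_append (len : N → N → ℝ) (x : N) (φ : ℝ) (l₂ : List (N × ℝ)) (y : N) :
    ∀ l₁ : List (N × ℝ),
      WV len (l₁ ++ (x, φ) :: l₂) y = WV len l₁ x + WV len ((x, φ) :: l₂) y
  | [] => by
    show _ = 0 + _
    rw [zero_add]
    rfl
  | (v, ψ) :: l₁ => by
    have h := WV_append len x φ l₂ y l₁
    have h1 : ((l₁ ++ (x, φ) :: l₂).map Prod.fst).headD y = (l₁.map Prod.fst).headD x := by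
      cases l₁ <;> rfl
    show len v (((l₁ ++ (x, φ) :: l₂).map Prod.fst).headD y) * Real.cos ψ +
      WV len (l₁ ++ (x, φ) :: l₂) y = len v ((l₁.map Prod.fst).headD x) * Real.cos ψ +
        WV len l₁ x + WV len ((x, φ) :: l₂) y
    rw [h, h1]
    ring

/-- Restriction of the Euclidean structure. -/
theorem euc_le {len : N → N → ℝ} {ang : N → N → N → ℝ} {C C' : Cx N} (h : Euc len ang C')
    (hE : ∀ x y, C.E x y → C'.E x y) (hT : ∀ x y z, C.T x y z → C'.T x y z) : Euc len ang C :=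
  ⟨h.lsymm, h.asymm, fun x y hxy => h.lpos x y (hE x y hxy),
    fun x y z hx => h.apos x y z (hT x y z hx), fun x y z hx => h.ale x y z (hT x y z hx),
    fun x y z hx => h.asum x y z (hT x y z hx), fun x y z hx => h.proj x y z (hT x y z hx)⟩

/-- The comparison of the sums. -/
theorem core (len : N → N → ℝ) (ang : N → N → N → ℝ) (A' : ℕ) (hM : MTat len ang A')
    (C' : Cx N) (x y z : N) (Px Pz : List N) (Pxy : List N) (R R' : List (FC N)) (ψ β γ : ℝ)
    (K₁ K₂ K₁' K₂' : List (FC N × ℝ)) (e1 : K₁'.map vv = K₁.map vv)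
    (e2 : K₂'.map vv = K₂.map vv) (eR : R'.map FC.v = R.map FC.v)
    (hy : ((K₂.map Prod.fst ++ (R ++ K₁.map Prod.fst)).map FC.v).head? = some y)
    (hPD : PD ang A' C' ((R' ++ K₁'.map Prod.fst) ++ ⟨x, Px⟩ :: ⟨z, Pz⟩ :: K₂'.map Prod.fst))
    (hE : Euc len ang C')
    (hp : len x y * Real.cos ψ = len x z * Real.cos (ψ + β) + len z y * Real.cos (ψ - γ))
    (hMC : MCon ang (K₁' ++ (⟨x, Px⟩, ψ + β) :: (⟨z, Pz⟩, ψ - γ) :: K₂')) :
    MTc len R (K₁ ++ (⟨x, Pxy⟩, ψ) :: K₂) := by
  intro x₀ K hK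
  have hK' : ∃ x₀' K', (K₁' ++ ((⟨x, Px⟩ : FC N), ψ + β) :: (⟨z, Pz⟩, ψ - γ) :: K₂').map Prod.fst =
      x₀' :: K' ∧ x₀'.v = x₀.v ∧
      ((K₁ = [] ∧ x₀.v = x) ∨ (K₁.map vv).map Prod.fst = x₀.v :: ((K₁.map vv).map Prod.fst).tail) := by
    cases K₁ with
    | nil =>
      have h1 : K₁' = [] := by simpa using e1
      subst h1
      simp only [List.nil_append, List.map_cons, List.cons.injEq] at hK
      refine ⟨_, _, rfl, ?_, Or.inl ⟨rfl, ?_⟩⟩
      · rw [← hK.1]
      · rw [← hK.1]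
    | cons p K₁ =>
      cases K₁' with
      | nil => simp at e1
      | cons p' K₁' =>
        simp only [List.cons_append, List.map_cons, List.cons.injEq] at hK e1
        refine ⟨_, _, rfl, ?_, Or.inr ?_⟩
        · rw [← hK.1]
          exact congrArg Prod.fst e1.1
        · rw [← hK.1]
          rfl
  obtain ⟨x₀', K', hK', hv, hc⟩ := hK'
  have h1 := hM C' R' (K₁' ++ ((⟨x, Px⟩ : FC N), ψ + β) :: (⟨z, Pz⟩, ψ - γ) :: K₂') (by
    have e : R' ++ (K₁' ++ ((⟨x, Px⟩ : FC N), ψ + β) :: (⟨z, Pz⟩, ψ - γ) :: K₂').map Prod.fst =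
        (R' ++ K₁'.map Prod.fst) ++ ⟨x, Px⟩ :: ⟨z, Pz⟩ :: K₂'.map Prod.fst := by
      simp
    rw [e]
    exact hPD) hE hMC x₀' K' hK'
  rw [fstV_eq, eR, hv, ← fstV_eq] at h1
  refine le_trans (le_of_eq ?_) h1
  rw [WS_eq, WS_eq]
  simp only [List.map_append, List.map_cons]
  show WV len (K₁.map vv ++ (x, ψ) :: K₂.map vv) _ =
    WV len (K₁'.map vv ++ (x, ψ + β) :: (z, ψ - γ) :: K₂'.map vv) _
  rw [WV_append, WV_append, e1, e2]
  have h2 : (((K₂.map vv).map Prod.fst).headD (fstV x₀.v R)) = y := by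
    rw [map_vv, fstV_eq]
    cases K₂ with
    | cons q K₂ =>
      simp only [List.map_cons, List.cons_append, List.head?_cons, Option.some.injEq] at hy
      exact hy
    | nil =>
      cases R with
      | cons q R =>
        simp only [List.map_nil, List.nil_append, List.cons_append, List.map_cons,
          List.head?_cons, Option.some.injEq] at hy
        exact hy
      | nil =>
        rcases hc with ⟨hc, -⟩ | hc
        · subst hc
          simp at hy
        · rw [map_vv] at hc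
          simp only [List.map_nil, List.nil_append] at hy
          rw [hc] at hy
          simpa using hy
  show WV len (K₁.map vv) x + (len x (((K₂.map vv).map Prod.fst).headD (fstV x₀.v R)) *
      Real.cos ψ + WV len (K₂.map vv) (fstV x₀.v R)) = WV len (K₁.map vv) x +
    (len x z * Real.cos (ψ + β) + (len z (((K₂.map vv).map Prod.fst).headD (fstV x₀.v R)) *
      Real.cos (ψ - γ) + WV len (K₂.map vv) (fstV x₀.v R)))
  rw [h2, hp]
  ring

/-- The chain relation. -/
def rel (ang : N → N → N → ℝ) (p q : FC N × ℝ) : Prop := Real.pi - q.1.th ang ≤ q.2 - p.2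

theorem chain_first {ang : N → N → N → ℝ} {c : FC N} {φ : ℝ} (c' : FC N) :
    ∀ {l : List (FC N × ℝ)}, List.IsChain (rel ang) ((c, φ) :: l) →
      List.IsChain (rel ang) ((c', φ) :: l)
  | [], _ => List.isChain_singleton _
  | q :: l, h => by
    rw [List.isChain_cons_cons] at h ⊢
    exact h

theorem chain_last {ang : N → N → N → ℝ} {c c' : FC N} {φ φ' : ℝ}
    (h : c.th ang + φ ≤ c'.th ang + φ') {l : List (FC N × ℝ)}
    (hl : List.IsChain (rel ang) (l ++ [(c, φ)])) : List.IsChain (rel ang) (l ++ [(c', φ')]) := by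
  rw [List.isChain_append] at hl ⊢
  refine ⟨hl.1, List.isChain_singleton _, fun p hp q hq => ?_⟩
  have h1 := hl.2.2 p hp (c, φ) (by simp)
  have h2 : q = (c', φ') := by
    simpa using hq.symm
  subst h2
  unfold rel at h1 ⊢
  dsimp only at h1 ⊢
  linarith

/-- The new constraints. -/
theorem mcon (ang : N → N → N → ℝ) (x z : N) (Px Pz Pxy : List N) (ψ β γ : ℝ)
    (K₁ K₂ K₁' K₂' : List (FC N × ℝ))
    (hβ : 0 ≤ β) (hβ' : β ≤ Real.pi / 2) (hγ : 0 ≤ γ) (hγ' : γ ≤ Real.pi / 2)
    (hψ : |ψ| ≤ Real.pi / 2)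
    (hx : (⟨x, Pxy⟩ : FC N).th ang + ψ ≤ (⟨x, Px⟩ : FC N).th ang + (ψ + β))
    (hz : Real.pi + (β + γ) ≤ (⟨z, Pz⟩ : FC N).th ang)
    (h1 : K₁' = K₁ ∨ ∃ c c' φ K, K₁ = (c, φ) :: K ∧ K₁' = (c', φ) :: K)
    (h2 : (K₂ = [] ∧ K₂' = []) ∨ ∃ c c' φ K, K₂ = (c, φ) :: K ∧ K₂' = (c', φ) :: K ∧
      c.th ang ≤ c'.th ang + γ)
    (hM : MCon ang (K₁ ++ (⟨x, Pxy⟩, ψ) :: K₂)) :
    MCon ang (K₁' ++ (⟨x, Px⟩, ψ + β) :: (⟨z, Pz⟩, ψ - γ) :: K₂') := by
  obtain ⟨hd, hc⟩ := hM
  have hc' : List.IsChain (rel ang) (K₁ ++ ((⟨x, Pxy⟩ : FC N), ψ) :: K₂) := hc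
  rw [List.isChain_split] at hc'
  obtain ⟨c1, c2⟩ := hc'
  have hψ1 := (abs_le.1 hψ).1
  have hψ2 := (abs_le.1 hψ).2
  constructor
  · intro p hp
    rw [List.mem_append, List.mem_cons, List.mem_cons] at hp
    rcases hp with hp | hp | hp | hp
    · rcases h1 with h1 | ⟨c, c', φ, K, hK, hK'⟩
      · rw [h1] at hp
        exact hd p (List.mem_append_left _ hp)
      · rw [hK', List.mem_cons] at hp
        rcases hp with hp | hp
        · subst hp
          exact hd (c, φ) (List.mem_append_left _ (by rw [hK]; exact List.mem_cons_self))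
        · exact hd p (List.mem_append_left _ (by rw [hK]; exact List.mem_cons_of_mem _ hp))
    · subst hp
      exact abs_le.2 ⟨by dsimp only; linarith [Real.pi_pos], by dsimp only; linarith⟩
    · subst hp
      exact abs_le.2 ⟨by dsimp only; linarith, by dsimp only; linarith [Real.pi_pos]⟩
    · rcases h2 with ⟨-, h2⟩ | ⟨c, c', φ, K, hK, hK', -⟩
      · rw [h2] at hp
        simp at hp
      · rw [hK', List.mem_cons] at hp
        rcases hp with hp | hp
        · subst hp
          exact hd (c, φ) (List.mem_append_right _ (by rw [hK]; simp))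
        · exact hd p (List.mem_append_right _ (by rw [hK]; simp [hp]))
  · show List.IsChain (rel ang) _
    rw [List.isChain_split, List.isChain_cons_cons]
    refine ⟨?_, ?_, ?_⟩
    · have c3 : List.IsChain (rel ang) (K₁ ++ [((⟨x, Px⟩ : FC N), ψ + β)]) := chain_last hx c1
      rcases h1 with h1 | ⟨c, c', φ, K, hK, hK'⟩
      · rw [h1]
        exact c3
      · rw [hK, List.cons_append] at c3
        rw [hK', List.cons_append]
        exact chain_first c' c3
    · unfold rel
      dsimp only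
      linarith
    · rcases h2 with ⟨-, h2⟩ | ⟨c, c', φ, K, hK, hK', hcc⟩
      · rw [h2]
        exact List.isChain_singleton _
      · rw [hK, List.isChain_cons_cons] at c2
        rw [hK', List.isChain_cons_cons]
        refine ⟨?_, chain_first c' c2.2⟩
        have := c2.1
        unfold rel at this ⊢
        dsimp only at this ⊢
        linarith

end MTI

open MTI in
/-- Transport inequality, inner case. -/
theorem tMTI : T_MTI.{u} := by
  intro N len ang A' hM C' x y z Px Pz Py L R ψ K₁ K₂ hL hPD hI hxy hz hE hψ hMC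
  have hT1 : (C'.add x y z).T x y z := Or.inr (Or.inl ⟨rfl, rfl, rfl⟩)
  have hT2 : (C'.add x y z).T y z x := Or.inr (Or.inr (Or.inl ⟨rfl, rfl, rfl⟩))
  have hT3 : (C'.add x y z).T z x y := Or.inr (Or.inr (Or.inr ⟨rfl, rfl, rfl⟩))
  have hE' : Euc len ang C' := euc_le hE (fun _ _ h => Or.inl h) (fun _ _ _ h => Or.inl h)
  have a1 := hE.apos x y z hT1
  have a2 := hE.ale x y z hT1
  have b1 := hE.apos z x y hT3
  have b2 := hE.ale z x y hT3
  rw [hE.asymm x z y] at b1 b2
  have hs := hE.asum x y z hT1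
  have hp := hE.proj x y z hT1 ψ
  have n1 := hI.nx ⟨x, Px⟩ ⟨z, Pz⟩ _ (List.IsRotated.refl _)
  have n2 := hI.nx ⟨z, Pz⟩ ⟨y, Py⟩ (L ++ [⟨x, Px⟩]) (by
    refine ⟨1, ?_⟩
    simp)
  have hx : (⟨x, Px ++ [y]⟩ : FC N).th ang + ψ ≤ (⟨x, Px⟩ : FC N).th ang + (ψ + ang x y z) := by
    show plen ang x (Px ++ [y]) + ψ ≤ plen ang x Px + (ψ + ang x y z)
    rw [plen_last ang x z y Px n1.1, hE.asymm x z y]
    linarith
  have hz' : Real.pi + (ang x y z + ang y x z) ≤ (⟨z, Pz⟩ : FC N).th ang := by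
    show _ ≤ plen ang z Pz
    rw [hE.asymm z y x] at hz
    linarith
  have hyy : (⟨y, x :: Py⟩ : FC N).th ang ≤ (⟨y, Py⟩ : FC N).th ang + ang y x z := by
    show plen ang y (x :: Py) ≤ plen ang y Py + ang y x z
    rw [plen_head ang y z x Py n2.2]
    linarith
  cases K₂ with
  | cons q K₂ =>
    obtain ⟨c, φ⟩ := q
    simp only [List.map_cons, List.cons_append, List.cons.injEq] at hL
    obtain ⟨hc, hL⟩ := hL
    subst hc
    refine core len ang A' hM C' x y z Px Pz _ R R ψ (ang x y z) (ang y x z) K₁ _ K₁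
      ((⟨y, Py⟩, φ) :: K₂) rfl rfl rfl ?_ ?_ hE' hp ?_
    · simp
    · have := rot_append (⟨x, Px⟩ :: ⟨z, Pz⟩ :: ⟨y, Py⟩ :: K₂.map Prod.fst)
        (R ++ K₁.map Prod.fst) (by rw [← hL] at hPD; simpa using hPD)
      simpa using this
    · exact mcon ang x z Px Pz _ ψ _ _ K₁ _ K₁ _ b1.le b2 a1.le a2 hψ hx hz' (Or.inl rfl)
        (Or.inr ⟨_, _, φ, K₂, rfl, rfl, hyy⟩) hMC
  | nil =>
    cases R with
    | cons c R =>
      simp only [List.map_nil, List.nil_append, List.cons_append, List.cons.injEq] at hL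
      obtain ⟨hc, hL⟩ := hL
      subst hc
      refine core len ang A' hM C' x y z Px Pz _ (⟨y, x :: Py⟩ :: R) (⟨y, Py⟩ :: R) ψ
        (ang x y z) (ang y x z) K₁ _ K₁ [] rfl rfl rfl ?_ ?_ hE' hp ?_
      · simp
      · have := rot_append [(⟨x, Px⟩ : FC N), ⟨z, Pz⟩] (⟨y, Py⟩ :: (R ++ K₁.map Prod.fst))
          (by rw [← hL] at hPD; simpa using hPD)
        simpa using this
      · exact mcon ang x z Px Pz _ ψ _ _ K₁ _ K₁ _ b1.le b2 a1.le a2 hψ hx hz' (Or.inl rfl)
          (Or.inl ⟨rfl, rfl⟩) hMC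
    | nil =>
      cases K₁ with
      | nil => simp at hL
      | cons q K₁ =>
        obtain ⟨c, φ⟩ := q
        simp only [List.map_nil, List.nil_append, List.map_cons, List.cons.injEq] at hL
        obtain ⟨hc, hL⟩ := hL
        subst hc
        refine core len ang A' hM C' x y z Px Pz _ [] [] ψ
          (ang x y z) (ang y x z) _ _ ((⟨y, Py⟩, φ) :: K₁) [] rfl rfl rfl ?_ ?_ hE' hp ?_
        · simp
        · have := rot_append [(⟨x, Px⟩ : FC N), ⟨z, Pz⟩] (⟨y, Py⟩ :: K₁.map Prod.fst)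
            (by rw [← hL] at hPD; simpa using hPD)
          simpa using this
        · exact mcon ang x z Px Pz _ ψ _ _ _ _ _ _ b1.le b2 a1.le a2 hψ hx hz'
            (Or.inr ⟨_, _, φ, K₁, rfl, rfl⟩) (Or.inl ⟨rfl, rfl⟩) hMC

end Pool.Agent.MSN
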