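import Pool.Agent.MSN.Defs

/-!
# Planar discs (module M3 of MSN)

Concrete planar discs with pairwise different boundary vertices, built from single edges (digons) by
adding triangles on the outside of a boundary edge `a → b`.
-/

namespace Pool.Agent.MSN

open List Pool.Agent.MSF

universe u

variable {N : Type u}

/-- A combinatorial 2-complex on `N`: edges and oriented triangles. -/
@[ext] structure Cx (N : Type u) where
  E : N → N → Prop
  T : N → N → N → Prop

/-- The vertices. -/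
def Cx.S (C : Cx N) : Set N := {x | ∃ y, C.E x y}

/-- The complex with the single edge `a b`. -/
def Cx.edge (a b : N) : Cx N :=
  ⟨fun x y => (x = a ∧ y = b) ∨ (x = b ∧ y = a), fun _ _ _ => False⟩

/-- Add the edge `a b` and the oriented triangle `a b z` (with its rotations). -/
def Cx.add (C : Cx N) (a b z : N) : Cx N :=
  ⟨fun x y => C.E x y ∨ (x = a ∧ y = b) ∨ (x = b ∧ y = a),
   fun x y w => C.T x y w ∨ (x = a ∧ y = b ∧ w = z) ∨ (x = b ∧ y = z ∧ w = a) ∨
     (x = z ∧ y = a ∧ w = b)⟩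

/-- Union. -/
def Cx.sup (C C' : Cx N) : Cx N :=
  ⟨fun x y => C.E x y ∨ C'.E x y, fun x y w => C.T x y w ∨ C'.T x y w⟩

/-- Subcomplex. -/
structure Cx.Le (C C' : Cx N) : Prop where
  E : ∀ x y, C.E x y → C'.E x y
  T : ∀ x y w, C.T x y w → C'.T x y w

/-- A boundary corner of a planar disc: the vertex `v`, and the fan `P`, the list of the neighbours
of `v` from the predecessor of `v` on the boundary to its successor. -/
@[ext] structure FC (N : Type u) where
  v : N
  P : List N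

/-- The total angle of a corner. -/
def FC.th (ang : N → N → N → ℝ) (c : FC N) : ℝ := plen ang c.v c.P

/-- `PD ang A C L`: the complex `C` is a planar disc with `A` triangles and boundary `L` (cyclic
list), whose interior vertices have total angle at least `2 π`. The boundary is traversed with the
disc on the left; the triangle at a boundary edge `a → b` is `(a, b, z)`. -/
inductive PD (ang : N → N → N → ℝ) : ℕ → Cx N → List (FC N) → Prop
  | digon {a b : N} (h : a ≠ b) : PD ang 0 (Cx.edge a b) [⟨a, [b]⟩, ⟨b, [a]⟩]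
  | rot {A : ℕ} {C : Cx N} {c : FC N} {L : List (FC N)} (h : PD ang A C (c :: L)) :
      PD ang A C (L ++ [c])
  | inner {A : ℕ} {C : Cx N} {a b z : N} {Pa Pz Pb : List N} {L : List (FC N)}
      (h : PD ang A C (⟨a, Pa⟩ :: ⟨z, Pz⟩ :: ⟨b, Pb⟩ :: L))
      (hab : ¬ C.E a b) (hz : 2 * Real.pi ≤ plen ang z Pz + ang z b a) :
      PD ang (A + 1) (C.add a b z) (⟨a, Pa ++ [b]⟩ :: ⟨b, a :: Pb⟩ :: L)
  | both {A₁ A₂ : ℕ} {C₁ C₂ : Cx N} {a b z : N} {Pa Pz Qz Pb : List N} {L₁ L₂ : List (FC N)}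
      (h₁ : PD ang A₁ C₁ (⟨z, Pz⟩ :: ⟨b, Pb⟩ :: L₁))
      (h₂ : PD ang A₂ C₂ (⟨z, Qz⟩ :: (L₂ ++ [⟨a, Pa⟩])))
      (hd : ∀ x, x ∈ C₁.S → x ∈ C₂.S → x = z) :
      PD ang (A₁ + A₂ + 1) ((C₁.sup C₂).add a b z)
        (⟨a, Pa ++ [b]⟩ :: ⟨b, a :: Pb⟩ :: (L₁ ++ ⟨z, Pz ++ Qz⟩ :: L₂))

/-- The decomposition of a planar disc at the boundary edge `a → b`. -/
inductive Dec (ang : N → N → N → ℝ) (A : ℕ) (C : Cx N) (a : N) (Pa : List N) (b : N)
    (Pb : List N) (L : List (FC N)) : Prop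
  | digon (hA : A = 0) (hC : C = Cx.edge a b) (hPa : Pa = [b]) (hPb : Pb = [a]) (hL : L = [])
  | inner (A' : ℕ) (C' : Cx N) (z : N) (Pa' Pz Pb' : List N)
      (hA : A = A' + 1) (hC : C = C'.add a b z) (hPa : Pa = Pa' ++ [b]) (hPb : Pb = a :: Pb')
      (h : PD ang A' C' (⟨a, Pa'⟩ :: ⟨z, Pz⟩ :: ⟨b, Pb'⟩ :: L))
      (hab : ¬ C'.E a b) (hz : 2 * Real.pi ≤ plen ang z Pz + ang z b a)
  | both (A₁ A₂ : ℕ) (C₁ C₂ : Cx N) (z : N) (Pa' Pz Qz Pb' : List N) (L₁ L₂ : List (FC N))
      (hA : A = A₁ + A₂ + 1) (hC : C = (C₁.sup C₂).add a b z) (hPa : Pa = Pa' ++ [b])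
      (hPb : Pb = a :: Pb') (hL : L = L₁ ++ ⟨z, Pz ++ Qz⟩ :: L₂)
      (h₁ : PD ang A₁ C₁ (⟨z, Pz⟩ :: ⟨b, Pb'⟩ :: L₁))
      (h₂ : PD ang A₂ C₂ (⟨z, Qz⟩ :: (L₂ ++ [⟨a, Pa'⟩])))
      (hd : ∀ x, x ∈ C₁.S → x ∈ C₂.S → x = z)

/-- `x → y` is a boundary edge of `L`. -/
def Bd (L : List (FC N)) (x y : N) : Prop := ∃ l : List N, (L.map FC.v) ~r (x :: y :: l)

/-- Compatibility of consecutive corners: successor and predecessor. -/
def Nx (c c' : FC N) : Prop := c.P.getLast? = some c'.v ∧ c'.P.head? = some c.v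

/-- Invariants of planar discs, part 1. -/
structure Inv (C : Cx N) (L : List (FC N)) : Prop where
  len : 2 ≤ L.length
  nodup : (L.map FC.v).Nodup
  symm : ∀ x y, C.E x y → C.E y x
  irr : ∀ x, ¬ C.E x x
  cyc : ∀ x y z, C.T x y z → C.T y z x
  TE : ∀ x y z, C.T x y z → C.E x y
  func : ∀ x y z z', C.T x y z → C.T x y z' → z = z'
  /-- consecutive corners (cyclically) -/
  nx : ∀ c c' L', L ~r (c :: c' :: L') → Nx c c'
  /-- boundary edges are edges, without triangle on the right side -/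
  bdE : ∀ x y, Bd L x y → C.E x y
  bdT : ∀ x y w, Bd L x y → ¬ C.T y x w
  /-- fans -/
  fnodup : ∀ c ∈ L, c.P.Nodup
  fchain : ∀ c ∈ L, List.IsChain (fun r s => C.T r c.v s) c.P
  fall : ∀ c ∈ L, ∀ r s, C.T r c.v s → ∃ X Y, c.P = X ++ r :: s :: Y
  fnb : ∀ c ∈ L, ∀ x, C.E c.v x ↔ x ∈ c.P

/-- Invariants of planar discs, part 2: the link of an interior vertex `q` is a cycle
`Q` (given as `r :: Q'`) of length at least `2 π`. -/
def Inv2 (ang : N → N → N → ℝ) (C : Cx N) (L : List (FC N)) : Prop :=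
  ∀ q ∈ C.S, q ∉ L.map FC.v → ∃ Q : List N, ∃ hQ : Q ≠ [], Q.Nodup ∧
    List.IsChain (fun r s => C.T r q s) (Q ++ [Q.head hQ]) ∧
    (∀ x, C.E q x ↔ x ∈ Q) ∧ 2 * Real.pi ≤ plen ang q (Q ++ [Q.head hQ])

/-- Euclidean, non-obtuse triangles. -/
structure Euc (len : N → N → ℝ) (ang : N → N → N → ℝ) (C : Cx N) : Prop where
  lsymm : ∀ x y, len x y = len y x
  asymm : ∀ v x y, ang v x y = ang v y x
  lpos : ∀ x y, C.E x y → 0 < len x y
  apos : ∀ x y z, C.T x y z → 0 < ang y x z
  ale : ∀ x y z, C.T x y z → ang y x z ≤ Real.pi / 2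
  asum : ∀ x y z, C.T x y z → ang x y z + ang y x z + ang z x y = Real.pi
  proj : ∀ x y z, C.T x y z → ∀ φ : ℝ,
    len x y * Real.cos φ = len x z * Real.cos (φ + ang x y z) + len z y * Real.cos (φ - ang y x z)

/-- Length of a path. -/
def elen (len : N → N → ℝ) : List N → ℝ
  | [] => 0
  | [_] => 0
  | (a :: b :: l) => len a b + elen len (b :: l)

/-- Length of a cyclic list. -/
def cyl (len : N → N → ℝ) : List N → ℝ
  | [] => 0
  | (a :: l) => elen len (a :: (l ++ [a]))

/-- The vertex of the first corner, or `d`. -/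
def fstV (d : N) : List (FC N) → N
  | [] => d
  | (c :: _) => c.v

/-- The sum of `length * cos (direction)` over the edges of a path: every element `(c, φ)` of `K`
is the starting corner of an edge together with the direction `φ` of this edge; the path ends at
`y`. -/
noncomputable def WS (len : N → N → ℝ) : List (FC N × ℝ) → N → ℝ
  | [], _ => 0
  | ((c, φ) :: K), y => len c.v (fstV y (K.map Prod.fst)) * Real.cos φ + WS len K y

/-- The constraints of the transport inequality: directions are in `[-π, π]` and the change of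
direction at every vertex between two edges is at least `π - θ`. -/
def MCon (ang : N → N → N → ℝ) (K : List (FC N × ℝ)) : Prop :=
  (∀ p ∈ K, |p.2| ≤ Real.pi) ∧
  List.IsChain (fun p q : FC N × ℝ => Real.pi - q.1.th ang ≤ q.2 - p.2) K

/-- The conclusion of the transport inequality. The boundary of the disc is `R ++ K.map fst`: the
path `K` from `x₀` (first corner of `K`) to `x_m` (the first corner of `R`, or `x₀` if `R = []`)
and the complementary path `R, x₀`. -/
def MTc (len : N → N → ℝ) (R : List (FC N)) (K : List (FC N × ℝ)) : Prop :=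
  ∀ x₀ K', K.map Prod.fst = x₀ :: K' →
    WS len K (fstV x₀.v R) ≤ elen len (R.map FC.v ++ [x₀.v])

/-- The transport inequality for discs of area `A`. -/
def MTat (len : N → N → ℝ) (ang : N → N → N → ℝ) (A : ℕ) : Prop :=
  ∀ (C : Cx N) (R : List (FC N)) (K : List (FC N × ℝ)), PD ang A C (R ++ K.map Prod.fst) →
    Euc len ang C → MCon ang K → MTc len R K

/-- Two-sided constraint at an interior vertex `q` between the edges `p q` (direction `φ`) and
`q n` (direction `φ'`). -/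
def Bi (ang : N → N → N → ℝ) (C : Cx N) (p q n : N) (φ φ' : ℝ) : Prop :=
  ∃ X Y : List N,
    (p :: (X ++ [n])).Nodup ∧ List.IsChain (fun r s => C.T r q s) (p :: (X ++ [n])) ∧
    (n :: (Y ++ [p])).Nodup ∧ List.IsChain (fun r s => C.T r q s) (n :: (Y ++ [p])) ∧
    Real.pi - plen ang q (p :: (X ++ [n])) ≤ φ' - φ ∧
    Real.pi - plen ang q (n :: (Y ++ [p])) ≤ φ - φ'

/-- Two-sided paths: from `x`, steps `(φ, y)` (direction and end of the edge); the vertices between
two steps satisfy `I` (they will be interior vertices). -/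
def Bp (ang : N → N → N → ℝ) (C : Cx N) (I : N → Prop) : N → List (ℝ × N) → Prop
  | _, [] => True
  | x, [(φ, y)] => C.E x y ∧ |φ| ≤ Real.pi / 4
  | x, (φ, y) :: (φ', y') :: l =>
    C.E x y ∧ |φ| ≤ Real.pi / 4 ∧ I y ∧ Bi ang C x y y' φ φ' ∧ Bp ang C I y ((φ', y') :: l)

/-- Interior vertices. -/
def Int (C : Cx N) (L : List (FC N)) (q : N) : Prop := q ∈ C.S ∧ q ∉ L.map FC.v

end Pool.Agent.MSN
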