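import Pool.Agent.MSN.FTargets

/-!
# M5: finite reduction, attaching an orbit of vertices
-/

namespace Pool.Agent.MSN.Fin

open List Pool.Agent.MSF

universe u

section opa

variable {H : Type} [Group H] {V : Type u} [MulAction H V] {G : SimpleGraph V}

/-- Adjacency after attaching the orbit of a vertex to `a` and `c`. -/
def oaAdj (Y : HComp H G) (a c : Y.W) : Y.W ⊕ ULift.{u} H → Y.W ⊕ ULift.{u} H → Prop
  | .inl w, .inl w' => Y.K.Adj w w'
  | .inl w, .inr h => w = h.down • a ∨ w = h.down • c
  | .inr h, .inl w => w = h.down • a ∨ w = h.down • c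
  | .inr _, .inr _ => False

/-- The graph after attaching the orbit of a vertex to `a` and `c`. -/
def oaK (Y : HComp H G) (a c : Y.W) : SimpleGraph (Y.W ⊕ ULift.{u} H) where
  Adj := oaAdj Y a c
  symm := ⟨by
    rintro (x | h) (y | k) hxy
    · exact (show Y.K.Adj x y from hxy).symm
    · exact hxy
    · exact hxy
    · exact hxy⟩
  loopless := ⟨by
    rintro (x | h) hx
    · exact Y.K.loopless.irrefl x hx
    · exact hx⟩

/-- The map to `V`. -/
def oaPi (Y : HComp H G) (b : V) : Y.W ⊕ ULift.{u} H → V
  | .inl w => Y.π w
  | .inr h => h.down • b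

/-- The action. -/
@[instance_reducible]
def oaAct (Y : HComp H G) : MulAction H (Y.W ⊕ ULift.{u} H) where
  smul h x := match x with
    | .inl w => .inl (h • w)
    | .inr k => .inr ⟨h * k.down⟩
  one_smul := by
    rintro (x | k)
    · change Sum.inl _ = _
      rw [one_smul]
    · change Sum.inr _ = _
      rw [one_mul]
  mul_smul := by
    rintro g h (x | k)
    · change Sum.inl _ = Sum.inl _
      rw [mul_smul]
    · change Sum.inr _ = Sum.inr _
      rw [mul_assoc]

theorem oaK_inl (Y : HComp H G) (a c : Y.W) (x y : Y.W) :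
    (oaK Y a c).Adj (.inl x) (.inl y) ↔ Y.K.Adj x y := Iff.rfl

theorem oaK_inr (Y : HComp H G) (a c : Y.W) (x : Y.W) (h : ULift.{u} H) :
    (oaK Y a c).Adj (.inl x) (.inr h) ↔ (x = h.down • a ∨ x = h.down • c) := Iff.rfl

theorem oaK_inr' (Y : HComp H G) (a c : Y.W) (x : Y.W) (h : ULift.{u} H) :
    (oaK Y a c).Adj (.inr h) (.inl x) ↔ (x = h.down • a ∨ x = h.down • c) := Iff.rfl

/-- Every path between old vertices is homotopic to a path of old vertices. -/
theorem oa_surj (Y : HComp H G) (a c : Y.W) (hac : a = c ∨ Y.K.Adj a c) (n : ℕ) :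
    ∀ (x y : Y.W) (P : List (Y.W ⊕ ULift.{u} H)), P.length ≤ n →
      IsP (oaK Y a c) (.inl x) (.inl y) P →
      ∃ Q, IsP Y.K x y Q ∧ Hom (oaK Y a c) (Q.map Sum.inl) P := by
  induction n with
  | zero =>
    intro x y P hn hP
    exact absurd (List.length_eq_zero_iff.1 (Nat.le_zero.1 hn)) hP.ne_nil
  | succ n ih =>
    intro x y P hn hP
    rcases hP.cases with ⟨h1, h2⟩ | ⟨d, T, h1, h2, h3⟩
    · obtain rfl : x = y := Sum.inl_injective h2
      exact ⟨[x], IsP.single x, by rw [h1]; exact Hom.rfl' _⟩
    · rcases d with z | h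
      · obtain ⟨Q, hQ, hQ'⟩ := ih z y (Sum.inl z :: T) (by rw [h1] at hn; simpa using hn) h3
        refine ⟨x :: Q, IsP.cons h2 hQ, ?_⟩
        rw [h1]
        exact Hom.left [Sum.inl x] hQ'
      · rcases h3.cases with ⟨h4, h5⟩ | ⟨e, T', h4, h5, h6⟩
        · exact absurd h5 (by simp)
        · rcases e with z | k
          · simp only [List.cons.injEq, true_and] at h4
            subst h4
            obtain ⟨Q, hQ, hQ'⟩ := ih z y (Sum.inl z :: T')
              (by rw [h1] at hn; simp at hn ⊢; omega) h6
            have hx : x = h.down • a ∨ x = h.down • c := h2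
            have hz : z = h.down • a ∨ z = h.down • c := h5
            have hxz : x = z ∨ Y.K.Adj x z := by
              rcases hac with hac | hac
              · subst hac
                left
                rcases hx with hx | hx <;> rcases hz with hz | hz <;> rw [hx, hz]
              · have hK := Y.K_smul h.down a c hac
                rcases hx with hx | hx <;> rcases hz with hz | hz <;> subst hx <;> subst hz
                · exact Or.inl rfl
                · exact Or.inr hK
                · exact Or.inr hK.symm
                · exact Or.inl rfl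
            rcases hxz with hxz | hxz
            · subst hxz
              refine ⟨Q, hQ, hQ'.trans' ?_⟩
              rw [h1]
              exact Hom.spur (K := oaK Y a c) [] T' h2
            · refine ⟨x :: Q, IsP.cons hxz hQ, ?_⟩
              have h7 : Hom (oaK Y a c) ((x :: Q).map Sum.inl) (Sum.inl x :: Sum.inl z :: T') :=
                Hom.left [Sum.inl x] hQ'
              refine h7.trans' ?_
              rw [h1]
              exact Hom.tri (K := oaK Y a c) [] T' h2 h5 hxz
          · exact absurd h5 (fun h => h)

end opa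

theorem opA : T_OPA.{u} := by
  intro H _ _ V _ G hG Y a c b hac ha hc
  let _ := oaAct Y
  have hfin : Finite (Y.W ⊕ ULift.{u} H) := inferInstance
  have hpa : ∀ h : H, G.Adj (Y.π (h • a)) (h • b) := fun h => by
    rw [Y.π_smul]; exact hG h _ _ ha
  have hpc : ∀ h : H, G.Adj (Y.π (h • c)) (h • b) := fun h => by
    rw [Y.π_smul]; exact hG h _ _ hc
  have hinl : ∀ x y : Y.W, Y.K.Adj x y → (oaK Y a c).Adj (.inl x) (.inl y) := fun _ _ h => h
  have hconn : ∀ x : Y.W ⊕ ULift.{u} H, ∃ (w : Y.W) (P : List (Y.W ⊕ ULift.{u} H)),
      IsP (oaK Y a c) x (.inl w) P := by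
    rintro (x | h)
    · exact ⟨x, _, IsP.single _⟩
    · exact ⟨h.down • a, _, IsP.cons (K := oaK Y a c) (b := Sum.inl (h.down • a))
        (Or.inl rfl) (IsP.single _)⟩
  let Y' : HComp H G :=
    { W := Y.W ⊕ ULift.{u} H
      K := oaK Y a c
      π := oaPi Y b
      π_smul := by
        rintro h (x | k)
        · exact Y.π_smul h x
        · exact mul_smul h k.down b
      π_adj := by
        rintro (x | h) (y | k) hxy
        · exact Y.π_adj x y hxy
        · rcases hxy with rfl | rfl
          · exact hpa _
          · exact hpc _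
        · rcases hxy with rfl | rfl
          · exact (hpa _).symm
          · exact (hpc _).symm
        · exact absurd hxy (fun h => h)
      K_smul := by
        rintro g (x | h) (y | k) hxy
        · exact Y.K_smul g x y hxy
        · rcases hxy with rfl | rfl
          · exact Or.inl (mul_smul g k.down a).symm
          · exact Or.inr (mul_smul g k.down c).symm
        · rcases hxy with rfl | rfl
          · exact Or.inl (mul_smul g h.down a).symm
          · exact Or.inr (mul_smul g h.down c).symm
        · exact hxy
      ne := ⟨Sum.inl a⟩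
      conn := by
        intro x y
        obtain ⟨w, P, hP⟩ := hconn x
        obtain ⟨w', P', hP'⟩ := hconn y
        obtain ⟨Q, hQ⟩ := Y.conn w w'
        exact ⟨_, (hP.comp (hQ.map hinl)).comp hP'.reverse⟩ }
  refine ⟨Y', Sum.inl, Sum.inr ⟨1⟩, ⟨fun _ => rfl, hinl, ?_⟩, one_smul H b, ?_, ?_⟩
  · intro o P hP
    exact oa_surj Y a c hac _ o o P le_rfl hP
  · exact Or.inl (one_smul H a).symm
  · exact Or.inr (one_smul H c).symm

end Pool.Agent.MSN.Fin
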