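import Pool.Agent.MSN.PD

/-!
# Targets of module M3 (planar discs), with proofs

Every `T_X` is one job: prove `theorem tX : T_X.{u}` (or `tX (h : T_Y.{u}) … : T_X.{u}` when
the docstring says uses T_Y) in the file `Pool/Agent/MSN/X.lean`.
-/

namespace Pool.Agent.MSN

open List Pool.Agent.MSF

universe u

/-- INV (basic invariants). Induction on `PD`. digon: direct. rot: all fields are invariant under
rotation of `L` (`Bd` and `nx` are stated up to rotation).
inner: old boundary `a → z → b → L`, `¬ E a b`; so `L ≠ []` (otherwise `b → a` is a boundary edge,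
`E b a`, `E a b`). New boundary `a → b → L`. `func`: the new triangles are `(a,b,z), (b,z,a),
(z,a,b)`; there is no old `T a b _` (TE, `¬ E a b`), no old `T b z _` and no old `T z a _` (`bdT` for
the boundary edges `z → b` and `a → z`). `fnodup`: `b ∉ Pa` and `a ∉ Pb` by `fnb` and `¬ E a b`.
`fall`/`fchain` at `a`: `Pa` ends with `z` (nx), new triangle `T z a b`; at `b`: `Pb` starts with `z`,
new triangle `T a b z`; at another boundary vertex (`≠ a, b, z` by nodup) no new triangle.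
both: `S₁ ∩ S₂ = {z}`; `a ∈ S₂`, `b ∈ S₁`, `a ≠ z ≠ b`, so `a ∉ S₁`, `b ∉ S₂`, `a ≠ b`. No triangle has
vertices in both (TE, cyc: the vertices of a triangle of `Cᵢ` lie in `Sᵢ`). The fan at `z` is
`Pz ++ Qz`: `Pz` ends with `b`, `Qz` starts with `a`, new triangle `T b z a`. Neighbours: a vertex of
`S₁` different from `z` has all its old edges in `C₁`. -/
def T_INV : Prop := ∀ {N : Type u} (ang : N → N → N → ℝ) (A : ℕ) (C : Cx N) (L : List (FC N)),
  PD ang A C L → Inv C L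

/-- INV2 (uses T_INV): links of interior vertices. Induction on `PD`. digon: none. inner: the new
interior vertex is `z`: `Q := Pz` (its fan from `a` to `b`, `Pz = a :: … ++ [b]`, nodup), closing triangle
`T' b z a` (new), total length `plen z Pz + ang z b a ≥ 2π` (`plen` of `Pz ++ [a]`). Old interior
vertices `q` (not on the old boundary): their old cycle is still good; new edge `a b` and the new
triangles do not contain `q`. both: interior vertices of `C₁` or `C₂`; they are not in the other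
complex. New labels: all old labels are still labels, except for `z` in case inner. -/
def T_INV2 : Prop := ∀ {N : Type u} (ang : N → N → N → ℝ) (A : ℕ) (C : Cx N) (L : List (FC N)),
  PD ang A C L → Inv2 ang C L

/-- FIN (uses T_INV): the vertex set is finite, every boundary vertex is a vertex, and the
complex is connected (every vertex is joined to every boundary vertex by an `E`-path). -/
def T_FIN : Prop := ∀ {N : Type u} (ang : N → N → N → ℝ) (A : ℕ) (C : Cx N) (L : List (FC N)),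
  PD ang A C L → C.S.Finite ∧ (∀ c ∈ L, c.v ∈ C.S) ∧
    ∀ x ∈ C.S, ∀ y ∈ C.S, Relation.ReflTransGen C.E x y

/-- GB (uses T_INV): Gauss-Bonnet. Induction on `PD` (hypotheses restrict to subcomplexes). `plen` of
`Pa ++ [b]` is `plen Pa + ang a z b` because `Pa` ends with `z` (nx), etc. digon: `π + π`. inner: the
new sum is the old sum minus `(π - θ_z)` minus `α_a + α_b`, and `θ_z ≥ 2π - α_z`. both: new sum =
`Σ₁ + Σ₂ - π - α_z - α_a - α_b ≥ 4π - 2π`. -/
def T_GB : Prop := ∀ {N : Type u} (ang : N → N → N → ℝ) (A : ℕ) (C : Cx N) (L : List (FC N)),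
  (∀ v x y, ang v x y = ang v y x) →
  (∀ x y z, C.T x y z → ang x y z + ang y x z + ang z x y ≤ Real.pi) →
  PD ang A C L → 2 * Real.pi ≤ (L.map fun c => Real.pi - c.th ang).sum

/-- RRI (uses T_INV): re-rooting at the next edge `b → d`, case inner. Write `B` for the old disc, with
boundary `a z b d L`. By `IH` decompose `B` (rotated) at `b → d`: `Pb = Pb'' ++ [d]`, `Pd = b :: Pd'`.
 digon: impossible (at least 4 boundary vertices: `d ≠ a` by nodup, `a, z, b, d`).
 inner, apex `y`: `B = B'' + (b,d,y)`, boundary of `B''`: `a z b y d L`. First add `(a,b,z)` to `B''`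
(PD.inner, same condition at `z`), then `(b,d,y)` (PD.inner; `¬ E b d` in `B'' + (a,b,z)` since `d ≠ a`).
 both, apex `y` on the boundary, `L ++ [a, z] = M₁ ++ y :: M₂`, pieces `B₁ : y, d, M₁` and
`B₂ : y, M₂, b`:
  * `y = z` (`M₂ = []`): `B₂` has two boundary corners, so it is the digon `z b`, `Pb'' = [z]`, `Qz`-part
    `[b]`: `Pz = Py₁ ++ [b]`, `B₁ : z, d, L, a`. New: PD.both at `(a,b)` with apex `z`, first piece the
    digon `[⟨z,[b]⟩,⟨b,[z]⟩]`, second piece `B₁`: boundary `a b z d L`, `b` has fan `[a, z]`, `z` has fan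
    `b :: Py₁`. Then PD.inner at `(b,d)` with apex `z`: condition
    `plen z (b :: Py₁) + ang z d b ≥ 2π`, which is the old condition
    `plen z (Py₁ ++ [b]) + ang z b a ≥ 2π` (`Py₁` goes from `a` to `d`). Result `inner`.
  * `y = a` (`M₂ = [z]`): `B₂` has the boundary edge `b → a`: contradicts `¬ E a b`.
  * `y ∈ L`: `L = M₁ ++ y :: M₂'`: add `(a,b,z)` to `B₂` (boundary `y M₂' a z b`; PD.inner), then PD.both
    at `(b,d)` with `B₁`. Result `both`.
 Complexes are compared with `Cx.ext`, `funext`, `propext`, `tauto`. (A lemma two boundary corners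
imply digon: cases on PD up to rotation; inner is impossible by `L ≠ []`, both has ≥ 3.) -/
def T_RRI : Prop := ∀ {N : Type u} (ang : N → N → N → ℝ) (A : ℕ),
  (∀ (C : Cx N) a Pa b Pb L, PD ang A C (⟨a, Pa⟩ :: ⟨b, Pb⟩ :: L) → Dec ang A C a Pa b Pb L) →
  (∀ v x y, ang v x y = ang v y x) →
  ∀ (C : Cx N) (a z b d : N) (Pa Pz Pb Pd : List N) (L : List (FC N)),
    PD ang A C (⟨a, Pa⟩ :: ⟨z, Pz⟩ :: ⟨b, Pb⟩ :: ⟨d, Pd⟩ :: L) → ¬ C.E a b →
    2 * Real.pi ≤ plen ang z Pz + ang z b a →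
    Dec ang (A + 1) (C.add a b z) b (a :: Pb) d Pd (L ++ [⟨a, Pa ++ [b]⟩])

/-- RRB0 (uses T_INV): re-rooting at the next edge, case both with `L₁ = []`: the first piece is the
digon `z b` (two boundary corners), `Pz = [b]`, `Pb = [z]`; the next edge is `b → z`. Result `both` with
apex `a`: first piece the second disc rotated (`⟨a,Pa⟩ :: ⟨z,Qz⟩ :: L₂`), second piece the digon
`[⟨a,[b]⟩, ⟨b,[a]⟩]`. (`b ∉ S₂` from `hd`.) -/
def T_RRB0 : Prop := ∀ {N : Type u} (ang : N → N → N → ℝ) (A₁ A₂ : ℕ) (C₁ C₂ : Cx N) (a z b : N)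
  (Pa Pz Qz Pb : List N) (L₂ : List (FC N)),
    PD ang A₁ C₁ [⟨z, Pz⟩, ⟨b, Pb⟩] → PD ang A₂ C₂ (⟨z, Qz⟩ :: (L₂ ++ [⟨a, Pa⟩])) →
    (∀ x, x ∈ C₁.S → x ∈ C₂.S → x = z) →
    Dec ang (A₁ + A₂ + 1) ((C₁.sup C₂).add a b z) b (a :: Pb) z (Pz ++ Qz)
      (L₂ ++ [⟨a, Pa ++ [b]⟩])

/-- RRB1 (uses T_INV): re-rooting at the next edge `b → d`, case both with `L₁ = d :: L₁'`. By `IH`
decompose the first piece (rotated) at `b → d`: `Pb = Pb'' ++ [d]`, `Pd = b :: Pd'`.
 digon: impossible.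
 inner, apex `y`: first piece = `B' + (b,d,y)`. PD.both of `B'` and the second piece at `(a,b)` with
apex `z`, then PD.inner at `(b,d)` (`¬ E b d`: `b ∉ S₂`, and `d ≠ a`). Result `inner`.
 both, apex `y`, `L₁' ++ [z] = M₁ ++ y :: M₂`, pieces `B₁ : y, d, M₁`, `B₂ : y, M₂, b`:
  * `y = z` (`M₂ = []`): `B₂` is the digon `z b`; `Pb'' = [z]`, `Pz = Py₁ ++ [b]`. PD.both of the digon and
    the second piece at `(a,b)`: boundary `a b z L₂` with fan `[b] ++ Qz` at `z`; then PD.both with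
    `B₁` at `(b,d)`, apex `z`. Result `both`.
  * `y ∈ L₁'`: PD.both of `B₂` and the second piece at `(a,b)` with apex `z`, then PD.both with `B₁` at
    `(b,d)` with apex `y`. Result `both`. -/
def T_RRB1 : Prop := ∀ {N : Type u} (ang : N → N → N → ℝ) (A₁ : ℕ),
  (∀ (C : Cx N) a Pa b Pb L, PD ang A₁ C (⟨a, Pa⟩ :: ⟨b, Pb⟩ :: L) → Dec ang A₁ C a Pa b Pb L) →
  ∀ (A₂ : ℕ) (C₁ C₂ : Cx N) (a z b d : N)
  (Pa Pz Qz Pb Pd : List N) (L₁ L₂ : List (FC N)),
    PD ang A₁ C₁ (⟨z, Pz⟩ :: ⟨b, Pb⟩ :: ⟨d, Pd⟩ :: L₁) →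
    PD ang A₂ C₂ (⟨z, Qz⟩ :: (L₂ ++ [⟨a, Pa⟩])) →
    (∀ x, x ∈ C₁.S → x ∈ C₂.S → x = z) →
    Dec ang (A₁ + A₂ + 1) ((C₁.sup C₂).add a b z) b (a :: Pb) d Pd
      (L₁ ++ ⟨z, Pz ++ Qz⟩ :: (L₂ ++ [⟨a, Pa ++ [b]⟩]))

/-- RR (uses T_RRI, T_RRB0, T_RRB1): re-rooting. Strong induction on `A`. A disc is, up to rotation,
in one of the three forms at its first edge (cases on PD); if it is decomposed at one edge, then it
is decomposed at the next one (RRI, RRB0, RRB1; digon: symmetric); so at all edges. -/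
def T_RR : Prop := ∀ {N : Type u} (ang : N → N → N → ℝ), (∀ v x y, ang v x y = ang v y x) →
  ∀ (A : ℕ) (C : Cx N) (a : N) (Pa : List N) (b : N) (Pb : List N) (L : List (FC N)),
    PD ang A C (⟨a, Pa⟩ :: ⟨b, Pb⟩ :: L) → Dec ang A C a Pa b Pb L

/-- CYC (pure lists): if every cyclic edge of the nodup cyclic list `u` (length ≥ 3) is a cyclic edge
of the nodup cyclic list `w` (length ≥ 3), in one of the two directions, then `u` is `w` or the
reverse of `w`, up to rotation. Rotate / reverse `w` such that `w₀ = u₀`, `w₁ = u₁`; then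
`uᵢ = wᵢ` inductively (a cyclic neighbour of `wᵢ` different from `wᵢ₋₁`), and the closing edge gives
equal lengths. -/
def T_CYC : Prop := ∀ {N : Type u} (u w : List N), 3 ≤ u.length → 3 ≤ w.length → u.Nodup → w.Nodup →
  (∀ x y l, u ~r (x :: y :: l) → (∃ l', w ~r (x :: y :: l')) ∨ ∃ l', w ~r (y :: x :: l')) →
  u ~r w ∨ u ~r w.reverse

/-- UNI (pure lists): a simple closed walk in the union of two graphs with at most the vertex `z` in
common lies in one of them. (Rotate such that `z` is the first vertex if it occurs. Consecutive edges at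
a vertex `≠ z` lie in the same graph.) -/
def T_UNI : Prop := ∀ {N : Type u} (E₁ E₂ : N → N → Prop) (z : N),
  (∀ x y, E₁ x y → E₁ y x) → (∀ x y, E₂ x y → E₂ y x) →
  (∀ x y y', E₁ x y → E₂ x y' → x = z) →
  ∀ (a : N) (l : List N), (a :: l).Nodup →
    List.IsChain (fun x y => E₁ x y ∨ E₂ x y) (a :: (l ++ [a])) →
    List.IsChain E₁ (a :: (l ++ [a])) ∨ List.IsChain E₂ (a :: (l ++ [a]))

/-- SUB (uses T_INV, T_RR, T_CYC, T_UNI): every simple closed walk `ω = a :: l` of length ≥ 3 in the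
1-skeleton bounds a subdisc. Strong induction on `A`. If every boundary edge of `L` is an edge of
`ω` (in one of the two directions): the boundary is not a digon (else `ω` has its edges in
`Cx.edge`), and CYC gives boundary = `ω` or reverse up to rotation; rotate with PD.rot. Otherwise
decompose (RR) at a boundary edge `x → y` not in `ω`: digon impossible; inner: `ω` lies in `C'.E`, IH;
both: `ω` lies in `C₁.E ∪ C₂.E`, UNI, IH. -/
def T_SUB : Prop := ∀ {N : Type u} (ang : N → N → N → ℝ), (∀ v x y, ang v x y = ang v y x) →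
  ∀ (A : ℕ) (C : Cx N) (L : List (FC N)), PD ang A C L →
  ∀ (a : N) (l : List N), 2 ≤ l.length → (a :: l).Nodup → List.IsChain C.E (a :: (l ++ [a])) →
    ∃ (A' : ℕ) (C' : Cx N) (L' : List (FC N)), A' ≤ A ∧ PD ang A' C' L' ∧ Cx.Le C' C ∧
      (L'.map FC.v = a :: l ∨ L'.map FC.v = (a :: l).reverse)

/-- FAN (pure lists): two nodup chains of a right-unique relation with the same first and last
elements are equal. -/
def T_FAN : Prop := ∀ {N : Type u} (r : N → N → Prop), (∀ x y y', r x y → r x y' → y = y') →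
  ∀ (p n : N) (X Y : List N), (p :: (X ++ [n])).Nodup → (p :: (Y ++ [n])).Nodup →
    List.IsChain r (p :: (X ++ [n])) → List.IsChain r (p :: (Y ++ [n])) → X = Y

/-! ### The transport inequality -/

/-- MTI: transport inequality, inner case. New data: `K₁ ++ (⟨x,Px⟩, ψ + β) :: (⟨z,Pz⟩, ψ - γ) :: K₂`
with `β = ang x y z`, `γ = ang y x z` (both in `[0, π/2]`, so the new directions are in `[-π, π]`), where
the fan of `y` (the first corner of `K₂ ++ R ++ K₁`) is changed to `Py`. Constraints: at `x`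
`π - (θ_x - β) ≤ ψ + β - φ₋`; at `y` (if `y ∈ K₂`) `π - (θ_y - γ) ≤ φ₊ - (ψ - γ)`; at `z`:
`π - θ_z ≤ α - π = -(β + γ)` (asum). If `y` is in `R`, or is the first corner of `K₁`, there is no
constraint at `y`. Apply MTat A' (`PD` rotated); WS: `proj`. -/
def T_MTI : Prop := ∀ {N : Type u} (len : N → N → ℝ) (ang : N → N → N → ℝ) (A' : ℕ),
  MTat len ang A' → ∀ (C' : Cx N) (x y z : N) (Px Pz Py : List N) (L R : List (FC N)) (ψ : ℝ)
    (K₁ K₂ : List (FC N × ℝ)),
    K₂.map Prod.fst ++ (R ++ K₁.map Prod.fst) = ⟨y, x :: Py⟩ :: L →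
    PD ang A' C' (⟨x, Px⟩ :: ⟨z, Pz⟩ :: ⟨y, Py⟩ :: L) → Inv C' (⟨x, Px⟩ :: ⟨z, Pz⟩ :: ⟨y, Py⟩ :: L) →
    ¬ C'.E x y → 2 * Real.pi ≤ plen ang z Pz + ang z y x → Euc len ang (C'.add x y z) →
    |ψ| ≤ Real.pi / 2 → MCon ang (K₁ ++ (⟨x, Px ++ [y]⟩, ψ) :: K₂) →
    MTc len R (K₁ ++ (⟨x, Px ++ [y]⟩, ψ) :: K₂)

/-- The data of the case both of the transport inequality: boundary `x → y → L₁ → z → L₂ → x`;
pieces `D₁ : z → y → L₁ → z`, `D₂ : z → L₂ → x → z`; `x` has fan `Px ++ [y]`, `y` has fan `x :: Py`. -/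
structure BData {N : Type u} (len : N → N → ℝ) (ang : N → N → N → ℝ) (A₁ A₂ : ℕ) (C₁ C₂ : Cx N)
    (x y z : N) (Px Pz Qz Py : List N) (L₁ L₂ : List (FC N)) : Prop where
  m₁ : MTat len ang A₁
  m₂ : MTat len ang A₂
  h₁ : PD ang A₁ C₁ (⟨z, Pz⟩ :: ⟨y, Py⟩ :: L₁)
  i₁ : Inv C₁ (⟨z, Pz⟩ :: ⟨y, Py⟩ :: L₁)
  h₂ : PD ang A₂ C₂ (⟨z, Qz⟩ :: (L₂ ++ [⟨x, Px⟩]))
  i₂ : Inv C₂ (⟨z, Qz⟩ :: (L₂ ++ [⟨x, Px⟩]))
  hd : ∀ w, w ∈ C₁.S → w ∈ C₂.S → w = z
  euc : Euc len ang ((C₁.sup C₂).add x y z)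

/-- MTBR: case both, apex `z ∈ R`, `R = R₁ ++ z :: R₂`. Let `β = ang x y z`, `γ = ang y x z`. Apply
MTat A₁ to `D₁` with data `(⟨z,Pz⟩, ψ-γ) :: K₂` (the fan of `y`, first corner of `K₂ ++ R₁`, changed to
`Py`), complementary path `R₁`; MTat A₂ to `D₂` with data `K₁ ++ [(⟨x,Px⟩, ψ+β)]`, complementary path
`⟨z,Qz⟩ :: R₂`. Constraints: at `x`: `π - (θ_x - β) ≤ ψ + β - φ₋`; at `y` (if `y ∈ K₂`):
`π - (θ_y - γ) ≤ φ₊ - (ψ - γ)`. Directions: `|ψ| ≤ π/2`, `0 ≤ β, γ ≤ π/2`. Add, use `proj`. -/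
def T_MTBR : Prop := ∀ {N : Type u} (len : N → N → ℝ) (ang : N → N → N → ℝ) (A₁ A₂ : ℕ)
  (C₁ C₂ : Cx N) (x y z : N) (Px Pz Qz Py : List N) (L₁ R₁ R₂ : List (FC N)) (ψ : ℝ)
    (K₁ K₂ : List (FC N × ℝ)),
    BData len ang A₁ A₂ C₁ C₂ x y z Px Pz Qz Py L₁ (R₂ ++ K₁.map Prod.fst) →
    K₂.map Prod.fst ++ R₁ = ⟨y, x :: Py⟩ :: L₁ →
    |ψ| ≤ Real.pi / 2 → MCon ang (K₁ ++ (⟨x, Px ++ [y]⟩, ψ) :: K₂) →
    MTc len (R₁ ++ ⟨z, Pz ++ Qz⟩ :: R₂) (K₁ ++ (⟨x, Px ++ [y]⟩, ψ) :: K₂)

/-- MTB2 (uses T_GB): case both, apex `z ∈ K₂`, `K₂ = K₂a ++ (⟨z,Pz++Qz⟩, φz) :: K₂b`, `K₂a ≠ []` starts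
with `y`. `D₁` closed (complementary path `[]`) with data `(⟨z,Pz⟩, ψ-γ) :: K₂a` (fan of `y` changed
to `Py`): sum ≤ 0. `D₂` with data `K₁ ++ (⟨x,Px⟩, ψ+β) :: (⟨z,Qz⟩, φz) :: K₂b` and `R`. Constraint at
`z` in `D₂`: let `φ₋` be the last direction of `K₂a`, `θ₁ = plen z Pz`, `θ₂ = plen z Qz`, `α = ang z x y`;
GB for `D₁` and its constraints (telescoping) give `φ₋ - (ψ-γ) ≥ 2π - (π - θ₁)`; the old constraint
at `z` is `φz - φ₋ ≥ π - θ₁ - α - θ₂` (`plen z (Pz ++ Qz) = θ₁ + ang z y x + θ₂` by nx); so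
`φz - (ψ+β) ≥ π - θ₂ + (π - α - β - γ) = π - θ₂`. -/
def T_MTB2 : Prop := ∀ {N : Type u} (len : N → N → ℝ) (ang : N → N → N → ℝ) (A₁ A₂ : ℕ)
  (C₁ C₂ : Cx N) (x y z : N) (Px Pz Qz Py : List N) (L₁ R : List (FC N)) (ψ φz : ℝ)
    (K₁ K₂a K₂b : List (FC N × ℝ)),
    BData len ang A₁ A₂ C₁ C₂ x y z Px Pz Qz Py L₁
      (K₂b.map Prod.fst ++ (R ++ K₁.map Prod.fst)) →
    K₂a.map Prod.fst = ⟨y, x :: Py⟩ :: L₁ →
    |ψ| ≤ Real.pi / 2 →
    MCon ang (K₁ ++ (⟨x, Px ++ [y]⟩, ψ) :: (K₂a ++ (⟨z, Pz ++ Qz⟩, φz) :: K₂b)) →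
    MTc len R (K₁ ++ (⟨x, Px ++ [y]⟩, ψ) :: (K₂a ++ (⟨z, Pz ++ Qz⟩, φz) :: K₂b))

/-- MTB1 (uses T_GB): case both, apex `z ∈ K₁`, `K₁ = K₁a ++ (⟨z,Pz++Qz⟩, φz) :: K₁b`. `D₂` closed with
data `(⟨z,Qz⟩, φz) :: K₁b ++ [(⟨x,Px⟩, ψ+β)]`: sum ≤ 0. `D₁` with data
`K₁a ++ (⟨z,Pz⟩, ψ-γ) :: K₂` and `R` (fan of `y`, the first corner of `K₂ ++ R ++ K₁a`, changed to `Py`).
Constraint at `z` in `D₁` (if `K₁a ≠ []`, previous direction `φ₋`): GB for `D₂` and its
constraints: `(ψ+β) - φz ≥ 2π - (π - θ₂)`, and `φz - φ₋ ≥ π - θ₁ - α - θ₂`, so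
`(ψ-γ) - φ₋ ≥ π - θ₁ + (π - α - β - γ)`. -/
def T_MTB1 : Prop := ∀ {N : Type u} (len : N → N → ℝ) (ang : N → N → N → ℝ) (A₁ A₂ : ℕ)
  (C₁ C₂ : Cx N) (x y z : N) (Px Pz Qz Py : List N) (L₁ R : List (FC N)) (ψ φz : ℝ)
    (K₁a K₁b K₂ : List (FC N × ℝ)),
    BData len ang A₁ A₂ C₁ C₂ x y z Px Pz Qz Py L₁ (K₁b.map Prod.fst) →
    K₂.map Prod.fst ++ (R ++ K₁a.map Prod.fst) = ⟨y, x :: Py⟩ :: L₁ →
    |ψ| ≤ Real.pi / 2 →
    MCon ang (K₁a ++ (⟨z, Pz ++ Qz⟩, φz) :: (K₁b ++ (⟨x, Px ++ [y]⟩, ψ) :: K₂)) →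
    MTc len R (K₁a ++ (⟨z, Pz ++ Qz⟩, φz) :: (K₁b ++ (⟨x, Px ++ [y]⟩, ψ) :: K₂))

/-- MTD: transport inequality for a digon `x y`. Either the path is one edge and the complementary
path is the same edge (`cos ≤ 1`), or the path is `x → y → x` (or `y → x → y`), closed, with
`φ₂ - φ₁ ≥ π`, `|φᵢ| ≤ π`: `cos φ₁ + cos φ₂ ≤ 0` (`cos φ₂ ≤ cos (φ₁ + π)`). -/
def T_MTD : Prop := ∀ {N : Type u} (len : N → N → ℝ) (ang : N → N → N → ℝ) (x y : N)
  (R : List (FC N)) (K : List (FC N × ℝ)), x ≠ y → Euc len ang (Cx.edge x y) → K ≠ [] →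
  R ++ K.map Prod.fst = [⟨x, [y]⟩, ⟨y, [x]⟩] → MCon ang K → MTc len R K

/-- MT (uses T_INV, T_RR, T_MTI, T_MTBR, T_MTB2, T_MTB1, T_MTD): the transport inequality. Strong induction on `A`.
If `K = []` nothing to prove. If no direction has `|φ| ≤ π/2` all cosines are ≤ 0 (directions are in
`[-π, π]`), lengths are ≥ 0. Otherwise `K = K₁ ++ (cx, ψ) :: K₂` with `|ψ| ≤ π/2`; rotate the disc to
`cx :: (K₂ ++ R ++ K₁)`, decompose (RR) at its first edge, and apply MTD, MTI or (according to the place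
of the apex `z` in `K₂ ++ R ++ K₁`) MTB2, MTBR, MTB1. -/
def T_MT : Prop := ∀ {N : Type u} (len : N → N → ℝ) (ang : N → N → N → ℝ) (A : ℕ), MTat len ang A

/-! ### Chords -/

/-- EXT (uses T_INV, T_INV2): greedy extension at an interior vertex `q`. Rotate the link cycle of `q`
such that it starts with `p`: `z₀ = p, z₁, …, z_{k-1}`, `λⱼ = plen q [z₀..zⱼ]`, `λ_k ≥ 2π`, increments
in `(0, π/2]`. Let `j` be the first index with `λⱼ ≥ 3π/4 + φ` (so `j ≥ 1`, and
`λⱼ < 5π/4 + φ ≤ 3π/2 < λ_k`, so `j < k`); `n := zⱼ`, `φ' := π + φ - λⱼ`. `X = [z₁..z_{j-1}]`,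
`Y = [z_{j+1}..z_{k-1}]`, and `plen q (n :: (Y ++ [p])) = λ_k - λⱼ ≥ 2π - λⱼ`. -/
def T_EXT : Prop := ∀ {N : Type u} (len : N → N → ℝ) (ang : N → N → N → ℝ) (A : ℕ) (C : Cx N)
  (L : List (FC N)), PD ang A C L → Euc len ang C →
  ∀ (p q : N) (φ : ℝ), Int C L q → C.E p q → |φ| ≤ Real.pi / 4 →
    ∃ (n : N) (φ' : ℝ), C.E q n ∧ |φ'| ≤ Real.pi / 4 ∧ Bi ang C p q n φ φ'

/-- The reversed two-sided path. -/
def revB {N : Type u} : N → List (ℝ × N) → List (ℝ × N)
  | _, [] => []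
  | x, (φ, y) :: l => revB y l ++ [(φ, x)]

/-- BREV: reversal of two-sided paths (`Bi` is symmetric). -/
def T_BREV : Prop := ∀ {N : Type u} (ang : N → N → N → ℝ) (C : Cx N) (I : N → Prop),
  (∀ x y, C.E x y → C.E y x) → ∀ (x : N) (l : List (ℝ × N)) (y : N) (φ : ℝ),
    Bp ang C I x (l ++ [(φ, y)]) → Bp ang C I y (revB x (l ++ [(φ, y)]))

/-- SIDE (uses T_INV, T_SUB, T_FAN, T_BREV, T_MT): let `x, l` be a two-sided path whose vertices are
pairwise different and let `Y` be a path that closes it: `ω = x :: (l.map snd ++ Y)` is a simple closed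
walk of length ≥ 3. Then `(√2/2) * length of the path ≤ length of (last, Y, x)`. SUB gives a
subdisc with boundary `ω` (or the reverse: then use BREV). Its fans at the inner vertices of the
path are nodup `T`-chains from the predecessor to the successor, so by FAN they are the lists
`p :: (X ++ [n])` of `Bi`. MT with `K = (corner, direction)` along the path and `R = [last] ++ Y`
(nonempty); `cos φ ≥ √2/2` for `|φ| ≤ π/4`. -/
def T_SIDE : Prop := ∀ {N : Type u} (len : N → N → ℝ) (ang : N → N → N → ℝ) (A : ℕ) (C : Cx N)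
  (L : List (FC N)), PD ang A C L → Euc len ang C →
  ∀ (I : N → Prop) (x : N) (l : List (ℝ × N)) (φ : ℝ) (y : N) (Y : List N),
    Bp ang C I x (l ++ [(φ, y)]) → (x :: (l.map Prod.snd ++ y :: Y)).Nodup →
    List.IsChain C.E (x :: (l.map Prod.snd ++ y :: (Y ++ [x]))) → 1 ≤ (l.map Prod.snd ++ Y).length →
    Real.sqrt 2 / 2 * elen len (x :: (l.map Prod.snd ++ [y])) ≤ elen len (y :: (Y ++ [x]))

/-- NR (uses T_INV, T_SUB, T_FAN, T_GB): a two-sided path has no repeated vertex. Otherwise take a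
shortest repetition: a part `x₀, x₁, …, x_k = x₀` with `x₀, …, x_{k-1}` pairwise different. `k = 1`:
`E x x` impossible. `k = 2`: `p = n` in `Bi`, but `p :: (X ++ [n])` is nodup. `k ≥ 3`: SUB gives a
subdisc with this boundary (or the reverse). By FAN its angles at `x₁..x_{k-1}` satisfy
`π - θⱼ ≤ φ_{j+1} - φⱼ` (reverse: `φⱼ - φ_{j+1}`), at `x₀` `π - θ ≤ π` (angles are nonnegative), so
`Σ (π - θ) ≤ π + π/2 < 2π`, contradicting GB. -/
def T_NR : Prop := ∀ {N : Type u} (len : N → N → ℝ) (ang : N → N → N → ℝ) (A : ℕ) (C : Cx N)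
  (L : List (FC N)), PD ang A C L → Euc len ang C →
  ∀ (I : N → Prop) (x : N) (l : List (ℝ × N)), Bp ang C I x l → (x :: l.map Prod.snd).Nodup

/-- CHORD (uses T_INV, T_FIN, T_EXT, T_BREV, T_NR): through every interior vertex `w` passes a two-sided
path whose two ends are on the boundary. Start with one edge at `w`, direction `0`; among all
two-sided paths (with `I = Int C L`) through `w` take one with the maximal number of vertices (at most
`|S|` by NR). An end in the interior could be extended by EXT (at the other end after BREV). -/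
def T_CHORD : Prop := ∀ {N : Type u} (len : N → N → ℝ) (ang : N → N → N → ℝ) (A : ℕ) (C : Cx N)
  (L : List (FC N)), PD ang A C L → Euc len ang C →
  ∀ w, Int C L w → ∃ (x : N) (l : List (ℝ × N)) (φ : ℝ) (y : N),
    Bp ang C (Int C L) x (l ++ [(φ, y)]) ∧ w ∈ l.map Prod.snd ∧ x ∈ L.map FC.v ∧ y ∈ L.map FC.v

/-- DIST (uses T_INV, T_CHORD, T_NR, T_SIDE): every vertex `w` is joined to every boundary vertex `b` by
an `E`-path of length at most `(1/2 + √2/4) * perimeter`. On the boundary: the shorter arc, at most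
half of the perimeter. In the interior: a chord `x … w … y` (CHORD), nodup by NR, `x ≠ y`; the boundary is
`x :: X ++ y :: Y` up to rotation; the closed walks (chord, `Y`) and (reversed chord, `X`) are simple
(inner vertices of the chord are interior: `Bp` gives `I`), SIDE for both (BREV for the second):
`√2 * |chord| ≤ perimeter`; go along the shorter half of the chord (≤ |chord|/2 ≤ √2/4 * perimeter),
then along the shorter arc. -/
def T_DIST : Prop := ∀ {N : Type u} (len : N → N → ℝ) (ang : N → N → N → ℝ) (A : ℕ) (C : Cx N)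
  (L : List (FC N)), PD ang A C L → Euc len ang C →
  ∀ w ∈ C.S, ∀ b ∈ L.map FC.v, ∃ P : List N, P.head? = some b ∧ P.getLast? = some w ∧
    List.IsChain C.E P ∧ elen len P ≤ (1 / 2 + Real.sqrt 2 / 4) * cyl len (L.map FC.v)

/-- TREE (uses T_INV, T_RR): let `K` be a symmetric relation (consistent) with: two consistent edges
of a triangle imply the third. If every vertex is joined to the vertex `r` by consistent edges, then all
boundary edges are consistent. Strong induction on `A` (for all `r ∈ S`). Let `a → b` be a boundary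
edge, not consistent; decompose (RR). digon: `S = {a, b}`, so the connection uses the edge `a b`.
inner: the paths avoid the edge `a b`, so IH for `C'`: `K a z`, `K z b`, hence `K a b`. both: paths avoid
the edge `a b`; a path of consistent edges of `C₁ ∪ C₂` from `x ∈ S₁` to any vertex of `S₂`
passes through `z`, and its part before `z` lies in `C₁` (head induction); so `S₁` is connected by
consistent edges of `C₁` (root `z`), similarly `S₂`; IH for both: `K z b` and `K a z`. -/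
def T_TREE : Prop := ∀ {N : Type u} (ang : N → N → N → ℝ), (∀ v x y, ang v x y = ang v y x) →
  ∀ (A : ℕ) (C : Cx N) (L : List (FC N)), PD ang A C L →
  ∀ K : N → N → Prop, (∀ x y, K x y → K y x) →
  (∀ x y z, C.T x y z → K x y → K y z → K x z) →
  ∀ r ∈ C.S, (∀ x ∈ C.S, Relation.ReflTransGen (fun x y => C.E x y ∧ K x y) r x) →
  ∀ x y, Bd L x y → K x y

/-- GEOD (pure; finite weighted graphs): if every vertex of the finite set `S` is joined to `b` by an
`E`-path of length at most `B` (positive edge lengths), then one can choose such paths `γ x` with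
`γ b = [b]`, and `γ x = γ y ++ [x]` for some neighbour `y ∈ S` of `x`, for all `x ≠ b`. (Shortest paths;
recursion on the distance, or induction on the number of vertices: a shortest path tree.) -/
def T_GEOD : Prop := ∀ {N : Type u} (len : N → N → ℝ) (E : N → N → Prop) (S : Set N) (b : N) (B : ℝ),
  S.Finite → b ∈ S → (∀ x y, E x y → x ∈ S ∧ y ∈ S ∧ 0 < len x y) →
  (∀ x ∈ S, ∃ P : List N, P.head? = some b ∧ P.getLast? = some x ∧ List.IsChain E P ∧
    elen len P ≤ B) →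
  ∃ γ : N → List N, γ b = [b] ∧ (∀ x ∈ S, (γ x).getLast? = some x) ∧
    (∀ x ∈ S, elen len (γ x) ≤ B) ∧
    ∀ x ∈ S, x ≠ b → ∃ y ∈ S, E y x ∧ γ x = γ y ++ [x]

/-! ### From disc diagrams to planar discs -/

/-- The image of a complex. -/
def Cx.map {N N' : Type u} (f : N → N') (C : Cx N) : Cx N' :=
  ⟨fun x y => ∃ a b, C.E a b ∧ f a = x ∧ f b = y,
   fun x y w => ∃ a b c, C.T a b c ∧ f a = x ∧ f b = y ∧ f c = w⟩

/-- The image of a corner. -/
def FC.map {N N' : Type u} (f : N → N') (c : FC N) : FC N' := ⟨f c.v, c.P.map f⟩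

/-- MAP: relabelling along an injective map. -/
def T_MAP : Prop := ∀ {N N' : Type u} (f : N → N') (ang : N → N → N → ℝ) (ang' : N' → N' → N' → ℝ),
  Function.Injective f → (∀ v x y, ang' (f v) (f x) (f y) = ang v x y) →
  ∀ (A : ℕ) (C : Cx N) (L : List (FC N)), PD ang A C L → PD ang' A (C.map f) (L.map (FC.map f))

/-- REAL (uses MSF.T_DISC1 and T_INV.{0}, T_GB.{0}, T_SUB.{0}, T_FAN.{0}, T_MAP.{0}): every disc
diagram in `G` is the image of a planar disc on `ℕ`, with the same area and the same corners (`th` of a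
corner is `plen` of its fan by DISC1). Induction on `Disc`. base, left, right and both
are `PD.both` (with digons of `ℕ` for missing pieces; relabel the two pieces by
`x ↦ if x = z₁ then 0 else 2x+1` and `x ↦ if x = z₂ then 0 else 2x+2`, and define the new `π`
accordingly). inner: `PD.inner`; its condition `¬ C.E a b`: otherwise `[a, z, b]` is a simple closed walk
of length 3 (`a → z → b` are boundary edges); SUB: a subdisc with boundary `a z b` or `b z a`. In
the first case its fan at `z` is the whole fan of `z` in `C` (FAN), `θ_z ≥ 2π - ang z b a > π`, so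
`Σ (π - θ) < 2π`, contradicting GB. In the second case its fan at `z` goes from `b` to `a`, so `T b z s`
for some `s`, contradicting `bdT` for the boundary edge `z → b`. Every corner `⟨p, v, n, F, th⟩` of the
diagram corresponds to the corner with vertex over `v` and fan over `p :: (F ++ [n])`. -/
def T_REAL : Prop := ∀ {V : Type u} (G : SimpleGraph V) (ang : V → V → V → ℝ), Angled G ang →
  (∀ v a b, G.Adj v a → G.Adj v b → G.Adj a b → ang v a b < Real.pi) →
  ∀ (A : ℕ) (D : List (Corner V)), Disc G ang A D →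
  ∃ (π : ℕ → V) (C : Cx ℕ) (L : List (FC ℕ)),
    PD (fun v a b => ang (π v) (π a) (π b)) A C L ∧
    L.map (fun c => π c.v) = D.map Corner.v ∧
    L.map (fun c => c.P.map π) = D.map (fun c => c.p :: (c.F ++ [c.n])) ∧
    (∀ x y, C.E x y → G.Adj (π x) (π y))

/-- EUC: the planar disc of REAL is Euclidean and non-obtuse (law of cosines, `angle` in `(0, π/2]`,
angle sum exactly `π`, projection identity
`c cos φ = b cos (φ + α) + a cos (φ - β)` of a Euclidean triangle). -/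
def T_EUC : Prop := ∀ {V : Type u} (G : SimpleGraph V) (len : V → V → ℝ),
  IsMetricComplex G len → NonObtuse G len →
  ∀ (π : ℕ → V) (C : Cx ℕ), (∀ x y, C.E x y → G.Adj (π x) (π y)) →
  (∀ x y z, C.T x y z → C.T y z x) → (∀ x y z, C.T x y z → C.E x y) →
  Euc (fun x y => len (π x) (π y)) (fun v x y => angle len (π v) (π x) (π y)) C

end Pool.Agent.MSN
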