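import Pool.Agent.MSN.Defs
import Pool.Agent.MSF.Basic

/-!
# Module M1 of MSN (UNIQ): MSF with values in `ZMod 2`

Port of the MSF files to null cyclic lists with a value: `NullW G ω m w t`. Every `T_WX` is the
MSF target `T_X` with values; the proof is the proof of MSF/X.lean with the values carried along.
Values are in `ZMod 2` (`x + x = 0`: `CharTwo.add_self_eq_zero`), `ω` is symmetric (`Sym3 ω`).
-/

namespace Pool.Agent.MSN

open List Pool.Agent.MSF

universe u

section defs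

variable {V : Type u}

/-- `NullW G ω m w t`: the cyclic list `w` bounds a disc diagram with at most `m` triangles and sum of
`ω` equal to `t`. -/
inductive NullW (G : SimpleGraph V) (ω : V → V → V → ZMod 2) : ℕ → List V → ZMod 2 → Prop
  | pt (a : V) : NullW G ω 0 [a] 0
  | dig {a b : V} (h : G.Adj a b) : NullW G ω 0 [a, b] 0
  | rot {m : ℕ} {a : V} {l : List V} {t : ZMod 2} (h : NullW G ω m (a :: l) t) :
      NullW G ω m (l ++ [a]) t
  | tri {m : ℕ} {a b z : V} {l : List V} {t : ZMod 2} (hab : G.Adj a b) (haz : G.Adj a z)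
      (hzb : G.Adj z b) (h : NullW G ω m (a :: z :: b :: l) t) :
      NullW G ω (m + 1) (a :: b :: l) (t + ω a b z)
  | split {m n : ℕ} {a : V} {l l' : List V} {t t' : ZMod 2} (hl : l ≠ []) (hl' : l' ≠ [])
      (h : NullW G ω m (a :: l) t) (h' : NullW G ω n (a :: l') t') :
      NullW G ω (m + n) (a :: (l ++ a :: l')) (t + t')
  | weak {m : ℕ} {w : List V} {t : ZMod 2} (h : NullW G ω m w t) : NullW G ω (m + 1) w t

/-- Rooted closed paths with a filling. -/
def NullRW (G : SimpleGraph V) (ω : V → V → V → ZMod 2) (m : ℕ) (P : List V) (t : ZMod 2) : Prop :=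
  ((∃ a, P = [a]) ∧ t = 0) ∨ ∃ a l, l ≠ [] ∧ P = a :: (l ++ [a]) ∧ NullW G ω m (a :: l) t

/-- Value of a fan at `v`. -/
def fval (ω : V → V → V → ZMod 2) (v : V) : List V → ZMod 2
  | [] => 0
  | [_] => 0
  | (a :: b :: l) => ω v a b + fval ω v (b :: l)

/-- Value of the cone over a cyclic list in the link of `v`. -/
def cval (ω : V → V → V → ZMod 2) (v : V) : List V → ZMod 2
  | [] => 0
  | (a :: l) => fval ω v (a :: (l ++ [a]))

/-- `A` is the minimal area of fillings of `w` with value `t`. -/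
def MinW (G : SimpleGraph V) (ω : V → V → V → ZMod 2) (A : ℕ) (w : List V) (t : ZMod 2) : Prop :=
  NullW G ω A w t ∧ ∀ k, NullW G ω k w t → A ≤ k

/-- `w` does not split into two shorter closed walks with total area at most `A` and total
value `t`. -/
def IrrW (G : SimpleGraph V) (ω : V → V → V → ZMod 2) (A : ℕ) (w : List V) (t : ZMod 2) : Prop :=
  ∀ (c : V) (s r : List V) (m n : ℕ) (x y : ZMod 2), w ~r (c :: (s ++ c :: r)) → s ≠ [] → r ≠ [] →
    NullW G ω m (c :: s) x → NullW G ω n (c :: r) y → x + y = t → A < m + n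

/-- Spheres of area at most `N` have value `0`. -/
def SphN (G : SimpleGraph V) (ω : V → V → V → ZMod 2) (N : ℕ) : Prop :=
  ∀ (m : ℕ) (a b : V) (x : ZMod 2), m ≤ N → NullW G ω m [a, b] x → x = 0

/-- Disc diagrams (as `MSF.Disc`) with their value. -/
inductive DiscW (G : SimpleGraph V) (ang : V → V → V → ℝ) (ω : V → V → V → ZMod 2) :
    ℕ → List (Corner V) → ZMod 2 → Prop
  | base {a b z : V} (hab : G.Adj a b) (haz : G.Adj a z) (hzb : G.Adj z b) :
      DiscW G ang ω 1
        [⟨z, a, b, [], ang a z b⟩, ⟨a, b, z, [], ang b a z⟩, ⟨b, z, a, [], ang z b a⟩] (ω a b z)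
  | rot {m : ℕ} {c : Corner V} {D : List (Corner V)} {t : ZMod 2}
      (h : DiscW G ang ω m (c :: D) t) : DiscW G ang ω m (D ++ [c]) t
  | inner {m : ℕ} {a b z x y : V} {Fa Fz Fb : List V} {ta tz tb : ℝ} {D : List (Corner V)}
      {t : ZMod 2} (hab : G.Adj a b) (haz : G.Adj a z) (hzb : G.Adj z b)
      (h : DiscW G ang ω m
        (⟨x, a, z, Fa, ta⟩ :: ⟨a, z, b, Fz, tz⟩ :: ⟨z, b, y, Fb, tb⟩ :: D) t)
      (hz : 2 * Real.pi ≤ tz + ang z b a) :
      DiscW G ang ω (m + 1)
        (⟨x, a, b, Fa ++ [z], ta + ang a z b⟩ :: ⟨a, b, y, z :: Fb, tb + ang b a z⟩ :: D)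
        (t + ω a b z)
  | left {n : ℕ} {a b z x y : V} {Fa Fz : List V} {ta tz : ℝ} {D : List (Corner V)} {t : ZMod 2}
      (hab : G.Adj a b) (haz : G.Adj a z) (hzb : G.Adj z b)
      (h : DiscW G ang ω n (⟨a, z, y, Fz, tz⟩ :: (D ++ [⟨x, a, z, Fa, ta⟩])) t) :
      DiscW G ang ω (n + 1)
        (⟨x, a, b, Fa ++ [z], ta + ang a z b⟩ :: ⟨a, b, z, [], ang b a z⟩ ::
          ⟨b, z, y, a :: Fz, tz + ang z b a⟩ :: D) (t + ω a b z)
  | right {m : ℕ} {a b z x y : V} {Fz Fb : List V} {tz tb : ℝ} {D : List (Corner V)} {t : ZMod 2}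
      (hab : G.Adj a b) (haz : G.Adj a z) (hzb : G.Adj z b)
      (h : DiscW G ang ω m (⟨x, z, b, Fz, tz⟩ :: ⟨z, b, y, Fb, tb⟩ :: D) t) :
      DiscW G ang ω (m + 1)
        (⟨z, a, b, [], ang a z b⟩ :: ⟨a, b, y, z :: Fb, tb + ang b a z⟩ ::
          (D ++ [⟨x, z, a, Fz ++ [b], tz + ang z b a⟩])) (t + ω a b z)
  | both {m n : ℕ} {a b z x y x' y' : V} {Fa Fz Fb Fz' : List V} {ta tz tb tz' : ℝ}
      {D D' : List (Corner V)} {t t' : ZMod 2}
      (hab : G.Adj a b) (haz : G.Adj a z) (hzb : G.Adj z b)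
      (h : DiscW G ang ω m (⟨x, z, b, Fz, tz⟩ :: ⟨z, b, y, Fb, tb⟩ :: D) t)
      (h' : DiscW G ang ω n (⟨a, z, y', Fz', tz'⟩ :: (D' ++ [⟨x', a, z, Fa, ta⟩])) t') :
      DiscW G ang ω (m + n + 1)
        (⟨x', a, b, Fa ++ [z], ta + ang a z b⟩ :: ⟨a, b, y, z :: Fb, tb + ang b a z⟩ ::
          (D ++ ⟨x, z, y', Fz ++ b :: a :: Fz', tz + ang z b a + tz'⟩ :: D')) (t + t' + ω a b z)

end defs

/-- WBAS: basic facts (MSF/Basic.lean): forget the value; existence of a value; rotation; monotone;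
reversal keeps the value (Sym3); loops; spurs; triangles at any place; single triangle. -/
structure WBas {V : Type u} (G : SimpleGraph V) (ω : V → V → V → ZMod 2) : Prop where
  forget : ∀ m w t, NullW G ω m w t → Null G m w
  ex : ∀ m w, Null G m w → ∃ t, NullW G ω m w t
  rotated : ∀ m w w' t, NullW G ω m w t → w ~r w' → NullW G ω m w' t
  mono : ∀ m n w t, NullW G ω m w t → m ≤ n → NullW G ω n w t
  reverse : ∀ m w t, NullW G ω m w t → NullW G ω m w.reverse t
  loop : ∀ m n a X Y L x y, NullW G ω m (X ++ a :: Y) x → L ≠ [] → NullW G ω n (a :: L) y →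
    X ++ Y ≠ [] → NullW G ω (m + n) (X ++ a :: (L ++ a :: Y)) (x + y)
  spur : ∀ m a b X Y x, NullW G ω m (X ++ a :: Y) x → G.Adj a b → X ++ Y ≠ [] →
    NullW G ω m (X ++ a :: b :: a :: Y) x
  triAt : ∀ m a b z X Y x, NullW G ω m (X ++ a :: z :: b :: Y) x → G.Adj a b → G.Adj a z →
    G.Adj z b → NullW G ω (m + 1) (X ++ a :: b :: Y) (x + ω a b z)
  push : ∀ m a b z X Y x, NullW G ω m (X ++ a :: b :: Y) x → G.Adj a b → G.Adj a z →
    G.Adj z b → NullW G ω (m + 1) (X ++ a :: z :: b :: Y) (x + ω a b z)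
  triangle : ∀ a b c, G.Adj a b → G.Adj b c → G.Adj a c → NullW G ω 1 [a, b, c] (ω a b c)
  len1 : ∀ m a x, NullW G ω m [a] x → x = 0

/-- WBAS. -/
def T_WBAS : Prop := ∀ {V : Type u} (G : SimpleGraph V) (ω : V → V → V → ZMod 2), Sym3 ω → WBas G ω

/-- WPEEL: MSF/PEEL.lean with values. -/
def T_WPEEL : Prop := ∀ {V : Type u} (G : SimpleGraph V) (ω : V → V → V → ZMod 2), Sym3 ω →
  ∀ (m : ℕ) (w : List V) (x : ZMod 2), NullW G ω m w x →
  ∀ (q p : V) (t : List V), w ~r (q :: (t ++ [p])) →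
  (∃ (z : V) (m' : ℕ) (x' : ZMod 2), m' < m ∧ G.Adj p q ∧ G.Adj p z ∧ G.Adj z q ∧
      x = x' + ω p q z ∧ NullW G ω m' (z :: q :: (t ++ [p])) x') ∨
  (∃ (P Q : List V) (m₁ m₂ : ℕ) (x₁ x₂ : ZMod 2), q :: (t ++ [p]) = P ++ Q ∧
      NullRW G ω m₁ P x₁ ∧ NullRW G ω m₂ Q x₂ ∧ m₁ + m₂ ≤ m ∧ x = x₁ + x₂)

/-- WZIP (uses T_WPEEL): MSF/ZIP.lean with values. Zipping may discard a sphere (a filling of `[a, b]`,
in the case `Q = [a, b, a]`); its area is at most `m ≤ N` and its value is `0` by `SphN`. -/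
def T_WZIP : Prop := ∀ {V : Type u} (G : SimpleGraph V) (ω : V → V → V → ZMod 2), Sym3 ω →
  ∀ (N : ℕ), SphN G ω N → ∀ (m : ℕ) (a b : V) (X Y : List V) (x : ZMod 2), m ≤ N →
  Y ++ X ≠ [] → NullW G ω m (X ++ a :: b :: a :: Y) x → NullW G ω m (X ++ a :: Y) x

/-- WGLUE (uses T_WZIP, T_WBAS): MSF/GLUE.lean with values. -/
def T_WGLUE : Prop := ∀ {V : Type u} (G : SimpleGraph V) (ω : V → V → V → ZMod 2), Sym3 ω →
  ∀ (N : ℕ), SphN G ω N → ∀ (m n : ℕ) (s t : V) (P Q R : List V) (x y : ZMod 2), m + n ≤ N →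
  NullW G ω m (s :: (Q ++ t :: R)) x → NullW G ω n (s :: (P ++ t :: Q.reverse)) y →
  NullW G ω (m + n) (s :: (P ++ t :: R)) (x + y)

/-- WGEN (uses T_WZIP, T_WBAS): remove a null loop (MSF/GLUE.lean, tGEN). -/
def T_WGEN : Prop := ∀ {V : Type u} (G : SimpleGraph V) (ω : V → V → V → ZMod 2), Sym3 ω →
  ∀ (N : ℕ), SphN G ω N → ∀ (m n : ℕ) (a : V) (l l' : List V) (x y : ZMod 2), m + n ≤ N →
  l ≠ [] → l' ≠ [] → NullW G ω m (a :: (l ++ a :: l')) x → NullW G ω n (a :: l') y →
  NullW G ω (m + n) (a :: l) (x + y)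

/-- WFILL (uses T_WBAS): short closed walks in links bound discs with the expected area and with
the value of the cone (MSF/FILL.lean). Removing an ear `x, y, z` with `x ~ z` of the closed walk
`c` in the link of `v` changes `cval` by `ω v x y + ω v y z + ω v x z = ω x y z` (Cocy); an ear
`x, y, x` changes it by `ω v x y + ω v y x = 0`; for two vertices `cval = 0`. -/
def T_WFILL : Prop := ∀ {V : Type u} (G : SimpleGraph V) (ang : V → V → V → ℝ)
  (ω : V → V → V → ZMod 2), Angled G ang → Sym3 ω → Cocy G ω →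
  ∀ (v : V) (c : List V), 2 ≤ c.length → CW G c → (∀ x ∈ c, G.Adj v x) →
  clen ang v c < 2 * Real.pi → NullW G ω (c.length - 2) c (cval ω v c)

/-- WEXP (single corner version of MSF/DISC3.lean, with values; uses T_DISC1, T_WBAS): expansion of
one corner `c` of a disc diagram: remove the `c.F.length + 1` triangles at `c`. Induction on
`DiscW`; also needed in the induction: the unexpanded statement `NullW G ω A (D.map v) t`. In the case
both with `c` the corner at `z`: the new closed walk is `a, b, D, Fz, b, a, Fz', D'` (up to rotation): the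
expansions of the two pieces at `z`, joined by the digon `a b` (loops at `b` and at `a`). -/
def T_WEXP : Prop := ∀ {V : Type u} (G : SimpleGraph V) (ang : V → V → V → ℝ)
  (ω : V → V → V → ZMod 2), Angled G ang → Sym3 ω →
  ∀ (A : ℕ) (D : List (Corner V)) (t : ZMod 2), DiscW G ang ω A D t →
    NullW G ω A (D.map Corner.v) t ∧
    ∀ (D₁ D₂ : List (Corner V)) (c : Corner V), D = D₁ ++ c :: D₂ →
      ∃ k, NullW G ω k (D₁.map Corner.v ++ (c.F ++ D₂.map Corner.v))
        (t + fval ω c.v (c.p :: (c.F ++ [c.n]))) ∧ k + c.F.length + 1 ≤ A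

/-- WFOR: forget the value of a disc diagram. -/
def T_WFOR : Prop := ∀ {V : Type u} (G : SimpleGraph V) (ang : V → V → V → ℝ)
  (ω : V → V → V → ZMod 2) (A : ℕ) (D : List (Corner V)) (t : ZMod 2), DiscW G ang ω A D t →
    Disc G ang A D

/-- WA3 (uses T_WPEEL, T_WBAS): MSF/A3.lean with values. -/
def T_WA3 : Prop := ∀ {V : Type u} (G : SimpleGraph V) (ω : V → V → V → ZMod 2), Sym3 ω →
  ∀ (A : ℕ) (a b : V) (l : List V) (x : ZMod 2), l ≠ [] →
  MinW G ω A (a :: b :: l) x → IrrW G ω A (a :: b :: l) x →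
  ∃ (z : V) (k : ℕ), k + 1 = A ∧ G.Adj a b ∧ G.Adj a z ∧ G.Adj z b ∧
    MinW G ω k (a :: z :: b :: l) (x + ω a b z)

/-- WRED (uses T_WBAS): MSF/RED.lean with values. The pieces have values `x₁ + x₂ = x`. -/
def T_WRED : Prop := ∀ {V : Type u} (G : SimpleGraph V) (ω : V → V → V → ZMod 2), Sym3 ω →
  ∀ (k : ℕ) (a b z : V) (l : List V) (x : ZMod 2), l ≠ [] →
  G.Adj a b → G.Adj a z → G.Adj z b →
  MinW G ω (k + 1) (a :: b :: l) (x + ω a b z) → IrrW G ω (k + 1) (a :: b :: l) (x + ω a b z) →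
  MinW G ω k (a :: z :: b :: l) x → ¬ IrrW G ω k (a :: z :: b :: l) x →
  ∃ (l₁ l₂ : List V) (m n : ℕ) (x₁ x₂ : ZMod 2), l = l₁ ++ z :: l₂ ∧ m + n = k ∧ x₁ + x₂ = x ∧
    MinW G ω m (z :: b :: l₁) x₁ ∧ IrrW G ω m (z :: b :: l₁) x₁ ∧
    MinW G ω n (z :: (l₂ ++ [a])) x₂ ∧ IrrW G ω n (z :: (l₂ ++ [a])) x₂

/-- WANGZ (uses T_DISC1, T_WFOR, T_WEXP, T_WFILL, T_WGLUE): MSF/ANGZ.lean with values. If the total
angle at the new interior vertex `z` is less than `2π`, fill the closed walk `a, Fz, b` in the link of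
`z` (WFILL, value `fval z (a Fz b) + ω z b a`), expand the corner `z` (WEXP, value
`t + fval z (a Fz b)`), and glue (WGLUE, total area `≤ k - 1 ≤ N`): a filling of `a b …` with value
`t + ω a b z` and smaller area. -/
def T_WANGZ : Prop := ∀ {V : Type u} (G : SimpleGraph V) (ang : V → V → V → ℝ)
  (ω : V → V → V → ZMod 2), Angled G ang → Sym3 ω → Cocy G ω → ∀ (N : ℕ), SphN G ω N →
  ∀ (k : ℕ) (a b z x y : V) (Fa Fz Fb : List V) (ta tz tb : ℝ) (D : List (Corner V)) (t : ZMod 2),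
  k ≤ N → G.Adj a b → G.Adj a z → G.Adj z b →
  MinW G ω (k + 1) (a :: b :: D.map Corner.v) (t + ω a b z) →
  DiscW G ang ω k (⟨x, a, z, Fa, ta⟩ :: ⟨a, z, b, Fz, tz⟩ :: ⟨z, b, y, Fb, tb⟩ :: D) t →
  2 * Real.pi ≤ tz + ang z b a

/-- WDEX (uses T_WA3, T_WRED, T_WANGZ, T_DISC1, T_WFOR): MSF/DEX.lean with values. -/
def T_WDEX : Prop := ∀ {V : Type u} (G : SimpleGraph V) (ang : V → V → V → ℝ)
  (ω : V → V → V → ZMod 2), Angled G ang → Sym3 ω → Cocy G ω → ∀ (N : ℕ), SphN G ω N →
  ∀ (A : ℕ) (w : List V) (t : ZMod 2), A ≤ N → 3 ≤ w.length → MinW G ω A w t → IrrW G ω A w t →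
  ∃ D : List (Corner V), DiscW G ang ω A D t ∧ D.map Corner.v = w

/-- Uniqueness of the value for pairs of fillings of total area at most `N`. -/
def UnN {V : Type u} (G : SimpleGraph V) (ω : V → V → V → ZMod 2) (N : ℕ) : Prop :=
  ∀ (m n : ℕ) (w : List V) (t t' : ZMod 2), m + n ≤ N → NullW G ω m w t → NullW G ω n w t' → t = t'

/-- WPD (pair of discs; uses T_WBAS, T_WGLUE, T_WFILL, T_WEXP, T_WFOR, T_WDEX, T_DISC1, T_DISC2): two
minimal irreducible fillings of the same closed walk of length ≥ 3 with different values are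
impossible, if pairs of smaller total area have equal values (`m + n = N + 1`, `UnN N`, areas
`m, n ≤ M` and `SphN M`, and `m + n - 2 ≤ M`). WDEX: discs `D`, `D'` with the same boundary `w`. GB
(T_DISC2 with WFOR) twice: `Σ (2π - θᵢ - θ'ᵢ) ≥ 4π`, so some index `i` has `θᵢ + θ'ᵢ < 2π`. Let `x = wᵢ`,
predecessor `p`, successor `q` (equal for both discs by T_DISC1), fans `F`, `F'`. The closed walk
`c = p, F, q, F'.reverse` in the link of `x` has `clen = θᵢ + θ'ᵢ < 2π`: WFILL: area `|F| + |F'|`, value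
`fval x (p F q) + fval x (p F' q)`. WEXP: `w` with `x` replaced by `F` has a filling of area
`k ≤ m - |F| - 1`, value `t + fval x (p F q)`; `w` with `x` replaced by `F'` has one of area
`k' ≤ n - |F'| - 1`, value `t' + fval x (p F' q)`; WGLUE the latter with the filling of `c` (total area
`≤ n - 1 + |F| ≤ m + n - 2 ≤ M`): `w` with `x` replaced by `F` has a filling of value
`t' + fval x (p F q)`. The total area of the two fillings of this closed walk is `≤ m + n - 2 ≤ N`,
and their values are different, contradicting `UnN N`. -/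
def T_WPD : Prop := ∀ {V : Type u} (G : SimpleGraph V) (ang : V → V → V → ℝ)
  (ω : V → V → V → ZMod 2), Angled G ang → Sym3 ω → Cocy G ω → ∀ (M N : ℕ), SphN G ω M →
  UnN G ω N → ∀ (m n : ℕ) (w : List V) (t t' : ZMod 2), m + n = N + 1 → m ≤ M → n ≤ M →
  m + n ≤ M + 2 → 3 ≤ w.length → MinW G ω m w t → IrrW G ω m w t → MinW G ω n w t' →
  IrrW G ω n w t' → t = t'

/-- WPAIR (uses T_WBAS, T_WPEEL, T_WGEN, T_WPD): uniqueness of the value. Show `UnN N` by induction on
`N`. `N = 0`: area 0 fillings have value 0 (induction on NullW). Step `N → N + 1`: `UnN N` implies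
`SphN N` (compare with `dig`).
 First `SphN (N+1)`: let `[a, b]` have a filling of area `N + 1` and value `1`. WPEEL: the second
alternative gives value 0 (paths `[a]`, `[b]`); the first gives a filling of `[a, z, b]` (up to
rotation) of area `m ≤ N` and value `1 + ω a b z`, and `[a, z, b]` has the filling of area `1`, value
`ω a b z` (WBas.triangle). If `m + 1 ≤ N`: contradiction to `UnN N`. So `m = N ≥ 1`; both are minimal
for their values (`UnN N`), irreducible (a closed walk of length 3 has no repeated vertex); WPD with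
`M = N`.
 Then `UnN (N+1)`: strong induction on `|w|`. Let `w` have fillings `(m, t)`, `(n, t')`, `t ≠ t'`,
`m + n ≤ N + 1`; so `= N + 1`. `|w| = 1`: `len1`. `|w| = 2`: `SphN (N+1)`. `|w| ≥ 3`: both are minimal for their
values. If one is reducible, say `w ~r a :: (l ++ a :: l')` with fillings `(n₁,t₁)` of `a :: l`, `(n₂,t₂)` of
`a :: l'`, `t₁ + t₂ = t'`, `n₁ + n₂ ≤ n`: WGEN (total `≤ N + 1`) gives for the shorter closed walk `a :: l` the
fillings `(n₁, t₁)` and `(m + n₂, t + t₂)`, with `t₁ ≠ t + t₂`: contradiction to the induction on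
length. Otherwise WPD with `M = N + 1`. -/
def T_WPAIR : Prop := ∀ {V : Type u} (G : SimpleGraph V) (ang : V → V → V → ℝ)
  (ω : V → V → V → ZMod 2), Angled G ang → Sym3 ω → Cocy G ω →
  ∀ (m n : ℕ) (w : List V) (t t' : ZMod 2), NullW G ω m w t → NullW G ω n w t' → t = t'

/-- WH (uses T_WZIP, T_WBAS): MSF/H2N.lean with values: fillings follow homotopies, if values are
unique (all spheres have value 0: SphN for all N). -/
def T_WH : Prop := ∀ {V : Type u} (G : SimpleGraph V) (ω : V → V → V → ZMod 2), Sym3 ω →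
  (∀ N, UnN G ω N) →
  ∀ (P Q : List V) (t : ZMod 2), HW G ω P Q t → ∀ x : ZMod 2,
    ((∃ m, NullRW G ω m P x) ↔ ∃ m, NullRW G ω m Q (x + t))

/-- WUNIQ: UNIQ from WPAIR and WH. If `HW G ω P P t` for a path `P`, append `P.reverse.tail` (HW is
closed under contexts): the closed path `P ++ P.reverse.tail` has a filling with value `0`
(backtracks) and so, by WH, one with value `t`; WPAIR. (`|P| = 1`: `len1`.) -/
def T_WUNIQ : Prop := T_WBAS.{u} → T_WPAIR.{u} → T_WH.{u} → T_UNIQ.{u}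

/-! ### Module M2: INJ -/

/-- INJN: INJ for cyclic lists. Strong induction on `(A, length)`. Let `w` be a closed walk in the
link `L` of `v`, null in `delG G v` with minimal area `A`. Length 1, 2: null in `L`. If `w` is not
irreducible (for `delG G v`): two shorter closed walks in `L`, with areas at most `A`; both null in
`L`, hence `w` (Null.loop). Otherwise T_DS for `delG G v` (Angled by T_RES): disc with corners of
angles `θᵢ`; let `uᵢ = ang xᵢ v x_{i+1}`, `u'ᵢ = ang xᵢ v x_{i-1}` (angles at `xᵢ` of the triangles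
`v xᵢ x_{i+1}`, `v x_{i-1} xᵢ`): `uᵢ + u'_{i+1} < π` (sum_le, pos), `Σ θᵢ ≤ (n-2)π`, so
`Σ (uᵢ + u'ᵢ + θᵢ) < 2nπ` and some corner `y` (`p = x`, `n = z`) has `u + u' + θ < 2π`. Among all lists `F`
with `x :: (F ++ [z])` a path of `delG G v` in the link of `y`, `plen y (x F z) + u + u' < 2π` and
`Null (delG) k (x F z R)`, `k + |F| + 1 ≤ A` (where `w ~r x :: y :: z :: R`), choose one with `|F|` minimal.
`F = []`: `x ~ z` (or `x = z`: then `w` has a spur; ZIP, shorter): `x z R` is a closed walk in `L` of area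
≤ `A - 1`: IH, and push over `y` (triangle `x y z` in `L`). `F ≠ []`: `Angled.large` at `y` with `a := v`,
`b := x`, `l := F ++ [z]` (closed walk `v, x, F, z` in the link of `y`, length < 2π): the path
`x, F, z, v` has an ear. An ear centred at an element of `F` can be removed (ZIP or triangle;
angle inequality `link`), contradicting minimality. So the ear is centred at `z`: the last `f` of `F` is
adjacent to `v` (`f ≠ v`). Then `x, y, f, z, R` is a closed walk in `L`; CONE in `delG` over the path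
`x, F` (all but `z`) gives area `≤ k + |F| ≤ A - 1`. IH: null in `L`; `y, f, z` is a triangle of `L`, so `w` is
null in `L` (triAt). See MSF/T3.lean for a very similar proof. -/
def T_INJN : Prop := ∀ {V : Type u} (G : SimpleGraph V) (ang : V → V → V → ℝ), Angled G ang →
  ∀ (v : V) (w : List V), (∀ x ∈ w, G.Adj v x) → CW G w → (∃ A, Null (delG G v) A w) →
    ∃ A, Null (lkG G v) A w

/-- INJ: from INJN (translation between homotopies and null cyclic lists: `null_homotopic` in
MSF/N2H.lean, `eqv_iff` in MSF/H2N.lean; uses MSF.T_ZIP). -/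
def T_INJA : Prop := Pool.Agent.MSF.T_ZIP.{u} → T_INJN.{u} → T_INJ.{u}

end Pool.Agent.MSN
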