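import Pool.Agent.MSN.WDefs

/-! Target WFILL of the project MSN: short closed walks in links, with values. -/

set_option autoImplicit false

namespace Pool.Agent.MSN

open List Pool.Agent.MSF

universe u

namespace WFILL

variable {V : Type u} {G : SimpleGraph V} {ang : V → V → V → ℝ} {ω : V → V → V → ZMod 2}

theorem plen_append (ang : V → V → V → ℝ) (v a : V) (X Y : List V) :
    plen ang v (X ++ a :: Y) = plen ang v (X ++ [a]) + plen ang v (a :: Y) := by
  induction X with
  | nil => simp [plen]
  | cons x X ih =>
    cases X with
    | nil => simp [plen]
    | cons x' X =>
      simp only [List.cons_append, plen] at ih ⊢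
      rw [ih]
      ring

theorem clen_rot (ang : V → V → V → ℝ) (v a : V) (l : List V) (hl : l ≠ []) :
    clen ang v (l ++ [a]) = clen ang v (a :: l) := by
  cases l with
  | nil => exact absurd rfl hl
  | cons b l =>
    have h1 : clen ang v ((b :: l) ++ [a]) = plen ang v ((b :: l) ++ a :: [b]) := by
      simp [clen]
    rw [h1, plen_append]
    simp only [clen, plen, List.cons_append]
    ring

theorem clen_rotate (ang : V → V → V → ℝ) (v : V) (c : List V) (hc : 2 ≤ c.length) (n : ℕ) :
    clen ang v (c.rotate n) = clen ang v c := by
  induction n with
  | zero => simp
  | succ n ih =>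
    rw [← List.rotate_rotate]
    cases hw : c.rotate n with
    | nil =>
      have := congrArg List.length hw
      simp only [List.length_rotate, List.length_nil] at this
      omega
    | cons a l =>
      have hlen := congrArg List.length hw
      simp only [List.length_rotate, List.length_cons] at hlen
      have hl : l ≠ [] := by
        rintro rfl
        simp at hlen
        omega
      rw [hw] at ih
      rw [List.rotate_cons_succ, List.rotate_zero, clen_rot ang v a l hl, ih]

theorem clen_rotated (ang : V → V → V → ℝ) (v : V) {c c' : List V} (hc : 2 ≤ c.length)
    (h : c ~r c') : clen ang v c' = clen ang v c := by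
  obtain ⟨n, rfl⟩ := h
  exact clen_rotate ang v c hc n

theorem fval_append (ω : V → V → V → ZMod 2) (v a : V) (X Y : List V) :
    fval ω v (X ++ a :: Y) = fval ω v (X ++ [a]) + fval ω v (a :: Y) := by
  induction X with
  | nil => simp [fval]
  | cons x X ih =>
    cases X with
    | nil => simp [fval]
    | cons x' X =>
      simp only [List.cons_append, fval] at ih ⊢
      rw [ih]
      ring

theorem cval_rot (ω : V → V → V → ZMod 2) (v a : V) (l : List V) (hl : l ≠ []) :
    cval ω v (l ++ [a]) = cval ω v (a :: l) := by
  cases l with
  | nil => exact absurd rfl hl
  | cons b l =>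
    have h1 : cval ω v ((b :: l) ++ [a]) = fval ω v ((b :: l) ++ a :: [b]) := by
      simp [cval]
    rw [h1, fval_append]
    simp only [cval, fval, List.cons_append]
    ring

theorem cval_rotate (ω : V → V → V → ZMod 2) (v : V) (c : List V) (hc : 2 ≤ c.length) (n : ℕ) :
    cval ω v (c.rotate n) = cval ω v c := by
  induction n with
  | zero => simp
  | succ n ih =>
    rw [← List.rotate_rotate]
    cases hw : c.rotate n with
    | nil =>
      have := congrArg List.length hw
      simp only [List.length_rotate, List.length_nil] at this
      omega
    | cons a l =>
      have hlen := congrArg List.length hw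
      simp only [List.length_rotate, List.length_cons] at hlen
      have hl : l ≠ [] := by
        rintro rfl
        simp at hlen
        omega
      rw [hw] at ih
      rw [List.rotate_cons_succ, List.rotate_zero, cval_rot ω v a l hl, ih]

theorem cval_rotated (ω : V → V → V → ZMod 2) (v : V) {c c' : List V} (hc : 2 ≤ c.length)
    (h : c ~r c') : cval ω v c' = cval ω v c := by
  obtain ⟨n, rfl⟩ := h
  exact cval_rotate ω v c hc n

theorem two0 : (2 : ZMod 2) = 0 := rfl

theorem fill (hB : WBas G ω) (hA : Angled G ang) (hs : Sym3 ω) (hco : Cocy G ω) (v : V) :
    ∀ (N : ℕ) (c : List V), c.length = N → 2 ≤ c.length →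
    CW G c → (∀ x ∈ c, G.Adj v x) → clen ang v c < 2 * Real.pi →
    NullW G ω (c.length - 2) c (cval ω v c) := by
  intro N
  induction N using Nat.strong_induction_on with
  | _ N ih =>
    intro c hN h2 hcw hv hlt
    match c, h2 with
    | [a, b], _ =>
      simp only [CW, List.nil_append, List.isChain_cons_cons] at hcw
      have e : cval ω v [a, b] = 0 := by
        simp only [cval, List.cons_append, List.nil_append, fval]
        rw [hs.s23 v b a]
        linear_combination ω v a b * two0
      rw [e]
      exact NullW.dig hcw.1
    | [a, b, d], _ =>
      simp only [CW, List.singleton_append, List.isChain_cons_cons] at hcw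
      have hva := hv a (by simp)
      have hvb := hv b (by simp)
      have hvd := hv d (by simp)
      have k := hco v a b d hva hvb hvd hcw.1 hcw.2.2.1.symm hcw.2.1
      have e : cval ω v [a, b, d] = ω a b d := by
        simp only [cval, List.cons_append, List.nil_append, fval]
        rw [hs.s23 v d a]
        linear_combination k - ω a b d * two0
      rw [e]
      exact hB.triangle a b d hcw.1 hcw.2.1 hcw.2.2.1.symm
    | a :: b :: d :: e :: l, _ =>
      set l' := d :: e :: l with hl'
      have hl'2 : 2 ≤ l'.length := by simp [hl']
      have hne : ¬ NoEar G (b :: (l' ++ [a])) := fun h =>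
        absurd (hA.large v a b l' hl'2 hcw hv h) (not_le.mpr hlt)
      unfold NoEar at hne
      push Not at hne
      obtain ⟨X, x, y, z, Y, hL, hxz⟩ := hne
      have hr1 : (a :: b :: l') ~r (b :: (l' ++ [a])) := by
        have := List.isRotated_append (l := [a]) (l' := b :: l')
        simpa using this
      have hr2 : (X ++ x :: y :: z :: Y) ~r (x :: y :: z :: (Y ++ X)) := by
        have := List.isRotated_append (l := X) (l' := x :: y :: z :: Y)
        simpa using this
      have hr : (a :: b :: l') ~r (x :: y :: z :: (Y ++ X)) := by
        rw [hL] at hr1
        exact hr1.trans hr2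
      set R := Y ++ X with hR
      have hlen : (a :: b :: l').length = (x :: y :: z :: R).length := hr.perm.length_eq
      have hRl : 1 ≤ R.length := by
        simp only [List.length_cons] at hlen
        omega
      have hRne : R ≠ [] := by
        rintro h
        rw [h] at hRl
        simp at hRl
      have hcw' : CW G (x :: y :: z :: R) := hcw.rotated hr
      have hv' : ∀ u ∈ x :: y :: z :: R, G.Adj v u := fun u hu => hv u (hr.mem_iff.2 hu)
      have hlt' : clen ang v (x :: y :: z :: R) < 2 * Real.pi := by
        rw [clen_rotated ang v (by simp) hr]
        exact hlt
      have hgoal : NullW G ω ((x :: y :: z :: R).length - 2) (x :: y :: z :: R)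
          (cval ω v (x :: y :: z :: R)) →
          NullW G ω ((a :: b :: l').length - 2) (a :: b :: l') (cval ω v (a :: b :: l')) := by
        intro h
        rw [hlen, ← cval_rotated ω v (by simp) hr]
        exact hB.rotated _ _ _ _ h hr.symm
      apply hgoal
      have hxy : G.Adj x y := by
        simp only [CW, List.isChain_cons_cons] at hcw'
        exact hcw'.1
      have hyz : G.Adj y z := by
        simp only [CW, List.cons_append, List.isChain_cons_cons] at hcw'
        exact hcw'.2.1
      have hvx : G.Adj v x := hv' x (by simp)
      have hvy : G.Adj v y := hv' y (by simp)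
      have hvz : G.Adj v z := hv' z (by simp)
      by_cases hxz' : x = z
      · subst hxz'
        have h1 : CW G (x :: ([y] ++ x :: R)) := hcw'
        have h2 := (CW_unsplit (by simp) hRne h1).2
        have h3 : clen ang v (x :: R) < 2 * Real.pi := by
          refine lt_of_le_of_lt ?_ hlt'
          have e1 : clen ang v (x :: y :: x :: R) =
              ang v x y + (ang v y x + plen ang v (x :: (R ++ [x]))) := by
            simp [clen, plen]
          have e2 : clen ang v (x :: R) = plen ang v (x :: (R ++ [x])) := rfl
          rw [e1, e2]
          have p1 := hA.pos v x y hvx hvy hxy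
          have p2 := hA.pos v y x hvy hvx hxy.symm
          linarith
        have h4 := ih (x :: R).length (by
            simp only [List.length_cons] at hlen hN ⊢
            omega) (x :: R) rfl (by
            simp only [List.length_cons]
            omega) h2
          (fun u hu => hv' u (by
            rcases List.mem_cons.1 hu with h | h
            · simp [h]
            · simp [h])) h3
        have e3 : cval ω v (x :: y :: x :: R) = cval ω v (x :: R) := by
          have e1 : cval ω v (x :: y :: x :: R) =
              ω v x y + (ω v y x + fval ω v (x :: (R ++ [x]))) := by
            simp [cval, fval]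
          have e2 : cval ω v (x :: R) = fval ω v (x :: (R ++ [x])) := rfl
          rw [e1, e2, hs.s23 v y x]
          linear_combination ω v x y * two0
        rw [e3]
        have h5 : NullW G ω ((x :: R).length - 2) ([] ++ x :: R) (cval ω v (x :: R)) := h4
        have h6 := hB.spur _ _ y _ _ _ h5 hxy (by simpa using hRne)
        refine hB.mono _ _ _ _ (by simpa using h6) ?_
        simp only [List.length_cons]
        omega
      · have hadj : G.Adj x z := hxz hxz'
        have h2 : CW G (x :: z :: R) := by
          simp only [CW, List.cons_append, List.isChain_cons_cons] at hcw' ⊢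
          exact ⟨hadj, hcw'.2.2⟩
        have h3 : clen ang v (x :: z :: R) < 2 * Real.pi := by
          refine lt_of_le_of_lt ?_ hlt'
          have e1 : clen ang v (x :: y :: z :: R) =
              ang v x y + (ang v y z + plen ang v (z :: (R ++ [x]))) := by
            simp [clen, plen]
          have e2 : clen ang v (x :: z :: R) = ang v x z + plen ang v (z :: (R ++ [x])) := by
            simp [clen, plen]
          rw [e1, e2]
          have := hA.link v x y z hvx hvy hvz hxy hyz hadj
          linarith
        have h4 := ih (x :: z :: R).length (by
            simp only [List.length_cons] at hlen hN ⊢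
            omega) (x :: z :: R) rfl (by
            simp only [List.length_cons]
            omega) h2
          (fun u hu => hv' u (by
            rcases List.mem_cons.1 hu with h | h
            · simp [h]
            · rcases List.mem_cons.1 h with h | h
              · simp [h]
              · simp [h])) h3
        have e3 : cval ω v (x :: y :: z :: R) = cval ω v (x :: z :: R) + ω x z y := by
          have e1 : cval ω v (x :: y :: z :: R) =
              ω v x y + (ω v y z + fval ω v (z :: (R ++ [x]))) := by
            simp [cval, fval]
          have e2 : cval ω v (x :: z :: R) = ω v x z + fval ω v (z :: (R ++ [x])) := by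
            simp [cval, fval]
          have k := hco v x y z hvx hvy hvz hxy hadj hyz
          rw [e1, e2, hs.s23 x z y]
          linear_combination k - (ω x y z + ω v x z) * two0
        rw [e3]
        have h5 : NullW G ω ((x :: z :: R).length - 2) ([] ++ x :: z :: R)
          (cval ω v (x :: z :: R)) := h4
        have h6 := hB.push _ _ _ y _ _ _ h5 hadj hxy hyz
        refine hB.mono _ _ _ _ (by simpa using h6) ?_
        simp only [List.length_cons]
        omega

end WFILL

theorem tWFILL (h0 : T_WBAS.{u}) : T_WFILL.{u} := by
  intro V G ang ω hA hs hco v c h2 hcw hv hlt
  exact WFILL.fill (h0 G ω hs) hA hs hco v c.length c rfl h2 hcw hv hlt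

end Pool.Agent.MSN
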